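import Mathlib
set_option autoImplicit false

namespace Pool.Agent.Helper615.LogA

open Filter Asymptotics

noncomputable def pw (e : ℝ) (n : ℕ) : ℝ := Real.exp (-(e * Real.log n))

noncomputable def PW (q : ℝ) : Submodule ℝ (ℕ → ℝ) :=
  Submodule.span ℝ {u | ∃ e : ℝ, q ≤ e ∧ u = pw e}

noncomputable def UU (w : ℝ) : Submodule ℝ (ℕ → ℝ → ℝ) :=
  Submodule.span ℝ {F | ∃ (p : ℕ) (q : ℝ), w ≤ q ∧ F = fun m t => (t * pw (-(2/3)) m) ^ p * pw q m}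

def An (F : ℕ → ℝ → ℝ) : Prop :=
  ∀ J : ℕ, ∃ (C : ℝ) (a : ℕ → ℕ → ℝ), ∀ᶠ K : ℕ in atTop,
    (∀ j ≤ J, |a K j| ≤ C * pw (-(2/3)) K ^ j) ∧
    ∀ t : ℝ, 0 < t → t * pw (-(2/3)) K ≤ 1 →
      |F K t - ∑ j ∈ Finset.range (J + 1), a K j * t ^ j| ≤ C * (t * pw (-(2/3)) K) ^ (J + 1)

def Small (θ β : ℝ) (F : ℕ → ℝ → ℝ) : Prop :=
  ∀ r : ℕ, (fun K : ℕ => F K (pw θ K / 2 ^ r)) =o[atTop] fun K : ℕ => pw (θ * β) K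

def Neg (θ β : ℝ) (l : ℕ) (F : ℕ → ℝ → ℝ) : Prop :=
  ∃ (s : Finset (ℝ × ℕ)) (c : ℕ → ℝ × ℕ → ℝ), (∀ x ∈ s, x.1 = β → x.2 < l) ∧
    Small θ β (fun K t => F K t - ∑ x ∈ s, c K x * (t ^ x.1 * Real.log t ^ x.2))

noncomputable def XX (x : ℕ → ℕ → ℝ) (n : ℕ) (t : ℝ) : ℝ := ∑ p ∈ Finset.range 7, x p n * t ^ p

def QQ (δ σ v₀ T : ℝ) (x : ℕ → ℝ) : Prop :=
  ∃ u ∈ PW δ, ∃ v : ℕ → ℝ, (v - v₀ • pw σ) ∈ PW (σ + δ) ∧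
    (fun n => x n - u n - (-1 : ℝ) ^ n * v n) =O[atTop] pw T

noncomputable def w (x : ℝ) : ℝ := Real.exp (-(|x| ^ (3 : ℝ)))

noncomputable def ip (p q : Polynomial ℝ) : ℝ := ∫ x : ℝ, p.eval x * q.eval x * w x

end Pool.Agent.Helper615.LogA
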