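import Mathlib
import Pool.Agent.Helper615.LogA.Defs
set_option autoImplicit false

namespace Pool.Agent.Helper615.LogA

open Filter Asymptotics
theorem p1_pw_mul' (e e' : ℝ) : pw e * pw e' = pw (e + e') := by
  funext n
  simp only [pw, Pi.mul_apply]
  rw [← Real.exp_add]
  congr 1
  ring
theorem p1_pw_mem' {q e : ℝ} (h : q ≤ e) : pw e ∈ PW q :=
  Submodule.subset_span ⟨e, h, rfl⟩
theorem p1_pw_isBigO' {q e : ℝ} (h : q ≤ e) : pw e =O[atTop] pw q := by
  apply IsBigO.of_bound 1
  filter_upwards [eventually_ge_atTop 1] with n hn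
  have hl : 0 ≤ Real.log n := Real.log_nonneg (by exact_mod_cast hn)
  simp only [pw, Real.norm_eq_abs, Real.abs_exp, one_mul]
  apply Real.exp_le_exp.mpr
  nlinarith
theorem p1_pw_nat' (e : ℝ) (i : ℕ) (n : ℕ) (hn : 1 ≤ n) : pw (e + i) n = pw e n * ((1 : ℝ) / n) ^ i := by
  have hn0 : (0 : ℝ) < n := by exact_mod_cast hn
  simp only [pw]
  rw [show -((e + i) * Real.log n) = -(e * Real.log n) + (i : ℝ) * (-Real.log n) by ring,
    Real.exp_add, Real.exp_nat_mul, Real.exp_neg (Real.log n), Real.exp_log hn0, one_div]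
theorem p1_taylor' (e : ℝ) (N : ℕ) : ∃ c : ℕ → ℝ, c 0 = 1 ∧
    (fun y : ℝ => Real.exp (-(e * Real.log (1 + y))) - ∑ i ∈ Finset.range N, c i * y ^ i)
      =O[nhds 0] fun y => y ^ N := by
  have hA : AnalyticAt ℝ (fun y : ℝ => Real.exp (-(e * Real.log (1 + y)))) 0 := by
    apply AnalyticAt.rexp
    apply AnalyticAt.neg
    apply AnalyticAt.mul analyticAt_const
    apply AnalyticAt.log (analyticAt_const.add analyticAt_id)
    simp
  obtain ⟨p, hp⟩ := hA
  refine ⟨p.coeff, ?_, ?_⟩
  · have := hp.coeff_zero (fun _ => (1 : ℝ))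
    have h2 : p.coeff 0 = p 0 (fun _ => (1:ℝ)) := by
      simp only [FormalMultilinearSeries.coeff]
      congr 1
    rw [h2, this]
    simp
  · have := hp.isBigO_sub_partialSum_pow N
    have h3 : (fun y : ℝ => ‖y‖ ^ N) =O[nhds 0] fun y => y ^ N := by
      apply IsBigO.of_bound 1
      filter_upwards with y
      simp
    refine IsBigO.trans ?_ h3
    refine this.congr_left ?_
    intro y
    simp only [zero_add, FormalMultilinearSeries.partialSum]
    congr 1
    apply Finset.sum_congr rfl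
    intro i _
    rw [FormalMultilinearSeries.apply_eq_pow_smul_coeff, smul_eq_mul, mul_comm]
theorem p1_pw_shift' (e : ℝ) (N : ℕ) : ∃ c : ℕ → ℝ, c 0 = 1 ∧
    (fun n : ℕ => pw e (n + 1) - ∑ i ∈ Finset.range N, c i * pw (e + i) n)
      =O[atTop] pw (e + N) := by
  obtain ⟨c, hc0, hc⟩ := p1_taylor' e N
  refine ⟨c, hc0, ?_⟩
  have ht : Tendsto (fun n : ℕ => (1 : ℝ) / n) atTop (nhds 0) := tendsto_one_div_atTop_nhds_zero_nat
  have h1 := hc.comp_tendsto ht
  have h2 := (isBigO_refl (pw e) atTop).mul h1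
  refine h2.congr' ?_ ?_
  · filter_upwards [eventually_ge_atTop 1] with n hn
    have hn0 : (0 : ℝ) < n := by exact_mod_cast hn
    simp only [Function.comp_apply]
    rw [mul_sub, Finset.mul_sum]
    congr 1
    · simp only [pw]
      rw [← Real.exp_add]
      congr 1
      have : ((n + 1 : ℕ) : ℝ) = n * (1 + 1 / n) := by
        push_cast
        field_simp
      rw [this, Real.log_mul hn0.ne' (by positivity)]
      ring
    · apply Finset.sum_congr rfl
      intro i _
      rw [p1_pw_nat' e i n hn]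
      ring
  · filter_upwards [eventually_ge_atTop 1] with n hn
    simp only [Function.comp_apply]
    rw [p1_pw_nat' e N n hn]
theorem PW.mono {q q' : ℝ} (h : q ≤ q') : PW q' ≤ PW q := by
  apply Submodule.span_mono
  rintro u ⟨e, he, rfl⟩
  exact ⟨e, h.trans he, rfl⟩
theorem PW.mul {q q' : ℝ} {u v : ℕ → ℝ} (hu : u ∈ PW q) (hv : v ∈ PW q') :
    u * v ∈ PW (q + q') := by
  refine Submodule.span_induction (p := fun u _ => u * v ∈ PW (q + q')) ?_ ?_ ?_ ?_ hu
  · rintro u ⟨e, he, rfl⟩
    refine Submodule.span_induction (p := fun v _ => pw e * v ∈ PW (q + q')) ?_ ?_ ?_ ?_ hv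
    · rintro v ⟨e', he', rfl⟩
      rw [p1_pw_mul']
      exact p1_pw_mem' (add_le_add he he')
    · simp
    · intro x y _ _ hx hy
      rw [mul_add]
      exact Submodule.add_mem _ hx hy
    · intro a x _ hx
      rw [mul_smul_comm]
      exact Submodule.smul_mem _ a hx
  · simp
  · intro x y _ _ hx hy
    rw [add_mul]
    exact Submodule.add_mem _ hx hy
  · intro a x _ hx
    rw [smul_mul_assoc]
    exact Submodule.smul_mem _ a hx
theorem PW.isBigO {q : ℝ} {u : ℕ → ℝ} (hu : u ∈ PW q) : u =O[atTop] pw q := by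
  refine Submodule.span_induction (p := fun u _ => u =O[atTop] pw q) ?_ ?_ ?_ ?_ hu
  · rintro u ⟨e, he, rfl⟩
    exact p1_pw_isBigO' he
  · exact isBigO_zero _ _
  · intro x y _ _ hx hy
    exact hx.add hy
  · intro a x _ hx
    exact hx.const_smul_left a
theorem PW.shift {q : ℝ} {u : ℕ → ℝ} (hu : u ∈ PW q) : ∃ v ∈ PW q, (v - u) ∈ PW (q + 1) ∧
    (fun n => u (n + 1) - v n) =O[atTop] pw 12 := by
  refine Submodule.span_induction (p := fun u _ => ∃ v ∈ PW q, (v - u) ∈ PW (q + 1) ∧
    (fun n => u (n + 1) - v n) =O[atTop] pw 12) ?_ ?_ ?_ ?_ hu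
  · rintro u ⟨e, he, rfl⟩
    obtain ⟨N, hN⟩ := exists_nat_ge (12 - e)
    obtain ⟨c, hc0, hc⟩ := p1_pw_shift' e (N + 1)
    refine ⟨∑ i ∈ Finset.range (N + 1), c i • pw (e + i), ?_, ?_, ?_⟩
    · apply Submodule.sum_mem
      intro i _
      apply Submodule.smul_mem
      apply p1_pw_mem'
      have : (0 : ℝ) ≤ i := Nat.cast_nonneg i
      linarith
    · rw [Finset.sum_range_succ']
      simp only [hc0, Nat.cast_zero, add_zero, one_smul, add_sub_cancel_right]
      apply Submodule.sum_mem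
      intro i _
      apply Submodule.smul_mem
      apply p1_pw_mem'
      have : (0 : ℝ) ≤ i := Nat.cast_nonneg i
      push_cast
      linarith
    · have h1 : pw (e + (N + 1 : ℕ)) =O[atTop] pw 12 := by
        apply p1_pw_isBigO'
        push_cast
        linarith
      refine (hc.trans h1).congr_left ?_
      intro n
      simp [Finset.sum_apply]
  · refine ⟨0, Submodule.zero_mem _, by simp, ?_⟩
    simpa using isBigO_zero _ _
  · rintro x y _ _ ⟨v, hv, hv1, hv2⟩ ⟨w, hw, hw1, hw2⟩
    refine ⟨v + w, Submodule.add_mem _ hv hw, ?_, ?_⟩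
    · have := Submodule.add_mem _ hv1 hw1
      rwa [show v + w - (x + y) = v - x + (w - y) by abel]
    · refine (hv2.add hw2).congr_left ?_
      intro n
      simp only [Pi.add_apply]
      ring
  · rintro a x _ ⟨v, hv, hv1, hv2⟩
    refine ⟨a • v, Submodule.smul_mem _ a hv, ?_, ?_⟩
    · have := Submodule.smul_mem _ a hv1
      rwa [smul_sub] at this
    · refine (hv2.const_smul_left a).congr_left ?_
      intro n
      simp only [Pi.smul_apply, smul_eq_mul]
      ring
theorem PW.diff_isBigO {q : ℝ} {u : ℕ → ℝ} (hu : u ∈ PW q) :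
    (fun n => u (n + 1) - u n) =O[atTop] pw (q + 1) := by
  refine Submodule.span_induction (p := fun u _ =>
    (fun n => u (n + 1) - u n) =O[atTop] pw (q + 1)) ?_ ?_ ?_ ?_ hu
  · rintro u ⟨e, he, rfl⟩
    obtain ⟨c, hc0, hc⟩ := p1_pw_shift' e 1
    have h1 : pw (e + (1 : ℕ)) =O[atTop] pw (q + 1) := by
      apply p1_pw_isBigO'
      push_cast
      linarith
    refine (hc.trans h1).congr_left ?_
    intro n
    simp [hc0]
  · simpa using isBigO_zero _ _
  · intro x y _ _ hx hy
    refine (hx.add hy).congr_left ?_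
    intro n
    simp only [Pi.add_apply]
    ring
  · intro a x _ hx
    refine (hx.const_smul_left a).congr_left ?_
    intro n
    simp only [Pi.smul_apply, smul_eq_mul]
    ring

end Pool.Agent.Helper615.LogA
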