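import Mathlib
import Pool.Agent.Helper615.LogA.Defs
import Pool.Agent.Helper615.LogA.P1
set_option autoImplicit false

namespace Pool.Agent.Helper615.LogA

open Filter Asymptotics
theorem b0_h441_pw_pos (e : ℝ) (n : ℕ) : 0 < pw e n := Real.exp_pos _
theorem b0_h441_pw_add (e e' : ℝ) (n : ℕ) : pw (e + e') n = pw e n * pw e' n := by
  unfold pw
  rw [← Real.exp_add]
  congr 1
  ring
theorem b0_h441_pw_pow (e : ℝ) (k n : ℕ) : (pw e n) ^ k = pw ((k : ℝ) * e) n := by
  unfold pw
  rw [← Real.exp_nat_mul]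
  congr 1
  ring
theorem b0_h441_log_nonneg (n : ℕ) : 0 ≤ Real.log (n : ℝ) := Real.log_natCast_nonneg n
theorem b0_h441_pw_mono {e e' : ℝ} (h : e ≤ e') (n : ℕ) : pw e' n ≤ pw e n := by
  unfold pw
  apply Real.exp_le_exp.mpr
  have := b0_h441_log_nonneg n
  nlinarith
theorem b0_h441_pw_bigO {e e' : ℝ} (h : e ≤ e') : pw e' =O[atTop] pw e := by
  apply IsBigO.of_bound 1
  filter_upwards with n
  rw [Real.norm_of_nonneg (b0_h441_pw_pos _ _).le, Real.norm_of_nonneg (b0_h441_pw_pos _ _).le, one_mul]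
  exact b0_h441_pw_mono h n
theorem b0_h441_pw_tendsto {e : ℝ} (h : 0 < e) : Tendsto (pw e) atTop (nhds 0) := by
  unfold pw
  apply Real.tendsto_exp_atBot.comp
  apply tendsto_neg_atTop_atBot.comp
  apply Tendsto.const_mul_atTop h
  exact Real.tendsto_log_atTop.comp tendsto_natCast_atTop_atTop
theorem b0_h441_pow (δ σ : ℝ) (hδ : 0 < δ) (hσ : δ ≤ σ) (u v : ℕ → ℝ) (hu : u ∈ PW δ) (hv : v ∈ PW σ)
    (i : ℕ) : ∃ U V : ℕ → ℝ, U ∈ PW δ ∧ V ∈ PW (σ + δ) ∧
      ∀ n, (u n + (-1 : ℝ) ^ n * v n) ^ (i + 2) = U n + (-1 : ℝ) ^ n * V n := by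
  have heps : ∀ n : ℕ, (-1 : ℝ) ^ n * (-1 : ℝ) ^ n = 1 := by
    intro n
    rw [← mul_pow]
    norm_num
  induction i with
  | zero =>
    refine ⟨u * u + v * v, u * v + v * u, ?_, ?_, ?_⟩
    · exact Submodule.add_mem _ (PW.mono (by linarith) (PW.mul hu hu))
        (PW.mono (by linarith) (PW.mul hv hv))
    · exact Submodule.add_mem _ (PW.mono (by linarith) (PW.mul hu hv))
        (PW.mono (by linarith) (PW.mul hv hu))
    · intro n
      have h := heps n
      simp only [Pi.add_apply, Pi.mul_apply]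
      have : (u n + (-1 : ℝ) ^ n * v n) ^ (0 + 2) = u n * u n + ((-1 : ℝ) ^ n * (-1 : ℝ) ^ n) * (v n * v n)
        + (-1 : ℝ) ^ n * (u n * v n + v n * u n) := by ring
      rw [this, h]
      ring
  | succ i ih =>
    obtain ⟨U, V, hU, hV, hUV⟩ := ih
    refine ⟨U * u + V * v, U * v + V * u, ?_, ?_, ?_⟩
    · exact Submodule.add_mem _ (PW.mono (by linarith) (PW.mul hU hu))
        (PW.mono (by linarith) (PW.mul hV hv))
    · exact Submodule.add_mem _ (PW.mono (by linarith) (PW.mul hU hv))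
        (PW.mono (by linarith) (PW.mul hV hu))
    · intro n
      have h := heps n
      simp only [Pi.add_apply, Pi.mul_apply]
      rw [show i + 1 + 2 = (i + 2) + 1 from rfl, pow_succ, hUV n]
      have : (U n + (-1 : ℝ) ^ n * V n) * (u n + (-1 : ℝ) ^ n * v n) = U n * u n
        + ((-1 : ℝ) ^ n * (-1 : ℝ) ^ n) * (V n * v n)
        + (-1 : ℝ) ^ n * (U n * v n + V n * u n) := by ring
      rw [this, h]
      ring
theorem QQ.comp {δ σ v₀ T : ℝ} (hδ : 0 < δ) (hσ : δ ≤ σ) (hT : 0 < T) (φ : ℝ → ℝ)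
    (hφ : ∀ I : ℕ, ∃ c : ℕ → ℝ, c 0 = 0 ∧ c 1 = 1 ∧
      (fun y : ℝ => φ y - ∑ i ∈ Finset.range (I + 1), c i * y ^ i) =O[nhds 0]
        fun y => y ^ (I + 1)) {x : ℕ → ℝ} (hx : QQ δ σ v₀ T x) :
    QQ δ σ v₀ T (fun n => φ (x n)) := by
  obtain ⟨u, hu, v, hv, hr⟩ := hx
  have hvσ : v ∈ PW σ := by
    have h1 : v = (v - v₀ • pw σ) + v₀ • pw σ := by simp
    rw [h1]
    refine Submodule.add_mem _ (PW.mono (by linarith) hv) ?_
    exact Submodule.smul_mem _ _ (Submodule.subset_span ⟨σ, le_refl _, rfl⟩)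
  set m := min δ T with hm
  have hmpos : 0 < m := lt_min hδ hT
  have hmδ : m ≤ δ := min_le_left _ _
  have hmT : m ≤ T := min_le_right _ _
  set w : ℕ → ℝ := fun n => u n + (-1 : ℝ) ^ n * v n with hw
  have hxw : (fun n => x n - w n) =O[atTop] pw T := by
    refine hr.congr_left ?_
    intro n
    simp only [hw]
    ring
  have hεv : (fun n => (-1 : ℝ) ^ n * v n) =O[atTop] pw m := by
    have h1 : (fun n => (-1 : ℝ) ^ n * v n) =O[atTop] v := by
      apply IsBigO.of_bound 1
      filter_upwards with n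
      rw [norm_mul, norm_pow]
      simp
    exact h1.trans ((PW.isBigO hvσ).trans (b0_h441_pw_bigO (by linarith)))
  have hwO : w =O[atTop] pw m :=
    ((PW.isBigO hu).trans (b0_h441_pw_bigO hmδ)).add hεv
  have hxO : x =O[atTop] pw m := by
    have h1 := (hxw.trans (b0_h441_pw_bigO hmT)).add hwO
    refine h1.congr_left ?_
    intro n
    ring
  have hx0 : Tendsto x atTop (nhds 0) := hxO.trans_tendsto (b0_h441_pw_tendsto hmpos)
  have hpw1 : pw m =O[atTop] (fun _ => (1 : ℝ)) := by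
    apply IsBigO.of_bound 1
    filter_upwards with n
    rw [Real.norm_of_nonneg (b0_h441_pw_pos _ _).le]
    have := b0_h441_pw_mono hmpos.le n
    have h0 : pw 0 n = 1 := by simp [pw]
    rw [h0] at this
    simpa using this
  have hx1 : x =O[atTop] (fun _ => (1 : ℝ)) := hxO.trans hpw1
  have hw1 : w =O[atTop] (fun _ => (1 : ℝ)) := hwO.trans hpw1
  have hdiff : ∀ i : ℕ, (fun n => x n ^ i - w n ^ i) =O[atTop] pw T := by
    intro i
    induction i with
    | zero => simpa using isBigO_zero (pw T) atTop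
    | succ i ih =>
      have h1 : (fun n => x n * (x n ^ i - w n ^ i)) =O[atTop] (fun n => 1 * pw T n) := hx1.mul ih
      have h2 : (fun n => w n ^ i * (x n - w n)) =O[atTop] (fun n => (1 : ℝ) ^ i * pw T n) :=
        (hw1.pow i).mul hxw
      simp only [one_mul, one_pow] at h1 h2
      refine (h1.add h2).congr_left ?_
      intro n
      ring
  obtain ⟨J, hJ⟩ := exists_nat_gt (T / m)
  have hJT : T ≤ ((J + 1 + 1 : ℕ) : ℝ) * m := by
    rw [div_lt_iff₀ hmpos] at hJ
    push_cast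
    nlinarith
  obtain ⟨c, hc0, hc1, hc⟩ := hφ (J + 1)
  have hφx : (fun n => φ (x n) - ∑ i ∈ Finset.range (J + 1 + 1), c i * x n ^ i) =O[atTop] pw T := by
    have h1 := hc.comp_tendsto hx0
    have h2 : (fun n => x n ^ (J + 1 + 1)) =O[atTop] (fun n => pw m n ^ (J + 1 + 1)) :=
      hxO.pow (J + 1 + 1)
    have h3 : (fun n => pw m n ^ (J + 1 + 1)) =O[atTop] pw T := by
      have h4 : (fun n => pw m n ^ (J + 1 + 1)) = pw (((J + 1 + 1 : ℕ) : ℝ) * m) := by
        funext n
        exact b0_h441_pw_pow m _ n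
      rw [h4]
      exact b0_h441_pw_bigO hJT
    exact h1.trans (h2.trans h3)
  choose U V hU hV hUV using fun i => b0_h441_pow δ σ hδ hσ u v hu hvσ i
  refine ⟨u + ∑ i ∈ Finset.range J, c (i + 2) • U i, ?_, v + ∑ i ∈ Finset.range J, c (i + 2) • V i,
    ?_, ?_⟩
  · exact Submodule.add_mem _ hu (Submodule.sum_mem _ fun i _ => Submodule.smul_mem _ _ (hU i))
  · rw [add_sub_right_comm]
    exact Submodule.add_mem _ hv (Submodule.sum_mem _ fun i _ => Submodule.smul_mem _ _ (hV i))
  · have hsum : (fun n => ∑ i ∈ Finset.range (J + 1 + 1), c i * (x n ^ i - w n ^ i))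
        =O[atTop] pw T := by
      have h6 : (∑ i ∈ Finset.range (J + 1 + 1), fun n => c i * (x n ^ i - w n ^ i))
          =O[atTop] pw T := by
        apply IsBigO.sum
        intro i _
        exact (hdiff i).const_mul_left (c i)
      refine h6.congr_left ?_
      intro n
      simp
    refine (hφx.add hsum).congr_left ?_
    intro n
    have hs : ∑ i ∈ Finset.range (J + 1 + 1), c i * w n ^ i =
        (u + ∑ i ∈ Finset.range J, c (i + 2) • U i) n +
          (-1 : ℝ) ^ n * (v + ∑ i ∈ Finset.range J, c (i + 2) • V i) n := by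
      rw [Finset.sum_range_succ', Finset.sum_range_succ']
      simp only [zero_add, hc0, hc1, pow_zero, pow_one, one_mul, zero_mul, add_zero, Pi.add_apply,
        Finset.sum_apply, Pi.smul_apply, smul_eq_mul]
      have h5 : ∀ i ∈ Finset.range J, c (i + 1 + 1) * w n ^ (i + 1 + 1) =
          c (i + 2) * U i n + (-1 : ℝ) ^ n * (c (i + 2) * V i n) := by
        intro i _
        have := hUV i n
        simp only [hw]
        rw [show i + 1 + 1 = i + 2 from rfl, this]
        ring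
      rw [Finset.sum_congr rfl h5, Finset.sum_add_distrib, ← Finset.mul_sum]
      simp only [hw]
      ring
    have hs2 : ∑ i ∈ Finset.range (J + 1 + 1), c i * (x n ^ i - w n ^ i) =
      ∑ i ∈ Finset.range (J + 1 + 1), c i * x n ^ i - ∑ i ∈ Finset.range (J + 1 + 1), c i * w n ^ i := by
      rw [← Finset.sum_sub_distrib]
      apply Finset.sum_congr rfl
      intro i _
      ring
    rw [hs2, hs]
    ring

end Pool.Agent.Helper615.LogA
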