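import Mathlib
import Pool.Agent.Helper615.LogA.Defs
import Pool.Agent.Helper615.LogA.P1
set_option autoImplicit false

namespace Pool.Agent.Helper615.LogA

open Filter Asymptotics
theorem b1_j5798_pw (x : ℝ) {n : ℕ} (hn : 1 ≤ n) : (n : ℝ) ^ (-x) = pw x n := by
  have h : (0 : ℝ) < n := by exact_mod_cast hn
  rw [Real.rpow_def_of_pos h, pw]
  congr 1
  ring
theorem b1_j5798_pw_le (x y : ℝ) (h : x ≤ y) (n : ℕ) : pw y n ≤ pw x n := by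
  unfold pw
  apply Real.exp_le_exp.mpr
  have := mul_le_mul_of_nonneg_right h (Real.log_natCast_nonneg n)
  linarith
theorem b1_j5798_pw_one (x : ℝ) (hx : 0 ≤ x) : pw x =O[atTop] (fun _ => (1 : ℝ)) := by
  refine IsBigO.of_bound 1 (Eventually.of_forall fun n => ?_)
  rw [norm_one, mul_one, Real.norm_eq_abs, pw, abs_of_pos (Real.exp_pos _)]
  apply Real.exp_le_one_iff.mpr
  have := mul_nonneg hx (Real.log_natCast_nonneg n)
  linarith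
theorem b1_j5798_W {Cc : ℝ} (hC : 0 < Cc) {n : ℕ} (hn : 1 ≤ n) :
    (((n : ℝ) / Cc) ^ (1 / 3 : ℝ)) ^ 2 = Cc ^ (-(2 / 3) : ℝ) * pw (-(2/3)) n := by
  have h : (0 : ℝ) < n := by exact_mod_cast hn
  rw [← b1_j5798_pw _ hn, ← Real.rpow_natCast, ← Real.rpow_mul (div_nonneg h.le hC.le),
    Real.div_rpow h.le hC.le, Real.rpow_neg hC.le]
  norm_num
  rw [div_eq_mul_inv, mul_comm]
theorem b1_j5798_sum_mem (q : ℝ) (M : ℕ) (A i : ℕ → ℝ) (h : ∀ k, q ≤ i k) :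
    (∑ k ∈ Finset.range M, A k • pw (i k)) ∈ PW q := by
  refine Submodule.sum_mem _ fun k _ => Submodule.smul_mem _ _ (Submodule.subset_span ⟨i k, h k, rfl⟩)
theorem b1_j5798_sum_eval (M : ℕ) (A i : ℕ → ℝ) {n : ℕ} (hn : 1 ≤ n) :
    (∑ k ∈ Finset.range M, A k • pw (i k)) n = ∑ k ∈ Finset.range M, A k * (n : ℝ) ^ (-(i k)) := by
  rw [Finset.sum_apply]
  refine Finset.sum_congr rfl fun k _ => ?_
  rw [b1_j5798_pw _ hn, Pi.smul_apply, smul_eq_mul]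
theorem b1_j5798_eps (n : ℕ) : ((-1 : ℝ) ^ n) ^ 2 = 1 := by
  rw [← pow_mul, mul_comm, pow_mul]
  norm_num
theorem b1_j5798_eps_O : (fun n : ℕ => (-1 : ℝ) ^ n) =O[atTop] (fun _ => (1 : ℝ)) := by
  refine IsBigO.of_bound 1 (Eventually.of_forall fun n => ?_)
  simp
theorem b1_j5798_main (a : ℕ → ℝ) (Cc : ℝ) (hC : 0 < Cc) (δ : ℝ) (hδ : 0 < δ) (hδ4 : δ ≤ 1 / 4)
    (α₁ γ e₁ : ℕ → ℝ) (b0 : ℝ) (hα : α₁ ∈ PW δ) (hγ : γ ∈ PW (3 + δ)) (he : e₁ =O[atTop] pw 11)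
    (h : ∀ n : ℕ, 1 ≤ n → a n / ((n : ℝ) / Cc) ^ (1 / 3 : ℝ)
      = 1 + α₁ n + (-1 : ℝ) ^ n * (γ n + b0 * pw 3 n) + e₁ n) :
    ∃ (δ β₀ : ℝ) (α β e : ℕ → ℝ), 0 < δ ∧ δ ≤ 1 / 4 ∧ α ∈ PW δ ∧ (β - β₀ • pw 3) ∈ PW (3 + δ) ∧
      e =O[atTop] pw 11 ∧
      ∀ n : ℕ, 1 ≤ n → a n ^ 2 = Cc ^ (-(2 / 3) : ℝ) * pw (-(2/3)) n *
        (1 + α n + (-1 : ℝ) ^ n * β n + e n) := by
  have hp3 : pw 3 ∈ PW 3 := Submodule.subset_span ⟨3, le_rfl, rfl⟩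
  have hβ3 : (γ + b0 • pw 3) ∈ PW 3 :=
    Submodule.add_mem _ (PW.mono (by linarith) hγ) (Submodule.smul_mem _ _ hp3)
  have hαα : α₁ * α₁ ∈ PW δ := PW.mono (by linarith) (PW.mul hα hα)
  have hββ : (γ + b0 • pw 3) * (γ + b0 • pw 3) ∈ PW δ := PW.mono (by linarith) (PW.mul hβ3 hβ3)
  have hαβ : α₁ * (γ + b0 • pw 3) ∈ PW (3 + δ) := PW.mono (by linarith) (PW.mul hα hβ3)
  have hαO : α₁ =O[atTop] (fun _ => (1 : ℝ)) := (PW.isBigO hα).trans (b1_j5798_pw_one δ hδ.le)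
  have hβO : (γ + b0 • pw 3) =O[atTop] (fun _ => (1 : ℝ)) :=
    (PW.isBigO hβ3).trans (b1_j5798_pw_one 3 (by norm_num))
  have heO : e₁ =O[atTop] (fun _ => (1 : ℝ)) := he.trans (b1_j5798_pw_one 11 (by norm_num))
  refine ⟨δ, 2 * b0, (2 : ℝ) • α₁ + α₁ * α₁ + (γ + b0 • pw 3) * (γ + b0 • pw 3),
    (2 : ℝ) • (γ + b0 • pw 3) + (2 : ℝ) • (α₁ * (γ + b0 • pw 3)),
    fun n => e₁ n * (2 * (1 + α₁ n + (-1 : ℝ) ^ n * (γ + b0 • pw 3) n) + e₁ n),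
    hδ, hδ4, ?_, ?_, ?_, ?_⟩
  · exact Submodule.add_mem _ (Submodule.add_mem _ (Submodule.smul_mem _ _ hα) hαα) hββ
  · have e1 : (2 : ℝ) • (γ + b0 • pw 3) + (2 : ℝ) • (α₁ * (γ + b0 • pw 3)) - (2 * b0) • pw 3
        = (2 : ℝ) • γ + (2 : ℝ) • (α₁ * (γ + b0 • pw 3)) := by
      rw [mul_smul, smul_add]
      abel
    rw [e1]
    exact Submodule.add_mem _ (Submodule.smul_mem _ _ hγ) (Submodule.smul_mem _ _ hαβ)
  · have h1 : (fun n => (-1 : ℝ) ^ n * (γ + b0 • pw 3) n) =O[atTop] (fun _ => (1 : ℝ)) := by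
      have := b1_j5798_eps_O.mul hβO
      simpa using this
    have h2 : (fun n => (1 : ℝ) + α₁ n + (-1 : ℝ) ^ n * (γ + b0 • pw 3) n) =O[atTop]
        (fun _ => (1 : ℝ)) := ((isBigO_refl _ _).add hαO).add h1
    have h3 : (fun n => 2 * (1 + α₁ n + (-1 : ℝ) ^ n * (γ + b0 • pw 3) n) + e₁ n) =O[atTop]
        (fun _ => (1 : ℝ)) := (h2.const_mul_left 2).add heO
    have h4 := he.mul h3
    simpa using h4
  · intro n hn
    have hpos : (0 : ℝ) < ((n : ℝ) / Cc) ^ (1 / 3 : ℝ) := by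
      have h : (0 : ℝ) < n := by exact_mod_cast hn
      exact Real.rpow_pos_of_pos (div_pos h hC) _
    have h0 := h n hn
    rw [div_eq_iff hpos.ne'] at h0
    have hb : (γ + b0 • pw 3) n = γ n + b0 * pw 3 n := rfl
    have hε := b1_j5798_eps n
    simp only [Pi.add_apply, Pi.mul_apply, Pi.smul_apply, smul_eq_mul]
    rw [← b1_j5798_W hC hn, h0]
    generalize (-1 : ℝ) ^ n = ε at hε ⊢
    generalize ((n : ℝ) / Cc) ^ (1 / 3 : ℝ) = w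
    generalize γ n + b0 * pw 3 n = b
    generalize α₁ n = x
    generalize e₁ n = y
    linear_combination w ^ 2 * b ^ 2 * hε
theorem partB1 (a : ℕ → ℝ) (Cc : ℝ) (hC : 0 < Cc) (i j A B : ℕ → ℝ) (hi : StrictMono i)
    (hi0 : i 0 = 0) (hA0 : A 0 = 1) (hj : StrictMono j) (hj0 : j 0 = 3)
    (hit : Tendsto i atTop atTop) (hjt : Tendsto j atTop atTop)
    (hexp : ∀ N : ℕ, (fun n : ℕ => a n / ((n : ℝ) / Cc) ^ (1 / 3 : ℝ)
        - ∑ k ∈ Finset.range N, A k * (n : ℝ) ^ (-(i k))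
        - (-1 : ℝ) ^ n * ∑ k ∈ Finset.range N, B k * (n : ℝ) ^ (-(j k)))
      =O[atTop] (fun n : ℕ => (n : ℝ) ^ (-(min (i N) (j N))))) :
    ∃ (δ β₀ : ℝ) (α β e : ℕ → ℝ), 0 < δ ∧ δ ≤ 1 / 4 ∧ α ∈ PW δ ∧ (β - β₀ • pw 3) ∈ PW (3 + δ) ∧
      e =O[atTop] pw 11 ∧
      ∀ n : ℕ, 1 ≤ n → a n ^ 2 = Cc ^ (-(2 / 3) : ℝ) * pw (-(2/3)) n *
        (1 + α n + (-1 : ℝ) ^ n * β n + e n) := by
  rcases ((hit.eventually_ge_atTop 11).and (hjt.eventually_ge_atTop 11)).exists_forall_of_atTop with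
    ⟨M, hM⟩
  rcases hM (M + 1) (Nat.le_succ M) with ⟨hiM, hjM⟩
  have hi1 : 0 < i 1 := by
    have := hi (show (0 : ℕ) < 1 by norm_num)
    linarith
  have hj1 : 3 < j 1 := by
    have := hj (show (0 : ℕ) < 1 by norm_num)
    linarith
  have hδ : 0 < min (1 / 4) (min (i 1) (j 1 - 3)) :=
    lt_min (by norm_num) (lt_min hi1 (by linarith))
  have hδi : min (1 / 4) (min (i 1) (j 1 - 3)) ≤ i 1 :=
    (min_le_right _ _).trans (min_le_left _ _)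
  have hδj : min (1 / 4) (min (i 1) (j 1 - 3)) ≤ j 1 - 3 :=
    (min_le_right _ _).trans (min_le_right _ _)
  have hik : ∀ k : ℕ, min (1 / 4) (min (i 1) (j 1 - 3)) ≤ i (k + 1) := fun k =>
    hδi.trans (hi.monotone (Nat.le_add_left 1 k))
  have hjk : ∀ k : ℕ, 3 + min (1 / 4) (min (i 1) (j 1 - 3)) ≤ j (k + 1) := fun k => by
    have := hj.monotone (Nat.le_add_left 1 k)
    linarith
  have hR := hexp (M + 1)
  have hR' : (fun n : ℕ => (n : ℝ) ^ (-(min (i (M + 1)) (j (M + 1))))) =O[atTop] pw 11 := by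
    refine IsBigO.of_bound 1 ?_
    filter_upwards [eventually_ge_atTop 1] with n hn
    rw [b1_j5798_pw _ hn, one_mul, Real.norm_eq_abs, Real.norm_eq_abs,
      abs_of_pos (show 0 < pw _ n from Real.exp_pos _), abs_of_pos (show 0 < pw _ n from Real.exp_pos _)]
    exact b1_j5798_pw_le _ _ (le_min hiM hjM) n
  refine b1_j5798_main a Cc hC _ hδ (min_le_left _ _)
    (∑ k ∈ Finset.range M, A (k + 1) • pw (i (k + 1)))
    (∑ k ∈ Finset.range M, B (k + 1) • pw (j (k + 1))) _ (B 0)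
    (b1_j5798_sum_mem _ M (fun k => A (k + 1)) (fun k => i (k + 1)) hik)
    (b1_j5798_sum_mem _ M (fun k => B (k + 1)) (fun k => j (k + 1)) hjk) (hR.trans hR') ?_
  intro n hn
  rw [b1_j5798_sum_eval M (fun k => A (k + 1)) (fun k => i (k + 1)) hn,
    b1_j5798_sum_eval M (fun k => B (k + 1)) (fun k => j (k + 1)) hn]
  rw [Finset.sum_range_succ' (fun k => A k * (n : ℝ) ^ (-(i k))),
    Finset.sum_range_succ' (fun k => B k * (n : ℝ) ^ (-(j k))), hi0, hA0, hj0, b1_j5798_pw 3 hn,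
    neg_zero, Real.rpow_zero]
  ring

end Pool.Agent.Helper615.LogA
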