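import Mathlib
import Pool.Agent.Helper615.LogA.Defs
import Pool.Agent.Helper615.LogA.P1
set_option autoImplicit false

namespace Pool.Agent.Helper615.LogA

open Filter Asymptotics
theorem p2_pw_mem {q e : ℝ} (h : q ≤ e) : pw e ∈ PW q := Submodule.subset_span ⟨e, h, rfl⟩
theorem p2_pw_isBigO {q e : ℝ} (h : q ≤ e) : pw e =O[atTop] pw q := PW.isBigO (p2_pw_mem h)
theorem p2_pw_add_nat (a : ℝ) (k : ℕ) {n : ℕ} (hn : 1 ≤ n) :
    pw (a + k) n = pw a n * ((n : ℝ)⁻¹) ^ k := by
  have hn' : (0 : ℝ) < n := by exact_mod_cast hn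
  unfold pw
  have h1 : ((n : ℝ)⁻¹) ^ k = Real.exp (-(k * Real.log n)) := by
    have h2 : (n : ℝ)⁻¹ = Real.exp (-(Real.log n)) := by
      rw [Real.exp_neg, Real.exp_log hn']
    rw [h2, ← Real.exp_nat_mul]
    congr 1
    ring
  rw [h1, ← Real.exp_add]
  congr 1
  ring
theorem p2_pw_nat (k : ℕ) {n : ℕ} (hn : 1 ≤ n) : pw k n = ((n : ℝ)⁻¹) ^ k := by
  have h := p2_pw_add_nat 0 k hn
  rw [zero_add] at h
  rw [h]
  simp [pw]
theorem p2_pw_neg_nat (k : ℕ) {n : ℕ} (hn : 1 ≤ n) : pw (-(k : ℝ)) n = (n : ℝ) ^ k := by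
  have hn' : (0 : ℝ) < n := by exact_mod_cast hn
  unfold pw
  rw [neg_mul, neg_neg, Real.exp_nat_mul, Real.exp_log hn']
theorem p2_taylor2 {f : ℝ → ℝ} (hf : AnalyticAt ℝ f 0) : ∃ c : ℕ → ℝ, ∀ K : ℕ,
    (fun y => f y - f 0 - deriv f 0 * y - ∑ k ∈ Finset.range K, c k * y ^ (k + 2))
      =O[nhds 0] (fun y : ℝ => y ^ (K + 2)) := by
  obtain ⟨p, hp⟩ := hf
  refine ⟨fun k => p.coeff (k + 2), fun K => ?_⟩
  have h := hp.isBigO_sub_partialSum_pow (K + 2)
  have h2 : (fun y : ℝ => ‖y‖ ^ (K + 2)) = fun y : ℝ => ‖y ^ (K + 2)‖ := by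
    funext y
    rw [norm_pow]
  rw [h2, isBigO_norm_right] at h
  refine h.congr_left fun y => ?_
  rw [zero_add]
  unfold FormalMultilinearSeries.partialSum
  rw [Finset.sum_range_succ', Finset.sum_range_succ']
  have h0 : (p 0 fun _ => y) = f 0 := hp.coeff_zero _
  have h1 : (p (0 + 1) fun _ => y) = deriv f 0 * y := by
    rw [FormalMultilinearSeries.apply_eq_pow_smul_coeff, hp.deriv]
    change y ^ 1 • p.coeff 1 = p.coeff 1 * y
    rw [smul_eq_mul, pow_one, mul_comm]
  have h3 : ∑ k ∈ Finset.range K, (p (k + 1 + 1) fun _ => y) = ∑ k ∈ Finset.range K, p.coeff (k + 2) * y ^ (k + 2) := by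
    refine Finset.sum_congr rfl fun k _ => ?_
    rw [FormalMultilinearSeries.apply_eq_pow_smul_coeff, smul_eq_mul, mul_comm]
  rw [h0, h1, h3]
  ring
theorem p2_tendsto_inv_nat : Tendsto (fun n : ℕ => (n : ℝ)⁻¹) atTop (nhds 0) :=
  tendsto_inv_atTop_nhds_zero_nat
theorem p2_log_succ {n : ℕ} (hn : 1 ≤ n) : Real.log ((n : ℝ) + 1) = Real.log n + Real.log (1 + (n : ℝ)⁻¹) := by
  have hn' : (0 : ℝ) < n := by exact_mod_cast hn
  rw [← Real.log_mul hn'.ne' (by positivity)]
  congr 1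
  field_simp
theorem p2_pshift (a : ℝ) : ∃ (K : ℕ) (c : ℕ → ℝ),
    (fun n : ℕ => pw a (n + 1) - pw a n + a * pw (a + 1) n -
      ∑ k ∈ Finset.range K, c k * pw (a + 2 + k) n) =O[atTop] pw 12 := by
  set f : ℝ → ℝ := fun y => Real.exp (-(a * Real.log (1 + y))) with hf
  have hfa : AnalyticAt ℝ f 0 := by
    apply AnalyticAt.rexp'
    apply AnalyticAt.neg
    apply AnalyticAt.mul analyticAt_const
    apply AnalyticAt.log
    · exact analyticAt_const.add analyticAt_id
    · norm_num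
  have hf0 : f 0 = 1 := by simp [hf]
  have hfd : deriv f 0 = -a := by
    have h1 : HasDerivAt (fun y : ℝ => 1 + y) 1 0 := by
      simpa using (hasDerivAt_id (0 : ℝ)).const_add 1
    have h2 := (((h1.log (by norm_num)).const_mul a).neg).exp
    have h3 : HasDerivAt f (-a) 0 := by
      refine h2.congr_deriv ?_
      simp
    exact h3.deriv
  obtain ⟨c, hc⟩ := p2_taylor2 hfa
  set K := ⌈12 - a⌉₊ with hK
  refine ⟨K, c, ?_⟩
  have h1 := (hc K).comp_tendsto p2_tendsto_inv_nat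
  have h2 := (isBigO_refl (pw a) atTop).mul h1
  have h3 : (fun n : ℕ => pw a n * ((fun y : ℝ => y ^ (K + 2)) ∘ fun n : ℕ => (n : ℝ)⁻¹) n) =ᶠ[atTop] pw (a + (K + 2 : ℕ)) := by
    filter_upwards [eventually_ge_atTop 1] with n hn
    rw [p2_pw_add_nat a (K + 2) hn]
    rfl
  have h4 : (fun n : ℕ => pw a n * ((fun y => f y - f 0 - deriv f 0 * y - ∑ k ∈ Finset.range K, c k * y ^ (k + 2)) ∘ fun n : ℕ => (n : ℝ)⁻¹) n)
      =ᶠ[atTop] (fun n : ℕ => pw a (n + 1) - pw a n + a * pw (a + 1) n -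
      ∑ k ∈ Finset.range K, c k * pw (a + 2 + k) n) := by
    filter_upwards [eventually_ge_atTop 1] with n hn
    simp only [Function.comp_apply]
    rw [hf0, hfd]
    have e1 : pw a (n + 1) = pw a n * f ((n : ℝ)⁻¹) := by
      unfold pw
      rw [hf]
      simp only
      rw [← Real.exp_add]
      push_cast
      rw [p2_log_succ hn]
      congr 1
      ring
    have e2 : pw (a + 1) n = pw a n * (n : ℝ)⁻¹ := by
      have := p2_pw_add_nat a 1 hn
      simpa using this
    have e3 : ∑ k ∈ Finset.range K, c k * pw (a + 2 + k) n = pw a n * ∑ k ∈ Finset.range K, c k * ((n : ℝ)⁻¹) ^ (k + 2) := by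
      rw [Finset.mul_sum]
      refine Finset.sum_congr rfl fun k _ => ?_
      have e4 : a + 2 + (k : ℝ) = a + ((k + 2 : ℕ) : ℝ) := by push_cast; ring
      rw [e4, p2_pw_add_nat a (k + 2) hn]
      ring
    rw [e1, e2, e3]
    ring
  refine (h2.congr' h4 h3).trans (p2_pw_isBigO ?_)
  have := Nat.le_ceil (12 - a)
  push_cast
  rw [← hK] at this
  linarith
theorem p2_lshift : ∃ (K : ℕ) (c : ℕ → ℝ),
    (fun n : ℕ => Real.log (n + 1) - Real.log n - pw 1 n -
      ∑ k ∈ Finset.range K, c k * pw (2 + k) n) =O[atTop] pw 12 := by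
  set f : ℝ → ℝ := fun y => Real.log (1 + y) with hf
  have hfa : AnalyticAt ℝ f 0 := by
    apply AnalyticAt.log
    · exact analyticAt_const.add analyticAt_id
    · norm_num
  have hf0 : f 0 = 0 := by simp [hf]
  have hfd : deriv f 0 = 1 := by
    have h1 : HasDerivAt (fun y : ℝ => 1 + y) 1 0 := by
      simpa using (hasDerivAt_id (0 : ℝ)).const_add 1
    have h2 := (h1.log (by norm_num))
    have h3 : HasDerivAt f 1 0 := by
      refine h2.congr_deriv ?_
      simp
    exact h3.deriv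
  obtain ⟨c, hc⟩ := p2_taylor2 hfa
  refine ⟨10, c, ?_⟩
  have h1 := (hc 10).comp_tendsto p2_tendsto_inv_nat
  refine h1.congr' ?_ ?_
  · filter_upwards [eventually_ge_atTop 1] with n hn
    simp only [Function.comp_apply]
    rw [hf0, hfd]
    have e1 : f ((n : ℝ)⁻¹) = Real.log (n + 1) - Real.log n := by
      rw [hf]
      simp only
      rw [p2_log_succ hn]
      ring
    have e2 : pw 1 n = (n : ℝ)⁻¹ := by
      have := p2_pw_nat 1 hn
      simpa using this
    have e3 : ∑ k ∈ Finset.range 10, c k * pw (2 + k) n = ∑ k ∈ Finset.range 10, c k * ((n : ℝ)⁻¹) ^ (k + 2) := by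
      refine Finset.sum_congr rfl fun k _ => ?_
      have e4 : 2 + (k : ℝ) = ((k + 2 : ℕ) : ℝ) := by push_cast; ring
      rw [e4, p2_pw_nat (k + 2) hn]
    rw [e1, e2, e3]
    ring
  · filter_upwards [eventually_ge_atTop 1] with n hn
    have := p2_pw_nat 12 hn
    rw [Function.comp_apply]
    rw [← this]
    norm_num
theorem p2_half_span {q : ℝ} (h : ∀ e, q ≤ e → ∃ y ∈ PW q, (fun n => y n + y (n + 1) - pw e n) =O[atTop] pw 12)
    {u : ℕ → ℝ} (hu : u ∈ PW q) : ∃ y ∈ PW q, (fun n => y n + y (n + 1) - u n) =O[atTop] pw 12 := by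
  unfold PW at hu
  induction hu using Submodule.span_induction with
  | mem x hx =>
    obtain ⟨e, he, rfl⟩ := hx
    exact h e he
  | zero =>
    refine ⟨0, Submodule.zero_mem _, ?_⟩
    simpa using isBigO_zero (pw 12) atTop
  | add x y hx hy ihx ihy =>
    obtain ⟨a, ha, ha2⟩ := ihx
    obtain ⟨b, hb, hb2⟩ := ihy
    refine ⟨a + b, Submodule.add_mem _ ha hb, ?_⟩
    refine (ha2.add hb2).congr_left fun n => ?_
    simp only [Pi.add_apply]
    ring
  | smul t x hx ih =>
    obtain ⟨a, ha, ha2⟩ := ih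
    refine ⟨t • a, Submodule.smul_mem _ _ ha, ?_⟩
    refine (ha2.const_mul_left t).congr_left fun n => ?_
    simp only [Pi.smul_apply, smul_eq_mul]
    ring
theorem p2_half_gen (N : ℕ) : ∀ e : ℝ, 13 ≤ e + N → ∃ y ∈ PW e, (y - (1 / 2 : ℝ) • pw e) ∈ PW (e + 1) ∧
    (fun n => y n + y (n + 1) - pw e n) =O[atTop] pw 12 := by
  induction N with
  | zero =>
    intro e he
    refine ⟨(1 / 2 : ℝ) • pw e, Submodule.smul_mem _ _ (p2_pw_mem le_rfl), ?_, ?_⟩
    · rw [sub_self]
      exact Submodule.zero_mem _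
    · have h1 := (PW.diff_isBigO (p2_pw_mem (le_refl e))).const_mul_left (1 / 2)
      refine (h1.congr_left fun n => ?_).trans (p2_pw_isBigO ?_)
      · simp only [Pi.smul_apply, smul_eq_mul]
        ring
      · push_cast at he
        linarith
  | succ N ih =>
    intro e he
    push_cast at he
    obtain ⟨v, hv, hv1, hv2⟩ := PW.shift (p2_pw_mem (le_refl e))
    have hspan := p2_half_span (q := e + 1) (fun e' he' => by
      obtain ⟨y, hy, _, hy2⟩ := ih e' (by linarith)
      exact ⟨y, PW.mono he' hy, hy2⟩) (Submodule.smul_mem _ (1 / 2 : ℝ) hv1)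
    obtain ⟨y₁, hy1, hy2⟩ := hspan
    refine ⟨(1 / 2 : ℝ) • pw e - y₁, ?_, ?_, ?_⟩
    · exact Submodule.sub_mem _ (Submodule.smul_mem _ _ (p2_pw_mem le_rfl)) (PW.mono (by linarith) hy1)
    · have : (1 / 2 : ℝ) • pw e - y₁ - (1 / 2 : ℝ) • pw e = -y₁ := by abel
      rw [this]
      exact Submodule.neg_mem _ hy1
    · refine ((hv2.const_mul_left (1 / 2)).sub hy2).congr_left fun n => ?_
      simp only [Pi.sub_apply, Pi.smul_apply, smul_eq_mul]
      ring
theorem halfinv {q : ℝ} {u : ℕ → ℝ} (hu : u ∈ PW q) : ∃ y ∈ PW q,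
    (y - (1 / 2 : ℝ) • u) ∈ PW (q + 1) ∧
    (fun n => y n + y (n + 1) - u n) =O[atTop] pw 12 := by
  unfold PW at hu
  induction hu using Submodule.span_induction with
  | mem x hx =>
    obtain ⟨e, he, rfl⟩ := hx
    obtain ⟨N, hN⟩ := exists_nat_ge (13 - e)
    obtain ⟨y, hy, hy1, hy2⟩ := p2_half_gen N e (by linarith)
    exact ⟨y, PW.mono he hy, PW.mono (by linarith) hy1, hy2⟩
  | zero =>
    refine ⟨0, Submodule.zero_mem _, ?_, ?_⟩
    · simp
    · simpa using isBigO_zero (pw 12) atTop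
  | add x y hx hy ihx ihy =>
    obtain ⟨a, ha, ha1, ha2⟩ := ihx
    obtain ⟨b, hb, hb1, hb2⟩ := ihy
    refine ⟨a + b, Submodule.add_mem _ ha hb, ?_, ?_⟩
    · have : a + b - (1 / 2 : ℝ) • (x + y) = (a - (1 / 2 : ℝ) • x) + (b - (1 / 2 : ℝ) • y) := by
        rw [smul_add]
        abel
      rw [this]
      exact Submodule.add_mem _ ha1 hb1
    · refine (ha2.add hb2).congr_left fun n => ?_
      simp only [Pi.add_apply]
      ring
  | smul t x hx ih =>
    obtain ⟨a, ha, ha1, ha2⟩ := ih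
    refine ⟨t • a, Submodule.smul_mem _ _ ha, ?_, ?_⟩
    · have : t • a - (1 / 2 : ℝ) • t • x = t • (a - (1 / 2 : ℝ) • x) := by
        rw [smul_sub, smul_comm]
      rw [this]
      exact Submodule.smul_mem _ _ ha1
    · refine (ha2.const_mul_left t).congr_left fun n => ?_
      simp only [Pi.smul_apply, smul_eq_mul]
      ring
theorem p2_mem_of_sub_mem {e : ℝ} {y : ℕ → ℝ} {t : ℝ} (h : (y - t • pw (e - 1)) ∈ PW e) : y ∈ PW (e - 1) := by
  have h1 : y = (y - t • pw (e - 1)) + t • pw (e - 1) := by abel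
  rw [h1]
  exact Submodule.add_mem _ (PW.mono (by linarith) h) (Submodule.smul_mem _ _ (p2_pw_mem le_rfl))
theorem p2_anti_gen (N : ℕ) : ∀ e : ℝ, 13 ≤ e + N → (∀ i : ℕ, e + i ≠ 1) → ∃ y : ℕ → ℝ,
    (y - (1 / (1 - e)) • pw (e - 1)) ∈ PW e ∧
    (fun n => y (n + 1) - y n - pw e n) =O[atTop] pw 12 := by
  induction N with
  | zero =>
    intro e he _
    push_cast at he
    refine ⟨(1 / (1 - e)) • pw (e - 1), ?_, ?_⟩
    · rw [sub_self]
      exact Submodule.zero_mem _
    · have h1 := (PW.diff_isBigO (p2_pw_mem (le_refl (e - 1)))).const_mul_left (1 / (1 - e))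
      have h2 := (h1.trans (p2_pw_isBigO (q := 12) (by linarith))).sub (p2_pw_isBigO (q := 12) (e := e) (by linarith))
      refine h2.congr_left fun n => ?_
      simp only [Pi.smul_apply, smul_eq_mul]
      ring
  | succ N ih =>
    intro e he hi
    push_cast at he
    have hne : 1 - e ≠ 0 := by
      intro h
      apply hi 0
      push_cast
      linarith
    obtain ⟨K, c, hc⟩ := p2_pshift (e - 1)
    have h1 : ∀ k : ℕ, ∃ y : ℕ → ℝ, (y - (1 / (1 - (e + 1 + k))) • pw (e + 1 + k - 1)) ∈ PW (e + 1 + k) ∧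
        (fun n => y (n + 1) - y n - pw (e + 1 + k) n) =O[atTop] pw 12 := by
      intro k
      have hk : (0 : ℝ) ≤ k := Nat.cast_nonneg k
      apply ih
      · linarith
      · intro i hh
        apply hi (1 + k + i)
        push_cast
        linarith
    choose y hy1 hy2 using h1
    have hymem : ∀ k, y k ∈ PW e := by
      intro k
      have hk : (0 : ℝ) ≤ k := Nat.cast_nonneg k
      exact PW.mono (by linarith) (p2_mem_of_sub_mem (hy1 k))
    refine ⟨(1 / (1 - e)) • (pw (e - 1) - ∑ k ∈ Finset.range K, c k • y k), ?_, ?_⟩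
    · have h2 : (1 / (1 - e)) • (pw (e - 1) - ∑ k ∈ Finset.range K, c k • y k) - (1 / (1 - e)) • pw (e - 1) =
          -((1 / (1 - e)) • ∑ k ∈ Finset.range K, c k • y k) := by
        rw [smul_sub]
        abel
      rw [h2]
      exact Submodule.neg_mem _ (Submodule.smul_mem _ _ (Submodule.sum_mem _ fun k _ => Submodule.smul_mem _ _ (hymem k)))
    · have h3 : (fun n => ∑ k ∈ Finset.range K, c k * (y k (n + 1) - y k n - pw (e + 1 + k) n)) =O[atTop] pw 12 := by
        have h4 : (∑ k ∈ Finset.range K, fun n => c k * (y k (n + 1) - y k n - pw (e + 1 + k) n)) =O[atTop] pw 12 :=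
          IsBigO.sum fun k _ => (hy2 k).const_mul_left (c k)
        exact h4.congr_left fun n => by rw [Finset.sum_apply]
      refine ((hc.sub h3).const_mul_left (1 / (1 - e))).congr_left fun n => ?_
      simp only [Pi.smul_apply, Pi.sub_apply, smul_eq_mul, Finset.sum_apply]
      have e1 : ∑ k ∈ Finset.range K, c k * (y k (n + 1) - y k n - pw (e + 1 + k) n) =
          (∑ k ∈ Finset.range K, c k * y k (n + 1)) - (∑ k ∈ Finset.range K, c k * y k n) -
            ∑ k ∈ Finset.range K, c k * pw (e + 1 + k) n := by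
        rw [← Finset.sum_sub_distrib, ← Finset.sum_sub_distrib]
        refine Finset.sum_congr rfl fun k _ => ?_
        ring
      have e2 : ∑ k ∈ Finset.range K, c k * pw (e - 1 + 2 + k) n = ∑ k ∈ Finset.range K, c k * pw (e + 1 + k) n := by
        refine Finset.sum_congr rfl fun k _ => ?_
        congr 2
        ring
      have e3 : e - 1 + 1 = e := by ring
      rw [e1, e2, e3]
      field_simp
      ring
theorem p2_anti_poly (m : ℕ) : ∃ y : ℕ → ℝ, (y - (1 / (m + 1 : ℝ)) • pw (-(m : ℝ) - 1)) ∈ PW (-(m : ℝ)) ∧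
    ∀ n : ℕ, 1 ≤ n → y (n + 1) - y n = pw (-(m : ℝ)) n := by
  induction m using Nat.strong_induction_on with
  | _ m ih =>
    have h1 : ∀ k : ℕ, ∃ y : ℕ → ℝ, k < m → ((y - (1 / (k + 1 : ℝ)) • pw (-(k : ℝ) - 1)) ∈ PW (-(k : ℝ)) ∧
        ∀ n : ℕ, 1 ≤ n → y (n + 1) - y n = pw (-(k : ℝ)) n) := by
      intro k
      by_cases hk : k < m
      · obtain ⟨y, hy⟩ := ih k hk
        exact ⟨y, fun _ => hy⟩
      · exact ⟨0, fun h => absurd h hk⟩
    choose y hy using h1
    have hymem : ∀ k < m, y k ∈ PW (-(m : ℝ)) := by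
      intro k hk
      have hk' : (k : ℝ) + 1 ≤ m := by exact_mod_cast hk
      exact PW.mono (by linarith) (p2_mem_of_sub_mem (hy k hk).1)
    refine ⟨(1 / (m + 1 : ℝ)) • (pw (-(m : ℝ) - 1) - ∑ k ∈ Finset.range m, ((m + 1).choose k : ℝ) • y k), ?_, ?_⟩
    · have h2 : (1 / (m + 1 : ℝ)) • (pw (-(m : ℝ) - 1) - ∑ k ∈ Finset.range m, ((m + 1).choose k : ℝ) • y k) - (1 / (m + 1 : ℝ)) • pw (-(m : ℝ) - 1) =
          -((1 / (m + 1 : ℝ)) • ∑ k ∈ Finset.range m, ((m + 1).choose k : ℝ) • y k) := by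
        rw [smul_sub]
        abel
      rw [h2]
      exact Submodule.neg_mem _ (Submodule.smul_mem _ _ (Submodule.sum_mem _ fun k hk =>
        Submodule.smul_mem _ _ (hymem k (Finset.mem_range.mp hk))))
    · intro n hn
      simp only [Pi.smul_apply, Pi.sub_apply, smul_eq_mul, Finset.sum_apply]
      have e0 : -(m : ℝ) - 1 = -((m + 1 : ℕ) : ℝ) := by push_cast; ring
      rw [e0, p2_pw_neg_nat (m + 1) hn, p2_pw_neg_nat (m + 1) (by omega : 1 ≤ n + 1), p2_pw_neg_nat m hn]
      have e1 : (∑ k ∈ Finset.range m, ((m + 1).choose k : ℝ) * y k (n + 1)) - (∑ k ∈ Finset.range m, ((m + 1).choose k : ℝ) * y k n) =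
          ∑ k ∈ Finset.range m, ((m + 1).choose k : ℝ) * (n : ℝ) ^ k := by
        rw [← Finset.sum_sub_distrib]
        refine Finset.sum_congr rfl fun k hk => ?_
        rw [← mul_sub, (hy k (Finset.mem_range.mp hk)).2 n hn, p2_pw_neg_nat k hn]
      have e2 : ((n + 1 : ℕ) : ℝ) ^ (m + 1) = (∑ k ∈ Finset.range m, ((m + 1).choose k : ℝ) * (n : ℝ) ^ k) +
          (m + 1 : ℝ) * (n : ℝ) ^ m + (n : ℝ) ^ (m + 1) := by
        push_cast
        rw [add_pow, Finset.sum_range_succ, Finset.sum_range_succ]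
        simp only [one_pow, mul_one, Nat.choose_self, Nat.cast_one]
        rw [Nat.choose_succ_self_right]
        push_cast
        have : ∑ k ∈ Finset.range m, (n : ℝ) ^ k * ((m + 1).choose k : ℝ) = ∑ k ∈ Finset.range m, ((m + 1).choose k : ℝ) * (n : ℝ) ^ k :=
          Finset.sum_congr rfl fun k _ => mul_comm _ _
        rw [this]
        ring
      rw [e2]
      have hm : (m + 1 : ℝ) ≠ 0 := by positivity
      have e3 : ∑ k ∈ Finset.range m, ((m + 1).choose k : ℝ) * y k (n + 1) =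
          (∑ k ∈ Finset.range m, ((m + 1).choose k : ℝ) * y k n) + ∑ k ∈ Finset.range m, ((m + 1).choose k : ℝ) * (n : ℝ) ^ k := by
        linarith
      rw [e3]
      field_simp
      ring
theorem antidiff_ne (e : ℝ) (he : e ≠ 1) : ∃ y : ℕ → ℝ,
    (y - (1 / (1 - e)) • pw (e - 1)) ∈ PW e ∧
    (fun n => y (n + 1) - y n - pw e n) =O[atTop] pw 12 := by
  by_cases h : ∀ i : ℕ, e + i ≠ 1
  · obtain ⟨N, hN⟩ := exists_nat_ge (13 - e)
    exact p2_anti_gen N e (by linarith) h
  · push Not at h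
    obtain ⟨i, hi⟩ := h
    rcases i with _ | m
    · exfalso
      apply he
      simpa using hi
    · push_cast at hi
      have hem : e = -(m : ℝ) := by linarith
      obtain ⟨y, hy1, hy2⟩ := p2_anti_poly m
      refine ⟨y, ?_, ?_⟩
      · rw [hem]
        have : 1 / (1 - -(m : ℝ)) = 1 / (m + 1 : ℝ) := by
          congr 1
          ring
        rw [this]
        exact hy1
      · have h1 : (fun n => y (n + 1) - y n - pw e n) =ᶠ[atTop] fun _ => (0 : ℝ) := by
          filter_upwards [eventually_ge_atTop 1] with n hn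
          rw [hy2 n hn, hem, sub_self]
        exact (isBigO_zero (pw 12) atTop).congr' h1.symm (EventuallyEq.refl _ _)
theorem antidiff_one : ∃ y ∈ PW 1,
    (fun n : ℕ => Real.log (n + 1) + y (n + 1) - Real.log n - y n - pw 1 n) =O[atTop] pw 12 := by
  obtain ⟨K, c, hc⟩ := p2_lshift
  have h1 : ∀ k : ℕ, ∃ y : ℕ → ℝ, (y - (1 / (1 - (2 + k : ℝ))) • pw (2 + k - 1)) ∈ PW (2 + k) ∧
      (fun n => y (n + 1) - y n - pw (2 + k) n) =O[atTop] pw 12 := by
    intro k
    have hk : (0 : ℝ) ≤ k := Nat.cast_nonneg k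
    exact antidiff_ne _ (by linarith)
  choose y hy1 hy2 using h1
  have hymem : ∀ k, y k ∈ PW 1 := by
    intro k
    have hk : (0 : ℝ) ≤ k := Nat.cast_nonneg k
    exact PW.mono (by linarith) (p2_mem_of_sub_mem (hy1 k))
  refine ⟨-∑ k ∈ Finset.range K, c k • y k, ?_, ?_⟩
  · exact Submodule.neg_mem _ (Submodule.sum_mem _ fun k _ => Submodule.smul_mem _ _ (hymem k))
  · have h3 : (fun n => ∑ k ∈ Finset.range K, c k * (y k (n + 1) - y k n - pw (2 + k) n)) =O[atTop] pw 12 := by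
      have h4 : (∑ k ∈ Finset.range K, fun n => c k * (y k (n + 1) - y k n - pw (2 + k) n)) =O[atTop] pw 12 :=
        IsBigO.sum fun k _ => (hy2 k).const_mul_left (c k)
      exact h4.congr_left fun n => by rw [Finset.sum_apply]
    refine (hc.sub h3).congr_left fun n => ?_
    simp only [Pi.neg_apply, Pi.smul_apply, smul_eq_mul, Finset.sum_apply]
    have e1 : ∑ k ∈ Finset.range K, c k * (y k (n + 1) - y k n - pw (2 + k) n) =
        (∑ k ∈ Finset.range K, c k * y k (n + 1)) - (∑ k ∈ Finset.range K, c k * y k n) -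
          ∑ k ∈ Finset.range K, c k * pw (2 + k) n := by
      rw [← Finset.sum_sub_distrib, ← Finset.sum_sub_distrib]
      refine Finset.sum_congr rfl fun k _ => ?_
      ring
    rw [e1]
    ring
theorem antidiff {q : ℝ} {u : ℕ → ℝ} (hu : u ∈ PW q) : ∃ μ : ℝ, ∃ y ∈ PW (q - 1),
    (1 < q → μ = 0) ∧
    (fun n : ℕ => y (n + 1) - y n + μ * (Real.log (n + 1) - Real.log n) - u n)
      =O[atTop] pw 12 := by
  unfold PW at hu
  induction hu using Submodule.span_induction with
  | mem x hx =>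
    obtain ⟨e, he, rfl⟩ := hx
    by_cases h1 : e = 1
    · obtain ⟨y, hy, hy2⟩ := antidiff_one
      refine ⟨1, y, PW.mono (by linarith) hy, ?_, ?_⟩
      · intro hq
        linarith
      · refine hy2.congr_left fun n => ?_
        rw [h1]
        ring
    · obtain ⟨y, hy, hy2⟩ := antidiff_ne e h1
      refine ⟨0, y, PW.mono (by linarith) (p2_mem_of_sub_mem hy), fun _ => rfl, ?_⟩
      refine hy2.congr_left fun n => ?_
      ring
  | zero =>
    refine ⟨0, 0, Submodule.zero_mem _, fun _ => rfl, ?_⟩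
    simpa using isBigO_zero (pw 12) atTop
  | add x y hx hy ihx ihy =>
    obtain ⟨μ, a, ha, ha1, ha2⟩ := ihx
    obtain ⟨ν, b, hb, hb1, hb2⟩ := ihy
    refine ⟨μ + ν, a + b, Submodule.add_mem _ ha hb, ?_, ?_⟩
    · intro hq
      rw [ha1 hq, hb1 hq, add_zero]
    · refine (ha2.add hb2).congr_left fun n => ?_
      simp only [Pi.add_apply]
      ring
  | smul t x hx ih =>
    obtain ⟨μ, a, ha, ha1, ha2⟩ := ih
    refine ⟨t * μ, t • a, Submodule.smul_mem _ _ ha, ?_, ?_⟩
    · intro hq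
      rw [ha1 hq, mul_zero]
    · refine (ha2.const_mul_left t).congr_left fun n => ?_
      simp only [Pi.smul_apply, smul_eq_mul]
      ring

end Pool.Agent.Helper615.LogA
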