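import Mathlib
import Pool.Agent.Helper615.LogA.Defs
import Pool.Agent.Helper615.LogA.P1
import Pool.Agent.Helper615.LogA.P2
import Pool.Agent.Helper615.LogA.B0
set_option autoImplicit false

namespace Pool.Agent.Helper615.LogA

open Filter Asymptotics
theorem b2_pw_pos (e : ℝ) (n : ℕ) : 0 < pw e n := Real.exp_pos _
theorem b2_pw_mul (a b : ℝ) (n : ℕ) : pw a n * pw b n = pw (a + b) n := by
  unfold pw
  rw [← Real.exp_add]
  congr 1
  ring
theorem b2_pw_mul' (a b : ℝ) : pw a * pw b = pw (a + b) := by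
  funext n
  exact b2_pw_mul a b n
theorem b2_pw_le_one {e : ℝ} (he : 0 ≤ e) (n : ℕ) : pw e n ≤ 1 := by
  unfold pw
  rw [Real.exp_le_one_iff]
  have := mul_nonneg he (Real.log_natCast_nonneg n)
  linarith
theorem b2_pw_anti {a b : ℝ} (h : a ≤ b) (n : ℕ) : pw b n ≤ pw a n := by
  unfold pw
  apply Real.exp_le_exp.2
  have := mul_le_mul_of_nonneg_right h (Real.log_natCast_nonneg n)
  linarith
theorem b2_pw_bigO {a b : ℝ} (h : a ≤ b) : pw b =O[atTop] pw a := by
  apply IsBigO.of_bound 1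
  filter_upwards with n
  rw [one_mul, Real.norm_of_nonneg (b2_pw_pos _ _).le, Real.norm_of_nonneg (b2_pw_pos _ _).le]
  exact b2_pw_anti h n
theorem b2_pw_mem {q e : ℝ} (h : q ≤ e) : pw e ∈ PW q := Submodule.subset_span ⟨e, h, rfl⟩
theorem b2_pw_nat (m n : ℕ) (hn : 1 ≤ n) : pw (m : ℝ) n = 1 / (n : ℝ) ^ m := by
  have hn' : (0 : ℝ) < n := by exact_mod_cast hn
  unfold pw
  rw [Real.exp_neg, Real.exp_nat_mul, Real.exp_log hn', one_div]
theorem b2_exists_d (r : ℕ → ℝ) (hr : r =O[atTop] pw 11) :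
    ∃ d : ℕ → ℝ, (∀ k, d k + d (k + 1) = r k) ∧ d =O[atTop] pw 10 := by
  have hps : Summable (pw 11) := by
    have h1 : Summable (fun n : ℕ => 1 / (n : ℝ) ^ 11) :=
      Real.summable_one_div_nat_pow.2 (by norm_num)
    apply summable_of_isBigO_nat h1
    apply IsBigO.of_bound 1
    filter_upwards [eventually_ge_atTop 1] with n hn
    have := b2_pw_nat 11 n hn
    rw [show ((11 : ℕ) : ℝ) = 11 by norm_num] at this
    rw [this, one_mul]
  have hsum : Summable r := summable_of_isBigO_nat hps hr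
  have hsk : ∀ k, Summable (fun m => |r (k + m)|) := by
    intro k
    have h1 : Summable (fun m => r (m + k)) := (summable_nat_add_iff k).2 hsum
    have h2 : Summable (fun m => r (k + m)) := by
      refine h1.congr fun m => ?_
      rw [add_comm]
    exact h2.abs
  have hsa : ∀ k, Summable (fun m => (-1 : ℝ) ^ m * r (k + m)) := by
    intro k
    apply Summable.of_norm
    refine (hsk k).congr fun m => ?_
    rw [norm_mul, norm_pow, norm_neg, norm_one, one_pow, one_mul, Real.norm_eq_abs]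
  refine ⟨fun k => ∑' m, (-1 : ℝ) ^ m * r (k + m), ?_, ?_⟩
  · intro k
    simp only
    rw [(hsa k).tsum_eq_zero_add]
    have h1 : ∑' m : ℕ, (-1 : ℝ) ^ (m + 1) * r (k + (m + 1)) =
        - ∑' m : ℕ, (-1 : ℝ) ^ m * r (k + 1 + m) := by
      rw [← tsum_neg]
      refine tsum_congr fun m => ?_
      rw [show k + (m + 1) = k + 1 + m by ring, pow_succ]
      ring
    rw [h1]
    simp
  · obtain ⟨C, hC⟩ := hr.bound
    obtain ⟨N, hN⟩ := eventually_atTop.1 hC
    have hC0 : 0 ≤ C := by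
      have h1 := hN N le_rfl
      have h2 := norm_nonneg (r N)
      have h3 : 0 < ‖pw 11 N‖ := norm_pos_iff.2 (b2_pw_pos _ _).ne'
      by_contra hc
      push Not at hc
      have : C * ‖pw 11 N‖ < 0 := mul_neg_of_neg_of_pos hc h3
      linarith
    apply IsBigO.of_bound (2 * C)
    filter_upwards [eventually_ge_atTop N, eventually_ge_atTop 1] with k hkN hk1
    have hk : (1 : ℝ) ≤ k := by exact_mod_cast hk1
    have h1 : ‖∑' m, (-1 : ℝ) ^ m * r (k + m)‖ ≤ ∑' m, |r (k + m)| := by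
      refine (norm_tsum_le_tsum_norm (hsa k).norm).trans (le_of_eq ?_)
      refine tsum_congr fun m => ?_
      rw [norm_mul, norm_pow, norm_neg, norm_one, one_pow, one_mul, Real.norm_eq_abs]
    have h2 : ∀ M : ℕ, ∑ m ∈ Finset.range M, |r (k + m)| ≤
        2 * C / (k : ℝ) ^ 9 * (1 / k - 1 / (k + M : ℝ)) := by
      intro M
      induction M with
      | zero => simp
      | succ M ih =>
        rw [Finset.sum_range_succ]
        have h3 : |r (k + M)| ≤ 2 * C / (k : ℝ) ^ 9 *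
            (1 / (k + M : ℝ) - 1 / (k + (M + 1 : ℕ) : ℝ)) := by
          have h4 := hN (k + M) (by omega)
          have h5 := b2_pw_nat 11 (k + M) (by omega)
          rw [show ((11 : ℕ) : ℝ) = 11 by norm_num] at h5
          rw [h5, Real.norm_eq_abs, Real.norm_of_nonneg (by positivity)] at h4
          refine h4.trans ?_
          push_cast
          set t : ℝ := (k : ℝ) + M with ht
          have htk : (k : ℝ) ≤ t := by
            rw [ht]
            have : (0 : ℝ) ≤ M := by positivity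
            linarith
          have ht0 : 0 < t := by linarith
          have h6 : 1 / t - 1 / (k + (M + 1) : ℝ) = 1 / (t * (t + 1)) := by
            rw [show (k : ℝ) + (M + 1) = t + 1 by rw [ht]; ring]
            field_simp
            ring
          rw [h6]
          have h7 : (k : ℝ) ^ 9 ≤ t ^ 9 := by gcongr
          have h8 : t + 1 ≤ 2 * t := by linarith
          have hk0 : (0 : ℝ) < k := by linarith
          rw [div_mul_div_comm, mul_one_div, div_le_div_iff₀ (by positivity) (by positivity)]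
          calc C * ((k : ℝ) ^ 9 * (t * (t + 1))) ≤ C * (t ^ 9 * (t * (2 * t))) := by gcongr
            _ = 2 * C * 1 * t ^ 11 := by ring
        have h4 : 2 * C / (k : ℝ) ^ 9 * (1 / k - 1 / (k + (M + 1 : ℕ) : ℝ)) =
            2 * C / (k : ℝ) ^ 9 * (1 / k - 1 / (k + M : ℝ)) + 2 * C / (k : ℝ) ^ 9 *
            (1 / (k + M : ℝ) - 1 / (k + (M + 1 : ℕ) : ℝ)) := by ring
        rw [h4]
        exact add_le_add ih h3
    have h3 : ∑' m, |r (k + m)| ≤ 2 * C / (k : ℝ) ^ 9 * (1 / k) := by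
      apply Real.tsum_le_of_sum_range_le (fun m => abs_nonneg _)
      intro M
      refine (h2 M).trans ?_
      apply mul_le_mul_of_nonneg_left _ (by positivity)
      have : 0 ≤ 1 / (k + M : ℝ) := by positivity
      linarith
    have h5 := b2_pw_nat 10 k hk1
    rw [show ((10 : ℕ) : ℝ) = 10 by norm_num] at h5
    rw [h5, Real.norm_of_nonneg (show (0 : ℝ) ≤ 1 / (k : ℝ) ^ 10 by positivity)]
    refine (h1.trans h3).trans (le_of_eq ?_)
    have hk0 : (k : ℝ) ≠ 0 := by linarith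
    field_simp
theorem b2_taylor_log : ∀ I : ℕ, ∃ c : ℕ → ℝ, c 0 = 0 ∧ c 1 = 1 ∧
      (fun y : ℝ => Real.log (1 + y) - ∑ i ∈ Finset.range (I + 1), c i * y ^ i) =O[nhds 0]
        fun y => y ^ (I + 1) := by
  intro I
  refine ⟨fun i => if i = 0 then 0 else (-1) ^ (i + 1) / i, by simp, by norm_num, ?_⟩
  apply IsBigO.of_bound 2
  have hball : Metric.ball (0 : ℝ) (1 / 2) ∈ nhds (0 : ℝ) := Metric.ball_mem_nhds _ (by norm_num)
  filter_upwards [hball] with y hy
  rw [Metric.mem_ball, dist_zero_right, Real.norm_eq_abs] at hy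
  have h1 := Real.abs_log_sub_add_sum_range_le (x := -y) (by rw [abs_neg]; linarith) I
  rw [abs_neg, sub_neg_eq_add] at h1
  have h2 : ∑ i ∈ Finset.range (I + 1), (if i = 0 then (0 : ℝ) else (-1) ^ (i + 1) / i) * y ^ i =
      - ∑ i ∈ Finset.range I, (-y) ^ (i + 1) / (i + 1) := by
    rw [Finset.sum_range_succ', ← Finset.sum_neg_distrib]
    simp only [if_true, zero_mul, add_zero]
    refine Finset.sum_congr rfl fun i _ => ?_
    rw [if_neg (by omega), neg_pow y (i + 1)]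
    push_cast
    ring
  rw [h2, sub_neg_eq_add, add_comm, Real.norm_eq_abs, norm_pow, Real.norm_eq_abs]
  refine h1.trans ?_
  rw [div_le_iff₀ (by linarith)]
  have h3 : 0 ≤ |y| ^ (I + 1) := by positivity
  nlinarith
theorem b2_taylor_exp : ∀ I : ℕ, ∃ c : ℕ → ℝ, c 0 = 0 ∧ c 1 = 1 ∧
      (fun y : ℝ => (Real.exp y - 1) - ∑ i ∈ Finset.range (I + 1), c i * y ^ i) =O[nhds 0]
        fun y => y ^ (I + 1) := by
  intro I
  refine ⟨fun i => if i = 0 then 0 else 1 / (i.factorial : ℝ), by simp, by norm_num, ?_⟩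
  apply IsBigO.of_bound (((I + 1).succ : ℝ) / ((I + 1).factorial * (I + 1 : ℕ)))
  have hball : Metric.ball (0 : ℝ) 1 ∈ nhds (0 : ℝ) := Metric.ball_mem_nhds _ (by norm_num)
  filter_upwards [hball] with y hy
  rw [Metric.mem_ball, dist_zero_right, Real.norm_eq_abs] at hy
  have h1 := Real.exp_bound (x := y) hy.le (n := I + 1) (Nat.succ_pos _)
  have h2 : (Real.exp y - 1) - ∑ i ∈ Finset.range (I + 1),
      (if i = 0 then (0 : ℝ) else 1 / (i.factorial : ℝ)) * y ^ i =
      Real.exp y - ∑ m ∈ Finset.range (I + 1), y ^ m / m.factorial := by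
    rw [Finset.sum_range_succ', Finset.sum_range_succ' (fun m => y ^ m / (m.factorial : ℝ))]
    have h3 : ∀ i ∈ Finset.range I, (if i + 1 = 0 then (0 : ℝ) else 1 / ((i + 1).factorial : ℝ)) *
        y ^ (i + 1) = y ^ (i + 1) / ((i + 1).factorial : ℝ) := by
      intro i _
      rw [if_neg (by omega)]
      ring
    rw [Finset.sum_congr rfl h3]
    simp
    ring
  rw [h2, Real.norm_eq_abs, norm_pow, Real.norm_eq_abs, mul_comm]
  exact h1
theorem partB2 (b : ℕ → ℝ) (Cb δ β₀ : ℝ) (hC : 0 < Cb) (hδ : 0 < δ) (hδ' : δ ≤ 1 / 4)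
    (α β e : ℕ → ℝ) (hα : α ∈ PW δ) (hβ : (β - β₀ • pw 3) ∈ PW (3 + δ)) (he : e =O[atTop] pw 11)
    (hb : ∀ n : ℕ, 1 ≤ n → 0 < b n ∧
      b n = Cb * pw (-(2/3)) n * (1 + α n + (-1 : ℝ) ^ n * β n + e n)) :
    ∃ (h f g : ℕ → ℝ) (f₀ g₀ : ℝ), 0 < f₀ ∧ (∀ k, 1 ≤ k → 0 < h k ∧ h k * h (k + 1) * b k = 1) ∧
      (f - f₀ • pw (1/3)) ∈ PW (1/3 + δ) ∧ (g - g₀ • pw (7/3)) ∈ PW (7/3 + δ) ∧
      (fun k => h k - f k - (-1 : ℝ) ^ k * g k) =O[atTop] pw 10 := by
  
  set x : ℕ → ℝ := fun n => α n + (-1 : ℝ) ^ n * β n + e n with hx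
  have hQx : QQ δ 3 β₀ 11 x := by
    refine ⟨α, hα, β, hβ, ?_⟩
    refine he.congr_left fun n => ?_
    simp only [hx]
    ring
  obtain ⟨α', hα', β', hβ', hlog⟩ := QQ.comp hδ (by linarith) (by norm_num)
    (fun y => Real.log (1 + y)) b2_taylor_log hQx
  simp only at hlog
  have hb1 : ∀ n : ℕ, 1 ≤ n → Real.log (b n) = Real.log Cb + (2 / 3) * Real.log n +
      Real.log (1 + x n) := by
    intro n hn
    obtain ⟨h1, h2⟩ := hb n hn
    have h3 : 1 + α n + (-1 : ℝ) ^ n * β n + e n = 1 + x n := by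
      simp only [hx]; ring
    rw [h3] at h2
    have h4 : 0 < Cb * pw (-(2/3)) n := mul_pos hC (b2_pw_pos _ _)
    have h5 : 0 < 1 + x n := by
      rw [h2] at h1
      exact (mul_pos_iff_of_pos_left h4).1 h1
    rw [h2, Real.log_mul h4.ne' h5.ne', Real.log_mul hC.ne' (b2_pw_pos _ _).ne']
    have h6 : Real.log (pw (-(2/3)) n) = (2 / 3) * Real.log n := by
      unfold pw
      rw [Real.log_exp]
      ring
    rw [h6]
  
  obtain ⟨y1, hy1, hy1'⟩ := antidiff_one
  obtain ⟨v1, hv1, hv1', hv1''⟩ := PW.shift hy1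
  set Lg : ℕ → ℝ := pw 1 - (v1 - y1) with hLg
  have hLgmem : Lg ∈ PW 1 :=
    Submodule.sub_mem _ (b2_pw_mem le_rfl) (Submodule.sub_mem _ hv1 hy1)
  have hLgO : (fun n : ℕ => Real.log (n + 1) - Real.log n - Lg n) =O[atTop] pw 12 := by
    refine (hy1'.sub hv1'').congr_left fun n => ?_
    simp only [hLg, Pi.sub_apply]
    ring
  set s : ℕ → ℝ := -α' + (1 / 3 : ℝ) • Lg with hs
  have hsmem : s ∈ PW δ := Submodule.add_mem _ (Submodule.neg_mem _ hα')
    (Submodule.smul_mem _ _ (PW.mono (by linarith) hLgmem))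
  obtain ⟨u₁, hu₁, _, hu₁'⟩ := halfinv hsmem
  
  obtain ⟨y3, hy3, hy3'⟩ := antidiff_ne 3 (by norm_num)
  obtain ⟨μ, y4, hy4, hμ, hy4'⟩ := antidiff hβ'
  have hμ0 := hμ (by linarith)
  rw [hμ0] at hy4'
  set v : ℕ → ℝ := β₀ • y3 + y4 with hv
  have hvmem : (v - (-β₀ / 2) • pw 2) ∈ PW (2 + δ) := by
    have h1 : v - (-β₀ / 2) • pw 2 = β₀ • (y3 - (1 / (1 - 3 : ℝ)) • pw (3 - 1)) + y4 := by
      rw [hv, show (3 - 1 : ℝ) = 2 by norm_num]
      funext n
      simp only [Pi.sub_apply, Pi.add_apply, Pi.smul_apply, smul_eq_mul]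
      ring
    rw [h1]
    refine Submodule.add_mem _ (Submodule.smul_mem _ _ (PW.mono (by linarith) hy3)) ?_
    rw [show (2 + δ) = 3 + δ - 1 by ring]
    exact hy4
  have hvO : (fun n : ℕ => v (n + 1) - v n - β' n) =O[atTop] pw 12 := by
    refine ((hy3'.const_mul_left β₀).add hy4').congr_left fun n => ?_
    simp only [hv, Pi.sub_apply, Pi.add_apply, Pi.smul_apply, smul_eq_mul]
    ring
  set Ha : ℕ → ℝ := fun k => (-(1 / 2) * Real.log Cb - (1 / 3) * Real.log k) + u₁ k +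
    (-1 : ℝ) ^ k * v k with hHa
  set r : ℕ → ℝ := fun k => Ha k + Ha (k + 1) + Real.log (b k) with hr
  have hrO : r =O[atTop] pw 11 := by
    have t1 : (fun n : ℕ => -(1 / 3 : ℝ) * (Real.log (n + 1) - Real.log n - Lg n)) =O[atTop]
        pw 11 := (hLgO.const_mul_left _).trans (b2_pw_bigO (by norm_num))
    have t2 : (fun n : ℕ => u₁ n + u₁ (n + 1) - s n) =O[atTop] pw 11 :=
      hu₁'.trans (b2_pw_bigO (by norm_num))
    have t3 : (fun n : ℕ => -((-1 : ℝ) ^ n) * (v (n + 1) - v n - β' n)) =O[atTop] pw 11 := by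
      refine IsBigO.trans ?_ (hvO.trans (b2_pw_bigO (by norm_num)))
      apply IsBigO.of_bound 1
      filter_upwards with n
      rw [norm_mul, norm_neg, norm_pow, norm_neg, norm_one, one_pow]
    refine ((t1.add (t2.add (t3.add hlog)))).congr' ?_ EventuallyEq.rfl
    filter_upwards [eventually_ge_atTop 1] with n hn
    simp only [hr, hHa]
    rw [hb1 n hn]
    simp only [hs, Pi.add_apply, Pi.neg_apply, Pi.smul_apply, smul_eq_mul]
    push_cast
    rw [pow_succ]
    ring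
  
  obtain ⟨d, hd, hdO⟩ := b2_exists_d r hrO
  
  have hQE : QQ δ 2 (-β₀ / 2) 10 (fun k => u₁ k + (-1 : ℝ) ^ k * v k - d k) := by
    refine ⟨u₁, hu₁, v, hvmem, ?_⟩
    refine hdO.neg_left.congr_left fun n => ?_
    ring
  obtain ⟨U, hU, V, hV, hexp⟩ := QQ.comp hδ (by linarith) (by norm_num)
    (fun y => Real.exp y - 1) b2_taylor_exp hQE
  simp only at hexp
  set f₀ : ℝ := Real.exp (-(1 / 2) * Real.log Cb) with hf₀
  have hf₀pos : 0 < f₀ := Real.exp_pos _
  refine ⟨fun k => Real.exp (Ha k - d k), f₀ • pw (1/3) + f₀ • (pw (1/3) * U),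
    f₀ • (pw (1/3) * V), f₀, f₀ * (-β₀ / 2), hf₀pos, ?_, ?_, ?_, ?_⟩
  · intro k hk
    refine ⟨Real.exp_pos _, ?_⟩
    simp only
    have hbk := (hb k hk).1
    rw [← Real.exp_add]
    have h5 : Real.exp (Ha k - d k + (Ha (k + 1) - d (k + 1))) * b k =
        Real.exp (Ha k - d k + (Ha (k + 1) - d (k + 1)) + Real.log (b k)) := by
      rw [Real.exp_add _ (Real.log (b k)), Real.exp_log hbk]
    rw [h5]
    have h1 := hd k
    have h2 : Ha k - d k + (Ha (k + 1) - d (k + 1)) + Real.log (b k) = 0 := by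
      have h3 : r k = Ha k + Ha (k + 1) + Real.log (b k) := rfl
      linarith
    rw [h2, Real.exp_zero]
  · rw [add_sub_cancel_left]
    exact Submodule.smul_mem _ _ (PW.mul (b2_pw_mem le_rfl) hU)
  · have h1 : f₀ • (pw (1/3) * V) - (f₀ * (-β₀ / 2)) • pw (7/3) =
        f₀ • (pw (1/3) * (V - (-β₀ / 2) • pw 2)) := by
      have h2 : pw (7/3) = pw (1/3) * pw 2 := by
        rw [b2_pw_mul']
        norm_num
      rw [h2]
      funext n
      simp only [Pi.sub_apply, Pi.mul_apply, Pi.smul_apply, smul_eq_mul]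
      ring
    rw [h1, show (7/3 + δ : ℝ) = 1/3 + (2 + δ) by ring]
    exact Submodule.smul_mem _ _ (PW.mul (b2_pw_mem le_rfl) hV)
  · have h1 : (fun k : ℕ => f₀ * pw (1/3) k *
        (Real.exp (u₁ k + (-1 : ℝ) ^ k * v k - d k) - 1 - U k - (-1 : ℝ) ^ k * V k)) =O[atTop]
        pw 10 := by
      have h2 : (fun k : ℕ => f₀ * pw (1/3) k) =O[atTop] fun _ => (1 : ℝ) := by
        apply IsBigO.of_bound f₀
        filter_upwards with k
        rw [norm_mul, Real.norm_of_nonneg hf₀pos.le, Real.norm_of_nonneg (b2_pw_pos _ _).le,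
          norm_one, mul_one]
        exact mul_le_of_le_one_right hf₀pos.le (b2_pw_le_one (by norm_num) k)
      simpa using h2.mul hexp
    refine h1.congr_left fun k => ?_
    have h3 : Real.exp (Ha k - d k) = f₀ * pw (1/3) k *
        Real.exp (u₁ k + (-1 : ℝ) ^ k * v k - d k) := by
      rw [hf₀]
      unfold pw
      rw [← Real.exp_add, ← Real.exp_add]
      congr 1
      simp only [hHa]
      ring
    simp only [Pi.add_apply, Pi.mul_apply, Pi.smul_apply, smul_eq_mul]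
    rw [h3]
    ring

end Pool.Agent.Helper615.LogA
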