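import Mathlib
import Pool.Agent.Helper615.LogA.Defs
set_option autoImplicit false

namespace Pool.Agent.Helper615.LogA

open Polynomial MeasureTheory
theorem c1_w_cont : Continuous w := by
  unfold w
  exact Real.continuous_exp.comp (continuous_abs.rpow_const (fun _ => Or.inr (by norm_num))).neg
theorem c1_w_pos (x : ℝ) : 0 < w x := Real.exp_pos _
theorem c1_w_neg (x : ℝ) : w (-x) = w x := by
  unfold w; rw [abs_neg]
theorem c1_w_le (x : ℝ) : w x ≤ Real.exp 1 * Real.exp (-|x|) := by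
  unfold w
  rw [← Real.exp_add]
  apply Real.exp_le_exp.2
  have h : |x| - 1 ≤ |x| ^ (3 : ℝ) := by
    rcases le_total |x| 1 with h1 | h1
    · have : 0 ≤ |x| ^ (3 : ℝ) := by positivity
      linarith
    · have h2 : |x| ^ (1 : ℝ) ≤ |x| ^ (3 : ℝ) :=
        Real.rpow_le_rpow_of_exponent_le h1 (by norm_num)
      rw [Real.rpow_one] at h2
      linarith
  linarith
theorem c1_int_pow (n : ℕ) : Integrable (fun x : ℝ => x ^ n * w x) := by
  set C : ℝ := Real.exp 1 * ((n.factorial : ℝ) + ((n + 2).factorial : ℝ)) with hC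
  refine Integrable.mono' (integrable_inv_one_add_sq.const_mul C)
    ((continuous_pow n).mul c1_w_cont).aestronglyMeasurable (Filter.Eventually.of_forall fun x => ?_)
  rw [norm_mul, norm_pow, Real.norm_eq_abs, Real.norm_of_nonneg (c1_w_pos x).le,
    ← div_eq_mul_inv, le_div_iff₀ (by positivity)]
  have h1 := Real.pow_div_factorial_le_exp |x| (abs_nonneg x) n
  have h2 := Real.pow_div_factorial_le_exp |x| (abs_nonneg x) (n + 2)
  have f1 : (0 : ℝ) < n.factorial := by exact_mod_cast n.factorial_pos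
  have f2 : (0 : ℝ) < (n + 2).factorial := by exact_mod_cast (n + 2).factorial_pos
  rw [div_le_iff₀ f1] at h1
  rw [div_le_iff₀ f2] at h2
  have h3 : |x| ^ n * (1 + x ^ 2) ≤
      ((n.factorial : ℝ) + ((n + 2).factorial : ℝ)) * Real.exp |x| := by
    have : x ^ 2 = |x| ^ 2 := (sq_abs x).symm
    rw [this, mul_add, mul_one, ← pow_add]
    nlinarith
  have h4 := c1_w_le x
  have h5 : Real.exp |x| * Real.exp (-|x|) = 1 := by rw [← Real.exp_add]; simp
  calc |x| ^ n * w x * (1 + x ^ 2) = (|x| ^ n * (1 + x ^ 2)) * w x := by ring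
    _ ≤ (((n.factorial : ℝ) + ((n + 2).factorial : ℝ)) * Real.exp |x|) *
        (Real.exp 1 * Real.exp (-|x|)) := by
        have := (c1_w_pos x).le
        gcongr
    _ = C := by
        rw [hC]
        linear_combination ((n.factorial : ℝ) + ((n + 2).factorial : ℝ)) * Real.exp 1 * h5
theorem c1_int_poly (p : ℝ[X]) : Integrable (fun x : ℝ => p.eval x * w x) := by
  induction p using Polynomial.induction_on' with
  | add p q hp hq =>
    have := hp.add hq
    refine this.congr (Filter.Eventually.of_forall fun x => ?_)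
    simp only [Pi.add_apply, eval_add]
    ring
  | monomial n a =>
    refine ((c1_int_pow n).const_mul a).congr (Filter.Eventually.of_forall fun x => ?_)
    simp only [eval_monomial]
    ring
noncomputable def c1_J : ℝ[X] →ₗ[ℝ] ℝ where
  toFun p := ∫ x : ℝ, p.eval x * w x
  map_add' p q := by
    rw [← integral_add (c1_int_poly p) (c1_int_poly q)]
    refine integral_congr_ae (Filter.Eventually.of_forall fun x => ?_)
    simp only [eval_add]
    ring
  map_smul' c p := by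
    simp only [RingHom.id_apply, smul_eq_mul]
    rw [← integral_const_mul]
    refine integral_congr_ae (Filter.Eventually.of_forall fun x => ?_)
    simp only [eval_smul, smul_eq_mul]
    ring
theorem c1_ip_eq (p q : ℝ[X]) : ip p q = c1_J (p * q) := by
  show ∫ x : ℝ, p.eval x * q.eval x * w x = ∫ x : ℝ, (p * q).eval x * w x
  refine integral_congr_ae (Filter.Eventually.of_forall fun x => ?_)
  simp only [eval_mul]
theorem c1_J_C_mul (c : ℝ) (p : ℝ[X]) : c1_J (C c * p) = c * c1_J p := by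
  rw [← smul_eq_C_mul, map_smul, smul_eq_mul]
theorem c1_J_odd {p : ℝ[X]} (hp : ∀ x, p.eval (-x) = - p.eval x) : c1_J p = 0 := by
  have h1 : c1_J p = ∫ x : ℝ, p.eval (-x) * w (-x) :=
    (integral_neg_eq_self (fun x => p.eval x * w x) volume).symm
  have h2 : ∫ x : ℝ, p.eval (-x) * w (-x) = - c1_J p := by
    show _ = - ∫ x : ℝ, p.eval x * w x
    rw [← integral_neg]
    refine integral_congr_ae (Filter.Eventually.of_forall fun x => ?_)
    simp only [hp, c1_w_neg]
    ring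
  linarith
theorem c1_ip_pos {p : ℝ[X]} (hp : p ≠ 0) : 0 < ip p p := by
  have hi : Integrable (fun x : ℝ => p.eval x * p.eval x * w x) := by
    refine (c1_int_poly (p * p)).congr (Filter.Eventually.of_forall fun x => ?_)
    simp only [eval_mul]
  have hn : 0 ≤ fun x : ℝ => p.eval x * p.eval x * w x := by
    intro x
    have := (c1_w_pos x).le
    have := mul_self_nonneg (p.eval x)
    simp only [Pi.zero_apply]
    positivity
  show 0 < ∫ x : ℝ, p.eval x * p.eval x * w x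
  rw [integral_pos_iff_support_of_nonneg hn hi]
  have hs : Function.support (fun x : ℝ => p.eval x * p.eval x * w x) = {x | p.eval x ≠ 0} := by
    ext x
    simp only [Function.mem_support, Set.mem_ofPred_eq, ne_eq, mul_eq_zero, (c1_w_pos x).ne',
      or_false, or_self]
  rw [hs]
  refine IsOpen.measure_pos volume (isOpen_ne_fun p.continuous continuous_const) ?_
  by_contra hne
  rw [Set.not_nonempty_iff_eq_empty] at hne
  apply hp
  apply Polynomial.funext
  intro r
  by_contra hr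
  have : r ∈ {x : ℝ | p.eval x ≠ 0} := by
    show p.eval r ≠ 0
    simpa using hr
  rw [hne] at this
  exact this
noncomputable def c1_PP : ℕ → ℝ[X] × ℝ[X]
  | 0 => (1, X)
  | n + 1 => ((c1_PP n).2, X * (c1_PP n).2 -
      C (ip (c1_PP n).2 (c1_PP n).2 / ip (c1_PP n).1 (c1_PP n).1) * (c1_PP n).1)
noncomputable def c1_P (n : ℕ) : ℝ[X] := (c1_PP n).1
noncomputable def c1_b (n : ℕ) : ℝ := ip (c1_P n) (c1_P n) / ip (c1_P (n - 1)) (c1_P (n - 1))
theorem c1_P_zero : c1_P 0 = 1 := rfl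
theorem c1_P_one : c1_P 1 = X := rfl
theorem c1_P_succ (n : ℕ) : c1_P (n + 2) = X * c1_P (n + 1) - C (c1_b (n + 1)) * c1_P n := rfl
theorem c1_P_monic : ∀ n, ((c1_P n).Monic ∧ (c1_P n).natDegree = n) ∧
    ((c1_P (n + 1)).Monic ∧ (c1_P (n + 1)).natDegree = n + 1) := by
  intro n
  induction n with
  | zero =>
    refine ⟨⟨?_, ?_⟩, ⟨?_, ?_⟩⟩
    · rw [c1_P_zero]; exact monic_one
    · rw [c1_P_zero]; exact natDegree_one
    · rw [c1_P_one]; exact monic_X
    · rw [c1_P_one]; exact natDegree_X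
  | succ n ih =>
    obtain ⟨⟨h1, h2⟩, ⟨h3, h4⟩⟩ := ih
    have hm : (X * c1_P (n + 1)).Monic := monic_X.mul h3
    have hd : (X * c1_P (n + 1)).natDegree = n + 2 := by
      rw [monic_X.natDegree_mul h3, natDegree_X, h4]
      ring
    have hlt : (C (c1_b (n + 1)) * c1_P n).natDegree < (X * c1_P (n + 1)).natDegree := by
      rw [hd]
      refine lt_of_le_of_lt (natDegree_C_mul_le _ _) ?_
      rw [h2]; omega
    refine ⟨⟨h3, h4⟩, ?_, ?_⟩
    · rw [c1_P_succ]
      exact hm.sub_of_left (degree_lt_degree hlt)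
    · rw [c1_P_succ, natDegree_sub_eq_left_of_natDegree_lt hlt, hd]
theorem c1_P_pos (n : ℕ) : 0 < ip (c1_P n) (c1_P n) := c1_ip_pos (c1_P_monic n).1.1.ne_zero
theorem c1_P_parity : ∀ n, (∀ x, (c1_P n).eval (-x) = (-1) ^ n * (c1_P n).eval x) ∧
    (∀ x, (c1_P (n + 1)).eval (-x) = (-1) ^ (n + 1) * (c1_P (n + 1)).eval x) := by
  intro n
  induction n with
  | zero =>
    constructor
    · intro x; rw [c1_P_zero]; simp
    · intro x; rw [c1_P_one]; simp
  | succ n ih =>
    obtain ⟨h1, h2⟩ := ih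
    refine ⟨h2, fun x => ?_⟩
    rw [c1_P_succ]
    simp only [eval_sub, eval_mul, eval_X, eval_C, h1 x, h2 x]
    ring
theorem c1_ip_comm (p q : ℝ[X]) : ip p q = ip q p := by
  rw [c1_ip_eq, c1_ip_eq, mul_comm]
theorem c1_P_X_self (n : ℕ) : ip (c1_P n) (X * c1_P n) = 0 := by
  rw [c1_ip_eq]
  apply c1_J_odd
  intro x
  simp only [eval_mul, eval_X, (c1_P_parity n).1 x]
  have : ((-1 : ℝ) ^ n) * (-1) ^ n = 1 := by
    rw [← mul_pow]; simp
  linear_combination (-((c1_P n).eval x * x * (c1_P n).eval x)) * this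
theorem c1_X_mul_P (i : ℕ) : ∃ c : ℝ, X * c1_P i = c1_P (i + 1) + C c * c1_P (i - 1) := by
  cases i with
  | zero => exact ⟨0, by rw [c1_P_zero, c1_P_one]; simp⟩
  | succ i =>
    refine ⟨c1_b (i + 1), ?_⟩
    rw [c1_P_succ]
    simp
theorem c1_ip_add_C (p q r : ℝ[X]) (c : ℝ) : ip p (q + C c * r) = ip p q + c * ip p r := by
  rw [c1_ip_eq, c1_ip_eq, c1_ip_eq, mul_add, map_add, ← c1_J_C_mul]
  congr 2
  ring
theorem c1_b_eq (n : ℕ) : ip (c1_P (n + 1)) (c1_P (n + 1)) = c1_b (n + 1) * ip (c1_P n) (c1_P n) := by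
  unfold c1_b
  rw [Nat.add_sub_cancel, div_mul_cancel₀ _ (c1_P_pos n).ne']
theorem c1_P_orth : ∀ n, (∀ i < n, ip (c1_P n) (c1_P i) = 0) ∧
    (∀ i < n + 1, ip (c1_P (n + 1)) (c1_P i) = 0) := by
  intro n
  induction n with
  | zero =>
    refine ⟨fun i hi => absurd hi (by omega), fun i hi => ?_⟩
    have : i = 0 := by omega
    subst this
    rw [c1_ip_eq, c1_P_one, c1_P_zero]
    apply c1_J_odd
    intro x
    simp
  | succ n ih =>
    obtain ⟨h1, h2⟩ := ih
    refine ⟨h2, fun i hi => ?_⟩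
    have key : ip (c1_P (n + 2)) (c1_P i) =
        ip (c1_P (n + 1)) (X * c1_P i) - c1_b (n + 1) * ip (c1_P n) (c1_P i) := by
      rw [c1_ip_eq, c1_ip_eq, c1_ip_eq, c1_P_succ, ← c1_J_C_mul, ← map_sub]
      congr 1
      ring
    show ip (c1_P (n + 2)) (c1_P i) = 0
    rw [key]
    rcases Nat.lt_trichotomy i n with h | h | h
    · obtain ⟨c, hc⟩ := c1_X_mul_P i
      rw [hc, c1_ip_add_C, h2 _ (by omega), h2 _ (by omega), h1 _ h]
      ring
    · subst h
      obtain ⟨c, hc⟩ := c1_X_mul_P i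
      rw [hc, c1_ip_add_C, h2 (i - 1) (by omega), c1_b_eq]
      ring
    · have : i = n + 1 := by omega
      subst this
      rw [c1_P_X_self, c1_ip_comm (c1_P n), h2 n (by omega)]
      ring
theorem exists_op : ∃ (c1_P : ℕ → ℝ[X]) (c1_b : ℕ → ℝ), c1_P 0 = 1 ∧ c1_P 1 = X ∧
    (∀ n, 1 ≤ n → c1_P (n + 1) = X * c1_P n - C (c1_b n) * c1_P (n - 1)) ∧
    (∀ n, 1 ≤ n → 0 < c1_b n ∧ ip (c1_P n) (c1_P n) = c1_b n * ip (c1_P (n - 1)) (c1_P (n - 1))) ∧
    (∀ n, (c1_P n).Monic ∧ (c1_P n).natDegree = n) ∧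
    (∀ m n, m ≠ n → ip (c1_P m) (c1_P n) = 0) ∧ ∀ n, 0 < ip (c1_P n) (c1_P n) := by
  refine ⟨c1_P, c1_b, c1_P_zero, c1_P_one, ?_, ?_, fun n => (c1_P_monic n).1, ?_, c1_P_pos⟩
  · intro n hn
    obtain ⟨m, rfl⟩ : ∃ m, n = m + 1 := ⟨n - 1, by omega⟩
    exact c1_P_succ m
  · intro n hn
    obtain ⟨m, rfl⟩ : ∃ m, n = m + 1 := ⟨n - 1, by omega⟩
    exact ⟨div_pos (c1_P_pos _) (c1_P_pos _), c1_b_eq m⟩
  · intro m n hmn
    rcases lt_or_gt_of_ne hmn with h | h
    · rw [c1_ip_comm]; exact (c1_P_orth n).1 m h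
    · exact (c1_P_orth m).1 n h

end Pool.Agent.Helper615.LogA
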