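import Mathlib
import Pool.Agent.Helper615.LogA.Defs
set_option autoImplicit false

namespace Pool.Agent.Helper615.LogA

open Polynomial MeasureTheory
theorem c2_rpow_three_abs (x : ℝ) : |x| ^ (3 : ℝ) = |x| ^ 3 := by
  rw [show (3 : ℝ) = ((3 : ℕ) : ℝ) by norm_num, Real.rpow_natCast]
theorem c2_w_cont : Continuous w := by
  have : w = fun x => Real.exp (-(|x| ^ 3)) := by
    funext x
    rw [w, c2_rpow_three_abs]
  rw [this]
  fun_prop
theorem c2_pow_w_bound (k : ℕ) (x : ℝ) :
    ‖x ^ k * w x‖ ≤ (2 * ((k + 2).factorial : ℝ)) * (1 + x ^ 2)⁻¹ := by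
  have hw : 0 < w x := Real.exp_pos _
  rw [norm_mul, norm_pow, Real.norm_eq_abs, Real.norm_eq_abs, abs_of_pos hw]
  have h1 : 0 < 1 + x ^ 2 := by positivity
  rw [le_mul_inv_iff₀ h1, w, c2_rpow_three_abs, Real.exp_neg]
  have he : 0 < Real.exp (|x| ^ 3) := Real.exp_pos _
  rw [mul_right_comm, mul_inv_le_iff₀ he]
  have hf : (1 : ℝ) ≤ ((k + 2).factorial : ℝ) := by exact_mod_cast Nat.factorial_pos _
  have hx2 : x ^ 2 = |x| ^ 2 := (sq_abs x).symm
  rw [hx2]
  have hx0 : 0 ≤ |x| := abs_nonneg x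
  rcases le_total (|x|) 1 with hx | hx
  · have e1 : |x| ^ k ≤ 1 := pow_le_one₀ hx0 hx
    have e2 : |x| ^ 2 ≤ 1 := pow_le_one₀ hx0 hx
    have e3 : 1 ≤ Real.exp (|x| ^ 3) := Real.one_le_exp (by positivity)
    calc |x| ^ k * (1 + |x| ^ 2) ≤ 1 * (1 + 1) := by
          apply mul_le_mul e1 (by linarith) (by positivity) (by norm_num)
      _ ≤ 2 * ((k + 2).factorial : ℝ) * 1 := by linarith
      _ ≤ 2 * ((k + 2).factorial : ℝ) * Real.exp (|x| ^ 3) := by
          apply mul_le_mul_of_nonneg_left e3 (by positivity)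
  · have e0 := Real.pow_div_factorial_le_exp (|x| ^ 3) (by positivity) (k + 2)
    have hfp : (0 : ℝ) < ((k + 2).factorial : ℝ) := by linarith
    rw [div_le_iff₀ hfp] at e0
    have e1 : |x| ^ k * (1 + |x| ^ 2) ≤ 2 * |x| ^ (k + 2) := by
      have : 1 ≤ |x| ^ 2 := one_le_pow₀ hx
      have h4 : 0 ≤ |x| ^ k := by positivity
      rw [pow_add]
      nlinarith
    have e2 : |x| ^ (k + 2) ≤ (|x| ^ 3) ^ (k + 2) := by
      rw [← pow_mul]
      exact pow_le_pow_right₀ hx (by omega)
    linarith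
theorem c2_pow_w_int (k : ℕ) : Integrable (fun x : ℝ => x ^ k * w x) := by
  have h1 : Integrable (fun x : ℝ => (2 * ((k + 2).factorial : ℝ)) * (1 + x ^ 2)⁻¹) :=
    integrable_inv_one_add_sq.const_mul _
  refine h1.mono' ?_ (Filter.Eventually.of_forall (c2_pow_w_bound k))
  exact ((continuous_pow k).mul c2_w_cont).aestronglyMeasurable
theorem c2_ip_expand (μ : ℕ → ℝ)
    (hμ : ∀ k : ℕ, μ k = ∫ x : ℝ, x ^ k * Real.exp (-(|x| ^ (3 : ℝ))))
    (p q : ℝ[X]) (m : ℕ) (hp : p.natDegree < m) (hq : q.natDegree < m) :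
    ip p q = ∑ k : Fin m, ∑ l : Fin m, p.coeff k * q.coeff l * μ (k.val + l.val) := by
  have h1 : ∀ x : ℝ, p.eval x * q.eval x * w x =
      ∑ k : Fin m, ∑ l : Fin m, (p.coeff k * q.coeff l) * (x ^ (k.val + l.val) * w x) := by
    intro x
    rw [Polynomial.eval_eq_sum_range' hp, Polynomial.eval_eq_sum_range' hq,
      ← Fin.sum_univ_eq_sum_range (fun i => p.coeff i * x ^ i),
      ← Fin.sum_univ_eq_sum_range (fun i => q.coeff i * x ^ i), Finset.sum_mul_sum,
      Finset.sum_mul]
    apply Finset.sum_congr rfl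
    intro k _
    rw [Finset.sum_mul]
    apply Finset.sum_congr rfl
    intro l _
    rw [pow_add]
    ring
  unfold ip
  simp_rw [h1]
  rw [integral_finset_sum]
  · apply Finset.sum_congr rfl
    intro k _
    rw [integral_finset_sum]
    · apply Finset.sum_congr rfl
      intro l _
      rw [integral_const_mul, hμ]
      rfl
    · intro l _
      exact (c2_pow_w_int _).const_mul _
  · intro k _
    apply integrable_finset_sum
    intro l _
    exact (c2_pow_w_int _).const_mul _
theorem hankel_prod (μ D : ℕ → ℝ)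
    (hμ : ∀ k : ℕ, μ k = ∫ x : ℝ, x ^ k * Real.exp (-(|x| ^ (3 : ℝ))))
    (hD : ∀ m : ℕ, D m = (Matrix.of fun i j : Fin m => μ (i.val + j.val)).det)
    (P : ℕ → ℝ[X]) (hP : ∀ n, (P n).Monic ∧ (P n).natDegree = n)
    (ho : ∀ m n, m ≠ n → ip (P m) (P n) = 0) (m : ℕ) :
    D m = ∏ k ∈ Finset.range m, ip (P k) (P k) := by
  set H : Matrix (Fin m) (Fin m) ℝ := Matrix.of fun i j : Fin m => μ (i.val + j.val) with hH
  set A : Matrix (Fin m) (Fin m) ℝ := Matrix.of fun i j : Fin m => (P i.val).coeff j.val with hA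
  have hdeg : ∀ i : Fin m, (P i.val).natDegree < m := fun i => by rw [(hP i.val).2]; exact i.2
  have hprod : A * H * A.transpose = Matrix.diagonal (fun i : Fin m => ip (P i.val) (P i.val)) := by
    ext i j
    have h1 : (A * H * A.transpose) i j = ip (P i.val) (P j.val) := by
      rw [c2_ip_expand μ hμ _ _ m (hdeg i) (hdeg j), Matrix.mul_apply]
      simp only [Matrix.mul_apply, Matrix.transpose_apply, hA, hH, Matrix.of_apply]
      simp_rw [Finset.sum_mul]
      rw [Finset.sum_comm]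
      apply Finset.sum_congr rfl
      intro k _
      apply Finset.sum_congr rfl
      intro l _
      ring
    rw [h1]
    by_cases hij : i = j
    · subst hij
      rw [Matrix.diagonal_apply_eq]
    · rw [Matrix.diagonal_apply_ne _ hij]
      exact ho _ _ (fun h => hij (Fin.ext h))
  have hdetA : A.det = 1 := by
    rw [Matrix.det_of_lowerTriangular A]
    · apply Finset.prod_eq_one
      intro i _
      rw [hA, Matrix.of_apply]
      have := (hP i.val).1
      rw [Polynomial.Monic, Polynomial.leadingCoeff, (hP i.val).2] at this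
      exact this
    · intro i j hij
      rw [hA, Matrix.of_apply]
      apply Polynomial.coeff_eq_zero_of_natDegree_lt
      rw [(hP i.val).2]
      exact hij
  have h2 := congrArg Matrix.det hprod
  rw [Matrix.det_mul, Matrix.det_mul, Matrix.det_transpose, hdetA, Matrix.det_diagonal, one_mul,
    mul_one] at h2
  rw [hD, ← hH, h2]
  exact Fin.prod_univ_eq_prod_range (fun k => ip (P k) (P k)) m

end Pool.Agent.Helper615.LogA
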