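import Mathlib
import Pool.Agent.Helper615.LogA.Defs
set_option autoImplicit false

namespace Pool.Agent.Helper615.LogA

open Polynomial MeasureTheory
lemma c3_w_pos (x : ℝ) : 0 < w x := Real.exp_pos _
lemma c3_w_cont : Continuous w := by
  unfold w
  refine Real.continuous_exp.comp (Continuous.neg ?_)
  exact continuous_abs.rpow_const (fun x => Or.inr (by norm_num))
lemma c3_w_le (x : ℝ) : w x ≤ Real.exp 1 * Real.exp (-1 * x ^ 2) := by
  unfold w
  rw [← Real.exp_add]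
  apply Real.exp_le_exp.2
  have e : |x| ^ (3 : ℝ) = |x| ^ 3 := by exact_mod_cast Real.rpow_natCast |x| 3
  rw [e, ← sq_abs x]
  have h := abs_nonneg x
  rcases le_total |x| 1 with h1 | h1
  · nlinarith [pow_nonneg h 3]
  · nlinarith [sq_nonneg |x|, mul_nonneg (sub_nonneg.2 h1) (sq_nonneg |x|)]
lemma c3_gauss_int (p : ℝ[X]) : Integrable (fun x : ℝ => p.eval x * Real.exp (-1 * x ^ 2)) := by
  induction p using Polynomial.induction_on' with
  | add p q hp hq =>
    have := hp.add hq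
    refine this.congr (Filter.Eventually.of_forall fun x => ?_)
    simp only [Pi.add_apply, eval_add]; ring
  | monomial n a =>
    have h := (integrable_rpow_mul_exp_neg_mul_sq (b := 1) one_pos (s := n)
      (by have : (0:ℝ) ≤ n := Nat.cast_nonneg n; linarith)).const_mul a
    refine h.congr (Filter.Eventually.of_forall fun x => ?_)
    simp only [eval_monomial, Real.rpow_natCast]; ring
lemma c3_pw_int (p : ℝ[X]) : Integrable (fun x : ℝ => p.eval x * w x) := by
  refine ((c3_gauss_int p).const_mul (Real.exp 1)).mono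
    (p.continuous.mul c3_w_cont).aestronglyMeasurable (Filter.Eventually.of_forall fun x => ?_)
  simp only [Real.norm_eq_abs, abs_mul, Real.abs_exp]
  rw [abs_of_pos (c3_w_pos x)]
  calc |p.eval x| * w x ≤ |p.eval x| * (Real.exp 1 * Real.exp (-1 * x ^ 2)) :=
        mul_le_mul_of_nonneg_left (c3_w_le x) (abs_nonneg _)
    _ = _ := by ring
lemma c3_pwk_int (t : ℝ) (ht : 0 < t) (p : ℝ[X]) :
    Integrable (fun x : ℝ => p.eval x * w x / (x ^ 2 + t ^ 2)) := by
  have hpos : ∀ x : ℝ, 0 < x ^ 2 + t ^ 2 := fun x => by positivity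
  refine ((c3_pw_int p).const_mul (1 / t ^ 2)).mono ?_ (Filter.Eventually.of_forall fun x => ?_)
  · refine Continuous.aestronglyMeasurable ?_
    exact (p.continuous.mul c3_w_cont).div (by fun_prop) (fun x => (hpos x).ne')
  · simp only [norm_mul, norm_div, Real.norm_eq_abs]
    rw [abs_of_pos (hpos x), abs_of_pos (show (0:ℝ) < t ^ 2 by positivity), abs_one]
    rw [div_eq_mul_inv, mul_comm, ← one_div]
    refine mul_le_mul_of_nonneg_right ?_ (by positivity)
    exact one_div_le_one_div_of_le (by positivity) (by nlinarith [sq_nonneg x])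
noncomputable def c3_I0 (p : ℝ[X]) : ℝ := ∫ x : ℝ, p.eval x * w x
noncomputable def c3_K (t : ℝ) (p : ℝ[X]) : ℝ := ∫ x : ℝ, p.eval x * w x / (x ^ 2 + t ^ 2)
lemma c3_I0_add (p q : ℝ[X]) : c3_I0 (p + q) = c3_I0 p + c3_I0 q := by
  unfold c3_I0
  rw [← integral_add (c3_pw_int p) (c3_pw_int q)]
  congr 1; funext x; simp only [eval_add]; ring
lemma c3_I0_C (a : ℝ) (p : ℝ[X]) : c3_I0 (C a * p) = a * c3_I0 p := by
  unfold c3_I0
  rw [← integral_const_mul]
  congr 1; funext x; simp only [eval_mul, eval_C]; ring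
lemma c3_K_add (t : ℝ) (ht : 0 < t) (p q : ℝ[X]) : c3_K t (p + q) = c3_K t p + c3_K t q := by
  unfold c3_K
  rw [← integral_add (c3_pwk_int t ht p) (c3_pwk_int t ht q)]
  congr 1; funext x; simp only [eval_add]; ring
lemma c3_K_C (t a : ℝ) (p : ℝ[X]) : c3_K t (C a * p) = a * c3_K t p := by
  unfold c3_K
  rw [← integral_const_mul]
  congr 1; funext x; simp only [eval_mul, eval_C]; ring
lemma c3_K_mul (t : ℝ) (ht : 0 < t) (p : ℝ[X]) : c3_K t ((X ^ 2 + C (t ^ 2)) * p) = c3_I0 p := by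
  unfold c3_K c3_I0
  congr 1; funext x
  have hpos : 0 < x ^ 2 + t ^ 2 := by positivity
  simp only [eval_mul, eval_add, eval_pow, eval_X, eval_C]
  field_simp
lemma c3_orth (P : ℕ → ℝ[X]) (hP : ∀ n, (P n).Monic ∧ (P n).natDegree = n)
    (ho : ∀ m n, m ≠ n → ip (P m) (P n) = 0) (n m : ℕ) (hm : m ≤ n) :
    ∀ S : ℝ[X], S.degree < m → c3_I0 (S * P n) = 0 := by
  induction m with
  | zero =>
    intro S hS
    have : S = 0 := by
      rw [← Polynomial.degree_eq_bot]
      exact Nat.WithBot.lt_zero_iff.1 (by simpa using hS)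
    subst this
    simp [c3_I0]
  | succ m ih =>
    intro S hS
    have hdeg : (S - C (S.coeff m) * P m).degree < m := by
      rw [Polynomial.degree_lt_iff_coeff_zero]
      intro k hk
      rw [coeff_sub, coeff_C_mul]
      rcases hk.eq_or_lt with rfl | hk
      · have : (P m).coeff m = 1 := by
          have := (hP m).1
          rw [Monic, leadingCoeff, (hP m).2] at this
          exact this
        rw [this]; ring
      · have h1 : S.coeff k = 0 := (Polynomial.degree_lt_iff_coeff_zero S (m + 1)).1 (by exact_mod_cast hS) k hk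
        have h2 : (P m).coeff k = 0 := Polynomial.coeff_eq_zero_of_natDegree_lt (by rw [(hP m).2]; exact hk)
        rw [h1, h2]; ring
    have h1 := ih (by omega) _ hdeg
    have h2 : S * P n = (S - C (S.coeff m) * P m) * P n + C (S.coeff m) * (P m * P n) := by ring
    rw [h2, c3_I0_add, c3_I0_C, h1]
    have h3 : c3_I0 (P m * P n) = 0 := by
      have := ho m n (by omega)
      unfold ip at this
      unfold c3_I0
      simp only [eval_mul]
      exact this
    rw [h3]; ring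
noncomputable def c3_ps (b : ℕ → ℝ) (t : ℝ) : ℕ → ℝ
  | 0 => 1
  | 1 => t
  | n + 2 => t * c3_ps b t (n + 1) + b (n + 1) * c3_ps b t n
noncomputable def c3_Qs (b : ℕ → ℝ) (q0 q1 t : ℝ) : ℕ → ℝ
  | 0 => q0
  | 1 => q1
  | n + 2 => b (n + 1) * c3_Qs b q0 q1 t n - t * c3_Qs b q0 q1 t (n + 1)
lemma c3_ps_pos (b : ℕ → ℝ) (t : ℝ) (ht : 0 < t) (hb : ∀ n, 1 ≤ n → 0 < b n) :
    ∀ n, 0 < c3_ps b t n ∧ 0 < c3_ps b t (n + 1) := by
  intro n
  induction n with
  | zero => exact ⟨by simp [c3_ps], by simpa [c3_ps] using ht⟩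
  | succ n ih =>
    refine ⟨ih.2, ?_⟩
    rw [c3_ps]
    have h1 := hb (n + 1) (by omega)
    have h2 := mul_pos ht ih.2
    have h3 := mul_pos h1 ih.1
    linarith
lemma c3_main (P : ℕ → ℝ[X]) (b : ℕ → ℝ) (h0 : P 0 = 1) (h1 : P 1 = X)
    (hr : ∀ n, 1 ≤ n → P (n + 1) = X * P n - C (b n) * P (n - 1))
    (hP : ∀ n, (P n).Monic ∧ (P n).natDegree = n)
    (ho : ∀ m n, m ≠ n → ip (P m) (P n) = 0) (t : ℝ) (ht : 0 < t) (q0 q1 : ℝ)
    (hq0 : q0 = t * c3_K t 1) (hq1 : q1 = c3_I0 1 - t * q0) (k : ℕ) :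
    (∃ S : ℝ[X], S.degree < (2 * k : ℕ) ∧
      P (2 * k) = C ((-1) ^ k * c3_ps b t (2 * k)) + (X ^ 2 + C (t ^ 2)) * S) ∧
    (∃ S : ℝ[X], S.degree < (2 * k + 1 : ℕ) ∧
      P (2 * k + 1) = C ((-1) ^ k * c3_ps b t (2 * k + 1) / t) * X + (X ^ 2 + C (t ^ 2)) * S) ∧
    t * c3_K t (P (2 * k)) = (-1) ^ k * c3_Qs b q0 q1 t (2 * k) ∧
    c3_K t (X * P (2 * k + 1)) = (-1) ^ k * c3_Qs b q0 q1 t (2 * k + 1) := by
  have hI : ∀ n, 1 ≤ n → c3_I0 (P n) = 0 := by
    intro n hn
    have h := ho 0 n (by omega)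
    unfold ip at h
    unfold c3_I0
    simpa [h0] using h
  have hXX : ∀ p : ℝ[X], c3_K t (X * (X * p)) = c3_I0 p - t ^ 2 * c3_K t p := by
    intro p
    have e : (X ^ 2 + C (t ^ 2)) * p = X * (X * p) + C (t ^ 2) * p := by ring
    have h := c3_K_mul t ht p
    rw [e, c3_K_add t ht, c3_K_C] at h
    linarith
  induction k with
  | zero =>
    refine ⟨⟨0, by simp, by simp [h0, c3_ps]⟩, ⟨0, ?_, ?_⟩, ?_, ?_⟩
    · rw [degree_zero]; exact WithBot.bot_lt_coe _
    · simp [h1, c3_ps, ht.ne']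
    · simp [h0, c3_Qs, hq0]
    · have := hXX 1
      rw [mul_one] at this
      simp only [Nat.mul_zero, Nat.zero_add, h1, pow_zero, one_mul, c3_Qs]
      rw [this, hq1, hq0]; ring
  | succ k ih =>
    obtain ⟨⟨S, hS, hPS⟩, ⟨S', hS', hPS'⟩, hA, hB⟩ := ih
    have hr1 : P (2 * k + 2) = X * P (2 * k + 1) - C (b (2 * k + 1)) * P (2 * k) := by
      have := hr (2 * k + 1) (by omega)
      simpa using this
    have hr2 : P (2 * k + 3) = X * P (2 * k + 2) - C (b (2 * k + 2)) * P (2 * k + 1) := by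
      have := hr (2 * k + 2) (by omega)
      simpa using this
    have e1 : 2 * (k + 1) = 2 * k + 2 := by ring
    have e2 : 2 * k + 2 + 1 = 2 * k + 3 := by ring
    rw [e1, e2]
    have hps2 : c3_ps b t (2 * k + 2) = t * c3_ps b t (2 * k + 1) + b (2 * k + 1) * c3_ps b t (2 * k) := by
      rw [c3_ps]
    have hps3 : c3_ps b t (2 * k + 3) = t * c3_ps b t (2 * k + 2) + b (2 * k + 2) * c3_ps b t (2 * k + 1) := by
      rw [c3_ps]
    have hQ2 : c3_Qs b q0 q1 t (2 * k + 2) =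
        b (2 * k + 1) * c3_Qs b q0 q1 t (2 * k) - t * c3_Qs b q0 q1 t (2 * k + 1) := by
      rw [c3_Qs]
    have hQ3 : c3_Qs b q0 q1 t (2 * k + 3) =
        b (2 * k + 2) * c3_Qs b q0 q1 t (2 * k + 1) - t * c3_Qs b q0 q1 t (2 * k + 2) := by
      rw [c3_Qs]
    set c := (-1 : ℝ) ^ k * c3_ps b t (2 * k) with hc
    set c' := (-1 : ℝ) ^ k * c3_ps b t (2 * k + 1) / t with hc'
    have hd : (-1 : ℝ) ^ (k + 1) * c3_ps b t (2 * k + 2) = -c' * t ^ 2 - b (2 * k + 1) * c := by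
      rw [hps2, hc, hc', pow_succ]
      field_simp
      ring
    have hd' : (-1 : ℝ) ^ (k + 1) * c3_ps b t (2 * k + 3) / t =
        (-1 : ℝ) ^ (k + 1) * c3_ps b t (2 * k + 2) - b (2 * k + 2) * c' := by
      rw [hps3, hc', pow_succ]
      field_simp
      ring
    set T := C c' + X * S' - C (b (2 * k + 1)) * S with hT
    have hTdeg : T.degree < (2 * k + 2 : ℕ) := by
      rw [Polynomial.degree_lt_iff_coeff_zero] at hS hS' ⊢
      intro m hm
      obtain ⟨m', rfl⟩ : ∃ m', m = m' + 1 := ⟨m - 1, by omega⟩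
      rw [hT, coeff_sub, coeff_add, coeff_X_mul, coeff_C_mul, coeff_C_succ, hS' m' (by omega),
        hS (m' + 1) (by omega)]
      ring
    have hP2 : P (2 * k + 2) = C ((-1) ^ (k + 1) * c3_ps b t (2 * k + 2)) + (X ^ 2 + C (t ^ 2)) * T := by
      rw [hr1, hPS, hPS', hd, hT]
      simp only [map_sub, map_mul, map_neg, map_pow]
      ring
    have hT'deg : (X * T - C (b (2 * k + 2)) * S').degree < ((2 * k + 3 : ℕ) : WithBot ℕ) := by
      rw [Polynomial.degree_lt_iff_coeff_zero] at hTdeg hS' ⊢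
      intro m hm
      obtain ⟨m', rfl⟩ : ∃ m', m = m' + 1 := ⟨m - 1, by omega⟩
      rw [coeff_sub, coeff_X_mul, coeff_C_mul, hTdeg m' (by omega), hS' (m' + 1) (by omega)]
      ring
    have hP3 : P (2 * k + 3) = C ((-1) ^ (k + 1) * c3_ps b t (2 * k + 3) / t) * X +
        (X ^ 2 + C (t ^ 2)) * (X * T - C (b (2 * k + 2)) * S') := by
      rw [hr2, hP2, hPS', hd']
      simp only [map_sub, map_mul, map_neg, map_pow]
      ring
    have hKsub : ∀ (a : ℝ) (p q : ℝ[X]), c3_K t (p - C a * q) = c3_K t p - a * c3_K t q := by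
      intro a p q
      have : p - C a * q = p + C (-a) * q := by rw [map_neg]; ring
      rw [this, c3_K_add t ht, c3_K_C]; ring
    have hA2 : t * c3_K t (P (2 * k + 2)) = (-1) ^ (k + 1) * c3_Qs b q0 q1 t (2 * k + 2) := by
      rw [hr1, hKsub, hB, hQ2]
      have : t * ((-1) ^ k * c3_Qs b q0 q1 t (2 * k + 1) - b (2 * k + 1) * c3_K t (P (2 * k))) =
        t * (-1) ^ k * c3_Qs b q0 q1 t (2 * k + 1) - b (2 * k + 1) * (t * c3_K t (P (2 * k))) := by ring
      rw [this, hA, pow_succ]; ring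
    refine ⟨⟨T, hTdeg, hP2⟩, ⟨_, hT'deg, hP3⟩, hA2, ?_⟩
    have e3 : X * P (2 * k + 3) = X * (X * P (2 * k + 2)) - C (b (2 * k + 2)) * (X * P (2 * k + 1)) := by
      rw [hr2]; ring
    rw [e3, hKsub, hXX, hI (2 * k + 2) (by omega), hB, hQ3]
    have : 0 - t ^ 2 * c3_K t (P (2 * k + 2)) = -t * (t * c3_K t (P (2 * k + 2))) := by ring
    rw [this, hA2, pow_succ]; ring
lemma c3_K_sq_pos (t : ℝ) (ht : 0 < t) (p : ℝ[X]) (hp : p ≠ 0) : 0 < c3_K t (p * p) := by
  have hpos : ∀ x : ℝ, 0 < x ^ 2 + t ^ 2 := fun x => by positivity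
  obtain ⟨x, hx⟩ : ∃ x, p.eval x ≠ 0 := by
    by_contra h
    push Not at h
    apply hp
    exact Polynomial.funext (fun r => by rw [h r]; simp)
  unfold c3_K
  refine integral_pos_of_integrable_nonneg_nonzero (x := x) ?_ (c3_pwk_int t ht _) ?_ ?_
  · exact (((p * p).continuous).mul c3_w_cont).div (by fun_prop) (fun x => (hpos x).ne')
  · intro y
    simp only [eval_mul, Pi.zero_apply]
    have := c3_w_pos y
    have := hpos y
    have := mul_self_nonneg (p.eval y)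
    positivity
  · have := c3_w_pos x
    have := hpos x
    simp only [eval_mul]
    positivity
theorem exists_second_kind (P : ℕ → ℝ[X]) (b : ℕ → ℝ) (h0 : P 0 = 1) (h1 : P 1 = X)
    (hr : ∀ n, 1 ≤ n → P (n + 1) = X * P n - C (b n) * P (n - 1))
    (hb : ∀ n, 1 ≤ n → 0 < b n)
    (hP : ∀ n, (P n).Monic ∧ (P n).natDegree = n)
    (ho : ∀ m n, m ≠ n → ip (P m) (P n) = 0) :
    ∃ Q : ℕ → ℝ → ℝ, ∀ t : ℝ, 0 < t →
      (∀ n, 0 < Q n t) ∧
      Q 0 t = (∫ x : ℝ, Real.exp (-(|x| ^ (3 : ℝ))) * t / (x ^ 2 + t ^ 2)) ∧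
      Q 1 t = (∫ x : ℝ, Real.exp (-(|x| ^ (3 : ℝ)))) - t * Q 0 t ∧
      ∀ n, 1 ≤ n → Q (n + 1) t = b n * Q (n - 1) t - t * Q n t := by
  refine ⟨fun n t => c3_Qs b (t * c3_K t 1) (c3_I0 1 - t * (t * c3_K t 1)) t n, fun t ht => ⟨?_, ?_, ?_, ?_⟩⟩
  · intro n
    have hne : P n ≠ 0 := (hP n).1.ne_zero
    have hKpos := c3_K_sq_pos t ht (P n) hne
    have hpp := (c3_ps_pos b t ht hb n).1
    rcases Nat.even_or_odd' n with ⟨k, hk | hk⟩
    · obtain ⟨⟨S, hS, hPS⟩, -, hA, -⟩ := c3_main P b h0 h1 hr hP ho t ht _ _ rfl rfl k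
      rw [← hk] at hS hPS hA
      have e : P n * P n = C ((-1) ^ k * c3_ps b t n) * P n + (X ^ 2 + C (t ^ 2)) * (S * P n) := by
        conv_lhs => rw [hPS]
        conv_rhs => rw [hPS]
        ring
      rw [e, c3_K_add t ht, c3_K_C, c3_K_mul t ht, c3_orth P hP ho n n le_rfl S hS] at hKpos
      have h2 : 0 < t * ((-1) ^ k * c3_ps b t n * c3_K t (P n) + 0) := mul_pos ht hKpos
      have h3 : t * ((-1) ^ k * c3_ps b t n * c3_K t (P n) + 0) =
          (-1) ^ k * c3_ps b t n * (t * c3_K t (P n)) := by ring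
      rw [h3, hA] at h2
      have h4 : ((-1 : ℝ) ^ k * c3_ps b t n * ((-1) ^ k * c3_Qs b (t * c3_K t 1) (c3_I0 1 - t * (t * c3_K t 1)) t n)) =
        c3_ps b t n * c3_Qs b (t * c3_K t 1) (c3_I0 1 - t * (t * c3_K t 1)) t n := by
        have h5 : (-1 : ℝ) ^ k * (-1) ^ k = 1 := by rw [← mul_pow]; simp
        linear_combination (c3_ps b t n * c3_Qs b (t * c3_K t 1) (c3_I0 1 - t * (t * c3_K t 1)) t n) * h5
      rw [h4] at h2
      exact (mul_pos_iff_of_pos_left hpp).1 h2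
    · obtain ⟨-, ⟨S, hS, hPS⟩, -, hB⟩ := c3_main P b h0 h1 hr hP ho t ht _ _ rfl rfl k
      rw [← hk] at hS hPS hB
      have e : P n * P n = C ((-1) ^ k * c3_ps b t n / t) * (X * P n) + (X ^ 2 + C (t ^ 2)) * (S * P n) := by
        conv_lhs => rw [hPS]
        conv_rhs => rw [hPS]
        ring
      rw [e, c3_K_add t ht, c3_K_C, c3_K_mul t ht, c3_orth P hP ho n n le_rfl S hS, hB] at hKpos
      have h2 := mul_pos ht hKpos
      have h4 : ∀ q : ℝ, t * ((-1 : ℝ) ^ k * c3_ps b t n / t * ((-1) ^ k * q) + 0) =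
        c3_ps b t n * q := by
        intro q
        have h5 : (-1 : ℝ) ^ k * (-1) ^ k = 1 := by rw [← mul_pow]; simp
        have h6 : t * ((-1 : ℝ) ^ k * c3_ps b t n / t * ((-1) ^ k * q) + 0) =
          ((-1 : ℝ) ^ k * (-1) ^ k) * (c3_ps b t n * q) := by
          field_simp
          ring
        rw [h6, h5, one_mul]
      rw [h4] at h2
      exact (mul_pos_iff_of_pos_left hpp).1 h2
  · simp only [c3_Qs, c3_K]
    rw [← integral_const_mul]
    congr 1; funext x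
    simp only [eval_one, w]; ring
  · simp only [c3_Qs, c3_I0]
    congr 1
    congr 1; funext x
    simp only [eval_one, w]; ring
  · intro n hn
    obtain ⟨m, rfl⟩ : ∃ m, n = m + 1 := ⟨n - 1, by omega⟩
    rfl

end Pool.Agent.Helper615.LogA
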