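import Mathlib
import Pool.Agent.Helper615.LogA.Defs
import Pool.Agent.Helper615.LogA.P1
import Pool.Agent.Helper615.LogA.P2
set_option autoImplicit false

namespace Pool.Agent.Helper615.LogA

open Filter Asymptotics
theorem e1_pw_mem (e : ℝ) : pw e ∈ PW e := Submodule.subset_span ⟨e, le_rfl, rfl⟩
theorem e1_pw_mul (a b : ℝ) (n : ℕ) : pw a n * pw b n = pw (a + b) n := by
  unfold pw
  rw [← Real.exp_add]
  congr 1
  ring
theorem e1_pw_le_one {e : ℝ} (he : 0 ≤ e) (n : ℕ) : |pw e n| ≤ 1 := by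
  unfold pw
  rw [abs_of_pos (Real.exp_pos _), Real.exp_le_one_iff]
  have : 0 ≤ Real.log n := Real.log_natCast_nonneg n
  have := mul_nonneg he this
  linarith
theorem e1_mm {a b c : ℝ} {u v : ℕ → ℝ} (hu : u ∈ PW a) (hv : v ∈ PW b) (h : c ≤ a + b) : u * v ∈ PW c :=
  PW.mono h (PW.mul hu hv)
theorem e1_bd {q : ℝ} (hq : 0 ≤ q) {u : ℕ → ℝ} (hu : u ∈ PW q) : u =O[atTop] (fun _ => (1 : ℝ)) := by
  refine (PW.isBigO hu).trans ?_
  apply IsBigO.of_bound 1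
  filter_upwards with n
  rw [Real.norm_eq_abs, norm_one, mul_one]
  exact e1_pw_le_one hq n
theorem e1_bdS {u : ℕ → ℝ} (hu : u =O[atTop] (fun _ => (1 : ℝ))) : (fun n => u (n + 1)) =O[atTop] (fun _ => (1 : ℝ)) :=
  hu.comp_tendsto (tendsto_add_atTop_nat 1)
theorem e1_bm {b e : ℕ → ℝ} (hb : b =O[atTop] (fun _ => (1 : ℝ))) (he : e =O[atTop] pw 12) :
    (fun n => b n * e n) =O[atTop] pw 12 := by
  have := hb.mul he
  simpa using this
theorem e1_bb {b e : ℕ → ℝ} (hb : b =O[atTop] (fun _ => (1 : ℝ))) (he : e =O[atTop] (fun _ => (1 : ℝ))) :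
    (fun n => b n * e n) =O[atTop] (fun _ => (1 : ℝ)) := by
  have := hb.mul he
  simpa using this
theorem ansatz (f₀ δ : ℝ) (hδ : 0 < δ) (hδ' : δ ≤ 1 / 4) (f : ℕ → ℝ)
    (hf : (f - f₀ • pw (1/3)) ∈ PW (1/3 + δ)) : ∃ x : ℕ → ℕ → ℝ,
    (∀ n, x 0 n = 1) ∧ (∀ p : ℕ, 1 ≤ p → x p ∈ PW (p / 3)) ∧
    (x 1 - (f₀ / 2) • pw (1/3)) ∈ PW (1/3 + δ) ∧
    (x 2 - (1 / 2 : ℝ) • (x 1 * x 1)) ∈ PW (5/3) ∧
    (x 3 - x 1 * x 2 + (1 / 3 : ℝ) • (x 1 * x 1 * x 1) + (f₀ ^ 3 / 48) • pw 1) ∈ PW (1 + δ) ∧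
    ∀ p : ℕ, 1 ≤ p → p ≤ 6 →
      (fun n => ∑ i ∈ Finset.range (p + 1), x i n * x (p - i) (n + 1) - f (n + 1) * x (p - 1) (n + 1))
        =O[atTop] pw 12 := by
  
  have hfm : f ∈ PW (1/3) := by
    have h1 : f = (f - f₀ • pw (1/3)) + f₀ • pw (1/3) := by abel
    rw [h1]
    exact (PW (1/3)).add_mem (PW.mono (by linarith) hf) ((PW (1/3)).smul_mem _ (e1_pw_mem _))
  obtain ⟨f₁, hf1, hf1d, hf1s⟩ := PW.shift hfm
  obtain ⟨x1, hx1, hx1d, hx1s⟩ := halfinv hf1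
  have hx1δ : (x1 - (f₀ / 2) • pw (1/3)) ∈ PW (1/3 + δ) := by
    have h1 : x1 - (f₀ / 2) • pw (1/3) = (x1 - (1 / 2 : ℝ) • f₁) + (1 / 2 : ℝ) • (f₁ - f) + (1 / 2 : ℝ) • (f - f₀ • pw (1/3)) := by
      funext n; simp; ring
    rw [h1]
    exact (PW _).add_mem ((PW _).add_mem (PW.mono (by linarith) hx1d) ((PW _).smul_mem _ (PW.mono (by linarith) hf1d)))
      ((PW _).smul_mem _ hf)
  obtain ⟨v1, hv1, hv1d, hv1s⟩ := PW.shift hx1
  
  have hu2 : (1 / 2 : ℝ) • (v1 * v1 - x1 * x1) ∈ PW (5/3) := by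
    have h1 : v1 * v1 - x1 * x1 = (v1 - x1) * (v1 + x1) := by ring
    rw [h1]
    exact (PW _).smul_mem _ (e1_mm hv1d ((PW _).add_mem hv1 hx1) (by norm_num))
  obtain ⟨Y2, hY2, hY2d, hY2s⟩ := halfinv hu2
  obtain ⟨x2, hx2def⟩ : ∃ x2, x2 = (1 / 2 : ℝ) • (x1 * x1) + Y2 := ⟨_, rfl⟩
  have hx2 : x2 ∈ PW (2/3) := by
    rw [hx2def]
    exact (PW _).add_mem ((PW _).smul_mem _ (e1_mm hx1 hx1 (by norm_num))) (PW.mono (by norm_num) hY2)
  obtain ⟨v2, hv2, hv2d, hv2s⟩ := PW.shift hx2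
  
  obtain ⟨u3, hu3def⟩ : ∃ u3, u3 = (1 / 3 : ℝ) • (v1 * v1 * v1) - (1 / 2 : ℝ) • (x1 * x1 * v1) - (1 / 6 : ℝ) • (x1 * x1 * x1)
      - (x1 + v1) * Y2 := ⟨_, rfl⟩
  have hu3δ : u3 + (f₀ ^ 3 / 24) • pw 1 ∈ PW (1 + δ) := by
    have h1 : u3 + (f₀ ^ 3 / 24) • pw 1 =
        (v1 - x1) * ((1 / 3 : ℝ) • (v1 * v1 + v1 * x1 + x1 * x1) - (1 / 2 : ℝ) • (x1 * x1)) - (x1 + v1) * Y2
          - (1 / 3 : ℝ) • ((x1 - (f₀ / 2) • pw (1/3)) * (x1 * x1 + x1 * ((f₀ / 2) • pw (1/3)) + ((f₀ / 2) • pw (1/3)) * ((f₀ / 2) • pw (1/3)))) := by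
      funext n
      have h2 : pw 1 n = pw (1/3) n * pw (1/3) n * pw (1/3) n := by
        rw [e1_pw_mul, e1_pw_mul]; norm_num
      rw [hu3def]
      simp only [Pi.add_apply, Pi.sub_apply, Pi.mul_apply, Pi.smul_apply, smul_eq_mul]
      rw [h2]
      ring
    rw [h1]
    have hg : (f₀ / 2) • pw (1/3) ∈ PW (1/3) := (PW _).smul_mem _ (e1_pw_mem _)
    have h33 : ∀ {a b : ℕ → ℝ}, a ∈ PW (1/3) → b ∈ PW (1/3) → a * b ∈ PW (2/3) := fun ha hb => e1_mm ha hb (by norm_num)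
    refine (PW _).sub_mem ((PW _).sub_mem ?_ ?_) ((PW _).smul_mem _ ?_)
    · exact e1_mm (b := 2/3) hv1d ((PW _).sub_mem ((PW _).smul_mem _ ((PW _).add_mem ((PW _).add_mem (h33 hv1 hv1) (h33 hv1 hx1)) (h33 hx1 hx1)))
        ((PW _).smul_mem _ (h33 hx1 hx1))) (by linarith)
    · exact e1_mm ((PW _).add_mem hx1 hv1) hY2 (by linarith)
    · exact e1_mm (b := 2/3) hx1δ ((PW _).add_mem ((PW _).add_mem (h33 hx1 hx1) (h33 hx1 hg)) (h33 hg hg)) (by linarith)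
  have hu3 : u3 ∈ PW 1 := by
    have h1 : u3 = (u3 + (f₀ ^ 3 / 24) • pw 1) - (f₀ ^ 3 / 24) • pw 1 := by abel
    rw [h1]
    exact (PW _).sub_mem (PW.mono (by linarith) hu3δ) ((PW _).smul_mem _ (e1_pw_mem _))
  obtain ⟨Y3, hY3, hY3d, hY3s⟩ := halfinv hu3
  obtain ⟨x3, hx3def⟩ : ∃ x3, x3 = (1 / 6 : ℝ) • (x1 * x1 * x1) + x1 * Y2 + Y3 := ⟨_, rfl⟩
  have hx111 : x1 * x1 * x1 ∈ PW 1 := e1_mm (e1_mm hx1 hx1 (le_refl _)) hx1 (by norm_num)
  have hx3 : x3 ∈ PW 1 := by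
    rw [hx3def]
    exact (PW _).add_mem ((PW _).add_mem ((PW _).smul_mem _ hx111) (e1_mm hx1 hY2 (by norm_num))) hY3
  have hx3δ : (x3 - x1 * x2 + (1 / 3 : ℝ) • (x1 * x1 * x1) + (f₀ ^ 3 / 48) • pw 1) ∈ PW (1 + δ) := by
    have h1 : x3 - x1 * x2 + (1 / 3 : ℝ) • (x1 * x1 * x1) + (f₀ ^ 3 / 48) • pw 1 =
        (Y3 - (1 / 2 : ℝ) • u3) + (1 / 2 : ℝ) • (u3 + (f₀ ^ 3 / 24) • pw 1) := by
      rw [hx3def, hx2def]
      funext n
      simp only [Pi.add_apply, Pi.sub_apply, Pi.mul_apply, Pi.smul_apply, smul_eq_mul]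
      ring
    rw [h1]
    exact (PW _).add_mem (PW.mono (by linarith) hY3d) ((PW _).smul_mem _ hu3δ)
  obtain ⟨v3, hv3, hv3d, hv3s⟩ := PW.shift hx3
  
  have hu4 : f₁ * v3 - (x1 * v3 + x2 * v2 + x3 * v1) ∈ PW (4/3) :=
    (PW _).sub_mem (e1_mm hf1 hv3 (by norm_num)) ((PW _).add_mem ((PW _).add_mem (e1_mm hx1 hv3 (by norm_num)) (e1_mm hx2 hv2 (by norm_num)))
      (e1_mm hx3 hv1 (by norm_num)))
  obtain ⟨x4, hx4, hx4d, hx4s⟩ := halfinv hu4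
  obtain ⟨v4, hv4, hv4d, hv4s⟩ := PW.shift hx4
  have hu5 : f₁ * v4 - (x1 * v4 + x2 * v3 + x3 * v2 + x4 * v1) ∈ PW (5/3) :=
    (PW _).sub_mem (e1_mm hf1 hv4 (by norm_num)) ((PW _).add_mem ((PW _).add_mem ((PW _).add_mem (e1_mm hx1 hv4 (by norm_num)) (e1_mm hx2 hv3 (by norm_num)))
      (e1_mm hx3 hv2 (by norm_num))) (e1_mm hx4 hv1 (by norm_num)))
  obtain ⟨x5, hx5, hx5d, hx5s⟩ := halfinv hu5
  obtain ⟨v5, hv5, hv5d, hv5s⟩ := PW.shift hx5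
  have hu6 : f₁ * v5 - (x1 * v5 + x2 * v4 + x3 * v3 + x4 * v2 + x5 * v1) ∈ PW 2 :=
    (PW _).sub_mem (e1_mm hf1 hv5 (by norm_num)) ((PW _).add_mem ((PW _).add_mem ((PW _).add_mem ((PW _).add_mem (e1_mm hx1 hv5 (by norm_num)) (e1_mm hx2 hv4 (by norm_num)))
      (e1_mm hx3 hv3 (by norm_num))) (e1_mm hx4 hv2 (by norm_num))) (e1_mm hx5 hv1 (by norm_num)))
  obtain ⟨x6, hx6, hx6d, hx6s⟩ := halfinv hu6
  
  have bf1 := e1_bd (by norm_num) hf1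
  have b1 := e1_bd (by norm_num) hx1
  have b2 := e1_bd (by norm_num) hx2
  have b3 := e1_bd (by norm_num) hx3
  have b4 := e1_bd (by norm_num) hx4
  have b5 := e1_bd (by norm_num) hx5
  have c1 := e1_bd (by norm_num) hv1
  have c2 := e1_bd (by norm_num) hv2
  have bY := e1_bd (by norm_num) hY2
  have s1 := e1_bdS b1
  have s2 := e1_bdS b2
  have s3 := e1_bdS b3
  have s4 := e1_bdS b4
  have s5 := e1_bdS b5
  let X : ℕ → ℕ → ℝ := fun p => match p with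
    | 0 => fun _ => 1
    | 1 => x1
    | 2 => x2
    | 3 => x3
    | 4 => x4
    | 5 => x5
    | 6 => x6
    | _ => 0
  refine ⟨X, fun n => rfl, ?_, hx1δ, ?_, hx3δ, ?_⟩
  · intro p hp
    match p, hp with
    | 1, _ => exact PW.mono (by norm_num) hx1
    | 2, _ => exact PW.mono (by norm_num) hx2
    | 3, _ => exact PW.mono (by norm_num) hx3
    | 4, _ => exact PW.mono (by norm_num) hx4
    | 5, _ => exact PW.mono (by norm_num) hx5
    | 6, _ => exact PW.mono (by norm_num) hx6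
    | (q + 7), _ => exact (PW _).zero_mem
  · show x2 - (1 / 2 : ℝ) • (x1 * x1) ∈ PW (5/3)
    rw [hx2def, add_sub_cancel_left]
    exact hY2
  · intro p hp hp6
    have h12 : ∀ n, x2 n = (1 / 2) * (x1 n * x1 n) + Y2 n := fun n => by rw [hx2def]; simp
    have h13 : ∀ n, x3 n = (1 / 6) * (x1 n * x1 n * x1 n) + x1 n * Y2 n + Y3 n := fun n => by rw [hx3def]; simp
    have h3u : ∀ n, u3 n = (1 / 3) * (v1 n * v1 n * v1 n) - (1 / 2) * (x1 n * x1 n * v1 n) - (1 / 6) * (x1 n * x1 n * x1 n)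
      - (x1 n + v1 n) * Y2 n := fun n => by rw [hu3def]; simp
    match p, hp, hp6 with
    | 1, _, _ =>
      refine (hx1s.sub hf1s).congr_left (fun n => ?_)
      simp only [Finset.sum_range_succ, Finset.sum_range_zero, X]
      ring
    | 2, _, _ =>
      have t1 := (hY2s.sub (e1_bm (c1.add s1) (hv1s.const_mul_left (1 / 2)))).add ((e1_bm s1 hx1s).sub (e1_bm s1 hf1s))
      refine t1.congr_left (fun n => ?_)
      simp only [Finset.sum_range_succ, Finset.sum_range_zero, X, Nat.sub_zero, Nat.reduceSub]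
      rw [h12, h12]
      simp only [Pi.sub_apply, Pi.mul_apply, Pi.smul_apply, smul_eq_mul]
      ring
    | 3, _, _ =>
      have t1 := ((hY3s.sub (e1_bm (((e1_bb c1 c1).add (e1_bb c1 s1)).add (e1_bb s1 s1)) (hv1s.const_mul_left (1 / 3)))).add
        (e1_bm (e1_bb b1 b1) (hv1s.const_mul_left (1 / 2)))).add (e1_bm bY hv1s)
      have t2 := t1.add ((e1_bm s2 hx1s).sub (e1_bm s2 hf1s))
      refine t2.congr_left (fun n => ?_)
      simp only [Finset.sum_range_succ, Finset.sum_range_zero, X, Nat.sub_zero, Nat.reduceSub]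
      rw [h13, h13, h12, h12, h3u]
      ring
    | 4, _, _ =>
      have t1 := ((hx4s.add (e1_bm b1 hv3s)).add (e1_bm b2 hv2s)).add (e1_bm b3 hv1s)
      have t2 := (t1.sub (e1_bm s3 hf1s)).sub (e1_bm bf1 hv3s)
      refine t2.congr_left (fun n => ?_)
      simp only [Finset.sum_range_succ, Finset.sum_range_zero, X, Nat.sub_zero, Nat.reduceSub]
      simp only [Pi.sub_apply, Pi.mul_apply, Pi.add_apply]
      ring
    | 5, _, _ =>
      have t1 := (((hx5s.add (e1_bm b1 hv4s)).add (e1_bm b2 hv3s)).add (e1_bm b3 hv2s)).add (e1_bm b4 hv1s)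
      have t2 := (t1.sub (e1_bm s4 hf1s)).sub (e1_bm bf1 hv4s)
      refine t2.congr_left (fun n => ?_)
      simp only [Finset.sum_range_succ, Finset.sum_range_zero, X, Nat.sub_zero, Nat.reduceSub]
      simp only [Pi.sub_apply, Pi.mul_apply, Pi.add_apply]
      ring
    | 6, _, _ =>
      have t1 := ((((hx6s.add (e1_bm b1 hv5s)).add (e1_bm b2 hv4s)).add (e1_bm b3 hv3s)).add (e1_bm b4 hv2s)).add (e1_bm b5 hv1s)
      have t2 := (t1.sub (e1_bm s5 hf1s)).sub (e1_bm bf1 hv5s)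
      refine t2.congr_left (fun n => ?_)
      simp only [Finset.sum_range_succ, Finset.sum_range_zero, X, Nat.sub_zero, Nat.reduceSub]
      simp only [Pi.sub_apply, Pi.mul_apply, Pi.add_apply]
      ring

end Pool.Agent.Helper615.LogA
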