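import Mathlib
import Pool.Agent.Helper615.LogA.Defs
import Pool.Agent.Helper615.LogA.P1
set_option autoImplicit false

namespace Pool.Agent.Helper615.LogA

open Filter Asymptotics
theorem e2_lognn (n : ℕ) : 0 ≤ Real.log n := by
  rcases Nat.eq_zero_or_pos n with h | h
  · subst h; simp
  · exact Real.log_nonneg (by exact_mod_cast h)
theorem e2_pw_pos (e : ℝ) (n : ℕ) : 0 < pw e n := Real.exp_pos _
theorem e2_pw_mul (a b : ℝ) (n : ℕ) : pw a n * pw b n = pw (a + b) n := by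
  unfold pw
  rw [← Real.exp_add]; congr 1; ring
theorem e2_pw_anti {a b : ℝ} (h : a ≤ b) (n : ℕ) : pw b n ≤ pw a n := by
  unfold pw
  apply Real.exp_le_exp.2
  have := mul_le_mul_of_nonneg_right h (e2_lognn n)
  linarith
theorem e2_pw_le_one {e : ℝ} (h : 0 ≤ e) (n : ℕ) : pw e n ≤ 1 := by
  have := e2_pw_anti h n
  have h0 : pw 0 n = 1 := by simp [pw]
  rwa [h0] at this
theorem e2_pw_succ {e : ℝ} (h : 0 ≤ e) (n : ℕ) : pw e (n + 1) ≤ pw e n := by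
  unfold pw
  apply Real.exp_le_exp.2
  have h1 : Real.log n ≤ Real.log ((n + 1 : ℕ) : ℝ) := by
    rcases Nat.eq_zero_or_pos n with h' | h'
    · subst h'; simp
    · exact Real.log_le_log (by exact_mod_cast h') (by push_cast; linarith)
  have := mul_le_mul_of_nonneg_left h1 h
  linarith
theorem e2_pw_tendsto {e : ℝ} (h : 0 < e) : Tendsto (pw e) atTop (nhds 0) := by
  unfold pw
  apply Real.tendsto_exp_atBot.comp
  apply tendsto_neg_atTop_atBot.comp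
  exact Tendsto.const_mul_atTop h (Real.tendsto_log_atTop.comp tendsto_natCast_atTop_atTop)
theorem e2_pw_pow (e : ℝ) (n : ℕ) (k : ℕ) : pw e n ^ k = pw (k * e) n := by
  unfold pw
  rw [← Real.exp_nat_mul]; congr 1; ring
theorem e2_bnd {q : ℝ} {u : ℕ → ℝ} (hu : u =O[atTop] pw q) : ∃ c : ℝ, 0 < c ∧ ∀ᶠ n in atTop, |u n| ≤ c * pw q n := by
  obtain ⟨c, hc, h⟩ := hu.exists_pos
  refine ⟨c, hc, ?_⟩
  filter_upwards [h.bound] with n hn
  rwa [Real.norm_eq_abs, Real.norm_of_nonneg (e2_pw_pos q n).le] at hn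
theorem e2_ev_bounds (x : ℕ → ℕ → ℝ) (hx : ∀ p : ℕ, 1 ≤ p → x p ∈ PW (p / 3)) :
    ∃ K : ℝ, 1 ≤ K ∧ ∀ᶠ n : ℕ in atTop, ∀ p ∈ Finset.Icc 1 6, |x p n| ≤ K * pw (p / 3) n ∧
      |x p (n + 1)| ≤ K * pw (p / 3) n ∧ |x p (n + 1) - x p n| ≤ K * pw (p / 3 + 1) n := by
  have h1 : ∀ p : ℕ, ∃ c : ℝ, 0 < c ∧ (1 ≤ p → ∀ᶠ n in atTop, |x p n| ≤ c * pw (p / 3) n) := by
    intro p
    by_cases hp : 1 ≤ p
    · obtain ⟨c, hc, h⟩ := e2_bnd (PW.isBigO (hx p hp))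
      exact ⟨c, hc, fun _ => h⟩
    · exact ⟨1, one_pos, fun h => absurd h hp⟩
  have h2 : ∀ p : ℕ, ∃ c : ℝ, 0 < c ∧ (1 ≤ p → ∀ᶠ n in atTop, |x p (n + 1) - x p n| ≤ c * pw (p / 3 + 1) n) := by
    intro p
    by_cases hp : 1 ≤ p
    · obtain ⟨c, hc, h⟩ := e2_bnd (PW.diff_isBigO (hx p hp))
      exact ⟨c, hc, fun _ => h⟩
    · exact ⟨1, one_pos, fun h => absurd h hp⟩
  choose c hc hc' using h1
  choose d hd hd' using h2
  have hle : ∀ p ∈ Finset.Icc 1 6, c p ≤ 1 + ∑ q ∈ Finset.Icc 1 6, (c q + d q) ∧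
      d p ≤ 1 + ∑ q ∈ Finset.Icc 1 6, (c q + d q) := by
    intro p hp
    have := Finset.single_le_sum (f := fun q => c q + d q) (fun q _ => (add_pos (hc q) (hd q)).le) hp
    constructor <;> linarith [hc p, hd p]
  refine ⟨1 + ∑ q ∈ Finset.Icc 1 6, (c q + d q), ?_, ?_⟩
  · have : 0 ≤ ∑ q ∈ Finset.Icc 1 6, (c q + d q) :=
      Finset.sum_nonneg fun q _ => (add_pos (hc q) (hd q)).le
    linarith
  · rw [Filter.eventually_all_finset]
    intro p hp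
    have hp1 : 1 ≤ p := (Finset.mem_Icc.1 hp).1
    filter_upwards [hc' p hp1, (tendsto_add_atTop_nat 1).eventually (hc' p hp1), hd' p hp1] with n e1 e2 e3
    have hpos : 0 < pw (p / 3) n := e2_pw_pos _ _
    refine ⟨e1.trans (mul_le_mul_of_nonneg_right (hle p hp).1 hpos.le), ?_,
      e3.trans (mul_le_mul_of_nonneg_right (hle p hp).2 (e2_pw_pos _ _).le)⟩
    refine e2.trans ?_
    exact mul_le_mul (hle p hp).1 (e2_pw_succ (by positivity) n) (e2_pw_pos _ _).le (le_trans (hc p).le (hle p hp).1)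
theorem e2_XX_expand (x : ℕ → ℕ → ℝ) (h0 : ∀ n, x 0 n = 1) (n : ℕ) (t : ℝ) :
    XX x n t = 1 + x 1 n * t + x 2 n * t ^ 2 + x 3 n * t ^ 3 + x 4 n * t ^ 4 + x 5 n * t ^ 5 + x 6 n * t ^ 6 := by
  unfold XX
  simp only [Finset.sum_range_succ, Finset.sum_range_zero, h0]
  ring
theorem XX_bounds (f₀ δ : ℝ) (hf₀ : 0 < f₀) (hδ : 0 < δ) (hδ' : δ ≤ 1 / 4) (x : ℕ → ℕ → ℝ)
    (h0 : ∀ n, x 0 n = 1) (hx : ∀ p : ℕ, 1 ≤ p → x p ∈ PW (p / 3))
    (h1 : (x 1 - (f₀ / 2) • pw (1/3)) ∈ PW (1/3 + δ)) :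
    ∃ c₁ C : ℝ, 0 < c₁ ∧ 0 < C ∧ ∀ᶠ n : ℕ in atTop, ∀ t : ℝ, 0 < t → t ≤ 1 →
      1 + c₁ * t * pw (1/3) n ≤ XX x n t ∧ XX x n t ≤ 1 + C * t * pw (1/3) n ∧
      |XX x (n + 1) t - XX x n t| ≤ C * t * pw (4/3) n := by
  obtain ⟨K, hK, hev⟩ := e2_ev_bounds x hx
  obtain ⟨K', hK', hev'⟩ := e2_bnd (PW.isBigO h1)
  have l1 : ∀ᶠ n in atTop, K' * pw δ n < f₀ / 8 := by
    have := (e2_pw_tendsto hδ).const_mul K'
    rw [mul_zero] at this
    exact this.eventually_lt_const (by positivity)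
  have l2 : ∀ᶠ n in atTop, 5 * K * pw (1 / 3) n < f₀ / 8 := by
    have := (e2_pw_tendsto (e := 1 / 3) (by norm_num)).const_mul (5 * K)
    rw [mul_zero] at this
    exact this.eventually_lt_const (by positivity)
  refine ⟨f₀ / 4, 6 * K, by positivity, by positivity, ?_⟩
  filter_upwards [hev, hev', l1, l2] with n b b' m1 m2 t ht ht1
  have hP := e2_pw_pos (1 / 3) n
  have tp : ∀ p : ℕ, 1 ≤ p → t ^ p ≤ t := fun p hp => by
    calc t ^ p ≤ t ^ 1 := pow_le_pow_of_le_one ht.le ht1 hp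
      _ = t := pow_one t
  have tp0 : ∀ p : ℕ, 0 < t ^ p := fun p => pow_pos ht p
  
  have g1 : ∀ p : ℕ, 1 ≤ p → p ≤ 6 → |x p n * t ^ p| ≤ K * pw (1 / 3) n * t := by
    intro p hp hp6
    rw [abs_mul, abs_of_pos (tp0 p)]
    refine mul_le_mul ((b p (Finset.mem_Icc.2 ⟨hp, hp6⟩)).1.trans ?_) (tp p hp) (tp0 p).le (by positivity)
    refine mul_le_mul_of_nonneg_left (e2_pw_anti ?_ n) (by linarith)
    have : (1 : ℝ) ≤ p := by exact_mod_cast hp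
    linarith
  have g2 : ∀ p : ℕ, 2 ≤ p → p ≤ 6 → |x p n * t ^ p| ≤ K * pw (2 / 3) n * t := by
    intro p hp hp6
    rw [abs_mul, abs_of_pos (tp0 p)]
    refine mul_le_mul ((b p (Finset.mem_Icc.2 ⟨by omega, hp6⟩)).1.trans ?_) (tp p (by omega)) (tp0 p).le
      (mul_nonneg (by linarith) (e2_pw_pos _ _).le)
    refine mul_le_mul_of_nonneg_left (e2_pw_anti ?_ n) (by linarith)
    have : (2 : ℝ) ≤ p := by exact_mod_cast hp
    linarith
  have g3 : ∀ p : ℕ, 1 ≤ p → p ≤ 6 → |(x p (n + 1) - x p n) * t ^ p| ≤ K * pw (4 / 3) n * t := by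
    intro p hp hp6
    rw [abs_mul, abs_of_pos (tp0 p)]
    refine mul_le_mul ((b p (Finset.mem_Icc.2 ⟨hp, hp6⟩)).2.2.trans ?_) (tp p hp) (tp0 p).le
      (mul_nonneg (by linarith) (e2_pw_pos _ _).le)
    refine mul_le_mul_of_nonneg_left (e2_pw_anti ?_ n) (by linarith)
    have : (1 : ℝ) ≤ p := by exact_mod_cast hp
    linarith
  have e23 : pw (2 / 3) n = pw (1 / 3) n * pw (1 / 3) n := by rw [e2_pw_mul]; norm_num
  have ed : pw (1 / 3 + δ) n = pw (1 / 3) n * pw δ n := by rw [e2_pw_mul]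
  refine ⟨?_, ?_, ?_⟩
  · rw [e2_XX_expand x h0]
    have k1 : (f₀ / 2) * pw (1 / 3) n - K' * (pw (1 / 3) n * pw δ n) ≤ x 1 n := by
      have := (abs_le.1 b').1
      rw [ed] at this
      simp only [Pi.sub_apply, Pi.smul_apply, smul_eq_mul] at this
      linarith
    have k2 := (abs_le.1 (g2 2 (by norm_num) (by norm_num))).1
    have k3 := (abs_le.1 (g2 3 (by norm_num) (by norm_num))).1
    have k4 := (abs_le.1 (g2 4 (by norm_num) (by norm_num))).1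
    have k5 := (abs_le.1 (g2 5 (by norm_num) (by norm_num))).1
    have k6 := (abs_le.1 (g2 6 (by norm_num) (by norm_num))).1
    have k7 : x 1 n * t ≥ ((f₀ / 2) * pw (1 / 3) n - K' * (pw (1 / 3) n * pw δ n)) * t :=
      mul_le_mul_of_nonneg_right k1 ht.le
    have k8 : K' * pw δ n * (pw (1 / 3) n * t) ≤ f₀ / 8 * (pw (1 / 3) n * t) :=
      mul_le_mul_of_nonneg_right m1.le (by positivity)
    have k9 : 5 * K * pw (1 / 3) n * (pw (1 / 3) n * t) ≤ f₀ / 8 * (pw (1 / 3) n * t) :=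
      mul_le_mul_of_nonneg_right m2.le (by positivity)
    rw [e23] at k2 k3 k4 k5 k6
    nlinarith
  · rw [e2_XX_expand x h0]
    have k1 := (abs_le.1 (g1 1 (by norm_num) (by norm_num))).2
    have k2 := (abs_le.1 (g1 2 (by norm_num) (by norm_num))).2
    have k3 := (abs_le.1 (g1 3 (by norm_num) (by norm_num))).2
    have k4 := (abs_le.1 (g1 4 (by norm_num) (by norm_num))).2
    have k5 := (abs_le.1 (g1 5 (by norm_num) (by norm_num))).2
    have k6 := (abs_le.1 (g1 6 (by norm_num) (by norm_num))).2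
    rw [pow_one] at k1
    linarith
  · rw [e2_XX_expand x h0, e2_XX_expand x h0]
    have k1 := g3 1 (by norm_num) (by norm_num)
    have k2 := g3 2 (by norm_num) (by norm_num)
    have k3 := g3 3 (by norm_num) (by norm_num)
    have k4 := g3 4 (by norm_num) (by norm_num)
    have k5 := g3 5 (by norm_num) (by norm_num)
    have k6 := g3 6 (by norm_num) (by norm_num)
    rw [pow_one] at k1
    rw [abs_le] at *
    constructor <;> linarith [k1.1, k1.2, k2.1, k2.2, k3.1, k3.2, k4.1, k4.2, k5.1, k5.2, k6.1, k6.2]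
set_option maxHeartbeats 4000000 in
theorem XX_residual (f₀ δ : ℝ) (hf₀ : 0 < f₀) (hδ : 0 < δ) (hδ' : δ ≤ 1 / 4) (f : ℕ → ℝ)
    (hf : (f - f₀ • pw (1/3)) ∈ PW (1/3 + δ)) (x : ℕ → ℕ → ℝ)
    (h0 : ∀ n, x 0 n = 1) (hx : ∀ p : ℕ, 1 ≤ p → x p ∈ PW (p / 3))
    (h1 : (x 1 - (f₀ / 2) • pw (1/3)) ∈ PW (1/3 + δ))
    (hr : ∀ p : ℕ, 1 ≤ p → p ≤ 6 →
      (fun n => ∑ i ∈ Finset.range (p + 1), x i n * x (p - i) (n + 1) - f (n + 1) * x (p - 1) (n + 1))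
        =O[atTop] pw 12) :
    ∃ C : ℝ, ∀ᶠ n : ℕ in atTop, ∀ t : ℝ, 0 < t → t ≤ 1 →
      |XX x n t - (XX x (n + 1) t)⁻¹ - t * f (n + 1)| ≤ C * (t ^ 7 * pw (7/3) n + t * pw 11 n) := by
  obtain ⟨K, hK, hev⟩ := e2_ev_bounds x hx
  obtain ⟨c₁, C₁, hc₁, hC₁, hB⟩ := XX_bounds f₀ δ hf₀ hδ hδ' x h0 hx h1
  obtain ⟨KF, hKF, hevF⟩ := e2_bnd (PW.isBigO hf)
  have hG : ∀ p : ℕ, ∃ c : ℝ, 0 < c ∧ (1 ≤ p → p ≤ 6 → ∀ᶠ n in atTop,
      |∑ i ∈ Finset.range (p + 1), x i n * x (p - i) (n + 1) - f (n + 1) * x (p - 1) (n + 1)| ≤ c * pw 12 n) := by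
    intro p
    by_cases hp : 1 ≤ p ∧ p ≤ 6
    · obtain ⟨c, hc, h⟩ := e2_bnd (hr p hp.1 hp.2)
      exact ⟨c, hc, fun _ _ => h⟩
    · exact ⟨1, one_pos, fun h h' => absurd ⟨h, h'⟩ hp⟩
  choose g hg hg' using hG
  refine ⟨(g 1 + g 2 + g 3 + g 4 + g 5 + g 6) + (21 * K ^ 2 + (f₀ + KF) * K), ?_⟩
  filter_upwards [hev, (tendsto_add_atTop_nat 1).eventually hB, (tendsto_add_atTop_nat 1).eventually hevF,
    hg' 1 (by norm_num) (by norm_num), hg' 2 (by norm_num) (by norm_num), hg' 3 (by norm_num) (by norm_num),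
    hg' 4 (by norm_num) (by norm_num), hg' 5 (by norm_num) (by norm_num), hg' 6 (by norm_num) (by norm_num)]
    with n b bB bF G1 G2 G3 G4 G5 G6 t ht ht1
  have hX1 : 1 ≤ XX x (n + 1) t := by
    have := (bB t ht ht1).1
    have h2 : 0 < c₁ * t * pw (1 / 3) (n + 1) := mul_pos (mul_pos hc₁ ht) (e2_pw_pos _ _)
    linarith
  have tp0 : ∀ p : ℕ, 0 < t ^ p := fun p => pow_pos ht p
  have tp1 : ∀ p : ℕ, t ^ p ≤ 1 := fun p => pow_le_one₀ ht.le ht1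
  have tp : ∀ p : ℕ, 1 ≤ p → t ^ p ≤ t := fun p hp => by
    calc t ^ p ≤ t ^ 1 := pow_le_pow_of_le_one ht.le ht1 hp
      _ = t := pow_one t
  have hQ := e2_pw_pos (7 / 3) n
  
  have hF : |f (n + 1)| ≤ (f₀ + KF) * pw (1 / 3) n := by
    simp only [Pi.sub_apply, Pi.smul_apply, smul_eq_mul] at bF
    have e1 : pw (1 / 3 + δ) (n + 1) ≤ pw (1 / 3) n :=
      (e2_pw_anti (by linarith) _).trans (e2_pw_succ (by norm_num) n)
    have e2 : pw (1 / 3) (n + 1) ≤ pw (1 / 3) n := e2_pw_succ (by norm_num) n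
    have e3 : KF * pw (1 / 3 + δ) (n + 1) ≤ KF * pw (1 / 3) n := mul_le_mul_of_nonneg_left e1 hKF.le
    have e4 : f₀ * pw (1 / 3) (n + 1) ≤ f₀ * pw (1 / 3) n := mul_le_mul_of_nonneg_left e2 hf₀.le
    have e5 : 0 < f₀ * pw (1 / 3) (n + 1) := mul_pos hf₀ (e2_pw_pos _ _)
    have e6 := abs_le.1 bF
    rw [abs_le]
    constructor <;> nlinarith [e6.1, e6.2, e2_pw_pos (1/3) n]
  have hFb : ∀ k : ℕ, |f (n + 1) * x 6 (n + 1) * t ^ k| ≤ (f₀ + KF) * K * pw (7 / 3) n := by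
    intro k
    have e1 := (b 6 (by simp)).2.1
    rw [abs_mul, abs_mul, abs_of_pos (tp0 k)]
    have e2 : pw (1 / 3) n * pw ((6 : ℕ) / 3) n = pw (7 / 3) n := by rw [e2_pw_mul]; norm_num
    calc |f (n + 1)| * |x 6 (n + 1)| * t ^ k ≤ ((f₀ + KF) * pw (1 / 3) n * (K * pw ((6 : ℕ) / 3) n)) * 1 := by
          refine mul_le_mul ?_ (tp1 k) (tp0 k).le ?_
          · exact mul_le_mul hF e1 (abs_nonneg _) (by have := e2_pw_pos (1 / 3) n; positivity)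
          · have := e2_pw_pos (1 / 3) n
            have := e2_pw_pos ((6 : ℕ) / 3) n
            positivity
      _ = (f₀ + KF) * K * (pw (1 / 3) n * pw ((6 : ℕ) / 3) n) := by ring
      _ = _ := by rw [e2]
  have hab : ∀ i j k : ℕ, i ∈ Finset.Icc 1 6 → j ∈ Finset.Icc 1 6 → 7 ≤ i + j →
      |x i n * x j (n + 1) * t ^ k| ≤ K ^ 2 * pw (7 / 3) n := by
    intro i j k hi hj hij
    have e1 := (b i hi).1
    have e2 := (b j hj).2.1
    rw [abs_mul, abs_mul, abs_of_pos (tp0 k)]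
    have p1 := e2_pw_pos ((i : ℝ) / 3) n
    have p2 := e2_pw_pos ((j : ℝ) / 3) n
    have e3 : pw ((i : ℝ) / 3) n * pw ((j : ℝ) / 3) n ≤ pw (7 / 3) n := by
      rw [e2_pw_mul]
      apply e2_pw_anti
      have : (7 : ℝ) ≤ i + j := by exact_mod_cast hij
      linarith
    calc |x i n| * |x j (n + 1)| * t ^ k ≤ (K * pw ((i : ℝ) / 3) n * (K * pw ((j : ℝ) / 3) n)) * 1 := by
          refine mul_le_mul ?_ (tp1 k) (tp0 k).le (by positivity)
          exact mul_le_mul e1 e2 (abs_nonneg _) (by positivity)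
      _ = K ^ 2 * (pw ((i : ℝ) / 3) n * pw ((j : ℝ) / 3) n) := by ring
      _ ≤ K ^ 2 * pw (7 / 3) n := mul_le_mul_of_nonneg_left e3 (by positivity)
  have hGt : ∀ (p : ℕ) (y : ℝ), 1 ≤ p → |y| ≤ g p * pw 12 n → |y * t ^ p| ≤ g p * (t * pw 11 n) := by
    intro p y hp hy
    rw [abs_mul, abs_of_pos (tp0 p)]
    have e1 : pw 12 n ≤ pw 11 n := e2_pw_anti (by norm_num) n
    calc |y| * t ^ p ≤ (g p * pw 11 n) * t :=
          mul_le_mul (hy.trans (mul_le_mul_of_nonneg_left e1 (hg p).le)) (tp p hp) (tp0 p).le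
            (mul_nonneg (hg p).le (e2_pw_pos _ _).le)
      _ = g p * (t * pw 11 n) := by ring
  simp only [Finset.sum_range_succ, Finset.sum_range_zero, h0] at G1 G2 G3 G4 G5 G6
  norm_num [h0] at G1 G2 G3 G4 G5 G6
  have J1 := hGt 1 _ (by norm_num) G1
  have J2 := hGt 2 _ (by norm_num) G2
  have J3 := hGt 3 _ (by norm_num) G3
  have J4 := hGt 4 _ (by norm_num) G4
  have J5 := hGt 5 _ (by norm_num) G5
  have J6 := hGt 6 _ (by norm_num) G6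
  have q16 := abs_le.1 (hab 1 6 0 (by decide) (by decide) (by norm_num))
  have q25 := abs_le.1 (hab 2 5 0 (by decide) (by decide) (by norm_num))
  have q26 := abs_le.1 (hab 2 6 1 (by decide) (by decide) (by norm_num))
  have q34 := abs_le.1 (hab 3 4 0 (by decide) (by decide) (by norm_num))
  have q35 := abs_le.1 (hab 3 5 1 (by decide) (by decide) (by norm_num))
  have q36 := abs_le.1 (hab 3 6 2 (by decide) (by decide) (by norm_num))
  have q43 := abs_le.1 (hab 4 3 0 (by decide) (by decide) (by norm_num))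
  have q44 := abs_le.1 (hab 4 4 1 (by decide) (by decide) (by norm_num))
  have q45 := abs_le.1 (hab 4 5 2 (by decide) (by decide) (by norm_num))
  have q46 := abs_le.1 (hab 4 6 3 (by decide) (by decide) (by norm_num))
  have q52 := abs_le.1 (hab 5 2 0 (by decide) (by decide) (by norm_num))
  have q53 := abs_le.1 (hab 5 3 1 (by decide) (by decide) (by norm_num))
  have q54 := abs_le.1 (hab 5 4 2 (by decide) (by decide) (by norm_num))
  have q55 := abs_le.1 (hab 5 5 3 (by decide) (by decide) (by norm_num))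
  have q56 := abs_le.1 (hab 5 6 4 (by decide) (by decide) (by norm_num))
  have q61 := abs_le.1 (hab 6 1 0 (by decide) (by decide) (by norm_num))
  have q62 := abs_le.1 (hab 6 2 1 (by decide) (by decide) (by norm_num))
  have q63 := abs_le.1 (hab 6 3 2 (by decide) (by decide) (by norm_num))
  have q64 := abs_le.1 (hab 6 4 3 (by decide) (by decide) (by norm_num))
  have q65 := abs_le.1 (hab 6 5 4 (by decide) (by decide) (by norm_num))
  have q66 := abs_le.1 (hab 6 6 5 (by decide) (by decide) (by norm_num))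
  have qF := abs_le.1 (hFb 0)
  have hS : |x 1 n * x 6 (n + 1) * t ^ 0 + x 2 n * x 5 (n + 1) * t ^ 0 + x 2 n * x 6 (n + 1) * t ^ 1 + x 3 n * x 4 (n + 1) * t ^ 0 + x 3 n * x 5 (n + 1) * t ^ 1 + x 3 n * x 6 (n + 1) * t ^ 2 + x 4 n * x 3 (n + 1) * t ^ 0 + x 4 n * x 4 (n + 1) * t ^ 1 + x 4 n * x 5 (n + 1) * t ^ 2 + x 4 n * x 6 (n + 1) * t ^ 3 + x 5 n * x 2 (n + 1) * t ^ 0 + x 5 n * x 3 (n + 1) * t ^ 1 + x 5 n * x 4 (n + 1) * t ^ 2 + x 5 n * x 5 (n + 1) * t ^ 3 + x 5 n * x 6 (n + 1) * t ^ 4 + x 6 n * x 1 (n + 1) * t ^ 0 + x 6 n * x 2 (n + 1) * t ^ 1 + x 6 n * x 3 (n + 1) * t ^ 2 + x 6 n * x 4 (n + 1) * t ^ 3 + x 6 n * x 5 (n + 1) * t ^ 4 + x 6 n * x 6 (n + 1) * t ^ 5 - f (n + 1) * x 6 (n + 1) * t ^ 0| ≤ (21 * K ^ 2 + (f₀ + KF) * K) * pw (7 / 3) n := by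
    rw [abs_le]
    constructor <;> linarith [q16.1, q16.2, q25.1, q25.2, q26.1, q26.2, q34.1, q34.2, q35.1, q35.2, q36.1, q36.2, q43.1, q43.2, q44.1, q44.2, q45.1, q45.2, q46.1, q46.2, q52.1, q52.2, q53.1, q53.2, q54.1, q54.2, q55.1, q55.2, q56.1, q56.2, q61.1, q61.2, q62.1, q62.2, q63.1, q63.2, q64.1, q64.2, q65.1, q65.2, q66.1, q66.2, qF.1, qF.2]
  set S := x 1 n * x 6 (n + 1) * t ^ 0 + x 2 n * x 5 (n + 1) * t ^ 0 + x 2 n * x 6 (n + 1) * t ^ 1 + x 3 n * x 4 (n + 1) * t ^ 0 + x 3 n * x 5 (n + 1) * t ^ 1 + x 3 n * x 6 (n + 1) * t ^ 2 + x 4 n * x 3 (n + 1) * t ^ 0 + x 4 n * x 4 (n + 1) * t ^ 1 + x 4 n * x 5 (n + 1) * t ^ 2 + x 4 n * x 6 (n + 1) * t ^ 3 + x 5 n * x 2 (n + 1) * t ^ 0 + x 5 n * x 3 (n + 1) * t ^ 1 + x 5 n * x 4 (n + 1) * t ^ 2 + x 5 n * x 5 (n + 1) * t ^ 3 + x 5 n * x 6 (n + 1) * t ^ 4 + x 6 n * x 1 (n + 1) * t ^ 0 + x 6 n * x 2 (n + 1) * t ^ 1 + x 6 n * x 3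 (n + 1) * t ^ 2 + x 6 n * x 4 (n + 1) * t ^ 3 + x 6 n * x 5 (n + 1) * t ^ 4 + x 6 n * x 6 (n + 1) * t ^ 5 - f (n + 1) * x 6 (n + 1) * t ^ 0 with hSdef
  have hR : XX x n t * XX x (n + 1) t - 1 - t * f (n + 1) * XX x (n + 1) t =
      (x 1 (n + 1) + x 1 n - f (n + 1)) * t ^ 1 +
      (x 2 (n + 1) + x 1 n * x 1 (n + 1) + x 2 n - f (n + 1) * x 1 (n + 1)) * t ^ 2 +
      (x 3 (n + 1) + x 1 n * x 2 (n + 1) + x 2 n * x 1 (n + 1) + x 3 n - f (n + 1) * x 2 (n + 1)) * t ^ 3 +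
      (x 4 (n + 1) + x 1 n * x 3 (n + 1) + x 2 n * x 2 (n + 1) + x 3 n * x 1 (n + 1) + x 4 n
        - f (n + 1) * x 3 (n + 1)) * t ^ 4 +
      (x 5 (n + 1) + x 1 n * x 4 (n + 1) + x 2 n * x 3 (n + 1) + x 3 n * x 2 (n + 1) + x 4 n * x 1 (n + 1) + x 5 n
        - f (n + 1) * x 4 (n + 1)) * t ^ 5 +
      (x 6 (n + 1) + x 1 n * x 5 (n + 1) + x 2 n * x 4 (n + 1) + x 3 n * x 3 (n + 1) + x 4 n * x 2 (n + 1) +
            x 5 n * x 1 (n + 1) + x 6 n - f (n + 1) * x 5 (n + 1)) * t ^ 6 + t ^ 7 * S := by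
    rw [e2_XX_expand x h0, e2_XX_expand x h0, hSdef]
    ring
  have hS7 : |t ^ 7 * S| ≤ (21 * K ^ 2 + (f₀ + KF) * K) * (t ^ 7 * pw (7 / 3) n) := by
    rw [abs_mul, abs_of_pos (tp0 7)]
    calc t ^ 7 * |S| ≤ t ^ 7 * ((21 * K ^ 2 + (f₀ + KF) * K) * pw (7 / 3) n) :=
          mul_le_mul_of_nonneg_left hS (tp0 7).le
      _ = _ := by ring
  have hRabs : |XX x n t * XX x (n + 1) t - 1 - t * f (n + 1) * XX x (n + 1) t| ≤
      (g 1 + g 2 + g 3 + g 4 + g 5 + g 6) * (t * pw 11 n) +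
        (21 * K ^ 2 + (f₀ + KF) * K) * (t ^ 7 * pw (7 / 3) n) := by
    rw [hR]
    have a1 := abs_le.1 J1
    have a2 := abs_le.1 J2
    have a3 := abs_le.1 J3
    have a4 := abs_le.1 J4
    have a5 := abs_le.1 J5
    have a6 := abs_le.1 J6
    have a7 := abs_le.1 hS7
    rw [abs_le]
    constructor <;> linarith [a1.1, a1.2, a2.1, a2.2, a3.1, a3.2, a4.1, a4.2, a5.1, a5.2, a6.1, a6.2, a7.1, a7.2]
  have hX0 : 0 < XX x (n + 1) t := by linarith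
  have hquot : XX x n t - (XX x (n + 1) t)⁻¹ - t * f (n + 1) =
      (XX x n t * XX x (n + 1) t - 1 - t * f (n + 1) * XX x (n + 1) t) * (XX x (n + 1) t)⁻¹ := by
    field_simp
  rw [hquot, abs_mul, abs_of_pos (inv_pos.2 hX0)]
  have hinv : (XX x (n + 1) t)⁻¹ ≤ 1 := inv_le_one_of_one_le₀ hX1
  have hA : 0 ≤ (g 1 + g 2 + g 3 + g 4 + g 5 + g 6) := by
    have := hg 1; have := hg 2; have := hg 3; have := hg 4; have := hg 5; have := hg 6
    linarith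
  have hB' : 0 ≤ 21 * K ^ 2 + (f₀ + KF) * K := by positivity
  have hu : 0 ≤ t * pw 11 n := (mul_pos ht (e2_pw_pos _ _)).le
  have hv : 0 ≤ t ^ 7 * pw (7 / 3) n := (mul_pos (tp0 7) (e2_pw_pos _ _)).le
  calc |XX x n t * XX x (n + 1) t - 1 - t * f (n + 1) * XX x (n + 1) t| * (XX x (n + 1) t)⁻¹ ≤
      |XX x n t * XX x (n + 1) t - 1 - t * f (n + 1) * XX x (n + 1) t| * 1 :=
        mul_le_mul_of_nonneg_left hinv (abs_nonneg _)
    _ ≤ (g 1 + g 2 + g 3 + g 4 + g 5 + g 6) * (t * pw 11 n) +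
        (21 * K ^ 2 + (f₀ + KF) * K) * (t ^ 7 * pw (7 / 3) n) := by rw [mul_one]; exact hRabs
    _ ≤ _ := by nlinarith [mul_nonneg hA hv, mul_nonneg hB' hu]
set_option maxHeartbeats 4000000 in
theorem XX_log (f₀ δ : ℝ) (hf₀ : 0 < f₀) (hδ : 0 < δ) (hδ' : δ ≤ 1 / 4) (x : ℕ → ℕ → ℝ)
    (h0 : ∀ n, x 0 n = 1) (hx : ∀ p : ℕ, 1 ≤ p → x p ∈ PW (p / 3))
    (h1 : (x 1 - (f₀ / 2) • pw (1/3)) ∈ PW (1/3 + δ)) :
    ∃ C : ℝ, ∀ᶠ n : ℕ in atTop, ∀ t : ℝ, 0 < t → t ≤ 1 →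
      |Real.log (XX x n t) - (t * x 1 n + t ^ 2 * (x 2 n - 1 / 2 * (x 1 n * x 1 n))
        + t ^ 3 * (x 3 n - x 1 n * x 2 n + 1 / 3 * (x 1 n * x 1 n * x 1 n)))| ≤
        C * (t ^ 4 * pw (4/3) n) := by
  obtain ⟨K, hK, hev⟩ := e2_ev_bounds x hx
  have l1 : ∀ᶠ n in atTop, 6 * K * pw (1 / 3) n < 1 / 2 := by
    have := (e2_pw_tendsto (e := 1 / 3) (by norm_num)).const_mul (6 * K)
    rw [mul_zero] at this
    exact this.eventually_lt_const (by positivity)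
  refine ⟨200 * K ^ 3 + 2592 * K ^ 4, ?_⟩
  filter_upwards [hev, l1] with n b hsm t ht ht1
  set P := pw (1 / 3) n with hP
  have hP0 : 0 < P := e2_pw_pos _ _
  have hP1 : P ≤ 1 := e2_pw_le_one (by norm_num) n
  set s := t * P with hs
  have hs0 : 0 < s := mul_pos ht hP0
  have hs1 : s ≤ 1 := by
    calc t * P ≤ 1 * 1 := mul_le_mul ht1 hP1 hP0.le zero_le_one
      _ = 1 := mul_one _
  have hK0 : 0 < K := by linarith
  have g1 : ∀ p : ℕ, 1 ≤ p → p ≤ 6 → |x p n * t ^ p| ≤ K * s ^ p := by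
    intro p hp hp6
    rw [abs_mul, abs_of_pos (pow_pos ht p)]
    have e1 := (b p (Finset.mem_Icc.2 ⟨hp, hp6⟩)).1
    have e2 : pw ((p : ℝ) / 3) n = P ^ p := by
      rw [hP, e2_pw_pow]; congr 1; ring
    rw [e2] at e1
    calc |x p n| * t ^ p ≤ (K * P ^ p) * t ^ p := mul_le_mul_of_nonneg_right e1 (pow_pos ht p).le
      _ = K * s ^ p := by rw [hs, mul_pow]; ring
  have sp : ∀ p q : ℕ, q ≤ p → K * s ^ p ≤ K * s ^ q := fun p q h =>
    mul_le_mul_of_nonneg_left (pow_le_pow_of_le_one hs0.le hs1 h) hK0.le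
  have k1 := g1 1 (by norm_num) (by norm_num)
  have k2 := g1 2 (by norm_num) (by norm_num)
  have k3 := g1 3 (by norm_num) (by norm_num)
  have k4 := g1 4 (by norm_num) (by norm_num)
  have k5 := (g1 5 (by norm_num) (by norm_num)).trans (sp 5 4 (by norm_num))
  have k6 := (g1 6 (by norm_num) (by norm_num)).trans (sp 6 4 (by norm_num))
  rw [pow_one, pow_one] at k1
  set u := x 1 n * t with hu
  set v := x 2 n * t ^ 2 with hv
  set w := x 3 n * t ^ 3 with hw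
  set z := x 4 n * t ^ 4 + x 5 n * t ^ 5 + x 6 n * t ^ 6 with hz
  have kz : |z| ≤ 3 * K * s ^ 4 := by
    rw [abs_le] at *
    constructor <;> linarith [k4.1, k4.2, k5.1, k5.2, k6.1, k6.2]
  have hX : XX x n t = 1 + (u + v + w + z) := by
    rw [e2_XX_expand x h0, hu, hv, hw, hz]; ring
  have s21 : s ^ 2 ≤ s := by nlinarith
  have s32 : s ^ 3 ≤ s ^ 2 := pow_le_pow_of_le_one hs0.le hs1 (by norm_num)
  have s43 : s ^ 4 ≤ s ^ 3 := pow_le_pow_of_le_one hs0.le hs1 (by norm_num)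
  have kwz : |w + z| ≤ 4 * K * s ^ 3 := by
    have := abs_add_le w z
    have e : 3 * K * s ^ 4 ≤ 3 * K * s ^ 3 := mul_le_mul_of_nonneg_left s43 (by positivity)
    linarith
  have kv' : |v + w + z| ≤ 5 * K * s ^ 2 := by
    have := abs_add_le v (w + z)
    have e : 4 * K * s ^ 3 ≤ 4 * K * s ^ 2 := mul_le_mul_of_nonneg_left s32 (by positivity)
    rw [← add_assoc] at this
    linarith
  set y := u + v + w + z with hy
  have ky : |y| ≤ 6 * K * s := by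
    have := abs_add_le u (v + w + z)
    have e : 5 * K * s ^ 2 ≤ 5 * K * s := mul_le_mul_of_nonneg_left s21 (by positivity)
    have e2 : u + (v + w + z) = y := by rw [hy]; ring
    rw [e2] at this
    linarith
  have ky2 : |y| ≤ 1 / 2 := by
    have : 6 * K * s ≤ 6 * K * P := by
      refine mul_le_mul_of_nonneg_left ?_ (by positivity)
      calc t * P ≤ 1 * P := mul_le_mul_of_nonneg_right ht1 hP0.le
        _ = P := one_mul _
    linarith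
  
  have hlog : |Real.log (1 + y) - (y - y ^ 2 / 2 + y ^ 3 / 3)| ≤ 2 * (6 * K * s) ^ 4 := by
    have h1 := Real.abs_log_sub_add_sum_range_le (x := -y) (by rw [abs_neg]; linarith) 3
    simp only [Finset.sum_range_succ, Finset.sum_range_zero] at h1
    rw [abs_neg, sub_neg_eq_add] at h1
    have h2 : |y| ^ (3 + 1) / (1 - |y|) ≤ 2 * (6 * K * s) ^ 4 := by
      rw [div_le_iff₀ (by linarith)]
      have h3 : |y| ^ 4 ≤ (6 * K * s) ^ 4 := pow_le_pow_left₀ (abs_nonneg _) ky 4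
      have h4 : 0 ≤ (6 * K * s) ^ 4 := by positivity
      show |y| ^ 4 ≤ 2 * (6 * K * s) ^ 4 * (1 - |y|)
      nlinarith
    refine le_trans (le_of_eq ?_) (h1.trans h2)
    congr 1
    push_cast
    ring
  
  have m1 : |u * (w + z)| ≤ 4 * K ^ 2 * s ^ 4 := by
    rw [abs_mul]
    calc |u| * |w + z| ≤ (K * s) * (4 * K * s ^ 3) := mul_le_mul k1 kwz (abs_nonneg _) (by positivity)
      _ = _ := by ring
  have m2 : |(v + w + z) ^ 2| ≤ 25 * K ^ 2 * s ^ 4 := by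
    rw [abs_pow]
    calc |v + w + z| ^ 2 ≤ (5 * K * s ^ 2) ^ 2 := pow_le_pow_left₀ (abs_nonneg _) kv' 2
      _ = _ := by ring
  have m3 : |(v + w + z) * (y ^ 2 + y * u + u ^ 2)| ≤ 540 * K ^ 3 * s ^ 4 := by
    rw [abs_mul]
    have ku : |u| ≤ 6 * K * s := by nlinarith [mul_pos hK0 hs0]
    have c1 : |y ^ 2| ≤ (6 * K * s) ^ 2 := by rw [abs_pow]; exact pow_le_pow_left₀ (abs_nonneg _) ky 2
    have c2 : |u ^ 2| ≤ (6 * K * s) ^ 2 := by rw [abs_pow]; exact pow_le_pow_left₀ (abs_nonneg _) ku 2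
    have c3 : |y * u| ≤ (6 * K * s) ^ 2 := by
      rw [abs_mul, sq]; exact mul_le_mul ky ku (abs_nonneg _) (by positivity)
    have c4 : |y ^ 2 + y * u + u ^ 2| ≤ 3 * (6 * K * s) ^ 2 := by
      have d1 := abs_add_le (y ^ 2 + y * u) (u ^ 2)
      have d2 := abs_add_le (y ^ 2) (y * u)
      linarith
    calc |v + w + z| * |y ^ 2 + y * u + u ^ 2| ≤ (5 * K * s ^ 2) * (3 * (6 * K * s) ^ 2) :=
          mul_le_mul kv' c4 (abs_nonneg _) (by positivity)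
      _ = _ := by ring
  have hpoly : |(y - y ^ 2 / 2 + y ^ 3 / 3) - (t * x 1 n + t ^ 2 * (x 2 n - 1 / 2 * (x 1 n * x 1 n))
        + t ^ 3 * (x 3 n - x 1 n * x 2 n + 1 / 3 * (x 1 n * x 1 n * x 1 n)))| ≤ 200 * K ^ 3 * s ^ 4 := by
    have e : (y - y ^ 2 / 2 + y ^ 3 / 3) - (t * x 1 n + t ^ 2 * (x 2 n - 1 / 2 * (x 1 n * x 1 n))
        + t ^ 3 * (x 3 n - x 1 n * x 2 n + 1 / 3 * (x 1 n * x 1 n * x 1 n))) =
        z - u * (w + z) - (v + w + z) ^ 2 / 2 + (v + w + z) * (y ^ 2 + y * u + u ^ 2) / 3 := by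
      rw [hy, hu, hv, hw]; ring
    rw [e]
    have s4 : 0 < s ^ 4 := pow_pos hs0 4
    have K2 : K ^ 2 ≤ K ^ 3 := pow_le_pow_right₀ hK (by norm_num)
    have K1 : K ≤ K ^ 3 := by
      calc K = K ^ 1 := (pow_one K).symm
        _ ≤ K ^ 3 := pow_le_pow_right₀ hK (by norm_num)
    have n1 : K * s ^ 4 ≤ K ^ 3 * s ^ 4 := mul_le_mul_of_nonneg_right K1 s4.le
    have n2 : K ^ 2 * s ^ 4 ≤ K ^ 3 * s ^ 4 := mul_le_mul_of_nonneg_right K2 s4.le
    rw [abs_le] at *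
    constructor <;> linarith [kz.1, kz.2, m1.1, m1.2, m2.1, m2.2, m3.1, m3.2]
  have hs4 : s ^ 4 = t ^ 4 * pw (4 / 3) n := by
    rw [hs, mul_pow, hP, e2_pw_pow]; norm_num
  rw [hX, ← hs4]
  calc |Real.log (1 + y) - (t * x 1 n + t ^ 2 * (x 2 n - 1 / 2 * (x 1 n * x 1 n))
        + t ^ 3 * (x 3 n - x 1 n * x 2 n + 1 / 3 * (x 1 n * x 1 n * x 1 n)))| ≤
      |Real.log (1 + y) - (y - y ^ 2 / 2 + y ^ 3 / 3)| +
      |(y - y ^ 2 / 2 + y ^ 3 / 3) - (t * x 1 n + t ^ 2 * (x 2 n - 1 / 2 * (x 1 n * x 1 n))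
        + t ^ 3 * (x 3 n - x 1 n * x 2 n + 1 / 3 * (x 1 n * x 1 n * x 1 n)))| := by
        refine le_trans (le_of_eq ?_) (abs_add_le _ _)
        congr 1; ring
    _ ≤ 2 * (6 * K * s) ^ 4 + 200 * K ^ 3 * s ^ 4 := add_le_add hlog hpoly
    _ = (200 * K ^ 3 + 2592 * K ^ 4) * s ^ 4 := by ring

end Pool.Agent.Helper615.LogA
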