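import Mathlib
import Pool.Agent.Helper615.LogA.Defs
import Pool.Agent.Helper615.LogA.P1
import Pool.Agent.Helper615.LogA.P2
set_option autoImplicit false

namespace Pool.Agent.Helper615.LogA

open Filter Asymptotics
lemma e3_E3_pos (e : ℝ) (n : ℕ) : 0 < pw e n := Real.exp_pos _
lemma e3_E3_add (a b : ℝ) (n : ℕ) : pw (a + b) n = pw a n * pw b n := by
  unfold pw; rw [← Real.exp_add]; congr 1; ring
lemma e3_E3_pow (a : ℝ) (p : ℕ) (n : ℕ) : pw a n ^ p = pw (p * a) n := by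
  unfold pw; rw [← Real.exp_nat_mul]; congr 1; ring
lemma e3_E3_anti {a b : ℝ} (h : a ≤ b) (n : ℕ) : pw b n ≤ pw a n := by
  unfold pw
  apply Real.exp_le_exp.2
  have := Real.log_natCast_nonneg n
  nlinarith
lemma e3_E3_bd {q : ℝ} {u : ℕ → ℝ} (hu : u ∈ PW q) : ∃ C : ℝ, 0 ≤ C ∧ ∀ n, |u n| ≤ C * pw q n := by
  unfold PW at hu
  induction hu using Submodule.span_induction with
  | mem x hx =>
    obtain ⟨e, he, rfl⟩ := hx
    refine ⟨1, zero_le_one, fun n => ?_⟩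
    rw [abs_of_pos (e3_E3_pos _ _), one_mul]
    exact e3_E3_anti he n
  | zero => exact ⟨0, le_rfl, fun n => by simp⟩
  | add x y _ _ hx hy =>
    obtain ⟨C, hC, hCb⟩ := hx
    obtain ⟨D, hD, hDb⟩ := hy
    refine ⟨C + D, by positivity, fun n => ?_⟩
    rw [Pi.add_apply, add_mul]
    exact (abs_add_le _ _).trans (add_le_add (hCb n) (hDb n))
  | smul a x _ hx =>
    obtain ⟨C, hC, hCb⟩ := hx
    refine ⟨|a| * C, by positivity, fun n => ?_⟩
    rw [Pi.smul_apply, smul_eq_mul, abs_mul, mul_assoc]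
    exact mul_le_mul_of_nonneg_left (hCb n) (abs_nonneg _)
lemma e3_E3_UU_mono {w w' : ℝ} (h : w ≤ w') : UU w' ≤ UU w := by
  unfold UU
  apply Submodule.span_mono
  rintro F ⟨p, q, hq, rfl⟩
  exact ⟨p, q, h.trans hq, rfl⟩
lemma e3_E3_UU {q : ℝ} {u : ℕ → ℝ} (hu : u ∈ PW q) (p : ℕ) :
    (fun (m : ℕ) (t : ℝ) => t ^ p * u m) ∈ UU (q + 2 * p / 3) := by
  unfold PW at hu
  induction hu using Submodule.span_induction with
  | mem x hx =>
    obtain ⟨e, he, rfl⟩ := hx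
    unfold UU
    apply Submodule.subset_span
    refine ⟨p, e + 2 * p / 3, by linarith, ?_⟩
    ext m t
    rw [mul_pow, e3_E3_pow, mul_assoc, ← e3_E3_add]
    congr 2
    ring
  | zero =>
    have : (fun (m : ℕ) (t : ℝ) => t ^ p * (0 : ℕ → ℝ) m) = 0 := by
      ext m t; simp
    rw [this]
    exact Submodule.zero_mem _
  | add x y _ _ hx hy =>
    have : (fun (m : ℕ) (t : ℝ) => t ^ p * (x + y) m) =
        (fun (m : ℕ) (t : ℝ) => t ^ p * x m) + (fun (m : ℕ) (t : ℝ) => t ^ p * y m) := by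
      ext m t; simp [mul_add]
    rw [this]
    exact Submodule.add_mem _ hx hy
  | smul a x _ hx =>
    have : (fun (m : ℕ) (t : ℝ) => t ^ p * (a • x) m) =
        a • (fun (m : ℕ) (t : ℝ) => t ^ p * x m) := by
      ext m t; simp; ring
    rw [this]
    exact Submodule.smul_mem _ _ hx
lemma e3_E3_log (n : ℕ) : |Real.log n| ≤ 3 / 2 * pw (-(2/3)) n := by
  have h := Real.log_natCast_nonneg n
  rw [abs_of_nonneg h]
  unfold pw
  have := Real.add_one_le_exp (-(-(2/3) * Real.log (n : ℝ)))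
  linarith
lemma e3_E3_O {f : ℕ → ℝ} (h : f =O[atTop] pw 12) :
    ∃ C : ℝ, 0 ≤ C ∧ ∀ᶠ n : ℕ in atTop, |f n| ≤ C * pw 11 n := by
  obtain ⟨C, hC, hb⟩ := h.exists_nonneg
  refine ⟨C, hC, ?_⟩
  filter_upwards [hb.bound] with n hn
  rw [Real.norm_eq_abs, Real.norm_eq_abs, abs_of_pos (e3_E3_pos _ _)] at hn
  refine hn.trans ?_
  exact mul_le_mul_of_nonneg_left (e3_E3_anti (by norm_num) n) hC
set_option maxHeartbeats 4000000 in
theorem exists_phase (f₀ δ : ℝ) (hf₀ : 0 < f₀) (hδ : 0 < δ) (hδ' : δ ≤ 1 / 4) (Y₁ Y₂ Y₃ : ℕ → ℝ)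
    (h1 : (Y₁ - (f₀ / 2) • pw (1/3)) ∈ PW (1/3 + δ)) (h2 : Y₂ ∈ PW (5/3))
    (h3 : (Y₃ + (f₀ ^ 3 / 48) • pw 1) ∈ PW (1 + δ)) :
    ∃ (μ : ℝ) (Φ U : ℕ → ℝ → ℝ) (c : ℕ → ℕ → ℝ), U ∈ UU δ ∧
      (∀ n t, Φ n t = 3 / 2 * f₀ * (t * pw (-(2/3)) n) + U n t + μ * t * Real.log n
        - f₀ ^ 3 / 24 * t ^ 3 * Real.log n) ∧
      (∃ C : ℝ, ∀ (n : ℕ) (t : ℝ), 1 ≤ n → 0 < t → t ≤ 1 → |U n t| ≤ C * t * pw (-(2/3) + δ) n) ∧
      (∃ C : ℝ, ∀ᶠ n : ℕ in atTop, ∀ t : ℝ, 0 < t → t ≤ 1 →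
        |t * Y₁ n + t ^ 2 * Y₂ n + t ^ 3 * Y₃ n - 1 / 2 * (Φ (n + 1) t - Φ n t)| ≤ C * (t * pw 11 n)) ∧
      (∀ n t, Φ n t = ∑ i ∈ Finset.Icc 1 3, c n i * t ^ i) ∧
      (∀ i, 1 ≤ i → i ≤ 3 → ∃ C : ℝ, ∀ᶠ n : ℕ in atTop, |c n i| ≤ C * pw (-(2/3)) n ^ i) := by
  obtain ⟨ya, hya, hyaO⟩ := antidiff_ne (1/3) (by norm_num)
  obtain ⟨μ₁, yb, hyb, _, hybO⟩ := antidiff h1
  obtain ⟨μ₂, y₂, hy₂, hμ₂, hy₂O⟩ := antidiff h2
  obtain ⟨yc, hyc, hycO⟩ := antidiff_one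
  obtain ⟨μ₃, yd, hyd, hμ₃, hydO⟩ := antidiff h3
  have hμ₂' : μ₂ = 0 := hμ₂ (by norm_num)
  have hμ₃' : μ₃ = 0 := hμ₃ (by linarith)
  subst hμ₂' hμ₃'
  set y₁ : ℕ → ℝ := (f₀ / 2) • (ya - (1 / (1 - 1/3) : ℝ) • pw (1/3 - 1)) + yb with hy₁
  set y₃ : ℕ → ℝ := (-(f₀ ^ 3 / 48)) • yc + yd with hy₃
  have m1 : y₁ ∈ PW (-(2/3) + δ) := by
    rw [hy₁]
    apply Submodule.add_mem
    · apply Submodule.smul_mem
      exact PW.mono (by linarith) hya
    · exact PW.mono (by linarith) hyb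
  have m2 : y₂ ∈ PW (2/3) := PW.mono (by linarith) hy₂
  have m3 : y₃ ∈ PW δ := by
    rw [hy₃]
    apply Submodule.add_mem
    · apply Submodule.smul_mem
      exact PW.mono (by linarith) hyc
    · exact PW.mono (by linarith) hyd
  have hpw13 : ∀ n, pw (1/3 - 1) n = pw (-(2/3)) n := by
    intro n; congr 1; norm_num
  have hya' : ∀ n, (f₀ / 2) * ya n + yb n = 3 / 4 * f₀ * pw (-(2/3)) n + y₁ n := by
    intro n
    rw [hy₁]
    simp only [Pi.add_apply, Pi.smul_apply, Pi.sub_apply, smul_eq_mul]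
    rw [hpw13]
    ring
  have hy₃' : ∀ n, y₃ n = -(f₀ ^ 3 / 48) * yc n + yd n := by
    intro n
    rw [hy₃]
    simp only [Pi.add_apply, Pi.smul_apply, smul_eq_mul]
  set U : ℕ → ℝ → ℝ := fun n t => 2 * t * y₁ n + 2 * t ^ 2 * y₂ n + 2 * t ^ 3 * y₃ n with hU
  set Φ : ℕ → ℝ → ℝ := fun n t => 3 / 2 * f₀ * (t * pw (-(2/3)) n) + U n t +
    (2 * μ₁) * t * Real.log n - f₀ ^ 3 / 24 * t ^ 3 * Real.log n with hΦ
  set c : ℕ → ℕ → ℝ := fun n i => if i = 1 then 3 / 2 * f₀ * pw (-(2/3)) n + 2 * y₁ n +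
    2 * μ₁ * Real.log n else if i = 2 then 2 * y₂ n else 2 * y₃ n - f₀ ^ 3 / 24 * Real.log n with hc
  obtain ⟨C1, hC1, hb1⟩ := e3_E3_bd m1
  obtain ⟨C2, hC2, hb2⟩ := e3_E3_bd m2
  obtain ⟨C3, hC3, hb3⟩ := e3_E3_bd m3
  refine ⟨2 * μ₁, Φ, U, c, ?_, ?_, ?_, ?_, ?_, ?_⟩
  · have u1 := e3_E3_UU_mono (w := δ) (by push_cast; linarith) (e3_E3_UU m1 1)
    have u2 := e3_E3_UU_mono (w := δ) (by push_cast; linarith) (e3_E3_UU m2 2)
    have u3 := e3_E3_UU_mono (w := δ) (by push_cast; linarith) (e3_E3_UU m3 3)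
    have e : U = (2 : ℝ) • (fun (m : ℕ) (t : ℝ) => t ^ 1 * y₁ m) +
        (2 : ℝ) • (fun (m : ℕ) (t : ℝ) => t ^ 2 * y₂ m) +
        (2 : ℝ) • (fun (m : ℕ) (t : ℝ) => t ^ 3 * y₃ m) := by
      ext m t
      simp only [hU, Pi.add_apply, Pi.smul_apply, smul_eq_mul]
      ring
    rw [e]
    exact Submodule.add_mem _ (Submodule.add_mem _ (Submodule.smul_mem _ _ u1)
      (Submodule.smul_mem _ _ u2)) (Submodule.smul_mem _ _ u3)
  · intro n t
    rfl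
  · refine ⟨2 * C1 + 2 * C2 + 2 * C3, ?_⟩
    intro n t hn ht ht1
    simp only [hU]
    have p0 := e3_E3_pos (-(2/3) + δ) n
    have q2 : |y₂ n| ≤ C2 * pw (-(2/3) + δ) n :=
      (hb2 n).trans (mul_le_mul_of_nonneg_left (e3_E3_anti (by linarith) n) hC2)
    have q3 : |y₃ n| ≤ C3 * pw (-(2/3) + δ) n :=
      (hb3 n).trans (mul_le_mul_of_nonneg_left (e3_E3_anti (by linarith) n) hC3)
    have t2 : t ^ 2 ≤ t := by nlinarith
    have t3 : t ^ 3 ≤ t := by nlinarith [mul_pos ht ht]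
    have a1 : |2 * t * y₁ n| ≤ 2 * t * (C1 * pw (-(2/3) + δ) n) := by
      rw [abs_mul, abs_of_pos (by positivity)]
      exact mul_le_mul_of_nonneg_left (hb1 n) (by positivity)
    have a2 : |2 * t ^ 2 * y₂ n| ≤ 2 * t * (C2 * pw (-(2/3) + δ) n) := by
      rw [abs_mul, abs_of_pos (by positivity)]
      have : 0 ≤ |y₂ n| := abs_nonneg _
      calc 2 * t ^ 2 * |y₂ n| ≤ 2 * t * |y₂ n| := by gcongr
        _ ≤ _ := mul_le_mul_of_nonneg_left q2 (by positivity)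
    have a3 : |2 * t ^ 3 * y₃ n| ≤ 2 * t * (C3 * pw (-(2/3) + δ) n) := by
      rw [abs_mul, abs_of_pos (by positivity)]
      have : 0 ≤ |y₃ n| := abs_nonneg _
      calc 2 * t ^ 3 * |y₃ n| ≤ 2 * t * |y₃ n| := by gcongr
        _ ≤ _ := mul_le_mul_of_nonneg_left q3 (by positivity)
    have a4 := abs_add_le (2 * t * y₁ n + 2 * t ^ 2 * y₂ n) (2 * t ^ 3 * y₃ n)
    have a5 := abs_add_le (2 * t * y₁ n) (2 * t ^ 2 * y₂ n)
    have a6 : (2 * C1 + 2 * C2 + 2 * C3) * t * pw (-(2/3) + δ) n =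
      2 * t * (C1 * pw (-(2/3) + δ) n) + 2 * t * (C2 * pw (-(2/3) + δ) n) +
        2 * t * (C3 * pw (-(2/3) + δ) n) := by ring
    rw [a6]
    linarith
  · obtain ⟨Ka, hKa, ha⟩ := e3_E3_O hyaO
    obtain ⟨Kb, hKb, hb⟩ := e3_E3_O hybO
    obtain ⟨K2, hK2, h2'⟩ := e3_E3_O hy₂O
    obtain ⟨Kc, hKc, hc'⟩ := e3_E3_O hycO
    obtain ⟨Kd, hKd, hd⟩ := e3_E3_O hydO
    refine ⟨f₀ / 2 * Ka + Kb + K2 + f₀ ^ 3 / 48 * Kc + Kd, ?_⟩
    filter_upwards [ha, hb, h2', hc', hd] with n ha hb h2' hc' hd t ht ht1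
    simp only [Pi.sub_apply, Pi.add_apply, Pi.smul_apply, smul_eq_mul, zero_mul, add_zero]
      at ha hb h2' hc' hd
    have t2 : t ^ 2 ≤ t := by nlinarith
    have t3 : t ^ 3 ≤ t := by nlinarith [mul_pos ht ht]
    have hcast : ((n + 1 : ℕ) : ℝ) = (n : ℝ) + 1 := by push_cast; ring
    set P := pw 11 n with hP
    have hP0 : 0 < P := e3_E3_pos _ _
    have key : t * Y₁ n + t ^ 2 * Y₂ n + t ^ 3 * Y₃ n - 1 / 2 * (Φ (n + 1) t - Φ n t) =
        -(t * (f₀ / 2) * (ya (n + 1) - ya n - pw (1/3) n)) +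
        -(t * (yb (n + 1) - yb n + μ₁ * (Real.log (n + 1) - Real.log n) -
            (Y₁ n - f₀ / 2 * pw (1/3) n))) +
        -(t ^ 2 * (y₂ (n + 1) - y₂ n - Y₂ n)) +
        (t ^ 3 * (f₀ ^ 3 / 48) * (Real.log (n + 1) + yc (n + 1) - Real.log n - yc n - pw 1 n)) +
        -(t ^ 3 * (yd (n + 1) - yd n - (Y₃ n + f₀ ^ 3 / 48 * pw 1 n))) := by
      simp only [hΦ, hU, hcast]
      have g1 := hya' n
      have g2 := hya' (n + 1)
      have g3 := hy₃' n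
      have g4 := hy₃' (n + 1)
      rw [g3, g4]
      linear_combination t * g2 - t * g1
    rw [key]
    have b1 : |-(t * (f₀ / 2) * (ya (n + 1) - ya n - pw (1/3) n))| ≤ t * (f₀ / 2) * (Ka * P) := by
      rw [abs_neg, abs_mul, abs_of_pos (by positivity)]
      exact mul_le_mul_of_nonneg_left ha (by positivity)
    have b2 : |-(t * (yb (n + 1) - yb n + μ₁ * (Real.log (n + 1) - Real.log n) -
            (Y₁ n - f₀ / 2 * pw (1/3) n)))| ≤ t * (Kb * P) := by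
      rw [abs_neg, abs_mul, abs_of_pos ht]
      exact mul_le_mul_of_nonneg_left hb (by positivity)
    have b3 : |-(t ^ 2 * (y₂ (n + 1) - y₂ n - Y₂ n))| ≤ t * (K2 * P) := by
      rw [abs_neg, abs_mul, abs_of_pos (by positivity)]
      exact mul_le_mul t2 h2' (abs_nonneg _) ht.le
    have b4 : |t ^ 3 * (f₀ ^ 3 / 48) * (Real.log (n + 1) + yc (n + 1) - Real.log n - yc n - pw 1 n)| ≤
        t * (f₀ ^ 3 / 48) * (Kc * P) := by
      rw [abs_mul, abs_of_pos (by positivity)]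
      exact mul_le_mul (by gcongr) hc' (abs_nonneg _) (by positivity)
    have b5 : |-(t ^ 3 * (yd (n + 1) - yd n - (Y₃ n + f₀ ^ 3 / 48 * pw 1 n)))| ≤ t * (Kd * P) := by
      rw [abs_neg, abs_mul, abs_of_pos (by positivity)]
      exact mul_le_mul t3 hd (abs_nonneg _) ht.le
    refine (abs_add_le _ _).trans ?_
    refine (add_le_add ((abs_add_le _ _).trans (add_le_add ((abs_add_le _ _).trans
      (add_le_add ((abs_add_le _ _).trans (add_le_add b1 b2)) b3)) b4)) b5).trans (le_of_eq ?_)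
    ring
  · intro n t
    have : Finset.Icc 1 3 = ({1, 2, 3} : Finset ℕ) := by decide
    rw [this]
    rw [Finset.sum_insert (by decide), Finset.sum_insert (by decide), Finset.sum_singleton]
    simp only [hΦ, hU, hc]
    norm_num
    ring
  · intro i hi1 hi3
    have hpb : ∀ n : ℕ, 1 ≤ pw (-(2/3)) n := by
      intro n
      have h5 := e3_E3_anti (a := -(2/3)) (b := 0) (by norm_num) n
      have h6 : pw 0 n = 1 := by unfold pw; simp
      linarith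
    interval_cases i
    · refine ⟨3 / 2 * f₀ + 2 * C1 + 2 * |μ₁| * (3 / 2), Filter.Eventually.of_forall fun n => ?_⟩
      simp only [hc, if_true, pow_one]
      have p0 := e3_E3_pos (-(2/3)) n
      have a1 : |3 / 2 * f₀ * pw (-(2/3)) n| ≤ 3 / 2 * f₀ * pw (-(2/3)) n :=
        le_of_eq (abs_of_pos (by positivity))
      have a2 : |2 * y₁ n| ≤ 2 * (C1 * pw (-(2/3)) n) := by
        rw [abs_mul, abs_two]
        have := (hb1 n).trans (mul_le_mul_of_nonneg_left (e3_E3_anti (a := -(2/3)) (by linarith) n) hC1)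
        linarith
      have a3 : |2 * μ₁ * Real.log n| ≤ 2 * |μ₁| * (3 / 2 * pw (-(2/3)) n) := by
        rw [abs_mul, abs_mul, abs_two]
        exact mul_le_mul_of_nonneg_left (e3_E3_log n) (by positivity)
      refine (abs_add_le _ _).trans ?_
      refine (add_le_add ((abs_add_le _ _).trans (add_le_add a1 a2)) a3).trans (le_of_eq ?_)
      ring
    · refine ⟨2 * C2, Filter.Eventually.of_forall fun n => ?_⟩
      have e : c n 2 = 2 * y₂ n := by simp [hc]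
      rw [e, abs_mul, abs_two, e3_E3_pow]
      have := (hb2 n).trans (mul_le_mul_of_nonneg_left
        (e3_E3_anti (a := ((2 : ℕ) : ℝ) * -(2/3)) (by push_cast; linarith) n) hC2)
      linarith
    · refine ⟨2 * C3 + f₀ ^ 3 / 24 * (3 / 2), Filter.Eventually.of_forall fun n => ?_⟩
      have e : c n 3 = 2 * y₃ n - f₀ ^ 3 / 24 * Real.log n := by simp [hc]
      rw [e]
      have p0 := e3_E3_pos (-(2/3)) n
      have a2 : |2 * y₃ n| ≤ 2 * (C3 * pw (-(2/3)) n ^ 3) := by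
        rw [abs_mul, abs_two, e3_E3_pow]
        have := (hb3 n).trans (mul_le_mul_of_nonneg_left
          (e3_E3_anti (a := ((3 : ℕ) : ℝ) * -(2/3)) (by push_cast; linarith) n) hC3)
        linarith
      have a3 : |f₀ ^ 3 / 24 * Real.log n| ≤ f₀ ^ 3 / 24 * (3 / 2 * pw (-(2/3)) n ^ 3) := by
        rw [abs_mul, abs_of_pos (by positivity)]
        refine mul_le_mul_of_nonneg_left ((e3_E3_log n).trans ?_) (by positivity)
        have h7 : pw (-(2/3)) n ≤ pw (-(2/3)) n ^ 3 := by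
          have := hpb n
          calc pw (-(2/3)) n = pw (-(2/3)) n ^ 1 := (pow_one _).symm
            _ ≤ _ := pow_le_pow_right₀ this (by norm_num)
        gcongr
      refine (abs_sub _ _).trans ?_
      refine (add_le_add a2 a3).trans (le_of_eq ?_)
      ring

end Pool.Agent.Helper615.LogA
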