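import Mathlib
import Pool.Agent.Helper615.LogA.Defs
set_option autoImplicit false

namespace Pool.Agent.Helper615.LogA

open Filter Asymptotics
theorem g1_pw_pos (e : ℝ) (n : ℕ) : 0 < pw e n := Real.exp_pos _
theorem An.get {F : ℕ → ℝ → ℝ} (hF : An F) (J : ℕ) : ∃ (C : ℝ) (a : ℕ → ℕ → ℝ), 0 ≤ C ∧
    ∀ᶠ K : ℕ in atTop, (∀ j ≤ J, |a K j| ≤ C * pw (-(2/3)) K ^ j) ∧
    ∀ t : ℝ, 0 < t → t * pw (-(2/3)) K ≤ 1 →
      |F K t - ∑ j ∈ Finset.range (J + 1), a K j * t ^ j| ≤ C * (t * pw (-(2/3)) K) ^ (J + 1) := by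
  obtain ⟨C, a, h⟩ := hF J
  refine ⟨C, a, ?_, h⟩
  obtain ⟨K, hK, -⟩ := h.exists
  have := hK 0 (Nat.zero_le _)
  rw [pow_zero, mul_one] at this
  exact (abs_nonneg _).trans this
theorem g1_term_le {a C L t : ℝ} {j : ℕ} (h : |a| ≤ C * L ^ j) (ht : 0 < t) :
    |a * t ^ j| ≤ C * (t * L) ^ j := by
  rw [abs_mul, abs_of_pos (pow_pos ht j), mul_pow]
  calc |a| * t ^ j ≤ C * L ^ j * t ^ j := by gcongr
    _ = _ := by ring
theorem g1_poly_le {a : ℕ → ℝ} {C L t : ℝ} {J : ℕ} (hC : 0 ≤ C) (hL : 0 < L)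
    (h : ∀ j ≤ J, |a j| ≤ C * L ^ j) (ht : 0 < t) (h1 : t * L ≤ 1) :
    |∑ j ∈ Finset.range (J + 1), a j * t ^ j| ≤ (J + 1) * C := by
  refine (Finset.abs_sum_le_sum_abs _ _).trans ?_
  have h2 : ∀ j ∈ Finset.range (J + 1), |a j * t ^ j| ≤ C := by
    intro j hj
    refine (g1_term_le (h j (by simpa [Nat.lt_succ_iff] using hj)) ht).trans ?_
    have : (t * L) ^ j ≤ 1 := pow_le_one₀ (by positivity) h1
    nlinarith
  refine (Finset.sum_le_sum h2).trans ?_
  rw [Finset.sum_const, Finset.card_range, nsmul_eq_mul]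
  push_cast
  exact le_rfl
theorem An.add {F G : ℕ → ℝ → ℝ} (hF : An F) (hG : An G) : An (fun K t => F K t + G K t) := by
  intro J
  obtain ⟨C1, a, hC1, h1⟩ := hF.get J
  obtain ⟨C2, b, hC2, h2⟩ := hG.get J
  refine ⟨C1 + C2, fun K j => a K j + b K j, ?_⟩
  filter_upwards [h1, h2] with K h1 h2
  refine ⟨fun j hj => ?_, fun t ht htL => ?_⟩
  · refine (abs_add_le _ _).trans ?_
    have := add_le_add (h1.1 j hj) (h2.1 j hj)
    linarith
  · have e : F K t + G K t - ∑ j ∈ Finset.range (J + 1), (a K j + b K j) * t ^ j =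
      (F K t - ∑ j ∈ Finset.range (J + 1), a K j * t ^ j) +
      (G K t - ∑ j ∈ Finset.range (J + 1), b K j * t ^ j) := by
      simp only [add_mul, Finset.sum_add_distrib]
      ring
    simp only [e]
    refine (abs_add_le _ _).trans ?_
    have := add_le_add (h1.2 t ht htL) (h2.2 t ht htL)
    linarith
theorem An.mul {F G : ℕ → ℝ → ℝ} (hF : An F) (hG : An G) : An (fun K t => F K t * G K t) := by
  classical
  intro J
  obtain ⟨C1, a, hC1, h1⟩ := hF.get J
  obtain ⟨C2, b, hC2, h2⟩ := hG.get J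
  obtain ⟨s, hs⟩ : ∃ s, s = Finset.range (J + 1) ×ˢ Finset.range (J + 1) := ⟨_, rfl⟩
  have hcard : ∀ p : ℕ × ℕ → Prop, ∀ [DecidablePred p],
      ((s.filter p).card : ℝ) ≤ ((J : ℝ) + 1) ^ 2 := by
    intro p _
    have h3 : (s.filter p).card ≤ s.card := Finset.card_filter_le _ _
    have h4 : s.card = (J + 1) ^ 2 := by rw [hs, Finset.card_product, Finset.card_range, sq]
    rw [h4] at h3
    exact_mod_cast h3
  refine ⟨C1 * C2 * (((J : ℝ) + 2) + (J + 1) + (J + 1) ^ 2),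
    fun K k => ∑ p ∈ (s.filter fun p => p.1 + p.2 < J + 1).filter (fun p => p.1 + p.2 = k),
      a K p.1 * b K p.2, ?_⟩
  filter_upwards [h1, h2] with K h1 h2
  have hL := g1_pw_pos (-(2/3)) K
  obtain ⟨L, hLdef⟩ : ∃ L, L = pw (-(2/3)) K := ⟨_, rfl⟩
  rw [← hLdef] at h1 h2 hL ⊢
  have hCC : 0 ≤ C1 * C2 := mul_nonneg hC1 hC2
  have hJ : (0 : ℝ) ≤ J := Nat.cast_nonneg _
  have hmem : ∀ p ∈ s, p.1 ≤ J ∧ p.2 ≤ J := by
    intro p hp
    rw [hs, Finset.mem_product, Finset.mem_range, Finset.mem_range] at hp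
    omega
  refine ⟨fun k hk => ?_, fun t ht htL => ?_⟩
  · refine (Finset.abs_sum_le_sum_abs _ _).trans ?_
    have h3 : ∀ p ∈ (s.filter fun p => p.1 + p.2 < J + 1).filter (fun p => p.1 + p.2 = k),
        |a K p.1 * b K p.2| ≤ C1 * C2 * L ^ k := by
      intro p hp
      rw [Finset.mem_filter, Finset.mem_filter] at hp
      obtain ⟨⟨hp1, -⟩, hp2⟩ := hp
      have ha := h1.1 p.1 (hmem p hp1).1
      have hb := h2.1 p.2 (hmem p hp1).2
      rw [abs_mul, ← hp2, pow_add]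
      calc |a K p.1| * |b K p.2| ≤ (C1 * L ^ p.1) * (C2 * L ^ p.2) := by gcongr
        _ = _ := by ring
    refine (Finset.sum_le_sum h3).trans ?_
    rw [Finset.sum_const, nsmul_eq_mul, Finset.filter_filter]
    have h4 := hcard (fun p => p.1 + p.2 < J + 1 ∧ p.1 + p.2 = k)
    have h5 : 0 ≤ C1 * C2 * L ^ k := by positivity
    calc _ ≤ ((J : ℝ) + 1) ^ 2 * (C1 * C2 * L ^ k) := by gcongr
      _ = C1 * C2 * ((J : ℝ) + 1) ^ 2 * L ^ k := by ring
      _ ≤ _ := by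
        gcongr
        linarith
  · obtain ⟨u, hu⟩ : ∃ u, u = t * L := ⟨_, rfl⟩
    have hu0 : 0 < u := by rw [hu]; positivity
    have hPle := g1_poly_le hC1 hL h1.1 ht htL
    have hQle := g1_poly_le hC2 hL h2.1 ht htL
    have hF1 := h1.2 t ht htL
    have hG1 := h2.2 t ht htL
    rw [← hu] at htL hF1 hG1
    obtain ⟨Pv, hPv⟩ : ∃ Pv, Pv = ∑ j ∈ Finset.range (J + 1), a K j * t ^ j := ⟨_, rfl⟩
    obtain ⟨Qv, hQv⟩ : ∃ Qv, Qv = ∑ j ∈ Finset.range (J + 1), b K j * t ^ j := ⟨_, rfl⟩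
    rw [← hPv] at hPle hF1
    rw [← hQv] at hQle hG1
    have hu1 : u ^ (J + 1) ≤ 1 := pow_le_one₀ hu0.le htL
    have hGle : |G K t| ≤ (J + 2) * C2 := by
      have : G K t = (G K t - Qv) + Qv := by ring
      rw [this]
      refine (abs_add_le _ _).trans ?_
      have : C2 * u ^ (J + 1) ≤ C2 * 1 := by gcongr
      linarith
    
    have hPQ : Pv * Qv = ∑ p ∈ s, a K p.1 * b K p.2 * t ^ (p.1 + p.2) := by
      rw [hPv, hQv, Finset.sum_mul_sum, hs, Finset.sum_product]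
      refine Finset.sum_congr rfl fun i _ => Finset.sum_congr rfl fun j _ => ?_
      rw [pow_add]
      ring
    have hsum : ∑ k ∈ Finset.range (J + 1),
        (∑ p ∈ (s.filter fun p => p.1 + p.2 < J + 1).filter (fun p => p.1 + p.2 = k),
          a K p.1 * b K p.2) * t ^ k =
        ∑ p ∈ s.filter (fun p => p.1 + p.2 < J + 1), a K p.1 * b K p.2 * t ^ (p.1 + p.2) := by
      refine Eq.trans ?_ (Finset.sum_fiberwise_of_maps_to (t := Finset.range (J + 1))
        (g := fun p : ℕ × ℕ => p.1 + p.2) (s := s.filter (fun p : ℕ × ℕ => p.1 + p.2 < J + 1))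
        (fun p hp => by
          rw [Finset.mem_filter] at hp
          exact Finset.mem_range.2 hp.2) (fun p => a K p.1 * b K p.2 * t ^ (p.1 + p.2)))
      refine Finset.sum_congr rfl fun k _ => ?_
      rw [Finset.sum_mul]
      refine Finset.sum_congr rfl fun p hp => ?_
      rw [Finset.mem_filter] at hp
      rw [hp.2]
    have hsplit := Finset.sum_filter_add_sum_filter_not s (fun p : ℕ × ℕ => p.1 + p.2 < J + 1)
      (fun p => a K p.1 * b K p.2 * t ^ (p.1 + p.2))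
    have hrest : |∑ p ∈ s.filter (fun p : ℕ × ℕ => ¬ p.1 + p.2 < J + 1),
        a K p.1 * b K p.2 * t ^ (p.1 + p.2)| ≤ C1 * C2 * ((J : ℝ) + 1) ^ 2 * u ^ (J + 1) := by
      refine (Finset.abs_sum_le_sum_abs _ _).trans ?_
      have h3 : ∀ p ∈ s.filter (fun p : ℕ × ℕ => ¬ p.1 + p.2 < J + 1),
          |a K p.1 * b K p.2 * t ^ (p.1 + p.2)| ≤ C1 * C2 * u ^ (J + 1) := by
        intro p hp
        rw [Finset.mem_filter] at hp
        have ha := g1_term_le (h1.1 p.1 (hmem p hp.1).1) ht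
        have hb := g1_term_le (h2.1 p.2 (hmem p hp.1).2) ht
        have e : a K p.1 * b K p.2 * t ^ (p.1 + p.2) = (a K p.1 * t ^ p.1) * (b K p.2 * t ^ p.2) := by
          rw [pow_add]; ring
        rw [e, abs_mul]
        rw [← hu] at ha hb
        calc |a K p.1 * t ^ p.1| * |b K p.2 * t ^ p.2| ≤ (C1 * u ^ p.1) * (C2 * u ^ p.2) := by
              gcongr
          _ = C1 * C2 * u ^ (p.1 + p.2) := by rw [pow_add]; ring
          _ ≤ _ := by
            have : u ^ (p.1 + p.2) ≤ u ^ (J + 1) := pow_le_pow_of_le_one hu0.le htL (by omega)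
            gcongr
      refine (Finset.sum_le_sum h3).trans ?_
      rw [Finset.sum_const, nsmul_eq_mul]
      have h4 := hcard (fun p => ¬ p.1 + p.2 < J + 1)
      have h5 : 0 ≤ C1 * C2 * u ^ (J + 1) := by positivity
      calc _ ≤ ((J : ℝ) + 1) ^ 2 * (C1 * C2 * u ^ (J + 1)) := by gcongr
        _ = _ := by ring
    simp only [hsum]
    rw [← hu]
    have e : F K t * G K t - ∑ p ∈ s.filter (fun p : ℕ × ℕ => p.1 + p.2 < J + 1),
        a K p.1 * b K p.2 * t ^ (p.1 + p.2) = (F K t - Pv) * G K t + Pv * (G K t - Qv) +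
        ∑ p ∈ s.filter (fun p : ℕ × ℕ => ¬ p.1 + p.2 < J + 1),
        a K p.1 * b K p.2 * t ^ (p.1 + p.2) := by
      rw [← hPQ] at hsplit
      linarith
    rw [e]
    refine (abs_add_le _ _).trans ?_
    have e1 : |(F K t - Pv) * G K t + Pv * (G K t - Qv)| ≤
        (C1 * u ^ (J + 1)) * ((J + 2) * C2) + ((J + 1) * C1) * (C2 * u ^ (J + 1)) := by
      refine (abs_add_le _ _).trans ?_
      rw [abs_mul, abs_mul]
      gcongr
    refine (add_le_add e1 hrest).trans (le_of_eq ?_)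
    ring
theorem An.monomial (c : ℕ → ℝ) (j : ℕ) (h : ∃ C : ℝ, ∀ᶠ K : ℕ in atTop,
    |c K| ≤ C * pw (-(2/3)) K ^ j) : An (fun K t => c K * t ^ j) := by
  intro J
  obtain ⟨C, h⟩ := h
  refine ⟨|C|, fun K i => if i = j then c K else 0, ?_⟩
  filter_upwards [h] with K h
  have hL := g1_pw_pos (-(2/3)) K
  obtain ⟨L, hLdef⟩ : ∃ L, L = pw (-(2/3)) K := ⟨_, rfl⟩
  rw [← hLdef] at h hL ⊢
  have h' : |c K| ≤ |C| * L ^ j := h.trans (by gcongr; exact le_abs_self C)
  refine ⟨fun i hi => ?_, fun t ht htL => ?_⟩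
  · split_ifs with hij
    · rw [hij]; exact h'
    · rw [abs_zero]; positivity
  · have e : ∑ i ∈ Finset.range (J + 1), (if i = j then c K else 0) * t ^ i =
      if j ∈ Finset.range (J + 1) then c K * t ^ j else 0 := by
      rw [← Finset.sum_ite_eq' (Finset.range (J + 1)) j (fun i => c K * t ^ i)]
      refine Finset.sum_congr rfl fun i _ => ?_
      split_ifs <;> simp
    simp only [e]
    split_ifs with hj
    · rw [sub_self, abs_zero]; positivity
    · rw [sub_zero]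
      rw [Finset.mem_range, not_lt] at hj
      refine (g1_term_le h' ht).trans ?_
      have : (t * L) ^ j ≤ (t * L) ^ (J + 1) := pow_le_pow_of_le_one (by positivity) htL hj
      gcongr
theorem An.congr {F G : ℕ → ℝ → ℝ} (hF : An F) (h : ∀ᶠ K : ℕ in atTop, ∀ t : ℝ, 0 < t →
    t * pw (-(2/3)) K ≤ 1 → F K t = G K t) : An G := by
  intro J
  obtain ⟨C, a, h1⟩ := hF J
  refine ⟨C, a, ?_⟩
  filter_upwards [h1, h] with K h1 h
  exact ⟨h1.1, fun t ht htL => by rw [← h t ht htL]; exact h1.2 t ht htL⟩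
theorem An.const (c : ℝ) : An (fun _ _ => c) := by
  have := An.monomial (fun _ => c) 0 ⟨|c|, by simp⟩
  simpa using this
theorem An.sum {ι : Type*} (s : Finset ι) {F : ι → ℕ → ℝ → ℝ} (h : ∀ i ∈ s, An (F i)) :
    An (fun K t => ∑ i ∈ s, F i K t) := by
  classical
  induction s using Finset.induction_on with
  | empty => simpa using An.const 0
  | insert i s hi ih =>
    have h1 := (h i (Finset.mem_insert_self _ _)).add
      (ih fun j hj => h j (Finset.mem_insert_of_mem hj))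
    simpa only [Finset.sum_insert hi] using h1
theorem An.pow {F : ℕ → ℝ → ℝ} (h : An F) (m : ℕ) : An (fun K t => F K t ^ m) := by
  induction m with
  | zero => simpa using An.const 1
  | succ m ih => simpa only [pow_succ] using ih.mul h
theorem g1_sumBound (c : ℕ → ℕ → ℝ) (s : Finset ℕ) (hs : ∀ i ∈ s, 1 ≤ i)
    (h : ∀ i ∈ s, ∃ C : ℝ, ∀ᶠ K : ℕ in atTop, |c K i| ≤ C * pw (-(2/3)) K ^ i) :
    ∃ C' : ℝ, 0 ≤ C' ∧ ∀ᶠ K : ℕ in atTop, ∀ t : ℝ, 0 < t → t * pw (-(2/3)) K ≤ 1 →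
      |∑ i ∈ s, c K i * t ^ i| ≤ C' * (t * pw (-(2/3)) K) := by
  classical
  induction s using Finset.induction_on with
  | empty => exact ⟨0, le_rfl, by simp⟩
  | insert i s hi ih =>
    obtain ⟨C1, hC1, h1⟩ := ih (fun j hj => hs j (Finset.mem_insert_of_mem hj))
      (fun j hj => h j (Finset.mem_insert_of_mem hj))
    obtain ⟨C2, h2⟩ := h i (Finset.mem_insert_self _ _)
    have hi1 := hs i (Finset.mem_insert_self _ _)
    refine ⟨|C2| + C1, by positivity, ?_⟩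
    filter_upwards [h1, h2] with K h1 h2 t ht htL
    rw [Finset.sum_insert hi]
    refine (abs_add_le _ _).trans ?_
    have hL := g1_pw_pos (-(2/3)) K
    have h3 : |c K i| ≤ |C2| * pw (-(2/3)) K ^ i := h2.trans (by gcongr; exact le_abs_self C2)
    have h4 := g1_term_le h3 ht
    have h5 : (t * pw (-(2/3)) K) ^ i ≤ t * pw (-(2/3)) K := by
      have := pow_le_pow_of_le_one (by positivity) htL hi1
      rwa [pow_one] at this
    have h6 : |C2| * (t * pw (-(2/3)) K) ^ i ≤ |C2| * (t * pw (-(2/3)) K) := by gcongr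
    have h7 := h1 t ht htL
    linarith
theorem An.exp_poly (n : ℕ) (c : ℕ → ℕ → ℝ) (h : ∀ i, 1 ≤ i → i ≤ n → ∃ C : ℝ,
    ∀ᶠ K : ℕ in atTop, |c K i| ≤ C * pw (-(2/3)) K ^ i) :
    An (fun K t => Real.exp (∑ i ∈ Finset.Icc 1 n, c K i * t ^ i)) := by
  intro J
  have hS : An (fun K t => ∑ i ∈ Finset.Icc 1 n, c K i * t ^ i) :=
    An.sum _ fun i hi => by
      rw [Finset.mem_Icc] at hi
      exact An.monomial (fun K => c K i) i (h i hi.1 hi.2)
  have hT : An (fun K t => ∑ m ∈ Finset.range (J + 1),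
      (∑ i ∈ Finset.Icc 1 n, c K i * t ^ i) ^ m * ((m.factorial : ℝ))⁻¹) :=
    An.sum _ fun m _ => (hS.pow m).mul (An.const _)
  obtain ⟨C, a, hC, h1⟩ := hT.get J
  obtain ⟨C', hC', h2⟩ := g1_sumBound c (Finset.Icc 1 n) (fun i hi => (Finset.mem_Icc.1 hi).1)
    (fun i hi => h i (Finset.mem_Icc.1 hi).1 (Finset.mem_Icc.1 hi).2)
  refine ⟨C + C' ^ (J + 1) * Real.exp C', a, ?_⟩
  filter_upwards [h1, h2] with K h1 h2
  have hL := g1_pw_pos (-(2/3)) K
  obtain ⟨L, hLdef⟩ : ∃ L, L = pw (-(2/3)) K := ⟨_, rfl⟩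
  rw [← hLdef] at h1 h2 hL ⊢
  refine ⟨fun j hj => (h1.1 j hj).trans ?_, fun t ht htL => ?_⟩
  · have : 0 ≤ C' ^ (J + 1) * Real.exp C' := by positivity
    gcongr
    linarith
  · have h3 := h1.2 t ht htL
    have h4 := h2 t ht htL
    obtain ⟨S, hSd⟩ : ∃ S, S = ∑ i ∈ Finset.Icc 1 n, c K i * t ^ i := ⟨_, rfl⟩
    rw [← hSd] at h3 h4 ⊢
    obtain ⟨u, hu⟩ : ∃ u, u = t * L := ⟨_, rfl⟩
    have hu0 : 0 < u := by rw [hu]; positivity
    rw [← hu] at htL h3 h4 ⊢
    have h5 : |Real.exp S - ∑ m ∈ Finset.range (J + 1), S ^ m * ((m.factorial : ℝ))⁻¹| ≤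
        |S| ^ (J + 1) * Real.exp |S| := by
      have := Complex.norm_exp_sub_sum_le_norm_mul_exp (S : ℂ) (J + 1)
      rw [Complex.norm_real, Real.norm_eq_abs] at this
      refine le_trans (le_of_eq ?_) this
      rw [← Real.norm_eq_abs, ← Complex.norm_real]
      congr 1
      push_cast
      simp only [div_eq_mul_inv]
    have h6 : |S| ^ (J + 1) * Real.exp |S| ≤ (C' * u) ^ (J + 1) * Real.exp C' := by
      have h7 : |S| ≤ C' := h4.trans (by nlinarith)
      gcongr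
    have e : Real.exp S - ∑ j ∈ Finset.range (J + 1), a K j * t ^ j =
      (Real.exp S - ∑ m ∈ Finset.range (J + 1), S ^ m * ((m.factorial : ℝ))⁻¹) +
      (∑ m ∈ Finset.range (J + 1), S ^ m * ((m.factorial : ℝ))⁻¹ -
        ∑ j ∈ Finset.range (J + 1), a K j * t ^ j) := by ring
    rw [e]
    refine (abs_add_le _ _).trans ?_
    rw [mul_pow] at h6
    have e2 : (C + C' ^ (J + 1) * Real.exp C') * u ^ (J + 1) =
      C' ^ (J + 1) * u ^ (J + 1) * Real.exp C' + C * u ^ (J + 1) := by ring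
    rw [e2]
    exact add_le_add (h5.trans h6) h3

end Pool.Agent.Helper615.LogA
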