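import Mathlib
import Pool.Agent.Helper615.LogA.Defs
set_option autoImplicit false

namespace Pool.Agent.Helper615.LogA

open Filter Asymptotics
theorem g2_jpw_pos (e : ℝ) (n : ℕ) : 0 < pw e n := Real.exp_pos _
theorem g2_jpw_add (a b : ℝ) (n : ℕ) : pw (a + b) n = pw a n * pw b n := by
  unfold pw; rw [← Real.exp_add]; congr 1; ring
theorem g2_jpw_pow (a : ℝ) (n k : ℕ) : pw a n ^ k = pw (a * k) n := by
  unfold pw; rw [← Real.exp_nat_mul]; congr 1; ring
theorem g2_jt_pos (θ : ℝ) (K r : ℕ) : 0 < pw θ K / 2 ^ r := div_pos (g2_jpw_pos _ _) (by positivity)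
theorem g2_jt_log (θ : ℝ) (K r : ℕ) :
    Real.log (pw θ K / 2 ^ r) = -(θ * Real.log K + r * Real.log 2) := by
  rw [Real.log_div (g2_jpw_pos _ _).ne' (by positivity), Real.log_pow]
  unfold pw; rw [Real.log_exp]; ring
theorem g2_jt_rpow (θ b : ℝ) (K r : ℕ) :
    (pw θ K / 2 ^ r) ^ b = pw (θ * b) K * Real.exp (-(b * (r * Real.log 2))) := by
  rw [Real.rpow_def_of_pos (g2_jt_pos θ K r), g2_jt_log]
  unfold pw; rw [← Real.exp_add]; congr 1; ring
theorem g2_jpw_le_one {e : ℝ} (he : 0 ≤ e) (n : ℕ) : pw e n ≤ 1 := by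
  unfold pw
  rw [Real.exp_le_one_iff]
  have := mul_nonneg he (Real.log_natCast_nonneg n)
  linarith
theorem g2_jt_scale {θ : ℝ} (hθ : 2 / 3 < θ) (K r : ℕ) :
    (pw θ K / 2 ^ r) * pw (-(2/3)) K ≤ 1 := by
  have h1 : (pw θ K / 2 ^ r) * pw (-(2/3)) K = pw (θ + -(2/3)) K / 2 ^ r := by
    rw [g2_jpw_add]; ring
  rw [h1, div_le_one (by positivity)]
  exact (g2_jpw_le_one (by linarith) K).trans (one_le_pow₀ (by norm_num))
theorem g2_j_tendsto_log : Tendsto (fun K : ℕ => Real.log (K : ℝ)) atTop atTop :=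
  Real.tendsto_log_atTop.comp tendsto_natCast_atTop_atTop
theorem Small.add {θ β : ℝ} {F G : ℕ → ℝ → ℝ} (hF : Small θ β F) (hG : Small θ β G) :
    Small θ β (fun K t => F K t + G K t) := by
  intro r
  exact (hF r).add (hG r)
theorem Small.mono {θ β β' : ℝ} (hθ : 0 < θ) (h : β ≤ β') {F : ℕ → ℝ → ℝ} (hF : Small θ β' F) :
    Small θ β F := by
  intro r
  refine (hF r).trans_isBigO ?_
  refine IsBigO.of_bound 1 (Eventually.of_forall fun K => ?_)
  rw [one_mul, Real.norm_of_nonneg (g2_jpw_pos _ _).le, Real.norm_of_nonneg (g2_jpw_pos _ _).le]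
  unfold pw
  apply Real.exp_le_exp.2
  have h1 := Real.log_natCast_nonneg K
  have h2 : θ * β ≤ θ * β' := mul_le_mul_of_nonneg_left h hθ.le
  have := mul_le_mul_of_nonneg_right h2 h1
  linarith
theorem small_of_bound (θ β b e C : ℝ) (m : ℕ) (hθ : 2 / 3 < θ) (h : θ * β < θ * b + e)
    (F : ℕ → ℝ → ℝ) (hF : ∀ᶠ K : ℕ in atTop, ∀ t : ℝ, 0 < t → t * pw (-(2/3)) K ≤ 1 →
      |F K t| ≤ C * (t ^ b * |Real.log t| ^ m * pw e K)) : Small θ β F := by
  intro r
  have hθ0 : 0 < θ := by linarith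
  set u : ℕ → ℝ := fun K => θ * Real.log K + r * Real.log 2 with hu
  have hut : Tendsto u atTop atTop :=
    tendsto_atTop_add_const_right _ _ (g2_j_tendsto_log.const_mul_atTop hθ0)
  set δ : ℝ := θ * b + e - θ * β with hδ
  have hδ0 : 0 < δ := by rw [hδ]; linarith
  have hc : 0 < δ / θ := div_pos hδ0 hθ0
  have h1 : (fun K : ℕ => u K ^ m) =o[atTop] fun K : ℕ => Real.exp (δ / θ * u K) :=
    (isLittleO_pow_exp_pos_mul_atTop hc (k := m)).comp_tendsto hut
  have h2 : (fun K : ℕ => u K ^ m * pw (θ * b + e) K) =o[atTop] fun K : ℕ => pw (θ * β) K := by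
    have h3 := h1.mul_isBigO (isBigO_refl (fun K : ℕ => pw (θ * b + e) K) atTop)
    refine h3.trans_isBigO ?_
    refine IsBigO.of_bound (Real.exp (δ / θ * (r * Real.log 2))) (Eventually.of_forall fun K => ?_)
    rw [Real.norm_of_nonneg (mul_pos (Real.exp_pos _) (g2_jpw_pos _ _)).le,
      Real.norm_of_nonneg (g2_jpw_pos _ _).le]
    apply le_of_eq
    unfold pw
    rw [← Real.exp_add, ← Real.exp_add]
    congr 1
    rw [hu]
    simp only
    have h4 : δ / θ * (θ * Real.log K + r * Real.log 2) =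
        δ * Real.log K + δ / θ * (r * Real.log 2) := by
      field_simp
    rw [h4, hδ]; ring
  refine IsBigO.trans_isLittleO ?_ h2
  refine IsBigO.of_bound (|C| * Real.exp (-(b * (r * Real.log 2)))) ?_
  filter_upwards [hF] with K hK
  have h5 := hK (pw θ K / 2 ^ r) (g2_jt_pos θ K r) (g2_jt_scale hθ K r)
  rw [Real.norm_eq_abs]
  refine h5.trans ?_
  rw [g2_jt_rpow, g2_jt_log, abs_neg, Real.norm_eq_abs, abs_mul, abs_pow, abs_of_pos (g2_jpw_pos _ _),
    g2_jpw_add]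
  have h6 : C * (pw (θ * b) K * Real.exp (-(b * (↑r * Real.log 2))) *
      |θ * Real.log ↑K + ↑r * Real.log 2| ^ m * pw e K) ≤
      |C| * (pw (θ * b) K * Real.exp (-(b * (↑r * Real.log 2))) *
      |θ * Real.log ↑K + ↑r * Real.log 2| ^ m * pw e K) := by
    apply mul_le_mul_of_nonneg_right (le_abs_self C)
    have := (g2_jpw_pos (θ * b) K).le
    have := (g2_jpw_pos e K).le
    have := (Real.exp_pos (-(b * (↑r * Real.log 2)))).le
    positivity
  refine h6.trans (le_of_eq ?_)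
  simp only [hu]
  ring
theorem Neg.add {θ β : ℝ} {l : ℕ} {F G : ℕ → ℝ → ℝ} (hF : Neg θ β l F) (hG : Neg θ β l G) :
    Neg θ β l (fun K t => F K t + G K t) := by
  classical
  obtain ⟨s₁, c₁, hs₁, hS₁⟩ := hF
  obtain ⟨s₂, c₂, hs₂, hS₂⟩ := hG
  refine ⟨s₁ ∪ s₂, fun K x => (if x ∈ s₁ then c₁ K x else 0) + (if x ∈ s₂ then c₂ K x else 0),
    ?_, ?_⟩
  · intro x hx
    rcases Finset.mem_union.1 hx with h | h
    · exact hs₁ x h
    · exact hs₂ x h
  · have h := hS₁.add hS₂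
    have e : (fun (K : ℕ) (t : ℝ) => (F K t - ∑ x ∈ s₁, c₁ K x * (t ^ x.1 * Real.log t ^ x.2)) +
        (G K t - ∑ x ∈ s₂, c₂ K x * (t ^ x.1 * Real.log t ^ x.2))) =
        (fun (K : ℕ) (t : ℝ) => F K t + G K t - ∑ x ∈ s₁ ∪ s₂,
          ((if x ∈ s₁ then c₁ K x else 0) + (if x ∈ s₂ then c₂ K x else 0)) *
            (t ^ x.1 * Real.log t ^ x.2)) := by
      funext K t
      have e1 : ∑ x ∈ s₁ ∪ s₂, (if x ∈ s₁ then c₁ K x else 0) * (t ^ x.1 * Real.log t ^ x.2) =
          ∑ x ∈ s₁, c₁ K x * (t ^ x.1 * Real.log t ^ x.2) := by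
        rw [← Finset.sum_subset (Finset.subset_union_left (s₁ := s₁) (s₂ := s₂))]
        · exact Finset.sum_congr rfl (fun x hx => by rw [if_pos hx])
        · intro x _ hx; rw [if_neg hx, zero_mul]
      have e2 : ∑ x ∈ s₁ ∪ s₂, (if x ∈ s₂ then c₂ K x else 0) * (t ^ x.1 * Real.log t ^ x.2) =
          ∑ x ∈ s₂, c₂ K x * (t ^ x.1 * Real.log t ^ x.2) := by
        rw [← Finset.sum_subset (Finset.subset_union_right (s₁ := s₁) (s₂ := s₂))]
        · exact Finset.sum_congr rfl (fun x hx => by rw [if_pos hx])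
        · intro x _ hx; rw [if_neg hx, zero_mul]
      simp only [add_mul, Finset.sum_add_distrib]
      rw [e1, e2]; ring
    rw [e] at h
    exact h
theorem Neg.const_mul {θ β : ℝ} {l : ℕ} {F : ℕ → ℝ → ℝ} (c : ℝ) (hF : Neg θ β l F) :
    Neg θ β l (fun K t => c * F K t) := by
  obtain ⟨s, c₁, hs, hS⟩ := hF
  refine ⟨s, fun K x => c * c₁ K x, hs, ?_⟩
  intro r
  have h := (hS r).const_mul_left c
  refine h.congr_left ?_
  intro K
  simp only [mul_sub, Finset.mul_sum, mul_assoc]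
theorem Small.neg {θ β : ℝ} {F : ℕ → ℝ → ℝ} (l : ℕ) (hF : Small θ β F) : Neg θ β l F := by
  refine ⟨∅, fun _ _ => 0, fun x hx => by simp at hx, ?_⟩
  simpa using hF
theorem Neg.congr_small {θ β : ℝ} {l : ℕ} {F G : ℕ → ℝ → ℝ} (hF : Neg θ β l F)
    (h : Small θ β (fun K t => G K t - F K t)) : Neg θ β l G := by
  obtain ⟨s, c, hs, hS⟩ := hF
  refine ⟨s, c, hs, ?_⟩
  have h2 := hS.add h
  intro r
  refine (h2 r).congr_left ?_
  intro K
  ring
theorem An.neg {F : ℕ → ℝ → ℝ} (hF : An F) (θ β b : ℝ) (hθ : 2 / 3 < θ) (m l : ℕ) (hml : m < l) :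
    Neg θ β l (fun K t => t ^ b * Real.log t ^ m * F K t) := by
  classical
  obtain ⟨J, hJ⟩ : ∃ J : ℕ, θ * β < θ * b + (θ - 2/3) * ((J : ℝ) + 1) := by
    have hpos : 0 < θ - 2/3 := by linarith
    obtain ⟨J, hJ⟩ := exists_nat_gt ((θ * β - θ * b) / (θ - 2/3))
    refine ⟨J, ?_⟩
    rw [div_lt_iff₀ hpos] at hJ
    nlinarith
  obtain ⟨C, a, ha⟩ := hF J
  refine ⟨(Finset.range (J + 1)).image (fun j : ℕ => ((b + (j : ℝ), m) : ℝ × ℕ)),
    fun K x => ∑ j ∈ Finset.range (J + 1), if x = ((b + (j : ℝ), m) : ℝ × ℕ) then a K j else 0,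
    ?_, ?_⟩
  · intro x hx _
    obtain ⟨j, _, rfl⟩ := Finset.mem_image.1 hx
    exact hml
  · apply small_of_bound θ β (b + ((J : ℝ) + 1)) (-(2/3) * ((J : ℝ) + 1)) C m hθ
    · nlinarith
    · filter_upwards [ha] with K hK
      intro t ht ht1
      have hK2 := hK.2 t ht ht1
      have e1 : ∑ x ∈ (Finset.range (J + 1)).image (fun j : ℕ => ((b + (j : ℝ), m) : ℝ × ℕ)),
          (∑ j ∈ Finset.range (J + 1), if x = ((b + (j : ℝ), m) : ℝ × ℕ) then a K j else 0) *
            (t ^ x.1 * Real.log t ^ x.2) =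
          t ^ b * Real.log t ^ m * ∑ j ∈ Finset.range (J + 1), a K j * t ^ j := by
        simp only [Finset.sum_mul]
        rw [Finset.sum_comm, Finset.mul_sum]
        refine Finset.sum_congr rfl ?_
        intro j hj
        rw [Finset.sum_eq_single ((b + (j : ℝ), m) : ℝ × ℕ)]
        · rw [if_pos rfl]
          simp only
          rw [Real.rpow_add ht, Real.rpow_natCast]; ring
        · intro x _ hx; rw [if_neg hx, zero_mul]
        · intro hx
          exact absurd (Finset.mem_image_of_mem _ hj) hx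
      simp only [e1]
      rw [← mul_sub, abs_mul, abs_mul, abs_of_pos (Real.rpow_pos_of_pos ht b), abs_pow]
      have hnn : 0 ≤ t ^ b * |Real.log t| ^ m := by
        have := (Real.rpow_pos_of_pos ht b).le
        positivity
      refine (mul_le_mul_of_nonneg_left hK2 hnn).trans (le_of_eq ?_)
      rw [mul_pow, g2_jpw_pow, Real.rpow_add ht]
      have e2 : t ^ ((J : ℝ) + 1) = t ^ (J + 1) := by
        rw [← Real.rpow_natCast]; push_cast; rfl
      rw [e2]
      push_cast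
      ring

end Pool.Agent.Helper615.LogA
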