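import Mathlib
import Pool.Agent.Helper615.LogA.Defs
set_option autoImplicit false

namespace Pool.Agent.Helper615.LogA

open Filter Asymptotics
noncomputable def g4_Sh : Module.End ℝ (ℕ → ℝ) := LinearMap.funLeft ℝ ℝ Nat.succ
theorem g4_Sh_apply (y : ℕ → ℝ) (r : ℕ) : g4_Sh y r = y (r + 1) := rfl
noncomputable def g4_ee (A B ρ : ℝ) (m : ℕ) : ℕ → ℝ := fun r => ρ ^ r * (A - r * B) ^ m
theorem g4_Sh_sub_apply (ρ : ℝ) (y : ℕ → ℝ) (r : ℕ) :
    (g4_Sh - algebraMap ℝ (Module.End ℝ (ℕ → ℝ)) ρ) y r = y (r + 1) - ρ * y r := rfl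
theorem g4_tl_step (A B ρ : ℝ) (m : ℕ) : (g4_Sh - algebraMap ℝ (Module.End ℝ (ℕ → ℝ)) ρ) (g4_ee A B ρ m) =
    ∑ k ∈ Finset.range m, (ρ * (m.choose k) * (-B) ^ (m - k)) • g4_ee A B ρ k := by
  funext r
  rw [g4_Sh_sub_apply, Finset.sum_apply]
  simp only [Pi.smul_apply, smul_eq_mul, g4_ee]
  have h : (A - ((r + 1 : ℕ) : ℝ) * B) ^ m =
      ∑ k ∈ Finset.range m, (A - r * B) ^ k * (-B) ^ (m - k) * (m.choose k) + (A - r * B) ^ m := by
    have h1 : A - ((r + 1 : ℕ) : ℝ) * B = (A - r * B) + (-B) := by push_cast; ring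
    rw [h1, add_pow, Finset.sum_range_succ]
    simp
  rw [h, mul_add, Finset.mul_sum]
  have h2 : ρ ^ (r + 1) * (A - r * B) ^ m = ρ * (ρ ^ r * (A - r * B) ^ m) := by ring
  rw [h2, add_sub_cancel_right]
  refine Finset.sum_congr rfl fun k _ => ?_
  ring
theorem g4_tl_kill (A B ρ : ℝ) : ∀ n m : ℕ, m < n →
    ((g4_Sh - algebraMap ℝ (Module.End ℝ (ℕ → ℝ)) ρ) ^ n) (g4_ee A B ρ m) = 0 := by
  intro n
  induction n with
  | zero => intro m hm; omega
  | succ n ih =>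
    intro m hm
    rw [pow_succ, Module.End.mul_apply, g4_tl_step, map_sum]
    refine Finset.sum_eq_zero fun k hk => ?_
    rw [map_smul, ih k (by have := Finset.mem_range.1 hk; omega), smul_zero]
theorem g4_tl_top (A B ρ : ℝ) : ∀ m : ℕ,
    ((g4_Sh - algebraMap ℝ (Module.End ℝ (ℕ → ℝ)) ρ) ^ m) (g4_ee A B ρ m) =
      (ρ ^ m * (-B) ^ m * (m.factorial : ℝ)) • g4_ee A B ρ 0 := by
  intro m
  induction m with
  | zero => simp
  | succ m ih =>
    rw [pow_succ, Module.End.mul_apply, g4_tl_step, map_sum, Finset.sum_range_succ, Finset.sum_eq_zero,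
      zero_add, map_smul, ih, smul_smul]
    · congr 1
      have h1 : ((m + 1).choose m : ℝ) = (m : ℝ) + 1 := by
        rw [Nat.choose_succ_self_right]; push_cast; ring
      rw [h1, Nat.factorial_succ, Nat.add_sub_cancel_left]
      push_cast
      ring
    · intro k hk
      rw [map_smul, g4_tl_kill A B ρ m k (Finset.mem_range.1 hk), smul_zero]
open Polynomial in
theorem g4_tl_aeval0 (A B ρ : ℝ) (R : ℝ[X]) :
    (aeval g4_Sh R) (g4_ee A B ρ 0) = R.eval ρ • g4_ee A B ρ 0 := by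
  have hS : g4_Sh (g4_ee A B ρ 0) = ρ • g4_ee A B ρ 0 := by
    funext r
    simp [g4_Sh_apply, g4_ee, pow_succ, mul_comm]
  have hSn : ∀ n : ℕ, (g4_Sh ^ n) (g4_ee A B ρ 0) = ρ ^ n • g4_ee A B ρ 0 := by
    intro n
    induction n with
    | zero => simp
    | succ n ih => rw [pow_succ', Module.End.mul_apply, ih, map_smul, hS, smul_smul, pow_succ]
  induction R using Polynomial.induction_on' with
  | add p q hp hq => rw [map_add, LinearMap.add_apply, hp, hq, eval_add, add_smul]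
  | monomial n a =>
    rw [aeval_monomial, Module.End.mul_apply, hSn, Module.algebraMap_end_apply, smul_smul, eval_monomial]
open Polynomial in
theorem g4_tl_killdvd (A B ρ : ℝ) (Q : ℝ[X]) (n m : ℕ) (hm : m < n) (hd : (X - C ρ) ^ n ∣ Q) :
    (aeval g4_Sh Q) (g4_ee A B ρ m) = 0 := by
  obtain ⟨R, rfl⟩ := hd
  rw [mul_comm, map_mul, Module.End.mul_apply, map_pow, map_sub, aeval_X, aeval_C, g4_tl_kill A B ρ n m hm,
    map_zero]
open Polynomial in
theorem g4_tl_small (g : ℕ → ℝ) (Y : ℕ → ℕ → ℝ) (hY : ∀ r, (fun K => Y K r) =o[atTop] g) (Q : ℝ[X]) :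
    ∀ r, (fun K => (aeval g4_Sh Q) (Y K) r) =o[atTop] g := by
  have hSn : ∀ (n : ℕ) (y : ℕ → ℝ) (r : ℕ), (g4_Sh ^ n) y r = y (r + n) := by
    intro n
    induction n with
    | zero => intro y r; simp
    | succ n ih =>
      intro y r
      rw [pow_succ, Module.End.mul_apply, ih, g4_Sh_apply]; rfl
  induction Q using Polynomial.induction_on' with
  | add p q hp hq =>
    intro r
    simp only [map_add, LinearMap.add_apply, Pi.add_apply]
    exact (hp r).add (hq r)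
  | monomial n a =>
    intro r
    simp only [aeval_monomial, Module.End.mul_apply, Module.algebraMap_end_apply, Pi.smul_apply, smul_eq_mul, hSn]
    exact (hY (r + n)).const_mul_left a
theorem g4_tl_pt (u b : ℝ) (hu : 0 < u) (m r : ℕ) :
    (u / 2 ^ r) ^ b * Real.log (u / 2 ^ r) ^ m =
      u ^ b * g4_ee (Real.log u) (Real.log 2) ((2:ℝ) ^ (-b)) m r := by
  unfold g4_ee
  rw [Real.div_rpow hu.le (by positivity), Real.log_div hu.ne' (by positivity), Real.log_pow]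
  have h1 : ((2:ℝ) ^ r) ^ b = ((2:ℝ) ^ b) ^ r := by
    rw [← Real.rpow_natCast, ← Real.rpow_natCast, ← Real.rpow_mul (by norm_num), ← Real.rpow_mul (by norm_num),
      mul_comm]
  rw [h1, Real.rpow_neg (by norm_num), inv_pow]
  ring
theorem top_lemma (θ β : ℝ) (hθ : 0 < θ) (l : ℕ) (κ : ℝ)
    (h : Neg θ β l (fun _ t => κ * (t ^ β * Real.log t ^ l))) : κ = 0 := by
  obtain ⟨s, c, hs, hsm⟩ := h
  obtain ⟨R, hR⟩ : ∃ R : Polynomial ℝ, R = ∏ x ∈ s.filter (fun x => x.1 ≠ β),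
    (Polynomial.X - Polynomial.C ((2:ℝ) ^ (-x.1))) ^ (x.2 + 1) := ⟨_, rfl⟩
  obtain ⟨Q, hQ⟩ : ∃ Q : Polynomial ℝ, Q = R * (Polynomial.X - Polynomial.C ((2:ℝ) ^ (-β))) ^ l := ⟨_, rfl⟩
  have hu : ∀ K : ℕ, 0 < pw θ K := fun K => Real.exp_pos _
  have hub : ∀ K : ℕ, pw θ K ^ β = pw (θ * β) K := by
    intro K
    unfold pw
    rw [← Real.exp_mul]
    congr 1; ring
  have hsmall := g4_tl_small (fun K : ℕ => pw (θ * β) K)
    (fun K r => κ * ((pw θ K / 2 ^ r) ^ β * Real.log (pw θ K / 2 ^ r) ^ l) -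
      ∑ x ∈ s, c K x * ((pw θ K / 2 ^ r) ^ x.1 * Real.log (pw θ K / 2 ^ r) ^ x.2)) hsm Q 0
  have hC : R.eval ((2:ℝ) ^ (-β)) ≠ 0 := by
    rw [hR, Polynomial.eval_prod]
    refine Finset.prod_ne_zero_iff.2 fun x hx => ?_
    rw [Polynomial.eval_pow]
    refine pow_ne_zero _ ?_
    rw [Polynomial.eval_sub, Polynomial.eval_X, Polynomial.eval_C, sub_ne_zero]
    intro h2
    have h3 := congrArg Real.log h2
    rw [Real.log_rpow (by norm_num), Real.log_rpow (by norm_num)] at h3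
    have h4 := mul_right_cancel₀ (Real.log_pos (by norm_num : (1:ℝ) < 2)).ne' h3
    exact (Finset.mem_filter.1 hx).2 (by linarith)
  have hval : ∀ K : ℕ, (Polynomial.aeval g4_Sh Q) (fun r => κ * ((pw θ K / 2 ^ r) ^ β * Real.log (pw θ K / 2 ^ r) ^ l) -
      ∑ x ∈ s, c K x * ((pw θ K / 2 ^ r) ^ x.1 * Real.log (pw θ K / 2 ^ r) ^ x.2)) 0 =
      (κ * ((((2:ℝ) ^ (-β)) ^ l * (-Real.log 2) ^ l * (l.factorial : ℝ)) * R.eval ((2:ℝ) ^ (-β)))) *
        pw (θ * β) K := by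
    intro K
    have e1 : (fun r => κ * ((pw θ K / 2 ^ r) ^ β * Real.log (pw θ K / 2 ^ r) ^ l) -
      ∑ x ∈ s, c K x * ((pw θ K / 2 ^ r) ^ x.1 * Real.log (pw θ K / 2 ^ r) ^ x.2)) =
      (κ * pw θ K ^ β) • g4_ee (Real.log (pw θ K)) (Real.log 2) ((2:ℝ) ^ (-β)) l -
      ∑ x ∈ s, (c K x * pw θ K ^ x.1) • g4_ee (Real.log (pw θ K)) (Real.log 2) ((2:ℝ) ^ (-x.1)) x.2 := by
      funext r
      simp only [g4_tl_pt _ _ (hu K), Pi.sub_apply, Pi.smul_apply, Finset.sum_apply, smul_eq_mul, mul_assoc]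
    rw [e1, map_sub, map_smul, map_sum, Finset.sum_eq_zero, sub_zero, hQ, map_mul, Module.End.mul_apply,
      map_pow, map_sub, Polynomial.aeval_X, Polynomial.aeval_C, g4_tl_top, map_smul, g4_tl_aeval0, hub]
    · simp only [Pi.smul_apply, smul_eq_mul, g4_ee]
      simp
      ring
    · intro x hx
      rw [map_smul]
      by_cases hxb : x.1 = β
      · rw [hxb, g4_tl_killdvd _ _ _ Q l x.2 (hs x hx hxb) (by rw [hQ]; exact Dvd.intro_left _ rfl), smul_zero]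
      · rw [g4_tl_killdvd _ _ _ Q (x.2 + 1) x.2 (Nat.lt_succ_self _) ?_, smul_zero]
        rw [hQ]
        refine Dvd.dvd.mul_right ?_ _
        rw [hR]
        exact Finset.dvd_prod_of_mem (fun x : ℝ × ℕ => (Polynomial.X - Polynomial.C ((2:ℝ) ^ (-x.1))) ^ (x.2 + 1))
          (Finset.mem_filter.2 ⟨hx, hxb⟩)
  simp only [hval] at hsmall
  by_contra hκ
  have hne : (κ * ((((2:ℝ) ^ (-β)) ^ l * (-Real.log 2) ^ l * (l.factorial : ℝ)) * R.eval ((2:ℝ) ^ (-β)))) ≠ 0 := by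
    have h2 : (0:ℝ) < 2 ^ (-β) := by positivity
    have h3 : (l.factorial : ℝ) ≠ 0 := by exact_mod_cast l.factorial_ne_zero
    have h4 : -Real.log 2 ≠ 0 := neg_ne_zero.2 (Real.log_pos (by norm_num)).ne'
    exact mul_ne_zero hκ (mul_ne_zero (mul_ne_zero (mul_ne_zero (pow_ne_zero _ h2.ne') (pow_ne_zero _ h4)) h3) hC)
  rw [isLittleO_const_mul_left_iff hne] at hsmall
  exact isLittleO_irrefl (Eventually.frequently (Eventually.of_forall fun K => (Real.exp_pos _).ne')) hsmall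

end Pool.Agent.Helper615.LogA
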