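import Mathlib
import Pool.Agent.Helper615.LogA.Defs
set_option autoImplicit false

namespace Pool.Agent.Helper615.LogA

open Filter Asymptotics
theorem h1_gf_contOn (c e : ℝ) : ContinuousOn (fun u : ℝ => u ^ (-e - 1) * Real.exp (-(c * u)))
    (Set.Ioi 0) := by
  apply ContinuousOn.mul
  · intro x hx
    exact (Real.continuousAt_rpow_const x _ (Or.inl (ne_of_gt hx))).continuousWithinAt
  · fun_prop
theorem h1_gf_int {c e : ℝ} (hc : 0 < c) {y : ℝ} (hy : 0 < y) :
    MeasureTheory.IntegrableOn (fun u : ℝ => u ^ (-e - 1) * Real.exp (-(c * u))) (Set.Ioi y) := by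
  apply integrable_of_isBigO_exp_neg (b := c / 2) (by positivity)
  · exact (h1_gf_contOn c e).mono (fun x hx => lt_of_lt_of_le hy hx)
  · have h1 := (isLittleO_rpow_exp_pos_mul_atTop (-e - 1) (b := c / 2) (by positivity)).isBigO
    have h2 := h1.mul (isBigO_refl (fun u : ℝ => Real.exp (-(c * u))) atTop)
    refine h2.congr_right ?_
    intro x
    rw [← Real.exp_add]
    congr 1
    ring
theorem h1_gG_deriv {c e : ℝ} (hc : 0 < c) {y : ℝ} (hy : 0 < y) :
    HasDerivAt (fun y => ∫ u in Set.Ioi y, u ^ (-e - 1) * Real.exp (-(c * u)))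
      (-(y ^ (-e - 1) * Real.exp (-(c * y)))) y := by
  set f : ℝ → ℝ := fun u => u ^ (-e - 1) * Real.exp (-(c * u)) with hf
  have h1 : (fun z => ∫ u in Set.Ioi z, f u) =ᶠ[nhds y]
      fun z => (∫ u in Set.Ioi y, f u) - ∫ u in y..z, f u := by
    filter_upwards [lt_mem_nhds hy] with z hz
    have := intervalIntegral.integral_interval_add_Ioi (h1_gf_int (e := e) hc hy) (h1_gf_int (e := e) hc hz)
    rw [← this]
    simp only [hf]
    ring
  have h2 : HasDerivAt (fun z => ∫ u in y..z, f u) (f y) y := by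
    apply intervalIntegral.integral_hasDerivAt_right
    · simp
    · exact (h1_gf_contOn c e).stronglyMeasurableAtFilter isOpen_Ioi y hy
    · exact (h1_gf_contOn c e).continuousAt (Ioi_mem_nhds hy)
  have h3 : HasDerivAt (fun z => (∫ u in Set.Ioi y, f u) - ∫ u in y..z, f u) (0 - f y) y :=
    (hasDerivAt_const y _).sub h2
  rw [zero_sub] at h3
  exact h3.congr_of_eventuallyEq h1
theorem h1_lim_of_deriv {F F' : ℝ → ℝ} {C s : ℝ} (hs : 0 < s)
    (hF : ∀ y, 0 < y → HasDerivAt F (F' y) y)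
    (hb : ∀ y, 0 < y → y ≤ 2 → |F' y| ≤ C * y ^ (s - 1)) :
    ∃ κ, ∀ y, 0 < y → y ≤ 2 → |F y - κ| ≤ (C / s) * y ^ s := by
  have hd : ∀ y, 0 < y → HasDerivAt (fun y => C / s * y ^ s) (C * y ^ (s - 1)) y := by
    intro y hy
    have := (Real.hasDerivAt_rpow_const (x := y) (p := s) (Or.inl hy.ne')).const_mul (C / s)
    refine this.congr_deriv ?_
    field_simp
  have hp : MonotoneOn (fun y => F y + C / s * y ^ s) (Set.Ioc 0 2) := by
    apply monotoneOn_of_deriv_nonneg (convex_Ioc 0 2)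
    · intro y hy
      exact ((hF y hy.1).add (hd y hy.1)).continuousAt.continuousWithinAt
    · intro y hy
      rw [interior_Ioc] at hy
      exact ((hF y hy.1).add (hd y hy.1)).differentiableAt.differentiableWithinAt
    · intro y hy
      rw [interior_Ioc] at hy
      have hh : HasDerivAt (fun y => F y + C / s * y ^ s) (F' y + C * y ^ (s - 1)) y :=
        (hF y hy.1).add (hd y hy.1)
      rw [hh.deriv]
      have := (abs_le.1 (hb y hy.1 hy.2.le)).1
      linarith
  have hm : MonotoneOn (fun y => C / s * y ^ s - F y) (Set.Ioc 0 2) := by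
    apply monotoneOn_of_deriv_nonneg (convex_Ioc 0 2)
    · intro y hy
      exact ((hd y hy.1).sub (hF y hy.1)).continuousAt.continuousWithinAt
    · intro y hy
      rw [interior_Ioc] at hy
      exact ((hd y hy.1).sub (hF y hy.1)).differentiableAt.differentiableWithinAt
    · intro y hy
      rw [interior_Ioc] at hy
      have hh : HasDerivAt (fun y => C / s * y ^ s - F y) (C * y ^ (s - 1) - F' y) y :=
        (hd y hy.1).sub (hF y hy.1)
      rw [hh.deriv]
      have := (abs_le.1 (hb y hy.1 hy.2.le)).2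
      linarith
  have hC : 0 ≤ C := by
    have h1 := (abs_nonneg _).trans (hb 1 one_pos (by norm_num))
    simpa using h1
  have hcross : ∀ x ∈ Set.Ioc (0:ℝ) 2, ∀ y ∈ Set.Ioc (0:ℝ) 2,
      F y - C / s * y ^ s ≤ F x + C / s * x ^ s := by
    intro x hx y hy
    rcases le_total x y with h | h
    · have h1 := hm hx hy h
      simp only at h1
      have h2 : 0 ≤ C / s * x ^ s := by
        have := hx.1
        positivity
      linarith
    · have h1 := hp hy hx h
      simp only at h1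
      have h2 : 0 ≤ C / s * y ^ s := by
        have := hy.1
        positivity
      linarith
  refine ⟨sInf ((fun y => F y + C / s * y ^ s) '' Set.Ioc 0 2), fun y hy0 hy2 => ?_⟩
  have hbd : BddBelow ((fun y => F y + C / s * y ^ s) '' Set.Ioc 0 2) := by
    refine ⟨F 2 - C / s * 2 ^ s, ?_⟩
    rintro _ ⟨x, hx, rfl⟩
    exact hcross x hx 2 ⟨by norm_num, le_rfl⟩
  have h1 : sInf ((fun y => F y + C / s * y ^ s) '' Set.Ioc 0 2) ≤ F y + C / s * y ^ s :=
    csInf_le hbd ⟨y, ⟨hy0, hy2⟩, rfl⟩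
  have h2 : F y - C / s * y ^ s ≤ sInf ((fun y => F y + C / s * y ^ s) '' Set.Ioc 0 2) := by
    apply le_csInf
    · exact ⟨_, ⟨1, ⟨one_pos, by norm_num⟩, rfl⟩⟩
    · rintro _ ⟨x, hx, rfl⟩
      exact hcross x hx y ⟨hy0, hy2⟩
  rw [abs_le]
  constructor <;> linarith
noncomputable def h1_lamc (c e : ℝ) : ℝ := open Classical in
  if h : ∃ n : ℕ, e = n then -((-c) ^ h.choose / (h.choose).factorial) else 0
theorem h1_lamc_nat (c e : ℝ) (n : ℕ) (h : e = n) : h1_lamc c e = -((-c) ^ n / n.factorial) := by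
  have hex : ∃ n : ℕ, e = n := ⟨n, h⟩
  unfold h1_lamc
  rw [dif_pos hex]
  have : hex.choose = n := by
    have h2 : e = ((hex.choose : ℕ) : ℝ) := hex.choose_spec
    have h3 : ((hex.choose : ℕ) : ℝ) = n := h2.symm.trans h
    exact_mod_cast h3
  rw [this]
theorem h1_lamc_ne (c e : ℝ) (h : ∀ n : ℕ, e ≠ n) : h1_lamc c e = 0 := by
  unfold h1_lamc
  rw [dif_neg]
  rintro ⟨n, hn⟩
  exact h n hn
noncomputable def h1_FJ (c e : ℝ) (J : ℕ) (y : ℝ) : ℝ :=
  (∫ u in Set.Ioi y, u ^ (-e - 1) * Real.exp (-(c * u))) - h1_lamc c e * Real.log y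
        - ∑ j ∈ Finset.range (J + 1), (if (j : ℝ) = e then 0 else
            (-c) ^ j / j.factorial * (y ^ (j - e) / (e - j)))
theorem h1_lam_sum (c e : ℝ) (J : ℕ) (hJ : e < J + 1) {y : ℝ} (hy : 0 < y) :
    -(h1_lamc c e * y⁻¹) + ∑ j ∈ Finset.range (J + 1), (if (j : ℝ) = e then 0 else
      (-c) ^ j / j.factorial * y ^ (j - e - 1)) =
    ∑ j ∈ Finset.range (J + 1), (-c) ^ j / j.factorial * y ^ (j - e - 1) := by
  by_cases hex : ∃ n : ℕ, e = n
  · obtain ⟨n, hn⟩ := hex
    rw [h1_lamc_nat c e n hn]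
    have hnJ : n ∈ Finset.range (J + 1) := by
      rw [Finset.mem_range]
      rw [hn] at hJ
      exact_mod_cast hJ
    rw [← Finset.add_sum_erase _ _ hnJ, ← Finset.add_sum_erase _ _ hnJ, if_pos hn.symm]
    have h1 : ∑ x ∈ (Finset.range (J + 1)).erase n, (if (x : ℝ) = e then 0 else
        (-c) ^ x / x.factorial * y ^ (x - e - 1)) =
        ∑ x ∈ (Finset.range (J + 1)).erase n, (-c) ^ x / x.factorial * y ^ (x - e - 1) := by
      apply Finset.sum_congr rfl
      intro x hx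
      rw [if_neg]
      rw [hn]
      have := (Finset.mem_erase.1 hx).1
      exact_mod_cast this
    rw [h1]
    have h2 : (n : ℝ) - e - 1 = -1 := by rw [hn]; ring
    rw [h2, Real.rpow_neg_one]
    ring
  · push Not at hex
    rw [h1_lamc_ne c e hex, zero_mul, neg_zero, zero_add]
    apply Finset.sum_congr rfl
    intro x _
    rw [if_neg (fun h => hex x h.symm)]
theorem h1_FJ_deriv {c e : ℝ} (hc : 0 < c) (J : ℕ) (hJ : e < J + 1) {y : ℝ} (hy : 0 < y) :
    HasDerivAt (h1_FJ c e J) (-(y ^ (-e - 1) * (Real.exp (-(c * y)) -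
      ∑ j ∈ Finset.range (J + 1), (-(c * y)) ^ j / j.factorial))) y := by
  have h1 := h1_gG_deriv (e := e) hc hy
  have h2 : HasDerivAt (fun y => h1_lamc c e * Real.log y) (h1_lamc c e * y⁻¹) y :=
    (Real.hasDerivAt_log hy.ne').const_mul _
  have h3 : HasDerivAt (fun y => ∑ j ∈ Finset.range (J + 1), (if (j : ℝ) = e then 0 else
      (-c) ^ j / j.factorial * (y ^ (j - e) / (e - j))))
      (∑ j ∈ Finset.range (J + 1), (if (j : ℝ) = e then 0 else
        -((-c) ^ j / j.factorial * y ^ (j - e - 1)))) y := by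
    apply HasDerivAt.fun_sum
    intro j _
    split_ifs with h
    · exact hasDerivAt_const _ _
    · have := (((Real.hasDerivAt_rpow_const (x := y) (p := j - e) (Or.inl hy.ne')).div_const
        (e - j)).const_mul ((-c) ^ j / j.factorial))
      refine this.congr_deriv ?_
      have h5 : e - j ≠ 0 := fun h' => h (by linarith)
      have h6 : ((j : ℝ) - e) = -(e - j) := by ring
      rw [mul_div_right_comm, h6, neg_div, div_self h5]
      ring_nf
  have h4 := (h1.sub h2).sub h3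
  refine HasDerivAt.congr_deriv (f := h1_FJ c e J) h4 ?_
  have h5 := h1_lam_sum c e J hJ hy
  have h6 : ∑ j ∈ Finset.range (J + 1), (if (j : ℝ) = e then 0 else
        -((-c) ^ j / j.factorial * y ^ (j - e - 1))) =
      -∑ j ∈ Finset.range (J + 1), (if (j : ℝ) = e then 0 else
        ((-c) ^ j / j.factorial * y ^ (j - e - 1))) := by
    rw [← Finset.sum_neg_distrib]
    apply Finset.sum_congr rfl
    intro j _
    split_ifs <;> simp
  have h7 : y ^ (-e - 1) * ∑ j ∈ Finset.range (J + 1), (-(c * y)) ^ j / (j.factorial : ℝ) =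
      ∑ j ∈ Finset.range (J + 1), (-c) ^ j / j.factorial * y ^ (j - e - 1) := by
    rw [Finset.mul_sum]
    apply Finset.sum_congr rfl
    intro j _
    have h8 : y ^ ((j : ℝ) - e - 1) = y ^ (-e - 1) * y ^ j := by
      rw [← Real.rpow_natCast, ← Real.rpow_add hy]
      congr 1
      ring
    rw [h8]
    have h9 : (-(c * y)) ^ j = (-c) ^ j * y ^ j := by
      rw [← mul_pow]
      ring
    rw [h9]
    ring
  rw [h6, mul_sub, h7]
  linarith
theorem h1_exp_rem (n : ℕ) (x : ℝ) : |Real.exp x - ∑ j ∈ Finset.range n, x ^ j / j.factorial| ≤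
    |x| ^ n * Real.exp |x| := by
  have h := Complex.norm_exp_sub_sum_le_norm_mul_exp (x : ℂ) n
  have h2 : (Complex.exp (x : ℂ) - ∑ m ∈ Finset.range n, (x : ℂ) ^ m / m.factorial) =
      ((Real.exp x - ∑ j ∈ Finset.range n, x ^ j / j.factorial : ℝ) : ℂ) := by
    push_cast
    rfl
  rw [h2, Complex.norm_real, Complex.norm_real, Real.norm_eq_abs, Real.norm_eq_abs] at h
  exact h
theorem h1_FJ_lim {c e : ℝ} (hc : 0 < c) (J : ℕ) (hJ : e < J + 1) : ∃ κ C : ℝ, ∀ y, 0 < y → y ≤ 2 →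
    |h1_FJ c e J y - κ| ≤ C * y ^ (J + 1 - e) := by
  have hs : 0 < (J : ℝ) + 1 - e := by linarith
  obtain ⟨κ, hκ⟩ := h1_lim_of_deriv (F := h1_FJ c e J) (C := c ^ (J + 1) * Real.exp (2 * c)) hs
    (fun y hy => h1_FJ_deriv hc J hJ hy) (by
      intro y hy hy2
      rw [abs_neg, abs_mul, abs_of_pos (Real.rpow_pos_of_pos hy _)]
      have h1 := h1_exp_rem (J + 1) (-(c * y))
      rw [abs_neg, abs_of_pos (by positivity : 0 < c * y)] at h1
      have h2 : Real.exp (c * y) ≤ Real.exp (2 * c) := by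
        apply Real.exp_le_exp.2
        nlinarith
      have h3 : 0 < y ^ (-e - 1) := Real.rpow_pos_of_pos hy _
      calc y ^ (-e - 1) * |Real.exp (-(c * y)) -
            ∑ j ∈ Finset.range (J + 1), (-(c * y)) ^ j / j.factorial|
          ≤ y ^ (-e - 1) * ((c * y) ^ (J + 1) * Real.exp (2 * c)) := by
            gcongr
            exact h1.trans (by gcongr)
        _ = c ^ (J + 1) * Real.exp (2 * c) * (y ^ (-e - 1) * y ^ (J + 1)) := by
            rw [mul_pow]
            ring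
        _ = _ := by
            congr 1
            rw [← Real.rpow_natCast, ← Real.rpow_add hy]
            congr 1
            push_cast
            ring)
  exact ⟨κ, _, hκ⟩
theorem h1_FJ_tendsto {c e : ℝ} {J : ℕ} (hJ : e < J + 1) {κ C : ℝ}
    (h : ∀ y, 0 < y → y ≤ 2 → |h1_FJ c e J y - κ| ≤ C * y ^ (J + 1 - e)) :
    Tendsto (h1_FJ c e J) (nhdsWithin 0 (Set.Ioi 0)) (nhds κ) := by
  have hs : 0 < (J : ℝ) + 1 - e := by linarith
  rw [tendsto_iff_dist_tendsto_zero]
  have h1 : Tendsto (fun y : ℝ => C * y ^ (J + 1 - e)) (nhdsWithin 0 (Set.Ioi 0)) (nhds 0) := by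
    have h2 : Tendsto (fun y : ℝ => y ^ (J + 1 - e)) (nhds 0) (nhds 0) := by
      have := (Real.continuousAt_rpow_const 0 (J + 1 - e) (Or.inr hs.le)).tendsto
      rwa [Real.zero_rpow hs.ne'] at this
    have h3 := (h2.mono_left (nhdsWithin_le_nhds (s := Set.Ioi 0))).const_mul C
    rwa [mul_zero] at h3
  apply squeeze_zero' (Eventually.of_forall (fun y => dist_nonneg)) ?_ h1
  have h4 : ∀ᶠ y : ℝ in nhdsWithin 0 (Set.Ioi 0), 0 < y := self_mem_nhdsWithin
  have h5 : ∀ᶠ y : ℝ in nhdsWithin 0 (Set.Ioi 0), y ≤ 2 :=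
    (nhdsWithin_le_nhds (s := Set.Ioi 0)) (eventually_le_nhds (by norm_num))
  filter_upwards [h4, h5] with y hy hy2
  rw [Real.dist_eq]
  exact h y hy hy2
theorem h1_FJ_succ (c e : ℝ) (J : ℕ) (hJ : e < J + 1) (y : ℝ) :
    h1_FJ c e (J + 1) y = h1_FJ c e J y - (-c) ^ (J + 1) / (J + 1).factorial *
      (y ^ (((J + 1 : ℕ) : ℝ) - e) / (e - ((J + 1 : ℕ) : ℝ))) := by
  unfold h1_FJ
  rw [Finset.sum_range_succ (n := J + 1), if_neg]
  · ring
  · push_cast
    intro h
    linarith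
theorem gamma_tail (c e : ℝ) (hc : 0 < c) : ∃ κ lam : ℝ,
    (∀ n : ℕ, e = n → lam = -((-c) ^ n / n.factorial)) ∧
    ((∀ n : ℕ, e ≠ n) → lam = 0) ∧
    ∀ J : ℕ, e < J + 1 → ∃ C : ℝ, ∀ y : ℝ, 0 < y → y ≤ 2 →
      |(∫ u in Set.Ioi y, u ^ (-e - 1) * Real.exp (-(c * u))) - κ - lam * Real.log y
        - ∑ j ∈ Finset.range (J + 1), (if (j : ℝ) = e then 0 else
            (-c) ^ j / j.factorial * (y ^ (j - e) / (e - j)))| ≤ C * y ^ (J + 1 - e) := by
  have hJ0 : e < (⌊e⌋₊ : ℝ) + 1 := Nat.lt_floor_add_one e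
  obtain ⟨κ, C0, hκ⟩ := h1_FJ_lim hc ⌊e⌋₊ hJ0
  have hJJ : ∀ J : ℕ, ⌊e⌋₊ ≤ J → Tendsto (h1_FJ c e J) (nhdsWithin 0 (Set.Ioi 0)) (nhds κ) := by
    intro J hJ
    induction J, hJ using Nat.le_induction with
    | base => exact h1_FJ_tendsto hJ0 hκ
    | succ J hJ ih =>
      have hJ1 : e < (J : ℝ) + 1 := by
        have : ((⌊e⌋₊ : ℕ) : ℝ) ≤ J := by exact_mod_cast hJ
        linarith
      have hs : 0 < (((J + 1 : ℕ) : ℝ) - e) := by
        push_cast
        linarith
      have h2 : Tendsto (fun y : ℝ => y ^ (((J + 1 : ℕ) : ℝ) - e)) (nhds 0) (nhds 0) := by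
        have := (Real.continuousAt_rpow_const 0 (((J + 1 : ℕ) : ℝ) - e) (Or.inr hs.le)).tendsto
        rwa [Real.zero_rpow hs.ne'] at this
      have h3 := ((h2.mono_left (nhdsWithin_le_nhds (s := Set.Ioi 0))).div_const
        (e - ((J + 1 : ℕ) : ℝ))).const_mul ((-c) ^ (J + 1) / ((J + 1).factorial : ℝ))
      have h4 := ih.sub h3
      rw [zero_div, mul_zero, sub_zero] at h4
      refine h4.congr ?_
      intro y
      rw [h1_FJ_succ c e J hJ1]
  refine ⟨κ, h1_lamc c e, h1_lamc_nat c e, h1_lamc_ne c e, ?_⟩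
  intro J hJ
  have hle : ⌊e⌋₊ ≤ J := by
    rcases lt_or_ge e 0 with h | h
    · rw [Nat.floor_of_nonpos h.le]
      exact Nat.zero_le _
    · have h1 := Nat.floor_le h
      have h2 : ((⌊e⌋₊ : ℕ) : ℝ) < J + 1 := lt_of_le_of_lt h1 hJ
      have h3 : ⌊e⌋₊ < J + 1 := by exact_mod_cast h2
      omega
  obtain ⟨κ', C, hκ'⟩ := h1_FJ_lim hc J hJ
  have huniq : κ' = κ := tendsto_nhds_unique (h1_FJ_tendsto hJ hκ') (hJJ J hle)
  refine ⟨C, fun y hy hy2 => ?_⟩
  have h1 := hκ' y hy hy2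
  rw [huniq] at h1
  unfold h1_FJ at h1
  refine le_trans (le_of_eq ?_) h1
  congr 1
  ring

end Pool.Agent.Helper615.LogA
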