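import Mathlib
import Pool.Agent.Helper615.LogA.Defs
set_option autoImplicit false

namespace Pool.Agent.Helper615.LogA

open Filter Asymptotics
noncomputable def h2_DD (c a : ℝ) (G : Polynomial ℝ) : Polynomial ℝ :=
  Polynomial.C (2 / 3) * Polynomial.X * Polynomial.derivative G
    - Polynomial.C (2 / 3 * c) * Polynomial.X * G - Polynomial.C a * G
noncomputable def h2_FF (c t a : ℝ) (G : Polynomial ℝ) (x : ℝ) : ℝ :=
  Real.exp (-(c * (t * x ^ (2 / 3 : ℝ)))) * G.eval (t * x ^ (2 / 3 : ℝ)) * x ^ (-a)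
theorem h2_hasDerivAt_FF (c t a : ℝ) (G : Polynomial ℝ) {x : ℝ} (hx : 0 < x) :
    HasDerivAt (h2_FF c t a G) (h2_FF c t (a + 1) (h2_DD c a G) x) x := by
  have h1 : HasDerivAt (fun x : ℝ => x ^ (2 / 3 : ℝ)) ((2 / 3) * x ^ (2 / 3 - 1 : ℝ)) x :=
    Real.hasDerivAt_rpow_const (Or.inl hx.ne')
  have h2 := h1.const_mul t
  have h3 := (h2.const_mul c).neg.exp
  have h4 := (G.hasDerivAt (t * x ^ (2 / 3 : ℝ))).comp x h2
  have h5 : HasDerivAt (fun x : ℝ => x ^ (-a)) ((-a) * x ^ (-a - 1)) x :=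
    Real.hasDerivAt_rpow_const (Or.inl hx.ne')
  have h6 := (h3.mul h4).mul h5
  have h7 : HasDerivAt (h2_FF c t a G) _ x := h6
  refine h7.congr_deriv ?_
  unfold h2_FF h2_DD
  simp only [Pi.mul_apply, Pi.neg_apply, Function.comp, Polynomial.eval_sub, Polynomial.eval_mul,
    Polynomial.eval_C, Polynomial.eval_X]
  rw [Real.rpow_sub_one hx.ne', Real.rpow_sub_one hx.ne', show -(a + 1) = -a - 1 by ring,
    Real.rpow_sub_one hx.ne']
  field_simp
  ring
theorem h2_exp_poly_bdd (c : ℝ) (hc : 0 < c) (G : Polynomial ℝ) :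
    ∃ C : ℝ, 0 ≤ C ∧ ∀ u : ℝ, 0 ≤ u → Real.exp (-(c * u)) * |G.eval u| ≤ C := by
  induction G using Polynomial.induction_on' with
  | add p q hp hq =>
    obtain ⟨C1, h1, h1'⟩ := hp
    obtain ⟨C2, h2, h2'⟩ := hq
    refine ⟨C1 + C2, by linarith, fun u hu => ?_⟩
    rw [Polynomial.eval_add]
    calc Real.exp (-(c * u)) * |p.eval u + q.eval u|
        ≤ Real.exp (-(c * u)) * (|p.eval u| + |q.eval u|) :=
          mul_le_mul_of_nonneg_left (abs_add_le _ _) (Real.exp_pos _).le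
      _ = Real.exp (-(c * u)) * |p.eval u| + Real.exp (-(c * u)) * |q.eval u| := by ring
      _ ≤ C1 + C2 := add_le_add (h1' u hu) (h2' u hu)
  | monomial n a =>
    refine ⟨|a| * (n.factorial / c ^ n), by positivity, fun u hu => ?_⟩
    rw [Polynomial.eval_monomial, abs_mul, abs_of_nonneg (pow_nonneg hu n)]
    have h1 := Real.pow_div_factorial_le_exp (c * u) (by positivity) n
    rw [Real.exp_neg]
    have h2 : (0 : ℝ) < n.factorial := by positivity
    have h3 := Real.exp_pos (c * u)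
    have h4 : (0 : ℝ) < c ^ n := by positivity
    have h5 : c ^ n * u ^ n ≤ Real.exp (c * u) * n.factorial := by
      rw [← mul_pow]
      rwa [div_le_iff₀ h2] at h1
    have h6 : u ^ n ≤ Real.exp (c * u) * (n.factorial / c ^ n) := by
      rw [mul_div_assoc', le_div_iff₀ h4]
      linarith
    calc (Real.exp (c * u))⁻¹ * (|a| * u ^ n) = |a| * ((Real.exp (c * u))⁻¹ * u ^ n) := by ring
      _ ≤ |a| * (n.factorial / c ^ n) := by
          apply mul_le_mul_of_nonneg_left _ (abs_nonneg a)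
          rw [inv_mul_le_iff₀ h3]
          exact h6
theorem h2_FF_bdd (c : ℝ) (hc : 0 < c) (a : ℝ) (G : Polynomial ℝ) :
    ∃ C : ℝ, 0 ≤ C ∧ ∀ t : ℝ, 0 < t → ∀ x : ℝ, 0 < x → |h2_FF c t a G x| ≤ C * x ^ (-a) := by
  obtain ⟨C, h1, h2⟩ := h2_exp_poly_bdd c hc G
  refine ⟨C, h1, fun t ht x hx => ?_⟩
  unfold h2_FF
  rw [abs_mul, abs_mul, abs_of_pos (Real.exp_pos _), abs_of_nonneg (Real.rpow_nonneg hx.le _)]
  exact mul_le_mul_of_nonneg_right (h2 _ (by positivity)) (Real.rpow_nonneg hx.le _)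
theorem h2_local_est (F F1 F2 F3 : ℝ → ℝ) (h0 : ∀ x > 0, HasDerivAt F (F1 x) x)
    (h1 : ∀ x > 0, HasDerivAt F1 (F2 x) x) (h2 : ∀ x > 0, HasDerivAt F2 (F3 x) x)
    (x0 : ℝ) (hx0 : 1 ≤ x0) (M : ℝ) (hM0 : 0 ≤ M)
    (hM : ∀ x ∈ Set.Icc (x0 - 1 / 2) (x0 + 1 / 2), |F3 x| ≤ M) :
    |F x0 - (∫ x in (x0 - 1 / 2)..(x0 + 1 / 2), F x)
      + 1 / 24 * (F1 (x0 + 1 / 2) - F1 (x0 - 1 / 2))| ≤ M := by
  set s := Set.Icc (x0 - 1 / 2) (x0 + 1 / 2) with hs
  have hconv : Convex ℝ s := convex_Icc _ _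
  have hpos : ∀ x ∈ s, 0 < x := by
    intro x hx
    have := hx.1
    linarith
  have hx0s : x0 ∈ s := ⟨by linarith, by linarith⟩
  have hdist : ∀ y ∈ s, |y - x0| ≤ 1 / 2 := by
    intro y hy
    rw [abs_le]
    constructor
    · linarith [hy.1]
    · linarith [hy.2]
  have E2 : ∀ y ∈ s, |F2 y - F2 x0| ≤ M / 2 := by
    intro y hy
    have := Convex.norm_image_sub_le_of_norm_hasDerivWithin_le (f := F2) (f' := F3) (C := M)
      (fun x hx => (h2 x (hpos x hx)).hasDerivWithinAt) (fun x hx => hM x hx) hconv hx0s hy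
    rw [Real.norm_eq_abs, Real.norm_eq_abs] at this
    nlinarith [hdist y hy]
  have E1 : ∀ y ∈ s, |F1 y - F1 x0 - F2 x0 * (y - x0)| ≤ M / 4 := by
    intro y hy
    have hd : ∀ x ∈ s, HasDerivWithinAt (fun y => F1 y - F2 x0 * (y - x0)) (F2 x - F2 x0) s x := by
      intro x hx
      have e1 := h1 x (hpos x hx)
      have e2 : HasDerivAt (fun y : ℝ => F2 x0 * (y - x0)) (F2 x0) x := by
        simpa using ((hasDerivAt_id x).sub_const x0).const_mul (F2 x0)
      exact (e1.sub e2).hasDerivWithinAt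
    have := Convex.norm_image_sub_le_of_norm_hasDerivWithin_le (C := M / 2)
      hd (fun x hx => E2 x hx) hconv hx0s hy
    rw [Real.norm_eq_abs, Real.norm_eq_abs] at this
    have e3 : F1 y - F2 x0 * (y - x0) - (F1 x0 - F2 x0 * (x0 - x0)) =
      F1 y - F1 x0 - F2 x0 * (y - x0) := by ring
    rw [e3] at this
    nlinarith [hdist y hy]
  have E0 : ∀ y ∈ s, |F y - (F x0 + F1 x0 * (y - x0) + F2 x0 * (y - x0) ^ 2 / 2)| ≤ M / 8 := by
    intro y hy
    have hd : ∀ x ∈ s, HasDerivWithinAt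
        (fun y => F y - (F x0 + F1 x0 * (y - x0) + F2 x0 * (y - x0) ^ 2 / 2))
        (F1 x - F1 x0 - F2 x0 * (x - x0)) s x := by
      intro x hx
      have e1 := h0 x (hpos x hx)
      have e2 : HasDerivAt (fun y : ℝ => F x0 + F1 x0 * (y - x0) + F2 x0 * (y - x0) ^ 2 / 2)
          (F1 x0 + F2 x0 * (x - x0)) x := by
        have a1 := (hasDerivAt_id x).sub_const x0
        have a2 := (a1.const_mul (F1 x0)).const_add (F x0)
        have a3 := ((a1.pow 2).const_mul (F2 x0)).div_const 2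
        have a4 := a2.add a3
        refine (a4.congr_deriv ?_)
        simp
        ring
      refine ((e1.sub e2).congr_deriv ?_).hasDerivWithinAt
      ring
    have := Convex.norm_image_sub_le_of_norm_hasDerivWithin_le (C := M / 4)
      hd (fun x hx => E1 x hx) hconv hx0s hy
    rw [Real.norm_eq_abs, Real.norm_eq_abs] at this
    have e3 : F y - (F x0 + F1 x0 * (y - x0) + F2 x0 * (y - x0) ^ 2 / 2) -
        (F x0 - (F x0 + F1 x0 * (x0 - x0) + F2 x0 * (x0 - x0) ^ 2 / 2)) =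
      F y - (F x0 + F1 x0 * (y - x0) + F2 x0 * (y - x0) ^ 2 / 2) := by ring
    rw [e3] at this
    nlinarith [hdist y hy]
  have hle : x0 - 1 / 2 ≤ x0 + 1 / 2 := by linarith
  have hFint : IntervalIntegrable F MeasureTheory.volume (x0 - 1 / 2) (x0 + 1 / 2) := by
    apply ContinuousOn.intervalIntegrable
    rw [Set.uIcc_of_le hle]
    exact fun x hx => (h0 x (hpos x hx)).continuousAt.continuousWithinAt
  have hPint : IntervalIntegrable
      (fun y => F x0 + F1 x0 * (y - x0) + F2 x0 * (y - x0) ^ 2 / 2)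
      MeasureTheory.volume (x0 - 1 / 2) (x0 + 1 / 2) := by
    apply Continuous.intervalIntegrable
    fun_prop
  have hP : ∫ y in (x0 - 1 / 2)..(x0 + 1 / 2),
      (F x0 + F1 x0 * (y - x0) + F2 x0 * (y - x0) ^ 2 / 2) = F x0 + F2 x0 / 24 := by
    have hd : ∀ x ∈ Set.uIcc (x0 - 1 / 2) (x0 + 1 / 2), HasDerivAt
        (fun y => F x0 * (y - x0) + F1 x0 * (y - x0) ^ 2 / 2 + F2 x0 * (y - x0) ^ 3 / 6)
        (F x0 + F1 x0 * (x - x0) + F2 x0 * (x - x0) ^ 2 / 2) x := by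
      intro x _
      have a1 := (hasDerivAt_id x).sub_const x0
      have a2 := a1.const_mul (F x0)
      have a3 := ((a1.pow 2).const_mul (F1 x0)).div_const 2
      have a4 := ((a1.pow 3).const_mul (F2 x0)).div_const 6
      have a5 := (a2.add a3).add a4
      refine (a5.congr_deriv ?_)
      simp
      ring
    rw [intervalIntegral.integral_eq_sub_of_hasDerivAt hd hPint]
    ring
  have hI : |∫ y in (x0 - 1 / 2)..(x0 + 1 / 2),
      (F y - (F x0 + F1 x0 * (y - x0) + F2 x0 * (y - x0) ^ 2 / 2))| ≤ M / 8 := by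
    have := intervalIntegral.norm_integral_le_of_norm_le_const (a := x0 - 1 / 2) (b := x0 + 1 / 2)
      (C := M / 8)
      (f := fun y => F y - (F x0 + F1 x0 * (y - x0) + F2 x0 * (y - x0) ^ 2 / 2)) (by
        intro x hx
        rw [Set.uIoc_of_le hle] at hx
        exact E0 x ⟨hx.1.le, hx.2⟩)
    rw [Real.norm_eq_abs] at this
    have e : |x0 + 1 / 2 - (x0 - 1 / 2)| = 1 := by
      rw [show x0 + 1 / 2 - (x0 - 1 / 2) = 1 by ring, abs_one]
    rw [e, mul_one] at this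
    exact this
  rw [intervalIntegral.integral_sub hFint hPint, hP] at hI
  have hR := E1 (x0 + 1 / 2) ⟨by linarith, le_rfl⟩
  have hL := E1 (x0 - 1 / 2) ⟨le_rfl, by linarith⟩
  rw [abs_le] at hI hR hL ⊢
  constructor
  · linarith [hI.1, hI.2, hR.1, hR.2, hL.1, hL.2]
  · linarith [hI.1, hI.2, hR.1, hR.2, hL.1, hL.2]
theorem h2_rpow_tele (s : ℝ) (hs : 1 ≤ s) (y : ℝ) (hy : 0 < y) :
    (y + 1) ^ (-(s + 1)) ≤ y ^ (-s) - (y + 1) ^ (-s) := by
  have h1 := one_add_mul_self_le_rpow_one_add (s := 1 / y) (by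
    have : 0 < 1 / y := by positivity
    linarith) hs
  have hy1 : 0 < y + 1 := by linarith
  have h2 : y ^ (-s) = (y + 1) ^ (-s) * (1 + 1 / y) ^ s := by
    have e1 : 1 + 1 / y = (y + 1) / y := by field_simp
    rw [e1, Real.div_rpow hy1.le hy.le, Real.rpow_neg hy.le, Real.rpow_neg hy1.le]
    have a1 : (y + 1) ^ s ≠ 0 := (Real.rpow_pos_of_pos hy1 s).ne'
    have a2 : y ^ s ≠ 0 := (Real.rpow_pos_of_pos hy s).ne'
    field_simp
  have h3 : (y + 1) ^ (-(s + 1)) = (y + 1) ^ (-s) * (1 / (y + 1)) := by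
    rw [show -(s + 1) = -s - 1 by ring, Real.rpow_sub_one hy1.ne']
    ring
  rw [h2, h3]
  have h4 : 0 < (y + 1) ^ (-s) := Real.rpow_pos_of_pos hy1 _
  have h5 : 1 / (y + 1) ≤ s * (1 / y) := by
    have b1 : 1 / (y + 1) ≤ 1 / y := one_div_le_one_div_of_le hy (by linarith)
    have b2 : 0 < 1 / y := by positivity
    nlinarith
  nlinarith
theorem h2_abs_midpoint (a : ℝ) (ha : 7 / 3 ≤ a) (B : ℝ) (hB : 0 ≤ B) (F F1 F2 F3 : ℝ → ℝ)
    (h0 : ∀ x > 0, HasDerivAt F (F1 x) x)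
    (h1 : ∀ x > 0, HasDerivAt F1 (F2 x) x) (h2 : ∀ x > 0, HasDerivAt F2 (F3 x) x)
    (b0 : ∀ x > 0, |F x| ≤ B * x ^ (-a)) (b1 : ∀ x > 0, |F1 x| ≤ B * x ^ (-(a + 1)))
    (b3 : ∀ x > 0, |F3 x| ≤ B * x ^ (-(a + 3))) (K : ℕ) (hK : 1 ≤ K) :
    |(∑' m : ℕ, F (K + 1 + m)) - (∫ x in Set.Ioi ((K : ℝ) + 1 / 2), F x)
      - 1 / 24 * F1 ((K : ℝ) + 1 / 2)| ≤ B * ((K : ℝ) - 1 / 2) ^ (-(a + 2)) := by
  have hK1 : (1 : ℝ) ≤ K := by exact_mod_cast hK
  have key : ∀ N : ℕ, |(∑ m ∈ Finset.range N, F (K + 1 + m))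
      - (∫ x in ((K : ℝ) + 1 / 2)..((K : ℝ) + 1 / 2 + N), F x)
      + 1 / 24 * (F1 ((K : ℝ) + 1 / 2 + N) - F1 ((K : ℝ) + 1 / 2))| ≤
      B * (((K : ℝ) - 1 / 2) ^ (-(a + 2)) - ((K : ℝ) - 1 / 2 + N) ^ (-(a + 2))) := by
    intro N
    induction N with
    | zero => simp
    | succ N ih =>
      have hN0 : (0 : ℝ) ≤ N := Nat.cast_nonneg N
      have hloc := h2_local_est F F1 F2 F3 h0 h1 h2 ((K : ℝ) + 1 + N) (by linarith)
        (B * ((K : ℝ) + 1 / 2 + N) ^ (-(a + 3)))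
        (mul_nonneg hB (Real.rpow_nonneg (by linarith) _)) (by
          intro x hx
          have hx1 : (K : ℝ) + 1 / 2 + N ≤ x := by linarith [hx.1]
          refine (b3 x (by linarith)).trans (mul_le_mul_of_nonneg_left ?_ hB)
          exact Real.rpow_le_rpow_of_nonpos (by linarith) hx1 (by linarith))
      have htele := h2_rpow_tele (a + 2) (by linarith) ((K : ℝ) - 1 / 2 + N) (by linarith)
      have e1 : (K : ℝ) - 1 / 2 + N + 1 = (K : ℝ) + 1 / 2 + N := by ring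
      rw [e1, show -(a + 2 + 1) = -(a + 3) by ring] at htele
      have e2 : (K : ℝ) - 1 / 2 + ((N + 1 : ℕ) : ℝ) = (K : ℝ) + 1 / 2 + N := by
        push_cast; ring
      have e3 : (K : ℝ) + 1 / 2 + ((N + 1 : ℕ) : ℝ) = (K : ℝ) + 1 / 2 + N + 1 := by
        push_cast; ring
      have e4 : (K : ℝ) + 1 + N - 1 / 2 = (K : ℝ) + 1 / 2 + N := by ring
      have e5 : (K : ℝ) + 1 + N + 1 / 2 = (K : ℝ) + 1 / 2 + N + 1 := by ring
      rw [e4, e5] at hloc
      rw [e2, e3, Finset.sum_range_succ]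
      have hint : ∀ u v : ℝ, 0 < u → u ≤ v → IntervalIntegrable F MeasureTheory.volume u v := by
        intro u v hu huv
        apply ContinuousOn.intervalIntegrable
        rw [Set.uIcc_of_le huv]
        exact fun x hx => (h0 x (lt_of_lt_of_le hu hx.1)).continuousAt.continuousWithinAt
      have hadd := intervalIntegral.integral_add_adjacent_intervals
        (hint ((K : ℝ) + 1 / 2) ((K : ℝ) + 1 / 2 + N) (by linarith) (by linarith))
        (hint ((K : ℝ) + 1 / 2 + N) ((K : ℝ) + 1 / 2 + N + 1) (by linarith) (by linarith))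
      rw [← hadd]
      have hB' := mul_le_mul_of_nonneg_left htele hB
      have hsum := add_le_add ih hloc
      refine le_trans (le_trans (le_of_eq ?_) (abs_add_le _ _)) (hsum.trans ?_)
      · congr 1
        ring
      · linarith
  have hsummable : Summable (fun m : ℕ => F (K + 1 + m)) := by
    have hs1 : Summable (fun m : ℕ => B * ((m + 1 : ℕ) : ℝ) ^ (-a)) := by
      have : Summable (fun m : ℕ => ((m : ℕ) : ℝ) ^ (-a)) :=
        Real.summable_nat_rpow.2 (by linarith)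
      exact ((summable_nat_add_iff 1).2 this).mul_left B
    refine Summable.of_norm_bounded hs1 fun m => ?_
    have hm0 : (0 : ℝ) ≤ m := Nat.cast_nonneg m
    rw [Real.norm_eq_abs]
    refine (b0 _ (by linarith)).trans (mul_le_mul_of_nonneg_left ?_ hB)
    exact Real.rpow_le_rpow_of_nonpos (by positivity) (by push_cast; linarith)
      (by linarith)
  have hintegrable : MeasureTheory.IntegrableOn F (Set.Ioi ((K : ℝ) + 1 / 2)) := by
    have hI1 : MeasureTheory.IntegrableOn (fun x : ℝ => B * x ^ (-a))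
        (Set.Ioi ((K : ℝ) + 1 / 2)) :=
      (integrableOn_Ioi_rpow_of_lt (by linarith) (by linarith)).const_mul B
    refine MeasureTheory.Integrable.mono' hI1 ?_ ?_
    · refine ContinuousOn.aestronglyMeasurable ?_ measurableSet_Ioi
      intro x hx
      have hx' : (K : ℝ) + 1 / 2 < x := hx
      exact (h0 x (by linarith)).continuousAt.continuousWithinAt
    · refine (MeasureTheory.ae_restrict_iff' measurableSet_Ioi).2 (Filter.Eventually.of_forall ?_)
      intro x hx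
      have hx' : (K : ℝ) + 1 / 2 < x := hx
      exact b0 x (by linarith)
  have htop : Tendsto (fun N : ℕ => (K : ℝ) + 1 / 2 + N) atTop atTop :=
    tendsto_atTop_add_const_left _ _ tendsto_natCast_atTop_atTop
  have lim1 : Tendsto (fun N : ℕ => ∑ m ∈ Finset.range N, F (K + 1 + m)) atTop
      (nhds (∑' m : ℕ, F (K + 1 + m))) := hsummable.hasSum.tendsto_sum_nat
  have lim2 : Tendsto (fun N : ℕ => ∫ x in ((K : ℝ) + 1 / 2)..((K : ℝ) + 1 / 2 + N), F x) atTop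
      (nhds (∫ x in Set.Ioi ((K : ℝ) + 1 / 2), F x)) :=
    MeasureTheory.intervalIntegral_tendsto_integral_Ioi _ hintegrable htop
  have lim3 : Tendsto (fun N : ℕ => F1 ((K : ℝ) + 1 / 2 + N)) atTop (nhds 0) := by
    have hb : Tendsto (fun N : ℕ => B * ((K : ℝ) + 1 / 2 + N) ^ (-(a + 1))) atTop (nhds 0) := by
      have := (tendsto_rpow_neg_atTop (y := a + 1) (by linarith)).comp htop
      simpa using this.const_mul B
    refine squeeze_zero_norm (fun N => ?_) hb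
    rw [Real.norm_eq_abs]
    have hN0 : (0 : ℝ) ≤ N := Nat.cast_nonneg N
    exact b1 _ (by linarith)
  have lim4 := ((lim1.sub lim2).add ((lim3.sub_const (F1 ((K : ℝ) + 1 / 2))).const_mul
    (1 / 24))).abs
  have hfin : |(∑' m : ℕ, F (K + 1 + m)) - (∫ x in Set.Ioi ((K : ℝ) + 1 / 2), F x)
      + 1 / 24 * (0 - F1 ((K : ℝ) + 1 / 2))| ≤ B * ((K : ℝ) - 1 / 2) ^ (-(a + 2)) := by
    refine le_of_tendsto lim4 (Filter.Eventually.of_forall fun N => ?_)
    refine (key N).trans ?_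
    have hN0 : (0 : ℝ) ≤ N := Nat.cast_nonneg N
    have : 0 ≤ ((K : ℝ) - 1 / 2 + N) ^ (-(a + 2)) := Real.rpow_nonneg (by linarith) _
    nlinarith
  refine le_trans (le_of_eq ?_) hfin
  congr 1
  ring
theorem h2_pw_eq (e : ℝ) (n : ℕ) (hn : 1 ≤ n) : pw e n = (n : ℝ) ^ (-e) := by
  have : (0 : ℝ) < n := by exact_mod_cast hn
  rw [pw, Real.rpow_def_of_pos this]
  congr 1
  ring
theorem midpoint_sum (c : ℝ) (hc : 0 < c) (p : ℕ) (q : ℝ) (hq : 7 / 3 ≤ q) :
    ∃ C : ℝ, ∀ (K : ℕ) (t : ℝ), 1 ≤ K → 0 < t → t * pw (-(2/3)) K ≤ 1 →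
      |(∑' m : ℕ, Real.exp (-(c * (t * pw (-(2/3)) (K + 1 + m)))) *
          (t * pw (-(2/3)) (K + 1 + m)) ^ p * pw q (K + 1 + m))
        - (∫ x in Set.Ioi ((K : ℝ) + 1 / 2), Real.exp (-(c * (t * x ^ (2 / 3 : ℝ)))) *
            (t * x ^ (2 / 3 : ℝ)) ^ p * x ^ (-q))
        - 1 / 24 * (Real.exp (-(c * (t * ((K : ℝ) + 1 / 2) ^ (2 / 3 : ℝ)))) *
            (t * ((K : ℝ) + 1 / 2) ^ (2 / 3 : ℝ)) ^ p * ((K : ℝ) + 1 / 2) ^ (-q - 1) *
            (2 / 3 * p - q - 2 / 3 * c * (t * ((K : ℝ) + 1 / 2) ^ (2 / 3 : ℝ))))| ≤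
        C * pw (q + 2) K := by
  obtain ⟨B0, hB0, hb0⟩ := h2_FF_bdd c hc q (Polynomial.X ^ p)
  obtain ⟨B1, hB1, hb1⟩ := h2_FF_bdd c hc (q + 1) (h2_DD c q (Polynomial.X ^ p))
  obtain ⟨B3, hB3, hb3⟩ := h2_FF_bdd c hc (q + 1 + 1 + 1)
    (h2_DD c (q + 1 + 1) (h2_DD c (q + 1) (h2_DD c q (Polynomial.X ^ p))))
  refine ⟨(B0 + B1 + B3) * 2 ^ (q + 2), fun K t hK ht _ => ?_⟩
  have hK1 : (1 : ℝ) ≤ K := by exact_mod_cast hK
  have hmain := h2_abs_midpoint q hq (B0 + B1 + B3) (by linarith)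
    (h2_FF c t q (Polynomial.X ^ p)) (h2_FF c t (q + 1) (h2_DD c q (Polynomial.X ^ p)))
    (h2_FF c t (q + 1 + 1) (h2_DD c (q + 1) (h2_DD c q (Polynomial.X ^ p))))
    (h2_FF c t (q + 1 + 1 + 1) (h2_DD c (q + 1 + 1) (h2_DD c (q + 1) (h2_DD c q (Polynomial.X ^ p)))))
    (fun x hx => h2_hasDerivAt_FF c t q _ hx) (fun x hx => h2_hasDerivAt_FF c t (q + 1) _ hx)
    (fun x hx => h2_hasDerivAt_FF c t (q + 1 + 1) _ hx)
    (fun x hx => (hb0 t ht x hx).trans
      (mul_le_mul_of_nonneg_right (by linarith) (Real.rpow_nonneg (le_of_lt hx) _)))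
    (fun x hx => (hb1 t ht x hx).trans
      (mul_le_mul_of_nonneg_right (by linarith) (Real.rpow_nonneg (le_of_lt hx) _)))
    (fun x hx => by
      have := hb3 t ht x hx
      rw [show q + 1 + 1 + 1 = q + 3 by ring] at this ⊢
      exact this.trans
        (mul_le_mul_of_nonneg_right (by linarith) (Real.rpow_nonneg (le_of_lt hx) _))) K hK
  have e1 : ∀ m : ℕ, Real.exp (-(c * (t * pw (-(2/3)) (K + 1 + m)))) *
      (t * pw (-(2/3)) (K + 1 + m)) ^ p * pw q (K + 1 + m) =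
      h2_FF c t q (Polynomial.X ^ p) ((K : ℝ) + 1 + m) := by
    intro m
    rw [h2_pw_eq _ _ (by omega), h2_pw_eq _ _ (by omega), neg_neg]
    unfold h2_FF
    rw [Polynomial.eval_pow, Polynomial.eval_X]
    push_cast
    rfl
  have e2 : ∀ x : ℝ, Real.exp (-(c * (t * x ^ (2 / 3 : ℝ)))) *
            (t * x ^ (2 / 3 : ℝ)) ^ p * x ^ (-q) = h2_FF c t q (Polynomial.X ^ p) x := by
    intro x
    unfold h2_FF
    rw [Polynomial.eval_pow, Polynomial.eval_X]
  have e3 : Real.exp (-(c * (t * ((K : ℝ) + 1 / 2) ^ (2 / 3 : ℝ)))) *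
            (t * ((K : ℝ) + 1 / 2) ^ (2 / 3 : ℝ)) ^ p * ((K : ℝ) + 1 / 2) ^ (-q - 1) *
            (2 / 3 * p - q - 2 / 3 * c * (t * ((K : ℝ) + 1 / 2) ^ (2 / 3 : ℝ))) =
      h2_FF c t (q + 1) (h2_DD c q (Polynomial.X ^ p)) ((K : ℝ) + 1 / 2) := by
    unfold h2_FF h2_DD
    rw [show -(q + 1) = -q - 1 by ring]
    simp only [Polynomial.eval_sub, Polynomial.eval_mul, Polynomial.eval_C, Polynomial.eval_X,
      Polynomial.derivative_X_pow, Polynomial.eval_pow]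
    generalize t * ((K : ℝ) + 1 / 2) ^ (2 / 3 : ℝ) = u
    have e4 : u * ((p : ℝ) * u ^ (p - 1)) = p * u ^ p := by
      rcases Nat.eq_zero_or_pos p with hp | hp
      · subst hp; simp
      · obtain ⟨r, rfl⟩ : ∃ r, p = r + 1 := ⟨p - 1, by omega⟩
        rw [Nat.add_sub_cancel, pow_succ]
        ring
    have e5 : 2 / 3 * u * ((p : ℝ) * u ^ (p - 1)) = 2 / 3 * (p * u ^ p) := by
      rw [← e4]; ring
    rw [e5]
    ring
  have e6 : ∀ x : ℝ, x ^ (-q) = x ^ (-q) := fun _ => rfl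
  rw [tsum_congr e1, e3]
  simp only [e2]
  refine hmain.trans ?_
  rw [h2_pw_eq _ _ hK, mul_assoc]
  apply mul_le_mul_of_nonneg_left _ (by linarith)
  have h1 : ((K : ℝ) - 1 / 2) ^ (-(q + 2)) ≤ ((K : ℝ) / 2) ^ (-(q + 2)) :=
    Real.rpow_le_rpow_of_nonpos (by linarith) (by linarith) (by linarith)
  refine h1.trans (le_of_eq ?_)
  rw [Real.div_rpow (by linarith) (by norm_num), Real.rpow_neg (by norm_num : (0:ℝ) ≤ 2)]
  rw [div_inv_eq_mul, mul_comm]

end Pool.Agent.Helper615.LogA
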