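import Mathlib
import Pool.Agent.Helper615.LogA.Defs
import Pool.Agent.Helper615.LogA.G1
import Pool.Agent.Helper615.LogA.H1
import Pool.Agent.Helper615.LogA.H2
set_option autoImplicit false

namespace Pool.Agent.Helper615.LogA

open Filter Asymptotics
noncomputable def h3_Vk (K : ℕ) : ℝ := ((K : ℝ) + 1 / 2) ^ (2 / 3 : ℝ)
noncomputable def h3_Ig (c e y : ℝ) : ℝ := ∫ u in Set.Ioi y, u ^ (-e - 1) * Real.exp (-(c * u))
theorem h3_one_le_pwm (K : ℕ) : 1 ≤ pw (-(2/3)) K := by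
  unfold pw
  apply Real.one_le_exp
  have := Real.log_natCast_nonneg K
  linarith
theorem h3_pwm_eq {K : ℕ} (hK : 1 ≤ K) : pw (-(2/3)) K = (K : ℝ) ^ (2 / 3 : ℝ) := by
  unfold pw
  rw [Real.rpow_def_of_pos (by exact_mod_cast hK)]
  congr 1
  ring
theorem h3_Vk_le {K : ℕ} (hK : 1 ≤ K) : h3_Vk K ≤ 2 * pw (-(2/3)) K := by
  rw [h3_pwm_eq hK]
  have hK' : (1 : ℝ) ≤ K := by exact_mod_cast hK
  have h1 : h3_Vk K ≤ (2 * K : ℝ) ^ (2 / 3 : ℝ) := by
    unfold h3_Vk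
    exact Real.rpow_le_rpow (by positivity) (by linarith) (by norm_num)
  rw [Real.mul_rpow (by norm_num) (by positivity)] at h1
  have h2 : (2 : ℝ) ^ (2 / 3 : ℝ) ≤ 2 := by
    calc (2 : ℝ) ^ (2 / 3 : ℝ) ≤ 2 ^ (1 : ℝ) :=
          Real.rpow_le_rpow_of_exponent_le (by norm_num) (by norm_num)
      _ = 2 := Real.rpow_one 2
  exact h1.trans (mul_le_mul_of_nonneg_right h2 (by positivity))
theorem h3_one_le_Vk {K : ℕ} (hK : 1 ≤ K) : 1 ≤ h3_Vk K := by
  have hK' : (1 : ℝ) ≤ K := by exact_mod_cast hK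
  exact Real.one_le_rpow (by linarith) (by norm_num)
theorem h3_Vk_pos (K : ℕ) : 0 < h3_Vk K := by
  unfold h3_Vk; positivity
theorem An.zero : An (fun _ _ => 0) := by
  refine (An.monomial (fun _ => 0) 0 ⟨0, ?_⟩).congr ?_
  · exact Eventually.of_forall fun K => by simp
  · exact Eventually.of_forall fun K t _ _ => by simp
theorem An.h3_sum (n : ℕ) (F : ℕ → ℕ → ℝ → ℝ) (h : ∀ j < n, An (F j)) :
    An (fun K t => ∑ j ∈ Finset.range n, F j K t) := by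
  induction n with
  | zero => simpa using An.zero
  | succ n ih =>
    simp only [Finset.sum_range_succ]
    exact (ih fun j hj => h j (by omega)).add (h n (by omega))
theorem An.approx {F : ℕ → ℝ → ℝ} (h : ∀ J : ℕ, ∃ G : ℕ → ℝ → ℝ, An G ∧ ∃ C : ℝ,
    ∀ᶠ K : ℕ in atTop, ∀ t : ℝ, 0 < t → t * pw (-(2/3)) K ≤ 1 →
      |F K t - G K t| ≤ C * (t * pw (-(2/3)) K) ^ (J + 1)) : An F := by
  intro J
  obtain ⟨G, hG, C1, h1⟩ := h J
  obtain ⟨C2, a, h2⟩ := hG J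
  refine ⟨max C2 (C1 + C2), a, ?_⟩
  filter_upwards [h1, h2] with K h1 h2
  have hp : 0 < pw (-(2/3)) K := by linarith [h3_one_le_pwm K]
  refine ⟨fun j hj => (h2.1 j hj).trans ?_, fun t ht htK => ?_⟩
  · exact mul_le_mul_of_nonneg_right (le_max_left _ _) (by positivity)
  · have h3 := h1 t ht htK
    have h4 := h2.2 t ht htK
    have h5 : |F K t - ∑ j ∈ Finset.range (J + 1), a K j * t ^ j| ≤
        |F K t - G K t| + |G K t - ∑ j ∈ Finset.range (J + 1), a K j * t ^ j| := by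
      have := abs_add_le (F K t - G K t) (G K t - ∑ j ∈ Finset.range (J + 1), a K j * t ^ j)
      rwa [sub_add_sub_cancel] at this
    calc _ ≤ _ := h5
      _ ≤ C1 * (t * pw (-(2/3)) K) ^ (J + 1) + C2 * (t * pw (-(2/3)) K) ^ (J + 1) :=
        add_le_add h3 h4
      _ = (C1 + C2) * (t * pw (-(2/3)) K) ^ (J + 1) := by ring
      _ ≤ _ := mul_le_mul_of_nonneg_right (le_max_right _ _) (by positivity)
theorem h3_change_var (c : ℝ) (p : ℕ) (q s : ℝ) (hs : s = 3 / 2 * (q - 1)) (K : ℕ) (t : ℝ)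
    (ht : 0 < t) :
    (∫ x in Set.Ioi ((K : ℝ) + 1 / 2), Real.exp (-(c * (t * x ^ (2 / 3 : ℝ)))) *
      (t * x ^ (2 / 3 : ℝ)) ^ p * x ^ (-q)) = 3 / 2 * t ^ s * h3_Ig c (s - p) (t * h3_Vk K) := by
  have ha : (0 : ℝ) < (K : ℝ) + 1 / 2 := by positivity
  have h1 : h3_Ig c (s - p) (t * h3_Vk K) = t * ∫ v in Set.Ioi (h3_Vk K),
      (t * v) ^ (-(s - p) - 1) * Real.exp (-(c * (t * v))) := by
    have := MeasureTheory.integral_comp_mul_left_Ioi
      (fun u : ℝ => u ^ (-(s - p) - 1) * Real.exp (-(c * u))) (h3_Vk K) ht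
    rw [this, smul_eq_mul, ← mul_assoc, mul_inv_cancel₀ ht.ne', one_mul]
    rfl
  have h2 : (∫ v in Set.Ioi (h3_Vk K), (t * v) ^ (-(s - p) - 1) * Real.exp (-(c * (t * v)))) =
      ∫ x in Set.Ioi ((K : ℝ) + 1 / 2), (2 / 3 * x ^ ((2 / 3 : ℝ) - 1)) *
        ((t * x ^ (2 / 3 : ℝ)) ^ (-(s - p) - 1) * Real.exp (-(c * (t * x ^ (2 / 3 : ℝ))))) := by
    set g : ℝ → ℝ := fun v => (t * v) ^ (-(s - p) - 1) * Real.exp (-(c * (t * v))) with hg
    have h3 := MeasureTheory.integral_comp_rpow_Ioi_of_pos (g := (Set.Ioi (h3_Vk K)).indicator g)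
      (p := (2 / 3 : ℝ)) (by norm_num)
    have h4 : (∫ y in Set.Ioi (0 : ℝ), (Set.Ioi (h3_Vk K)).indicator g y) =
        ∫ y in Set.Ioi (h3_Vk K), g y := by
      rw [MeasureTheory.setIntegral_indicator measurableSet_Ioi]
      congr 2
      ext y
      simp only [Set.mem_inter_iff, Set.mem_Ioi]
      constructor
      · exact fun h => h.2
      · exact fun h => ⟨(h3_Vk_pos K).trans h, h⟩
    rw [h4] at h3
    rw [← h3]
    have h5 : ∀ x ∈ Set.Ioi (0 : ℝ), ((2 / 3 : ℝ) * x ^ ((2 / 3 : ℝ) - 1)) •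
        (Set.Ioi (h3_Vk K)).indicator g (x ^ (2 / 3 : ℝ)) =
        (Set.Ioi ((K : ℝ) + 1 / 2)).indicator (fun x : ℝ =>
          ((2 / 3 : ℝ) * x ^ ((2 / 3 : ℝ) - 1)) * g (x ^ (2 / 3 : ℝ))) x := by
      intro x hx
      rw [Set.mem_Ioi] at hx
      have h6 : x ^ (2 / 3 : ℝ) ∈ Set.Ioi (h3_Vk K) ↔ x ∈ Set.Ioi ((K : ℝ) + 1 / 2) := by
        rw [Set.mem_Ioi, Set.mem_Ioi]
        unfold h3_Vk
        exact Real.rpow_lt_rpow_iff ha.le hx.le (by norm_num)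
      by_cases h7 : x ∈ Set.Ioi ((K : ℝ) + 1 / 2)
      · rw [Set.indicator_of_mem h7, Set.indicator_of_mem (h6.2 h7), smul_eq_mul]
      · rw [Set.indicator_of_notMem h7, Set.indicator_of_notMem (fun h => h7 (h6.1 h)), smul_zero]
    rw [MeasureTheory.setIntegral_congr_fun measurableSet_Ioi h5,
      MeasureTheory.setIntegral_indicator measurableSet_Ioi]
    congr 2
    ext y
    simp only [Set.mem_inter_iff, Set.mem_Ioi]
    constructor
    · exact fun h => h.2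
    · exact fun h => ⟨ha.trans h, h⟩
  rw [h1, h2, ← MeasureTheory.integral_const_mul, ← MeasureTheory.integral_const_mul]
  apply MeasureTheory.setIntegral_congr_fun measurableSet_Ioi
  intro x hx
  have hx0 : 0 < x := ha.trans hx
  have hy : 0 < t * x ^ (2 / 3 : ℝ) := by positivity
  have e1 : (t * x ^ (2 / 3 : ℝ)) ^ (-(s - p) - 1) =
      (t * x ^ (2 / 3 : ℝ)) ^ p * (t ^ (-s - 1) * x ^ (2 / 3 * (-s - 1))) := by
    rw [show -(s - (p : ℝ)) - 1 = p + (-s - 1) by ring, Real.rpow_add hy, Real.rpow_natCast,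
      Real.mul_rpow ht.le (by positivity), ← Real.rpow_mul hx0.le]
  have e2 : x ^ (-q) = x ^ ((2 / 3 : ℝ) - 1) * x ^ (2 / 3 * (-s - 1)) := by
    rw [← Real.rpow_add hx0]
    congr 1
    rw [hs]; ring
  have e3 : t ^ s * t * t ^ (-s - 1) = 1 := by
    rw [show t ^ s * t = t ^ (s + 1) by rw [Real.rpow_add ht, Real.rpow_one], ← Real.rpow_add ht,
      show s + 1 + (-s - 1) = 0 by ring, Real.rpow_zero]
  simp only
  rw [e1, e2]
  linear_combination (-(Real.exp (-(c * (t * x ^ (2 / 3 : ℝ)))) * (t * x ^ (2 / 3 : ℝ)) ^ p *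
    (x ^ ((2 / 3 : ℝ) - 1) * x ^ (2 / 3 * (-s - 1))))) * e3
theorem h3_An_bdry (c : ℝ) (p : ℕ) (q : ℝ) (hq : 7 / 3 ≤ q) :
    An (fun K t => t / 24 * (Real.exp (-(c * (t * ((K : ℝ) + 1 / 2) ^ (2 / 3 : ℝ)))) *
            (t * ((K : ℝ) + 1 / 2) ^ (2 / 3 : ℝ)) ^ p * ((K : ℝ) + 1 / 2) ^ (-q - 1) *
            (2 / 3 * p - q - 2 / 3 * c * (t * ((K : ℝ) + 1 / 2) ^ (2 / 3 : ℝ))))) := by
  have hsm : ∀ K : ℕ, 1 ≤ K → ((K : ℝ) + 1 / 2) ^ (-q - 1) ≤ 1 := by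
    intro K hK
    have hK' : (1 : ℝ) ≤ K := by exact_mod_cast hK
    exact Real.rpow_le_one_of_one_le_of_nonpos (by linarith) (by linarith)
  have h1 : An (fun K t => Real.exp (∑ i ∈ Finset.Icc 1 1, (fun K _ => -(c * h3_Vk K)) K i * t ^ i)) := by
    apply An.exp_poly 1 (fun K _ => -(c * h3_Vk K))
    intro i hi1 hi2
    refine ⟨|c| * 2, ?_⟩
    filter_upwards [eventually_ge_atTop 1] with K hK
    have : i = 1 := by omega
    subst this
    rw [abs_neg, abs_mul, abs_of_pos (h3_Vk_pos K), pow_one, mul_assoc]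
    exact mul_le_mul_of_nonneg_left (h3_Vk_le hK) (abs_nonneg _)
  have hmon : ∀ (B : ℝ) (n : ℕ), n ≤ p + 1 → ∀ᶠ K : ℕ in atTop,
      |B * ((K : ℝ) + 1 / 2) ^ (-q - 1) * h3_Vk K ^ n| ≤ (|B| * 2 ^ n) * pw (-(2/3)) K ^ (n + 1) := by
    intro B n hn
    filter_upwards [eventually_ge_atTop 1] with K hK
    have hpos : 0 < ((K : ℝ) + 1 / 2) ^ (-q - 1) := by positivity
    have hV := h3_Vk_pos K
    rw [abs_mul, abs_mul, abs_of_pos hpos, abs_of_pos (pow_pos hV n)]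
    have e1 : |B| * ((K : ℝ) + 1 / 2) ^ (-q - 1) ≤ |B| * 1 :=
      mul_le_mul_of_nonneg_left (hsm K hK) (abs_nonneg _)
    have e2 : h3_Vk K ^ n ≤ (2 * pw (-(2/3)) K) ^ n := pow_le_pow_left₀ hV.le (h3_Vk_le hK) n
    have hp1 := h3_one_le_pwm K
    calc |B| * ((K : ℝ) + 1 / 2) ^ (-q - 1) * h3_Vk K ^ n ≤ |B| * 1 * (2 * pw (-(2/3)) K) ^ n :=
          mul_le_mul e1 e2 (by positivity) (by positivity)
      _ = |B| * 2 ^ n * pw (-(2/3)) K ^ n := by rw [mul_pow]; ring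
      _ ≤ |B| * 2 ^ n * pw (-(2/3)) K ^ (n + 1) :=
          mul_le_mul_of_nonneg_left (pow_le_pow_right₀ hp1 (Nat.le_succ n)) (by positivity)
  have h2 : An (fun K t => (1 / 24 * (2 / 3 * p - q)) * ((K : ℝ) + 1 / 2) ^ (-q - 1) * h3_Vk K ^ p *
      t ^ (p + 1)) := An.monomial (fun K => (1 / 24 * (2 / 3 * p - q)) *
        ((K : ℝ) + 1 / 2) ^ (-q - 1) * h3_Vk K ^ p) (p + 1) ⟨_, hmon _ p (Nat.le_succ p)⟩
  have h3 : An (fun K t => (-(1 / 24 * (2 / 3 * c))) * ((K : ℝ) + 1 / 2) ^ (-q - 1) *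
      h3_Vk K ^ (p + 1) * t ^ (p + 1 + 1)) := An.monomial (fun K => (-(1 / 24 * (2 / 3 * c))) *
        ((K : ℝ) + 1 / 2) ^ (-q - 1) * h3_Vk K ^ (p + 1)) (p + 1 + 1) ⟨_, hmon _ (p + 1) le_rfl⟩
  refine (h1.mul (h2.add h3)).congr ?_
  refine Eventually.of_forall fun K t _ _ => ?_
  simp only [Finset.Icc_self, Finset.sum_singleton, pow_one]
  have e4 : ((K : ℝ) + 1 / 2) ^ (2 / 3 : ℝ) = h3_Vk K := rfl
  rw [e4, show -(c * h3_Vk K) * t = -(c * (t * h3_Vk K)) by ring]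
  ring
theorem h3_An_logpart (lam₀ s : ℝ) (p : ℕ) (h : (∃ n : ℕ, s - p = n) ∨ lam₀ = 0) :
    An (fun K t => 3 / 2 * lam₀ * t ^ (s + 1) * Real.log (h3_Vk K)) := by
  rcases h with ⟨n, hn⟩ | h0
  · have h1 : An (fun K t => (3 / 2 * lam₀ * Real.log (h3_Vk K)) * t ^ (n + p + 1)) := by
      apply An.monomial (fun K => 3 / 2 * lam₀ * Real.log (h3_Vk K))
      refine ⟨|3 / 2 * lam₀| * 2, ?_⟩
      filter_upwards [eventually_ge_atTop 1] with K hK
      have hp1 := h3_one_le_pwm K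
      rw [abs_mul, abs_of_nonneg (Real.log_nonneg (h3_one_le_Vk hK)), mul_assoc]
      apply mul_le_mul_of_nonneg_left _ (abs_nonneg _)
      calc Real.log (h3_Vk K) ≤ h3_Vk K := Real.log_le_self (h3_Vk_pos K).le
        _ ≤ 2 * pw (-(2/3)) K := h3_Vk_le hK
        _ = 2 * pw (-(2/3)) K ^ 1 := by rw [pow_one]
        _ ≤ 2 * pw (-(2/3)) K ^ (n + p + 1) :=
          mul_le_mul_of_nonneg_left (pow_le_pow_right₀ hp1 (by omega)) (by norm_num)
    refine h1.congr (Eventually.of_forall fun K t ht _ => ?_)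
    have h2 : t ^ (s + 1) = t ^ (n + p + 1) := by
      rw [show s + 1 = ((n + p + 1 : ℕ) : ℝ) by push_cast; linarith, Real.rpow_natCast]
    rw [h2]; ring
  · refine An.zero.congr (Eventually.of_forall fun K t _ _ => ?_)
    rw [h0]; ring
theorem h3_An_main (c : ℝ) (s : ℝ) (hs : 0 ≤ s) (p : ℕ) (κ lam : ℝ)
    (hJ : ∀ J : ℕ, s - p < J + 1 → ∃ C : ℝ, ∀ y : ℝ, 0 < y → y ≤ 2 →
      |h3_Ig c (s - p) y - κ - lam * Real.log y
        - ∑ j ∈ Finset.range (J + 1), (if (j : ℝ) = s - p then 0 else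
            (-c) ^ j / j.factorial * (y ^ (j - (s - p)) / ((s - p) - j)))| ≤
        C * y ^ (J + 1 - (s - p))) :
    An (fun K t => 3 / 2 * t ^ (s + 1) *
      (h3_Ig c (s - p) (t * h3_Vk K) - κ - lam * Real.log (t * h3_Vk K))) := by
  apply An.approx
  intro J
  obtain ⟨N, hN⟩ := exists_nat_ge (s - p)
  obtain ⟨C, hC⟩ := hJ (J + N) (by push_cast; linarith [(Nat.cast_nonneg J : (0 : ℝ) ≤ J)])
  set b : ℕ → ℝ := fun j => if (j : ℝ) = s - p then 0 else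
    3 / 2 * ((-c) ^ j / j.factorial * (1 / ((s - p) - j))) with hb
  refine ⟨fun K t => ∑ j ∈ Finset.range (J + N + 1), (b j * h3_Vk K ^ ((j : ℝ) - (s - p))) *
    t ^ (1 + p + j), ?_, |C| * (3 / 2) * 2 ^ (J + N + 2 + p), ?_⟩
  · apply An.h3_sum _ (fun j K t => (b j * h3_Vk K ^ ((j : ℝ) - (s - p))) * t ^ (1 + p + j))
    intro j _
    apply An.monomial (fun K => b j * h3_Vk K ^ ((j : ℝ) - (s - p)))
    refine ⟨|b j| * 2 ^ (j + p), ?_⟩
    filter_upwards [eventually_ge_atTop 1] with K hK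
    have hV := h3_Vk_pos K
    have hp1 := h3_one_le_pwm K
    rw [abs_mul, abs_of_pos (Real.rpow_pos_of_pos hV _), mul_assoc]
    apply mul_le_mul_of_nonneg_left _ (abs_nonneg _)
    calc h3_Vk K ^ ((j : ℝ) - (s - p)) ≤ h3_Vk K ^ (((j + p : ℕ) : ℝ)) :=
          Real.rpow_le_rpow_of_exponent_le (h3_one_le_Vk hK) (by push_cast; linarith)
      _ = h3_Vk K ^ (j + p) := Real.rpow_natCast _ _
      _ ≤ (2 * pw (-(2/3)) K) ^ (j + p) := pow_le_pow_left₀ hV.le (h3_Vk_le hK) _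
      _ = 2 ^ (j + p) * pw (-(2/3)) K ^ (j + p) := mul_pow _ _ _
      _ ≤ 2 ^ (j + p) * pw (-(2/3)) K ^ (1 + p + j) :=
          mul_le_mul_of_nonneg_left (pow_le_pow_right₀ hp1 (by omega)) (by positivity)
  · filter_upwards [eventually_ge_atTop 1] with K hK t ht htK
    have hV := h3_Vk_pos K
    have hV1 := h3_one_le_Vk hK
    have hVle := h3_Vk_le hK
    have hp1 := h3_one_le_pwm K
    have hy0 : 0 < t * h3_Vk K := by positivity
    have hy2 : t * h3_Vk K ≤ 2 * (t * pw (-(2/3)) K) := by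
      calc t * h3_Vk K ≤ t * (2 * pw (-(2/3)) K) := mul_le_mul_of_nonneg_left hVle ht.le
        _ = _ := by ring
    have h1 := hC (t * h3_Vk K) hy0 (by linarith)
    have hterm : ∀ j : ℕ, 3 / 2 * t ^ (s + 1) * (if (j : ℝ) = s - p then 0 else
            (-c) ^ j / j.factorial * ((t * h3_Vk K) ^ (j - (s - p)) / ((s - p) - j))) =
          (b j * h3_Vk K ^ ((j : ℝ) - (s - p))) * t ^ (1 + p + j) := by
      intro j
      simp only [hb]
      by_cases hj : (j : ℝ) = s - p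
      · simp [hj]
      · rw [if_neg hj, if_neg hj, Real.mul_rpow ht.le hV.le]
        have e1 : t ^ (s + 1) * t ^ ((j : ℝ) - (s - p)) = t ^ (1 + p + j) := by
          rw [← Real.rpow_add ht, show s + 1 + ((j : ℝ) - (s - p)) = ((1 + p + j : ℕ) : ℝ) by
            push_cast; ring, Real.rpow_natCast]
        rw [← e1]
        ring
    have h2 : 3 / 2 * t ^ (s + 1) * (h3_Ig c (s - p) (t * h3_Vk K) - κ - lam * Real.log (t * h3_Vk K)) -
        ∑ j ∈ Finset.range (J + N + 1), (b j * h3_Vk K ^ ((j : ℝ) - (s - p))) * t ^ (1 + p + j) =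
        3 / 2 * t ^ (s + 1) * (h3_Ig c (s - p) (t * h3_Vk K) - κ - lam * Real.log (t * h3_Vk K) -
          ∑ j ∈ Finset.range (J + N + 1), (if (j : ℝ) = s - p then 0 else
            (-c) ^ j / j.factorial * ((t * h3_Vk K) ^ (j - (s - p)) / ((s - p) - j)))) := by
      rw [← Finset.sum_congr rfl fun j _ => hterm j, ← Finset.mul_sum]
      ring
    rw [h2, abs_mul, abs_of_pos (by positivity : (0 : ℝ) < 3 / 2 * t ^ (s + 1))]
    have h3 : t ^ (s + 1) ≤ (t * h3_Vk K) ^ (s + 1) := by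
      apply Real.rpow_le_rpow ht.le _ (by linarith)
      exact le_mul_of_one_le_right ht.le hV1
    have h4 : (t * h3_Vk K) ^ (s + 1) * (t * h3_Vk K) ^ (((J + N : ℕ) : ℝ) + 1 - (s - p)) =
        (t * h3_Vk K) ^ (J + N + 2 + p) := by
      rw [← Real.rpow_add hy0, ← Real.rpow_natCast]
      congr 1
      push_cast
      ring
    have hz0 : 0 < t * pw (-(2/3)) K := by positivity
    calc 3 / 2 * t ^ (s + 1) * _ ≤ 3 / 2 * t ^ (s + 1) *
          (C * (t * h3_Vk K) ^ (((J + N : ℕ) : ℝ) + 1 - (s - p))) :=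
          mul_le_mul_of_nonneg_left h1 (by positivity)
      _ ≤ 3 / 2 * (t * h3_Vk K) ^ (s + 1) *
          (|C| * (t * h3_Vk K) ^ (((J + N : ℕ) : ℝ) + 1 - (s - p))) := by
          apply mul_le_mul
          · exact mul_le_mul_of_nonneg_left h3 (by norm_num)
          · exact mul_le_mul_of_nonneg_right (le_abs_self C) (by positivity)
          · exact (abs_nonneg _).trans h1
          · positivity
      _ = |C| * (3 / 2) * (t * h3_Vk K) ^ (J + N + 2 + p) := by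
          rw [← h4]; ring
      _ ≤ |C| * (3 / 2) * (2 * (t * pw (-(2/3)) K)) ^ (J + N + 2 + p) :=
          mul_le_mul_of_nonneg_left (pow_le_pow_left₀ hy0.le hy2 _) (by positivity)
      _ = |C| * (3 / 2) * 2 ^ (J + N + 2 + p) * (t * pw (-(2/3)) K) ^ (J + N + 2 + p) := by
          rw [mul_pow]; ring
      _ ≤ |C| * (3 / 2) * 2 ^ (J + N + 2 + p) * (t * pw (-(2/3)) K) ^ (J + 1) :=
          mul_le_mul_of_nonneg_left (pow_le_pow_of_le_one hz0.le htK (by omega)) (by positivity)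
theorem xi_expansion (c : ℝ) (hc : 0 < c) (p : ℕ) (q : ℝ) (hq : 7 / 3 ≤ q) :
    ∃ (κ lam : ℝ) (A : ℕ → ℝ → ℝ) (C : ℝ), An A ∧
      (p = 0 → q = 7 / 3 → lam = -(3 / 4 * c ^ 2)) ∧
      ∀ᶠ K : ℕ in atTop, ∀ t : ℝ, 0 < t → t * pw (-(2/3)) K ≤ 1 →
        |t * (∑' m : ℕ, Real.exp (-(c * (t * pw (-(2/3)) (K + 1 + m)))) *
            (t * pw (-(2/3)) (K + 1 + m)) ^ p * pw q (K + 1 + m))
          - (κ * t ^ (1 + 3 / 2 * (q - 1)) + lam * (t ^ (1 + 3 / 2 * (q - 1)) * Real.log t))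
          - A K t| ≤ C * (t * pw (13/3) K) := by
  obtain ⟨s, hs⟩ : ∃ s : ℝ, s = 3 / 2 * (q - 1) := ⟨_, rfl⟩
  have hs2 : 2 ≤ s := by rw [hs]; linarith
  obtain ⟨κ₀, lam₀, hl1, hl2, hJ⟩ := gamma_tail c (s - p) hc
  obtain ⟨C, hC⟩ := midpoint_sum c hc p q hq
  refine ⟨3 / 2 * κ₀, 3 / 2 * lam₀, fun K t => 3 / 2 * t ^ (s + 1) *
      (h3_Ig c (s - p) (t * h3_Vk K) - κ₀ - lam₀ * Real.log (t * h3_Vk K)) +
      3 / 2 * lam₀ * t ^ (s + 1) * Real.log (h3_Vk K) +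
      t / 24 * (Real.exp (-(c * (t * ((K : ℝ) + 1 / 2) ^ (2 / 3 : ℝ)))) *
            (t * ((K : ℝ) + 1 / 2) ^ (2 / 3 : ℝ)) ^ p * ((K : ℝ) + 1 / 2) ^ (-q - 1) *
            (2 / 3 * p - q - 2 / 3 * c * (t * ((K : ℝ) + 1 / 2) ^ (2 / 3 : ℝ)))),
      |C|, ?_, ?_, ?_⟩
  · refine ((h3_An_main c s (by linarith) p κ₀ lam₀ hJ).add (h3_An_logpart lam₀ s p ?_)).add
      (h3_An_bdry c p q hq)
    by_cases h : ∃ n : ℕ, s - p = n
    · exact Or.inl h
    · push Not at h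
      exact Or.inr (hl2 h)
  · intro hp hq'
    have h1 := hl1 2 (by rw [hs, hp, hq']; norm_num)
    rw [h1]
    norm_num [Nat.factorial]
    ring
  · filter_upwards [eventually_ge_atTop 1] with K hK t ht htK
    have h1 := hC K t hK ht htK
    rw [h3_change_var c p q s hs K t ht] at h1
    have hlog : Real.log (t * h3_Vk K) = Real.log t + Real.log (h3_Vk K) :=
      Real.log_mul ht.ne' (h3_Vk_pos K).ne'
    have hts : t ^ (s + 1) = t * t ^ s := by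
      rw [Real.rpow_add ht, Real.rpow_one, mul_comm]
    have hexp : 1 + 3 / 2 * (q - 1) = s + 1 := by rw [hs]; ring
    rw [hexp]
    have h2 : pw (q + 2) K ≤ pw (13/3) K := by
      unfold pw
      apply Real.exp_le_exp.2
      have := Real.log_natCast_nonneg K
      have h3 : 13 / 3 * Real.log K ≤ (q + 2) * Real.log K :=
        mul_le_mul_of_nonneg_right (by linarith) this
      linarith
    have hpw : 0 < pw (q + 2) K := Real.exp_pos _
    set S : ℝ := ∑' m : ℕ, Real.exp (-(c * (t * pw (-(2/3)) (K + 1 + m)))) *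
            (t * pw (-(2/3)) (K + 1 + m)) ^ p * pw q (K + 1 + m) with hS
    set B : ℝ := (Real.exp (-(c * (t * ((K : ℝ) + 1 / 2) ^ (2 / 3 : ℝ)))) *
            (t * ((K : ℝ) + 1 / 2) ^ (2 / 3 : ℝ)) ^ p * ((K : ℝ) + 1 / 2) ^ (-q - 1) *
            (2 / 3 * p - q - 2 / 3 * c * (t * ((K : ℝ) + 1 / 2) ^ (2 / 3 : ℝ)))) with hB
    have h4 : t * S - (3 / 2 * κ₀ * t ^ (s + 1) + 3 / 2 * lam₀ * (t ^ (s + 1) * Real.log t)) -
        (3 / 2 * t ^ (s + 1) * (h3_Ig c (s - p) (t * h3_Vk K) - κ₀ - lam₀ * Real.log (t * h3_Vk K)) +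
          3 / 2 * lam₀ * t ^ (s + 1) * Real.log (h3_Vk K) + t / 24 * B) =
        t * (S - 3 / 2 * t ^ s * h3_Ig c (s - p) (t * h3_Vk K) - 1 / 24 * B) := by
      rw [hlog, hts]; ring
    rw [h4, abs_mul, abs_of_pos ht]
    calc t * _ ≤ t * (C * pw (q + 2) K) := mul_le_mul_of_nonneg_left h1 ht.le
      _ ≤ t * (|C| * pw (13/3) K) := by
        apply mul_le_mul_of_nonneg_left _ ht.le
        exact mul_le_mul (le_abs_self C) h2 hpw.le (abs_nonneg _)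
      _ = |C| * (t * pw (13/3) K) := by ring

end Pool.Agent.Helper615.LogA
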