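import Mathlib
import Pool.Agent.Helper615.LogA.Defs
import Pool.Agent.Helper615.LogA.G1
import Pool.Agent.Helper615.LogA.H3
set_option autoImplicit false

namespace Pool.Agent.Helper615.LogA

open Filter Asymptotics
theorem ex_gen_summable (c : ℝ) (hc : 0 < c) (p : ℕ) (q : ℝ) (hq : 1 < q) (K : ℕ) (t : ℝ) (ht : 0 < t) :
    Summable (fun m : ℕ => Real.exp (-(c * (t * pw (-(2/3)) (K + 1 + m)))) *
      ((t * pw (-(2/3)) (K + 1 + m)) ^ p * pw q (K + 1 + m))) := by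
  have h1 : Summable (fun n : ℕ => (n : ℝ) ^ (-q)) := Real.summable_nat_rpow.2 (by linarith)
  have h2 : Summable (fun m : ℕ => (((m + (K + 1) : ℕ) : ℝ)) ^ (-q)) := (summable_nat_add_iff (K + 1)).2 h1
  have h3 : ∀ m : ℕ, pw q (K + 1 + m) = (((m + (K + 1) : ℕ) : ℝ)) ^ (-q) := by
    intro m
    have hpos : (0 : ℝ) < ((m + (K + 1) : ℕ) : ℝ) := by positivity
    rw [pw, Real.rpow_def_of_pos hpos, show K + 1 + m = m + (K + 1) by ring]
    congr 1
    ring
  refine Summable.of_nonneg_of_le (f := fun m : ℕ => (p.factorial : ℝ) / c ^ p * (((m + (K + 1) : ℕ) : ℝ)) ^ (-q))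
    ?_ ?_ (h2.mul_left _)
  · intro m
    have : 0 < pw (-(2/3)) (K + 1 + m) := Real.exp_pos _
    have : 0 < pw q (K + 1 + m) := Real.exp_pos _
    positivity
  · intro m
    have hu : 0 < pw (-(2/3)) (K + 1 + m) := Real.exp_pos _
    set u := t * pw (-(2/3)) (K + 1 + m) with hudef
    have hu0 : 0 < u := mul_pos ht hu
    have hw : 0 < pw q (K + 1 + m) := Real.exp_pos _
    rw [← h3 m, ← mul_assoc]
    apply mul_le_mul_of_nonneg_right _ hw.le
    have h4 := Real.pow_div_factorial_le_exp (c * u) (by positivity) p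
    rw [div_le_iff₀ (by positivity), mul_pow] at h4
    rw [Real.exp_neg, inv_mul_eq_div, div_le_div_iff₀ (Real.exp_pos _) (by positivity)]
    linarith
def ex_PP (c δ : ℝ) (Υ : ℕ → ℝ → ℝ) : Prop :=
    ∃ (s : Finset ℝ) (κ lam : ℝ → ℝ) (A : ℕ → ℝ → ℝ) (C : ℝ), An A ∧
      (∀ β ∈ s, 3 + 3 / 2 * δ ≤ β) ∧
      (∀ (K : ℕ) (t : ℝ), 0 < t → Summable (fun m : ℕ =>
        Real.exp (-(c * (t * pw (-(2/3)) (K + 1 + m)))) * Υ (K + 1 + m) t)) ∧
      ∀ᶠ K : ℕ in atTop, ∀ t : ℝ, 0 < t → t * pw (-(2/3)) K ≤ 1 →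
        |t * (∑' m : ℕ, Real.exp (-(c * (t * pw (-(2/3)) (K + 1 + m)))) * Υ (K + 1 + m) t)
          - (∑ β ∈ s, (κ β * t ^ β + lam β * (t ^ β * Real.log t)))
          - A K t| ≤ C * (t * pw (13/3) K)
theorem ex_PP_gen (c δ : ℝ) (hc : 0 < c) (hδ : 0 < δ) (p : ℕ) (q : ℝ) (hq : 7 / 3 + δ ≤ q) :
    ex_PP c δ (fun m t => (t * pw (-(2/3)) m) ^ p * pw q m) := by
  obtain ⟨κ, lam, A, C, hA, -, hE⟩ := xi_expansion c hc p q (by linarith)
  refine ⟨{1 + 3 / 2 * (q - 1)}, fun _ => κ, fun _ => lam, A, C, hA, ?_, ?_, ?_⟩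
  · intro β hβ
    rw [Finset.mem_singleton] at hβ
    rw [hβ]
    linarith
  · intro K t ht
    exact ex_gen_summable c hc p q (by linarith) K t ht
  · filter_upwards [hE] with K hK t ht hts
    have := hK t ht hts
    simp only [Finset.sum_singleton]
    simpa only [mul_assoc] using this
theorem ex_An_zero : An (fun _ _ => (0 : ℝ)) := by
  have h := An.monomial (fun _ => (0 : ℝ)) 0 ⟨0, Filter.Eventually.of_forall (fun K => by simp)⟩
  refine h.congr (Filter.Eventually.of_forall (fun K t _ _ => by simp))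
theorem ex_An_smul (a : ℝ) {F : ℕ → ℝ → ℝ} (hF : An F) : An (fun K t => a * F K t) := by
  have h := An.monomial (fun _ => a) 0 ⟨|a|, Filter.Eventually.of_forall (fun K => by simp)⟩
  refine (h.mul hF).congr (Filter.Eventually.of_forall (fun K t _ _ => by simp))
theorem ex_PP_zero (c δ : ℝ) : ex_PP c δ 0 := by
  refine ⟨∅, 0, 0, fun _ _ => 0, 0, ex_An_zero, by simp, ?_, ?_⟩
  · intro K t _
    simpa using summable_zero
  · refine Filter.Eventually.of_forall (fun K t _ _ => ?_)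
    simp
theorem ex_PP_smul (c δ a : ℝ) {Υ : ℕ → ℝ → ℝ} (h : ex_PP c δ Υ) : ex_PP c δ (a • Υ) := by
  obtain ⟨s, κ, lam, A, C, hA, hs, hsum, hE⟩ := h
  refine ⟨s, fun β => a * κ β, fun β => a * lam β, fun K t => a * A K t, |a| * C, ex_An_smul a hA, hs, ?_, ?_⟩
  · intro K t ht
    refine ((hsum K t ht).mul_left a).congr (fun m => ?_)
    simp only [Pi.smul_apply, smul_eq_mul]
    ring
  · filter_upwards [hE] with K hK t ht hts
    have h1 := hK t ht hts
    have e1 : ∑' m : ℕ, Real.exp (-(c * (t * pw (-(2/3)) (K + 1 + m)))) * (a • Υ) (K + 1 + m) t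
        = a * ∑' m : ℕ, Real.exp (-(c * (t * pw (-(2/3)) (K + 1 + m)))) * Υ (K + 1 + m) t := by
      rw [← tsum_mul_left]
      congr 1
      ext m
      simp only [Pi.smul_apply, smul_eq_mul]
      ring
    have e2 : ∑ β ∈ s, (a * κ β * t ^ β + a * lam β * (t ^ β * Real.log t))
        = a * ∑ β ∈ s, (κ β * t ^ β + lam β * (t ^ β * Real.log t)) := by
      rw [Finset.mul_sum]
      exact Finset.sum_congr rfl (fun β _ => by ring)
    rw [e1, e2]
    have e3 : t * (a * ∑' m : ℕ, Real.exp (-(c * (t * pw (-(2/3)) (K + 1 + m)))) * Υ (K + 1 + m) t)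
        - a * ∑ β ∈ s, (κ β * t ^ β + lam β * (t ^ β * Real.log t)) - a * A K t
        = a * (t * (∑' m : ℕ, Real.exp (-(c * (t * pw (-(2/3)) (K + 1 + m)))) * Υ (K + 1 + m) t)
          - (∑ β ∈ s, (κ β * t ^ β + lam β * (t ^ β * Real.log t))) - A K t) := by ring
    rw [e3, abs_mul, mul_assoc]
    exact mul_le_mul_of_nonneg_left h1 (abs_nonneg a)
theorem ex_PP_add (c δ : ℝ) {Υ Υ' : ℕ → ℝ → ℝ} (h : ex_PP c δ Υ) (h' : ex_PP c δ Υ') : ex_PP c δ (Υ + Υ') := by
  classical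
  obtain ⟨s, κ, lam, A, C, hA, hs, hsum, hE⟩ := h
  obtain ⟨s', κ', lam', A', C', hA', hs', hsum', hE'⟩ := h'
  refine ⟨s ∪ s', fun β => (if β ∈ s then κ β else 0) + (if β ∈ s' then κ' β else 0),
    fun β => (if β ∈ s then lam β else 0) + (if β ∈ s' then lam' β else 0),
    fun K t => A K t + A' K t, C + C', hA.add hA', ?_, ?_, ?_⟩
  · intro β hβ
    rcases Finset.mem_union.1 hβ with h | h
    · exact hs β h
    · exact hs' β h
  · intro K t ht
    refine ((hsum K t ht).add (hsum' K t ht)).congr (fun m => ?_)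
    simp only [Pi.add_apply]
    ring
  · filter_upwards [hE, hE'] with K hK hK' t ht hts
    have h1 := hK t ht hts
    have h2 := hK' t ht hts
    have e1 : ∑' m : ℕ, Real.exp (-(c * (t * pw (-(2/3)) (K + 1 + m)))) * (Υ + Υ') (K + 1 + m) t
        = (∑' m : ℕ, Real.exp (-(c * (t * pw (-(2/3)) (K + 1 + m)))) * Υ (K + 1 + m) t)
          + ∑' m : ℕ, Real.exp (-(c * (t * pw (-(2/3)) (K + 1 + m)))) * Υ' (K + 1 + m) t := by
      rw [← (hsum K t ht).tsum_add (hsum' K t ht)]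
      congr 1
      ext m
      simp only [Pi.add_apply]
      ring
    have e2 : ∑ β ∈ s ∪ s', (((if β ∈ s then κ β else 0) + (if β ∈ s' then κ' β else 0)) * t ^ β
          + ((if β ∈ s then lam β else 0) + (if β ∈ s' then lam' β else 0)) * (t ^ β * Real.log t))
        = (∑ β ∈ s, (κ β * t ^ β + lam β * (t ^ β * Real.log t)))
          + ∑ β ∈ s', (κ' β * t ^ β + lam' β * (t ^ β * Real.log t)) := by
      have f1 : ∑ β ∈ s ∪ s', (if β ∈ s then (κ β * t ^ β + lam β * (t ^ β * Real.log t)) else 0)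
          = ∑ β ∈ s, (κ β * t ^ β + lam β * (t ^ β * Real.log t)) := by
        rw [Finset.sum_ite_mem]
        congr 1
        ext x; simp
      have f2 : ∑ β ∈ s ∪ s', (if β ∈ s' then (κ' β * t ^ β + lam' β * (t ^ β * Real.log t)) else 0)
          = ∑ β ∈ s', (κ' β * t ^ β + lam' β * (t ^ β * Real.log t)) := by
        rw [Finset.sum_ite_mem]
        congr 1
        ext x; simp
      rw [← f1, ← f2, ← Finset.sum_add_distrib]
      refine Finset.sum_congr rfl (fun β _ => ?_)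
      split_ifs <;> ring
    rw [e1, e2]
    have e3 : t * ((∑' m : ℕ, Real.exp (-(c * (t * pw (-(2/3)) (K + 1 + m)))) * Υ (K + 1 + m) t)
          + ∑' m : ℕ, Real.exp (-(c * (t * pw (-(2/3)) (K + 1 + m)))) * Υ' (K + 1 + m) t)
        - ((∑ β ∈ s, (κ β * t ^ β + lam β * (t ^ β * Real.log t)))
          + ∑ β ∈ s', (κ' β * t ^ β + lam' β * (t ^ β * Real.log t))) - (A K t + A' K t)
        = (t * (∑' m : ℕ, Real.exp (-(c * (t * pw (-(2/3)) (K + 1 + m)))) * Υ (K + 1 + m) t)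
          - (∑ β ∈ s, (κ β * t ^ β + lam β * (t ^ β * Real.log t))) - A K t)
        + (t * (∑' m : ℕ, Real.exp (-(c * (t * pw (-(2/3)) (K + 1 + m)))) * Υ' (K + 1 + m) t)
          - (∑ β ∈ s', (κ' β * t ^ β + lam' β * (t ^ β * Real.log t))) - A' K t) := by ring
    rw [e3, add_mul]
    exact (abs_add_le _ _).trans (add_le_add h1 h2)
theorem exo_expansion (c δ : ℝ) (hc : 0 < c) (hδ : 0 < δ) (Υ : ℕ → ℝ → ℝ)
    (hΥ : Υ ∈ UU (7/3 + δ)) :
    ∃ (s : Finset ℝ) (κ lam : ℝ → ℝ) (A : ℕ → ℝ → ℝ) (C : ℝ), An A ∧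
      (∀ β ∈ s, 3 + 3 / 2 * δ ≤ β) ∧
      (∀ (K : ℕ) (t : ℝ), 0 < t → Summable (fun m : ℕ =>
        Real.exp (-(c * (t * pw (-(2/3)) (K + 1 + m)))) * Υ (K + 1 + m) t)) ∧
      ∀ᶠ K : ℕ in atTop, ∀ t : ℝ, 0 < t → t * pw (-(2/3)) K ≤ 1 →
        |t * (∑' m : ℕ, Real.exp (-(c * (t * pw (-(2/3)) (K + 1 + m)))) * Υ (K + 1 + m) t)
          - (∑ β ∈ s, (κ β * t ^ β + lam β * (t ^ β * Real.log t)))
          - A K t| ≤ C * (t * pw (13/3) K) := by
  have key : ex_PP c δ Υ := by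
    unfold UU at hΥ
    induction hΥ using Submodule.span_induction with
    | mem x hx =>
      obtain ⟨p, q, hq, rfl⟩ := hx
      exact ex_PP_gen c δ hc hδ p q hq
    | zero => exact ex_PP_zero c δ
    | add x y _ _ hx hy => exact ex_PP_add c δ hx hy
    | smul a x _ hx => exact ex_PP_smul c δ a hx
  exact key

end Pool.Agent.Helper615.LogA
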