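import Mathlib
import Pool.Agent.Helper615.LogA.Defs
set_option autoImplicit false

namespace Pool.Agent.Helper615.LogA

open Filter Asymptotics Set MeasureTheory
theorem h1log_sandwich {F F' : ℝ → ℝ} {C p : ℝ} (hp : 0 < p) (hC : 0 ≤ C)
    (hF : ∀ y, 0 < y → HasDerivAt F (F' y) y)
    (hb : ∀ y, 0 < y → y ≤ 2 → |F' y| ≤ C * y ^ (p - 1)) :
    ∃ κ, ∀ y, 0 < y → y ≤ 2 → |F y - κ| ≤ C / p * y ^ p := by
  have hpow : ∀ y : ℝ, 0 < y → HasDerivAt (fun y => C / p * y ^ p) (C * y ^ (p - 1)) y := by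
    intro y hy
    have h := (Real.hasDerivAt_rpow_const (x := y) (p := p) (Or.inl hy.ne')).const_mul (C / p)
    refine h.congr_deriv ?_
    field_simp
  have hG : MonotoneOn (fun y => F y + C / p * y ^ p) (Ioc 0 2) := by
    refine monotoneOn_of_deriv_nonneg (convex_Ioc 0 2) ?_ ?_ ?_
    · intro y hy
      exact ((hF y hy.1).add (hpow y hy.1)).continuousAt.continuousWithinAt
    · intro y hy
      rw [interior_Ioc] at hy
      exact ((hF y hy.1).add (hpow y hy.1)).differentiableAt.differentiableWithinAt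
    · intro y hy
      rw [interior_Ioc] at hy
      have e : deriv (fun y => F y + C / p * y ^ p) y = F' y + C * y ^ (p - 1) :=
        ((hF y hy.1).add (hpow y hy.1)).deriv
      rw [e]
      have := (abs_le.1 (hb y hy.1 hy.2.le)).1
      linarith
  have hH : AntitoneOn (fun y => F y - C / p * y ^ p) (Ioc 0 2) := by
    refine antitoneOn_of_deriv_nonpos (convex_Ioc 0 2) ?_ ?_ ?_
    · intro y hy
      exact ((hF y hy.1).sub (hpow y hy.1)).continuousAt.continuousWithinAt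
    · intro y hy
      rw [interior_Ioc] at hy
      exact ((hF y hy.1).sub (hpow y hy.1)).differentiableAt.differentiableWithinAt
    · intro y hy
      rw [interior_Ioc] at hy
      have e : deriv (fun y => F y - C / p * y ^ p) y = F' y - C * y ^ (p - 1) :=
        ((hF y hy.1).sub (hpow y hy.1)).deriv
      rw [e]
      have := (abs_le.1 (hb y hy.1 hy.2.le)).2
      linarith
  have hle : ∀ x ∈ Ioc (0 : ℝ) 2, F x - C / p * x ^ p ≤ F x + C / p * x ^ p := by
    intro x hx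
    have : 0 ≤ C / p * x ^ p := by
      have := hx.1
      positivity
    linarith
  have hHG : ∀ x ∈ Ioc (0 : ℝ) 2, ∀ y ∈ Ioc (0 : ℝ) 2,
      F x - C / p * x ^ p ≤ F y + C / p * y ^ p := by
    intro x hx y hy
    rcases le_total x y with h | h
    · exact (hle x hx).trans (hG hx hy h)
    · exact (hH hy hx h).trans (hle y hy)
  have h2 : (2 : ℝ) ∈ Ioc (0 : ℝ) 2 := ⟨by norm_num, le_rfl⟩
  refine ⟨sSup ((fun y => F y - C / p * y ^ p) '' Ioc 0 2), fun y hy0 hy2 => ?_⟩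
  have hy : y ∈ Ioc (0 : ℝ) 2 := ⟨hy0, hy2⟩
  have a1 : F y - C / p * y ^ p ≤ sSup ((fun y => F y - C / p * y ^ p) '' Ioc 0 2) := by
    refine le_csSup ⟨F 2 + C / p * 2 ^ p, ?_⟩ ⟨y, hy, rfl⟩
    rintro _ ⟨x, hx, rfl⟩
    exact hHG x hx 2 h2
  have a2 : sSup ((fun y => F y - C / p * y ^ p) '' Ioc 0 2) ≤ F y + C / p * y ^ p := by
    refine csSup_le ⟨_, ⟨y, hy, rfl⟩⟩ ?_
    rintro _ ⟨x, hx, rfl⟩
    exact hHG x hx y hy
  rw [abs_le]
  constructor <;> linarith
theorem h1log_log_le {y : ℝ} (h0 : 0 < y) (h2 : y ≤ 2) : |Real.log y| ≤ 2 * y ^ (-(1 / 2) : ℝ) := by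
  have hy : 0 < y ^ (1 / 2 : ℝ) := Real.rpow_pos_of_pos h0 _
  rw [Real.rpow_neg h0.le, ← div_eq_mul_inv, le_div_iff₀ hy]
  rcases le_total y 1 with h1 | h1
  · have h := Real.abs_log_mul_self_rpow_lt y (1 / 2) h0 h1 (by norm_num)
    rw [abs_mul, abs_of_pos hy] at h
    norm_num at h ⊢
    exact h.le
  · have e1 : 0 ≤ Real.log y := Real.log_nonneg h1
    have e2 : Real.log y ≤ 1 := (Real.log_le_sub_one_of_pos h0).trans (by linarith)
    have e3 : y ^ (1 / 2 : ℝ) ≤ 2 := by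
      calc y ^ (1 / 2 : ℝ) ≤ y ^ (1 : ℝ) := Real.rpow_le_rpow_of_exponent_le h1 (by norm_num)
        _ ≤ 2 := by rw [Real.rpow_one]; exact h2
    rw [abs_of_nonneg e1]
    nlinarith
theorem h1log_g_cont (c : ℝ) : ContinuousOn
    (fun u : ℝ => u ^ (-3 : ℝ) * Real.log u * Real.exp (-(c * u))) (Ioi 0) := by
  intro u hu
  have hu' : u ≠ 0 := (ne_of_gt hu)
  refine ContinuousAt.continuousWithinAt ?_
  refine ((Real.continuousAt_rpow_const _ _ (Or.inl hu')).mul (Real.continuousAt_log hu')).mul ?_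
  fun_prop
theorem h1log_g_int {c : ℝ} (hc : 0 < c) {y : ℝ} (hy : 0 < y) : IntegrableOn
    (fun u : ℝ => u ^ (-3 : ℝ) * Real.log u * Real.exp (-(c * u))) (Ioi y) := by
  have h1 : IntegrableOn (fun u : ℝ => (y ^ (-3 : ℝ) * |Real.log y| + y ^ (-2 : ℝ)) *
      Real.exp (-c * u)) (Ioi y) := (exp_neg_integrableOn_Ioi y hc).const_mul _
  refine Integrable.mono' h1 ?_ ?_
  · exact ((h1log_g_cont c).mono (Ioi_subset_Ioi hy.le)).aestronglyMeasurable measurableSet_Ioi
  · filter_upwards [ae_restrict_mem measurableSet_Ioi] with u hu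
    have hu0 : 0 < u := lt_trans hy hu
    have hyu : y ≤ u := le_of_lt hu
    rw [norm_mul, norm_mul, Real.norm_eq_abs, Real.norm_eq_abs, Real.norm_eq_abs,
      abs_of_pos (Real.rpow_pos_of_pos hu0 _), Real.abs_exp, neg_mul]
    gcongr
    have hl : |Real.log u| ≤ |Real.log y| + u := by
      have e1 : Real.log u ≤ u := (Real.log_le_sub_one_of_pos hu0).trans (by linarith)
      have e2 : Real.log y ≤ Real.log u := Real.log_le_log hy hyu
      have e3 := neg_abs_le (Real.log y)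
      rw [abs_le]
      constructor
      · linarith
      · linarith [abs_nonneg (Real.log y)]
    have h3 : u ^ (-3 : ℝ) ≤ y ^ (-3 : ℝ) := Real.rpow_le_rpow_of_nonpos hy hyu (by norm_num)
    have h4 : u ^ (-3 : ℝ) * u = u ^ (-2 : ℝ) := by
      rw [← Real.rpow_add_one hu0.ne']
      norm_num
    have h5 : u ^ (-2 : ℝ) ≤ y ^ (-2 : ℝ) := Real.rpow_le_rpow_of_nonpos hy hyu (by norm_num)
    have h6 : 0 < u ^ (-3 : ℝ) := Real.rpow_pos_of_pos hu0 _
    calc u ^ (-3 : ℝ) * |Real.log u| ≤ u ^ (-3 : ℝ) * (|Real.log y| + u) := by gcongr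
      _ = u ^ (-3 : ℝ) * |Real.log y| + u ^ (-2 : ℝ) := by rw [mul_add, h4]
      _ ≤ _ := by gcongr
theorem h1log_I_deriv {c : ℝ} (hc : 0 < c) {y : ℝ} (hy : 0 < y) :
    HasDerivAt (fun y => ∫ u in Ioi y, u ^ (-3 : ℝ) * Real.log u * Real.exp (-(c * u)))
      (-(y ^ (-3 : ℝ) * Real.log y * Real.exp (-(c * y)))) y := by
  obtain ⟨g, hg⟩ : ∃ g : ℝ → ℝ, g = fun u : ℝ =>
    u ^ (-3 : ℝ) * Real.log u * Real.exp (-(c * u)) := ⟨_, rfl⟩
  have hgc : ContinuousOn g (Ioi 0) := by rw [hg]; exact h1log_g_cont c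
  have hgi : ∀ y, 0 < y → IntegrableOn g (Ioi y) := fun y hy => by rw [hg]; exact h1log_g_int hc hy
  have h1 : HasDerivAt (fun y => ∫ u in (1 : ℝ)..y, g u) (g y) y := by
    refine intervalIntegral.integral_hasDerivAt_right ?_ ?_ ?_
    · refine (hgc.mono ?_).intervalIntegrable
      intro u hu
      have : min 1 y ≤ u := hu.1
      exact lt_of_lt_of_le (lt_min one_pos hy) this
    · exact hgc.stronglyMeasurableAtFilter isOpen_Ioi y hy
    · exact hgc.continuousAt (Ioi_mem_nhds hy)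
  have h2 := h1.const_sub (∫ u in Ioi (1 : ℝ), g u)
  have h3 : HasDerivAt (fun y => ∫ u in Ioi y, g u) (-(g y)) y := by
    refine h2.congr_of_eventuallyEq ?_
    filter_upwards [Ioi_mem_nhds hy] with z hz
    have := intervalIntegral.integral_Ioi_sub_Ioi' (hgi 1 one_pos) (hgi z hz)
    rw [← this]
    ring
  rw [hg] at h3
  exact h3
theorem gamma_tail_log (c : ℝ) (hc : 0 < c) : ∃ κ : ℝ,
    ∀ J : ℕ, 2 ≤ J → ∃ C : ℝ, ∀ y : ℝ, 0 < y → y ≤ 2 →
      |(∫ u in Set.Ioi y, u ^ (-3 : ℝ) * Real.log u * Real.exp (-(c * u))) - κ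
        + c ^ 2 / 4 * Real.log y ^ 2
        - ∑ j ∈ Finset.range (J + 1), (if j = 2 then 0 else
            (-c) ^ j / j.factorial * (y ^ ((j : ℝ) - 2) * Real.log y / (2 - j)
              + y ^ ((j : ℝ) - 2) / (2 - j) ^ 2))| ≤ C * y ^ ((J : ℝ) - 3 / 2) := by
  obtain ⟨T, hT⟩ : ∃ T : ℕ → ℝ → ℝ, ∀ j y, T j y = if j = 2 then 0 else
            (-c) ^ j / j.factorial * (y ^ ((j : ℝ) - 2) * Real.log y / (2 - j)
              + y ^ ((j : ℝ) - 2) / (2 - j) ^ 2) := ⟨_, fun _ _ => rfl⟩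
  obtain ⟨I, hI⟩ : ∃ I : ℝ → ℝ, ∀ y, I y =
    ∫ u in Set.Ioi y, u ^ (-3 : ℝ) * Real.log u * Real.exp (-(c * u)) := ⟨_, fun _ => rfl⟩
  simp only [← hT, ← hI]
  have hId : ∀ y, 0 < y → HasDerivAt I (-(y ^ (-3 : ℝ) * Real.log y * Real.exp (-(c * y)))) y := by
    intro y hy
    rw [show I = fun y => ∫ u in Set.Ioi y, u ^ (-3 : ℝ) * Real.log u * Real.exp (-(c * u)) from
      funext hI]
    exact h1log_I_deriv hc hy
  
  have hTd : ∀ j : ℕ, ∀ y, 0 < y → HasDerivAt (T j)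
      (-((-c) ^ j / j.factorial * (y ^ ((j : ℝ) - 3) * Real.log y)) +
        (if j = 2 then c ^ 2 / 2 * (y ^ (-1 : ℝ) * Real.log y) else 0)) y := by
    intro j y hy
    rw [show T j = fun y => if j = 2 then 0 else
            (-c) ^ j / j.factorial * (y ^ ((j : ℝ) - 2) * Real.log y / (2 - j)
              + y ^ ((j : ℝ) - 2) / (2 - j) ^ 2) from funext (hT j)]
    by_cases hj : j = 2
    · subst hj
      simp only [if_true]
      refine (hasDerivAt_const y (0 : ℝ)).congr_deriv ?_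
      norm_num [Nat.factorial]
    · simp only [if_neg hj, add_zero]
      have hj' : (2 : ℝ) - j ≠ 0 := by
        intro h
        apply hj
        have : (j : ℝ) = 2 := by linarith
        exact_mod_cast this
      have h1 := Real.hasDerivAt_rpow_const (x := y) (p := (j : ℝ) - 2) (Or.inl hy.ne')
      have h2 := Real.hasDerivAt_log hy.ne'
      have h3 := (((h1.mul h2).div_const (2 - j)).add (h1.div_const ((2 - j) ^ 2))).const_mul
        ((-c) ^ j / j.factorial)
      refine h3.congr_deriv ?_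
      have e1 : (j : ℝ) - 2 - 1 = j - 3 := by ring
      have e2 : y ^ ((j : ℝ) - 2) * y⁻¹ = y ^ ((j : ℝ) - 3) := by
        rw [← e1, Real.rpow_sub_one hy.ne', div_eq_mul_inv]
      rw [e2, e1]
      field_simp
      ring
  have hR : ∀ (J : ℕ) (y : ℝ), 0 < y → y ≤ 2 →
      |Real.exp (-(c * y)) - ∑ j ∈ Finset.range (J + 1), (-c) ^ j / j.factorial * y ^ j| ≤
        (c * y) ^ (J + 1) * Real.exp (2 * c) := by
    intro J y hy hy2
    have := Complex.norm_exp_sub_sum_le_norm_mul_exp ((-(c * y) : ℝ) : ℂ) (J + 1)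
    rw [Complex.norm_real, Real.norm_eq_abs, abs_neg, abs_of_pos (by positivity : 0 < c * y)] at this
    have h2 : (c * y) ^ (J + 1) * Real.exp (c * y) ≤ (c * y) ^ (J + 1) * Real.exp (2 * c) := by
      have : c * y ≤ 2 * c := by nlinarith
      gcongr
    refine le_trans (le_trans (le_of_eq ?_) this) h2
    rw [← Real.norm_eq_abs, ← Complex.norm_real]
    congr 1
    push_cast
    congr 1
    refine Finset.sum_congr rfl fun j _ => ?_
    rw [← neg_mul, mul_pow]
    ring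
  have key : ∀ J : ℕ, 2 ≤ J → ∃ κ C : ℝ, ∀ y : ℝ, 0 < y → y ≤ 2 →
      |I y + c ^ 2 / 4 * Real.log y ^ 2 - ∑ j ∈ Finset.range (J + 1), T j y - κ| ≤
        C * y ^ ((J : ℝ) - 3 / 2) := by
    intro J hJ
    have hJ' : (2 : ℝ) ≤ J := by exact_mod_cast hJ
    suffices hsw : ∃ κ, ∀ y, 0 < y → y ≤ 2 → |(fun y => I y + c ^ 2 / 4 * Real.log y ^ 2 -
        ∑ j ∈ Finset.range (J + 1), T j y) y - κ| ≤
        2 * c ^ (J + 1) * Real.exp (2 * c) / ((J : ℝ) - 3 / 2) * y ^ ((J : ℝ) - 3 / 2) by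
      obtain ⟨κ, hκ⟩ := hsw
      exact ⟨κ, _, hκ⟩
    refine h1log_sandwich (F := fun y => I y + c ^ 2 / 4 * Real.log y ^ 2 -
        ∑ j ∈ Finset.range (J + 1), T j y)
      (F' := fun y => -(y ^ (-3 : ℝ) * Real.log y) * (Real.exp (-(c * y)) -
        ∑ j ∈ Finset.range (J + 1), (-c) ^ j / j.factorial * y ^ j))
      (C := 2 * c ^ (J + 1) * Real.exp (2 * c)) (p := (J : ℝ) - 3 / 2) (by linarith)
      (by positivity) ?_ ?_
    · intro y hy
      have h1 := ((hId y hy).add (((Real.hasDerivAt_log hy.ne').pow 2).const_mul (c ^ 2 / 4))).sub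
        (HasDerivAt.fun_sum (u := Finset.range (J + 1)) fun j _ => hTd j y hy)
      refine h1.congr_deriv ?_
      rw [Finset.sum_add_distrib, Finset.sum_ite_eq', if_pos (Finset.mem_range.2 (by omega)),
        Finset.sum_neg_distrib, mul_sub, Finset.mul_sum]
      have e1 : ∑ j ∈ Finset.range (J + 1),
          -(y ^ (-3 : ℝ) * Real.log y) * ((-c) ^ j / j.factorial * y ^ j) =
          - ∑ j ∈ Finset.range (J + 1), (-c) ^ j / j.factorial * (y ^ ((j : ℝ) - 3) * Real.log y) := by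
        rw [← Finset.sum_neg_distrib]
        refine Finset.sum_congr rfl fun j _ => ?_
        have : y ^ ((j : ℝ) - 3) = y ^ (-3 : ℝ) * y ^ j := by
          rw [sub_eq_add_neg, add_comm, Real.rpow_add hy, Real.rpow_natCast]
        rw [this]
        ring
      rw [e1, Real.rpow_neg_one]
      simp only [Nat.cast_ofNat]
      ring
    · intro y hy hy2
      rw [abs_mul, abs_neg, abs_mul, abs_of_pos (Real.rpow_pos_of_pos hy _)]
      have h1 := h1log_log_le hy hy2
      have h2 := hR J y hy hy2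
      have h3 : 0 < y ^ (-3 : ℝ) := Real.rpow_pos_of_pos hy _
      calc y ^ (-3 : ℝ) * |Real.log y| * |Real.exp (-(c * y)) -
            ∑ j ∈ Finset.range (J + 1), (-c) ^ j / j.factorial * y ^ j|
          ≤ y ^ (-3 : ℝ) * (2 * y ^ (-(1 / 2) : ℝ)) * ((c * y) ^ (J + 1) * Real.exp (2 * c)) := by
            gcongr
        _ = 2 * c ^ (J + 1) * Real.exp (2 * c) *
            (y ^ (-3 : ℝ) * y ^ (-(1 / 2) : ℝ) * y ^ (J + 1)) := by
            rw [mul_pow]; ring
        _ = 2 * c ^ (J + 1) * Real.exp (2 * c) * y ^ ((J : ℝ) - 3 / 2 - 1) := by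
            congr 1
            rw [← Real.rpow_natCast, ← Real.rpow_add hy, ← Real.rpow_add hy]
            congr 1
            push_cast
            ring
  
  have hT0 : ∀ j : ℕ, 3 ≤ j → Tendsto (T j) (nhdsWithin 0 (Ioi 0)) (nhds 0) := by
    intro j hj
    have hj3 : (3 : ℝ) ≤ j := by exact_mod_cast hj
    have hr : (0 : ℝ) < (j : ℝ) - 2 := by linarith
    rw [show T j = fun y => (-c) ^ j / j.factorial * (y ^ ((j : ℝ) - 2) * Real.log y / (2 - j)
              + y ^ ((j : ℝ) - 2) / (2 - j) ^ 2) from funext fun y => by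
      rw [hT, if_neg (by omega)]]
    have h1 : Tendsto (fun y : ℝ => y ^ ((j : ℝ) - 2) * Real.log y) (nhdsWithin 0 (Ioi 0))
        (nhds 0) := by
      have := tendsto_log_mul_rpow_nhdsGT_zero hr
      simpa only [mul_comm] using this
    have h2 : Tendsto (fun y : ℝ => y ^ ((j : ℝ) - 2)) (nhdsWithin 0 (Ioi 0)) (nhds 0) := by
      have := ((Real.continuous_rpow_const hr.le).tendsto 0).mono_left
        (nhdsWithin_le_nhds (s := Ioi (0 : ℝ)))
      rwa [Real.zero_rpow hr.ne'] at this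
    have h3 := ((h1.div_const (2 - (j : ℝ))).add (h2.div_const ((2 - (j : ℝ)) ^ 2))).const_mul
      ((-c) ^ j / (j.factorial : ℝ))
    simpa using h3
  have hS0 : ∀ J : ℕ, 2 ≤ J → Tendsto (fun y => ∑ j ∈ Finset.range (J + 1), T j y -
      ∑ j ∈ Finset.range (2 + 1), T j y) (nhdsWithin 0 (Ioi 0)) (nhds 0) := by
    intro J hJ
    induction J, hJ using Nat.le_induction with
    | base => simp
    | succ J hJ ih =>
      have h1 := ih.add (hT0 (J + 1) (by omega))
      rw [add_zero] at h1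
      refine h1.congr fun y => ?_
      rw [Finset.sum_range_succ _ (J + 1)]
      ring
  have lim : ∀ (J : ℕ), 2 ≤ J → ∀ κ C : ℝ, (∀ y : ℝ, 0 < y → y ≤ 2 →
      |I y + c ^ 2 / 4 * Real.log y ^ 2 - ∑ j ∈ Finset.range (J + 1), T j y - κ| ≤
        C * y ^ ((J : ℝ) - 3 / 2)) → Tendsto (fun y => I y + c ^ 2 / 4 * Real.log y ^ 2 -
          ∑ j ∈ Finset.range (J + 1), T j y) (nhdsWithin 0 (Ioi 0)) (nhds κ) := by
    intro J hJ κ C h
    have hJ' : (2 : ℝ) ≤ J := by exact_mod_cast hJ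
    have hr : (0 : ℝ) < (J : ℝ) - 3 / 2 := by linarith
    have h2 : Tendsto (fun y : ℝ => C * y ^ ((J : ℝ) - 3 / 2)) (nhdsWithin 0 (Ioi 0)) (nhds 0) := by
      have := ((Real.continuous_rpow_const hr.le).tendsto 0).mono_left
        (nhdsWithin_le_nhds (s := Ioi (0 : ℝ)))
      rw [Real.zero_rpow hr.ne'] at this
      simpa using this.const_mul C
    rw [tendsto_iff_norm_sub_tendsto_zero]
    refine squeeze_zero' (Eventually.of_forall fun y => norm_nonneg _) ?_ h2
    filter_upwards [Ioc_mem_nhdsGT (show (0 : ℝ) < 2 by norm_num)] with y hy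
    rw [Real.norm_eq_abs]
    exact h y hy.1 hy.2
  obtain ⟨κ, C2, hκ⟩ := key 2 le_rfl
  refine ⟨κ, fun J hJ => ?_⟩
  obtain ⟨κ', C, hC⟩ := key J hJ
  have hκκ : κ' = κ := by
    have l1 := lim J hJ κ' C hC
    have l2 := lim 2 le_rfl κ C2 hκ
    have l3 := l1.add (hS0 J hJ)
    rw [add_zero] at l3
    refine tendsto_nhds_unique (l3.congr fun y => ?_) l2
    ring
  refine ⟨C, fun y hy hy2 => ?_⟩
  have := hC y hy hy2
  rw [hκκ] at this
  refine le_trans (le_of_eq ?_) this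
  congr 1
  ring

end Pool.Agent.Helper615.LogA
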