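import Mathlib
import Pool.Agent.Helper615.LogA.Defs
set_option autoImplicit false

namespace Pool.Agent.Helper615.LogA

open Filter Asymptotics
theorem h2log_pw_eq (e : ℝ) (n : ℕ) (hn : 0 < n) : pw e n = (n : ℝ) ^ (-e) := by
  unfold pw
  rw [Real.rpow_def_of_pos (by exact_mod_cast hn)]
  congr 1
  ring
noncomputable def h2log_Ph (c t a : ℝ) (G H : Polynomial ℝ) (x : ℝ) : ℝ :=
  Real.exp (-(c * (t * x ^ (2 / 3 : ℝ)))) * x ^ (-a) *
    (G.eval (t * x ^ (2 / 3 : ℝ)) * Real.log x + H.eval (t * x ^ (2 / 3 : ℝ)))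
noncomputable def h2log_DD (c a : ℝ) (G : Polynomial ℝ) : Polynomial ℝ :=
  Polynomial.C (2 / 3) * Polynomial.X * G.derivative -
    Polynomial.C (2 / 3 * c) * Polynomial.X * G - Polynomial.C a * G
theorem h2log_hasDerivAt_Ph (c t a : ℝ) (G H : Polynomial ℝ) {x : ℝ} (hx : 0 < x) :
    HasDerivAt (h2log_Ph c t a G H) (h2log_Ph c t (a + 1) (h2log_DD c a G) (h2log_DD c a H + G) x) x := by
  have hx0 : x ≠ 0 := hx.ne'
  have hU : HasDerivAt (fun x : ℝ => t * x ^ (2 / 3 : ℝ)) (2 / 3 * (t * x ^ (2 / 3 : ℝ)) / x) x := by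
    have h1 := (Real.hasDerivAt_rpow_const (x := x) (p := (2 / 3 : ℝ)) (Or.inl hx0)).const_mul t
    rw [Real.rpow_sub_one hx0] at h1
    exact h1.congr_deriv (by ring)
  have hE : HasDerivAt (fun x : ℝ => Real.exp (-(c * (t * x ^ (2 / 3 : ℝ)))))
      (Real.exp (-(c * (t * x ^ (2 / 3 : ℝ)))) * (-(c * (2 / 3 * (t * x ^ (2 / 3 : ℝ)) / x)))) x :=
    ((hU.const_mul c).neg).exp
  have hP : HasDerivAt (fun x : ℝ => x ^ (-a)) (-a * (x ^ (-a) / x)) x := by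
    have h1 := Real.hasDerivAt_rpow_const (x := x) (p := -a) (Or.inl hx0)
    rwa [Real.rpow_sub_one hx0] at h1
  have hL : HasDerivAt Real.log x⁻¹ x := Real.hasDerivAt_log hx0
  have hG : ∀ Q : Polynomial ℝ, HasDerivAt (fun x : ℝ => Q.eval (t * x ^ (2 / 3 : ℝ)))
      (Q.derivative.eval (t * x ^ (2 / 3 : ℝ)) * (2 / 3 * (t * x ^ (2 / 3 : ℝ)) / x)) x := fun Q =>
    HasDerivAt.comp x (h₂ := fun u : ℝ => Q.eval u) (h := fun x : ℝ => t * x ^ (2 / 3 : ℝ))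
      (Q.hasDerivAt (t * x ^ (2 / 3 : ℝ))) hU
  have h := (hE.mul hP).mul (((hG G).mul hL).add (hG H))
  refine HasDerivAt.congr_deriv (f := h2log_Ph c t a G H) h ?_
  unfold h2log_Ph h2log_DD
  rw [show -(a + 1) = -a - 1 by ring, Real.rpow_sub_one hx0]
  simp only [Polynomial.eval_add, Polynomial.eval_sub, Polynomial.eval_mul, Polynomial.eval_C,
    Polynomial.eval_X, Pi.mul_apply, Pi.add_apply]
  field_simp
  ring
theorem h2log_poly_bd (c : ℝ) (hc : 0 < c) (P : Polynomial ℝ) :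
    ∃ C : ℝ, 0 ≤ C ∧ ∀ u : ℝ, 0 ≤ u → Real.exp (-(c * u)) * |P.eval u| ≤ C := by
  induction P using Polynomial.induction_on' with
  | add p q hp hq =>
    obtain ⟨C1, h1, h1'⟩ := hp
    obtain ⟨C2, h2, h2'⟩ := hq
    refine ⟨C1 + C2, add_nonneg h1 h2, fun u hu => ?_⟩
    have e1 := h1' u hu
    have e2 := h2' u hu
    rw [Polynomial.eval_add]
    have e3 : Real.exp (-(c * u)) * |p.eval u + q.eval u| ≤
        Real.exp (-(c * u)) * (|p.eval u| + |q.eval u|) :=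
      mul_le_mul_of_nonneg_left (abs_add_le _ _) (Real.exp_pos _).le
    linarith [e3, mul_add (Real.exp (-(c * u))) |p.eval u| |q.eval u|]
  | monomial k a =>
    refine ⟨|a| * (k.factorial / c ^ k), by positivity, fun u hu => ?_⟩
    rw [Polynomial.eval_monomial, abs_mul, abs_of_nonneg (pow_nonneg hu k)]
    have h1 := Real.pow_div_factorial_le_exp (c * u) (mul_nonneg hc.le hu) k
    have h2 : u ^ k * Real.exp (-(c * u)) ≤ k.factorial / c ^ k := by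
      rw [Real.exp_neg, le_div_iff₀ (pow_pos hc k), ← div_eq_mul_inv, div_mul_eq_mul_div,
        div_le_iff₀ (Real.exp_pos _)]
      rw [div_le_iff₀ (by positivity), mul_pow] at h1
      linarith
    calc Real.exp (-(c * u)) * (|a| * u ^ k) = |a| * (u ^ k * Real.exp (-(c * u))) := by ring
      _ ≤ |a| * (k.factorial / c ^ k) := mul_le_mul_of_nonneg_left h2 (abs_nonneg a)
theorem h2log_Ph_bd (c : ℝ) (hc : 0 < c) (a : ℝ) (G H : Polynomial ℝ) :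
    ∃ C : ℝ, 0 ≤ C ∧ ∀ t x : ℝ, 0 < t → 1 ≤ x → |h2log_Ph c t a G H x| ≤ C * x ^ (-a + 1 / 6) := by
  obtain ⟨C1, h1, h1'⟩ := h2log_poly_bd c hc G
  obtain ⟨C2, h2, h2'⟩ := h2log_poly_bd c hc H
  refine ⟨6 * C1 + C2, by positivity, fun t x ht hx => ?_⟩
  have hx0 : 0 < x := by linarith
  have hu : 0 ≤ t * x ^ (2 / 3 : ℝ) := mul_nonneg ht.le (Real.rpow_nonneg hx0.le _)
  have e1 := h1' _ hu
  have e2 := h2' _ hu
  have hlog0 : 0 ≤ Real.log x := Real.log_nonneg hx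
  have hlog : Real.log x ≤ 6 * x ^ (1 / 6 : ℝ) := by
    have := Real.log_le_rpow_div hx0.le (ε := 1 / 6) (by norm_num)
    linarith
  have hone : 1 ≤ x ^ (1 / 6 : ℝ) := Real.one_le_rpow hx (by norm_num)
  have hxa : 0 < x ^ (-a) := Real.rpow_pos_of_pos hx0 _
  have hE := Real.exp_pos (-(c * (t * x ^ (2 / 3 : ℝ))))
  rw [Real.rpow_add hx0]
  unfold h2log_Ph
  rw [abs_mul, abs_mul, abs_of_pos hE, abs_of_pos hxa]
  have h3 : Real.exp (-(c * (t * x ^ (2 / 3 : ℝ)))) *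
      |G.eval (t * x ^ (2 / 3 : ℝ)) * Real.log x + H.eval (t * x ^ (2 / 3 : ℝ))| ≤
      (6 * C1 + C2) * x ^ (1 / 6 : ℝ) := by
    calc Real.exp (-(c * (t * x ^ (2 / 3 : ℝ)))) *
      |G.eval (t * x ^ (2 / 3 : ℝ)) * Real.log x + H.eval (t * x ^ (2 / 3 : ℝ))|
        ≤ Real.exp (-(c * (t * x ^ (2 / 3 : ℝ)))) *
          (|G.eval (t * x ^ (2 / 3 : ℝ))| * Real.log x + |H.eval (t * x ^ (2 / 3 : ℝ))|) := by
          apply mul_le_mul_of_nonneg_left _ hE.le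
          refine (abs_add_le _ _).trans ?_
          rw [abs_mul, abs_of_nonneg hlog0]
      _ = (Real.exp (-(c * (t * x ^ (2 / 3 : ℝ)))) * |G.eval (t * x ^ (2 / 3 : ℝ))|) * Real.log x
          + Real.exp (-(c * (t * x ^ (2 / 3 : ℝ)))) * |H.eval (t * x ^ (2 / 3 : ℝ))| := by ring
      _ ≤ C1 * (6 * x ^ (1 / 6 : ℝ)) + C2 * x ^ (1 / 6 : ℝ) := by
          apply add_le_add
          · exact mul_le_mul e1 hlog hlog0 h1
          · calc _ ≤ C2 := e2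
              _ = C2 * 1 := by ring
              _ ≤ C2 * x ^ (1 / 6 : ℝ) := mul_le_mul_of_nonneg_left hone h2
      _ = (6 * C1 + C2) * x ^ (1 / 6 : ℝ) := by ring
  calc Real.exp (-(c * (t * x ^ (2 / 3 : ℝ)))) * x ^ (-a) *
      |G.eval (t * x ^ (2 / 3 : ℝ)) * Real.log x + H.eval (t * x ^ (2 / 3 : ℝ))|
      = x ^ (-a) * (Real.exp (-(c * (t * x ^ (2 / 3 : ℝ)))) *
        |G.eval (t * x ^ (2 / 3 : ℝ)) * Real.log x + H.eval (t * x ^ (2 / 3 : ℝ))|) := by ring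
    _ ≤ x ^ (-a) * ((6 * C1 + C2) * x ^ (1 / 6 : ℝ)) := mul_le_mul_of_nonneg_left h3 hxa.le
    _ = (6 * C1 + C2) * (x ^ (-a) * x ^ (1 / 6 : ℝ)) := by ring
theorem h2log_growth_aux (f f' : ℝ → ℝ) (C : ℝ) (k : ℕ)
    (hf : ∀ s ∈ Set.Icc (0 : ℝ) (1 / 2), HasDerivAt f (f' s) s) (h0 : f 0 = 0)
    (hb : ∀ s ∈ Set.Icc (0 : ℝ) (1 / 2), |f' s| ≤ C * s ^ k) :
    ∀ s ∈ Set.Icc (0 : ℝ) (1 / 2), |f s| ≤ C * (s ^ (k + 1) / (k + 1)) := by
  have hB : ∀ x : ℝ, HasDerivAt (fun s : ℝ => C * (s ^ (k + 1) / ((k : ℝ) + 1))) (C * x ^ k) x := by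
    intro x
    have h1 := ((hasDerivAt_pow (k + 1) x).div_const ((k : ℝ) + 1)).const_mul C
    have hk : ((k : ℝ) + 1) ≠ 0 := by positivity
    refine h1.congr_deriv ?_
    rw [Nat.add_sub_cancel]
    push_cast
    field_simp
  have := image_norm_le_of_norm_deriv_right_le_deriv_boundary (f := f) (f' := f') (a := 0)
    (b := 1 / 2) (fun s hs => (hf s hs).continuousAt.continuousWithinAt)
    (fun s hs => (hf s ⟨hs.1, hs.2.le⟩).hasDerivWithinAt)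
    (B := fun s => C * (s ^ (k + 1) / ((k : ℝ) + 1))) (B' := fun s => C * s ^ k)
    (by simp [h0]) hB (fun s hs => hb s ⟨hs.1, hs.2.le⟩)
  intro s hs
  exact this hs
theorem h2log_midpoint_local (g0 g1 g2 g3 : ℝ → ℝ) (n M : ℝ) (hn : 0 < n - 1 / 2)
    (h0 : ∀ x, 0 < x → HasDerivAt g0 (g1 x) x) (h1 : ∀ x, 0 < x → HasDerivAt g1 (g2 x) x)
    (h2 : ∀ x, 0 < x → HasDerivAt g2 (g3 x) x)
    (hM : ∀ x ∈ Set.Icc (n - 1 / 2) (n + 1 / 2), |g3 x| ≤ M) :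
    |g0 n - (∫ x in (n - 1 / 2)..(n + 1 / 2), g0 x) +
      1 / 24 * (g1 (n + 1 / 2) - g1 (n - 1 / 2))| ≤ M := by
  have hM0 : 0 ≤ M := (abs_nonneg _).trans (hM n ⟨by linarith, by linarith⟩)
  have hp : ∀ s ∈ Set.Icc (0 : ℝ) (1 / 2), 0 < n + s := fun s hs => by
    have := hs.1; linarith
  have hq : ∀ s ∈ Set.Icc (0 : ℝ) (1 / 2), 0 < n - s := fun s hs => by
    have := hs.2; linarith
  have hdp : ∀ (g g' : ℝ → ℝ) (s : ℝ), HasDerivAt g (g' (n + s)) (n + s) →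
      HasDerivAt (fun s => g (n + s)) (g' (n + s)) s := fun g g' s h => h.comp_const_add n s
  have hdm : ∀ (g g' : ℝ → ℝ) (s : ℝ), HasDerivAt g (g' (n - s)) (n - s) →
      HasDerivAt (fun s => g (n - s)) (-(g' (n - s))) s := fun g g' s h => h.comp_const_sub n s
  have hcont : ContinuousOn g0 (Set.Ioi 0) := fun x hx =>
    (h0 x hx).continuousAt.continuousWithinAt
  have hii : ∀ a b : ℝ, 0 < a → 0 < b → IntervalIntegrable g0 MeasureTheory.volume a b := by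
    intro a b ha hb
    apply ContinuousOn.intervalIntegrable
    apply hcont.mono
    intro x hx
    have := hx.1
    exact lt_of_lt_of_le (lt_min ha hb) this
  have hn0 : 0 < n := by linarith
  have hA : ∀ x, 0 < x → HasDerivAt (fun u => ∫ y in n..u, g0 y) (g0 x) x := by
    intro x hx
    exact intervalIntegral.integral_hasDerivAt_right (hii n x hn0 hx)
      (hcont.stronglyMeasurableAtFilter isOpen_Ioi x hx) (h0 x hx).continuousAt
  
  have s2 := h2log_growth_aux (fun s => g2 (n + s) + g2 (n - s) - 2 * g2 n)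
    (fun s => g3 (n + s) + -(g3 (n - s))) (2 * M) 0
    (fun s hs => ((hdp g2 g3 s (h2 _ (hp s hs))).add (hdm g2 g3 s (h2 _ (hq s hs)))).sub_const _)
    (by simp; ring) (by
      intro s hs
      have e1 := hM (n + s) ⟨by have := hs.1; linarith, by have := hs.2; linarith⟩
      have e2 := hM (n - s) ⟨by have := hs.2; linarith, by have := hs.1; linarith⟩
      refine (abs_add_le _ _).trans ?_
      rw [abs_neg]
      simp only [pow_zero, mul_one]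
      linarith)
  have s1 := h2log_growth_aux (fun s => g1 (n + s) - g1 (n - s) - 2 * g2 n * s)
    (fun s => g2 (n + s) - -(g2 (n - s)) - 2 * g2 n) (2 * M) 1
    (fun s hs => ((hdp g1 g2 s (h1 _ (hp s hs))).sub (hdm g1 g2 s (h1 _ (hq s hs)))).sub
      (by simpa using (hasDerivAt_id s).const_mul (2 * g2 n)))
    (by simp) (by
      intro s hs
      have e1 := s2 s hs
      simp only [zero_add, pow_one, Nat.cast_zero, div_one] at e1
      rw [pow_one, sub_neg_eq_add]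
      exact e1)
  have s0 := h2log_growth_aux (fun s => g0 (n + s) + g0 (n - s) - 2 * g0 n - g2 n * s ^ 2)
    (fun s => g1 (n + s) + -(g1 (n - s)) - 2 * g2 n * s) M 2
    (fun s hs => by
      have e1 := ((hdp g0 g1 s (h0 _ (hp s hs))).add (hdm g0 g1 s (h0 _ (hq s hs)))).sub_const
        (2 * g0 n)
      have e2 := (hasDerivAt_pow 2 s).const_mul (g2 n)
      have e3 := e1.sub e2
      refine e3.congr_deriv ?_
      norm_num
      ring)
    (by simp; ring) (by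
      intro s hs
      have e1 := s1 s hs
      norm_num at e1
      have e2 : M * s ^ 2 = 2 * M * (s ^ 2 / 2) := by ring
      rw [e2, ← sub_eq_add_neg]
      exact e1)
  have sI := h2log_growth_aux (fun s => (∫ y in n..(n + s), g0 y) - (∫ y in n..(n - s), g0 y) -
      2 * g0 n * s - g2 n * (s ^ 3 / 3))
    (fun s => g0 (n + s) - -(g0 (n - s)) - 2 * g0 n - g2 n * s ^ 2) (M / 3) 3
    (fun s hs => by
      have e1 := (hdp (fun u => ∫ y in n..u, g0 y) g0 s (hA _ (hp s hs))).sub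
        (hdm (fun u => ∫ y in n..u, g0 y) g0 s (hA _ (hq s hs)))
      have e2 : HasDerivAt (fun s : ℝ => 2 * g0 n * s) (2 * g0 n) s := by
        simpa using (hasDerivAt_id s).const_mul (2 * g0 n)
      have e3 := ((hasDerivAt_pow 3 s).div_const 3).const_mul (g2 n)
      have e4 := (e1.sub e2).sub e3
      refine e4.congr_deriv ?_
      norm_num)
    (by simp) (by
      intro s hs
      have e1 := s0 s hs
      norm_num at e1
      have e2 : M / 3 * s ^ 3 = M * (s ^ 3 / 3) := by ring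
      rw [e2, sub_neg_eq_add]
      exact e1)
  have hhalf : (1 / 2 : ℝ) ∈ Set.Icc (0 : ℝ) (1 / 2) := ⟨by norm_num, le_rfl⟩
  have f1 := s1 (1 / 2) hhalf
  have f2 := sI (1 / 2) hhalf
  have hint : (∫ y in n..(n + 1 / 2), g0 y) - (∫ y in n..(n - 1 / 2), g0 y) =
      ∫ x in (n - 1 / 2)..(n + 1 / 2), g0 x :=
    intervalIntegral.integral_interval_sub_left (hii _ _ hn0 (by linarith)) (hii _ _ hn0 hn)
  rw [hint] at f2
  norm_num at f1 f2 ⊢
  rw [abs_le] at f1 f2 ⊢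
  constructor <;> linarith [f1.1, f1.2, f2.1, f2.2]
theorem h2log_rpow_step (y : ℝ) (hy : 0 < y) :
    (y + 1) ^ (-(31 / 6) : ℝ) ≤ 6 / 25 * (y ^ (-(25 / 6) : ℝ) - (y + 1) ^ (-(25 / 6) : ℝ)) := by
  have hd : ∀ x : ℝ, 0 < x → HasDerivAt (fun x : ℝ => x ^ (-(25 / 6) : ℝ))
      (-(25 / 6) * x ^ (-(31 / 6) : ℝ)) x := by
    intro x hx
    have := Real.hasDerivAt_rpow_const (x := x) (p := (-(25 / 6) : ℝ)) (Or.inl hx.ne')
    convert this using 3
    norm_num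
  obtain ⟨ξ, hξ, hξ'⟩ := exists_hasDerivAt_eq_slope (fun x : ℝ => x ^ (-(25 / 6) : ℝ))
    (fun x => -(25 / 6) * x ^ (-(31 / 6) : ℝ)) (show y < y + 1 by linarith)
    (fun x hx => (hd x (by have := hx.1; linarith)).continuousAt.continuousWithinAt)
    (fun x hx => hd x (by have := hx.1; linarith))
  have h1 : (y + 1) ^ (-(31 / 6) : ℝ) ≤ ξ ^ (-(31 / 6) : ℝ) :=
    Real.rpow_le_rpow_of_nonpos (by have := hξ.1; linarith) hξ.2.le (by norm_num)
  rw [show y + 1 - y = 1 by ring, div_one] at hξ'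
  linarith
theorem midpoint_sum_log (c : ℝ) (hc : 0 < c) :
    ∃ C : ℝ, ∀ (K : ℕ) (t : ℝ), 1 ≤ K → 0 < t → t * pw (-(2/3)) K ≤ 1 →
      |(∑' m : ℕ, Real.exp (-(c * (t * pw (-(2/3)) (K + 1 + m)))) *
          pw (7/3) (K + 1 + m) * Real.log (K + 1 + m))
        - (∫ x in Set.Ioi ((K : ℝ) + 1 / 2), Real.exp (-(c * (t * x ^ (2 / 3 : ℝ)))) *
            x ^ (-(7 / 3) : ℝ) * Real.log x)
        - 1 / 24 * (Real.exp (-(c * (t * ((K : ℝ) + 1 / 2) ^ (2 / 3 : ℝ)))) *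
            ((K : ℝ) + 1 / 2) ^ (-(10 / 3) : ℝ) *
            (1 - (7 / 3 + 2 / 3 * c * (t * ((K : ℝ) + 1 / 2) ^ (2 / 3 : ℝ))) *
              Real.log ((K : ℝ) + 1 / 2)))| ≤
        C * pw (4 + 1 / 6) K := by
  obtain ⟨G1, hG1⟩ : ∃ G1 : Polynomial ℝ, G1 = h2log_DD c (7 / 3) 1 := ⟨_, rfl⟩
  obtain ⟨H1, hH1⟩ : ∃ H1 : Polynomial ℝ, H1 = h2log_DD c (7 / 3) 0 + 1 := ⟨_, rfl⟩
  obtain ⟨G2, hG2⟩ : ∃ G2 : Polynomial ℝ, G2 = h2log_DD c (7 / 3 + 1) G1 := ⟨_, rfl⟩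
  obtain ⟨H2, hH2⟩ : ∃ H2 : Polynomial ℝ, H2 = h2log_DD c (7 / 3 + 1) H1 + G1 := ⟨_, rfl⟩
  obtain ⟨G3, hG3⟩ : ∃ G3 : Polynomial ℝ, G3 = h2log_DD c (7 / 3 + 1 + 1) G2 := ⟨_, rfl⟩
  obtain ⟨H3, hH3⟩ : ∃ H3 : Polynomial ℝ, H3 = h2log_DD c (7 / 3 + 1 + 1) H2 + G2 := ⟨_, rfl⟩
  obtain ⟨C0, hC0, hb0⟩ := h2log_Ph_bd c hc (7 / 3) 1 0
  obtain ⟨C1, hC1, hb1⟩ := h2log_Ph_bd c hc (7 / 3 + 1) G1 H1
  obtain ⟨C3, hC3, hb3⟩ := h2log_Ph_bd c hc (7 / 3 + 1 + 1 + 1) G3 H3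
  refine ⟨C3 * (6 / 25 * 2 ^ (25 / 6 : ℝ)), ?_⟩
  intro K t hK ht _
  have hK1 : (1 : ℝ) ≤ K := by exact_mod_cast hK
  obtain ⟨g0, hg0⟩ : ∃ g0 : ℝ → ℝ, g0 = h2log_Ph c t (7 / 3) 1 0 := ⟨_, rfl⟩
  obtain ⟨g1, hg1⟩ : ∃ g1 : ℝ → ℝ, g1 = h2log_Ph c t (7 / 3 + 1) G1 H1 := ⟨_, rfl⟩
  obtain ⟨g2, hg2⟩ : ∃ g2 : ℝ → ℝ, g2 = h2log_Ph c t (7 / 3 + 1 + 1) G2 H2 := ⟨_, rfl⟩
  obtain ⟨g3, hg3⟩ : ∃ g3 : ℝ → ℝ, g3 = h2log_Ph c t (7 / 3 + 1 + 1 + 1) G3 H3 := ⟨_, rfl⟩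
  have d0 : ∀ x, 0 < x → HasDerivAt g0 (g1 x) x := by
    intro x hx
    rw [hg0, hg1, hG1, hH1]
    exact h2log_hasDerivAt_Ph c t _ _ _ hx
  have d1 : ∀ x, 0 < x → HasDerivAt g1 (g2 x) x := by
    intro x hx
    rw [hg1, hg2, hG2, hH2]
    exact h2log_hasDerivAt_Ph c t _ _ _ hx
  have d2 : ∀ x, 0 < x → HasDerivAt g2 (g3 x) x := by
    intro x hx
    rw [hg2, hg3, hG3, hH3]
    exact h2log_hasDerivAt_Ph c t _ _ _ hx
  have b0 : ∀ x, 1 ≤ x → |g0 x| ≤ C0 * x ^ (-(13 / 6) : ℝ) := by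
    intro x hx
    have := hb0 t x ht hx
    rw [hg0]
    convert this using 3
    norm_num
  have b1 : ∀ x, 1 ≤ x → |g1 x| ≤ C1 * x ^ (-(19 / 6) : ℝ) := by
    intro x hx
    have := hb1 t x ht hx
    rw [hg1]
    convert this using 3
    norm_num
  have b3 : ∀ x, 1 ≤ x → |g3 x| ≤ C3 * x ^ (-(31 / 6) : ℝ) := by
    intro x hx
    have := hb3 t x ht hx
    rw [hg3]
    convert this using 3
    norm_num
  
  have g0eq : ∀ x : ℝ, Real.exp (-(c * (t * x ^ (2 / 3 : ℝ)))) * x ^ (-(7 / 3) : ℝ) * Real.log x =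
      g0 x := by
    intro x
    rw [hg0]
    unfold h2log_Ph
    simp
  have g1eq : ∀ x : ℝ, Real.exp (-(c * (t * x ^ (2 / 3 : ℝ)))) * x ^ (-(10 / 3) : ℝ) *
      (1 - (7 / 3 + 2 / 3 * c * (t * x ^ (2 / 3 : ℝ))) * Real.log x) = g1 x := by
    intro x
    rw [hg1, hG1, hH1]
    unfold h2log_Ph h2log_DD
    rw [show (-(7 / 3 + 1) : ℝ) = -(10 / 3) by norm_num]
    simp only [Polynomial.eval_add, Polynomial.eval_sub, Polynomial.eval_mul, Polynomial.eval_C,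
      Polynomial.eval_X, Polynomial.eval_one, Polynomial.eval_zero, Polynomial.derivative_one,
      Polynomial.derivative_zero]
    ring
  have hterm : ∀ m : ℕ, Real.exp (-(c * (t * pw (-(2/3)) (K + 1 + m)))) *
      pw (7/3) (K + 1 + m) * Real.log (K + 1 + m) = g0 ((K : ℝ) + 1 + m) := by
    intro m
    rw [h2log_pw_eq _ _ (by omega), h2log_pw_eq _ _ (by omega), ← g0eq]
    push_cast
    rw [neg_neg]
  simp only [hterm, g0eq, g1eq]
  
  have hsum : Summable (fun m : ℕ => g0 ((K : ℝ) + 1 + m)) := by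
    have h1 : Summable (fun m : ℕ => C0 * ((m : ℝ) + 1) ^ (-(13 / 6) : ℝ)) := by
      apply Summable.mul_left
      have h2 : Summable (fun m : ℕ => ((m : ℝ)) ^ (-(13 / 6) : ℝ)) :=
        Real.summable_nat_rpow.2 (by norm_num)
      have h3 := (summable_nat_add_iff 1).2 h2
      simpa using h3
    refine Summable.of_norm_bounded h1 (fun m => ?_)
    rw [Real.norm_eq_abs]
    have hm : (0 : ℝ) ≤ m := Nat.cast_nonneg m
    refine (b0 _ (by linarith)).trans ?_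
    apply mul_le_mul_of_nonneg_left _ hC0
    exact Real.rpow_le_rpow_of_nonpos (by linarith) (by linarith) (by norm_num)
  have hcont : ContinuousOn g0 (Set.Ioi 0) := fun x hx =>
    (d0 x hx).continuousAt.continuousWithinAt
  have hint : MeasureTheory.IntegrableOn g0 (Set.Ioi ((K : ℝ) + 1 / 2)) := by
    have h1 : MeasureTheory.IntegrableOn (fun x : ℝ => C0 * x ^ (-(13 / 6) : ℝ))
        (Set.Ioi ((K : ℝ) + 1 / 2)) :=
      (integrableOn_Ioi_rpow_of_lt (by norm_num) (by linarith)).const_mul C0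
    refine MeasureTheory.Integrable.mono' h1 ?_ ?_
    · apply ContinuousOn.aestronglyMeasurable _ measurableSet_Ioi
      apply hcont.mono
      intro x hx
      have : (K : ℝ) + 1 / 2 < x := hx
      show 0 < x
      linarith
    · rw [MeasureTheory.ae_restrict_iff' measurableSet_Ioi]
      refine Filter.Eventually.of_forall (fun x hx => ?_)
      have : (K : ℝ) + 1 / 2 < x := hx
      rw [Real.norm_eq_abs]
      exact b0 x (by linarith)
  have hto : Tendsto (fun N : ℕ => (K : ℝ) + 1 / 2 + N) atTop atTop :=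
    tendsto_atTop_add_const_left _ _ tendsto_natCast_atTop_atTop
  have l1 := hsum.hasSum.tendsto_sum_nat
  have l2 := MeasureTheory.intervalIntegral_tendsto_integral_Ioi ((K : ℝ) + 1 / 2) hint hto
  have l3 : Tendsto (fun N : ℕ => g1 ((K : ℝ) + 1 / 2 + N)) atTop (nhds 0) := by
    have h1 : Tendsto (fun x : ℝ => C1 * x ^ (-(19 / 6) : ℝ)) atTop (nhds 0) := by
      have := (tendsto_rpow_neg_atTop (y := 19 / 6) (by norm_num)).const_mul C1
      simpa using this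
    refine squeeze_zero_norm (fun N => ?_) (h1.comp hto)
    rw [Real.norm_eq_abs]
    have hm : (0 : ℝ) ≤ N := Nat.cast_nonneg N
    exact b1 _ (by linarith)
  have l4 := (l1.sub l2).add ((l3.sub_const (g1 ((K : ℝ) + 1 / 2))).const_mul (1 / 24))
  have hlim : Tendsto (fun N : ℕ => (∑ m ∈ Finset.range N, g0 ((K : ℝ) + 1 + m)) -
      (∫ x in ((K : ℝ) + 1 / 2)..((K : ℝ) + 1 / 2 + N), g0 x) +
      1 / 24 * (g1 ((K : ℝ) + 1 / 2 + N) - g1 ((K : ℝ) + 1 / 2))) atTop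
      (nhds ((∑' m : ℕ, g0 ((K : ℝ) + 1 + m)) - (∫ x in Set.Ioi ((K : ℝ) + 1 / 2), g0 x) -
        1 / 24 * g1 ((K : ℝ) + 1 / 2))) := by
    convert l4 using 2
    ring
  refine le_of_tendsto (hlim.abs) (Filter.Eventually.of_forall (fun N => ?_))
  
  have hii : ∀ a b : ℝ, 0 < a → 0 < b → IntervalIntegrable g0 MeasureTheory.volume a b := by
    intro a b ha hb
    apply ContinuousOn.intervalIntegrable
    apply hcont.mono
    intro x hx
    exact lt_of_lt_of_le (lt_min ha hb) hx.1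
  have e1 : (∫ x in ((K : ℝ) + 1 / 2)..((K : ℝ) + 1 / 2 + N), g0 x) =
      ∑ m ∈ Finset.range N, ∫ x in ((K : ℝ) + 1 / 2 + m)..((K : ℝ) + 1 / 2 + ((m + 1 : ℕ) : ℝ)),
        g0 x := by
    have := intervalIntegral.sum_integral_adjacent_intervals (f := g0) (μ := MeasureTheory.volume)
      (a := fun m : ℕ => (K : ℝ) + 1 / 2 + m) (n := N) (fun k _ => hii _ _ (by positivity)
        (by positivity))
    rw [this]
    simp
  have e2 : g1 ((K : ℝ) + 1 / 2 + N) - g1 ((K : ℝ) + 1 / 2) =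
      ∑ m ∈ Finset.range N, (g1 ((K : ℝ) + 1 / 2 + ((m + 1 : ℕ) : ℝ)) - g1 ((K : ℝ) + 1 / 2 + m)) := by
    have := Finset.sum_range_sub (fun m : ℕ => g1 ((K : ℝ) + 1 / 2 + m)) N
    rw [this]
    simp
  rw [e1, e2, ← Finset.sum_sub_distrib, Finset.mul_sum, ← Finset.sum_add_distrib]
  refine (Finset.abs_sum_le_sum_abs _ _).trans ?_
  have e3 : ∀ m ∈ Finset.range N, |g0 ((K : ℝ) + 1 + m) -
      (∫ x in ((K : ℝ) + 1 / 2 + m)..((K : ℝ) + 1 / 2 + ((m + 1 : ℕ) : ℝ)), g0 x) +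
      1 / 24 * (g1 ((K : ℝ) + 1 / 2 + ((m + 1 : ℕ) : ℝ)) - g1 ((K : ℝ) + 1 / 2 + m))| ≤
      C3 * (6 / 25 * (((K : ℝ) - 1 / 2 + m) ^ (-(25 / 6) : ℝ) -
        ((K : ℝ) - 1 / 2 + ((m + 1 : ℕ) : ℝ)) ^ (-(25 / 6) : ℝ))) := by
    intro m _
    have hm : (0 : ℝ) ≤ m := Nat.cast_nonneg m
    have h1 := h2log_midpoint_local g0 g1 g2 g3 ((K : ℝ) + 1 + m)
      (C3 * ((K : ℝ) + 1 / 2 + m) ^ (-(31 / 6) : ℝ)) (by linarith) d0 d1 d2 (by
        intro x hx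
        have hx1 := hx.1
        refine (b3 x (by linarith)).trans ?_
        apply mul_le_mul_of_nonneg_left _ hC3
        exact Real.rpow_le_rpow_of_nonpos (by linarith) (by linarith) (by norm_num))
    rw [show (K : ℝ) + 1 + m - 1 / 2 = (K : ℝ) + 1 / 2 + m by ring,
      show (K : ℝ) + 1 + m + 1 / 2 = (K : ℝ) + 1 / 2 + ((m + 1 : ℕ) : ℝ) by push_cast; ring] at h1
    refine h1.trans ?_
    apply mul_le_mul_of_nonneg_left _ hC3
    have h2 := h2log_rpow_step ((K : ℝ) - 1 / 2 + m) (by linarith)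
    rw [show (K : ℝ) - 1 / 2 + m + 1 = (K : ℝ) + 1 / 2 + m by ring] at h2
    rw [show (K : ℝ) - 1 / 2 + ((m + 1 : ℕ) : ℝ) = (K : ℝ) + 1 / 2 + m by push_cast; ring]
    exact h2
  refine (Finset.sum_le_sum e3).trans ?_
  rw [← Finset.mul_sum, ← Finset.mul_sum]
  have e4 : ∑ m ∈ Finset.range N, (((K : ℝ) - 1 / 2 + m) ^ (-(25 / 6) : ℝ) -
      ((K : ℝ) - 1 / 2 + ((m + 1 : ℕ) : ℝ)) ^ (-(25 / 6) : ℝ)) ≤
      ((K : ℝ) - 1 / 2) ^ (-(25 / 6) : ℝ) := by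
    have h1 := Finset.sum_range_sub' (fun m : ℕ => ((K : ℝ) - 1 / 2 + m) ^ (-(25 / 6) : ℝ)) N
    rw [h1]
    have h2 : 0 ≤ ((K : ℝ) - 1 / 2 + N) ^ (-(25 / 6) : ℝ) :=
      Real.rpow_nonneg (by have : (0 : ℝ) ≤ N := Nat.cast_nonneg N; linarith) _
    simp only [Nat.cast_zero, add_zero]
    linarith
  have e5 : ((K : ℝ) - 1 / 2) ^ (-(25 / 6) : ℝ) ≤ 2 ^ (25 / 6 : ℝ) * pw (4 + 1 / 6) K := by
    rw [h2log_pw_eq _ _ (by omega)]
    calc ((K : ℝ) - 1 / 2) ^ (-(25 / 6) : ℝ) ≤ ((K : ℝ) / 2) ^ (-(25 / 6) : ℝ) :=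
          Real.rpow_le_rpow_of_nonpos (by linarith) (by linarith) (by norm_num)
      _ = 2 ^ (25 / 6 : ℝ) * (K : ℝ) ^ (-(4 + 1 / 6) : ℝ) := by
          rw [Real.div_rpow (by linarith) (by norm_num), Real.rpow_neg (by norm_num : (0:ℝ) ≤ 2),
            div_inv_eq_mul, mul_comm]
          norm_num
  have e6 := (e4.trans e5)
  have e7 : C3 * (6 / 25 * ∑ m ∈ Finset.range N, (((K : ℝ) - 1 / 2 + m) ^ (-(25 / 6) : ℝ) -
      ((K : ℝ) - 1 / 2 + ((m + 1 : ℕ) : ℝ)) ^ (-(25 / 6) : ℝ))) ≤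
      C3 * (6 / 25 * (2 ^ (25 / 6 : ℝ) * pw (4 + 1 / 6) K)) :=
    mul_le_mul_of_nonneg_left (mul_le_mul_of_nonneg_left e6 (by norm_num)) hC3
  refine e7.trans (le_of_eq ?_)
  ring

end Pool.Agent.Helper615.LogA
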