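import Mathlib
import Pool.Agent.Helper615.LogA.Defs
import Pool.Agent.Helper615.LogA.G1
import Pool.Agent.Helper615.LogA.H1
import Pool.Agent.Helper615.LogA.H1log
import Pool.Agent.Helper615.LogA.H2log
set_option autoImplicit false

namespace Pool.Agent.Helper615.LogA

open Filter Asymptotics
theorem h4_xl_pw_eq (K : ℕ) (hK : 1 ≤ K) : pw (-(2/3)) K = (K : ℝ) ^ (2 / 3 : ℝ) := by
  unfold pw
  have hK0 : (0 : ℝ) < K := by exact_mod_cast hK
  rw [Real.rpow_def_of_pos hK0]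
  congr 1; ring
theorem h4_xl_pw_pos (e : ℝ) (K : ℕ) : 0 < pw e K := Real.exp_pos _
theorem h4_xl_pw_one (K : ℕ) (hK : 1 ≤ K) : 1 ≤ pw (-(2/3)) K := by
  rw [h4_xl_pw_eq K hK]
  exact Real.one_le_rpow (by exact_mod_cast hK) (by norm_num)
theorem h4_xl_V (K : ℕ) (hK : 1 ≤ K) : 1 ≤ ((K : ℝ) + 1 / 2) ^ (2 / 3 : ℝ) ∧
    ((K : ℝ) + 1 / 2) ^ (2 / 3 : ℝ) ≤ 2 * pw (-(2/3)) K := by
  have hK1 : (1 : ℝ) ≤ K := by exact_mod_cast hK
  constructor
  · exact Real.one_le_rpow (by linarith) (by norm_num)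
  · rw [h4_xl_pw_eq K hK]
    have h1 : ((K : ℝ) + 1 / 2) ^ (2 / 3 : ℝ) ≤ (2 * (K : ℝ)) ^ (2 / 3 : ℝ) :=
      Real.rpow_le_rpow (by positivity) (by linarith) (by norm_num)
    rw [Real.mul_rpow (by norm_num) (by positivity)] at h1
    have h2 : (2 : ℝ) ^ (2 / 3 : ℝ) ≤ 2 := by
      calc (2 : ℝ) ^ (2 / 3 : ℝ) ≤ (2 : ℝ) ^ (1 : ℝ) :=
            Real.rpow_le_rpow_of_exponent_le (by norm_num) (by norm_num)
        _ = 2 := Real.rpow_one 2
    exact le_trans h1 (mul_le_mul_of_nonneg_right h2 (by positivity))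
theorem h4_xl_log (V : ℝ) (hV : 1 ≤ V) : 0 ≤ Real.log V ∧ Real.log V ≤ V :=
  ⟨Real.log_nonneg hV, by linarith [Real.log_le_sub_one_of_pos (show 0 < V by linarith)]⟩
theorem h4_xl_of_approx {F : ℕ → ℝ → ℝ} (h : ∀ J : ℕ, ∃ G : ℕ → ℝ → ℝ, An G ∧ ∃ C : ℝ,
    ∀ᶠ K : ℕ in atTop, ∀ t : ℝ, 0 < t → t * pw (-(2/3)) K ≤ 1 →
      |F K t - G K t| ≤ C * (t * pw (-(2/3)) K) ^ (J + 1)) : An F := by
  intro J
  obtain ⟨G, hG, C, hC⟩ := h J
  obtain ⟨C', a, ha⟩ := hG J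
  refine ⟨C' + |C|, a, ?_⟩
  filter_upwards [hC, ha] with K h1 h2
  refine ⟨fun j hj => le_trans (h2.1 j hj) ?_, fun t ht0 ht1 => ?_⟩
  · apply mul_le_mul_of_nonneg_right _ (pow_nonneg (h4_xl_pw_pos _ _).le _)
    linarith [abs_nonneg C]
  · have h3 := h1 t ht0 ht1
    have h4 := h2.2 t ht0 ht1
    have h5 : 0 ≤ (t * pw (-(2/3)) K) ^ (J + 1) := by
      have := h4_xl_pw_pos (-(2/3)) K
      positivity
    have h6 : C * (t * pw (-(2/3)) K) ^ (J + 1) ≤ |C| * (t * pw (-(2/3)) K) ^ (J + 1) :=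
      mul_le_mul_of_nonneg_right (le_abs_self C) h5
    have h7 := abs_sub_le (F K t) (G K t) (∑ j ∈ Finset.range (J + 1), a K j * t ^ j)
    linarith
theorem h4_xl_sum (n : ℕ) (F : ℕ → ℕ → ℝ → ℝ) (h : ∀ j < n, An (F j)) :
    An (fun K t => ∑ j ∈ Finset.range n, F j K t) := by
  induction n with
  | zero =>
    have h0 := An.monomial (fun _ => 0) 0 ⟨0, Eventually.of_forall fun K => by simp⟩
    refine h0.congr (Eventually.of_forall fun K t _ _ => by simp)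
  | succ n ih =>
    have h1 := (ih fun j hj => h j (Nat.lt_succ_of_lt hj)).add (h n (Nat.lt_succ_self n))
    refine h1.congr (Eventually.of_forall fun K t _ _ => ?_)
    rw [Finset.sum_range_succ]
theorem h4_xl_int1 (c y : ℝ) (hc : 0 < c) (hy : 0 < y) : MeasureTheory.IntegrableOn
    (fun u : ℝ => u ^ (-3 : ℝ) * Real.exp (-(c * u))) (Set.Ioi y) := by
  have h1 : MeasureTheory.IntegrableOn (fun u : ℝ => y ^ (-3 : ℝ) * Real.exp (-c * u)) (Set.Ioi y) :=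
    (exp_neg_integrableOn_Ioi y hc).const_mul _
  refine MeasureTheory.Integrable.mono' h1 ?_ ?_
  · apply ContinuousOn.aestronglyMeasurable _ measurableSet_Ioi
    apply ContinuousOn.mul
    · intro u hu
      exact (Real.continuousAt_rpow_const u _ (Or.inl (lt_trans hy hu).ne')).continuousWithinAt
    · fun_prop
  · refine (MeasureTheory.ae_restrict_mem measurableSet_Ioi).mono fun u hu => ?_
    have hu0 : 0 < u := lt_trans hy hu
    rw [Real.norm_eq_abs, abs_of_pos (by positivity), neg_mul]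
    apply mul_le_mul_of_nonneg_right _ (Real.exp_pos _).le
    exact Real.rpow_le_rpow_of_nonpos hy (le_of_lt hu) (by norm_num)
theorem h4_xl_int2 (c y : ℝ) (hc : 0 < c) (hy : 0 < y) : MeasureTheory.IntegrableOn
    (fun u : ℝ => u ^ (-3 : ℝ) * Real.log u * Real.exp (-(c * u))) (Set.Ioi y) := by
  have h1 : MeasureTheory.IntegrableOn
      (fun u : ℝ => (y ^ (-2 : ℝ) + y ^ (-4 : ℝ)) * Real.exp (-c * u)) (Set.Ioi y) :=
    (exp_neg_integrableOn_Ioi y hc).const_mul _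
  refine MeasureTheory.Integrable.mono' h1 ?_ ?_
  · apply ContinuousOn.aestronglyMeasurable _ measurableSet_Ioi
    apply ContinuousOn.mul
    · apply ContinuousOn.mul
      · intro u hu
        exact (Real.continuousAt_rpow_const u _ (Or.inl (lt_trans hy hu).ne')).continuousWithinAt
      · intro u hu
        exact (Real.continuousAt_log (lt_trans hy hu).ne').continuousWithinAt
    · fun_prop
  · refine (MeasureTheory.ae_restrict_mem measurableSet_Ioi).mono fun u hu => ?_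
    have hu0 : 0 < u := lt_trans hy hu
    rw [Real.norm_eq_abs, abs_mul, abs_mul, abs_of_pos (Real.exp_pos _),
      abs_of_pos (Real.rpow_pos_of_pos hu0 _), neg_mul]
    apply mul_le_mul_of_nonneg_right _ (Real.exp_pos _).le
    have hlog : |Real.log u| ≤ u + u⁻¹ := by
      have h2 := Real.log_le_sub_one_of_pos hu0
      have h3 := Real.log_le_sub_one_of_pos (inv_pos.mpr hu0)
      rw [Real.log_inv] at h3
      have h4 := inv_pos.mpr hu0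
      rw [abs_le]; constructor <;> linarith
    have e1 : u ^ (-3 : ℝ) * u = u ^ (-2 : ℝ) := by
      nth_rw 2 [← Real.rpow_one u]
      rw [← Real.rpow_add hu0]; norm_num
    have e2 : u ^ (-3 : ℝ) * u⁻¹ = u ^ (-4 : ℝ) := by
      rw [← Real.rpow_neg_one u, ← Real.rpow_add hu0]; norm_num
    calc u ^ (-3 : ℝ) * |Real.log u| ≤ u ^ (-3 : ℝ) * (u + u⁻¹) :=
          mul_le_mul_of_nonneg_left hlog (by positivity)
      _ = u ^ (-2 : ℝ) + u ^ (-4 : ℝ) := by rw [mul_add, e1, e2]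
      _ ≤ _ := add_le_add (Real.rpow_le_rpow_of_nonpos hy (le_of_lt hu) (by norm_num))
          (Real.rpow_le_rpow_of_nonpos hy (le_of_lt hu) (by norm_num))
theorem h4_xl_subst (c t b : ℝ) (hc : 0 < c) (ht : 0 < t) (hb : 0 < b) :
    ∫ x in Set.Ioi b, Real.exp (-(c * (t * x ^ (2 / 3 : ℝ)))) * x ^ (-(7 / 3) : ℝ) * Real.log x =
      9 / 4 * t ^ 2 * ((∫ u in Set.Ioi (t * b ^ (2 / 3 : ℝ)),
        u ^ (-3 : ℝ) * Real.log u * Real.exp (-(c * u))) -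
        Real.log t * ∫ u in Set.Ioi (t * b ^ (2 / 3 : ℝ)), u ^ (-3 : ℝ) * Real.exp (-(c * u))) := by
  have hy : 0 < t * b ^ (2 / 3 : ℝ) := by positivity
  have himg : (fun x : ℝ => t * x ^ (2 / 3 : ℝ)) '' Set.Ioi b = Set.Ioi (t * b ^ (2 / 3 : ℝ)) := by
    ext w
    constructor
    · rintro ⟨x, hx, rfl⟩
      exact mul_lt_mul_of_pos_left (Real.rpow_lt_rpow hb.le hx (by norm_num)) ht
    · intro hw
      have hw' : t * b ^ (2 / 3 : ℝ) < w := hw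
      have hw0 : 0 < w := lt_trans hy hw'
      have hwt : 0 < w / t := by positivity
      refine ⟨(w / t) ^ (3 / 2 : ℝ), ?_, ?_⟩
      · show b < (w / t) ^ (3 / 2 : ℝ)
        have h1 : b ^ (2 / 3 : ℝ) < w / t := by rw [lt_div_iff₀ ht]; linarith
        have h2 := Real.rpow_lt_rpow (by positivity) h1 (show (0 : ℝ) < 3 / 2 by norm_num)
        rw [← Real.rpow_mul hb.le] at h2
        norm_num at h2
        exact h2
      · show t * ((w / t) ^ (3 / 2 : ℝ)) ^ (2 / 3 : ℝ) = w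
        rw [← Real.rpow_mul hwt.le]
        norm_num
        field_simp
  have hinj : Set.InjOn (fun x : ℝ => t * x ^ (2 / 3 : ℝ)) (Set.Ioi b) := by
    have hmono : StrictMonoOn (fun x : ℝ => t * x ^ (2 / 3 : ℝ)) (Set.Ioi b) := by
      intro x hx y' hy' hxy
      exact mul_lt_mul_of_pos_left
        (Real.rpow_lt_rpow (lt_trans hb hx).le hxy (by norm_num)) ht
    exact hmono.injOn
  have hder : ∀ x ∈ Set.Ioi b, HasDerivWithinAt (fun x : ℝ => t * x ^ (2 / 3 : ℝ))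
      (t * ((2 / 3 : ℝ) * x ^ ((2 / 3 : ℝ) - 1))) (Set.Ioi b) x := by
    intro x hx
    exact ((Real.hasDerivAt_rpow_const (Or.inl (lt_trans hb hx).ne')).const_mul t).hasDerivWithinAt
  have hcv := MeasureTheory.integral_image_eq_integral_abs_deriv_smul measurableSet_Ioi hder hinj
    (fun u => 9 / 4 * t ^ 2 * (u ^ (-3 : ℝ) * Real.log u * Real.exp (-(c * u)) -
      Real.log t * (u ^ (-3 : ℝ) * Real.exp (-(c * u)))))
  rw [himg] at hcv
  have hlhs : ∫ x in Set.Ioi b, Real.exp (-(c * (t * x ^ (2 / 3 : ℝ)))) * x ^ (-(7 / 3) : ℝ) *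
      Real.log x = ∫ x in Set.Ioi b, |t * ((2 / 3 : ℝ) * x ^ ((2 / 3 : ℝ) - 1))| •
      (fun u => 9 / 4 * t ^ 2 * (u ^ (-3 : ℝ) * Real.log u * Real.exp (-(c * u)) -
      Real.log t * (u ^ (-3 : ℝ) * Real.exp (-(c * u))))) (t * x ^ (2 / 3 : ℝ)) := by
    apply MeasureTheory.setIntegral_congr_fun measurableSet_Ioi
    intro x hx
    have hx0 : 0 < x := lt_trans hb hx
    have e1 : (t * x ^ (2 / 3 : ℝ)) ^ (-3 : ℝ) = (t ^ 3)⁻¹ * x ^ (-2 : ℝ) := by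
      rw [Real.mul_rpow ht.le (by positivity), ← Real.rpow_mul hx0.le, Real.rpow_neg ht.le]
      congr 2
      · norm_cast
      · norm_num
    have e2 : Real.log (t * x ^ (2 / 3 : ℝ)) = Real.log t + 2 / 3 * Real.log x := by
      rw [Real.log_mul ht.ne' (by positivity), Real.log_rpow hx0]
    have e3 : x ^ (-(7 / 3) : ℝ) = x ^ ((2 / 3 : ℝ) - 1) * x ^ (-2 : ℝ) := by
      rw [← Real.rpow_add hx0]; norm_num
    simp only [smul_eq_mul]
    rw [abs_of_pos (by positivity), e1, e2, e3]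
    field_simp
    ring
  rw [hlhs, ← hcv, MeasureTheory.integral_const_mul, MeasureTheory.integral_sub
    (h4_xl_int2 c _ hc hy) ((h4_xl_int1 c _ hc hy).const_mul _), MeasureTheory.integral_const_mul]
theorem h4_xl_Vpow (K : ℕ) (hK : 1 ≤ K) (i N : ℕ) (hi : i ≤ N) :
    (((K : ℝ) + 1 / 2) ^ (2 / 3 : ℝ)) ^ i ≤ 2 ^ i * pw (-(2/3)) K ^ N := by
  have h1 := h4_xl_V K hK
  have h2 := h4_xl_pw_one K hK
  calc (((K : ℝ) + 1 / 2) ^ (2 / 3 : ℝ)) ^ i ≤ (2 * pw (-(2/3)) K) ^ i :=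
        pow_le_pow_left₀ (by linarith) h1.2 i
    _ = 2 ^ i * pw (-(2/3)) K ^ i := mul_pow _ _ _
    _ ≤ 2 ^ i * pw (-(2/3)) K ^ N :=
        mul_le_mul_of_nonneg_left (pow_le_pow_right₀ h2 hi) (by positivity)
theorem h4_xl_beta (c : ℝ) (a j : ℕ) : An (fun K t => (if j = 2 then 0 else
    9 / 4 * ((-c) ^ j / j.factorial) * (((((K : ℝ) + 1 / 2) ^ (2 / 3 : ℝ)) ^ ((j : ℝ) - 2)) *
      Real.log (((K : ℝ) + 1 / 2) ^ (2 / 3 : ℝ)) / (2 - j) +
      (((K : ℝ) + 1 / 2) ^ (2 / 3 : ℝ)) ^ ((j : ℝ) - 2) / (2 - j) ^ 2)) * t ^ (a + 1 + j)) := by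
  apply An.monomial
  refine ⟨9 / 4 * |(-c) ^ j / j.factorial| * (2 * 2 ^ (j + 1)), ?_⟩
  filter_upwards [eventually_ge_atTop 1] with K hK
  have hpw := h4_xl_pw_one K hK
  have hpow := h4_xl_Vpow K hK (j + 1) (a + 1 + j) (by omega)
  obtain ⟨hV1, hV2⟩ := h4_xl_V K hK
  obtain ⟨V, hV⟩ : ∃ V : ℝ, V = ((K : ℝ) + 1 / 2) ^ (2 / 3 : ℝ) := ⟨_, rfl⟩
  rw [← hV] at hV1 hV2 hpow ⊢
  obtain ⟨hl0, hl1⟩ := h4_xl_log V hV1
  have hV0 : 0 < V := by linarith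
  split_ifs with hj
  · rw [abs_zero]
    have : 0 < pw (-(2/3)) K := h4_xl_pw_pos _ _
    positivity
  · have hd : 1 ≤ |(2 : ℝ) - j| := by
      have h1 : ((2 : ℤ) - j : ℤ) ≠ 0 := by omega
      have h2 := Int.one_le_abs h1
      have h3 : ((1 : ℤ) : ℝ) ≤ ((|(2 : ℤ) - j| : ℤ) : ℝ) := by exact_mod_cast h2
      push_cast at h3
      exact h3
    have hp : V ^ ((j : ℝ) - 2) ≤ V ^ j := by
      rw [← Real.rpow_natCast V j]
      exact Real.rpow_le_rpow_of_exponent_le hV1 (by linarith)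
    have hp0 : 0 < V ^ ((j : ℝ) - 2) := by positivity
    have t1 : |V ^ ((j : ℝ) - 2) * Real.log V / (2 - j)| ≤ V ^ j * V := by
      rw [abs_div, abs_of_nonneg (by positivity)]
      refine le_trans (div_le_self (by positivity) hd) ?_
      exact mul_le_mul hp hl1 hl0 (by positivity)
    have t2 : |V ^ ((j : ℝ) - 2) / (2 - j) ^ 2| ≤ V ^ j * V := by
      rw [abs_div, abs_of_nonneg hp0.le, abs_pow]
      refine le_trans (div_le_self hp0.le (one_le_pow₀ hd)) ?_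
      have : V ^ j ≤ V ^ j * V := by
        have h3 : 0 < V ^ j := by positivity
        nlinarith
      linarith
    have t3 : |V ^ ((j : ℝ) - 2) * Real.log V / (2 - j) + V ^ ((j : ℝ) - 2) / (2 - j) ^ 2| ≤
        2 * V ^ (j + 1) := by
      refine le_trans (abs_add_le _ _) ?_
      have e7 : V ^ (j + 1) = V ^ j * V := pow_succ V j
      rw [e7]; linarith
    rw [abs_mul, abs_mul, abs_of_pos (show (0 : ℝ) < 9 / 4 by norm_num)]
    have h4 : 2 * V ^ (j + 1) ≤ 2 * 2 ^ (j + 1) * pw (-(2/3)) K ^ (a + 1 + j) := by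
      rw [mul_assoc]; exact mul_le_mul_of_nonneg_left hpow (by norm_num)
    calc 9 / 4 * |(-c) ^ j / j.factorial| *
        |V ^ ((j : ℝ) - 2) * Real.log V / (2 - j) + V ^ ((j : ℝ) - 2) / (2 - j) ^ 2|
        ≤ 9 / 4 * |(-c) ^ j / j.factorial| * (2 * 2 ^ (j + 1) * pw (-(2/3)) K ^ (a + 1 + j)) :=
          mul_le_mul_of_nonneg_left (le_trans t3 h4) (by positivity)
      _ = _ := by ring
theorem h4_xl_alpha (c : ℝ) (a : ℕ) : An (fun K t => (-(9 / 16) * c ^ 2 *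
    Real.log (((K : ℝ) + 1 / 2) ^ (2 / 3 : ℝ)) ^ 2) * t ^ (a + 3)) := by
  apply An.monomial
  refine ⟨9 / 16 * c ^ 2 * 2 ^ 2, ?_⟩
  filter_upwards [eventually_ge_atTop 1] with K hK
  have hpow := h4_xl_Vpow K hK 2 (a + 3) (by omega)
  obtain ⟨hV1, hV2⟩ := h4_xl_V K hK
  obtain ⟨V, hV⟩ : ∃ V : ℝ, V = ((K : ℝ) + 1 / 2) ^ (2 / 3 : ℝ) := ⟨_, rfl⟩
  rw [← hV] at hV1 hV2 hpow ⊢
  obtain ⟨hl0, hl1⟩ := h4_xl_log V hV1
  have h1 : Real.log V ^ 2 ≤ V ^ 2 := pow_le_pow_left₀ hl0 hl1 2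
  rw [abs_mul, abs_mul, abs_neg, abs_of_pos (show (0 : ℝ) < 9 / 16 by norm_num),
    abs_of_nonneg (sq_nonneg c), abs_of_nonneg (sq_nonneg (Real.log V))]
  calc 9 / 16 * c ^ 2 * Real.log V ^ 2 ≤ 9 / 16 * c ^ 2 * (2 ^ 2 * pw (-(2/3)) K ^ (a + 3)) :=
        mul_le_mul_of_nonneg_left (le_trans h1 hpow) (by positivity)
    _ = _ := by ring
theorem h4_xl_ype (y s e : ℝ) (J : ℕ) (hy : 0 < y) (hys : y ≤ 2 * s) (hs : s ≤ 1)
    (he : (J : ℝ) + 1 ≤ e) : y ^ e ≤ 2 ^ e * s ^ (J + 1) := by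
  have hs0 : 0 < s := by linarith
  have he0 : 0 ≤ e := by
    have : (0 : ℝ) ≤ J := Nat.cast_nonneg J
    linarith
  calc y ^ e ≤ (2 * s) ^ e := Real.rpow_le_rpow hy.le hys he0
    _ = 2 ^ e * s ^ e := Real.mul_rpow (by norm_num) hs0.le
    _ ≤ 2 ^ e * s ^ ((J : ℝ) + 1) :=
        mul_le_mul_of_nonneg_left (Real.rpow_le_rpow_of_exponent_ge hs0 hs he) (by positivity)
    _ = 2 ^ e * s ^ (J + 1) := by
        congr 1
        rw [← Real.rpow_natCast]; push_cast; rfl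
theorem h4_xl_A1 (c : ℝ) (a : ℕ) (I0 I1 : ℝ → ℝ) (κ₀ κ₁ : ℝ)
    (h0 : ∀ J : ℕ, 2 < (J : ℝ) + 1 → ∃ C : ℝ, ∀ y : ℝ, 0 < y → y ≤ 2 →
      |I0 y - κ₀ - (-(c ^ 2 / 2)) * Real.log y
        - ∑ j ∈ Finset.range (J + 1), (if j = 2 then 0 else
            (-c) ^ j / j.factorial * (y ^ ((j : ℝ) - 2) / (2 - j)))| ≤ C * y ^ ((J : ℝ) + 1 - 2))
    (h1 : ∀ J : ℕ, 2 ≤ J → ∃ C : ℝ, ∀ y : ℝ, 0 < y → y ≤ 2 →
      |I1 y - κ₁ + c ^ 2 / 4 * Real.log y ^ 2
        - ∑ j ∈ Finset.range (J + 1), (if j = 2 then 0 else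
            (-c) ^ j / j.factorial * (y ^ ((j : ℝ) - 2) * Real.log y / (2 - j)
              + y ^ ((j : ℝ) - 2) / (2 - j) ^ 2))| ≤ C * y ^ ((J : ℝ) - 3 / 2)) :
    An (fun K t => t ^ (a + 1) * (9 / 4 * t ^ 2 *
      ((I1 (t * ((K : ℝ) + 1 / 2) ^ (2 / 3 : ℝ)) -
        Real.log t * I0 (t * ((K : ℝ) + 1 / 2) ^ (2 / 3 : ℝ)))
        - c ^ 2 / 4 * Real.log t ^ 2 + κ₀ * Real.log t - κ₁))) := by
  apply h4_xl_of_approx
  intro J
  refine ⟨fun K t => (-(9 / 16) * c ^ 2 *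
    Real.log (((K : ℝ) + 1 / 2) ^ (2 / 3 : ℝ)) ^ 2) * t ^ (a + 3) +
    ∑ j ∈ Finset.range (J + 3 + 1), (if j = 2 then 0 else
    9 / 4 * ((-c) ^ j / j.factorial) * (((((K : ℝ) + 1 / 2) ^ (2 / 3 : ℝ)) ^ ((j : ℝ) - 2)) *
      Real.log (((K : ℝ) + 1 / 2) ^ (2 / 3 : ℝ)) / (2 - j) +
      (((K : ℝ) + 1 / 2) ^ (2 / 3 : ℝ)) ^ ((j : ℝ) - 2) / (2 - j) ^ 2)) * t ^ (a + 1 + j), ?_, ?_⟩
  · exact (h4_xl_alpha c a).add (h4_xl_sum (J + 3 + 1) _ fun j _ => h4_xl_beta c a j)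
  · obtain ⟨C0, hC0⟩ := h0 (J + 3) (by push_cast; have : (0 : ℝ) ≤ J := Nat.cast_nonneg J; linarith)
    obtain ⟨C1, hC1⟩ := h1 (J + 3) (by omega)
    refine ⟨9 / 4 * (|C1| * 2 ^ (((J + 3 : ℕ) : ℝ) - 3 / 2) +
      |C0| * 2 ^ (((J + 3 : ℕ) : ℝ) + 1 - 2)), ?_⟩
    filter_upwards [eventually_ge_atTop 1] with K hK t ht0 ht1
    have hpw := h4_xl_pw_one K hK
    obtain ⟨hV1, hV2⟩ := h4_xl_V K hK
    obtain ⟨V, hV⟩ : ∃ V : ℝ, V = ((K : ℝ) + 1 / 2) ^ (2 / 3 : ℝ) := ⟨_, rfl⟩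
    rw [← hV] at hV1 hV2 ⊢
    have hV0 : 0 < V := by linarith
    obtain ⟨y, hy⟩ : ∃ y : ℝ, y = t * V := ⟨_, rfl⟩
    have hy0 : 0 < y := by rw [hy]; positivity
    obtain ⟨s, hs⟩ : ∃ s : ℝ, s = t * pw (-(2/3)) K := ⟨_, rfl⟩
    rw [← hs] at ht1 ⊢
    have hys : y ≤ 2 * s := by rw [hy, hs]; nlinarith
    have hy2 : y ≤ 2 := by linarith
    have hs0 : 0 < s := by linarith
    have ht1' : t ≤ 1 := by
      have : t ≤ s := by rw [hs]; nlinarith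
      linarith
    have hlogy : Real.log y = Real.log t + Real.log V := by
      rw [hy, Real.log_mul ht0.ne' hV0.ne']
    obtain ⟨R0, hR0⟩ : ∃ R0 : ℝ, R0 = I0 y - κ₀ - (-(c ^ 2 / 2)) * Real.log y
        - ∑ j ∈ Finset.range (J + 3 + 1), (if j = 2 then 0 else
            (-c) ^ j / j.factorial * (y ^ ((j : ℝ) - 2) / (2 - j))) := ⟨_, rfl⟩
    obtain ⟨R1, hR1⟩ : ∃ R1 : ℝ, R1 = I1 y - κ₁ + c ^ 2 / 4 * Real.log y ^ 2
        - ∑ j ∈ Finset.range (J + 3 + 1), (if j = 2 then 0 else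
            (-c) ^ j / j.factorial * (y ^ ((j : ℝ) - 2) * Real.log y / (2 - j)
              + y ^ ((j : ℝ) - 2) / (2 - j) ^ 2)) := ⟨_, rfl⟩
    have b0 := hC0 y hy0 hy2
    have b1 := hC1 y hy0 hy2
    rw [← hR0] at b0
    rw [← hR1] at b1
    
    have hsum : t ^ (a + 1) * (9 / 4 * t ^ 2) * ((∑ j ∈ Finset.range (J + 3 + 1), (if j = 2 then 0 else
            (-c) ^ j / j.factorial * (y ^ ((j : ℝ) - 2) * Real.log y / (2 - j)
              + y ^ ((j : ℝ) - 2) / (2 - j) ^ 2))) - Real.log t *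
              ∑ j ∈ Finset.range (J + 3 + 1), (if j = 2 then 0 else
            (-c) ^ j / j.factorial * (y ^ ((j : ℝ) - 2) / (2 - j)))) =
        ∑ j ∈ Finset.range (J + 3 + 1), (if j = 2 then 0 else
          9 / 4 * ((-c) ^ j / j.factorial) * ((V ^ ((j : ℝ) - 2)) * Real.log V / (2 - j) +
          V ^ ((j : ℝ) - 2) / (2 - j) ^ 2)) * t ^ (a + 1 + j) := by
      rw [Finset.mul_sum, ← Finset.sum_sub_distrib, Finset.mul_sum]
      apply Finset.sum_congr rfl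
      intro j _
      split_ifs with hj
      · ring
      · have hd : (2 : ℝ) - j ≠ 0 := by
          intro h3
          apply hj
          have : (j : ℝ) = 2 := by linarith
          exact_mod_cast this
        have hpow : t ^ (a + 1) * t ^ 2 * y ^ ((j : ℝ) - 2) = t ^ (a + 1 + j) * V ^ ((j : ℝ) - 2) := by
          rw [hy, Real.mul_rpow ht0.le hV0.le, ← mul_assoc]
          congr 1
          rw [← pow_add, ← Real.rpow_natCast, ← Real.rpow_natCast, ← Real.rpow_add ht0]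
          congr 1
          push_cast
          ring
        rw [hlogy]
        have e1 : t ^ (a + 1) * (9 / 4 * t ^ 2) * ((-c) ^ j / j.factorial *
            (y ^ ((j : ℝ) - 2) * (Real.log t + Real.log V) / (2 - j) + y ^ ((j : ℝ) - 2) / (2 - j) ^ 2)
            - Real.log t * ((-c) ^ j / j.factorial * (y ^ ((j : ℝ) - 2) / (2 - j)))) =
            9 / 4 * ((-c) ^ j / j.factorial) * (t ^ (a + 1) * t ^ 2 * y ^ ((j : ℝ) - 2)) *
            (Real.log V / (2 - j) + 1 / (2 - j) ^ 2) := by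
          field_simp
          ring
        rw [e1, hpow]
        field_simp
    have hid : t ^ (a + 1) * (9 / 4 * t ^ 2 * ((I1 (t * V) - Real.log t * I0 (t * V))
        - c ^ 2 / 4 * Real.log t ^ 2 + κ₀ * Real.log t - κ₁)) -
        (-(9 / 16) * c ^ 2 * Real.log V ^ 2 * t ^ (a + 3) +
        ∑ j ∈ Finset.range (J + 3 + 1), (if j = 2 then 0 else
          9 / 4 * ((-c) ^ j / j.factorial) * ((V ^ ((j : ℝ) - 2)) * Real.log V / (2 - j) +
          V ^ ((j : ℝ) - 2) / (2 - j) ^ 2)) * t ^ (a + 1 + j)) =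
        t ^ (a + 1) * (9 / 4 * t ^ 2) * (R1 - Real.log t * R0) := by
      rw [← hsum, hR0, hR1, ← hy, hlogy]
      have : t ^ (a + 3) = t ^ (a + 1) * t ^ 2 := by rw [← pow_add]
      rw [this]
      ring
    rw [hid]
    
    have ht3 : t ^ (a + 1) * (9 / 4 * t ^ 2) ≤ 9 / 4 * t := by
      have h3 : t ^ (a + 1) ≤ 1 := pow_le_one₀ ht0.le ht1'
      have h4 : t ^ 2 ≤ t := by nlinarith
      have h5 : 0 ≤ t ^ 2 := by positivity
      calc t ^ (a + 1) * (9 / 4 * t ^ 2) ≤ 1 * (9 / 4 * t ^ 2) :=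
            mul_le_mul_of_nonneg_right h3 (by positivity)
        _ ≤ 9 / 4 * t := by linarith
    have hlt : |Real.log t| * t ≤ 1 := by
      have := Real.abs_log_mul_self_lt t ht0 ht1'
      rw [abs_mul, abs_of_pos ht0] at this
      exact this.le
    have c1 : |R1| ≤ |C1| * 2 ^ (((J + 3 : ℕ) : ℝ) - 3 / 2) * s ^ (J + 1) := by
      refine le_trans b1 (le_trans (mul_le_mul_of_nonneg_right (le_abs_self C1) (by positivity)) ?_)
      rw [mul_assoc]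
      refine mul_le_mul_of_nonneg_left (h4_xl_ype y s _ J hy0 hys ht1 ?_) (abs_nonneg _)
      push_cast; linarith
    have c0 : |R0| ≤ |C0| * 2 ^ (((J + 3 : ℕ) : ℝ) + 1 - 2) * s ^ (J + 1) := by
      refine le_trans b0 (le_trans (mul_le_mul_of_nonneg_right (le_abs_self C0) (by positivity)) ?_)
      rw [mul_assoc]
      refine mul_le_mul_of_nonneg_left (h4_xl_ype y s _ J hy0 hys ht1 ?_) (abs_nonneg _)
      push_cast; linarith
    have c2 : |R1 - Real.log t * R0| ≤ |R1| + |Real.log t| * |R0| := by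
      calc |R1 - Real.log t * R0| ≤ |R1| + |Real.log t * R0| := abs_sub _ _
        _ = _ := by rw [abs_mul]
    rw [abs_mul, abs_of_nonneg (by positivity)]
    have c3 : t ^ (a + 1) * (9 / 4 * t ^ 2) * |R1 - Real.log t * R0| ≤
        9 / 4 * t * (|R1| + |Real.log t| * |R0|) :=
      mul_le_mul ht3 c2 (abs_nonneg _) (by positivity)
    have c4 : 9 / 4 * t * (|R1| + |Real.log t| * |R0|) ≤ 9 / 4 * (|R1| + |R0|) := by
      have h6 : t * |R1| ≤ |R1| := by nlinarith [abs_nonneg R1]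
      have h7 : |Real.log t| * t * |R0| ≤ |R0| := by nlinarith [abs_nonneg R0]
      nlinarith
    have c5 : 9 / 4 * (|R1| + |R0|) ≤ 9 / 4 * (|C1| * 2 ^ (((J + 3 : ℕ) : ℝ) - 3 / 2) +
      |C0| * 2 ^ (((J + 3 : ℕ) : ℝ) + 1 - 2)) * s ^ (J + 1) := by
      rw [mul_assoc, add_mul]
      linarith
    exact le_trans c3 (le_trans c4 c5)
theorem h4_xl_A2 (c : ℝ) (hc : 0 < c) (a : ℕ) : An (fun K t => t ^ (a + 1) / 24 *
    (Real.exp (-(c * (t * ((K : ℝ) + 1 / 2) ^ (2 / 3 : ℝ)))) *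
            ((K : ℝ) + 1 / 2) ^ (-(10 / 3) : ℝ) *
            (1 - (7 / 3 + 2 / 3 * c * (t * ((K : ℝ) + 1 / 2) ^ (2 / 3 : ℝ))) *
              Real.log ((K : ℝ) + 1 / 2)))) := by
  have hW : ∀ K : ℕ, 1 ≤ K → 0 < ((K : ℝ) + 1 / 2) ^ (-(10 / 3) : ℝ) ∧
      ((K : ℝ) + 1 / 2) ^ (-(10 / 3) : ℝ) ≤ 1 ∧ 0 ≤ Real.log ((K : ℝ) + 1 / 2) ∧
      ((K : ℝ) + 1 / 2) ^ (-(10 / 3) : ℝ) * Real.log ((K : ℝ) + 1 / 2) ≤ 1 := by
    intro K hK
    have hK1 : (1 : ℝ) ≤ K := by exact_mod_cast hK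
    obtain ⟨W, hWd⟩ : ∃ W : ℝ, W = (K : ℝ) + 1 / 2 := ⟨_, rfl⟩
    have hW1 : 1 ≤ W := by rw [hWd]; linarith
    rw [← hWd]
    obtain ⟨l0, l1⟩ := h4_xl_log W hW1
    have hW0 : 0 < W := by linarith
    refine ⟨by positivity, Real.rpow_le_one_of_one_le_of_nonpos hW1 (by norm_num), l0, ?_⟩
    have h1 : W ^ (-(10 / 3) : ℝ) ≤ W ^ (-1 : ℝ) :=
      Real.rpow_le_rpow_of_exponent_le hW1 (by norm_num)
    calc W ^ (-(10 / 3) : ℝ) * Real.log W ≤ W ^ (-1 : ℝ) * W :=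
          mul_le_mul h1 l1 l0 (by positivity)
      _ = 1 := by rw [Real.rpow_neg_one, inv_mul_cancel₀ hW0.ne']
  have hE := An.exp_poly 1 (fun K _ => -(c * ((K : ℝ) + 1 / 2) ^ (2 / 3 : ℝ))) (by
    intro i hi1 hi2
    have hi : i = 1 := by omega
    subst hi
    refine ⟨2 * c, ?_⟩
    filter_upwards [eventually_ge_atTop 1] with K hK
    obtain ⟨hV1, hV2⟩ := h4_xl_V K hK
    rw [abs_neg, abs_of_nonneg (by positivity), pow_one]
    nlinarith)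
  have hM1 := An.monomial (fun K => 1 / 24 * (((K : ℝ) + 1 / 2) ^ (-(10 / 3) : ℝ) *
    (1 - 7 / 3 * Real.log ((K : ℝ) + 1 / 2)))) (a + 1) ⟨4, by
      filter_upwards [eventually_ge_atTop 1] with K hK
      obtain ⟨w0, w1, w2, w3⟩ := hW K hK
      have hp : 1 ≤ pw (-(2/3)) K ^ (a + 1) := one_le_pow₀ (h4_xl_pw_one K hK)
      have h1 : |1 / 24 * (((K : ℝ) + 1 / 2) ^ (-(10 / 3) : ℝ) *
          (1 - 7 / 3 * Real.log ((K : ℝ) + 1 / 2)))| ≤ 4 := by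
        rw [abs_le]
        constructor <;> nlinarith [mul_nonneg w0.le w2]
      linarith⟩
  have hM2 := An.monomial (fun K => -(1 / 24 * (((K : ℝ) + 1 / 2) ^ (-(10 / 3) : ℝ) *
    Real.log ((K : ℝ) + 1 / 2)) * (2 / 3 * c * ((K : ℝ) + 1 / 2) ^ (2 / 3 : ℝ)))) (a + 2) ⟨2 * c, by
      filter_upwards [eventually_ge_atTop 1] with K hK
      obtain ⟨w0, w1, w2, w3⟩ := hW K hK
      obtain ⟨hV1, hV2⟩ := h4_xl_V K hK
      have hpw := h4_xl_pw_one K hK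
      have hp : pw (-(2/3)) K ≤ pw (-(2/3)) K ^ (a + 2) := by
        calc pw (-(2/3)) K = pw (-(2/3)) K ^ 1 := (pow_one _).symm
          _ ≤ _ := pow_le_pow_right₀ hpw (by omega)
      have hw4 : 0 ≤ ((K : ℝ) + 1 / 2) ^ (-(10 / 3) : ℝ) * Real.log ((K : ℝ) + 1 / 2) :=
        mul_nonneg w0.le w2
      rw [abs_neg, abs_of_nonneg (by positivity)]
      have h5 : 2 / 3 * c * ((K : ℝ) + 1 / 2) ^ (2 / 3 : ℝ) ≤ 2 * c * pw (-(2/3)) K ^ (a + 2) := by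
        calc 2 / 3 * c * ((K : ℝ) + 1 / 2) ^ (2 / 3 : ℝ) ≤ 2 / 3 * c * (2 * pw (-(2/3)) K) :=
              mul_le_mul_of_nonneg_left hV2 (by positivity)
          _ ≤ 2 * c * pw (-(2/3)) K := by nlinarith
          _ ≤ _ := mul_le_mul_of_nonneg_left hp (by positivity)
      have h6 : 0 ≤ 2 / 3 * c * ((K : ℝ) + 1 / 2) ^ (2 / 3 : ℝ) := by positivity
      calc 1 / 24 * (((K : ℝ) + 1 / 2) ^ (-(10 / 3) : ℝ) * Real.log ((K : ℝ) + 1 / 2)) *
            (2 / 3 * c * ((K : ℝ) + 1 / 2) ^ (2 / 3 : ℝ)) ≤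
            1 * (2 / 3 * c * ((K : ℝ) + 1 / 2) ^ (2 / 3 : ℝ)) :=
              mul_le_mul_of_nonneg_right (by linarith) h6
        _ ≤ _ := by rw [one_mul]; exact h5⟩
  refine (hE.mul (hM1.add hM2)).congr (Eventually.of_forall fun K t _ _ => ?_)
  rw [Finset.Icc_self, Finset.sum_singleton]
  have e1 : -(c * ((K : ℝ) + 1 / 2) ^ (2 / 3 : ℝ)) * t ^ 1 =
      -(c * (t * ((K : ℝ) + 1 / 2) ^ (2 / 3 : ℝ))) := by ring
  rw [e1]
  have e2 : t ^ (a + 2) = t ^ (a + 1) * t := by rw [← pow_succ]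
  rw [e2]
  ring
theorem xi_log_expansion (c : ℝ) (hc : 0 < c) (a : ℕ) (ha : 1 ≤ a) :
    ∃ (κ lam : ℝ) (A : ℕ → ℝ → ℝ) (C : ℝ), An A ∧
      ∀ᶠ K : ℕ in atTop, ∀ t : ℝ, 0 < t → t * pw (-(2/3)) K ≤ 1 →
        |t * (t ^ a * ∑' m : ℕ, Real.exp (-(c * (t * pw (-(2/3)) (K + 1 + m)))) *
            pw (7/3) (K + 1 + m) * Real.log (K + 1 + m))
          - (9 / 16 * c ^ 2 * (t ^ (a + 3) * Real.log t ^ 2) + lam * (t ^ (a + 3) * Real.log t)
            + κ * t ^ (a + 3))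
          - A K t| ≤ C * (t * pw (13/3) K) := by
  obtain ⟨κ₀, lam₀, hl, -, h0⟩ := gamma_tail c 2 hc
  obtain ⟨κ₁, h1⟩ := gamma_tail_log c hc
  obtain ⟨Cm, hCm⟩ := midpoint_sum_log c hc
  have hlam : lam₀ = -(c ^ 2 / 2) := by
    have := hl 2 (by norm_num)
    rw [this]
    norm_num [Nat.factorial]
  have e3 : ∀ y : ℝ, (∫ u in Set.Ioi y, u ^ (-(2 : ℝ) - 1) * Real.exp (-(c * u))) =
      ∫ u in Set.Ioi y, u ^ (-3 : ℝ) * Real.exp (-(c * u)) := by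
    intro y
    norm_num
  have hA1 := h4_xl_A1 c a (fun y => ∫ u in Set.Ioi y, u ^ (-3 : ℝ) * Real.exp (-(c * u)))
    (fun y => ∫ u in Set.Ioi y, u ^ (-3 : ℝ) * Real.log u * Real.exp (-(c * u))) κ₀ κ₁
    (by
      intro J hJ
      obtain ⟨C, hC⟩ := h0 J hJ
      refine ⟨C, fun y hy0 hy2 => ?_⟩
      have h3 := hC y hy0 hy2
      rw [e3 y, hlam] at h3
      have h4 : ∑ j ∈ Finset.range (J + 1), (if (j : ℝ) = 2 then 0 else
            (-c) ^ j / j.factorial * (y ^ ((j : ℝ) - 2) / (2 - j))) =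
          ∑ j ∈ Finset.range (J + 1), (if j = 2 then 0 else
            (-c) ^ j / j.factorial * (y ^ ((j : ℝ) - 2) / (2 - j))) := by
        apply Finset.sum_congr rfl
        intro j _
        have : ((j : ℝ) = 2) ↔ j = 2 := by
          constructor
          · intro h; exact_mod_cast h
          · intro h; rw [h]; norm_num
        simp only [this]
      rw [h4] at h3
      exact h3) h1
  have hA2 := h4_xl_A2 c hc a
  refine ⟨9 / 4 * κ₁, -(9 / 4 * κ₀), _, |Cm|, hA1.add hA2, ?_⟩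
  filter_upwards [eventually_ge_atTop 1] with K hK t ht0 ht1
  have hK1 : (1 : ℝ) ≤ K := by exact_mod_cast hK
  have hpw := h4_xl_pw_one K hK
  have hmid := hCm K t hK ht0 ht1
  have hsub := h4_xl_subst c t ((K : ℝ) + 1 / 2) hc ht0 (by linarith)
  rw [hsub] at hmid
  have ht1' : t ≤ 1 := by nlinarith
  have hta : t ^ a ≤ pw (2/3) K := by
    have h3 : t ^ a ≤ t := by
      calc t ^ a ≤ t ^ 1 := pow_le_pow_of_le_one ht0.le ht1' ha
        _ = t := pow_one t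
    have h4 : t ≤ pw (2/3) K := by
      have h5 : pw (-(2/3)) K * pw (2/3) K = 1 := by
        unfold pw
        rw [← Real.exp_add]
        simp
      have h6 := mul_le_mul_of_nonneg_right ht1 (h4_xl_pw_pos (2/3) K).le
      rw [mul_assoc, h5, mul_one, one_mul] at h6
      exact h6
    linarith
  have hexp : pw (2/3) K * pw (4 + 1 / 6) K ≤ pw (13/3) K := by
    unfold pw
    rw [← Real.exp_add, Real.exp_le_exp]
    have := Real.log_nonneg hK1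
    nlinarith
  obtain ⟨S, hS⟩ : ∃ S : ℝ, S = ∑' m : ℕ, Real.exp (-(c * (t * pw (-(2/3)) (K + 1 + m)))) *
          pw (7/3) (K + 1 + m) * Real.log (K + 1 + m) := ⟨_, rfl⟩
  rw [← hS] at hmid ⊢
  obtain ⟨I1, hI1⟩ : ∃ I1 : ℝ, I1 = ∫ u in Set.Ioi (t * ((K : ℝ) + 1 / 2) ^ (2 / 3 : ℝ)),
        u ^ (-3 : ℝ) * Real.log u * Real.exp (-(c * u)) := ⟨_, rfl⟩
  obtain ⟨I0, hI0⟩ : ∃ I0 : ℝ, I0 = ∫ u in Set.Ioi (t * ((K : ℝ) + 1 / 2) ^ (2 / 3 : ℝ)),
        u ^ (-3 : ℝ) * Real.exp (-(c * u)) := ⟨_, rfl⟩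
  obtain ⟨Bd, hBd⟩ : ∃ Bd : ℝ, Bd = Real.exp (-(c * (t * ((K : ℝ) + 1 / 2) ^ (2 / 3 : ℝ)))) *
            ((K : ℝ) + 1 / 2) ^ (-(10 / 3) : ℝ) *
            (1 - (7 / 3 + 2 / 3 * c * (t * ((K : ℝ) + 1 / 2) ^ (2 / 3 : ℝ))) *
              Real.log ((K : ℝ) + 1 / 2)) := ⟨_, rfl⟩
  simp only [← hI1, ← hI0, ← hBd] at hmid ⊢
  have e5 : t * (t ^ a * S) - (9 / 16 * c ^ 2 * (t ^ (a + 3) * Real.log t ^ 2) +
      -(9 / 4 * κ₀) * (t ^ (a + 3) * Real.log t) + 9 / 4 * κ₁ * t ^ (a + 3)) -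
      (t ^ (a + 1) * (9 / 4 * t ^ 2 * (I1 - Real.log t * I0 - c ^ 2 / 4 * Real.log t ^ 2 +
        κ₀ * Real.log t - κ₁)) + t ^ (a + 1) / 24 * Bd) =
      t * (t ^ a * (S - 9 / 4 * t ^ 2 * (I1 - Real.log t * I0) - 1 / 24 * Bd)) := by
    have p1 : t ^ (a + 3) = t * t ^ a * t ^ 2 := by ring
    have p2 : t ^ (a + 1) = t * t ^ a := by ring
    rw [p1, p2]
    ring
  rw [e5, abs_mul, abs_mul, abs_of_pos ht0, abs_of_pos (pow_pos ht0 a)]
  have h7 : |S - 9 / 4 * t ^ 2 * (I1 - Real.log t * I0) - 1 / 24 * Bd| ≤ |Cm| * pw (4 + 1 / 6) K :=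
    le_trans hmid (mul_le_mul_of_nonneg_right (le_abs_self Cm) (h4_xl_pw_pos _ K).le)
  calc t * (t ^ a * |S - 9 / 4 * t ^ 2 * (I1 - Real.log t * I0) - 1 / 24 * Bd|)
      ≤ t * (pw (2/3) K * (|Cm| * pw (4 + 1 / 6) K)) := by
        refine mul_le_mul_of_nonneg_left ?_ ht0.le
        exact mul_le_mul hta h7 (abs_nonneg _) (h4_xl_pw_pos _ K).le
    _ = t * (|Cm| * (pw (2/3) K * pw (4 + 1 / 6) K)) := by ring
    _ ≤ t * (|Cm| * pw (13/3) K) := by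
        refine mul_le_mul_of_nonneg_left ?_ ht0.le
        exact mul_le_mul_of_nonneg_left hexp (abs_nonneg _)
    _ = |Cm| * (t * pw (13/3) K) := by ring

end Pool.Agent.Helper615.LogA
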