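import Mathlib
import Pool.Agent.Helper615.LogA.Defs
import Pool.Agent.Helper615.LogA.P1
set_option autoImplicit false

namespace Pool.Agent.Helper615.LogA

open Filter Asymptotics
theorem hx_pw_pos' (e : ℝ) (n : ℕ) : 0 < pw e n := Real.exp_pos _
theorem hx_pw_add' (a b : ℝ) (n : ℕ) : pw (a + b) n = pw a n * pw b n := by
  unfold pw; rw [← Real.exp_add]; congr 1; ring
theorem hx_pw_zero' (n : ℕ) : pw 0 n = 1 := by simp [pw]
theorem hx_pw_pow' (e : ℝ) (n k : ℕ) : pw e n ^ k = pw (k * e) n := by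
  unfold pw; rw [← Real.exp_nat_mul]; congr 1; ring
theorem hx_pw_anti_exp {a b : ℝ} (h : a ≤ b) (n : ℕ) : pw b n ≤ pw a n := by
  unfold pw
  apply Real.exp_le_exp.2
  have : 0 ≤ Real.log n := Real.log_natCast_nonneg n
  nlinarith
theorem hx_pw_anti_n {e : ℝ} (he : 0 ≤ e) {K m : ℕ} (hK : 1 ≤ K) (hKm : K ≤ m) : pw e m ≤ pw e K := by
  unfold pw
  apply Real.exp_le_exp.2
  have : Real.log K ≤ Real.log m := Real.log_le_log (by exact_mod_cast hK) (by exact_mod_cast hKm)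
  nlinarith
theorem hx_log_le_pw {η : ℝ} (hη : 0 < η) (m : ℕ) : Real.log m ≤ 1 / η * pw (-η) m := by
  unfold pw
  have h := Real.add_one_le_exp (η * Real.log m)
  have h2 : -(-η * Real.log m) = η * Real.log m := by ring
  rw [h2]
  have h3 : η * Real.log m ≤ Real.exp (η * Real.log m) := by linarith
  calc Real.log m = 1 / η * (η * Real.log m) := by field_simp
    _ ≤ 1 / η * Real.exp (η * Real.log m) := mul_le_mul_of_nonneg_left h3 (by positivity)
theorem hx_log_sq_le_pw {η : ℝ} (hη : 0 < η) (m : ℕ) : Real.log m ^ 2 ≤ (2 / η) ^ 2 * pw (-η) m := by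
  have h := hx_log_le_pw (η := η / 2) (by positivity) m
  have h0 : 0 ≤ Real.log m := Real.log_natCast_nonneg m
  have h1 : Real.log m ^ 2 ≤ (1 / (η / 2) * pw (-(η / 2)) m) ^ 2 := pow_le_pow_left₀ h0 h 2
  rw [mul_pow, hx_pw_pow'] at h1
  have e1 : (1 / (η / 2)) = 2 / η := by field_simp
  have e2 : ((2 : ℕ) : ℝ) * (-(η / 2)) = -η := by push_cast; ring
  rw [e1, e2] at h1
  exact h1
theorem hx_pw_tendsto {e : ℝ} (he : 0 < e) : Tendsto (pw e) atTop (nhds 0) := by
  unfold pw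
  apply Real.tendsto_exp_atBot.comp
  apply Filter.tendsto_neg_atTop_atBot.comp
  exact (Real.tendsto_log_atTop.comp tendsto_natCast_atTop_atTop).const_mul_atTop he
theorem hx_pw_tele {r : ℝ} (hr : 0 < r) {m : ℕ} (hm : 1 ≤ m) :
    r * pw (r + 1) (m + 1) ≤ pw r m - pw r (m + 1) := by
  have hm0 : (0:ℝ) < m := by exact_mod_cast hm
  have hlog : Real.log m ≤ Real.log ((m + 1 : ℕ) : ℝ) - 1 / ((m + 1 : ℕ) : ℝ) := by
    have h1 : Real.log ((m : ℝ) / ((m + 1 : ℕ) : ℝ)) ≤ (m : ℝ) / ((m + 1 : ℕ) : ℝ) - 1 :=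
      Real.log_le_sub_one_of_pos (by positivity)
    rw [Real.log_div (by positivity) (by positivity)] at h1
    have h2 : (m : ℝ) / ((m + 1 : ℕ) : ℝ) - 1 = - (1 / ((m + 1 : ℕ) : ℝ)) := by
      push_cast
      field_simp
      ring
    linarith
  have h3 : pw r (m + 1) * (1 + r * (1 / ((m + 1 : ℕ) : ℝ))) ≤ pw r m := by
    have h4 : 1 + r * (1 / ((m + 1 : ℕ) : ℝ)) ≤ Real.exp (r * (1 / ((m + 1 : ℕ) : ℝ))) := by
      have := Real.add_one_le_exp (r * (1 / ((m + 1 : ℕ) : ℝ)))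
      linarith
    calc pw r (m + 1) * (1 + r * (1 / ((m + 1 : ℕ) : ℝ)))
        ≤ pw r (m + 1) * Real.exp (r * (1 / ((m + 1 : ℕ) : ℝ))) :=
          mul_le_mul_of_nonneg_left h4 (hx_pw_pos' _ _).le
      _ = Real.exp (-(r * (Real.log ((m + 1 : ℕ) : ℝ) - 1 / ((m + 1 : ℕ) : ℝ)))) := by
          unfold pw; rw [← Real.exp_add]; congr 1; ring
      _ ≤ pw r m := by
          unfold pw
          apply Real.exp_le_exp.2
          nlinarith
  have h5 : pw (r + 1) (m + 1) = pw r (m + 1) * (1 / ((m + 1 : ℕ) : ℝ)) := by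
    rw [hx_pw_add']
    congr 1
    unfold pw
    rw [one_mul, Real.exp_neg, Real.exp_log (by positivity), one_div]
  rw [h5]
  linarith
theorem hx_pw_sum {s : ℝ} (hs : 1 < s) {K : ℕ} (hK : 1 ≤ K) :
    Summable (fun j : ℕ => pw s (K + 1 + j)) ∧
      ∑' j : ℕ, pw s (K + 1 + j) ≤ 1 / (s - 1) * pw (s - 1) K := by
  have hr : 0 < s - 1 := by linarith
  have hb : ∀ N : ℕ, ∑ j ∈ Finset.range N, pw s (K + 1 + j) ≤ 1 / (s - 1) * pw (s - 1) K := by
    intro N
    have h1 : ∀ j ∈ Finset.range N, pw s (K + 1 + j) ≤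
        1 / (s - 1) * (pw (s - 1) (K + j) - pw (s - 1) (K + (j + 1))) := by
      intro j _
      have h := hx_pw_tele hr (m := K + j) (by omega)
      have e1 : s - 1 + 1 = s := by ring
      have e2 : K + j + 1 = K + 1 + j := by ring
      have e3 : K + (j + 1) = K + 1 + j := by ring
      rw [e1, e2] at h
      rw [e3]
      calc pw s (K + 1 + j) = 1 / (s - 1) * ((s - 1) * pw s (K + 1 + j)) := by field_simp
        _ ≤ _ := mul_le_mul_of_nonneg_left h (by positivity)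
    refine (Finset.sum_le_sum h1).trans ?_
    rw [← Finset.mul_sum]
    refine mul_le_mul_of_nonneg_left ?_ (by positivity)
    rw [Finset.sum_range_sub' (fun j => pw (s - 1) (K + j)) N]
    have := (hx_pw_pos' (s - 1) (K + N)).le
    simp only [add_zero]
    linarith
  have hsum := summable_of_sum_range_le (fun j => (hx_pw_pos' s (K + 1 + j)).le) hb
  exact ⟨hsum, Real.tsum_le_of_sum_range_le (fun j => (hx_pw_pos' s (K + 1 + j)).le) hb⟩
theorem hx_tsum_diff_le {a b e : ℕ → ℝ} (ha : Summable a) (he : Summable e)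
    (h : ∀ j, |a j - b j| ≤ e j) : |∑' j, a j - ∑' j, b j| ≤ ∑' j, e j := by
  have hab : Summable (fun j => a j - b j) := Summable.of_norm_bounded he h
  have hb : Summable b := by
    have := ha.sub hab
    refine this.congr fun j => ?_
    ring
  rw [← ha.tsum_sub hb]
  have h1 : ‖∑' j, (a j - b j)‖ ≤ ∑' j, ‖a j - b j‖ := norm_tsum_le_tsum_norm hab.norm
  exact h1.trans (hab.norm.tsum_le_tsum h he)
theorem hx_pow_exp_bound (n : ℕ) {β : ℝ} (hβ : 0 < β) : ∃ C : ℝ, 0 ≤ C ∧ ∀ x : ℝ, 0 ≤ x →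
    x ^ n * Real.exp (-(β * x)) ≤ C := by
  refine ⟨n.factorial / β ^ n, by positivity, fun x hx => ?_⟩
  have h := Real.pow_div_factorial_le_exp (β * x) (by positivity) n
  rw [Real.exp_neg, ← div_eq_mul_inv, div_le_div_iff₀ (Real.exp_pos _) (by positivity)]
  rw [div_le_iff₀ (by positivity)] at h
  calc x ^ n * β ^ n = (β * x) ^ n := by rw [mul_pow]; ring
    _ ≤ Real.exp (β * x) * n.factorial := h
    _ = _ := by ring
theorem hx_real_exp_rem (z : ℝ) (n : ℕ) :
    |Real.exp z - ∑ i ∈ Finset.range n, z ^ i / (i.factorial : ℝ)| ≤ |z| ^ n * Real.exp |z| := by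
  have h := Complex.norm_exp_sub_sum_le_norm_mul_exp (z : ℂ) n
  have e : Complex.exp (z : ℂ) - ∑ m ∈ Finset.range n, (z : ℂ) ^ m / (m.factorial : ℂ) =
      ((Real.exp z - ∑ i ∈ Finset.range n, z ^ i / (i.factorial : ℝ) : ℝ) : ℂ) := by
    push_cast
    rfl
  rw [e, Complex.norm_real, Complex.norm_real, Real.norm_eq_abs, Real.norm_eq_abs] at h
  exact h
theorem hx_core {c x U L V G P : ℝ} (hx : 0 ≤ x) (hc : 0 < c) (hU : |U| ≤ c / 8 * x)
    (hL : |L| ≤ c / 8 * x) (hV : |V| ≤ c / 8 * x) (n : ℕ) :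
    |G * Real.exp (-(c * x + U + L + V)) - Real.exp (-(c * x)) *
      (G * (∑ i ∈ Finset.range n, (-U) ^ i / (i.factorial : ℝ)) - P * L)| ≤
    Real.exp (-(c / 2 * x)) * (|G| * |U| ^ n + |G| * ((|L| + |V|) ^ 2 + |V|) +
      |L| * (|G - P| + |P| * |U|)) := by
  set E := ∑ i ∈ Finset.range n, (-U) ^ i / (i.factorial : ℝ) with hE
  have e1 : G * Real.exp (-(c * x + U + L + V)) - Real.exp (-(c * x)) * (G * E - P * L) =
      Real.exp (-(c * x)) * (G * (Real.exp (-U) * (Real.exp (-(L + V)) - 1 + (L + V)) -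
        Real.exp (-U) * V) + G * (Real.exp (-U) - E) - L * ((G - P) * Real.exp (-U) +
        P * (Real.exp (-U) - 1))) := by
    have : Real.exp (-(c * x + U + L + V)) =
        Real.exp (-(c * x)) * (Real.exp (-U) * Real.exp (-(L + V))) := by
      rw [← Real.exp_add, ← Real.exp_add]; congr 1; ring
    rw [this]; ring
  have hB : ∀ z : ℝ, z ≤ 3 * (c / 8 * x) → Real.exp z ≤ Real.exp (c / 2 * x) := by
    intro z hz
    apply Real.exp_le_exp.2
    have : 0 ≤ c / 8 * x := by positivity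
    linarith
  have hcx : 0 ≤ c / 8 * x := by positivity
  have hU1 : |Real.exp (-U)| ≤ Real.exp (c / 2 * x) := by
    rw [abs_of_pos (Real.exp_pos _)]
    exact hB _ (by have := neg_abs_le U; linarith)
  have hr1 : |Real.exp (-U) - E| ≤ |U| ^ n * Real.exp (c / 2 * x) := by
    have := hx_real_exp_rem (-U) n
    rw [abs_neg] at this
    refine this.trans (mul_le_mul_of_nonneg_left (hB _ (by linarith)) (by positivity))
  have hr2 : |Real.exp (-U) - 1| ≤ |U| * Real.exp (c / 2 * x) := by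
    have := hx_real_exp_rem (-U) 1
    rw [abs_neg] at this
    simp only [Finset.range_one, Finset.sum_singleton, pow_zero, Nat.factorial_zero, Nat.cast_one,
      div_one, pow_one] at this
    refine this.trans (mul_le_mul_of_nonneg_left (hB _ (by linarith)) (by positivity))
  have hr3 : |Real.exp (-U) * (Real.exp (-(L + V)) - 1 + (L + V)) - Real.exp (-U) * V| ≤
      ((|L| + |V|) ^ 2 + |V|) * Real.exp (c / 2 * x) := by
    have h2 := hx_real_exp_rem (-(L + V)) 2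
    rw [abs_neg] at h2
    simp only [Finset.sum_range_succ, Finset.range_zero, Finset.sum_empty, pow_zero,
      Nat.factorial_zero, Nat.cast_one, div_one, pow_one, Nat.factorial_one, zero_add] at h2
    have h3 : Real.exp (-(L + V)) - (1 + -(L + V)) = Real.exp (-(L + V)) - 1 + (L + V) := by ring
    rw [h3] at h2
    have hLV : |L + V| ≤ |L| + |V| := abs_add_le L V
    have h4 : |Real.exp (-U) * (Real.exp (-(L + V)) - 1 + (L + V))| ≤
        (|L| + |V|) ^ 2 * Real.exp (c / 2 * x) := by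
      rw [abs_mul, abs_of_pos (Real.exp_pos _)]
      calc Real.exp (-U) * |Real.exp (-(L + V)) - 1 + (L + V)|
          ≤ Real.exp (-U) * (|L + V| ^ 2 * Real.exp |L + V|) :=
            mul_le_mul_of_nonneg_left h2 (Real.exp_pos _).le
        _ = |L + V| ^ 2 * Real.exp (-U + |L + V|) := by rw [Real.exp_add]; ring
        _ ≤ (|L| + |V|) ^ 2 * Real.exp (c / 2 * x) := by
            refine mul_le_mul (pow_le_pow_left₀ (abs_nonneg _) hLV 2) (hB _ ?_)
              (Real.exp_pos _).le (by positivity)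
            have := neg_abs_le U
            linarith
    have h5 : |Real.exp (-U) * V| ≤ |V| * Real.exp (c / 2 * x) := by
      rw [abs_mul, mul_comm]
      exact mul_le_mul_of_nonneg_left hU1 (abs_nonneg _)
    calc _ ≤ _ := abs_sub _ _
      _ ≤ (|L| + |V|) ^ 2 * Real.exp (c / 2 * x) + |V| * Real.exp (c / 2 * x) := add_le_add h4 h5
      _ = _ := by ring
  rw [e1, abs_mul, abs_of_pos (Real.exp_pos _)]
  have hexp : Real.exp (-(c * x)) * Real.exp (c / 2 * x) = Real.exp (-(c / 2 * x)) := by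
    rw [← Real.exp_add]; congr 1; ring
  have hmain : |G * (Real.exp (-U) * (Real.exp (-(L + V)) - 1 + (L + V)) -
        Real.exp (-U) * V) + G * (Real.exp (-U) - E) - L * ((G - P) * Real.exp (-U) +
        P * (Real.exp (-U) - 1))| ≤ Real.exp (c / 2 * x) * (|G| * |U| ^ n +
        |G| * ((|L| + |V|) ^ 2 + |V|) + |L| * (|G - P| + |P| * |U|)) := by
    have t1 : |G * (Real.exp (-U) * (Real.exp (-(L + V)) - 1 + (L + V)) - Real.exp (-U) * V)| ≤
        |G| * (((|L| + |V|) ^ 2 + |V|) * Real.exp (c / 2 * x)) := by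
      rw [abs_mul]; exact mul_le_mul_of_nonneg_left hr3 (abs_nonneg _)
    have t2 : |G * (Real.exp (-U) - E)| ≤ |G| * (|U| ^ n * Real.exp (c / 2 * x)) := by
      rw [abs_mul]; exact mul_le_mul_of_nonneg_left hr1 (abs_nonneg _)
    have t3 : |(G - P) * Real.exp (-U) + P * (Real.exp (-U) - 1)| ≤
        |G - P| * Real.exp (c / 2 * x) + |P| * (|U| * Real.exp (c / 2 * x)) := by
      refine (abs_add_le _ _).trans (add_le_add ?_ ?_)
      · rw [abs_mul]; exact mul_le_mul_of_nonneg_left hU1 (abs_nonneg _)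
      · rw [abs_mul]; exact mul_le_mul_of_nonneg_left hr2 (abs_nonneg _)
    have t4 : |L * ((G - P) * Real.exp (-U) + P * (Real.exp (-U) - 1))| ≤
        |L| * (|G - P| * Real.exp (c / 2 * x) + |P| * (|U| * Real.exp (c / 2 * x))) := by
      rw [abs_mul]; exact mul_le_mul_of_nonneg_left t3 (abs_nonneg _)
    calc _ ≤ _ := abs_sub _ _
      _ ≤ _ := add_le_add ((abs_add_le _ _).trans (add_le_add t1 t2)) t4
      _ = _ := by ring
  calc Real.exp (-(c * x)) * _ ≤ Real.exp (-(c * x)) * (Real.exp (c / 2 * x) * (|G| * |U| ^ n +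
        |G| * ((|L| + |V|) ^ 2 + |V|) + |L| * (|G - P| + |P| * |U|))) :=
        mul_le_mul_of_nonneg_left hmain (Real.exp_pos _).le
    _ = _ := by rw [← mul_assoc, hexp]
theorem UU.mono {w w' : ℝ} (h : w ≤ w') : UU w' ≤ UU w := by
  unfold UU
  apply Submodule.span_mono
  rintro F ⟨p, q, hq, rfl⟩
  exact ⟨p, q, h.trans hq, rfl⟩
theorem UU.mul {w w' : ℝ} {F F' : ℕ → ℝ → ℝ} (hF : F ∈ UU w) (hF' : F' ∈ UU w') :
    F * F' ∈ UU (w + w') := by
  have h : F * F' ∈ UU w * UU w' := Submodule.mul_mem_mul hF hF'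
  unfold UU at h
  rw [Submodule.span_mul_span] at h
  unfold UU
  refine Submodule.span_mono ?_ h
  rintro _ ⟨_, ⟨p, q, hq, rfl⟩, _, ⟨p', q', hq', rfl⟩, rfl⟩
  refine ⟨p + p', q + q', by linarith, ?_⟩
  funext m t
  simp only [Pi.mul_apply]
  rw [pow_add, hx_pw_add' q q']
  ring
theorem UU.of_PW {q : ℝ} {u : ℕ → ℝ} (hu : u ∈ PW q) : (fun m (_ : ℝ) => u m) ∈ UU q := by
  unfold PW at hu
  refine Submodule.span_induction (p := fun u _ => (fun m (_ : ℝ) => u m) ∈ UU q) ?_ ?_ ?_ ?_ hu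
  · rintro _ ⟨e, he, rfl⟩
    refine Submodule.subset_span ⟨0, e, he, ?_⟩
    funext m t
    simp
  · exact (UU q).zero_mem
  · intro x y _ _ hx hy
    exact (UU q).add_mem hx hy
  · intro a x _ hx
    exact (UU q).smul_mem a hx
theorem UU.one_mem : (fun (_ : ℕ) (_ : ℝ) => (1 : ℝ)) ∈ UU 0 := by
  refine Submodule.subset_span ⟨0, 0, le_rfl, ?_⟩
  funext m t
  rw [pow_zero, hx_pw_zero', mul_one]
theorem UU.pow_mem {δ : ℝ} (hδ : 0 < δ) {U : ℕ → ℝ → ℝ} (hU : U ∈ UU δ) (i : ℕ) (hi : 1 ≤ i) :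
    (fun m t => (-U m t) ^ i) ∈ UU δ := by
  induction i, hi using Nat.le_induction with
  | base =>
    have : (fun m t => (-U m t) ^ 1) = -U := by funext m t; simp
    rw [this]; exact (UU δ).neg_mem hU
  | succ k hk ih =>
    have : (fun m t => (-U m t) ^ (k + 1)) = (fun m t => (-U m t) ^ k) * (-U) := by
      funext m t; simp [pow_succ]
    rw [this]
    have h := UU.mul ih ((UU δ).neg_mem hU)
    exact UU.mono (by linarith) h
theorem UU.trunc {δ : ℝ} (hδ : 0 < δ) {U : ℕ → ℝ → ℝ} (hU : U ∈ UU δ) (n : ℕ) :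
    (fun m t => (∑ i ∈ Finset.range (n + 1), (-U m t) ^ i / (i.factorial : ℝ)) - 1) ∈ UU δ := by
  have : (fun m t => (∑ i ∈ Finset.range (n + 1), (-U m t) ^ i / (i.factorial : ℝ)) - 1) =
      ∑ i ∈ Finset.range n, (1 / ((i + 1).factorial : ℝ)) • (fun m t => (-U m t) ^ (i + 1)) := by
    funext m t
    rw [Finset.sum_range_succ']
    simp only [pow_zero, Nat.factorial_zero, Nat.cast_one, div_one, add_sub_cancel_right,
      Finset.sum_apply, Pi.smul_apply, smul_eq_mul]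
    exact Finset.sum_congr rfl fun i _ => by ring
  rw [this]
  refine Submodule.sum_mem _ fun i _ => (UU δ).smul_mem _ (UU.pow_mem hδ hU (i + 1) (by omega))
theorem hx_ptw (c δ μ g₀ : ℝ) (hc : 0 < c) (hδ : 0 < δ) (a : ℕ) (ha : 1 ≤ a)
    (g : ℕ → ℝ) (hg : (g - g₀ • pw (7/3)) ∈ PW (7/3 + δ))
    (Φ U V : ℕ → ℝ → ℝ)
    (hΦ : ∀ m t, Φ m t = c * (t * pw (-(2/3)) m) + U m t + μ * t ^ a * Real.log m + V m t)
    (hU2 : ∃ C : ℝ, ∀ (n : ℕ) (t : ℝ), 1 ≤ n → 0 < t → t ≤ 1 → |U n t| ≤ C * t * pw (-(2/3) + δ) n)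
    (hV : ∃ C : ℝ, ∀ (n : ℕ) (t : ℝ), 1 ≤ n → 0 < t → t ≤ 1 → |V n t| ≤ C * t ^ (a + 2) * Real.log n)
    (N : ℕ) (hN : 3 ≤ (N : ℝ) * δ) :
    ∃ D : ℝ, 0 ≤ D ∧ ∃ K₀ : ℕ, 1 ≤ K₀ ∧ ∀ K : ℕ, K₀ ≤ K → ∀ m : ℕ, K < m → ∀ t : ℝ, 0 < t →
      t * pw (-(2/3)) K ≤ 1 →
      |g m * Real.exp (-Φ m t)| ≤ D * pw (7/3) m ∧
      |g m * Real.exp (-Φ m t) - Real.exp (-(c * (t * pw (-(2/3)) m))) *
        (g m * (∑ i ∈ Finset.range N, (-U m t) ^ i / (i.factorial : ℝ)) -
          g₀ * pw (7/3) m * (μ * t ^ a * Real.log m))| ≤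
      D * (pw (16/3) m + t ^ (2 * a) * pw (7/3 - δ/2) m + t ^ (a + 2) * pw (7/3 - δ/2) m +
        t ^ a * pw (7/3 + δ/2) m) := by
  obtain ⟨CU', hCU'⟩ := hU2
  obtain ⟨CV', hCV'⟩ := hV
  set CU := |CU'| with hCUdef
  set CV := |CV'| with hCVdef
  have hCU0 : 0 ≤ CU := abs_nonneg _
  have hCV0 : 0 ≤ CV := abs_nonneg _
  obtain ⟨C1, hC1, hC1b⟩ := (PW.isBigO hg).exists_pos
  have hC1c := hC1b.bound
  obtain ⟨CN, hCN0, hCN⟩ := hx_pow_exp_bound N (β := c / 2) (by positivity)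
  obtain ⟨CX, hCX0, hCX⟩ := hx_pow_exp_bound 1 (β := c / 2) (by positivity)
  have ev1 : ∀ᶠ m : ℕ in atTop, CU * pw δ m ≤ c / 8 := by
    have h := (hx_pw_tendsto hδ).const_mul CU
    rw [mul_zero] at h
    exact (h.eventually_lt_const (by positivity : (0:ℝ) < c / 8)).mono fun _ h => h.le
  have ev2 : ∀ᶠ m : ℕ in atTop, 3 * |μ| * pw (1/3) m ≤ c / 8 := by
    have h := (hx_pw_tendsto (e := 1/3) (by norm_num)).const_mul (3 * |μ|)
    rw [mul_zero] at h
    exact (h.eventually_lt_const (by positivity : (0:ℝ) < c / 8)).mono fun _ h => h.le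
  have ev3 : ∀ᶠ m : ℕ in atTop, 3 * CV * pw (1/3) m ≤ c / 8 := by
    have h := (hx_pw_tendsto (e := 1/3) (by norm_num)).const_mul (3 * CV)
    rw [mul_zero] at h
    exact (h.eventually_lt_const (by positivity : (0:ℝ) < c / 8)).mono fun _ h => h.le
  obtain ⟨K₁, hK₁⟩ := Filter.eventually_atTop.1 (hC1c.and (ev1.and (ev2.and ev3)))
  set Cg := |g₀| + C1 with hCg
  have hCg0 : 0 ≤ Cg := by positivity
  refine ⟨Cg + Cg * CU ^ N * CN + Cg * (|μ| + CV) ^ 2 * (2 / (δ / 2)) ^ 2 +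
    Cg * CV * (1 / (δ / 2)) + |μ| * (1 / (δ / 2)) * (C1 + |g₀| * CU * CX), by positivity,
    max K₁ 1, le_max_right _ _, ?_⟩
  intro K hK m hm t ht htK
  have hK1 : 1 ≤ K := (le_max_right _ _).trans hK
  have hm1 : 1 ≤ m := by omega
  have hmK1 : K₁ ≤ m := (le_max_left _ _).trans (hK.trans hm.le)
  obtain ⟨hb1, hb2, hb3, hb4⟩ := hK₁ m hmK1
  have ht1 : t ≤ 1 := by
    have h1 : 1 ≤ pw (-(2/3)) K := by
      have := hx_pw_anti_exp (a := -(2/3)) (b := 0) (by norm_num) K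
      rwa [hx_pw_zero'] at this
    have : t * 1 ≤ t * pw (-(2/3)) K := mul_le_mul_of_nonneg_left h1 ht.le
    linarith
  set x := t * pw (-(2/3)) m with hx
  have hx0 : 0 < x := mul_pos ht (hx_pw_pos' _ _)
  have hlog0 : 0 ≤ Real.log m := Real.log_natCast_nonneg m
  have hta : t ^ a ≤ t := pow_le_of_le_one ht.le ht1 (by omega)
  have hta2 : t ^ (a + 2) ≤ t := pow_le_of_le_one ht.le ht1 (by omega)
  have hta3 : t ^ (a + 2) ≤ t ^ a := pow_le_pow_of_le_one ht.le ht1 (by omega)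
  have hta0 : 0 < t ^ a := pow_pos ht a
  have hta20 : 0 < t ^ (a + 2) := pow_pos ht _
  
  have hgP : |g m - g₀ * pw (7/3) m| ≤ C1 * pw (7/3 + δ) m := by
    have := hb1
    simp only [Pi.sub_apply, Pi.smul_apply, smul_eq_mul, Real.norm_eq_abs] at this
    rwa [abs_of_pos (hx_pw_pos' (7/3 + δ) m)] at this
  have hP : |g₀ * pw (7/3) m| = |g₀| * pw (7/3) m := by
    rw [abs_mul, abs_of_pos (hx_pw_pos' _ _)]
  have hG : |g m| ≤ Cg * pw (7/3) m := by
    have h1 : |g m| ≤ |g m - g₀ * pw (7/3) m| + |g₀ * pw (7/3) m| := by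
      have := abs_add_le (g m - g₀ * pw (7/3) m) (g₀ * pw (7/3) m)
      rwa [sub_add_cancel] at this
    have h2 : pw (7/3 + δ) m ≤ pw (7/3) m := hx_pw_anti_exp (by linarith) m
    have h3 : C1 * pw (7/3 + δ) m ≤ C1 * pw (7/3) m := mul_le_mul_of_nonneg_left h2 hC1.le
    rw [hP] at h1
    rw [hCg, add_mul]
    linarith
  
  have hUx : |U m t| ≤ CU * x * pw δ m := by
    have h := hCU' m t hm1 ht ht1
    have h2 : CU' * t * pw (-(2/3) + δ) m ≤ CU * t * pw (-(2/3) + δ) m := by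
      have : 0 ≤ t * pw (-(2/3) + δ) m := mul_nonneg ht.le (hx_pw_pos' _ _).le
      have := mul_le_mul_of_nonneg_right (le_abs_self CU') this
      rw [mul_assoc, mul_assoc]
      exact this
    refine (h.trans h2).trans (le_of_eq ?_)
    rw [hx_pw_add', hx]; ring
  have hUc : |U m t| ≤ c / 8 * x := by
    refine hUx.trans ?_
    have : CU * x * pw δ m = (CU * pw δ m) * x := by ring
    rw [this]
    exact mul_le_mul_of_nonneg_right hb2 hx0.le
  
  have hlog3 : t * Real.log m ≤ 3 * pw (1/3) m * x := by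
    have h := hx_log_le_pw (η := 1/3) (by norm_num) m
    have e : pw (-(1/3)) m = pw (1/3) m * pw (-(2/3)) m := by
      rw [← hx_pw_add']; congr 1; norm_num
    rw [e] at h
    calc t * Real.log m ≤ t * (1 / (1/3) * (pw (1/3) m * pw (-(2/3)) m)) :=
          mul_le_mul_of_nonneg_left h ht.le
      _ = 3 * pw (1/3) m * x := by rw [hx]; ring
  have hlogd : Real.log m ≤ 1 / (δ / 2) * pw (-(δ/2)) m := hx_log_le_pw (by positivity) m
  have hlogd2 : Real.log m ^ 2 ≤ (2 / (δ / 2)) ^ 2 * pw (-(δ/2)) m := hx_log_sq_le_pw (by positivity) m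
  
  set L := μ * t ^ a * Real.log m with hL
  have hLabs : |L| = |μ| * t ^ a * Real.log m := by
    rw [hL, abs_mul, abs_mul, abs_of_pos hta0, abs_of_nonneg hlog0]
  have hLc : |L| ≤ c / 8 * x := by
    rw [hLabs]
    calc |μ| * t ^ a * Real.log m ≤ |μ| * t * Real.log m := by
          refine mul_le_mul_of_nonneg_right (mul_le_mul_of_nonneg_left hta (abs_nonneg _)) hlog0
      _ = |μ| * (t * Real.log m) := by ring
      _ ≤ |μ| * (3 * pw (1/3) m * x) := mul_le_mul_of_nonneg_left hlog3 (abs_nonneg _)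
      _ = (3 * |μ| * pw (1/3) m) * x := by ring
      _ ≤ c / 8 * x := mul_le_mul_of_nonneg_right hb3 hx0.le
  
  have hVb : |V m t| ≤ CV * t ^ (a + 2) * Real.log m := by
    have h := hCV' m t hm1 ht ht1
    refine h.trans ?_
    refine mul_le_mul_of_nonneg_right (mul_le_mul_of_nonneg_right (le_abs_self _) hta20.le) hlog0
  have hVc : |V m t| ≤ c / 8 * x := by
    refine hVb.trans ?_
    calc CV * t ^ (a + 2) * Real.log m ≤ CV * t * Real.log m := by
          refine mul_le_mul_of_nonneg_right (mul_le_mul_of_nonneg_left hta2 hCV0) hlog0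
      _ = CV * (t * Real.log m) := by ring
      _ ≤ CV * (3 * pw (1/3) m * x) := mul_le_mul_of_nonneg_left hlog3 hCV0
      _ = (3 * CV * pw (1/3) m) * x := by ring
      _ ≤ c / 8 * x := mul_le_mul_of_nonneg_right hb4 hx0.le
  have hΦe : Φ m t = c * x + U m t + L + V m t := hΦ m t
  constructor
  · 
    have hexp : Real.exp (-Φ m t) ≤ 1 := by
      rw [Real.exp_le_one_iff, hΦe]
      have h1 := neg_abs_le (U m t)
      have h2 := neg_abs_le L
      have h3 := neg_abs_le (V m t)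
      have : 0 < c * x := mul_pos hc hx0
      linarith
    rw [abs_mul, abs_of_pos (Real.exp_pos _)]
    have h1 : |g m| * Real.exp (-Φ m t) ≤ |g m| * 1 := mul_le_mul_of_nonneg_left hexp (abs_nonneg _)
    rw [mul_one] at h1
    refine (h1.trans hG).trans (mul_le_mul_of_nonneg_right ?_ (hx_pw_pos' _ _).le)
    have : 0 ≤ Cg * CU ^ N * CN + Cg * (|μ| + CV) ^ 2 * (2 / (δ / 2)) ^ 2 +
      Cg * CV * (1 / (δ / 2)) + |μ| * (1 / (δ / 2)) * (C1 + |g₀| * CU * CX) := by positivity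
    linarith
  · have hcore := hx_core (G := g m) (P := g₀ * pw (7/3) m) hx0.le hc hUc hLc hVc N
    rw [← hΦe] at hcore
    refine hcore.trans ?_
    set ex := Real.exp (-(c / 2 * x)) with hex
    have hex0 : 0 < ex := Real.exp_pos _
    have hex1 : ex ≤ 1 := by
      rw [hex, Real.exp_le_one_iff]
      have : 0 < c / 2 * x := by positivity
      linarith
    have hxN : x ^ N * ex ≤ CN := hCN x hx0.le
    have hxX : x * ex ≤ CX := by have := hCX x hx0.le; rwa [pow_one] at this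
    
    have T1 : ex * (|g m| * |U m t| ^ N) ≤ Cg * CU ^ N * CN * pw (16/3) m := by
      have h1 : |U m t| ^ N ≤ CU ^ N * x ^ N * pw 3 m := by
        have h2 : |U m t| ^ N ≤ (CU * x * pw δ m) ^ N := pow_le_pow_left₀ (abs_nonneg _) hUx N
        refine h2.trans ?_
        rw [mul_pow, mul_pow, hx_pw_pow']
        exact mul_le_mul_of_nonneg_left (hx_pw_anti_exp hN m) (by positivity)
      have h3 : |g m| * |U m t| ^ N ≤ (Cg * pw (7/3) m) * (CU ^ N * x ^ N * pw 3 m) :=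
        mul_le_mul hG h1 (by positivity) (mul_nonneg hCg0 (hx_pw_pos' _ _).le)
      have e : pw (16/3) m = pw (7/3) m * pw 3 m := by rw [← hx_pw_add']; congr 1; norm_num
      calc ex * (|g m| * |U m t| ^ N) ≤ ex * ((Cg * pw (7/3) m) * (CU ^ N * x ^ N * pw 3 m)) :=
            mul_le_mul_of_nonneg_left h3 hex0.le
        _ = Cg * CU ^ N * (x ^ N * ex) * (pw (7/3) m * pw 3 m) := by ring
        _ ≤ Cg * CU ^ N * CN * (pw (7/3) m * pw 3 m) := by
            refine mul_le_mul_of_nonneg_right (mul_le_mul_of_nonneg_left hxN (by positivity)) ?_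
            exact mul_nonneg (hx_pw_pos' _ _).le (hx_pw_pos' _ _).le
        _ = _ := by rw [e]
    
    have hpm : pw (7/3) m * pw (-(δ/2)) m = pw (7/3 - δ/2) m := by
      rw [← hx_pw_add']; congr 1
    have T2 : ex * (|g m| * ((|L| + |V m t|) ^ 2)) ≤
        Cg * (|μ| + CV) ^ 2 * (2 / (δ / 2)) ^ 2 * (t ^ (2 * a) * pw (7/3 - δ/2) m) := by
      have h1 : |L| + |V m t| ≤ (|μ| + CV) * t ^ a * Real.log m := by
        have h2 : CV * t ^ (a + 2) * Real.log m ≤ CV * t ^ a * Real.log m :=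
          mul_le_mul_of_nonneg_right (mul_le_mul_of_nonneg_left hta3 hCV0) hlog0
        rw [hLabs]
        have : (|μ| + CV) * t ^ a * Real.log m = |μ| * t ^ a * Real.log m +
          CV * t ^ a * Real.log m := by ring
        rw [this]
        exact add_le_add le_rfl (hVb.trans h2)
      have h3 : (|L| + |V m t|) ^ 2 ≤ (|μ| + CV) ^ 2 * t ^ (2 * a) *
          ((2 / (δ / 2)) ^ 2 * pw (-(δ/2)) m) := by
        have h4 : (|L| + |V m t|) ^ 2 ≤ ((|μ| + CV) * t ^ a * Real.log m) ^ 2 :=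
          pow_le_pow_left₀ (by positivity) h1 2
        refine h4.trans ?_
        have : ((|μ| + CV) * t ^ a * Real.log m) ^ 2 = (|μ| + CV) ^ 2 * t ^ (2 * a) *
          Real.log m ^ 2 := by ring
        rw [this]
        exact mul_le_mul_of_nonneg_left hlogd2 (by positivity)
      have h5 : |g m| * ((|L| + |V m t|) ^ 2) ≤ (Cg * pw (7/3) m) * ((|μ| + CV) ^ 2 * t ^ (2 * a) *
          ((2 / (δ / 2)) ^ 2 * pw (-(δ/2)) m)) :=
        mul_le_mul hG h3 (by positivity) (mul_nonneg hCg0 (hx_pw_pos' _ _).le)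
      calc ex * (|g m| * ((|L| + |V m t|) ^ 2)) ≤ 1 * (|g m| * ((|L| + |V m t|) ^ 2)) :=
            mul_le_mul_of_nonneg_right hex1 (by positivity)
        _ ≤ _ := (one_mul _).le.trans h5
        _ = Cg * (|μ| + CV) ^ 2 * (2 / (δ / 2)) ^ 2 * (t ^ (2 * a) *
            (pw (7/3) m * pw (-(δ/2)) m)) := by ring
        _ = _ := by rw [hpm]
    
    have T3 : ex * (|g m| * |V m t|) ≤
        Cg * CV * (1 / (δ / 2)) * (t ^ (a + 2) * pw (7/3 - δ/2) m) := by
      have h3 : |V m t| ≤ CV * t ^ (a + 2) * (1 / (δ / 2) * pw (-(δ/2)) m) :=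
        hVb.trans (mul_le_mul_of_nonneg_left hlogd (by positivity))
      have h5 : |g m| * |V m t| ≤ (Cg * pw (7/3) m) *
          (CV * t ^ (a + 2) * (1 / (δ / 2) * pw (-(δ/2)) m)) :=
        mul_le_mul hG h3 (abs_nonneg _) (mul_nonneg hCg0 (hx_pw_pos' _ _).le)
      calc ex * (|g m| * |V m t|) ≤ 1 * (|g m| * |V m t|) :=
            mul_le_mul_of_nonneg_right hex1 (by positivity)
        _ ≤ _ := (one_mul _).le.trans h5
        _ = Cg * CV * (1 / (δ / 2)) * (t ^ (a + 2) *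
            (pw (7/3) m * pw (-(δ/2)) m)) := by ring
        _ = _ := by rw [hpm]
    
    have T4 : ex * (|L| * (|g m - g₀ * pw (7/3) m| + |g₀ * pw (7/3) m| * |U m t|)) ≤
        |μ| * (1 / (δ / 2)) * (C1 + |g₀| * CU * CX) * (t ^ a * pw (7/3 + δ/2) m) := by
      have hp1 : pw (-(δ/2)) m * pw (7/3 + δ) m = pw (7/3 + δ/2) m := by
        rw [← hx_pw_add']; congr 1; ring
      have hp2 : pw (7/3) m * pw δ m = pw (7/3 + δ) m := by rw [← hx_pw_add']
      have h1 : |L| ≤ |μ| * t ^ a * (1 / (δ / 2) * pw (-(δ/2)) m) := by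
        rw [hLabs]; exact mul_le_mul_of_nonneg_left hlogd (by positivity)
      have h2 : ex * (|g m - g₀ * pw (7/3) m| + |g₀ * pw (7/3) m| * |U m t|) ≤
          (C1 + |g₀| * CU * CX) * pw (7/3 + δ) m := by
        have h3 : ex * |g m - g₀ * pw (7/3) m| ≤ C1 * pw (7/3 + δ) m := by
          calc ex * |g m - g₀ * pw (7/3) m| ≤ 1 * |g m - g₀ * pw (7/3) m| :=
                mul_le_mul_of_nonneg_right hex1 (abs_nonneg _)
            _ ≤ _ := (one_mul _).le.trans hgP
        have h4 : ex * (|g₀ * pw (7/3) m| * |U m t|) ≤ |g₀| * CU * CX * pw (7/3 + δ) m := by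
          rw [hP]
          calc ex * (|g₀| * pw (7/3) m * |U m t|) ≤ ex * (|g₀| * pw (7/3) m * (CU * x * pw δ m)) := by
                refine mul_le_mul_of_nonneg_left (mul_le_mul_of_nonneg_left hUx ?_) hex0.le
                exact mul_nonneg (abs_nonneg _) (hx_pw_pos' _ _).le
            _ = |g₀| * CU * (x * ex) * (pw (7/3) m * pw δ m) := by ring
            _ ≤ |g₀| * CU * CX * (pw (7/3) m * pw δ m) := by
                refine mul_le_mul_of_nonneg_right (mul_le_mul_of_nonneg_left hxX (by positivity)) ?_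
                exact mul_nonneg (hx_pw_pos' _ _).le (hx_pw_pos' _ _).le
            _ = _ := by rw [hp2]
        rw [mul_add, add_mul]
        exact add_le_add h3 h4
      calc ex * (|L| * (|g m - g₀ * pw (7/3) m| + |g₀ * pw (7/3) m| * |U m t|))
          = |L| * (ex * (|g m - g₀ * pw (7/3) m| + |g₀ * pw (7/3) m| * |U m t|)) := by ring
        _ ≤ (|μ| * t ^ a * (1 / (δ / 2) * pw (-(δ/2)) m)) * ((C1 + |g₀| * CU * CX) * pw (7/3 + δ) m) := by
            refine mul_le_mul h1 h2 (by positivity) ?_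
            have := (hx_pw_pos' (-(δ/2)) m).le
            positivity
        _ = |μ| * (1 / (δ / 2)) * (C1 + |g₀| * CU * CX) * (t ^ a *
            (pw (-(δ/2)) m * pw (7/3 + δ) m)) := by ring
        _ = _ := by rw [hp1]
    have hsum : ex * (|g m| * |U m t| ^ N + |g m| * ((|L| + |V m t|) ^ 2 + |V m t|) +
        |L| * (|g m - g₀ * pw (7/3) m| + |g₀ * pw (7/3) m| * |U m t|)) =
        ex * (|g m| * |U m t| ^ N) + ex * (|g m| * ((|L| + |V m t|) ^ 2)) + ex * (|g m| * |V m t|) +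
        ex * (|L| * (|g m - g₀ * pw (7/3) m| + |g₀ * pw (7/3) m| * |U m t|)) := by ring
    rw [hsum]
    have hfin : ∀ A B C D W X Y Z E : ℝ, 0 ≤ A → 0 ≤ B → 0 ≤ C → 0 ≤ D → 0 ≤ E → 0 ≤ W → 0 ≤ X →
        0 ≤ Y → 0 ≤ Z → A * W + B * X + C * Y + D * Z ≤ (E + A + B + C + D) * (W + X + Y + Z) := by
      intro A B C D W X Y Z E hA hB hC hD hE hW hX hY hZ
      have a1 : A * W ≤ (E + A + B + C + D) * W := mul_le_mul_of_nonneg_right (by linarith) hW
      have a2 : B * X ≤ (E + A + B + C + D) * X := mul_le_mul_of_nonneg_right (by linarith) hX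
      have a3 : C * Y ≤ (E + A + B + C + D) * Y := mul_le_mul_of_nonneg_right (by linarith) hY
      have a4 : D * Z ≤ (E + A + B + C + D) * Z := mul_le_mul_of_nonneg_right (by linarith) hZ
      rw [mul_add, mul_add, mul_add]
      linarith
    refine (add_le_add (add_le_add (add_le_add T1 T2) T3) T4).trans ?_
    have p1 := (hx_pw_pos' (16/3) m).le
    have p2 := (hx_pw_pos' (7/3 - δ/2) m).le
    have p3 := (hx_pw_pos' (7/3 + δ/2) m).le
    exact hfin _ _ _ _ _ _ _ _ _ (by positivity) (by positivity) (by positivity) (by positivity)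
      hCg0 p1 (by positivity) (by positivity) (by positivity)
theorem hexp (c δ μ g₀ : ℝ) (hc : 0 < c) (hδ : 0 < δ) (hδ' : δ ≤ 1 / 4) (a : ℕ)
    (ha : a = 1 ∨ a = 3) (g : ℕ → ℝ) (hg : (g - g₀ • pw (7/3)) ∈ PW (7/3 + δ))
    (Φ U V : ℕ → ℝ → ℝ) (hU : U ∈ UU δ)
    (hΦ : ∀ m t, Φ m t = c * (t * pw (-(2/3)) m) + U m t + μ * t ^ a * Real.log m + V m t)
    (hU2 : ∃ C : ℝ, ∀ (n : ℕ) (t : ℝ), 1 ≤ n → 0 < t → t ≤ 1 → |U n t| ≤ C * t * pw (-(2/3) + δ) n)
    (hV : ∃ C : ℝ, ∀ (n : ℕ) (t : ℝ), 1 ≤ n → 0 < t → t ≤ 1 → |V n t| ≤ C * t ^ (a + 2) * Real.log n) :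
    ∃ Υ ∈ UU (7/3 + δ), ∃ C : ℝ, ∀ᶠ K : ℕ in atTop, ∀ t : ℝ, 0 < t → t * pw (-(2/3)) K ≤ 1 →
      |t * ∑' m : ℕ, g (K + 1 + m) * Real.exp (-Φ (K + 1 + m) t)| ≤ C * (t * pw (4/3) K) ∧
      |t * (∑' m : ℕ, g (K + 1 + m) * Real.exp (-Φ (K + 1 + m) t))
        - t * (∑' m : ℕ, Real.exp (-(c * (t * pw (-(2/3)) (K + 1 + m)))) *
            (g₀ * pw (7/3) (K + 1 + m) + Υ (K + 1 + m) t
              - μ * g₀ * t ^ a * (pw (7/3) (K + 1 + m) * Real.log (K + 1 + m))))| ≤
        C * (t * pw (4/3 + 2 * a / 3 + δ / 2) K) := by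
  have ha1 : 1 ≤ a := by rcases ha with h | h <;> omega
  have ha3 : (a : ℝ) ≤ 3 := by
    have : a ≤ 3 := by rcases ha with h | h <;> omega
    exact_mod_cast this
  have ha1' : (1 : ℝ) ≤ a := by exact_mod_cast ha1
  set n := Nat.ceil (3 / δ) with hn
  have hnδ : 3 ≤ ((n + 1 : ℕ) : ℝ) * δ := by
    have h1 : 3 / δ ≤ n := Nat.le_ceil _
    rw [div_le_iff₀ hδ] at h1
    push_cast
    linarith
  obtain ⟨D, hD, K₀, hK₀, hpt⟩ := hx_ptw c δ μ g₀ hc hδ a ha1 g hg Φ U V hΦ hU2 hV (n + 1) hnδ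
  set E : ℕ → ℝ → ℝ := fun m t => ∑ i ∈ Finset.range (n + 1), (-U m t) ^ i / (i.factorial : ℝ) with hE
  refine ⟨fun m t => g m * E m t - g₀ * pw (7/3) m, ?_, ?_⟩
  · 
    have hE1 : (fun m t => E m t - 1) ∈ UU δ := UU.trunc hδ hU n
    have hE0 : E ∈ UU 0 := by
      have : E = (fun m t => E m t - 1) + (fun (_ : ℕ) (_ : ℝ) => (1:ℝ)) := by
        funext m t; simp
      rw [this]
      exact (UU 0).add_mem (UU.mono hδ.le hE1) UU.one_mem
    have hp : (fun m (_ : ℝ) => pw (7/3) m) ∈ UU (7/3) :=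
      UU.of_PW (Submodule.subset_span ⟨7/3, le_rfl, rfl⟩)
    have h1 : (g₀ • (fun m (_ : ℝ) => pw (7/3) m)) * (fun m t => E m t - 1) ∈ UU (7/3 + δ) :=
      UU.mul ((UU (7/3)).smul_mem _ hp) hE1
    have h2 : (fun m (_ : ℝ) => (g - g₀ • pw (7/3)) m) * E ∈ UU (7/3 + δ) := by
      have := UU.mul (UU.of_PW hg) hE0
      rwa [add_zero] at this
    have : (fun m t => g m * E m t - g₀ * pw (7/3) m) =
        (g₀ • (fun m (_ : ℝ) => pw (7/3) m)) * (fun m t => E m t - 1) +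
        (fun m (_ : ℝ) => (g - g₀ • pw (7/3)) m) * E := by
      funext m t
      simp only [Pi.add_apply, Pi.mul_apply, Pi.smul_apply, Pi.sub_apply, smul_eq_mul]
      ring
    rw [this]
    exact (UU _).add_mem h1 h2
  · refine ⟨D * (1 / (16/3 - 1)) + 2 * (D * (1 / (7/3 - δ/2 - 1))) + D * (1 / (7/3 + δ/2 - 1)) +
      D * (1 / (7/3 - 1)), ?_⟩
    refine Filter.eventually_atTop.2 ⟨K₀, fun K hK t ht htK => ?_⟩
    have hK1 : 1 ≤ K := hK₀.trans hK
    have htK' : t ≤ pw (2/3) K := by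
      have h1 : pw (-(2/3)) K * pw (2/3) K = 1 := by
        rw [← hx_pw_add', neg_add_cancel, hx_pw_zero']
      calc t = t * pw (-(2/3)) K * pw (2/3) K := by rw [mul_assoc, h1, mul_one]
        _ ≤ 1 * pw (2/3) K := mul_le_mul_of_nonneg_right htK (hx_pw_pos' _ _).le
        _ = _ := one_mul _
    have htp : ∀ k : ℕ, t ^ k ≤ pw (k * (2/3)) K := by
      intro k
      rw [← hx_pw_pow']
      exact pow_le_pow_left₀ ht.le htK' k
    obtain ⟨s1, b1⟩ := hx_pw_sum (s := 16/3) (by norm_num) hK1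
    obtain ⟨s2, b2⟩ := hx_pw_sum (s := 7/3 - δ/2) (by linarith) hK1
    obtain ⟨s4, b4⟩ := hx_pw_sum (s := 7/3 + δ/2) (by linarith) hK1
    obtain ⟨s0, b0⟩ := hx_pw_sum (s := 7/3) (by norm_num) hK1
    have hA : Summable (fun j : ℕ => g (K + 1 + j) * Real.exp (-Φ (K + 1 + j) t)) :=
      Summable.of_norm_bounded (s0.mul_left D) fun j => (hpt K hK (K + 1 + j) (by omega) t ht htK).1
    have q1 : 0 ≤ D * (1 / (16/3 - 1)) := by positivity
    have q2 : 0 ≤ D * (1 / (7/3 - δ/2 - 1)) :=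
      mul_nonneg hD (div_nonneg zero_le_one (by linarith))
    have q4 : 0 ≤ D * (1 / (7/3 + δ/2 - 1)) :=
      mul_nonneg hD (div_nonneg zero_le_one (by linarith))
    have q0 : 0 ≤ D * (1 / (7/3 - 1)) := by positivity
    constructor
    · have h1 : |∑' m : ℕ, g (K + 1 + m) * Real.exp (-Φ (K + 1 + m) t)| ≤
          D * ∑' j : ℕ, pw (7/3) (K + 1 + j) := by
        have h2 := norm_tsum_le_tsum_norm hA.norm
        have h3 := hA.norm.tsum_le_tsum
          (fun j => (hpt K hK (K + 1 + j) (by omega) t ht htK).1) (s0.mul_left D)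
        rw [tsum_mul_left] at h3
        exact h2.trans h3
      rw [abs_mul, abs_of_pos ht]
      have h4 : D * ∑' j : ℕ, pw (7/3) (K + 1 + j) ≤ D * (1 / (7/3 - 1) * pw (7/3 - 1) K) :=
        mul_le_mul_of_nonneg_left b0 hD
      have e : (7/3 : ℝ) - 1 = 4/3 := by norm_num
      calc t * |∑' m : ℕ, g (K + 1 + m) * Real.exp (-Φ (K + 1 + m) t)|
          ≤ t * (D * (1 / (7/3 - 1) * pw (7/3 - 1) K)) :=
            mul_le_mul_of_nonneg_left (h1.trans h4) ht.le
        _ = (D * (1 / (7/3 - 1))) * (t * pw (4/3) K) := by rw [← e]; ring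
        _ ≤ _ := by
            refine mul_le_mul_of_nonneg_right ?_ (mul_nonneg ht.le (hx_pw_pos' _ _).le)
            linarith
    · rw [← mul_sub, abs_mul, abs_of_pos ht]
      have hsumE : HasSum (fun j : ℕ => D * (pw (16/3) (K + 1 + j) +
          t ^ (2 * a) * pw (7/3 - δ/2) (K + 1 + j) + t ^ (a + 2) * pw (7/3 - δ/2) (K + 1 + j) +
          t ^ a * pw (7/3 + δ/2) (K + 1 + j)))
          (D * (∑' j : ℕ, pw (16/3) (K + 1 + j) + t ^ (2 * a) * ∑' j : ℕ, pw (7/3 - δ/2) (K + 1 + j)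
            + t ^ (a + 2) * ∑' j : ℕ, pw (7/3 - δ/2) (K + 1 + j) +
            t ^ a * ∑' j : ℕ, pw (7/3 + δ/2) (K + 1 + j))) :=
        (((s1.hasSum.add (s2.hasSum.mul_left _)).add (s2.hasSum.mul_left _)).add
          (s4.hasSum.mul_left _)).mul_left D
      have hdiff := hx_tsum_diff_le (a := fun j : ℕ => g (K + 1 + j) * Real.exp (-Φ (K + 1 + j) t))
        (b := fun j : ℕ => Real.exp (-(c * (t * pw (-(2/3)) (K + 1 + j)))) *
            (g₀ * pw (7/3) (K + 1 + j) + (g (K + 1 + j) * E (K + 1 + j) t - g₀ * pw (7/3) (K + 1 + j))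
              - μ * g₀ * t ^ a * (pw (7/3) (K + 1 + j) * Real.log (K + 1 + j))))
        hA hsumE.summable (by
          intro j
          have h := (hpt K hK (K + 1 + j) (by omega) t ht htK).2
          have e : g (K + 1 + j) * (∑ i ∈ Finset.range (n + 1), (-U (K + 1 + j) t) ^ i /
              (i.factorial : ℝ)) - g₀ * pw (7/3) (K + 1 + j) *
              (μ * t ^ a * Real.log ((K + 1 + j : ℕ) : ℝ)) =
              g₀ * pw (7/3) (K + 1 + j) + (g (K + 1 + j) * E (K + 1 + j) t -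
              g₀ * pw (7/3) (K + 1 + j)) - μ * g₀ * t ^ a * (pw (7/3) (K + 1 + j) *
              Real.log (K + 1 + j)) := by
            push_cast
            ring
          rw [e] at h
          exact h)
      rw [hsumE.tsum_eq] at hdiff
      have hKpos : ∀ e, 0 < pw e K := fun e => hx_pw_pos' e K
      set W := pw (4/3 + 2 * a / 3 + δ / 2) K with hW
      have hW0 : 0 < W := hx_pw_pos' _ _
      have w1 : ∑' j : ℕ, pw (16/3) (K + 1 + j) ≤ 1 / (16/3 - 1) * W := by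
        refine b1.trans (mul_le_mul_of_nonneg_left (hx_pw_anti_exp ?_ K) (by norm_num))
        have : 2 * (a:ℝ) / 3 ≤ 2 := by linarith
        linarith
      have w2 : t ^ (2 * a) * ∑' j : ℕ, pw (7/3 - δ/2) (K + 1 + j) ≤ 1 / (7/3 - δ/2 - 1) * W := by
        have hq : (0:ℝ) ≤ 1 / (7/3 - δ/2 - 1) := div_nonneg zero_le_one (by linarith)
        calc t ^ (2 * a) * ∑' j : ℕ, pw (7/3 - δ/2) (K + 1 + j)
            ≤ pw (((2 * a : ℕ) : ℝ) * (2/3)) K * (1 / (7/3 - δ/2 - 1) * pw (7/3 - δ/2 - 1) K) :=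
              mul_le_mul (htp _) b2 (tsum_nonneg fun j => (hx_pw_pos' _ _).le) (hKpos _).le
          _ = 1 / (7/3 - δ/2 - 1) * (pw (((2 * a : ℕ) : ℝ) * (2/3)) K * pw (7/3 - δ/2 - 1) K) := by ring
          _ ≤ _ := by
              refine mul_le_mul_of_nonneg_left ?_ hq
              rw [← hx_pw_add']
              apply hx_pw_anti_exp
              push_cast
              linarith
      have w3 : t ^ (a + 2) * ∑' j : ℕ, pw (7/3 - δ/2) (K + 1 + j) ≤ 1 / (7/3 - δ/2 - 1) * W := by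
        have hq : (0:ℝ) ≤ 1 / (7/3 - δ/2 - 1) := div_nonneg zero_le_one (by linarith)
        calc t ^ (a + 2) * ∑' j : ℕ, pw (7/3 - δ/2) (K + 1 + j)
            ≤ pw (((a + 2 : ℕ) : ℝ) * (2/3)) K * (1 / (7/3 - δ/2 - 1) * pw (7/3 - δ/2 - 1) K) :=
              mul_le_mul (htp _) b2 (tsum_nonneg fun j => (hx_pw_pos' _ _).le) (hKpos _).le
          _ = 1 / (7/3 - δ/2 - 1) * (pw (((a + 2 : ℕ) : ℝ) * (2/3)) K * pw (7/3 - δ/2 - 1) K) := by ring
          _ ≤ _ := by
              refine mul_le_mul_of_nonneg_left ?_ hq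
              rw [← hx_pw_add']
              apply hx_pw_anti_exp
              push_cast
              linarith
      have w4 : t ^ a * ∑' j : ℕ, pw (7/3 + δ/2) (K + 1 + j) ≤ 1 / (7/3 + δ/2 - 1) * W := by
        have hq : (0:ℝ) ≤ 1 / (7/3 + δ/2 - 1) := div_nonneg zero_le_one (by linarith)
        calc t ^ a * ∑' j : ℕ, pw (7/3 + δ/2) (K + 1 + j)
            ≤ pw ((a : ℝ) * (2/3)) K * (1 / (7/3 + δ/2 - 1) * pw (7/3 + δ/2 - 1) K) :=
              mul_le_mul (htp _) b4 (tsum_nonneg fun j => (hx_pw_pos' _ _).le) (hKpos _).le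
          _ = 1 / (7/3 + δ/2 - 1) * (pw ((a : ℝ) * (2/3)) K * pw (7/3 + δ/2 - 1) K) := by ring
          _ ≤ _ := by
              refine mul_le_mul_of_nonneg_left ?_ hq
              rw [← hx_pw_add']
              apply hx_pw_anti_exp
              linarith
      have hfin := mul_le_mul_of_nonneg_left (add_le_add (add_le_add (add_le_add w1 w2) w3) w4) hD
      calc t * _ ≤ t * (D * (1 / (16/3 - 1) * W + 1 / (7/3 - δ/2 - 1) * W +
            1 / (7/3 - δ/2 - 1) * W + 1 / (7/3 + δ/2 - 1) * W)) :=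
            mul_le_mul_of_nonneg_left (hdiff.trans hfin) ht.le
        _ = (D * (1 / (16/3 - 1)) + 2 * (D * (1 / (7/3 - δ/2 - 1))) +
            D * (1 / (7/3 + δ/2 - 1))) * (t * W) := by ring
        _ ≤ _ := by
            refine mul_le_mul_of_nonneg_right ?_ (mul_nonneg ht.le hW0.le)
            linarith

end Pool.Agent.Helper615.LogA
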