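import Mathlib
import Pool.Agent.Helper615.LogA.Defs
import Pool.Agent.Helper615.LogA.G1
import Pool.Agent.Helper615.LogA.H3
import Pool.Agent.Helper615.LogA.H4
import Pool.Agent.Helper615.LogA.Ex
import Pool.Agent.Helper615.LogA.Hx
set_option autoImplicit false

namespace Pool.Agent.Helper615.LogA

open Filter Asymptotics
theorem gd_gd_pw_eq {n : ℕ} (hn : 1 ≤ n) (e : ℝ) : pw e n = (n : ℝ) ^ (-e) := by
  unfold pw
  rw [Real.rpow_def_of_pos (by exact_mod_cast hn)]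
  congr 1
  ring
theorem gd_gd_pw_summable {e : ℝ} (he : 1 < e) (K : ℕ) : Summable (fun m : ℕ => pw e (K + 1 + m)) := by
  have h1 : Summable (fun n : ℕ => (n : ℝ) ^ (-e)) := Real.summable_nat_rpow.2 (by linarith)
  have h2 := (summable_nat_add_iff (K + 1)).2 h1
  refine h2.congr (fun m => ?_)
  rw [gd_gd_pw_eq (by omega), add_comm m (K + 1)]
theorem gd_gd_pw_pos (e : ℝ) (n : ℕ) : 0 < pw e n := Real.exp_pos _
theorem gd_gd_S0 (c : ℝ) (hc : 0 < c) (K : ℕ) (t : ℝ) (ht : 0 < t) :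
    Summable (fun m : ℕ => Real.exp (-(c * (t * pw (-(2/3)) (K + 1 + m)))) *
      pw (7/3) (K + 1 + m)) := by
  refine Summable.of_nonneg_of_le (fun m => ?_) (fun m => ?_)
    (gd_gd_pw_summable (e := 7/3) (by norm_num) K)
  · exact mul_nonneg (Real.exp_pos _).le (gd_gd_pw_pos _ _).le
  · have h1 : Real.exp (-(c * (t * pw (-(2/3)) (K + 1 + m)))) ≤ 1 := by
      rw [Real.exp_le_one_iff]
      have := gd_gd_pw_pos (-(2/3)) (K + 1 + m)
      have : 0 < c * (t * pw (-(2/3)) (K + 1 + m)) := by positivity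
      linarith
    exact mul_le_of_le_one_left (gd_gd_pw_pos _ _).le h1
theorem gd_gd_SL (c : ℝ) (hc : 0 < c) (K : ℕ) (t : ℝ) (ht : 0 < t) :
    Summable (fun m : ℕ => Real.exp (-(c * (t * pw (-(2/3)) (K + 1 + m)))) *
      (pw (7/3) (K + 1 + m) * Real.log (K + 1 + m))) := by
  have hcast : ∀ m : ℕ, ((K + 1 + m : ℕ) : ℝ) = (K : ℝ) + 1 + m := by
    intro m; push_cast; ring
  have hge : ∀ m : ℕ, (1 : ℝ) ≤ (K : ℝ) + 1 + m := by
    intro m
    have h1 : (0 : ℝ) ≤ K := Nat.cast_nonneg K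
    have h2 : (0 : ℝ) ≤ m := Nat.cast_nonneg m
    linarith
  refine Summable.of_nonneg_of_le (fun m => ?_) (fun m => ?_)
    (gd_gd_pw_summable (e := 4/3) (by norm_num) K)
  · exact mul_nonneg (Real.exp_pos _).le (mul_nonneg (gd_gd_pw_pos _ _).le (Real.log_nonneg (hge m)))
  · have h1 : Real.exp (-(c * (t * pw (-(2/3)) (K + 1 + m)))) ≤ 1 := by
      rw [Real.exp_le_one_iff]
      have := gd_gd_pw_pos (-(2/3)) (K + 1 + m)
      have : 0 < c * (t * pw (-(2/3)) (K + 1 + m)) := by positivity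
      linarith
    have h2 : pw (7/3) (K + 1 + m) * Real.log (K + 1 + m) ≤ pw (4/3) (K + 1 + m) := by
      have hp : (0 : ℝ) < (K : ℝ) + 1 + m := by linarith [hge m]
      have h3 : Real.log (K + 1 + m) ≤ (K : ℝ) + 1 + m := by
        have := Real.log_le_sub_one_of_pos hp
        linarith
      have h4 : pw (7/3) (K + 1 + m) * ((K : ℝ) + 1 + m) = pw (4/3) (K + 1 + m) := by
        rw [gd_gd_pw_eq (by omega), gd_gd_pw_eq (by omega), hcast]
        conv_lhs => rw [← Real.rpow_one ((K : ℝ) + 1 + m)]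
        rw [Real.rpow_one, ← Real.rpow_add_one hp.ne']
        norm_num
      rw [← h4]
      exact mul_le_mul_of_nonneg_left h3 (gd_gd_pw_pos _ _).le
    refine (mul_le_of_le_one_left ?_ h1).trans h2
    exact mul_nonneg (gd_gd_pw_pos _ _).le (Real.log_nonneg (hge m))
theorem gd_gd_An_const {F : ℕ → ℝ → ℝ} (hF : An F) (c : ℝ) : An (fun K t => c * F K t) := by
  have h1 : An (fun (_ : ℕ) (t : ℝ) => c * t ^ 0) := by
    refine An.monomial (fun _ => c) 0 ⟨|c|, Filter.Eventually.of_forall fun K => ?_⟩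
    simp
  have h2 := An.mul h1 hF
  simpa using h2
theorem G_decomp (c δ μ g₀ : ℝ) (hc : 0 < c) (hδ : 0 < δ) (hδ' : δ ≤ 1 / 4) (a : ℕ)
    (ha : a = 1 ∨ a = 3) (g : ℕ → ℝ) (hg : (g - g₀ • pw (7/3)) ∈ PW (7/3 + δ))
    (Φ U V : ℕ → ℝ → ℝ) (hU : U ∈ UU δ)
    (hΦ : ∀ m t, Φ m t = c * (t * pw (-(2/3)) m) + U m t + μ * t ^ a * Real.log m + V m t)
    (hU2 : ∃ C : ℝ, ∀ (n : ℕ) (t : ℝ), 1 ≤ n → 0 < t → t ≤ 1 → |U n t| ≤ C * t * pw (-(2/3) + δ) n)
    (hV : ∃ C : ℝ, ∀ (n : ℕ) (t : ℝ), 1 ≤ n → 0 < t → t ≤ 1 → |V n t| ≤ C * t ^ (a + 2) * Real.log n) :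
    ∃ (s : Finset ℝ) (κ lam : ℝ → ℝ) (k3 l' k' : ℝ) (AG : ℕ → ℝ → ℝ) (C : ℝ), An AG ∧
      (∀ β ∈ s, 3 + 3 / 2 * δ ≤ β) ∧
      ∀ᶠ K : ℕ in atTop, ∀ t : ℝ, 0 < t → t * pw (-(2/3)) K ≤ 1 →
        |t * ∑' m : ℕ, g (K + 1 + m) * Real.exp (-Φ (K + 1 + m) t)| ≤ C * (t * pw (4/3) K) ∧
        |t * (∑' m : ℕ, g (K + 1 + m) * Real.exp (-Φ (K + 1 + m) t))
          - (k3 * t ^ 3 + -(3 / 4 * c ^ 2 * g₀) * (t ^ 3 * Real.log t)
            + (∑ β ∈ s, (κ β * t ^ β + lam β * (t ^ β * Real.log t)))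
            + -(μ * g₀) * (9 / 16 * c ^ 2 * (t ^ (a + 3) * Real.log t ^ 2)
                + l' * (t ^ (a + 3) * Real.log t) + k' * t ^ (a + 3))
            + AG K t)| ≤ C * (t * pw (4/3 + 2 * a / 3 + δ / 2) K) := by
  obtain ⟨Υ, hΥ, C1, h1⟩ := hexp c δ μ g₀ hc hδ hδ' a ha g hg Φ U V hU hΦ hU2 hV
  obtain ⟨κ0, lam0, A0, C2, hA0, hlam0, h2⟩ := xi_expansion c hc 0 (7/3) le_rfl
  obtain ⟨κL, lamL, AL, C3, hAL, h3⟩ := xi_log_expansion c hc a (by omega)
  obtain ⟨s, κ, lam, AU, C4, hAU, hs, hsum, h4⟩ := exo_expansion c δ hc hδ Υ hΥ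
  have hlam := hlam0 rfl rfl
  refine ⟨s, κ, lam, g₀ * κ0, lamL, κL,
    fun K t => g₀ * A0 K t + AU K t + (-(μ * g₀)) * AL K t,
    |C1| + |g₀| * |C2| + |C4| + |μ * g₀| * |C3|, ?_, hs, ?_⟩
  · exact ((gd_gd_An_const hA0 g₀).add hAU).add (gd_gd_An_const hAL (-(μ * g₀)))
  · filter_upwards [h1, h2, h3, h4] with K k1 k2 k3 k4
    intro t ht htK
    obtain ⟨b1, b1'⟩ := k1 t ht htK
    have b2 := k2 t ht htK
    have b3 := k3 t ht htK
    have b4 := k4 t ht htK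
    have hlogK : 0 ≤ Real.log (K : ℝ) := Real.log_natCast_nonneg K
    have hpw : t * pw (13/3) K ≤ t * pw (4/3 + 2 * a / 3 + δ / 2) K := by
      refine mul_le_mul_of_nonneg_left ?_ ht.le
      unfold pw
      rw [Real.exp_le_exp, neg_le_neg_iff]
      refine mul_le_mul_of_nonneg_right ?_ hlogK
      rcases ha with h | h
      · rw [h]; push_cast; linarith
      · rw [h]; push_cast; linarith
    have hE1 : 0 < t * pw (4/3) K := mul_pos ht (gd_gd_pw_pos _ _)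
    have hE2 : 0 < t * pw (4/3 + 2 * a / 3 + δ / 2) K := mul_pos ht (gd_gd_pw_pos _ _)
    have hE3 : 0 < t * pw (13/3) K := mul_pos ht (gd_gd_pw_pos _ _)
    refine ⟨?_, ?_⟩
    · refine b1.trans (mul_le_mul_of_nonneg_right ?_ hE1.le)
      have := le_abs_self C1
      have e1 : 0 ≤ |g₀| * |C2| := by positivity
      have e2 : 0 ≤ |μ * g₀| * |C3| := by positivity
      have e3 : 0 ≤ |C4| := abs_nonneg _
      linarith
    · 
      have hS0 := gd_gd_S0 c hc K t ht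
      have hSL := gd_gd_SL c hc K t ht
      have hSU := hsum K t ht
      have hsplit : (∑' m : ℕ, Real.exp (-(c * (t * pw (-(2/3)) (K + 1 + m)))) *
            (g₀ * pw (7/3) (K + 1 + m) + Υ (K + 1 + m) t
              - μ * g₀ * t ^ a * (pw (7/3) (K + 1 + m) * Real.log (K + 1 + m)))) =
          g₀ * (∑' m : ℕ, Real.exp (-(c * (t * pw (-(2/3)) (K + 1 + m)))) *
            pw (7/3) (K + 1 + m)) +
          (∑' m : ℕ, Real.exp (-(c * (t * pw (-(2/3)) (K + 1 + m)))) * Υ (K + 1 + m) t) -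
          μ * g₀ * t ^ a * (∑' m : ℕ, Real.exp (-(c * (t * pw (-(2/3)) (K + 1 + m)))) *
            (pw (7/3) (K + 1 + m) * Real.log (K + 1 + m))) := by
        rw [← tsum_mul_left, ← tsum_mul_left, ← (hS0.mul_left g₀).tsum_add hSU,
          ← ((hS0.mul_left g₀).add hSU).tsum_sub (hSL.mul_left _)]
        refine tsum_congr (fun m => ?_)
        ring
      have hx0 : (∑' m : ℕ, Real.exp (-(c * (t * pw (-(2/3)) (K + 1 + m)))) *
            (t * pw (-(2/3)) (K + 1 + m)) ^ 0 * pw (7/3) (K + 1 + m)) =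
          ∑' m : ℕ, Real.exp (-(c * (t * pw (-(2/3)) (K + 1 + m)))) *
            pw (7/3) (K + 1 + m) := by
        refine tsum_congr (fun m => ?_)
        rw [pow_zero, mul_one]
      have hxL : (∑' m : ℕ, Real.exp (-(c * (t * pw (-(2/3)) (K + 1 + m)))) *
            pw (7/3) (K + 1 + m) * Real.log (K + 1 + m)) =
          ∑' m : ℕ, Real.exp (-(c * (t * pw (-(2/3)) (K + 1 + m)))) *
            (pw (7/3) (K + 1 + m) * Real.log (K + 1 + m)) := by
        refine tsum_congr (fun m => ?_)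
        rw [mul_assoc]
      have ht3 : t ^ ((1 : ℝ) + 3 / 2 * (7 / 3 - 1)) = t ^ 3 := by
        rw [show (1 : ℝ) + 3 / 2 * (7 / 3 - 1) = ((3 : ℕ) : ℝ) by norm_num, Real.rpow_natCast]
      rw [hx0, ht3, hlam] at b2
      rw [hxL] at b3
      rw [hsplit] at b1'
      set X0 := ∑' m : ℕ, Real.exp (-(c * (t * pw (-(2/3)) (K + 1 + m)))) *
            pw (7/3) (K + 1 + m) with hX0
      set XL := ∑' m : ℕ, Real.exp (-(c * (t * pw (-(2/3)) (K + 1 + m)))) *
            (pw (7/3) (K + 1 + m) * Real.log (K + 1 + m)) with hXL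
      set XU := ∑' m : ℕ, Real.exp (-(c * (t * pw (-(2/3)) (K + 1 + m)))) * Υ (K + 1 + m) t with hXU
      set SG := ∑' m : ℕ, g (K + 1 + m) * Real.exp (-Φ (K + 1 + m) t) with hSG
      set Sg := ∑ β ∈ s, (κ β * t ^ β + lam β * (t ^ β * Real.log t)) with hSg
      have hid : t * SG - (g₀ * κ0 * t ^ 3 + -(3 / 4 * c ^ 2 * g₀) * (t ^ 3 * Real.log t) + Sg
            + -(μ * g₀) * (9 / 16 * c ^ 2 * (t ^ (a + 3) * Real.log t ^ 2)
                + lamL * (t ^ (a + 3) * Real.log t) + κL * t ^ (a + 3))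
            + (g₀ * A0 K t + AU K t + (-(μ * g₀)) * AL K t)) =
          (t * SG - t * (g₀ * X0 + XU - μ * g₀ * t ^ a * XL)) +
          g₀ * (t * X0 - (κ0 * t ^ 3 + -(3 / 4 * c ^ 2) * (t ^ 3 * Real.log t)) - A0 K t) +
          (t * XU - Sg - AU K t) +
          (-(μ * g₀)) * (t * (t ^ a * XL) - (9 / 16 * c ^ 2 * (t ^ (a + 3) * Real.log t ^ 2)
              + lamL * (t ^ (a + 3) * Real.log t) + κL * t ^ (a + 3)) - AL K t) := by
        ring
      rw [hid]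
      have n1 : |g₀ * (t * X0 - (κ0 * t ^ 3 + -(3 / 4 * c ^ 2) * (t ^ 3 * Real.log t)) - A0 K t)| ≤
          |g₀| * |C2| * (t * pw (4/3 + 2 * a / 3 + δ / 2) K) := by
        rw [abs_mul, mul_assoc]
        refine mul_le_mul_of_nonneg_left (b2.trans ?_) (abs_nonneg _)
        exact (mul_le_mul_of_nonneg_right (le_abs_self C2) hE3.le).trans
          (mul_le_mul_of_nonneg_left hpw (abs_nonneg _))
      have n2 : |t * XU - Sg - AU K t| ≤ |C4| * (t * pw (4/3 + 2 * a / 3 + δ / 2) K) :=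
        b4.trans ((mul_le_mul_of_nonneg_right (le_abs_self C4) hE3.le).trans
          (mul_le_mul_of_nonneg_left hpw (abs_nonneg _)))
      have n3 : |(-(μ * g₀)) * (t * (t ^ a * XL) - (9 / 16 * c ^ 2 * (t ^ (a + 3) * Real.log t ^ 2)
              + lamL * (t ^ (a + 3) * Real.log t) + κL * t ^ (a + 3)) - AL K t)| ≤
          |μ * g₀| * |C3| * (t * pw (4/3 + 2 * a / 3 + δ / 2) K) := by
        rw [abs_mul, abs_neg, mul_assoc |μ * g₀| |C3|]
        refine mul_le_mul_of_nonneg_left (b3.trans ?_) (abs_nonneg _)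
        exact (mul_le_mul_of_nonneg_right (le_abs_self C3) hE3.le).trans
          (mul_le_mul_of_nonneg_left hpw (abs_nonneg _))
      have n4 : |t * SG - t * (g₀ * X0 + XU - μ * g₀ * t ^ a * XL)| ≤
          |C1| * (t * pw (4/3 + 2 * a / 3 + δ / 2) K) :=
        b1'.trans (mul_le_mul_of_nonneg_right (le_abs_self C1) hE2.le)
      refine (abs_add_le _ _).trans ?_
      refine (add_le_add ((abs_add_le _ _).trans (add_le_add ((abs_add_le _ _).trans
        (add_le_add n4 n1)) n2)) n3).trans (le_of_eq ?_)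
      ring

end Pool.Agent.Helper615.LogA
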