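import Mathlib
import Pool.Agent.Helper615.LogA.Defs
set_option autoImplicit false

namespace Pool.Agent.Helper615.LogA

open Filter Asymptotics
section F1
theorem f1_pw_pos' (e : ℝ) (n : ℕ) : 0 < pw e n := Real.exp_pos _
theorem f1_pw_add' (a b : ℝ) (n : ℕ) : pw (a + b) n = pw a n * pw b n := by
  unfold pw
  rw [← Real.exp_add]
  congr 1
  ring
theorem f1_pw_one' {n : ℕ} (hn : 1 ≤ n) : pw 1 n = (n : ℝ)⁻¹ := by
  unfold pw
  have : (0 : ℝ) < n := by exact_mod_cast hn
  rw [one_mul, Real.exp_neg, Real.exp_log this]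
theorem f1_pw_zero' (n : ℕ) : pw 0 n = 1 := by
  unfold pw; simp
theorem f1_pw_anti {e : ℝ} (he : 0 ≤ e) {m n : ℕ} (hm : 1 ≤ m) (hmn : m ≤ n) : pw e n ≤ pw e m := by
  unfold pw
  apply Real.exp_le_exp.2
  have h1 : Real.log m ≤ Real.log n :=
    Real.log_le_log (by exact_mod_cast hm) (by exact_mod_cast hmn)
  have := mul_le_mul_of_nonneg_left h1 he
  linarith
theorem f1_pw_exp_anti {a b : ℝ} (hab : a ≤ b) {n : ℕ} (hn : 1 ≤ n) : pw b n ≤ pw a n := by
  unfold pw
  apply Real.exp_le_exp.2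
  have h1 : 0 ≤ Real.log n := Real.log_nonneg (by exact_mod_cast hn)
  have := mul_le_mul_of_nonneg_right hab h1
  linarith
theorem f1_log_step {k : ℕ} (hk : 1 ≤ k) :
    ((k : ℝ) + 1)⁻¹ ≤ Real.log (k + 1) - Real.log k ∧
      Real.log (k + 1) - Real.log k ≤ (k : ℝ)⁻¹ := by
  have hk0 : (0 : ℝ) < k := by exact_mod_cast hk
  have hk1 : (0 : ℝ) < (k : ℝ) + 1 := by linarith
  constructor
  · have h1 := Real.log_le_sub_one_of_pos (show (0 : ℝ) < k / (k + 1) by positivity)
    rw [Real.log_div hk0.ne' hk1.ne'] at h1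
    have h2 : (k : ℝ) / (k + 1) - 1 = -((k : ℝ) + 1)⁻¹ := by
      field_simp
      ring
    rw [h2] at h1
    linarith
  · have h1 := Real.log_le_sub_one_of_pos (show (0 : ℝ) < (k + 1) / k by positivity)
    rw [Real.log_div hk1.ne' hk0.ne'] at h1
    have h2 : ((k : ℝ) + 1) / k - 1 = (k : ℝ)⁻¹ := by
      field_simp
      ring
    rw [h2] at h1
    linarith
theorem f1_tele {s : ℝ} (hs : 1 < s) {k : ℕ} (hk : 1 ≤ k) :
    (s - 1) * pw s (k + 1) ≤ pw (s - 1) k - pw (s - 1) (k + 1) := by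
  have hk1 : (0 : ℝ) < (k : ℝ) + 1 := by positivity
  have e1 : pw s (k + 1) = pw (s - 1) (k + 1) * ((k : ℝ) + 1)⁻¹ := by
    have := f1_pw_add' (s - 1) 1 (k + 1)
    rw [sub_add_cancel, f1_pw_one' (by omega)] at this
    rw [this]
    push_cast
    rfl
  have e2 : pw (s - 1) k = pw (s - 1) (k + 1) *
      Real.exp ((s - 1) * (Real.log (k + 1) - Real.log k)) := by
    unfold pw
    rw [← Real.exp_add]
    congr 1
    push_cast
    ring
  have e3 : 1 + (s - 1) * ((k : ℝ) + 1)⁻¹ ≤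
      Real.exp ((s - 1) * (Real.log (k + 1) - Real.log k)) := by
    have h1 := Real.add_one_le_exp ((s - 1) * (Real.log (k + 1) - Real.log k))
    have h2 := mul_le_mul_of_nonneg_left (f1_log_step hk).1 (sub_pos.2 hs).le
    linarith
  have h3 := mul_le_mul_of_nonneg_left e3 (f1_pw_pos' (s - 1) (k + 1)).le
  rw [← e2] at h3
  rw [e1]
  nlinarith
theorem f1_sum_le {s : ℝ} (hs : 1 < s) {k : ℕ} (hk : 1 ≤ k) (n : ℕ) :
    (s - 1) * ∑ j ∈ Finset.range n, pw s (k + 1 + j) ≤ pw (s - 1) k - pw (s - 1) (k + n) := by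
  induction n with
  | zero => simp
  | succ n ih =>
    rw [Finset.sum_range_succ, mul_add]
    have := f1_tele hs (k := k + n) (by omega)
    have e : k + 1 + n = k + n + 1 := by ring
    rw [e]
    have e' : k + (n + 1) = k + n + 1 := by ring
    rw [e']
    linarith
theorem f1_sum_le' {s : ℝ} (hs : 1 < s) {k : ℕ} (hk : 1 ≤ k) (n : ℕ) :
    ∑ j ∈ Finset.range n, pw s (k + 1 + j) ≤ (s - 1)⁻¹ * pw (s - 1) k := by
  have h := f1_sum_le hs hk n
  have h1 := f1_pw_pos' (s - 1) (k + n)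
  have h2 : 0 < s - 1 := sub_pos.2 hs
  rw [← mul_le_mul_iff_right₀ h2, ← mul_assoc, mul_inv_cancel₀ h2.ne', one_mul]
  linarith
end F1
theorem ansA (c₁ C₀ : ℝ) (hc : 0 < c₁) (hC : 0 < C₀) : ∃ (C₁ : ℝ) (K₀ : ℕ), 1 ≤ K₀ ∧
    ∀ (K : ℕ) (t η : ℝ) (X z g ρ A ζ E : ℕ → ℝ), K₀ ≤ K → 0 < t → t * pw (-(2/3)) K ≤ 1 →
    0 ≤ η → η ≤ t →
    (∀ k ≥ K, 1 + c₁ * t * pw (1/3) k ≤ X k ∧ X k ≤ 1 + C₀ * t * pw (1/3) k) →
    (∀ k ≥ K, |g k| ≤ C₀ * pw (7/3) k) →
    (∀ k ≥ K, |ρ k| ≤ η * pw (7/3) k) →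
    (∀ k ≥ K, 0 < z k ∧ z (k + 2) ≤ z k) →
    (∀ k ≥ K, z k - z (k + 2) = (X k - (X (k + 1))⁻¹ + ((-1 : ℝ) ^ (k + 1) * (t * g (k + 1))
      + ρ (k + 1))) * z (k + 1)) →
    (∀ k, A k = ∏ j ∈ Finset.Ico K k, (X j)⁻¹) →
    (∀ k, ζ k = z k / A k) →
    (∀ k, E k = (-1 : ℝ) ^ k * (ζ k - ζ (k + 1))) →
    (∀ k ≥ K, 0 < ζ k ∧ ζ k ≤ 2 * ζ K) ∧
    (∀ k ≥ K, |E k| ≤ C₁ * t * pw (4/3) k * ζ K) ∧
    (∀ k ≥ K, E k = (X k)⁻¹ * (X (k + 1))⁻¹ * E (k + 1)
      - (X k)⁻¹ * (t * g (k + 1) + (-1 : ℝ) ^ (k + 1) * ρ (k + 1)) * ζ (k + 1)) ∧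
    (X K)⁻¹ * E K = - ∑' m : ℕ, A (K + 1 + m) ^ 2 *
      (t * g (K + 1 + m) + (-1 : ℝ) ^ (K + 1 + m) * ρ (K + 1 + m)) * ζ (K + 1 + m) := by
  set D : ℝ := C₀ + 1 with hD
  have hDpos : 0 < D := by positivity
  refine ⟨4 * D, ⌈16 * D⌉₊ + 1, by omega, ?_⟩
  intro K t η X z g ρ A ζ E hK ht htK hη hηt hX hg hρ hz hrec hA hζ hE
  have hK1 : 1 ≤ K := by omega
  have hK16 : 16 * D ≤ K := by
    have h1 := Nat.le_ceil (16 * D)
    have h2 : ((⌈16 * D⌉₊ + 1 : ℕ) : ℝ) ≤ K := by exact_mod_cast hK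
    push_cast at h2
    linarith
  have hKpos : (0 : ℝ) < K := by exact_mod_cast hK1
  have hX1 : ∀ k ≥ K, 1 ≤ X k := by
    intro k hk
    have h1 := (hX k hk).1
    have h2 : 0 ≤ c₁ * t * pw (1/3) k := by
      have := f1_pw_pos' (1/3) k
      positivity
    linarith
  have hXpos : ∀ k ≥ K, 0 < X k := fun k hk => lt_of_lt_of_le one_pos (hX1 k hk)
  have hAK : A K = 1 := by rw [hA]; simp
  have hAs : ∀ k ≥ K, A (k + 1) = A k * (X k)⁻¹ := by
    intro k hk
    rw [hA, hA, Finset.prod_Ico_succ_top hk]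
  have hApos : ∀ k ≥ K, 0 < A k := by
    intro k hk
    rw [hA]
    apply Finset.prod_pos
    intro j hj
    exact inv_pos.2 (hXpos j (Finset.mem_Ico.1 hj).1)
  have hAanti : ∀ k ≥ K, A (k + 1) ≤ A k := by
    intro k hk
    rw [hAs k hk]
    exact mul_le_of_le_one_right (hApos k hk).le (inv_le_one_of_one_le₀ (hX1 k hk))
  have hAle : ∀ k ≥ K, ∀ m ≥ k, A m ≤ A k := by
    intro k hk m hm
    induction m, hm using Nat.le_induction with
    | base => exact le_rfl
    | succ m hm ih => exact (hAanti m (hk.le.trans hm)).trans ih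
  have hAX : ∀ k ≥ K, A k = A (k + 1) * X k := by
    intro k hk
    rw [hAs k hk, mul_assoc, inv_mul_cancel₀ (hXpos k hk).ne', mul_one]
  have hAinv : ∀ k ≥ K, 1 + c₁ * t * (Real.log k - Real.log K) ≤ (A k)⁻¹ := by
    intro k hk
    induction k, hk using Nat.le_induction with
    | base => rw [hAK]; simp
    | succ k hk ih =>
      have h1 : (A (k + 1))⁻¹ = X k * (A k)⁻¹ := by
        rw [hAs k hk, mul_inv, inv_inv, mul_comm]
      have h2 := (hX k hk).1
      have h3 : (k : ℝ)⁻¹ ≤ pw (1/3) k := by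
        rw [← f1_pw_one' (hK1.trans hk)]
        exact f1_pw_exp_anti (by norm_num) (hK1.trans hk)
      have h4 := (f1_log_step (hK1.trans hk)).2
      have h5 : 1 ≤ (A k)⁻¹ := by
        rw [one_le_inv₀ (hApos k hk)]
        have := hAle K le_rfl k hk
        rwa [hAK] at this
      have h6 : c₁ * t * (Real.log (k + 1) - Real.log k) ≤ c₁ * t * pw (1/3) k :=
        mul_le_mul_of_nonneg_left (h4.trans h3) (by positivity)
      have h7 : 0 ≤ c₁ * t * pw (1/3) k := by
        have := f1_pw_pos' (1/3) k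
        positivity
      rw [h1]
      have h8 : (1 + c₁ * t * pw (1/3) k) * (A k)⁻¹ ≤ X k * (A k)⁻¹ :=
        mul_le_mul_of_nonneg_right h2 (by linarith)
      have h9 : c₁ * t * pw (1/3) k * 1 ≤ c₁ * t * pw (1/3) k * (A k)⁻¹ :=
        mul_le_mul_of_nonneg_left h5 h7
      push_cast
      nlinarith
  have hAtend : Tendsto A atTop (nhds 0) := by
    have h1 : Tendsto (fun k : ℕ => 1 + c₁ * t * (Real.log k - Real.log K)) atTop atTop := by
      apply tendsto_atTop_add_const_left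
      apply Tendsto.const_mul_atTop (by positivity)
      apply tendsto_atTop_add_const_right
      exact Real.tendsto_log_atTop.comp tendsto_natCast_atTop_atTop
    have h2 : Tendsto (fun k => (A k)⁻¹) atTop atTop := by
      refine tendsto_atTop_mono' _ ?_ h1
      filter_upwards [eventually_ge_atTop K] with k hk
      exact hAinv k hk
    have h3 := h2.inv_tendsto_atTop
    refine h3.congr fun k => ?_
    simp
  have hzpos : ∀ k ≥ K, 0 < z k := fun k hk => (hz k hk).1
  have hζpos : ∀ k ≥ K, 0 < ζ k := by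
    intro k hk
    rw [hζ]
    exact div_pos (hzpos k hk) (hApos k hk)
  have hzmax : ∀ k ≥ K, ∀ m ≥ k, z m ≤ max (z k) (z (k + 1)) := by
    intro k hk
    have h : ∀ n, z (k + n) ≤ max (z k) (z (k + 1)) ∧ z (k + n + 1) ≤ max (z k) (z (k + 1)) := by
      intro n
      induction n with
      | zero => exact ⟨le_max_left _ _, le_max_right _ _⟩
      | succ n ih =>
        refine ⟨ih.2, ?_⟩
        exact ((hz (k + n) (by omega)).2).trans ih.1
    intro m hm
    obtain ⟨n, rfl⟩ := Nat.exists_eq_add_of_le hm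
    exact (h n).1
  have hAζ : ∀ k ≥ K, A k * ζ k = z k := by
    intro k hk
    rw [hζ]
    field_simp [(hApos k hk).ne']
  
  have hsq : ∀ k : ℕ, (-1 : ℝ) ^ k * (-1 : ℝ) ^ k = 1 := by
    intro k
    rw [← mul_pow]; norm_num
  have claim3 : ∀ k ≥ K, E k = (X k)⁻¹ * (X (k + 1))⁻¹ * E (k + 1)
      - (X k)⁻¹ * (t * g (k + 1) + (-1 : ℝ) ^ (k + 1) * ρ (k + 1)) * ζ (k + 1) := by
    intro k hk
    have h1 := hrec k hk
    have hx := hXpos k hk
    have hx1 := hXpos (k + 1) (by omega)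
    have hA1 := hApos (k + 1) (by omega)
    rw [← hAζ k hk, ← hAζ (k + 1) (by omega), ← hAζ (k + 2) (by omega), hAX k hk,
      hAs (k + 1) (by omega)] at h1
    have h2 : X k * ζ k - (X (k + 1))⁻¹ * ζ (k + 2) =
        (X k - (X (k + 1))⁻¹ + ((-1 : ℝ) ^ (k + 1) * (t * g (k + 1)) + ρ (k + 1))) *
          ζ (k + 1) := by
      apply mul_left_cancel₀ hA1.ne'
      linear_combination h1
    have h3 : ζ k = (X k)⁻¹ * ((X (k + 1))⁻¹ * ζ (k + 2) +
        (X k - (X (k + 1))⁻¹ + ((-1 : ℝ) ^ (k + 1) * (t * g (k + 1)) + ρ (k + 1))) *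
          ζ (k + 1)) := by
      rw [← h2]
      field_simp
      ring
    rw [hE k, hE (k + 1), h3, pow_succ]
    have h4 := hsq k
    set u := (-1 : ℝ) ^ k
    have h5 : (X k)⁻¹ * X k = 1 := inv_mul_cancel₀ hx.ne'
    have e5 : k + 1 + 1 = k + 2 := rfl
    rw [e5]
    linear_combination (u * ζ (k + 1)) * h5 - (X k)⁻¹ * t * g (k + 1) * ζ (k + 1) * h4
  set b : ℕ → ℝ := fun m => A m ^ 2 * (t * g m + (-1 : ℝ) ^ m * ρ m) * ζ m with hb
  have hω : ∀ k ≥ K, A k * A (k + 1) * E k = A (k + 1) * A (k + 2) * E (k + 1) - b (k + 1) := by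
    intro k hk
    have h1 := claim3 k hk
    have hx := hXpos k hk
    have hx1 := hXpos (k + 1) (by omega)
    have h2 := hAX k hk
    have h3 := hAs (k + 1) (by omega)
    have e5 : k + 1 + 1 = k + 2 := rfl
    rw [e5] at h3
    rw [h1, h3, h2]
    simp only [hb]
    field_simp
  have hbb : ∀ m ≥ K, |b m| ≤ A m * z m * (D * t * pw (7/3) m) := by
    intro m hm
    have h1 : b m = A m * z m * (t * g m + (-1 : ℝ) ^ m * ρ m) := by
      simp only [hb]
      rw [← hAζ m hm]
      ring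
    rw [h1, abs_mul, abs_of_pos (mul_pos (hApos m hm) (hzpos m hm))]
    apply mul_le_mul_of_nonneg_left _ (mul_pos (hApos m hm) (hzpos m hm)).le
    have h2 : |t * g m + (-1 : ℝ) ^ m * ρ m| ≤ t * |g m| + |ρ m| := by
      refine (abs_add_le _ _).trans ?_
      rw [abs_mul, abs_mul, abs_pow, abs_neg, abs_one, one_pow, one_mul, abs_of_pos ht]
    have h3 := mul_le_mul_of_nonneg_left (hg m hm) ht.le
    have h4 := hρ m hm
    have h5 : η * pw (7/3) m ≤ t * pw (7/3) m :=
      mul_le_mul_of_nonneg_right hηt (f1_pw_pos' _ _).le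
    calc _ ≤ t * |g m| + |ρ m| := h2
      _ ≤ t * (C₀ * pw (7/3) m) + t * pw (7/3) m := by linarith
      _ = D * t * pw (7/3) m := by rw [hD]; ring
  
  have hbk : ∀ k ≥ K, ∀ m, |b (k + 1 + m)| ≤
      A (k + 1) * max (z k) (z (k + 1)) * (D * t) * pw (7/3) (k + 1 + m) := by
    intro k hk m
    have h1 := hbb (k + 1 + m) (by omega)
    have h2 := hAle (k + 1) (by omega) (k + 1 + m) (by omega)
    have h3 := hzmax k hk (k + 1 + m) (by omega)
    have h4 := f1_pw_pos' (7/3) (k + 1 + m)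
    have h5 : A (k + 1 + m) * z (k + 1 + m) ≤ A (k + 1) * max (z k) (z (k + 1)) :=
      mul_le_mul h2 h3 (hzpos _ (by omega)).le (hApos _ (by omega)).le
    calc _ ≤ _ := h1
      _ ≤ A (k + 1) * max (z k) (z (k + 1)) * (D * t * pw (7/3) (k + 1 + m)) :=
        mul_le_mul_of_nonneg_right h5 (by positivity)
      _ = _ := by ring
  have hMk : ∀ k ≥ K, 0 ≤ A (k + 1) * max (z k) (z (k + 1)) * (D * t) := by
    intro k hk
    have h1 := hApos (k + 1) (by omega)
    have h2 : 0 ≤ max (z k) (z (k + 1)) := (hzpos k hk).le.trans (le_max_left _ _)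
    positivity
  have hsumM : ∀ k ≥ K, ∀ n, ∑ m ∈ Finset.range n, |b (k + 1 + m)| ≤
      A (k + 1) * max (z k) (z (k + 1)) * (D * t) * pw (4/3) k := by
    intro k hk n
    calc _ ≤ ∑ m ∈ Finset.range n,
          A (k + 1) * max (z k) (z (k + 1)) * (D * t) * pw (7/3) (k + 1 + m) :=
        Finset.sum_le_sum fun m _ => hbk k hk m
      _ = A (k + 1) * max (z k) (z (k + 1)) * (D * t) *
          ∑ m ∈ Finset.range n, pw (7/3) (k + 1 + m) := by rw [Finset.mul_sum]
      _ ≤ A (k + 1) * max (z k) (z (k + 1)) * (D * t) * pw (4/3) k := by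
        apply mul_le_mul_of_nonneg_left _ (hMk k hk)
        have h1 := f1_sum_le' (s := 7/3) (by norm_num) (k := k) (hK1.trans hk) n
        have h2 := f1_pw_pos' (4/3) k
        have e1 : (7/3 : ℝ) - 1 = 4/3 := by norm_num
        rw [e1] at h1
        refine h1.trans ?_
        have : ((4:ℝ)/3)⁻¹ ≤ 1 := by norm_num
        nlinarith
  have hsummable : ∀ k ≥ K, Summable fun m => b (k + 1 + m) := by
    intro k hk
    apply Summable.of_abs
    exact summable_of_sum_range_le (fun m => abs_nonneg _) (hsumM k hk)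
  have hωlim : Tendsto (fun k => A k * A (k + 1) * E k) atTop (nhds 0) := by
    have h1 : Tendsto (fun k => 2 * max (z K) (z (K + 1)) * A k) atTop (nhds 0) := by
      have := hAtend.const_mul (2 * max (z K) (z (K + 1)))
      simpa using this
    refine squeeze_zero_norm' ?_ h1
    filter_upwards [eventually_ge_atTop K] with k hk
    have hk1 : K ≤ k + 1 := by omega
    have h2 : A k * A (k + 1) * E k = (-1 : ℝ) ^ k * (A (k + 1) * z k - A k * z (k + 1)) := by
      rw [hE k, ← hAζ k hk, ← hAζ (k + 1) hk1]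
      ring
    rw [h2, norm_mul, norm_pow, norm_neg, norm_one, one_pow, one_mul, Real.norm_eq_abs]
    have h3 := hApos k hk
    have h4 := hApos (k + 1) hk1
    have h5 := hAanti k hk
    have h6 := hzmax K le_rfl k hk
    have h7 := hzmax K le_rfl (k + 1) hk1
    have h8 := hzpos k hk
    have h9 := hzpos (k + 1) hk1
    have h10 : A (k + 1) * z k ≤ A k * max (z K) (z (K + 1)) :=
      mul_le_mul h5 h6 h8.le h3.le
    have h11 : A k * z (k + 1) ≤ A k * max (z K) (z (K + 1)) :=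
      mul_le_mul_of_nonneg_left h7 h3.le
    have h12 : 0 < A (k + 1) * z k := by positivity
    have h13 : 0 < A k * z (k + 1) := by positivity
    rw [abs_le]
    constructor <;> nlinarith
  have hpart : ∀ k ≥ K, ∀ n, ∑ m ∈ Finset.range n, b (k + 1 + m) =
      A (k + n) * A (k + n + 1) * E (k + n) - A k * A (k + 1) * E k := by
    intro k hk n
    induction n with
    | zero => simp
    | succ n ih =>
      rw [Finset.sum_range_succ, ih]
      have h1 := hω (k + n) (by omega)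
      have e1 : k + 1 + n = k + n + 1 := by ring
      have e2 : k + (n + 1) = k + n + 1 := by ring
      rw [e1, e2, h1]
      ring
  have htsum : ∀ k ≥ K, ∑' m, b (k + 1 + m) = -(A k * A (k + 1) * E k) := by
    intro k hk
    have h1 := (hsummable k hk).hasSum.tendsto_sum_nat
    have h2 : Tendsto (fun n => ∑ m ∈ Finset.range n, b (k + 1 + m)) atTop
        (nhds (0 - A k * A (k + 1) * E k)) := by
      have h3 : Tendsto (fun n => A (k + n) * A (k + n + 1) * E (k + n)) atTop (nhds 0) := by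
        have := hωlim.comp (tendsto_add_atTop_nat k)
        refine this.congr fun n => ?_
        simp only [Function.comp_apply]
        rw [add_comm n k]
      refine (h3.sub_const _).congr fun n => ?_
      rw [hpart k hk n]
    rw [tendsto_nhds_unique h1 h2]
    ring
  
  have hωbd : ∀ k ≥ K, |A k * A (k + 1) * E k| ≤
      A (k + 1) * max (z k) (z (k + 1)) * (D * t) * pw (4/3) k := by
    intro k hk
    have h1 := htsum k hk
    have h2 : |∑' m, b (k + 1 + m)| ≤ ∑' m, |b (k + 1 + m)| := by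
      have := norm_tsum_le_tsum_norm (hsummable k hk).norm
      simpa [Real.norm_eq_abs] using this
    rw [h1, abs_neg] at h2
    refine h2.trans ?_
    exact Real.tsum_le_of_sum_range_le (fun m => abs_nonneg _) (hsumM k hk)
  have hEbd : ∀ k ≥ K, |E k| ≤ D * t * pw (4/3) k * max (ζ k) (ζ (k + 1)) := by
    intro k hk
    have hk1 : K ≤ k + 1 := by omega
    have h1 := hωbd k hk
    have hA0 := hApos k hk
    have hA1 := hApos (k + 1) hk1
    rw [abs_mul, abs_of_pos (mul_pos hA0 hA1)] at h1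
    have h2 : max (z k) (z (k + 1)) ≤ A k * max (ζ k) (ζ (k + 1)) := by
      apply max_le
      · rw [← hAζ k hk]
        exact mul_le_mul_of_nonneg_left (le_max_left _ _) hA0.le
      · rw [← hAζ (k + 1) hk1]
        exact mul_le_mul (hAanti k hk) (le_max_right _ _) (hζpos _ hk1).le hA0.le
    have hp := f1_pw_pos' (4/3) k
    have h3 : A k * A (k + 1) * |E k| ≤
        A k * A (k + 1) * (D * t * pw (4/3) k * max (ζ k) (ζ (k + 1))) := by
      calc _ ≤ _ := h1
        _ = A (k + 1) * (D * t) * pw (4/3) k * max (z k) (z (k + 1)) := by ring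
        _ ≤ A (k + 1) * (D * t) * pw (4/3) k * (A k * max (ζ k) (ζ (k + 1))) :=
          mul_le_mul_of_nonneg_left h2 (by positivity)
        _ = _ := by ring
    exact le_of_mul_le_mul_left h3 (mul_pos hA0 hA1)
  
  have htp : t * pw (1/3) K ≤ (K : ℝ)⁻¹ := by
    have h1 : pw (1/3) K = pw (-(2/3)) K * pw 1 K := by
      rw [← f1_pw_add']; congr 1; norm_num
    rw [h1, ← mul_assoc, f1_pw_one' hK1]
    exact mul_le_of_le_one_left (by positivity) htK
  have hDK : D * (K : ℝ)⁻¹ ≤ 1 / 16 := by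
    rw [← div_eq_mul_inv, div_le_iff₀ hKpos]
    linarith
  have hτ : ∀ k ≥ K, D * t * pw (4/3) k ≤ 1 / 16 := by
    intro k hk
    have h1 : pw (4/3) k ≤ pw (1/3) K :=
      (f1_pw_anti (by norm_num) hK1 hk).trans (f1_pw_exp_anti (by norm_num) hK1)
    calc D * t * pw (4/3) k ≤ D * t * pw (1/3) K :=
          mul_le_mul_of_nonneg_left h1 (by positivity)
      _ = D * (t * pw (1/3) K) := by ring
      _ ≤ D * (K : ℝ)⁻¹ := mul_le_mul_of_nonneg_left htp hDpos.le
      _ ≤ 1 / 16 := hDK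
  have hτ0 : ∀ k, 0 ≤ D * t * pw (4/3) k := by
    intro k
    have := f1_pw_pos' (4/3) k
    positivity
  have hEabs : ∀ k, |E k| = |ζ k - ζ (k + 1)| := by
    intro k
    rw [hE k, abs_mul, abs_pow, abs_neg, abs_one, one_pow, one_mul]
  have hstep : ∀ k ≥ K, ζ (k + 1) ≤ (1 + 2 * (D * t * pw (4/3) k)) * ζ k := by
    intro k hk
    have h1 := hEbd k hk
    rw [hEabs] at h1
    have h2 := hτ k hk
    have h3 := hτ0 k
    have h4 := hζpos k hk
    have h5 := hζpos (k + 1) (by omega)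
    set τ := D * t * pw (4/3) k
    rcases le_total (ζ (k + 1)) (ζ k) with h | h
    · nlinarith
    · rw [max_eq_right h] at h1
      have h6 := (abs_le.1 h1).1
      
      have h7 : ζ (k + 1) * (1 - τ) ≤ ζ k := by linarith
      have h8 : (1 + 2 * τ) * (1 - τ) ≥ 1 := by nlinarith
      nlinarith
  have hE2 : ∀ k ≥ K, |E k| ≤ 2 * (D * t * pw (4/3) k) * ζ k := by
    intro k hk
    have h1 := hEbd k hk
    have h2 := hstep k hk
    have h3 := hτ k hk
    have h4 := hτ0 k
    have h5 := hζpos k hk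
    have h6 : max (ζ k) (ζ (k + 1)) ≤ 2 * ζ k := by
      apply max_le
      · linarith
      · nlinarith
    calc _ ≤ _ := h1
      _ ≤ D * t * pw (4/3) k * (2 * ζ k) := mul_le_mul_of_nonneg_left h6 h4
      _ = _ := by ring
  have hexp : ∀ n, ζ (K + n) ≤ ζ K * Real.exp (∑ j ∈ Finset.range n,
      2 * (D * t * pw (4/3) (K + j))) := by
    intro n
    induction n with
    | zero => simp
    | succ n ih =>
      have h1 := hstep (K + n) (by omega)
      have h2 := Real.add_one_le_exp (2 * (D * t * pw (4/3) (K + n)))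
      have h3 := hζpos (K + n) (by omega)
      rw [Finset.sum_range_succ, Real.exp_add]
      have e1 : K + (n + 1) = K + n + 1 := by ring
      rw [e1]
      calc _ ≤ _ := h1
        _ ≤ Real.exp (2 * (D * t * pw (4/3) (K + n))) * ζ (K + n) :=
          mul_le_mul_of_nonneg_right (by linarith) h3.le
        _ ≤ Real.exp (2 * (D * t * pw (4/3) (K + n))) * (ζ K * Real.exp (∑ j ∈ Finset.range n,
            2 * (D * t * pw (4/3) (K + j)))) :=
          mul_le_mul_of_nonneg_left ih (Real.exp_pos _).le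
        _ = _ := by ring
  have hsmall : ∀ n, ∑ j ∈ Finset.range n, 2 * (D * t * pw (4/3) (K + j)) ≤ 1 / 2 := by
    intro n
    have h0 : ∑ j ∈ Finset.range n, pw (4/3) (K + j) ≤ 4 * pw (1/3) K := by
      cases n with
      | zero =>
        have := f1_pw_pos' (1/3) K
        simp only [Finset.range_zero, Finset.sum_empty]
        linarith
      | succ n =>
        rw [Finset.sum_range_succ']
        have h1 := f1_sum_le' (s := 4/3) (by norm_num) (k := K) hK1 n
        have e1 : (4/3 : ℝ) - 1 = 1/3 := by norm_num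
        rw [e1] at h1
        have h2 : pw (4/3) K ≤ pw (1/3) K := f1_pw_exp_anti (by norm_num) hK1
        have h3 : ∑ j ∈ Finset.range n, pw (4/3) (K + (j + 1)) =
            ∑ j ∈ Finset.range n, pw (4/3) (K + 1 + j) :=
          Finset.sum_congr rfl fun j _ => by congr 1; ring
        rw [h3, add_zero]
        have h4 : ((1:ℝ)/3)⁻¹ = 3 := by norm_num
        rw [h4] at h1
        linarith
    calc _ = 2 * (D * t) * ∑ j ∈ Finset.range n, pw (4/3) (K + j) := by
          rw [Finset.mul_sum]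
          exact Finset.sum_congr rfl fun j _ => by ring
      _ ≤ 2 * (D * t) * (4 * pw (1/3) K) := mul_le_mul_of_nonneg_left h0 (by positivity)
      _ = 8 * (D * (t * pw (1/3) K)) := by ring
      _ ≤ 8 * (D * (K : ℝ)⁻¹) := by
        have := mul_le_mul_of_nonneg_left htp hDpos.le
        linarith
      _ ≤ 1 / 2 := by linarith
  have hexp2 : Real.exp (1 / 2) ≤ 2 := by
    have h1 : Real.exp (1 / 2) ^ 2 ≤ 2 ^ 2 := by
      rw [← Real.exp_nat_mul]
      have h2 : ((2 : ℕ) : ℝ) * (1 / 2) = 1 := by norm_num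
      rw [h2]
      have := Real.exp_one_lt_d9
      linarith
    exact le_of_sq_le_sq h1 (by norm_num)
  have hζ2 : ∀ k ≥ K, ζ k ≤ 2 * ζ K := by
    intro k hk
    obtain ⟨n, rfl⟩ := Nat.exists_eq_add_of_le hk
    have h1 := hexp n
    have h2 : Real.exp (∑ j ∈ Finset.range n, 2 * (D * t * pw (4/3) (K + j))) ≤ 2 :=
      (Real.exp_le_exp.2 (hsmall n)).trans hexp2
    have h3 := hζpos K le_rfl
    nlinarith
  refine ⟨fun k hk => ⟨hζpos k hk, hζ2 k hk⟩, ?_, claim3, ?_⟩
  · intro k hk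
    have h1 := hE2 k hk
    have h2 := hζ2 k hk
    have h3 := hτ0 k
    calc _ ≤ _ := h1
      _ ≤ 2 * (D * t * pw (4/3) k) * (2 * ζ K) := mul_le_mul_of_nonneg_left h2 (by linarith)
      _ = _ := by ring
  · have h1 := htsum K le_rfl
    have h2 : A (K + 1) = (X K)⁻¹ := by rw [hAs K le_rfl, hAK, one_mul]
    have h3 : ∑' m : ℕ, A (K + 1 + m) ^ 2 *
      (t * g (K + 1 + m) + (-1 : ℝ) ^ (K + 1 + m) * ρ (K + 1 + m)) * ζ (K + 1 + m) =
        ∑' m, b (K + 1 + m) := rfl
    rw [h3, h1, hAK, h2]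
    ring

end Pool.Agent.Helper615.LogA
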