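import Mathlib
import Pool.Agent.Helper615.LogA.Defs
set_option autoImplicit false

namespace Pool.Agent.Helper615.LogA

open Filter Asymptotics
lemma f2_ansB_pos (e : ℝ) (n : ℕ) : 0 < pw e n := Real.exp_pos _
lemma f2_ansB_nat (m : ℕ) (k : ℕ) : pw ((m : ℝ) / 3) k = pw (1 / 3) k ^ m := by
  unfold pw; rw [← Real.exp_nat_mul]; congr 1; ring
lemma f2_ansB_w_anti (k : ℕ) (hk : 1 ≤ k) : pw (1/3) (k+1) ≤ pw (1/3) k := by
  unfold pw
  apply Real.exp_le_exp.2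
  have h1 : Real.log (k : ℝ) ≤ Real.log ((k + 1 : ℕ) : ℝ) := by
    apply Real.log_le_log
    · exact_mod_cast hk
    · push_cast; linarith
  linarith
lemma f2_ansB_w_le_one (k : ℕ) : pw (1/3) k ≤ 1 := by
  unfold pw
  rw [Real.exp_le_one_iff]
  have := Real.log_natCast_nonneg k
  linarith
lemma f2_ansB_tele (s : ℕ) (hs : 3 ≤ s) (k : ℕ) (hk : 1 ≤ k) :
    pw (1/3) (k+1) ^ (s + 3) ≤ pw (1/3) k ^ s - pw (1/3) (k+1) ^ s := by
  have h3 : pw (1/3) (k+1) ^ 3 = ((k : ℝ) + 1)⁻¹ := by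
    unfold pw
    rw [← Real.exp_nat_mul]
    have : ((3 : ℕ) : ℝ) * -(1 / 3 * Real.log ((k + 1 : ℕ) : ℝ)) = -Real.log ((k : ℝ) + 1) := by
      push_cast; ring
    rw [this, Real.exp_neg, Real.exp_log (by positivity)]
  have hk0 : (0 : ℝ) < k := by exact_mod_cast hk
  have hu : ((k : ℝ) + 1)⁻¹ ≤ Real.log ((k : ℝ) + 1) - Real.log k := by
    have h1 := Real.one_sub_inv_le_log_of_pos (x := ((k : ℝ) + 1) / k) (by positivity)
    rw [Real.log_div (by positivity) hk0.ne', inv_div] at h1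
    have h2 : 1 - (k : ℝ) / (k + 1) = ((k : ℝ) + 1)⁻¹ := by
      field_simp
      ring
    rwa [h2] at h1
  have h4 : pw (1/3) k ^ s = pw (1/3) (k+1) ^ s *
      Real.exp ((s : ℝ) / 3 * (Real.log ((k : ℝ) + 1) - Real.log k)) := by
    unfold pw
    rw [← Real.exp_nat_mul, ← Real.exp_nat_mul, ← Real.exp_add]
    congr 1
    push_cast
    ring
  have h5 : 1 + ((k : ℝ) + 1)⁻¹ ≤
      Real.exp ((s : ℝ) / 3 * (Real.log ((k : ℝ) + 1) - Real.log k)) := by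
    have h6 := Real.add_one_le_exp ((s : ℝ) / 3 * (Real.log ((k : ℝ) + 1) - Real.log k))
    have h7 : (1 : ℝ) ≤ (s : ℝ) / 3 := by
      have : (3 : ℝ) ≤ s := by exact_mod_cast hs
      linarith
    have h8 : (0 : ℝ) < ((k : ℝ) + 1)⁻¹ := by positivity
    nlinarith
  rw [pow_add, h3, h4]
  have h9 : 0 < pw (1/3) (k+1) ^ s := pow_pos (f2_ansB_pos _ _) _
  nlinarith
lemma f2_ansB_sum (s : ℕ) (hs : 3 ≤ s) (k : ℕ) (hk : 1 ≤ k) (m : ℕ) :
    ∑ i ∈ Finset.range m, pw (1/3) (k+i) ^ (s + 3) ≤ 2 * pw (1/3) k ^ s := by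
  have h1 : ∀ m, ∑ i ∈ Finset.range (m + 1), pw (1/3) (k+i) ^ (s + 3) ≤
      pw (1/3) k ^ (s+3) + pw (1/3) k ^ s - pw (1/3) (k+m) ^ s := by
    intro m
    induction m with
    | zero => simp
    | succ m ih =>
      rw [Finset.sum_range_succ]
      have := f2_ansB_tele s hs (k + m) (by omega)
      rw [show k + (m + 1) = k + m + 1 by ring]
      linarith
  have hp := f2_ansB_pos (1/3) k
  have h2 : pw (1/3) k ^ (s+3) ≤ pw (1/3) k ^ s :=
    pow_le_pow_of_le_one hp.le (f2_ansB_w_le_one k) (by omega)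
  rcases m with _ | m
  · rw [Finset.sum_range_zero]
    exact mul_nonneg (by norm_num) (pow_nonneg hp.le _)
  · have h3 := h1 m
    have h4 : 0 < pw (1/3) (k+m) ^ s := pow_pos (f2_ansB_pos _ _) _
    linarith
lemma f2_ansB_alt (y : ℕ → ℝ) (m : ℕ) :
    |∑ i ∈ Finset.range m, (-1 : ℝ) ^ i * y i| ≤ |y 0| + ∑ i ∈ Finset.range m, |y (i+1) - y i| := by
  have h1 : ∀ m, 2 * ∑ i ∈ Finset.range m, (-1 : ℝ) ^ i * y i =
      y 0 - (-1) ^ m * y m - ∑ i ∈ Finset.range m, (-1) ^ i * (y (i+1) - y i) := by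
    intro m
    induction m with
    | zero => simp
    | succ m ih =>
      rw [Finset.sum_range_succ, Finset.sum_range_succ, mul_add, ih, pow_succ]
      ring
  have h2 : ∀ m, |y m| ≤ |y 0| + ∑ i ∈ Finset.range m, |y (i+1) - y i| := by
    intro m
    induction m with
    | zero => simp
    | succ m ih =>
      rw [Finset.sum_range_succ]
      have h3 : |y (m+1)| ≤ |y m| + |y (m+1) - y m| := by
        calc |y (m+1)| = |y m + (y (m+1) - y m)| := by ring_nf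
          _ ≤ _ := abs_add_le _ _
      linarith
  have h3 : |∑ i ∈ Finset.range m, (-1 : ℝ) ^ i * (y (i+1) - y i)| ≤
      ∑ i ∈ Finset.range m, |y (i+1) - y i| := by
    refine (Finset.abs_sum_le_sum_abs _ _).trans (le_of_eq ?_)
    apply Finset.sum_congr rfl
    intro i _
    rw [abs_mul, abs_pow, abs_neg, abs_one, one_pow, one_mul]
  have h4 : |(-1 : ℝ) ^ m * y m| = |y m| := by
    rw [abs_mul, abs_pow, abs_neg, abs_one, one_pow, one_mul]
  have h5 : |2 * ∑ i ∈ Finset.range m, (-1 : ℝ) ^ i * y i| ≤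
      |y 0| + |y m| + ∑ i ∈ Finset.range m, |y (i+1) - y i| := by
    rw [h1 m]
    refine (abs_sub _ _).trans ?_
    have := abs_sub (y 0) ((-1) ^ m * y m)
    rw [h4] at this
    linarith
  rw [abs_mul, abs_two] at h5
  linarith [h2 m]
lemma f2_ansB_mul {a b c d : ℝ} (h1 : |a| ≤ b) (h2 : |c| ≤ d) : |a * c| ≤ b * d := by
  rw [abs_mul]
  exact mul_le_mul h1 h2 (abs_nonneg _) ((abs_nonneg _).trans h1)
lemma f2_ansB_inv_bd {p q a D : ℝ} (hp : 1 ≤ p) (hq : 1 ≤ q) (hpa : p ≤ 1 + a) (hqa : q ≤ 1 + a)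
    (haD : a ≤ D) (h0 : 0 ≤ a) : |1 - p⁻¹ * q⁻¹| ≤ (2 + D) * a := by
  have h1 : 1 ≤ p * q := by nlinarith
  have h2 : 0 < p * q := by linarith
  have h3 : p⁻¹ * q⁻¹ = (p * q)⁻¹ := by rw [mul_inv]
  rw [h3]
  have h4 : (p * q)⁻¹ ≤ 1 := inv_le_one_of_one_le₀ h1
  rw [abs_of_nonneg (by linarith)]
  have h5 : 1 - (p * q)⁻¹ ≤ p * q - 1 := by
    have h6 : (p * q) * (p * q)⁻¹ = 1 := mul_inv_cancel₀ h2.ne'
    have h7 : 0 < (p * q)⁻¹ := by positivity
    nlinarith [mul_self_nonneg (p * q - 1)]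
  have h8 : p * q ≤ (1 + a) * (1 + a) := by gcongr
  nlinarith
lemma f2_ansB_inv_sub {p q : ℝ} (hp : 1 ≤ p) (hq : 1 ≤ q) : |p⁻¹ - q⁻¹| ≤ |q - p| := by
  have hp0 : 0 < p := by linarith
  have hq0 : 0 < q := by linarith
  have h1 : p⁻¹ - q⁻¹ = (q - p) * (p * q)⁻¹ := by
    field_simp
  rw [h1, abs_mul]
  have h2 : |(p * q)⁻¹| ≤ 1 := by
    rw [abs_of_pos (by positivity)]
    apply inv_le_one_of_one_le₀
    nlinarith
  calc |q - p| * |(p * q)⁻¹| ≤ |q - p| * 1 := by gcongr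
    _ = |q - p| := mul_one _
set_option maxHeartbeats 4000000 in
lemma f2_ansB_R (D : ℝ) (hD : 1 ≤ D) (t η Z e : ℝ) (w x g ρ ζ E : ℕ → ℝ) (he : |e| = 1)
    (ht : 0 < t) (hη0 : 0 ≤ η) (hηt : η ≤ t) (hZ : 0 < Z)
    (hw0 : ∀ i, 0 < w i) (hw1 : ∀ i, w i ≤ w 0) (hwa : ∀ i, w (i+1) ≤ w i) (hw2 : w 0 ≤ 1)
    (htw : t ≤ w 0 ^ 2)
    (hsum : ∀ s, 3 ≤ s → ∀ m, ∑ i ∈ Finset.range m, w i ^ (s + 3) ≤ 2 * w 0 ^ s)
    (hx1 : ∀ i, 1 ≤ x i) (hx2 : ∀ i, x i ≤ 1 + D * t * w i)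
    (hx3 : ∀ i, |x (i+1) - x i| ≤ D * t * w i ^ 4)
    (hg1 : ∀ i, |g i| ≤ D * w i ^ 7) (hg2 : ∀ i, |g (i+1) - g i| ≤ D * w i ^ 10)
    (hρ : ∀ i, |ρ i| ≤ η * w i ^ 7)
    (hE : ∀ i, ζ i - ζ (i+1) = e * (-1)^i * E i)
    (hζ0 : ∀ i, 0 < ζ i) (hζ1 : ∀ i, ζ i ≤ 2 * Z)
    (hE1 : ∀ i, |E i| ≤ D * t * w i ^ 4 * Z)
    (hrec : ∀ i, E i = (x i)⁻¹ * (x (i+1))⁻¹ * E (i+1) -
      (x i)⁻¹ * (t * g (i+1) + e * (-1)^(i+1) * ρ (i+1)) * ζ (i+1)) :
    (∀ i, |E (i+1) - E i| ≤ 4 * D^3 * (t^2 * w i^5 + t * w i^7) * Z) ∧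
    (∀ m, |∑ i ∈ Finset.range m, (-1 : ℝ)^i * (E (i+1) - E i)| ≤
      113 * D^5 * (t * w 0 ^ 7 + η * w 0 ^ 4) * Z) := by
  have hD0 : 0 < D := by linarith
  have ht1 : t ≤ 1 := htw.trans (pow_le_one₀ (hw0 0).le hw2)
  have hwle : ∀ i, w i ≤ 1 := fun i => (hw1 i).trans hw2
  have habs1 : ∀ i : ℕ, |(-1 : ℝ)^i| = 1 := by
    intro i
    rw [abs_pow, abs_neg, abs_one, one_pow]
  have hsgn : ∀ i : ℕ, |e * (-1)^i| = 1 := by
    intro i
    rw [abs_mul, he, habs1, one_mul]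
  have hxi : ∀ i, |(x i)⁻¹| ≤ 1 := by
    intro i
    have := hx1 i
    rw [abs_of_pos (by positivity)]
    exact inv_le_one_of_one_le₀ this
  
  have htwi : ∀ i, t * w i ≤ 1 := by
    intro i
    have := hwle i
    have := hw0 i
    nlinarith
  have ha : ∀ i, |1 - (x i)⁻¹ * (x (i+1))⁻¹| ≤ 3 * D^2 * (t * w i) := by
    intro i
    have h0 := hw0 i
    have h1 : D * t * w i ≤ D := by
      have := htwi i
      nlinarith
    have h2 := f2_ansB_inv_bd (a := D * t * w i) (D := D) (hx1 i) (hx1 (i+1)) (hx2 i) (by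
      refine (hx2 (i+1)).trans ?_
      have := hwa i
      gcongr) h1 (by positivity)
    refine h2.trans ?_
    have h3 : (2 + D) * D ≤ 3 * D^2 := by nlinarith
    calc (2 + D) * (D * t * w i) = ((2 + D) * D) * (t * w i) := by ring
      _ ≤ (3 * D^2) * (t * w i) := by gcongr
  have ha' : ∀ i, |(1 - (x (i+1))⁻¹ * (x (i+2))⁻¹) - (1 - (x i)⁻¹ * (x (i+1))⁻¹)| ≤
      2 * D * (t * w i ^ 4) := by
    intro i
    have e1 : (1 - (x (i+1))⁻¹ * (x (i+2))⁻¹) - (1 - (x i)⁻¹ * (x (i+1))⁻¹) =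
        (x (i+1))⁻¹ * ((x i)⁻¹ - (x (i+2))⁻¹) := by ring
    rw [e1]
    have h1 := f2_ansB_mul (hxi (i+1)) (f2_ansB_inv_sub (hx1 i) (hx1 (i+2)))
    refine h1.trans ?_
    rw [one_mul]
    have h2 : |x (i+2) - x i| ≤ |x (i+2) - x (i+1)| + |x (i+1) - x i| := abs_sub_le _ _ _
    have h3 := hx3 i
    have h4 := hx3 (i+1)
    have h5 : D * t * w (i+1) ^ 4 ≤ D * t * w i ^ 4 := by
      have := hwa i
      have := hw0 (i+1)
      gcongr
    have h6 : x (i+1+1) = x (i+2) := rfl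
    rw [h6] at h4
    linarith
  
  have hb : ∀ i, |(x i)⁻¹ * (t * g (i+1))| ≤ D * (t * w i ^ 7) := by
    intro i
    have h1 := f2_ansB_mul (hxi i) (f2_ansB_mul (le_of_eq (abs_of_pos ht)) (hg1 (i+1)))
    refine h1.trans ?_
    have h5 : w (i+1) ^ 7 ≤ w i ^ 7 := by
      have := hwa i
      have := hw0 (i+1)
      gcongr
    calc 1 * (t * (D * w (i+1) ^ 7)) ≤ 1 * (t * (D * w i ^ 7)) := by gcongr
      _ = _ := by ring
  have hb' : ∀ i, |(x (i+1))⁻¹ * (t * g (i+2)) - (x i)⁻¹ * (t * g (i+1))| ≤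
      2 * D^2 * (t * w i ^ 10) := by
    intro i
    have e1 : (x (i+1))⁻¹ * (t * g (i+2)) - (x i)⁻¹ * (t * g (i+1)) =
        (x (i+1))⁻¹ * (t * (g (i+2) - g (i+1))) + (t * g (i+1)) * ((x (i+1))⁻¹ - (x i)⁻¹) := by ring
    rw [e1]
    have h0 := hw0 i
    have h0' := hw0 (i+1)
    have h1 : |(x (i+1))⁻¹ * (t * (g (i+2) - g (i+1)))| ≤ D * (t * w i ^ 10) := by
      refine (f2_ansB_mul (hxi (i+1)) (f2_ansB_mul (le_of_eq (abs_of_pos ht)) (hg2 (i+1)))).trans ?_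
      have h5 : w (i+1) ^ 10 ≤ w i ^ 10 := by
        have := hwa i
        gcongr
      calc 1 * (t * (D * w (i+1) ^ 10)) ≤ 1 * (t * (D * w i ^ 10)) := by gcongr
        _ = _ := by ring
    have h2 : |(t * g (i+1)) * ((x (i+1))⁻¹ - (x i)⁻¹)| ≤ D^2 * (t * w i ^ 10) := by
      have h3 : |(x (i+1))⁻¹ - (x i)⁻¹| ≤ D * t * w i ^ 4 := by
        refine (f2_ansB_inv_sub (hx1 (i+1)) (hx1 i)).trans ?_
        rw [abs_sub_comm]
        exact hx3 i
      refine (f2_ansB_mul (f2_ansB_mul (le_of_eq (abs_of_pos ht)) (hg1 (i+1))) h3).trans ?_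
      have h5 : w (i+1) ^ 7 ≤ w i ^ 7 := by
        have := hwa i
        gcongr
      calc t * (D * w (i+1) ^ 7) * (D * t * w i ^ 4) ≤ t * (D * w i ^ 7) * (D * t * w i ^ 4) := by
            gcongr
        _ = D^2 * (t * w i ^ 10) * (t * w i) := by ring
        _ ≤ D^2 * (t * w i ^ 10) * 1 := by
            have := htwi i
            gcongr
        _ = _ := by ring
    have h4 : D ≤ D^2 := by nlinarith
    have h5 : D * (t * w i ^ 10) ≤ D^2 * (t * w i ^ 10) := by gcongr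
    refine (abs_add_le _ _).trans ?_
    linarith
  
  set s' : ℕ → ℝ := fun i => (1 - (x i)⁻¹ * (x (i+1))⁻¹) * E (i+1) +
    ((x i)⁻¹ * (t * g (i+1))) * ζ (i+1) with hs'
  set s'' : ℕ → ℝ := fun i => (x i)⁻¹ * (e * (-1)^(i+1) * ρ (i+1)) * ζ (i+1) with hs''
  have hsplit : ∀ i, E (i+1) - E i = s' i + s'' i := by
    intro i
    simp only [hs', hs'']
    rw [hrec i]
    ring
  have hZa : ∀ i, |ζ i| ≤ 2 * Z := fun i => by
    rw [abs_of_pos (hζ0 i)]; exact hζ1 i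
  have hE2 : ∀ i, |E (i+1)| ≤ D * t * w i ^ 4 * Z := by
    intro i
    refine (hE1 (i+1)).trans ?_
    have := hwa i
    have := hw0 (i+1)
    gcongr
  have hs1 : ∀ i, |s' i| ≤ (3 * D^3 * (t^2 * w i^5) + 2 * D * (t * w i ^ 7)) * Z := by
    intro i
    simp only [hs']
    refine (abs_add_le _ _).trans ?_
    have h1 := f2_ansB_mul (ha i) (hE2 i)
    have h2 := f2_ansB_mul (hb i) (hZa (i+1))
    refine (add_le_add h1 h2).trans (le_of_eq ?_)
    ring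
  have hs2 : ∀ i, |s'' i| ≤ 2 * (η * w i ^ 7) * Z := by
    intro i
    simp only [hs'']
    have h1 : |e * (-1)^(i+1) * ρ (i+1)| ≤ η * w i ^ 7 := by
      rw [abs_mul, hsgn, one_mul]
      refine (hρ (i+1)).trans ?_
      have := hwa i
      have := hw0 (i+1)
      gcongr
    refine (f2_ansB_mul (f2_ansB_mul (hxi i) h1) (hZa (i+1))).trans (le_of_eq ?_)
    ring
  have hA : ∀ i, |E (i+1) - E i| ≤ 4 * D^3 * (t^2 * w i^5 + t * w i^7) * Z := by
    intro i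
    have h0 := hw0 i
    rw [hsplit]
    refine (abs_add_le _ _).trans ?_
    refine (add_le_add (hs1 i) (hs2 i)).trans ?_
    rw [← add_mul]
    apply mul_le_mul_of_nonneg_right _ hZ.le
    have hDD : D ≤ D^3 := by nlinarith [mul_pos hD0 hD0]
    have hDD1 : 1 ≤ D^3 := by nlinarith [mul_pos hD0 hD0]
    have q1 : 2 * D * (t * w i ^ 7) ≤ 2 * D^3 * (t * w i ^ 7) := by gcongr
    have q2 : 2 * (η * w i ^ 7) ≤ 2 * D^3 * (t * w i ^ 7) := by
      calc 2 * (η * w i ^ 7) ≤ 2 * (t * w i ^ 7) := by gcongr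
        _ = 2 * 1 * (t * w i ^ 7) := by ring
        _ ≤ 2 * D^3 * (t * w i ^ 7) := by gcongr
    have q3 : 0 ≤ D^3 * (t^2 * w i^5) := by positivity
    nlinarith
  refine ⟨hA, ?_⟩
  
  have hs3 : ∀ i, |s' (i+1) - s' i| ≤ 18 * D^5 * (t^2 * w i^8 + t^3 * w i^6 + t * w i^10) * Z := by
    intro i
    have h0 := hw0 i
    have h0' := hw0 (i+1)
    have hw := hwa i
    have e1 : s' (i+1) - s' i =
        ((1 - (x (i+1))⁻¹ * (x (i+2))⁻¹) - (1 - (x i)⁻¹ * (x (i+1))⁻¹)) * E (i+2) +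
        (1 - (x i)⁻¹ * (x (i+1))⁻¹) * (E (i+2) - E (i+1)) +
        ((x (i+1))⁻¹ * (t * g (i+2)) - (x i)⁻¹ * (t * g (i+1))) * ζ (i+2) +
        ((x i)⁻¹ * (t * g (i+1))) * (ζ (i+2) - ζ (i+1)) := by
      simp only [hs']
      ring
    rw [e1]
    have h1 : |((1 - (x (i+1))⁻¹ * (x (i+2))⁻¹) - (1 - (x i)⁻¹ * (x (i+1))⁻¹)) * E (i+2)| ≤
        2 * D^2 * (t^2 * w i^8) * Z := by
      have h2 : |E (i+2)| ≤ D * t * w i ^ 4 * Z := by
        refine (hE2 (i+1)).trans ?_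
        gcongr
      refine (f2_ansB_mul (ha' i) h2).trans (le_of_eq ?_)
      ring
    have h2 : |(1 - (x i)⁻¹ * (x (i+1))⁻¹) * (E (i+2) - E (i+1))| ≤
        12 * D^5 * (t^3 * w i^6 + t^2 * w i^8) * Z := by
      have h3 : |E (i+2) - E (i+1)| ≤ 4 * D^3 * (t^2 * w i^5 + t * w i^7) * Z := by
        refine (hA (i+1)).trans ?_
        gcongr
      refine (f2_ansB_mul (ha i) h3).trans (le_of_eq ?_)
      ring
    have h3 := f2_ansB_mul (hb' i) (hZa (i+2))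
    have h4 : |((x i)⁻¹ * (t * g (i+1))) * (ζ (i+2) - ζ (i+1))| ≤ D^2 * (t^2 * w i^8) * Z := by
      have h5 : |ζ (i+2) - ζ (i+1)| ≤ D * t * w i ^ 4 * Z := by
        rw [abs_sub_comm, hE (i+1), abs_mul, hsgn, one_mul]
        exact hE2 i
      refine (f2_ansB_mul (hb i) h5).trans ?_
      have h6 : w i ^ 11 ≤ w i ^ 8 := pow_le_pow_of_le_one h0.le (hwle i) (by norm_num)
      calc D * (t * w i ^ 7) * (D * t * w i ^ 4 * Z) = D^2 * (t^2 * w i^11) * Z := by ring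
        _ ≤ _ := by gcongr
    have hD25 : D^2 ≤ D^5 := pow_le_pow_right₀ hD (by norm_num)
    have q1 : 0 ≤ t^2 * w i^8 * Z := by positivity
    have q2 : 0 ≤ t^3 * w i^6 * Z := by positivity
    have q3 : 0 ≤ t * w i^10 * Z := by positivity
    have q4 : D^2 * (t^2 * w i^8 * Z) ≤ D^5 * (t^2 * w i^8 * Z) := by gcongr
    have q5 : D^2 * (t * w i^10 * Z) ≤ D^5 * (t * w i^10 * Z) := by gcongr
    have q6 : 0 ≤ D^5 * (t^2 * w i^8 * Z) := by positivity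
    have q7 : 0 ≤ D^5 * (t^3 * w i^6 * Z) := by positivity
    have q8 : 0 ≤ D^5 * (t * w i^10 * Z) := by positivity
    calc _ ≤ |((1 - (x (i+1))⁻¹ * (x (i+2))⁻¹) - (1 - (x i)⁻¹ * (x (i+1))⁻¹)) * E (i+2)| +
          |(1 - (x i)⁻¹ * (x (i+1))⁻¹) * (E (i+2) - E (i+1))| +
          |((x (i+1))⁻¹ * (t * g (i+2)) - (x i)⁻¹ * (t * g (i+1))) * ζ (i+2)| +
          |((x i)⁻¹ * (t * g (i+1))) * (ζ (i+2) - ζ (i+1))| := by
          refine (abs_add_le _ _).trans ?_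
          gcongr
          refine (abs_add_le _ _).trans ?_
          gcongr
          exact abs_add_le _ _
      _ ≤ 2 * D^2 * (t^2 * w i^8) * Z + 12 * D^5 * (t^3 * w i^6 + t^2 * w i^8) * Z +
          2 * D^2 * (t * w i ^ 10) * (2 * Z) + D^2 * (t^2 * w i^8) * Z := by
          gcongr
      _ ≤ _ := by nlinarith
  intro m
  have hW0 := hw0 0
  have e1 : ∑ i ∈ Finset.range m, (-1 : ℝ)^i * (E (i+1) - E i) =
      ∑ i ∈ Finset.range m, (-1 : ℝ)^i * s' i + ∑ i ∈ Finset.range m, (-1 : ℝ)^i * s'' i := by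
    rw [← Finset.sum_add_distrib]
    apply Finset.sum_congr rfl
    intro i _
    rw [hsplit]
    ring
  rw [e1]
  refine (abs_add_le _ _).trans ?_
  have h1 : |∑ i ∈ Finset.range m, (-1 : ℝ)^i * s'' i| ≤ 4 * (η * w 0 ^ 4) * Z := by
    calc |∑ i ∈ Finset.range m, (-1 : ℝ)^i * s'' i| ≤ ∑ i ∈ Finset.range m, |(-1 : ℝ)^i * s'' i| :=
          Finset.abs_sum_le_sum_abs _ _
      _ ≤ ∑ i ∈ Finset.range m, 2 * (η * w i ^ 7) * Z := by
          apply Finset.sum_le_sum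
          intro i _
          rw [abs_mul, habs1, one_mul]
          exact hs2 i
      _ = 2 * η * Z * ∑ i ∈ Finset.range m, w i ^ (4 + 3) := by
          rw [Finset.mul_sum]
          apply Finset.sum_congr rfl
          intro i _
          ring
      _ ≤ 2 * η * Z * (2 * w 0 ^ 4) := by
          have := hsum 4 (by norm_num) m
          gcongr
      _ = _ := by ring
  have p1 : t^2 * w 0^5 ≤ t * w 0^7 := by
    calc t^2 * w 0^5 = t * (t * w 0 ^5) := by ring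
      _ ≤ t * (w 0 ^ 2 * w 0 ^ 5) := by gcongr
      _ = _ := by ring
  have p2 : t^3 * w 0^3 ≤ t * w 0^7 := by
    calc t^3 * w 0^3 = t * (t * t * w 0 ^3) := by ring
      _ ≤ t * (w 0 ^ 2 * w 0 ^ 2 * w 0 ^ 3) := by gcongr
      _ = _ := by ring
  have hD35 : D^3 ≤ D^5 := pow_le_pow_right₀ hD (by norm_num)
  have hD15 : D ≤ D^5 := by
    calc D = D^1 := (pow_one D).symm
      _ ≤ D^5 := pow_le_pow_right₀ hD (by norm_num)
  have hD05 : 1 ≤ D^5 := one_le_pow₀ hD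
  have h2 : |∑ i ∈ Finset.range m, (-1 : ℝ)^i * s' i| ≤ 113 * D^5 * (t * w 0 ^ 7) * Z := by
    refine (f2_ansB_alt s' m).trans ?_
    have k1 : |s' 0| ≤ 5 * D^5 * (t * w 0^7) * Z := by
      refine (hs1 0).trans ?_
      apply mul_le_mul_of_nonneg_right _ hZ.le
      have q1 : D^3 * (t^2 * w 0^5) ≤ D^5 * (t * w 0^7) := by gcongr
      have q2 : D * (t * w 0^7) ≤ D^5 * (t * w 0^7) := by gcongr
      nlinarith
    have k2 : ∑ i ∈ Finset.range m, |s' (i+1) - s' i| ≤ 108 * D^5 * (t * w 0^7) * Z := by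
      calc ∑ i ∈ Finset.range m, |s' (i+1) - s' i|
          ≤ ∑ i ∈ Finset.range m, 18 * D^5 * (t^2 * w i^8 + t^3 * w i^6 + t * w i^10) * Z :=
            Finset.sum_le_sum fun i _ => hs3 i
        _ = 18 * D^5 * Z * (t^2 * ∑ i ∈ Finset.range m, w i^(5+3) +
            t^3 * ∑ i ∈ Finset.range m, w i^(3+3) + t * ∑ i ∈ Finset.range m, w i^(7+3)) := by
            rw [Finset.mul_sum, Finset.mul_sum, Finset.mul_sum, ← Finset.sum_add_distrib,
              ← Finset.sum_add_distrib, Finset.mul_sum]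
            apply Finset.sum_congr rfl
            intro i _
            ring
        _ ≤ 18 * D^5 * Z * (t^2 * (2 * w 0^5) + t^3 * (2 * w 0^3) + t * (2 * w 0^7)) := by
            have := hsum 5 (by norm_num) m
            have := hsum 3 (by norm_num) m
            have := hsum 7 (by norm_num) m
            gcongr
        _ = 36 * D^5 * Z * (t^2 * w 0^5 + t^3 * w 0^3 + t * w 0^7) := by ring
        _ ≤ 36 * D^5 * Z * (t * w 0^7 + t * w 0^7 + t * w 0^7) := by gcongr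
        _ = _ := by ring
    linarith
  have h3 : 4 * (η * w 0 ^ 4) * Z ≤ 113 * D^5 * (η * w 0 ^ 4) * Z := by
    have : 0 ≤ η * w 0 ^ 4 := by positivity
    gcongr
    linarith
  linarith
set_option maxHeartbeats 4000000 in
lemma f2_ansB_core (D : ℝ) (hD : 1 ≤ D) (t η Z e : ℝ) (w x g ρ A ζ E : ℕ → ℝ) (he : e ^ 2 = 1)
    (ht : 0 < t) (hη0 : 0 ≤ η) (hηt : η ≤ t) (hZ : 0 < Z)
    (hw0 : ∀ i, 0 < w i) (hw1 : ∀ i, w i ≤ w 0) (hwa : ∀ i, w (i+1) ≤ w i) (hw2 : w 0 ≤ 1)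
    (htw : t ≤ w 0 ^ 2)
    (hsum : ∀ s, 3 ≤ s → ∀ m, ∑ i ∈ Finset.range m, w i ^ (s + 3) ≤ 2 * w 0 ^ s)
    (hx1 : ∀ i, 1 ≤ x i) (hx2 : ∀ i, x i ≤ 1 + D * t * w i)
    (hx3 : ∀ i, |x (i+1) - x i| ≤ D * t * w i ^ 4)
    (hg1 : ∀ i, |g i| ≤ D * w i ^ 7) (hg2 : ∀ i, |g (i+1) - g i| ≤ D * w i ^ 10)
    (hρ : ∀ i, |ρ i| ≤ η * w i ^ 7)
    (hA0 : ∀ i, 0 < A i) (hA1 : ∀ i, A i ≤ 1) (hA : ∀ i, A (i+1) = A i * (x i)⁻¹)
    (hE : ∀ i, ζ i - ζ (i+1) = e * (-1)^i * E i)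
    (hζ0 : ∀ i, 0 < ζ i) (hζ1 : ∀ i, ζ i ≤ 2 * Z)
    (hE1 : ∀ i, |E i| ≤ D * t * w i ^ 4 * Z)
    (hrec : ∀ i, E i = (x i)⁻¹ * (x (i+1))⁻¹ * E (i+1) -
      (x i)⁻¹ * (t * g (i+1) + e * (-1)^(i+1) * ρ (i+1)) * ζ (i+1)) (M : ℕ) :
    |∑ m ∈ Finset.range M, A (m+1) ^ 2 * (t * g (m+1) + e * (-1)^(m+1) * ρ (m+1)) * ζ (m+1) -
      (ζ 0 + ζ 1) / 2 * (t * ∑ m ∈ Finset.range M, g (m+1) * A (m+1) ^ 2)| ≤
      150 * D^6 * (t^2 * w 0 ^ 11 + η * w 0 ^ 4) * Z := by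
  have he1 : |e| = 1 := by
    have : |e| ^ 2 = 1 := by rw [sq_abs]; exact he
    nlinarith [abs_nonneg e]
  obtain ⟨hsig, hR⟩ := f2_ansB_R D hD t η Z e w x g ρ ζ E he1 ht hη0 hηt hZ hw0 hw1 hwa hw2 htw hsum
    hx1 hx2 hx3 hg1 hg2 hρ hE hζ0 hζ1 hE1 hrec
  have hD0 : 0 < D := by linarith
  have hW0 := hw0 0
  have ht1 : t ≤ 1 := htw.trans (pow_le_one₀ (hw0 0).le hw2)
  have hwle : ∀ i, w i ≤ 1 := fun i => (hw1 i).trans hw2
  have habs1 : ∀ i : ℕ, |(-1 : ℝ)^i| = 1 := by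
    intro i
    rw [abs_pow, abs_neg, abs_one, one_pow]
  have hsgn : ∀ i : ℕ, |e * (-1)^i| = 1 := by
    intro i
    rw [abs_mul, he1, habs1, one_mul]
  have htwi : ∀ i, t * w i ≤ 1 := by
    intro i
    have := hwle i
    have := hw0 i
    nlinarith
  have hsq : ∀ i : ℕ, ((-1 : ℝ)^i) ^ 2 = 1 := by
    intro i
    rw [← pow_mul, mul_comm, pow_mul]; norm_num
  
  set R : ℕ → ℝ := fun m => (1/2) * (e * ∑ i ∈ Finset.range m, (-1 : ℝ)^i * (E (i+1) - E i)) with hRdef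
  have hexp : ∀ m, ζ (m+1) = (ζ 0 + ζ 1) / 2 - (1/2) * (e * (-1)^m * E m) + R m := by
    intro m
    induction m with
    | zero =>
      have := hE 0
      simp only [hRdef, Finset.sum_range_zero, mul_zero, add_zero]
      linarith
    | succ m ih =>
      have h1 := hE (m+1)
      have h2 : R (m+1) = R m + (1/2) * (e * ((-1 : ℝ)^m * (E (m+1) - E m))) := by
        simp only [hRdef, Finset.sum_range_succ]
        ring
      rw [h2]
      have h3 : (-1 : ℝ)^(m+1) = - (-1)^m := by rw [pow_succ]; ring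
      rw [h3] at h1 ⊢
      linear_combination ih - h1
  have hRb : ∀ m, |R m| ≤ 57 * D^5 * (t * w 0 ^ 7 + η * w 0 ^ 4) * Z := by
    intro m
    simp only [hRdef]
    rw [abs_mul, abs_mul, he1, one_mul, abs_of_pos (by norm_num : (0:ℝ) < 1/2)]
    have := hR m
    have h5 : 0 ≤ D^5 * (t * w 0 ^ 7 + η * w 0 ^ 4) * Z := by positivity
    nlinarith
  set y : ℕ → ℝ := fun m => A (m+1) ^ 2 * (t * g (m+1)) * E m with hy
  have e1 : ∑ m ∈ Finset.range M, A (m+1) ^ 2 * (t * g (m+1) + e * (-1)^(m+1) * ρ (m+1)) * ζ (m+1) -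
      (ζ 0 + ζ 1) / 2 * (t * ∑ m ∈ Finset.range M, g (m+1) * A (m+1) ^ 2) =
      -(1/2) * (e * ∑ m ∈ Finset.range M, (-1)^m * y m) +
      ∑ m ∈ Finset.range M, A (m+1) ^ 2 * (t * g (m+1)) * R m +
      ∑ m ∈ Finset.range M, A (m+1) ^ 2 * (e * (-1)^(m+1) * ρ (m+1)) * ζ (m+1) := by
    simp only [Finset.mul_sum]
    rw [← Finset.sum_sub_distrib, ← Finset.sum_add_distrib, ← Finset.sum_add_distrib]
    apply Finset.sum_congr rfl
    intro m _
    simp only [hy]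
    linear_combination (A (m+1) ^ 2 * (t * g (m+1))) * hexp m
  rw [e1]
  have hAsq : ∀ m, |A m ^ 2| ≤ 1 := by
    intro m
    have h1 := hA0 m
    have h2 := hA1 m
    rw [abs_of_pos (by positivity)]
    exact pow_le_one₀ h1.le h2
  have hgm : ∀ m, |g (m+1)| ≤ D * w m ^ 7 := by
    intro m
    refine (hg1 (m+1)).trans ?_
    have := hwa m
    have := hw0 (m+1)
    gcongr
  
  have h4 : |∑ m ∈ Finset.range M, A (m+1) ^ 2 * (e * (-1)^(m+1) * ρ (m+1)) * ζ (m+1)| ≤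
      4 * (η * w 0 ^ 4) * Z := by
    calc _ ≤ ∑ m ∈ Finset.range M, |A (m+1) ^ 2 * (e * (-1)^(m+1) * ρ (m+1)) * ζ (m+1)| :=
          Finset.abs_sum_le_sum_abs _ _
      _ ≤ ∑ m ∈ Finset.range M, 2 * (η * w m ^ 7) * Z := by
          apply Finset.sum_le_sum
          intro m _
          have k1 : |e * (-1)^(m+1) * ρ (m+1)| ≤ η * w m ^ 7 := by
            rw [abs_mul, hsgn, one_mul]
            refine (hρ (m+1)).trans ?_
            have := hwa m
            have := hw0 (m+1)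
            gcongr
          have k2 : |ζ (m+1)| ≤ 2 * Z := by
            rw [abs_of_pos (hζ0 (m+1))]; exact hζ1 (m+1)
          refine (f2_ansB_mul (f2_ansB_mul (hAsq (m+1)) k1) k2).trans (le_of_eq ?_)
          ring
      _ = 2 * η * Z * ∑ i ∈ Finset.range M, w i ^ (4 + 3) := by
          rw [Finset.mul_sum]
          apply Finset.sum_congr rfl
          intro i _
          ring
      _ ≤ 2 * η * Z * (2 * w 0 ^ 4) := by
          have := hsum 4 (by norm_num) M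
          gcongr
      _ = _ := by ring
  
  have h3 : |∑ m ∈ Finset.range M, A (m+1) ^ 2 * (t * g (m+1)) * R m| ≤
      114 * D^6 * (t^2 * w 0 ^ 11 + η * w 0 ^ 4) * Z := by
    calc _ ≤ ∑ m ∈ Finset.range M, |A (m+1) ^ 2 * (t * g (m+1)) * R m| :=
          Finset.abs_sum_le_sum_abs _ _
      _ ≤ ∑ m ∈ Finset.range M, (t * (D * w m ^ 7)) * (57 * D^5 * (t * w 0 ^ 7 + η * w 0 ^ 4) * Z) := by
          apply Finset.sum_le_sum
          intro m _
          refine (f2_ansB_mul (f2_ansB_mul (hAsq (m+1)) (f2_ansB_mul (le_of_eq (abs_of_pos ht)) (hgm m)))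
            (hRb m)).trans (le_of_eq ?_)
          ring
      _ = (57 * D^6 * t * (t * w 0 ^ 7 + η * w 0 ^ 4) * Z) * ∑ i ∈ Finset.range M, w i ^ (4 + 3) := by
          rw [Finset.mul_sum]
          apply Finset.sum_congr rfl
          intro i _
          ring
      _ ≤ (57 * D^6 * t * (t * w 0 ^ 7 + η * w 0 ^ 4) * Z) * (2 * w 0 ^ 4) := by
          have := hsum 4 (by norm_num) M
          gcongr
      _ = 114 * D^6 * (t^2 * w 0 ^ 11 + η * w 0 ^ 4 * (t * w 0 ^ 4)) * Z := by ring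
      _ ≤ 114 * D^6 * (t^2 * w 0 ^ 11 + η * w 0 ^ 4 * 1) * Z := by
          have : t * w 0 ^ 4 ≤ 1 := by
            have := pow_le_one₀ (n := 4) hW0.le hw2
            have : 0 < w 0 ^ 4 := by positivity
            nlinarith
          gcongr
      _ = _ := by ring
  
  have h2 : |∑ m ∈ Finset.range M, (-1)^m * y m| ≤ 29 * D^6 * (t^2 * w 0 ^ 11) * Z := by
    refine (f2_ansB_alt y M).trans ?_
    have k0 : |y 0| ≤ D^6 * (t^2 * w 0 ^ 11) * Z := by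
      simp only [hy]
      refine (f2_ansB_mul (f2_ansB_mul (hAsq 1) (f2_ansB_mul (le_of_eq (abs_of_pos ht)) (hgm 0)))
            (hE1 0)).trans ?_
      calc 1 * (t * (D * w 0 ^ 7)) * (D * t * w 0 ^ 4 * Z) = D^2 * (t^2 * w 0 ^ 11) * Z := by ring
        _ ≤ D^6 * (t^2 * w 0 ^ 11) * Z := by
          have : D^2 ≤ D^6 := pow_le_pow_right₀ hD (by norm_num)
          gcongr
    have k1 : ∀ m, |y (m+1) - y m| ≤ 7 * D^6 * (t^3 * w m^12 + t^2 * w m^14) * Z := by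
      intro m
      have h0 := hw0 m
      have h0' := hw0 (m+1)
      have hw := hwa m
      have e2 : y (m+1) - y m = (A (m+2) ^ 2 - A (m+1) ^ 2) * (t * g (m+2)) * E (m+1) +
          A (m+1) ^ 2 * (t * (g (m+2) - g (m+1))) * E (m+1) +
          A (m+1) ^ 2 * (t * g (m+1)) * (E (m+1) - E m) := by
        simp only [hy]
        ring
      rw [e2]
      have l1 : |A (m+2) ^ 2 - A (m+1) ^ 2| ≤ 3 * D^2 * (t * w m) := by
        have e3 : A (m+2) ^ 2 - A (m+1) ^ 2 = -(A (m+1) ^ 2 * (1 - (x (m+1))⁻¹ * (x (m+1))⁻¹)) := by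
          rw [hA (m+1)]; ring
        rw [e3, abs_neg]
        have l2 : D * t * w (m+1) ≤ D := by
          have := htwi (m+1)
          nlinarith
        have l3 := f2_ansB_inv_bd (a := D * t * w (m+1)) (D := D) (hx1 (m+1)) (hx1 (m+1)) (hx2 (m+1))
          (hx2 (m+1)) l2 (by positivity)
        refine (f2_ansB_mul (hAsq (m+1)) l3).trans ?_
        have l4 : (2 + D) * D ≤ 3 * D^2 := by nlinarith
        calc 1 * ((2 + D) * (D * t * w (m+1))) = ((2 + D) * D) * (t * w (m+1)) := by ring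
          _ ≤ (3 * D^2) * (t * w m) := by gcongr
      have l5 : |E (m+1)| ≤ D * t * w m ^ 4 * Z := by
        refine (hE1 (m+1)).trans ?_
        gcongr
      have l6 : |g (m+2)| ≤ D * w m ^ 7 := by
        refine (hgm (m+1)).trans ?_
        gcongr
      have l7 : |g (m+2) - g (m+1)| ≤ D * w m ^ 10 := by
        refine (hg2 (m+1)).trans ?_
        gcongr
      have n1 : |(A (m+2) ^ 2 - A (m+1) ^ 2) * (t * g (m+2)) * E (m+1)| ≤
          3 * D^4 * (t^3 * w m^12) * Z := by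
        refine (f2_ansB_mul (f2_ansB_mul l1 (f2_ansB_mul (le_of_eq (abs_of_pos ht)) l6)) l5).trans
          (le_of_eq ?_)
        ring
      have n2 : |A (m+1) ^ 2 * (t * (g (m+2) - g (m+1))) * E (m+1)| ≤
          D^2 * (t^2 * w m^14) * Z := by
        refine (f2_ansB_mul (f2_ansB_mul (hAsq (m+1)) (f2_ansB_mul (le_of_eq (abs_of_pos ht)) l7)) l5).trans
          (le_of_eq ?_)
        ring
      have n3 : |A (m+1) ^ 2 * (t * g (m+1)) * (E (m+1) - E m)| ≤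
          4 * D^4 * (t^3 * w m^12 + t^2 * w m^14) * Z := by
        refine (f2_ansB_mul (f2_ansB_mul (hAsq (m+1)) (f2_ansB_mul (le_of_eq (abs_of_pos ht)) (hgm m)))
          (hsig m)).trans (le_of_eq ?_)
        ring
      have hD26 : D^2 ≤ D^6 := pow_le_pow_right₀ hD (by norm_num)
      have hD46 : D^4 ≤ D^6 := pow_le_pow_right₀ hD (by norm_num)
      have q1 : D^4 * (t^3 * w m^12 * Z) ≤ D^6 * (t^3 * w m^12 * Z) := by gcongr
      have q2 : D^4 * (t^2 * w m^14 * Z) ≤ D^6 * (t^2 * w m^14 * Z) := by gcongr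
      have q3 : D^2 * (t^2 * w m^14 * Z) ≤ D^6 * (t^2 * w m^14 * Z) := by gcongr
      have q4 : 0 ≤ D^6 * (t^3 * w m^12 * Z) := by positivity
      have q5 : 0 ≤ D^6 * (t^2 * w m^14 * Z) := by positivity
      calc _ ≤ 3 * D^4 * (t^3 * w m^12) * Z + D^2 * (t^2 * w m^14) * Z +
            4 * D^4 * (t^3 * w m^12 + t^2 * w m^14) * Z := by
            refine (abs_add_le _ _).trans ?_
            gcongr
            refine (abs_add_le _ _).trans ?_
            gcongr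
        _ ≤ _ := by nlinarith
    have k2 : ∑ i ∈ Finset.range M, |y (i+1) - y i| ≤ 28 * D^6 * (t^2 * w 0^11) * Z := by
      have p3 : t^3 * w 0^9 ≤ t^2 * w 0^11 := by
        calc t^3 * w 0^9 = t^2 * (t * w 0 ^9) := by ring
          _ ≤ t^2 * (w 0 ^ 2 * w 0 ^ 9) := by gcongr
          _ = _ := by ring
      calc ∑ i ∈ Finset.range M, |y (i+1) - y i|
          ≤ ∑ i ∈ Finset.range M, 7 * D^6 * (t^3 * w i^12 + t^2 * w i^14) * Z :=
            Finset.sum_le_sum fun i _ => k1 i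
        _ = 7 * D^6 * Z * (t^3 * ∑ i ∈ Finset.range M, w i^(9+3) +
            t^2 * ∑ i ∈ Finset.range M, w i^(11+3)) := by
            rw [Finset.mul_sum, Finset.mul_sum, ← Finset.sum_add_distrib, Finset.mul_sum]
            apply Finset.sum_congr rfl
            intro i _
            ring
        _ ≤ 7 * D^6 * Z * (t^3 * (2 * w 0^9) + t^2 * (2 * w 0^11)) := by
            have := hsum 9 (by norm_num) M
            have := hsum 11 (by norm_num) M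
            gcongr
        _ = 14 * D^6 * Z * (t^3 * w 0^9 + t^2 * w 0^11) := by ring
        _ ≤ 14 * D^6 * Z * (t^2 * w 0^11 + t^2 * w 0^11) := by gcongr
        _ = _ := by ring
    linarith
  have h2' : |-(1/2) * (e * ∑ m ∈ Finset.range M, (-1)^m * y m)| ≤ 15 * D^6 * (t^2 * w 0 ^ 11) * Z := by
    rw [abs_mul, abs_mul, he1, one_mul, abs_neg, abs_of_pos (by norm_num : (0:ℝ) < 1/2)]
    have h5 : 0 ≤ D^6 * (t^2 * w 0 ^ 11) * Z := by positivity
    nlinarith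
  have h6 : 4 * (η * w 0 ^ 4) * Z ≤ 4 * D^6 * (η * w 0 ^ 4) * Z := by
    have : 0 ≤ η * w 0 ^ 4 := by positivity
    have : 1 ≤ D^6 := one_le_pow₀ hD
    gcongr
    linarith
  have h7 : 0 ≤ D^6 * (t^2 * w 0 ^ 11) * Z := by positivity
  have h8 : 0 ≤ D^6 * (η * w 0 ^ 4) * Z := by positivity
  refine (abs_add_le _ _).trans ?_
  have h9 := abs_add_le (-(1/2) * (e * ∑ m ∈ Finset.range M, (-1)^m * y m))
    (∑ m ∈ Finset.range M, A (m+1) ^ 2 * (t * g (m+1)) * R m)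
  nlinarith
set_option maxHeartbeats 4000000 in
theorem ansB (C₀ : ℝ) (hC : 0 < C₀) : ∃ (C₁ : ℝ) (K₀ : ℕ), 1 ≤ K₀ ∧
    ∀ (K : ℕ) (t η : ℝ) (X g ρ A ζ E : ℕ → ℝ), K₀ ≤ K → 0 < t → t * pw (-(2/3)) K ≤ 1 →
    0 ≤ η → η ≤ t →
    (∀ k ≥ K, 1 ≤ X k ∧ X k ≤ 1 + C₀ * t * pw (1/3) k ∧
      |X (k + 1) - X k| ≤ C₀ * t * pw (4/3) k) →
    (∀ k ≥ K, |g k| ≤ C₀ * pw (7/3) k ∧ |g (k + 1) - g k| ≤ C₀ * pw (10/3) k) →
    (∀ k ≥ K, |ρ k| ≤ η * pw (7/3) k) →
    (∀ k, A k = ∏ j ∈ Finset.Ico K k, (X j)⁻¹) →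
    (∀ k, E k = (-1 : ℝ) ^ k * (ζ k - ζ (k + 1))) →
    (∀ k ≥ K, 0 < ζ k ∧ ζ k ≤ 2 * ζ K) →
    (∀ k ≥ K, |E k| ≤ C₀ * t * pw (4/3) k * ζ K) →
    (∀ k ≥ K, E k = (X k)⁻¹ * (X (k + 1))⁻¹ * E (k + 1)
      - (X k)⁻¹ * (t * g (k + 1) + (-1 : ℝ) ^ (k + 1) * ρ (k + 1)) * ζ (k + 1)) →
    (X K)⁻¹ * E K = - ∑' m : ℕ, A (K + 1 + m) ^ 2 *
      (t * g (K + 1 + m) + (-1 : ℝ) ^ (K + 1 + m) * ρ (K + 1 + m)) * ζ (K + 1 + m) →
    |2 * E K + (ζ K + ζ (K + 1)) * X K * (t * ∑' m : ℕ, g (K + 1 + m) * A (K + 1 + m) ^ 2)| ≤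
      C₁ * (t ^ 2 * pw (11/3) K + η * pw (4/3) K) * ζ K := by
  refine ⟨600 * (1 + C₀)^7, 1, le_rfl, ?_⟩
  intro K t η X g ρ A ζ E hK ht htK hη0 hηt hX hg hρ hA hE hζ hE1 hrec hfin
  set D : ℝ := 1 + C₀ with hD
  have hD1 : 1 ≤ D := by rw [hD]; linarith
  have hCD : C₀ ≤ D := by rw [hD]; linarith
  have hD0 : 0 < D := by linarith
  have n4 : ∀ k, pw (4/3) k = pw (1/3) k ^ 4 := fun k => by
    rw [← f2_ansB_nat]; norm_num
  have n7 : ∀ k, pw (7/3) k = pw (1/3) k ^ 7 := fun k => by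
    rw [← f2_ansB_nat]; norm_num
  have n10 : ∀ k, pw (10/3) k = pw (1/3) k ^ 10 := fun k => by
    rw [← f2_ansB_nat]; norm_num
  have n11 : ∀ k, pw (11/3) k = pw (1/3) k ^ 11 := fun k => by
    rw [← f2_ansB_nat]; norm_num
  simp only [n4, n7, n10, n11] at *
  set w : ℕ → ℝ := fun i => pw (1/3) (K + i) with hw
  have hw0 : ∀ i, 0 < w i := fun i => f2_ansB_pos _ _
  have hwa : ∀ i, w (i+1) ≤ w i := fun i => f2_ansB_w_anti (K + i) (by omega)
  have hw1 : ∀ i, w i ≤ w 0 := by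
    intro i
    induction i with
    | zero => exact le_rfl
    | succ i ih => exact (hwa i).trans ih
  have hw2 : w 0 ≤ 1 := f2_ansB_w_le_one _
  have htw : t ≤ w 0 ^ 2 := by
    have h1 : pw (-(2/3)) K * w 0 ^ 2 = 1 := by
      simp only [hw, add_zero]
      rw [← f2_ansB_nat]
      unfold pw
      rw [← Real.exp_add]
      rw [show -(-(2 / 3) * Real.log (K : ℝ)) + -(((2 : ℕ) : ℝ) / 3 * Real.log (K : ℝ)) = 0 by
        push_cast; ring]
      exact Real.exp_zero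
    have h2 : 0 < w 0 ^ 2 := pow_pos (hw0 0) 2
    calc t = t * (pw (-(2/3)) K * w 0 ^ 2) := by rw [h1, mul_one]
      _ = (t * pw (-(2/3)) K) * w 0 ^ 2 := by ring
      _ ≤ 1 * w 0 ^ 2 := by gcongr
      _ = _ := one_mul _
  have hsum : ∀ s, 3 ≤ s → ∀ m, ∑ i ∈ Finset.range m, w i ^ (s + 3) ≤ 2 * w 0 ^ s :=
    fun s hs m => f2_ansB_sum s hs K hK m
  have hx1 : ∀ i, 1 ≤ X (K + i) := fun i => (hX (K+i) (by omega)).1
  have hAK : A K = 1 := by rw [hA]; simp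
  have hAs : ∀ i, A (K + (i + 1)) = A (K + i) * (X (K + i))⁻¹ := by
    intro i
    rw [hA, hA, ← add_assoc, Finset.prod_Ico_succ_top (by omega)]
  have hAi : ∀ i, 0 < A (K + i) ∧ A (K + i) ≤ 1 := by
    intro i
    induction i with
    | zero => rw [add_zero, hAK]; exact ⟨one_pos, le_rfl⟩
    | succ i ih =>
      rw [hAs]
      have h1 := hx1 i
      have h2 : 0 < (X (K + i))⁻¹ := by positivity
      have h3 : (X (K + i))⁻¹ ≤ 1 := inv_le_one_of_one_le₀ h1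
      exact ⟨mul_pos ih.1 h2, mul_le_one₀ ih.2 h2.le h3⟩
  have hZ : 0 < ζ K := (hζ K le_rfl).1
  have hpow : ∀ k : ℕ, ((-1 : ℝ)^k) * ((-1 : ℝ)^k) = 1 := by
    intro k
    rw [← mul_pow]; norm_num
  have hcore := f2_ansB_core D hD1 t η (ζ K) ((-1)^K) w (fun i => X (K+i)) (fun i => g (K+i))
    (fun i => ρ (K+i)) (fun i => A (K+i)) (fun i => ζ (K+i)) (fun i => E (K+i))
    (by rw [sq]; exact hpow K) ht hη0 hηt hZ hw0 hw1 hwa hw2 htw hsum hx1
    (by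
      intro i
      refine (hX (K+i) (by omega)).2.1.trans ?_
      have := hw0 i
      have h2 : pw (1/3) (K+i) = w i := rfl
      rw [h2]
      gcongr)
    (by
      intro i
      refine (hX (K+i) (by omega)).2.2.trans ?_
      have := hw0 i
      have h2 : pw (1/3) (K+i) = w i := rfl
      rw [h2]
      gcongr)
    (by
      intro i
      refine (hg (K+i) (by omega)).1.trans ?_
      have := hw0 i
      have h2 : pw (1/3) (K+i) = w i := rfl
      rw [h2]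
      gcongr)
    (by
      intro i
      refine (hg (K+i) (by omega)).2.trans ?_
      have := hw0 i
      have h2 : pw (1/3) (K+i) = w i := rfl
      rw [h2]
      gcongr)
    (fun i => hρ (K+i) (by omega))
    (fun i => (hAi i).1) (fun i => (hAi i).2) hAs
    (by
      intro i
      show ζ (K+i) - ζ (K + (i+1)) = (-1)^K * (-1)^i * E (K+i)
      rw [hE (K+i), ← pow_add, ← mul_assoc, hpow, one_mul]
      rfl)
    (fun i => (hζ (K+i) (by omega)).1) (fun i => (hζ (K+i) (by omega)).2)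
    (by
      intro i
      refine (hE1 (K+i) (by omega)).trans ?_
      have := hw0 i
      have h2 : pw (1/3) (K+i) = w i := rfl
      rw [h2]
      gcongr)
    (by
      intro i
      have h1 := hrec (K+i) (by omega)
      show E (K+i) = (X (K+i))⁻¹ * (X (K+(i+1)))⁻¹ * E (K+(i+1)) -
        (X (K+i))⁻¹ * (t * g (K+(i+1)) + (-1)^K * (-1)^(i+1) * ρ (K+(i+1))) * ζ (K+(i+1))
      rw [← pow_add]
      exact h1)
  
  have hw7 : Summable (fun m => w m ^ 7) := by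
    apply summable_of_sum_range_le (c := 2 * w 0 ^ 4)
    · intro m
      have := hw0 m
      positivity
    · intro m
      exact hsum 4 (by norm_num) m
  have hKm : ∀ m, K + 1 + m = K + (m + 1) := fun m => by ring
  have hgm : ∀ m, |g (K + (m+1))| ≤ C₀ * w m ^ 7 := by
    intro m
    refine (hg (K+(m+1)) (by omega)).1.trans ?_
    have h1 := hwa m
    have h2 := hw0 (m+1)
    have h3 : pw (1/3) (K+(m+1)) = w (m+1) := rfl
    rw [h3]
    gcongr
  have hρm : ∀ m, |ρ (K + (m+1))| ≤ η * w m ^ 7 := by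
    intro m
    refine (hρ (K+(m+1)) (by omega)).trans ?_
    have h1 := hwa m
    have h2 := hw0 (m+1)
    have h3 : pw (1/3) (K+(m+1)) = w (m+1) := rfl
    rw [h3]
    gcongr
  have hAsq : ∀ m, |A (K + (m+1)) ^ 2| ≤ 1 := by
    intro m
    have h1 := (hAi (m+1)).1
    have h2 := (hAi (m+1)).2
    rw [abs_of_pos (by positivity)]
    exact pow_le_one₀ h1.le h2
  have hG : Summable (fun m => g (K + 1 + m) * A (K + 1 + m) ^ 2) := by
    apply Summable.of_norm_bounded (g := fun m => C₀ * w m ^ 7) (hw7.mul_left _)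
    intro m
    rw [hKm, Real.norm_eq_abs]
    refine (f2_ansB_mul (hgm m) (hAsq m)).trans (le_of_eq (mul_one _))
  have hF : Summable (fun m => A (K + 1 + m) ^ 2 *
      (t * g (K + 1 + m) + (-1 : ℝ) ^ (K + 1 + m) * ρ (K + 1 + m)) * ζ (K + 1 + m)) := by
    apply Summable.of_norm_bounded (g := fun m => ((t * C₀ + η) * (2 * ζ K)) * w m ^ 7)
      (hw7.mul_left _)
    intro m
    rw [hKm, Real.norm_eq_abs]
    have h1 : |t * g (K + (m+1)) + (-1 : ℝ) ^ (K + (m+1)) * ρ (K + (m+1))| ≤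
        t * (C₀ * w m ^ 7) + 1 * (η * w m ^ 7) := by
      refine (abs_add_le _ _).trans (add_le_add (f2_ansB_mul (le_of_eq (abs_of_pos ht)) (hgm m))
        (f2_ansB_mul ?_ (hρm m)))
      rw [abs_pow, abs_neg, abs_one, one_pow]
    have h2 : |ζ (K + (m+1))| ≤ 2 * ζ K := by
      have := hζ (K + (m+1)) (by omega)
      rw [abs_of_pos this.1]
      exact this.2
    refine (f2_ansB_mul (f2_ansB_mul (hAsq m) h1) h2).trans (le_of_eq ?_)
    ring
  have hlim : |(∑' m : ℕ, A (K + 1 + m) ^ 2 *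
      (t * g (K + 1 + m) + (-1 : ℝ) ^ (K + 1 + m) * ρ (K + 1 + m)) * ζ (K + 1 + m)) -
      (ζ K + ζ (K+1)) / 2 * (t * ∑' m : ℕ, g (K + 1 + m) * A (K + 1 + m) ^ 2)| ≤
      150 * D^6 * (t^2 * w 0 ^ 11 + η * w 0 ^ 4) * ζ K := by
    have h1 := hF.hasSum.tendsto_sum_nat
    have h2 := hG.hasSum.tendsto_sum_nat
    have h3 := (h1.sub ((h2.const_mul t).const_mul ((ζ K + ζ (K+1)) / 2))).abs
    refine le_of_tendsto h3 (Filter.Eventually.of_forall fun M => ?_)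
    have h4 := hcore M
    simp only [hKm]
    simp only [← pow_add] at h4
    exact h4
  have e1 : 2 * E K + (ζ K + ζ (K + 1)) * X K * (t * ∑' m : ℕ, g (K + 1 + m) * A (K + 1 + m) ^ 2) =
      (-(2 * X K)) * ((∑' m : ℕ, A (K + 1 + m) ^ 2 *
      (t * g (K + 1 + m) + (-1 : ℝ) ^ (K + 1 + m) * ρ (K + 1 + m)) * ζ (K + 1 + m)) -
      (ζ K + ζ (K+1)) / 2 * (t * ∑' m : ℕ, g (K + 1 + m) * A (K + 1 + m) ^ 2)) := by
    have h1 : (∑' m : ℕ, A (K + 1 + m) ^ 2 *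
      (t * g (K + 1 + m) + (-1 : ℝ) ^ (K + 1 + m) * ρ (K + 1 + m)) * ζ (K + 1 + m)) =
        - ((X K)⁻¹ * E K) := by rw [hfin]; ring
    rw [h1]
    have h2 : X K ≠ 0 := by
      have := hx1 0
      rw [add_zero] at this
      intro h
      rw [h] at this
      linarith
    field_simp
    ring
  rw [e1, abs_mul, abs_neg]
  have hXK1 : 1 ≤ X K := by
    have := hx1 0
    rwa [add_zero] at this
  have hXK2 : X K ≤ 2 * D := by
    refine (hX K le_rfl).2.1.trans ?_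
    have h1 : pw (1/3) K = w 0 := rfl
    rw [h1]
    have h2 : t * w 0 ≤ 1 := by
      have := hw0 0
      have : t ≤ 1 := htw.trans (pow_le_one₀ (hw0 0).le hw2)
      nlinarith
    have h3 : C₀ * t * w 0 ≤ C₀ := by nlinarith
    linarith
  have h5 : |2 * X K| ≤ 4 * D := by
    rw [abs_of_pos (by positivity)]
    linarith
  have h6 := mul_le_mul h5 hlim (abs_nonneg _) (by positivity)
  refine h6.trans (le_of_eq ?_)
  have h7 : w 0 = pw (1/3) K := rfl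
  rw [h7]
  ring

end Pool.Agent.Helper615.LogA
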