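import Mathlib
import Pool.Agent.Helper615.LogA.Defs
set_option autoImplicit false

namespace Pool.Agent.Helper615.LogA

open Filter Asymptotics
theorem ph_aux_pw_pos (e : ℝ) (n : ℕ) : 0 < pw e n := Real.exp_pos _
theorem ph_aux_pw_mul (a b : ℝ) (n : ℕ) : pw a n * pw b n = pw (a + b) n := by
  unfold pw
  rw [← Real.exp_add]
  congr 1
  ring
theorem ph_aux_pw_anti {a b : ℝ} (h : a ≤ b) {n : ℕ} (hn : 1 ≤ n) : pw b n ≤ pw a n := by
  unfold pw
  apply Real.exp_le_exp.2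
  have h1 : 0 ≤ Real.log n := Real.log_nonneg (by exact_mod_cast hn)
  nlinarith
theorem ph_aux_pw_step {a : ℝ} (ha : 0 < a) {n : ℕ} (hn : 1 ≤ n) :
    pw (a + 1) (n + 1) ≤ (1 / a) * (pw a n - pw a (n + 1)) := by
  have hn0 : (0 : ℝ) < n := by exact_mod_cast hn
  have h1 : Real.log ((n : ℝ) / (n + 1)) ≤ (n : ℝ) / (n + 1) - 1 :=
    Real.log_le_sub_one_of_pos (by positivity)
  rw [Real.log_div (by positivity) (by positivity)] at h1
  have h2 : (n : ℝ) / (n + 1) - 1 = -(1 / ((n : ℝ) + 1)) := by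
    field_simp
    ring
  rw [h2] at h1
  have h3 : pw a n = pw a (n + 1) * Real.exp (a * (Real.log (n + 1) - Real.log n)) := by
    unfold pw
    rw [← Real.exp_add]
    push_cast
    congr 1
    ring
  have h4 : 1 + a * (1 / ((n : ℝ) + 1)) ≤ Real.exp (a * (Real.log (n + 1) - Real.log n)) := by
    refine le_trans ?_ (Real.add_one_le_exp _)
    have : a * (1 / ((n : ℝ) + 1)) ≤ a * (Real.log (n + 1) - Real.log n) :=
      mul_le_mul_of_nonneg_left (by linarith) ha.le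
    linarith
  have h5 : pw (a + 1) (n + 1) = pw a (n + 1) * (1 / ((n : ℝ) + 1)) := by
    rw [← ph_aux_pw_mul]
    congr 1
    unfold pw
    push_cast
    rw [one_mul, Real.exp_neg, Real.exp_log (by positivity), one_div]
  have h6 : pw a (n + 1) * (1 + a * (1 / ((n : ℝ) + 1))) ≤ pw a n := by
    rw [h3]
    exact mul_le_mul_of_nonneg_left h4 (ph_aux_pw_pos _ _).le
  rw [h5]
  have h7 : a * (pw a (n + 1) * (1 / ((n : ℝ) + 1))) ≤ pw a n - pw a (n + 1) := by
    nlinarith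
  calc pw a (n + 1) * (1 / ((n : ℝ) + 1)) = (1 / a) * (a * (pw a (n + 1) * (1 / ((n : ℝ) + 1)))) := by
        field_simp
    _ ≤ _ := mul_le_mul_of_nonneg_left h7 (by positivity)
theorem ph_aux_pw_tail' {a : ℝ} (ha : 0 < a) {K : ℕ} (hK : 1 ≤ K) (M : ℕ) :
    ∑ m ∈ Finset.range M, pw (a + 1) (K + 1 + m) ≤ (1 / a) * (pw a K - pw a (K + M)) := by
  induction M with
  | zero => simp
  | succ M ih =>
    rw [Finset.sum_range_succ]
    have h1 := ph_aux_pw_step ha (n := K + M) (by omega)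
    have e1 : K + 1 + M = K + M + 1 := by ring
    have e2 : K + (M + 1) = K + M + 1 := by ring
    rw [e1, e2]
    calc _ ≤ (1 / a) * (pw a K - pw a (K + M)) + (1 / a) * (pw a (K + M) - pw a (K + M + 1)) :=
          add_le_add ih h1
      _ = _ := by ring
theorem ph_aux_pw_tail {a : ℝ} (ha : 0 < a) {K : ℕ} (hK : 1 ≤ K) (M : ℕ) :
    ∑ m ∈ Finset.range M, pw (a + 1) (K + 1 + m) ≤ (1 / a) * pw a K := by
  refine (ph_aux_pw_tail' ha hK M).trans ?_
  apply mul_le_mul_of_nonneg_left _ (by positivity)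
  linarith [ph_aux_pw_pos a (K + M)]
theorem ph_aux_summable {a : ℝ} (ha : 0 < a) {K : ℕ} (hK : 1 ≤ K) :
    Summable (fun m : ℕ => pw (a + 1) (K + 1 + m)) ∧
      ∑' m : ℕ, pw (a + 1) (K + 1 + m) ≤ (1 / a) * pw a K := by
  have hs : Summable (fun m : ℕ => pw (a + 1) (K + 1 + m)) :=
    summable_of_sum_range_le (fun _ => (ph_aux_pw_pos _ _).le) (ph_aux_pw_tail ha hK)
  exact ⟨hs, hs.tsum_le_of_sum_range_le (ph_aux_pw_tail ha hK)⟩
theorem ph_aux_pw_Ico {a : ℝ} (ha : 0 < a) {K : ℕ} (hK : 1 ≤ K) (m : ℕ) :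
    ∑ j ∈ Finset.Ico K (K + 1 + m), pw (a + 1) j ≤ (1 + 1 / a) * pw a K := by
  rw [Finset.sum_Ico_eq_sum_range]
  have e : K + 1 + m - K = m + 1 := by omega
  rw [e, Finset.sum_range_succ', add_zero]
  have h1 := ph_aux_pw_tail ha hK m
  have h2 : ∑ i ∈ Finset.range m, pw (a + 1) (K + (i + 1)) =
      ∑ i ∈ Finset.range m, pw (a + 1) (K + 1 + i) := by
    apply Finset.sum_congr rfl
    intro i _
    congr 1
    ring
  rw [h2]
  have h3 : pw (a + 1) K ≤ pw a K := ph_aux_pw_anti (by linarith) hK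
  linarith
theorem ph_aux_tendsto : Tendsto (fun K : ℕ => pw (1/3) K) atTop (nhds 0) := by
  unfold pw
  have h1 : Tendsto (fun K : ℕ => (1/3 : ℝ) * Real.log (K : ℝ)) atTop atTop :=
    (Real.tendsto_log_atTop.comp tendsto_natCast_atTop_atTop).const_mul_atTop (by norm_num)
  exact Real.tendsto_exp_neg_atTop_nhds_zero.comp h1
theorem phase_sum (X Φ : ℕ → ℝ → ℝ) (g : ℕ → ℝ) (C : ℝ)
    (hX : ∀ᶠ n : ℕ in atTop, ∀ t : ℝ, 0 < t → t ≤ 1 → 1 ≤ X n t)
    (hg : ∀ᶠ n : ℕ in atTop, |g n| ≤ C * pw (7/3) n)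
    (hΦ : ∀ᶠ n : ℕ in atTop, ∀ t : ℝ, 0 < t → t ≤ 1 →
      |Real.log (X n t) - 1 / 2 * (Φ (n + 1) t - Φ n t)| ≤ C * (t ^ 4 * pw (4/3) n + t * pw 11 n)) :
    ∃ C' : ℝ, ∀ᶠ K : ℕ in atTop, ∀ t : ℝ, 0 < t → t * pw (-(2/3)) K ≤ 1 →
      |t * (∑' m : ℕ, g (K + 1 + m) * (∏ j ∈ Finset.Ico K (K + 1 + m), (X j t)⁻¹) ^ 2)
        - Real.exp (Φ K t) * (t * ∑' m : ℕ, g (K + 1 + m) * Real.exp (-Φ (K + 1 + m) t))| ≤
        C' * (t ^ 5 * pw (5/3) K + t * pw 8 K) := by
  obtain ⟨K0, hK0⟩ := eventually_atTop.1 (hX.and (hg.and hΦ))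
  have hC : 0 ≤ C := by
    have h1 := (hK0 K0 le_rfl).2.1
    have h2 := ph_aux_pw_pos (7/3) K0
    by_contra hcon
    push Not at hcon
    have h3 := abs_nonneg (g K0)
    nlinarith
  have hsm : ∀ᶠ K : ℕ in atTop, 12 * C * pw (1/3) K < 1 := by
    have h1 := ph_aux_tendsto.const_mul (12 * C)
    rw [mul_zero] at h1
    exact h1.eventually (gt_mem_nhds one_pos)
  refine ⟨12 * C ^ 2, ?_⟩
  filter_upwards [hsm, eventually_ge_atTop K0, eventually_ge_atTop 1] with K hKs hKK hK1 t ht htK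
  have ht1 : t ≤ 1 := by
    have h1 : (1 : ℝ) ≤ pw (-(2/3)) K := by
      have := ph_aux_pw_anti (a := -(2/3)) (b := 0) (by norm_num) hK1
      have h0 : pw 0 K = 1 := by simp [pw]
      rw [h0] at this
      exact this
    nlinarith
  set δ : ℝ := 2 * C * (4 * (t ^ 4 * pw (1/3) K) + 11 / 10 * (t * pw 10 K)) with hδ
  have hp13 := ph_aux_pw_pos (1/3) K
  have hp10 := ph_aux_pw_pos 10 K
  have hδ0 : 0 ≤ δ := by positivity
  have ht4 : t ^ 4 ≤ 1 := pow_le_one₀ ht.le ht1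
  have hδ1 : δ ≤ 1 := by
    have h1 : pw 10 K ≤ pw (1/3) K := ph_aux_pw_anti (by norm_num) hK1
    have h2 : t ^ 4 * pw (1/3) K ≤ pw (1/3) K := by nlinarith
    have h3 : t * pw 10 K ≤ pw (1/3) K := by nlinarith
    have h4 : 4 * (t ^ 4 * pw (1/3) K) + 11 / 10 * (t * pw 10 K) ≤ 6 * pw (1/3) K := by linarith
    have h5 : δ ≤ 2 * C * (6 * pw (1/3) K) := mul_le_mul_of_nonneg_left h4 (by positivity)
    linarith
  
  set P : ℕ → ℝ := fun m => (∏ j ∈ Finset.Ico K (K + 1 + m), (X j t)⁻¹) ^ 2 with hP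
  set Ex : ℕ → ℝ := fun m => Real.exp (Φ K t - Φ (K + 1 + m) t) with hEx
  have hX1 : ∀ j, K ≤ j → 1 ≤ X j t := fun j hj => (hK0 j (hKK.trans hj)).1 t ht ht1
  have hP0 : ∀ m, 0 ≤ P m := fun m => by positivity
  have hP1 : ∀ m, P m ≤ 1 := by
    intro m
    have h1 : ∏ j ∈ Finset.Ico K (K + 1 + m), (X j t)⁻¹ ≤ 1 := by
      apply Finset.prod_le_one
      · intro j hj
        have := hX1 j (Finset.mem_Ico.1 hj).1
        positivity
      · intro j hj
        exact inv_le_one_of_one_le₀ (hX1 j (Finset.mem_Ico.1 hj).1)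
    have h0 : 0 ≤ ∏ j ∈ Finset.Ico K (K + 1 + m), (X j t)⁻¹ := by
      apply Finset.prod_nonneg
      intro j hj
      have := hX1 j (Finset.mem_Ico.1 hj).1
      positivity
    exact pow_le_one₀ h0 h1
  have hkey : ∀ m, ∃ x : ℝ, |x| ≤ δ ∧ Ex m = P m * Real.exp x := by
    intro m
    set L : ℝ := ∑ j ∈ Finset.Ico K (K + 1 + m), Real.log (X j t) with hL
    have hPL : P m = Real.exp (-(2 * L)) := by
      have h1 : ∏ j ∈ Finset.Ico K (K + 1 + m), (X j t)⁻¹ = Real.exp (-L) := by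
        rw [hL, ← Finset.sum_neg_distrib, Real.exp_sum]
        apply Finset.prod_congr rfl
        intro j hj
        have := hX1 j (Finset.mem_Ico.1 hj).1
        rw [Real.exp_neg, Real.exp_log (by linarith)]
      rw [hP]
      simp only
      rw [h1, ← Real.exp_nat_mul]
      congr 1
      push_cast
      ring
    refine ⟨2 * L - (Φ (K + 1 + m) t - Φ K t), ?_, ?_⟩
    · have h2 : Φ (K + 1 + m) t - Φ K t =
          ∑ j ∈ Finset.Ico K (K + 1 + m), (Φ (j + 1) t - Φ j t) := by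
        rw [Finset.sum_Ico_sub (fun j => Φ j t) (by omega)]
      rw [h2, hL, Finset.mul_sum, ← Finset.sum_sub_distrib]
      calc |∑ j ∈ Finset.Ico K (K + 1 + m), (2 * Real.log (X j t) - (Φ (j + 1) t - Φ j t))|
          ≤ ∑ j ∈ Finset.Ico K (K + 1 + m), |2 * Real.log (X j t) - (Φ (j + 1) t - Φ j t)| :=
            Finset.abs_sum_le_sum_abs _ _
        _ ≤ ∑ j ∈ Finset.Ico K (K + 1 + m), 2 * (C * (t ^ 4 * pw (4/3) j + t * pw 11 j)) := by
            apply Finset.sum_le_sum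
            intro j hj
            have h3 := (hK0 j (hKK.trans (Finset.mem_Ico.1 hj).1)).2.2 t ht ht1
            have e : 2 * Real.log (X j t) - (Φ (j + 1) t - Φ j t) =
                2 * (Real.log (X j t) - 1 / 2 * (Φ (j + 1) t - Φ j t)) := by ring
            rw [e, abs_mul, abs_two]
            linarith
        _ = 2 * C * (t ^ 4 * ∑ j ∈ Finset.Ico K (K + 1 + m), pw (4/3) j +
              t * ∑ j ∈ Finset.Ico K (K + 1 + m), pw 11 j) := by
            rw [Finset.mul_sum, Finset.mul_sum, ← Finset.sum_add_distrib, Finset.mul_sum]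
            apply Finset.sum_congr rfl
            intro j _
            ring
        _ ≤ δ := by
            have h4 := ph_aux_pw_Ico (a := 1/3) (by norm_num) hK1 m
            have h5 := ph_aux_pw_Ico (a := 10) (by norm_num) hK1 m
            norm_num at h4 h5
            rw [hδ]
            apply mul_le_mul_of_nonneg_left _ (by positivity)
            have h6 : t ^ 4 * ∑ j ∈ Finset.Ico K (K + 1 + m), pw (4/3) j ≤ t ^ 4 * (4 * pw (1/3) K) :=
              mul_le_mul_of_nonneg_left h4 (by positivity)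
            have h7 : t * ∑ j ∈ Finset.Ico K (K + 1 + m), pw 11 j ≤ t * (11 / 10 * pw 10 K) :=
              mul_le_mul_of_nonneg_left h5 ht.le
            linarith
    · rw [hPL, hEx, ← Real.exp_add]
      simp only
      congr 1
      ring
  have hdiff : ∀ m, |P m - Ex m| ≤ 2 * δ := by
    intro m
    obtain ⟨x, hx, he⟩ := hkey m
    rw [he]
    have e : P m - P m * Real.exp x = -(P m * (Real.exp x - 1)) := by ring
    rw [e, abs_neg, abs_mul, abs_of_nonneg (hP0 m)]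
    have h1 := Real.abs_exp_sub_one_le (hx.trans hδ1)
    calc P m * |Real.exp x - 1| ≤ 1 * (2 * |x|) :=
          mul_le_mul (hP1 m) h1 (abs_nonneg _) zero_le_one
      _ ≤ 2 * δ := by linarith
  obtain ⟨hs, htail⟩ := ph_aux_summable (a := 4/3) (by norm_num) hK1
  norm_num at hs htail
  have hgb : ∀ m, |g (K + 1 + m)| ≤ C * pw (7/3) (K + 1 + m) := fun m =>
    (hK0 (K + 1 + m) (by omega)).2.1
  have hs' := hs.mul_left C
  have hsP : Summable (fun m => g (K + 1 + m) * P m) := by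
    apply Summable.of_norm_bounded hs'
    intro m
    rw [norm_mul, Real.norm_eq_abs, Real.norm_eq_abs, abs_of_nonneg (hP0 m)]
    calc |g (K + 1 + m)| * P m ≤ |g (K + 1 + m)| * 1 :=
          mul_le_mul_of_nonneg_left (hP1 m) (abs_nonneg _)
      _ ≤ _ := by rw [mul_one]; exact hgb m
  have hsD : Summable (fun m => g (K + 1 + m) * (P m - Ex m)) := by
    apply Summable.of_norm_bounded (hs'.mul_right (2 * δ))
    intro m
    rw [norm_mul, Real.norm_eq_abs, Real.norm_eq_abs]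
    exact mul_le_mul (hgb m) (hdiff m) (abs_nonneg _) ((abs_nonneg _).trans (hgb m))
  have hsE : Summable (fun m => g (K + 1 + m) * Ex m) := by
    have h1 := hsP.sub hsD
    refine h1.congr ?_
    intro m
    ring
  have hB : Real.exp (Φ K t) * (t * ∑' m : ℕ, g (K + 1 + m) * Real.exp (-Φ (K + 1 + m) t)) =
      t * ∑' m, g (K + 1 + m) * Ex m := by
    have e : ∀ m, g (K + 1 + m) * Ex m =
        Real.exp (Φ K t) * (g (K + 1 + m) * Real.exp (-Φ (K + 1 + m) t)) := by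
      intro m
      rw [hEx]
      simp only
      rw [sub_eq_add_neg, Real.exp_add]
      ring
    simp_rw [e]
    rw [tsum_mul_left]
    ring
  rw [hB, ← mul_sub, ← hsP.tsum_sub hsE]
  have e2 : ∀ m, g (K + 1 + m) * P m - g (K + 1 + m) * Ex m = g (K + 1 + m) * (P m - Ex m) :=
    fun m => by ring
  simp_rw [e2]
  rw [abs_mul, abs_of_pos ht]
  have h8 : |∑' m, g (K + 1 + m) * (P m - Ex m)| ≤ 3 / 4 * pw (4/3) K * (C * (2 * δ)) := by
    rw [← Real.norm_eq_abs]
    refine (norm_tsum_le_tsum_norm hsD.norm).trans ?_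
    calc ∑' m, ‖g (K + 1 + m) * (P m - Ex m)‖
        ≤ ∑' m, pw (7/3) (K + 1 + m) * (C * (2 * δ)) := by
          apply Summable.tsum_le_tsum _ hsD.norm (hs.mul_right _)
          intro m
          rw [norm_mul, Real.norm_eq_abs, Real.norm_eq_abs]
          calc |g (K + 1 + m)| * |P m - Ex m| ≤ (C * pw (7/3) (K + 1 + m)) * (2 * δ) :=
                mul_le_mul (hgb m) (hdiff m) (abs_nonneg _) ((abs_nonneg _).trans (hgb m))
            _ = _ := by ring
      _ = (∑' m, pw (7/3) (K + 1 + m)) * (C * (2 * δ)) := tsum_mul_right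
      _ ≤ _ := mul_le_mul_of_nonneg_right htail (by positivity)
  have h9 : t * (3 / 4 * pw (4/3) K * (C * (2 * δ))) =
      12 * C ^ 2 * (t ^ 5 * pw (5/3) K) + 33 / 10 * C ^ 2 * (t ^ 2 * pw (34/3) K) := by
    have e3 : pw (5/3) K = pw (4/3) K * pw (1/3) K := by rw [ph_aux_pw_mul]; norm_num
    have e4 : pw (34/3) K = pw (4/3) K * pw 10 K := by rw [ph_aux_pw_mul]; norm_num
    rw [e3, e4, hδ]
    ring
  have h10 : t ^ 2 * pw (34/3) K ≤ t * pw 8 K := by
    have h11 : pw (34/3) K ≤ pw 8 K := ph_aux_pw_anti (by norm_num) hK1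
    have h12 := ph_aux_pw_pos (34/3) K
    have h13 : t ^ 2 ≤ t := by nlinarith
    calc t ^ 2 * pw (34/3) K ≤ t * pw (34/3) K := mul_le_mul_of_nonneg_right h13 h12.le
      _ ≤ _ := mul_le_mul_of_nonneg_left h11 ht.le
  have h14 := mul_le_mul_of_nonneg_left h8 ht.le
  rw [h9] at h14
  refine h14.trans ?_
  have h15 : 33 / 10 * C ^ 2 * (t ^ 2 * pw (34/3) K) ≤ 12 * C ^ 2 * (t * pw 8 K) := by
    have h16 : 0 ≤ t ^ 2 * pw (34/3) K := by
      have := ph_aux_pw_pos (34/3) K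
      positivity
    have h17 : 0 ≤ C ^ 2 := sq_nonneg C
    nlinarith [mul_le_mul_of_nonneg_left h10 h17, mul_nonneg h17 h16]
  linarith

end Pool.Agent.Helper615.LogA
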