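import Mathlib
import Pool.Agent.Helper615.LogA.Defs
import Pool.Agent.Helper615.LogA.P1
import Pool.Agent.Helper615.LogA.E2
import Pool.Agent.Helper615.LogA.Ph
import Pool.Agent.Helper615.LogA.F1
import Pool.Agent.Helper615.LogA.F2
set_option autoImplicit false

namespace Pool.Agent.Helper615.LogA

open Filter Asymptotics
theorem s1_pw_pos (e : ℝ) (n : ℕ) : 0 < pw e n := Real.exp_pos _
theorem s1_pw_mul (e e' : ℝ) (n : ℕ) : pw e n * pw e' n = pw (e + e') n := by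
  unfold pw
  rw [← Real.exp_add]
  congr 1
  ring
theorem s1_pw_antitone_exp {e e' : ℝ} (h : e ≤ e') (n : ℕ) : pw e' n ≤ pw e n := by
  unfold pw
  apply Real.exp_le_exp.2
  have := Real.log_natCast_nonneg n
  nlinarith
theorem s1_pw_zero (n : ℕ) : pw 0 n = 1 := by
  unfold pw; simp
theorem s1_pw_le_one {e : ℝ} (he : 0 ≤ e) (n : ℕ) : pw e n ≤ 1 := by
  rw [← s1_pw_zero n]
  exact s1_pw_antitone_exp he n
theorem s1_log_nat_mono {m n : ℕ} (h : m ≤ n) : Real.log m ≤ Real.log n := by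
  rcases Nat.eq_zero_or_pos m with h0 | h0
  · subst h0
    simp
    exact Real.log_natCast_nonneg n
  · exact Real.log_le_log (by exact_mod_cast h0) (by exact_mod_cast h)
theorem s1_pw_antitone {e : ℝ} (he : 0 ≤ e) {m n : ℕ} (h : m ≤ n) : pw e n ≤ pw e m := by
  unfold pw
  apply Real.exp_le_exp.2
  have := mul_le_mul_of_nonneg_left (s1_log_nat_mono h) he
  linarith
theorem s1_pw_pred {e : ℝ} (he : 0 ≤ e) {n : ℕ} (hn : 1 ≤ n) :
    pw e n ≤ Real.exp (e * Real.log 2) * pw e (n + 1) := by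
  unfold pw
  rw [← Real.exp_add]
  apply Real.exp_le_exp.2
  have hn' : (1 : ℝ) ≤ n := by exact_mod_cast hn
  have h1 : Real.log ((n + 1 : ℕ) : ℝ) ≤ Real.log 2 + Real.log n := by
    rw [← Real.log_mul (by norm_num) (by positivity)]
    apply Real.log_le_log (by positivity)
    push_cast
    linarith
  have := mul_le_mul_of_nonneg_left h1 he
  linarith
theorem s1_pw_tendsto {e : ℝ} (he : 0 < e) : Tendsto (pw e) atTop (nhds 0) := by
  have h1 : Tendsto (fun n : ℕ => e * Real.log n) atTop atTop :=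
    (Real.tendsto_log_atTop.comp tendsto_natCast_atTop_atTop).const_mul_atTop he
  exact Real.tendsto_exp_neg_atTop_nhds_zero.comp h1
theorem s1_bigO_pw {u : ℕ → ℝ} {e : ℝ} (h : u =O[atTop] pw e) :
    ∃ C : ℝ, 0 < C ∧ ∃ N : ℕ, ∀ n ≥ N, |u n| ≤ C * pw e n := by
  obtain ⟨c, hc⟩ := h.bound
  obtain ⟨N, hN⟩ := eventually_atTop.1 hc
  refine ⟨max c 1, lt_max_of_lt_right one_pos, N, fun n hn => ?_⟩
  have := hN n hn
  rw [Real.norm_eq_abs, Real.norm_eq_abs, abs_of_pos (s1_pw_pos e n)] at this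
  exact this.trans (mul_le_mul_of_nonneg_right (le_max_left _ _) (s1_pw_pos e n).le)
theorem stage1 (f₀ δ g₀ : ℝ) (hf₀ : 0 < f₀) (hδ : 0 < δ) (hδ' : δ ≤ 1 / 4) (f g h : ℕ → ℝ)
    (hf : (f - f₀ • pw (1/3)) ∈ PW (1/3 + δ)) (hg : (g - g₀ • pw (7/3)) ∈ PW (7/3 + δ))
    (hfg : (fun k => h k - f k - (-1 : ℝ) ^ k * g k) =O[atTop] pw 10)
    (x : ℕ → ℕ → ℝ) (h0 : ∀ n, x 0 n = 1) (hx : ∀ p : ℕ, 1 ≤ p → x p ∈ PW (p / 3))
    (h1 : (x 1 - (f₀ / 2) • pw (1/3)) ∈ PW (1/3 + δ))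
    (hr : ∀ p : ℕ, 1 ≤ p → p ≤ 6 →
      (fun n => ∑ i ∈ Finset.range (p + 1), x i n * x (p - i) (n + 1) - f (n + 1) * x (p - 1) (n + 1))
        =O[atTop] pw 12)
    (Φ : ℕ → ℝ → ℝ) (CΦ : ℝ) (hΦ : ∀ᶠ n : ℕ in atTop, ∀ t : ℝ, 0 < t → t ≤ 1 →
      |Real.log (XX x n t) - 1 / 2 * (Φ (n + 1) t - Φ n t)| ≤ CΦ * (t ^ 4 * pw (4/3) n + t * pw 11 n))
    (z : ℕ → ℝ → ℝ) (Cz : ℝ) (hz : ∀ t : ℝ, 0 < t → ∀ k, 0 < z k t)
    (hzr : ∀ t : ℝ, 0 < t → ∀ k, z k t - z (k + 2) t = t * h (k + 1) * z (k + 1) t)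
    (hh : ∀ k, 1 ≤ k → 0 < h k) (hzb : ∀ t : ℝ, 0 < t → t ≤ 1 → ∀ k, z k t ≤ Cz) :
    ∃ C : ℝ, ∀ᶠ K : ℕ in atTop, ∀ t : ℝ, 0 < t → t * pw (-(2/3)) K ≤ 1 →
      |2 * (-1 : ℝ) ^ K * (z K t - XX x K t * z (K + 1) t)
        + (z K t + XX x K t * z (K + 1) t) * XX x K t *
          (Real.exp (Φ K t) * (t * ∑' m : ℕ, g (K + 1 + m) * Real.exp (-Φ (K + 1 + m) t)))| ≤
        C * (t * pw (13/3) K) := by
  obtain ⟨c₁, CX, hc₁, hCX, hXb⟩ := XX_bounds f₀ δ hf₀ hδ hδ' x h0 hx h1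
  obtain ⟨N1, hN1⟩ := eventually_atTop.1 hXb
  obtain ⟨CR, hCR⟩ := XX_residual f₀ δ hf₀ hδ hδ' f hf x h0 hx h1 hr
  obtain ⟨N2, hN2⟩ := eventually_atTop.1 hCR
  have hgPW : g ∈ PW (7/3) := by
    have h2 : g₀ • pw (7/3) ∈ PW (7/3) :=
      Submodule.smul_mem _ _ (Submodule.subset_span ⟨7/3, le_rfl, rfl⟩)
    have h3 := PW.mono (show (7/3:ℝ) ≤ 7/3 + δ by linarith) hg
    have := add_mem h3 h2
    simpa using this
  obtain ⟨Cg, hCg, N3, hN3⟩ := s1_bigO_pw (PW.isBigO hgPW)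
  obtain ⟨Cg', hCg', N4, hN4⟩ := s1_bigO_pw (PW.diff_isBigO hgPW)
  rw [show (7/3 + 1 : ℝ) = 10/3 by norm_num] at hN4
  obtain ⟨Ch, hCh, N5, hN5⟩ := s1_bigO_pw hfg
  have hXone : ∀ n ≥ N1, ∀ t : ℝ, 0 < t → t ≤ 1 → 1 ≤ XX x n t := by
    intro n hn t ht ht1
    have h2 := (hN1 n hn t ht ht1).1
    have h3 := mul_pos (mul_pos hc₁ ht) (s1_pw_pos (1/3) n)
    linarith
  obtain ⟨CP, hCP⟩ := phase_sum (XX x) Φ g (max CΦ Cg)
    (eventually_atTop.2 ⟨N1, hXone⟩)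
    (eventually_atTop.2 ⟨N3, fun n hn => (hN3 n hn).trans
      (mul_le_mul_of_nonneg_right (le_max_right _ _) (s1_pw_pos _ n).le)⟩)
    (hΦ.mono fun n hn t ht ht1 => (hn t ht ht1).trans
      (mul_le_mul_of_nonneg_right (le_max_left _ _)
        (by have := s1_pw_pos (4/3) n; have := s1_pw_pos 11 n; positivity)))
  obtain ⟨N6, hN6⟩ := eventually_atTop.1 hCP
  obtain ⟨C₀, hC₀def⟩ : ∃ C₀ : ℝ, C₀ = CX + Cg + Cg' := ⟨_, rfl⟩
  have hC₀ : 0 < C₀ := by rw [hC₀def]; positivity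
  obtain ⟨C₁, KA, hKA, hA⟩ := ansA c₁ C₀ hc₁ hC₀
  obtain ⟨D₀, hD₀def⟩ : ∃ D₀ : ℝ, D₀ = C₀ + |C₁| := ⟨_, rfl⟩
  have hD₀ : 0 < D₀ := by rw [hD₀def]; positivity
  obtain ⟨C₂, KB, hKB, hB⟩ := ansB D₀ hD₀
  obtain ⟨a, ha⟩ : ∃ a : ℝ, a = Real.exp (7/3 * Real.log 2) := ⟨_, rfl⟩
  obtain ⟨b, hb⟩ : ∃ b : ℝ, b = Real.exp (11 * Real.log 2) := ⟨_, rfl⟩
  have ha0 : 0 < a := by rw [ha]; exact Real.exp_pos _
  have hb0 : 0 < b := by rw [hb]; exact Real.exp_pos _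
  obtain ⟨C', hC'⟩ : ∃ C' : ℝ, C' = Ch + |CR| * a + |CR| * b := ⟨_, rfl⟩
  have hC'0 : 0 < C' := by rw [hC']; positivity
  have hCz : 0 < Cz := (hz 1 one_pos 0).trans_le (hzb 1 one_pos le_rfl 0)
  have hlim : ∀ᶠ K : ℕ in atTop, 2 * C' * pw 4 K ≤ 1 := by
    have h2 := (s1_pw_tendsto (by norm_num : (0:ℝ) < 4)).const_mul (2 * C')
    rw [mul_zero] at h2
    exact h2.eventually_le_const one_pos
  refine ⟨|C₂| * Cz * (1 + 2 * C') + (2 + CX) * (1 + CX) * Cz * (|CP| * 2), ?_⟩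
  filter_upwards [hlim, eventually_ge_atTop (N1 + N2 + N3 + N4 + N5 + N6 + KA + KB + 2)]
    with K hK4 hKge t ht htK
  have ht23 : t ≤ pw (2/3) K := by
    have e1 : pw (-(2/3)) K * pw (2/3) K = 1 := by
      rw [s1_pw_mul, neg_add_cancel, s1_pw_zero]
    calc t = t * (pw (-(2/3)) K * pw (2/3) K) := by rw [e1, mul_one]
      _ = t * pw (-(2/3)) K * pw (2/3) K := by ring
      _ ≤ 1 * pw (2/3) K := mul_le_mul_of_nonneg_right htK (s1_pw_pos _ _).le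
      _ = pw (2/3) K := one_mul _
  have ht1 : t ≤ 1 := ht23.trans (s1_pw_le_one (by norm_num) K)
  have ht4 : t ^ 4 ≤ pw (8/3) K := by
    calc t ^ 4 ≤ (pw (2/3) K) ^ 4 := pow_le_pow_left₀ ht.le ht23 4
      _ = pw (8/3) K := by
        rw [show (pw (2/3) K) ^ 4 = pw (2/3) K * pw (2/3) K * (pw (2/3) K * pw (2/3) K) by ring,
          s1_pw_mul, s1_pw_mul]
        norm_num
  have ht6 : t ^ 6 ≤ pw 4 K := by
    calc t ^ 6 ≤ (pw (2/3) K) ^ 6 := pow_le_pow_left₀ ht.le ht23 6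
      _ = pw 4 K := by
        rw [show (pw (2/3) K) ^ 6 = pw (2/3) K * pw (2/3) K * (pw (2/3) K * pw (2/3) K)
          * (pw (2/3) K * pw (2/3) K) by ring,
          s1_pw_mul, s1_pw_mul, s1_pw_mul]
        norm_num
  obtain ⟨η, hη⟩ : ∃ η : ℝ, η = C' * (t ^ 7 + t * pw 7 K) := ⟨_, rfl⟩
  have hη0 : 0 ≤ η := by
    rw [hη]
    have := s1_pw_pos 7 K
    positivity
  have hηt : η ≤ t := by
    rw [hη]
    have e1 : pw 7 K ≤ pw 4 K := s1_pw_antitone_exp (by norm_num) K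
    have e2 : C' * (t ^ 6 + pw 7 K) ≤ 1 := by
      calc C' * (t ^ 6 + pw 7 K) ≤ C' * (pw 4 K + pw 4 K) :=
            mul_le_mul_of_nonneg_left (add_le_add ht6 e1) hC'0.le
        _ = 2 * C' * pw 4 K := by ring
        _ ≤ 1 := hK4
    calc C' * (t ^ 7 + t * pw 7 K) = t * (C' * (t ^ 6 + pw 7 K)) := by ring
      _ ≤ t * 1 := mul_le_mul_of_nonneg_left e2 ht.le
      _ = t := mul_one t
  obtain ⟨X, hX⟩ : ∃ X : ℕ → ℝ, ∀ k, X k = XX x k t := ⟨_, fun k => rfl⟩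
  obtain ⟨Z, hZ⟩ : ∃ Z : ℕ → ℝ, ∀ k, Z k = z k t := ⟨_, fun k => rfl⟩
  obtain ⟨ρ, hρdef⟩ : ∃ ρ : ℕ → ℝ, ∀ k, ρ k = t * h k - (-1 : ℝ) ^ k * (t * g k)
      - (X (k - 1) - (X k)⁻¹) := ⟨_, fun k => rfl⟩
  obtain ⟨A, hAdef⟩ : ∃ A : ℕ → ℝ, ∀ k, A k = ∏ j ∈ Finset.Ico K k, (X j)⁻¹ := ⟨_, fun k => rfl⟩
  obtain ⟨ζ, hζdef⟩ : ∃ ζ : ℕ → ℝ, ∀ k, ζ k = Z k / A k := ⟨_, fun k => rfl⟩
  obtain ⟨E, hEdef⟩ : ∃ E : ℕ → ℝ, ∀ k, E k = (-1 : ℝ) ^ k * (ζ k - ζ (k + 1)) :=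
    ⟨_, fun k => rfl⟩
  have hρ : ∀ k ≥ K, |ρ k| ≤ η * pw (7/3) k := by
    intro k hk
    obtain ⟨j, rfl⟩ : ∃ j, k = j + 1 := ⟨k - 1, by omega⟩
    have e1 := hN5 (j + 1) (by omega)
    have e2 := hN2 j (by omega) t ht ht1
    have e3 : ρ (j + 1) = t * (h (j + 1) - f (j + 1) - (-1 : ℝ) ^ (j + 1) * g (j + 1))
        - (XX x j t - (XX x (j + 1) t)⁻¹ - t * f (j + 1)) := by
      rw [hρdef, Nat.add_sub_cancel, hX, hX]; ring
    rw [e3]
    have e4 : |t * (h (j + 1) - f (j + 1) - (-1 : ℝ) ^ (j + 1) * g (j + 1))| ≤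
        t * (Ch * pw 10 (j + 1)) := by
      rw [abs_mul, abs_of_pos ht]
      exact mul_le_mul_of_nonneg_left e1 ht.le
    have q1 : pw 7 (j + 1) ≤ pw 7 K := s1_pw_antitone (by norm_num) hk
    have s1 : pw 10 (j + 1) ≤ pw (7/3) (j + 1) * pw 7 K := by
      calc pw 10 (j + 1) = pw (7/3) (j + 1) * pw (23/3) (j + 1) := by rw [s1_pw_mul]; norm_num
        _ ≤ pw (7/3) (j + 1) * pw 7 (j + 1) :=
          mul_le_mul_of_nonneg_left (s1_pw_antitone_exp (by norm_num) _) (s1_pw_pos _ _).le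
        _ ≤ pw (7/3) (j + 1) * pw 7 K := mul_le_mul_of_nonneg_left q1 (s1_pw_pos _ _).le
    have s2 : pw (7/3) j ≤ a * pw (7/3) (j + 1) := by
      rw [ha]; exact s1_pw_pred (by norm_num) (by omega)
    have s3 : pw 11 j ≤ b * (pw (7/3) (j + 1) * pw 7 K) := by
      have e5 : pw 11 j ≤ b * pw 11 (j + 1) := by
        rw [hb]; exact s1_pw_pred (by norm_num) (by omega)
      refine e5.trans (mul_le_mul_of_nonneg_left ?_ hb0.le)
      exact (s1_pw_antitone_exp (by norm_num) _).trans s1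
    have p1 := s1_pw_pos (7/3) (j + 1)
    have p2 := s1_pw_pos 7 K
    have p3 := s1_pw_pos (7/3) j
    have p4 := s1_pw_pos 11 j
    calc |t * (h (j + 1) - f (j + 1) - (-1 : ℝ) ^ (j + 1) * g (j + 1))
        - (XX x j t - (XX x (j + 1) t)⁻¹ - t * f (j + 1))|
        ≤ |t * (h (j + 1) - f (j + 1) - (-1 : ℝ) ^ (j + 1) * g (j + 1))|
          + |XX x j t - (XX x (j + 1) t)⁻¹ - t * f (j + 1)| := abs_sub _ _
      _ ≤ t * (Ch * pw 10 (j + 1)) + CR * (t ^ 7 * pw (7/3) j + t * pw 11 j) := add_le_add e4 e2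
      _ ≤ t * (Ch * pw 10 (j + 1)) + |CR| * (t ^ 7 * pw (7/3) j + t * pw 11 j) := by
          gcongr
          exact le_abs_self CR
      _ ≤ t * (Ch * (pw (7/3) (j + 1) * pw 7 K)) + |CR| * (t ^ 7 * (a * pw (7/3) (j + 1))
            + t * (b * (pw (7/3) (j + 1) * pw 7 K))) := by
          gcongr
      _ ≤ η * pw (7/3) (j + 1) := by
          rw [hη, hC']
          have r1 : 0 ≤ Ch * t ^ 7 * pw (7/3) (j + 1) := by positivity
          have r2 : 0 ≤ |CR| * a * t * pw (7/3) (j + 1) * pw 7 K := by positivity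
          have r3 : 0 ≤ |CR| * b * t ^ 7 * pw (7/3) (j + 1) := by positivity
          nlinarith [r1, r2, r3]
  have hXk : ∀ k ≥ K, 1 + c₁ * t * pw (1/3) k ≤ X k ∧ X k ≤ 1 + CX * t * pw (1/3) k ∧
      |X (k + 1) - X k| ≤ CX * t * pw (4/3) k := by
    intro k hk
    rw [hX, hX]
    exact hN1 k (by omega) t ht ht1
  have hX1 : ∀ k ≥ K, 1 ≤ X k := by
    intro k hk
    rw [hX]
    exact hXone k (by omega) t ht ht1
  have hgk : ∀ k ≥ K, |g k| ≤ Cg * pw (7/3) k := fun k hk => hN3 k (by omega)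
  have hgk' : ∀ k ≥ K, |g (k + 1) - g k| ≤ Cg' * pw (10/3) k := fun k hk => hN4 k (by omega)
  have hcC0 : CX ≤ C₀ := by rw [hC₀def]; linarith
  have hcg : Cg ≤ C₀ := by rw [hC₀def]; linarith
  have hcg' : Cg' ≤ C₀ := by rw [hC₀def]; linarith
  have hC0D : C₀ ≤ D₀ := by rw [hD₀def]; linarith [abs_nonneg C₁]
  have hC1D : C₁ ≤ D₀ := by rw [hD₀def]; linarith [le_abs_self C₁]
  obtain ⟨oa, ob, oc, od⟩ := hA K t η X Z g ρ A ζ E (by omega) ht htK hη0 hηt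
    (fun k hk => ⟨(hXk k hk).1, (hXk k hk).2.1.trans (by
      have := s1_pw_pos (1/3) k
      gcongr)⟩)
    (fun k hk => (hgk k hk).trans (mul_le_mul_of_nonneg_right hcg (s1_pw_pos _ _).le))
    hρ
    (fun k hk => by
      refine ⟨by rw [hZ]; exact hz t ht k, ?_⟩
      have e1 := hzr t ht k
      have e2 := mul_pos (mul_pos ht (hh (k + 1) (by omega))) (hz t ht (k + 1))
      rw [hZ, hZ]
      linarith)
    (fun k hk => by
      rw [hZ, hZ, hZ, hzr t ht k, hρdef, Nat.add_sub_cancel]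
      ring)
    hAdef hζdef hEdef
  have oB := hB K t η X g ρ A ζ E (by omega) ht htK hη0 hηt
    (fun k hk => ⟨hX1 k hk, (hXk k hk).2.1.trans (by
      have := s1_pw_pos (1/3) k
      have := hcC0.trans hC0D
      gcongr), (hXk k hk).2.2.trans (by
      have := s1_pw_pos (4/3) k
      have := hcC0.trans hC0D
      gcongr)⟩)
    (fun k hk => ⟨(hgk k hk).trans (mul_le_mul_of_nonneg_right (hcg.trans hC0D) (s1_pw_pos _ _).le),
      (hgk' k hk).trans (mul_le_mul_of_nonneg_right (hcg'.trans hC0D) (s1_pw_pos _ _).le)⟩)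
    hρ hAdef hEdef oa
    (fun k hk => (ob k hk).trans (by
      have e1 := s1_pw_pos (4/3) k
      have e2 := (oa K le_rfl).1
      gcongr))
    oc od
  have hζK : ζ K = Z K := by rw [hζdef, hAdef]; simp
  have hXKpos : 0 < X K := lt_of_lt_of_le one_pos (hX1 K le_rfl)
  have hζK1 : ζ (K + 1) = X K * Z (K + 1) := by
    rw [hζdef, hAdef]
    have e1 : Finset.Ico K (K + 1) = {K} := by
      ext i; simp
    rw [e1, Finset.prod_singleton, div_inv_eq_mul, mul_comm]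
  have hZK : Z K ≤ Cz := by rw [hZ]; exact hzb t ht ht1 K
  have hZK1 : Z (K + 1) ≤ Cz := by rw [hZ]; exact hzb t ht ht1 (K + 1)
  have hZp : 0 < Z K := by rw [hZ]; exact hz t ht K
  have hZp1 : 0 < Z (K + 1) := by rw [hZ]; exact hz t ht (K + 1)
  have hXKle : X K ≤ 1 + CX := by
    refine (hXk K le_rfl).2.1.trans ?_
    have e1 : t * pw (1/3) K ≤ 1 * 1 :=
      mul_le_mul ht1 (s1_pw_le_one (by norm_num) K) (s1_pw_pos _ _).le zero_le_one
    nlinarith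
  have hph := hN6 K (by omega) t ht htK
  have hsum : t * (∑' m : ℕ, g (K + 1 + m) * (∏ j ∈ Finset.Ico K (K + 1 + m), (XX x j t)⁻¹) ^ 2)
      = t * ∑' m : ℕ, g (K + 1 + m) * A (K + 1 + m) ^ 2 := by
    congr 1
    apply tsum_congr
    intro m
    rw [hAdef]
    simp only [hX]
  rw [hsum] at hph
  rw [hEdef, hζK, hζK1] at oB
  rw [← hX K, ← hZ K, ← hZ (K + 1)]
  obtain ⟨S, hS⟩ : ∃ S : ℝ, S = t * ∑' m : ℕ, g (K + 1 + m) * A (K + 1 + m) ^ 2 := ⟨_, rfl⟩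
  obtain ⟨T, hT⟩ : ∃ T : ℝ, T = Real.exp (Φ K t) *
      (t * ∑' m : ℕ, g (K + 1 + m) * Real.exp (-Φ (K + 1 + m) t)) := ⟨_, rfl⟩
  rw [← hS] at oB hph
  rw [← hT] at hph ⊢
  have p43 := s1_pw_pos (4/3) K
  have p133 := s1_pw_pos (13/3) K
  have b1 : t ^ 2 * pw (11/3) K ≤ t * pw (13/3) K := by
    calc t ^ 2 * pw (11/3) K = t * (t * pw (11/3) K) := by ring
      _ ≤ t * (pw (2/3) K * pw (11/3) K) := by
          have := s1_pw_pos (11/3) K
          gcongr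
      _ = t * pw (13/3) K := by rw [s1_pw_mul]; norm_num
  have b2 : η * pw (4/3) K ≤ 2 * C' * (t * pw (13/3) K) := by
    rw [hη]
    have c1 : t ^ 7 * pw (4/3) K ≤ t * pw (13/3) K := by
      calc t ^ 7 * pw (4/3) K = t * (t ^ 6 * pw (4/3) K) := by ring
        _ ≤ t * (pw 4 K * pw (4/3) K) := by gcongr
        _ = t * pw (16/3) K := by rw [s1_pw_mul]; norm_num
        _ ≤ t * pw (13/3) K := mul_le_mul_of_nonneg_left (s1_pw_antitone_exp (by norm_num) K) ht.le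
    have c2 : t * pw 7 K * pw (4/3) K ≤ t * pw (13/3) K := by
      calc t * pw 7 K * pw (4/3) K = t * (pw 7 K * pw (4/3) K) := by ring
        _ = t * pw (25/3) K := by rw [s1_pw_mul]; norm_num
        _ ≤ t * pw (13/3) K := mul_le_mul_of_nonneg_left (s1_pw_antitone_exp (by norm_num) K) ht.le
    calc C' * (t ^ 7 + t * pw 7 K) * pw (4/3) K
        = C' * (t ^ 7 * pw (4/3) K + t * pw 7 K * pw (4/3) K) := by ring
      _ ≤ C' * (t * pw (13/3) K + t * pw (13/3) K) :=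
          mul_le_mul_of_nonneg_left (add_le_add c1 c2) hC'0.le
      _ = 2 * C' * (t * pw (13/3) K) := by ring
  have b3 : t ^ 5 * pw (5/3) K + t * pw 8 K ≤ 2 * (t * pw (13/3) K) := by
    have c1 : t ^ 5 * pw (5/3) K ≤ t * pw (13/3) K := by
      calc t ^ 5 * pw (5/3) K = t * (t ^ 4 * pw (5/3) K) := by ring
        _ ≤ t * (pw (8/3) K * pw (5/3) K) := by
            have := s1_pw_pos (5/3) K
            gcongr
        _ = t * pw (13/3) K := by rw [s1_pw_mul]; norm_num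
    have c2 : t * pw 8 K ≤ t * pw (13/3) K :=
      mul_le_mul_of_nonneg_left (s1_pw_antitone_exp (by norm_num) K) ht.le
    linarith
  have key1 : |2 * ((-1 : ℝ) ^ K * (Z K - X K * Z (K + 1))) + (Z K + X K * Z (K + 1)) * X K * S|
      ≤ |C₂| * Cz * (1 + 2 * C') * (t * pw (13/3) K) := by
    refine oB.trans ?_
    have p113 := s1_pw_pos (11/3) K
    calc C₂ * (t ^ 2 * pw (11/3) K + η * pw (4/3) K) * Z K
        ≤ |C₂| * (t ^ 2 * pw (11/3) K + η * pw (4/3) K) * Cz := by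
          gcongr
          exact le_abs_self C₂
      _ ≤ |C₂| * (t * pw (13/3) K + 2 * C' * (t * pw (13/3) K)) * Cz := by gcongr
      _ = |C₂| * Cz * (1 + 2 * C') * (t * pw (13/3) K) := by ring
  have key2 : |(Z K + X K * Z (K + 1)) * X K * (S - T)| ≤
      (2 + CX) * (1 + CX) * Cz * (|CP| * 2) * (t * pw (13/3) K) := by
    rw [abs_mul]
    have d1 : 0 < (Z K + X K * Z (K + 1)) * X K := by positivity
    rw [abs_of_pos d1]
    have d2 : (Z K + X K * Z (K + 1)) * X K ≤ (Cz + (1 + CX) * Cz) * (1 + CX) := by gcongr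
    have p53 := s1_pw_pos (5/3) K
    have p8 := s1_pw_pos 8 K
    have d3 : |S - T| ≤ |CP| * (2 * (t * pw (13/3) K)) := by
      refine hph.trans ?_
      calc CP * (t ^ 5 * pw (5/3) K + t * pw 8 K) ≤ |CP| * (t ^ 5 * pw (5/3) K + t * pw 8 K) := by
            gcongr
            exact le_abs_self CP
        _ ≤ |CP| * (2 * (t * pw (13/3) K)) := by gcongr
    calc (Z K + X K * Z (K + 1)) * X K * |S - T|
        ≤ ((Cz + (1 + CX) * Cz) * (1 + CX)) * (|CP| * (2 * (t * pw (13/3) K))) :=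
          mul_le_mul d2 d3 (abs_nonneg _) (by positivity)
      _ = (2 + CX) * (1 + CX) * Cz * (|CP| * 2) * (t * pw (13/3) K) := by ring
  have hfin : 2 * (-1 : ℝ) ^ K * (Z K - X K * Z (K + 1)) + (Z K + X K * Z (K + 1)) * X K * T
      = (2 * ((-1 : ℝ) ^ K * (Z K - X K * Z (K + 1))) + (Z K + X K * Z (K + 1)) * X K * S)
        - (Z K + X K * Z (K + 1)) * X K * (S - T) := by ring
  rw [hfin]
  refine (abs_sub _ _).trans ?_
  calc _ ≤ |C₂| * Cz * (1 + 2 * C') * (t * pw (13/3) K)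
        + (2 + CX) * (1 + CX) * Cz * (|CP| * 2) * (t * pw (13/3) K) := add_le_add key1 key2
    _ = _ := by ring

end Pool.Agent.Helper615.LogA
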