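import Mathlib
import Pool.Agent.Helper615.LogA.Defs
set_option autoImplicit false

namespace Pool.Agent.Helper615.LogA

open Filter Asymptotics
noncomputable def g3_pco (h : ℕ → ℝ) (α β : ℝ) : ℕ → ℕ → ℝ
  | 0, j => if j = 0 then α else 0
  | 1, j => if j = 0 then β else 0
  | (k+2), 0 => g3_pco h α β k 0
  | (k+2), (j+1) => g3_pco h α β k (j+1) - h (k+1) * g3_pco h α β (k+1) j
  termination_by k _ => k
noncomputable def g3_SS (h : ℕ → ℝ) (k : ℕ) : ℝ := ∑ i ∈ Finset.range k, if i = 0 then 0 else |h i|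
theorem g3_SS_succ (h : ℕ → ℝ) (k : ℕ) : g3_SS h (k + 2) = g3_SS h (k + 1) + |h (k + 1)| := by
  unfold g3_SS
  rw [Finset.sum_range_succ]
  simp
theorem g3_SS_zero (h : ℕ → ℝ) : g3_SS h 0 = 0 := by simp [g3_SS]
theorem g3_SS_one (h : ℕ → ℝ) : g3_SS h 1 = 0 := by simp [g3_SS]
theorem g3_SS_nonneg (h : ℕ → ℝ) (k : ℕ) : 0 ≤ g3_SS h k := by
  unfold g3_SS
  apply Finset.sum_nonneg
  intro i _
  split_ifs
  · exact le_rfl
  · exact abs_nonneg _
theorem g3_SS_mono (h : ℕ → ℝ) (k : ℕ) : g3_SS h k ≤ g3_SS h (k + 1) := by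
  unfold g3_SS
  rw [Finset.sum_range_succ]
  have : 0 ≤ (if k = 0 then 0 else |h k|) := by
    split_ifs
    · exact le_rfl
    · exact abs_nonneg _
  linarith
theorem g3_pw_facts {K : ℕ} (hK : 1 ≤ K) : 0 < pw (-(1/3)) K ∧ pw (-(1/3)) K ^ 3 = K ∧
    pw (-(2/3)) K = pw (-(1/3)) K ^ 2 ∧ pw (1/3) K * pw (-(1/3)) K = 1 := by
  have hK0 : (0:ℝ) < K := by exact_mod_cast hK
  refine ⟨Real.exp_pos _, ?_, ?_, ?_⟩
  · unfold pw
    rw [← Real.exp_nat_mul]
    have : ((3:ℕ):ℝ) * -(-(1/3) * Real.log K) = Real.log K := by push_cast; ring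
    rw [this, Real.exp_log hK0]
  · unfold pw
    rw [← Real.exp_nat_mul]
    congr 1
    push_cast
    ring
  · unfold pw
    rw [← Real.exp_add]
    have : -((1/3) * Real.log K) + -(-(1/3) * Real.log K) = 0 := by ring
    rw [this, Real.exp_zero]
theorem g3_pw_step {K : ℕ} (hK : 1 ≤ K) :
    3 * pw (-(2/3)) K + pw (1/3) K ≤ 3 * pw (-(2/3)) (K + 1) ∧
    pw (-(2/3)) (K + 1) ≤ 4 * pw (-(2/3)) K := by
  obtain ⟨y0, y3, y2, yi⟩ := g3_pw_facts hK
  obtain ⟨x0, x3, x2, xi⟩ := g3_pw_facts (K := K + 1) (by omega)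
  rw [y2, x2]
  set y := pw (-(1/3)) K
  set x := pw (-(1/3)) (K + 1)
  have hK1 : (1:ℝ) ≤ K := by exact_mod_cast hK
  push_cast at x3
  have hxy : x ^ 3 = y ^ 3 + 1 := by rw [x3, y3]
  have h1 : y < x := by
    by_contra hc
    push Not at hc
    have : x ^ 3 ≤ y ^ 3 := by gcongr
    linarith
  have h2 : x ≤ 2 * y := by
    by_contra hc
    push Not at hc
    have : (2 * y) ^ 3 ≤ x ^ 3 := by gcongr
    nlinarith
  constructor
  · have h3 : pw (1/3) K = 1 / y := by
      field_simp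
      exact yi
    rw [h3]
    have h4 : 1 / y ≤ 3 * (x ^ 2 - y ^ 2) := by
      rw [div_le_iff₀ y0]
      
      have h5 : (1:ℝ) = (x - y) * (x ^ 2 + x * y + y ^ 2) := by ring_nf; linarith
      have h6 : x ^ 2 + x * y + y ^ 2 ≤ 3 * (x + y) * y := by nlinarith
      have h7 : 0 ≤ x - y := by linarith
      have h8 := mul_le_mul_of_nonneg_left h6 h7
      nlinarith
    linarith
  · nlinarith
theorem g3_SS_le {h : ℕ → ℝ} {C : ℝ} (hh : ∀ k, 1 ≤ k → |h k| ≤ C * pw (1/3) k) {k : ℕ}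
    (hk : 1 ≤ k) : g3_SS h k ≤ 3 * |C| * pw (-(2/3)) k := by
  induction k, hk using Nat.le_induction with
  | base =>
    rw [g3_SS_one]
    have : 0 < pw (-(2/3)) 1 := Real.exp_pos _
    positivity
  | succ k hk ih =>
    have h1 : g3_SS h (k + 1) = g3_SS h k + |h k| := by
      unfold g3_SS
      rw [Finset.sum_range_succ, if_neg (by omega)]
    rw [h1]
    have h2 := hh k hk
    have h3 : 0 < pw (1/3) k := Real.exp_pos _
    have h4 : C * pw (1/3) k ≤ |C| * pw (1/3) k := by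
      have := le_abs_self C
      gcongr
    have h5 := (g3_pw_step hk).1
    have h6 := mul_le_mul_of_nonneg_left h5 (abs_nonneg C)
    linarith
theorem g3_pco_le (h : ℕ → ℝ) (α β : ℝ) (k : ℕ) : ∀ j,
    |g3_pco h α β k j| ≤ (max |α| |β|) * g3_SS h k ^ j ∧
    |g3_pco h α β (k + 1) j| ≤ (max |α| |β|) * g3_SS h (k + 1) ^ j := by
  have hM : 0 ≤ max |α| |β| := le_max_of_le_left (abs_nonneg _)
  induction k with
  | zero =>
    intro j
    rw [g3_SS_zero, g3_SS_one, g3_pco, g3_pco]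
    rcases Nat.eq_zero_or_pos j with hj | hj
    · subst hj
      simp
    · rw [if_neg (by omega), if_neg (by omega), abs_zero, zero_pow (by omega), mul_zero]
      simp
  | succ k ih =>
    intro j
    refine ⟨(ih j).2, ?_⟩
    have e : k + 1 + 1 = k + 2 := rfl
    rw [e]
    cases j with
    | zero =>
      rw [g3_pco]
      have := (ih 0).1
      simpa using this
    | succ j =>
      rw [g3_pco]
      have h1 := (ih (j + 1)).1
      have h2 := (ih j).2
      have h3 := g3_SS_mono h k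
      have h4 := g3_SS_nonneg h k
      have h5 := g3_SS_nonneg h (k + 1)
      have h6 : g3_SS h k ^ (j + 1) ≤ g3_SS h (k + 1) ^ (j + 1) := by gcongr
      calc |g3_pco h α β k (j + 1) - h (k + 1) * g3_pco h α β (k + 1) j|
          ≤ |g3_pco h α β k (j + 1)| + |h (k + 1)| * |g3_pco h α β (k + 1) j| := by
            rw [← abs_mul]
            exact abs_sub _ _
        _ ≤ (max |α| |β|) * g3_SS h (k + 1) ^ (j + 1) +
            |h (k + 1)| * ((max |α| |β|) * g3_SS h (k + 1) ^ j) := by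
            gcongr
            exact h1.trans (by gcongr)
        _ = (max |α| |β|) * (g3_SS h (k + 1) ^ j * g3_SS h (k + 2)) := by
            rw [g3_SS_succ]
            ring
        _ ≤ (max |α| |β|) * (g3_SS h (k + 2) ^ j * g3_SS h (k + 2)) := by
            have h7 := g3_SS_mono h (k + 1)
            have h8 := g3_SS_nonneg h (k + 2)
            have e2 : k + 1 + 1 = k + 2 := rfl
            rw [e2] at h7
            gcongr
        _ = _ := by ring
noncomputable def g3_Rm (h : ℕ → ℝ) (α β : ℝ) (Z : ℕ → ℝ → ℝ) (k n : ℕ) (t : ℝ) : ℝ :=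
  Z k t - ∑ j ∈ Finset.range n, g3_pco h α β k j * t ^ j
theorem g3_Rm_rec {h : ℕ → ℝ} {α β : ℝ} {Z : ℕ → ℝ → ℝ}
    (hr : ∀ k t, Z (k + 2) t = Z k t - t * h (k + 1) * Z (k + 1) t) (k n : ℕ) (t : ℝ) :
    g3_Rm h α β Z (k + 2) (n + 1) t = g3_Rm h α β Z k (n + 1) t -
      t * h (k + 1) * g3_Rm h α β Z (k + 1) n t := by
  unfold g3_Rm
  rw [hr, Finset.sum_range_succ', Finset.sum_range_succ' (n := n) (f := fun j => g3_pco h α β k j * t ^ j)]
  have h1 : ∑ j ∈ Finset.range n, g3_pco h α β (k + 2) (j + 1) * t ^ (j + 1) =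
      ∑ j ∈ Finset.range n, g3_pco h α β k (j + 1) * t ^ (j + 1) -
      t * h (k + 1) * ∑ j ∈ Finset.range n, g3_pco h α β (k + 1) j * t ^ j := by
    rw [Finset.mul_sum, ← Finset.sum_sub_distrib]
    apply Finset.sum_congr rfl
    intro j _
    rw [g3_pco]
    ring
  have h2 : g3_pco h α β (k + 2) 0 = g3_pco h α β k 0 := by rw [g3_pco]
  rw [h1, h2]
  ring
theorem g3_Rm_le {h : ℕ → ℝ} {α β : ℝ} {Z : ℕ → ℝ → ℝ} (h0 : ∀ t, Z 0 t = α) (h1 : ∀ t, Z 1 t = β)
    (hr : ∀ k t, Z (k + 2) t = Z k t - t * h (k + 1) * Z (k + 1) t) {t : ℝ} (ht : 0 < t) (k : ℕ) :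
    ∀ n, |g3_Rm h α β Z k n t| ≤ (max |α| |β|) * Real.exp (t * g3_SS h k) * (t * g3_SS h k) ^ n ∧
    |g3_Rm h α β Z (k + 1) n t| ≤
      (max |α| |β|) * Real.exp (t * g3_SS h (k + 1)) * (t * g3_SS h (k + 1)) ^ n := by
  have hM : 0 ≤ max |α| |β| := le_max_of_le_left (abs_nonneg _)
  induction k with
  | zero =>
    intro n
    rw [g3_SS_zero, g3_SS_one]
    unfold g3_Rm
    rw [h0, h1]
    cases n with
    | zero => simp
    | succ n =>
      rw [Finset.sum_range_succ', Finset.sum_range_succ']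
      have e1 : ∀ j, g3_pco h α β 0 (j + 1) = 0 := fun j => by rw [g3_pco, if_neg (by omega)]
      have e2 : ∀ j, g3_pco h α β (0 + 1) (j + 1) = 0 := fun j => by
        rw [zero_add, g3_pco, if_neg (by omega)]
      have e3 : g3_pco h α β 0 0 = α := by rw [g3_pco, if_pos rfl]
      have e4 : g3_pco h α β (0 + 1) 0 = β := by rw [zero_add, g3_pco, if_pos rfl]
      simp [e1, e2, e3, e4]
  | succ k ih =>
    intro n
    refine ⟨(ih n).2, ?_⟩
    have e : k + 1 + 1 = k + 2 := rfl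
    rw [e]
    have s1 := g3_SS_mono h k
    have s2 := g3_SS_nonneg h k
    have s3 := g3_SS_nonneg h (k + 1)
    have s4 := g3_SS_mono h (k + 1)
    rw [e] at s4
    have s5 := g3_SS_nonneg h (k + 2)
    cases n with
    | zero =>
      have e1 : g3_Rm h α β Z (k + 2) 0 t = g3_Rm h α β Z k 0 t - t * h (k + 1) * g3_Rm h α β Z (k + 1) 0 t := by
        simp [g3_Rm, hr]
      rw [e1, pow_zero, mul_one]
      have i1 := (ih 0).1
      have i2 := (ih 0).2
      rw [pow_zero, mul_one] at i1 i2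
      calc |g3_Rm h α β Z k 0 t - t * h (k + 1) * g3_Rm h α β Z (k + 1) 0 t|
          ≤ |g3_Rm h α β Z k 0 t| + t * |h (k + 1)| * |g3_Rm h α β Z (k + 1) 0 t| := by
            refine (abs_sub _ _).trans ?_
            rw [abs_mul, abs_mul, abs_of_pos ht]
        _ ≤ (max |α| |β|) * Real.exp (t * g3_SS h (k + 1)) +
            t * |h (k + 1)| * ((max |α| |β|) * Real.exp (t * g3_SS h (k + 1))) := by
            gcongr
            exact i1.trans (by gcongr)
        _ = (max |α| |β|) * (Real.exp (t * g3_SS h (k + 1)) * (t * |h (k + 1)| + 1)) := by ring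
        _ ≤ (max |α| |β|) * (Real.exp (t * g3_SS h (k + 1)) * Real.exp (t * |h (k + 1)|)) := by
            gcongr
            exact Real.add_one_le_exp _
        _ = _ := by
            rw [← Real.exp_add, g3_SS_succ]
            ring_nf
    | succ n =>
      rw [g3_Rm_rec hr]
      have i1 := (ih (n + 1)).1
      have i2 := (ih n).2
      calc |g3_Rm h α β Z k (n + 1) t - t * h (k + 1) * g3_Rm h α β Z (k + 1) n t|
          ≤ |g3_Rm h α β Z k (n + 1) t| + t * |h (k + 1)| * |g3_Rm h α β Z (k + 1) n t| := by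
            refine (abs_sub _ _).trans ?_
            rw [abs_mul, abs_mul, abs_of_pos ht]
        _ ≤ (max |α| |β|) * Real.exp (t * g3_SS h (k + 2)) * (t * g3_SS h (k + 1)) ^ (n + 1) +
            t * |h (k + 1)| * ((max |α| |β|) * Real.exp (t * g3_SS h (k + 2)) *
              (t * g3_SS h (k + 1)) ^ n) := by
            gcongr
            · refine i1.trans ?_
              have : g3_SS h k ≤ g3_SS h (k + 2) := s1.trans s4
              gcongr
            · refine i2.trans ?_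
              gcongr
        _ = (max |α| |β|) * Real.exp (t * g3_SS h (k + 2)) *
            ((t * g3_SS h (k + 1)) ^ n * (t * g3_SS h (k + 2))) := by
            rw [g3_SS_succ]
            ring
        _ ≤ (max |α| |β|) * Real.exp (t * g3_SS h (k + 2)) *
            ((t * g3_SS h (k + 2)) ^ n * (t * g3_SS h (k + 2))) := by
            gcongr
        _ = _ := by ring
theorem g3_pco_zero (h : ℕ → ℝ) (α β : ℝ) (k : ℕ) :
    g3_pco h α β k 0 = (if Even k then α else β) ∧
    g3_pco h α β (k + 1) 0 = (if Even k then β else α) := by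
  induction k with
  | zero =>
    constructor
    · rw [g3_pco]
      simp
    · rw [zero_add, g3_pco]
      simp
  | succ k ih =>
    constructor
    · rw [ih.2]
      by_cases hk : Even k
      · rw [if_pos hk, if_neg]
        rw [Nat.even_add_one]
        exact not_not.2 hk
      · rw [if_neg hk, if_pos]
        rw [Nat.even_add_one]
        exact hk
    · have e : k + 1 + 1 = k + 2 := rfl
      rw [e, g3_pco, ih.1]
      by_cases hk : Even k
      · rw [if_pos hk, if_neg]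
        rw [Nat.even_add_one]
        exact not_not.2 hk
      · rw [if_neg hk, if_pos]
        rw [Nat.even_add_one]
        exact hk
theorem poly_an (h : ℕ → ℝ) (C : ℝ) (hh : ∀ k, 1 ≤ k → |h k| ≤ C * pw (1/3) k) (α β : ℝ)
    (Z : ℕ → ℝ → ℝ) (h0 : ∀ t, Z 0 t = α) (h1 : ∀ t, Z 1 t = β)
    (hr : ∀ k t, Z (k + 2) t = Z k t - t * h (k + 1) * Z (k + 1) t) :
    An Z ∧ An (fun K t => Z (K + 1) t) ∧ ∃ C' : ℝ, ∀ (K : ℕ) (t : ℝ), 1 ≤ K → 0 < t →
      t * pw (-(2/3)) K ≤ 1 →
      |Z K t - (if Even K then α else β)| ≤ C' * (t * pw (-(2/3)) K) ∧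
      |Z (K + 1) t - (if Even K then β else α)| ≤ C' * (t * pw (-(2/3)) K) := by
  have hM : 0 ≤ max |α| |β| := le_max_of_le_left (abs_nonneg _)
  set M := max |α| |β| with hMdef
  set D : ℝ := 12 * |C| + 1 with hD
  have hD1 : 1 ≤ D := by
    rw [hD]
    have := abs_nonneg C
    linarith
  have hS1 : ∀ K : ℕ, 1 ≤ K → g3_SS h (K + 1) ≤ D * pw (-(2/3)) K := by
    intro K hK
    have a1 := g3_SS_le hh (k := K + 1) (by omega)
    have a2 := (g3_pw_step hK).2
    have a3 : 0 < pw (-(2/3)) K := Real.exp_pos _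
    have a4 := mul_le_mul_of_nonneg_left a2 (show 0 ≤ 3 * |C| by positivity)
    rw [hD]
    nlinarith
  have hS0 : ∀ K : ℕ, 1 ≤ K → g3_SS h K ≤ D * pw (-(2/3)) K := fun K hK =>
    (g3_SS_mono h K).trans (hS1 K hK)
  
  have key : ∀ s : ℕ, (∀ K : ℕ, 1 ≤ K → g3_SS h (K + s) ≤ D * pw (-(2/3)) K) → ∀ (n K : ℕ), 1 ≤ K →
      (∀ j ≤ n, |g3_pco h α β (K + s) j| ≤ (M * Real.exp D * D ^ n) * pw (-(2/3)) K ^ j) ∧
      ∀ t : ℝ, 0 < t → t * pw (-(2/3)) K ≤ 1 →
        |g3_Rm h α β Z (K + s) n t| ≤ (M * Real.exp D * D ^ n) * (t * pw (-(2/3)) K) ^ n := by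
    intro s hs n K hK
    have hL : 0 < pw (-(2/3)) K := Real.exp_pos _
    have hSn := g3_SS_nonneg h (K + s)
    have hSb := hs K hK
    constructor
    · intro j hj
      refine ((g3_pco_le h α β (K + s) j).1).trans ?_
      rw [← hMdef]
      have b1 : g3_SS h (K + s) ^ j ≤ (D * pw (-(2/3)) K) ^ j := by gcongr
      have b2 : D ^ j ≤ D ^ n := pow_le_pow_right₀ hD1 hj
      have b3 : (1:ℝ) ≤ Real.exp D := Real.one_le_exp (by linarith)
      calc M * g3_SS h (K + s) ^ j ≤ M * (D * pw (-(2/3)) K) ^ j := by gcongr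
        _ = M * 1 * D ^ j * pw (-(2/3)) K ^ j := by rw [mul_pow]; ring
        _ ≤ M * Real.exp D * D ^ n * pw (-(2/3)) K ^ j := by gcongr
    · intro t ht htL
      refine ((g3_Rm_le h0 h1 hr ht (K + s) n).1).trans ?_
      rw [← hMdef]
      have b1 : t * g3_SS h (K + s) ≤ D * (t * pw (-(2/3)) K) := by nlinarith
      have b2 : t * g3_SS h (K + s) ≤ D := by nlinarith
      have b3 : 0 ≤ t * g3_SS h (K + s) := by positivity
      calc M * Real.exp (t * g3_SS h (K + s)) * (t * g3_SS h (K + s)) ^ n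
          ≤ M * Real.exp D * (D * (t * pw (-(2/3)) K)) ^ n := by gcongr
        _ = _ := by rw [mul_pow]; ring
  have hAn : ∀ s : ℕ, (∀ K : ℕ, 1 ≤ K → g3_SS h (K + s) ≤ D * pw (-(2/3)) K) →
      An (fun K t => Z (K + s) t) := by
    intro s hs J
    refine ⟨M * Real.exp D * D ^ (J + 1), fun K j => g3_pco h α β (K + s) j, ?_⟩
    filter_upwards [eventually_ge_atTop 1] with K hK
    obtain ⟨c1, c2⟩ := key s hs (J + 1) K hK
    exact ⟨fun j hj => c1 j (by omega), fun t ht htL => c2 t ht htL⟩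
  refine ⟨?_, ?_, M * Real.exp D * D ^ 1, ?_⟩
  · exact hAn 0 hS0
  · exact hAn 1 hS1
  · intro K t hK ht htL
    have c0 := (key 0 hS0 1 K hK).2 t ht htL
    have c1 := (key 1 hS1 1 K hK).2 t ht htL
    unfold g3_Rm at c0 c1
    rw [Finset.sum_range_one, pow_zero, mul_one] at c0 c1
    rw [add_zero, (g3_pco_zero h α β K).1] at c0
    rw [(g3_pco_zero h α β K).2] at c1
    rw [pow_one (t * pw (-(2/3)) K)] at c0 c1
    exact ⟨c0, c1⟩

end Pool.Agent.Helper615.LogA
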