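import Mathlib
import Pool.Agent.Helper615.LogA.Defs
import Pool.Agent.Helper615.LogA.G1
import Pool.Agent.Helper615.LogA.G3
set_option autoImplicit false

namespace Pool.Agent.Helper615.LogA

open Filter Asymptotics
theorem s2_one_le_pw' (K : ℕ) : 1 ≤ pw (-(2/3)) K := by
  unfold pw
  have h : 0 ≤ Real.log K := Real.log_natCast_nonneg K
  have h2 : 0 ≤ -(-(2/3) * Real.log K) := by nlinarith
  calc (1:ℝ) = Real.exp 0 := Real.exp_zero.symm
    _ ≤ _ := Real.exp_le_exp.mpr h2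
def s2_ZZ (h : ℕ → ℝ) (α β : ℝ) : ℕ → ℝ → ℝ
  | 0, _ => α
  | 1, _ => β
  | (k + 2), t => s2_ZZ h α β k t - t * h (k + 1) * s2_ZZ h α β (k + 1) t
theorem s2_An_poly' (v : ℕ → ℝ) (m : ℕ) :
    An (fun (_ : ℕ) t => ∑ j ∈ Finset.range m, v j * t ^ j) := by
  induction m with
  | zero =>
    have h := An.monomial (fun _ => 0) 0 ⟨0, Filter.Eventually.of_forall fun K => by simp⟩
    have e : (fun (K : ℕ) (t : ℝ) => ∑ j ∈ Finset.range 0, v j * t ^ j) =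
        fun (K : ℕ) (t : ℝ) => (0:ℝ) * t ^ 0 := by
      funext K t
      simp
    rw [e]
    exact h
  | succ m ih =>
    have h := An.monomial (fun _ => v m) m ⟨|v m|, Filter.Eventually.of_forall fun K => by
      have h1 : 1 ≤ pw (-(2/3)) K ^ m := one_le_pow₀ (s2_one_le_pw' K)
      have h2 := abs_nonneg (v m)
      nlinarith⟩
    have e : (fun (K : ℕ) (t : ℝ) => ∑ j ∈ Finset.range (m + 1), v j * t ^ j) =
        fun (K : ℕ) (t : ℝ) => (∑ j ∈ Finset.range m, v j * t ^ j) + v m * t ^ m := by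
      funext K t
      rw [Finset.sum_range_succ]
    rw [e]
    exact An.add ih h
theorem s2_An_const_mul' {F : ℕ → ℝ → ℝ} (hF : An F) (c : ℝ) : An (fun K t => c * F K t) := by
  have h := An.monomial (fun _ => c) 0 ⟨|c|, Filter.Eventually.of_forall fun K => by simp⟩
  have h2 := An.mul h hF
  have e : (fun (K : ℕ) (t : ℝ) => c * t ^ 0 * F K t) = fun (K : ℕ) (t : ℝ) => c * F K t := by
    funext K t
    simp
  rw [e] at h2
  exact h2
theorem s2_z_rep' (h : ℕ → ℝ) (e₀ : ℝ) (m0 : ℝ → ℝ) (z : ℕ → ℝ → ℝ)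
    (hz0 : ∀ t : ℝ, 0 < t → z 0 t = e₀) (hz1 : ∀ t : ℝ, 0 < t → z 1 t = m0 t)
    (hzr : ∀ t : ℝ, 0 < t → ∀ k, z k t - z (k + 2) t = t * h (k + 1) * z (k + 1) t)
    (t : ℝ) (ht : 0 < t) (k : ℕ) :
    z k t = e₀ * s2_ZZ h 1 0 k t + m0 t * s2_ZZ h 0 1 k t ∧
    z (k + 1) t = e₀ * s2_ZZ h 1 0 (k + 1) t + m0 t * s2_ZZ h 0 1 (k + 1) t := by
  induction k with
  | zero =>
    constructor
    · rw [hz0 t ht]
      simp [s2_ZZ]
    · rw [hz1 t ht]
      simp [s2_ZZ]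
  | succ k ih =>
    refine ⟨ih.2, ?_⟩
    have h1 := hzr t ht k
    have h2 : z (k + 1 + 1) t = z k t - t * h (k + 1) * z (k + 1) t := by linarith
    rw [h2, ih.1, ih.2]
    have e1 : s2_ZZ h 1 0 (k + 1 + 1) t = s2_ZZ h 1 0 k t - t * h (k + 1) * s2_ZZ h 1 0 (k + 1) t := rfl
    have e2 : s2_ZZ h 0 1 (k + 1 + 1) t = s2_ZZ h 0 1 k t - t * h (k + 1) * s2_ZZ h 0 1 (k + 1) t := rfl
    rw [e1, e2]
    ring
theorem s2_est' (e₀ S S0 A1 A2 a1 a2 x C1 C2 V : ℝ) (hx0 : 0 ≤ x) (hx1 : x ≤ 1)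
    (ha2 : |a2| ≤ 1)
    (h1 : |A1 - a1| ≤ C1 * x) (h2 : |A2 - a2| ≤ C2 * x) (hS : |S - S0| ≤ V * x)
    (hC1 : 0 ≤ C1) (hC2 : 0 ≤ C2) (hV : 0 ≤ V) :
    |e₀ * A1 + S * A2 - (e₀ * a1 + S0 * a2)| ≤ (|e₀| * C1 + (|S0| + V) * C2 + V) * x := by
  have e : e₀ * A1 + S * A2 - (e₀ * a1 + S0 * a2) =
      e₀ * (A1 - a1) + S * (A2 - a2) + (S - S0) * a2 := by ring
  rw [e]
  have hSb : |S| ≤ |S0| + V := by
    have : |S| ≤ |S0| + |S - S0| := by
      have h3 : S = S0 + (S - S0) := by ring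
      calc |S| = |S0 + (S - S0)| := by rw [← h3]
        _ ≤ |S0| + |S - S0| := abs_add_le _ _
    nlinarith
  have b1 : |e₀ * (A1 - a1)| ≤ |e₀| * (C1 * x) := by
    rw [abs_mul]
    exact mul_le_mul_of_nonneg_left h1 (abs_nonneg _)
  have b2 : |S * (A2 - a2)| ≤ (|S0| + V) * (C2 * x) := by
    rw [abs_mul]
    exact mul_le_mul hSb h2 (abs_nonneg _) (by positivity)
  have b3 : |(S - S0) * a2| ≤ V * x * 1 := by
    rw [abs_mul]
    exact mul_le_mul hS ha2 (abs_nonneg _) (by positivity)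
  calc |e₀ * (A1 - a1) + S * (A2 - a2) + (S - S0) * a2|
      ≤ |e₀ * (A1 - a1) + S * (A2 - a2)| + |(S - S0) * a2| := abs_add_le _ _
    _ ≤ (|e₀ * (A1 - a1)| + |S * (A2 - a2)|) + |(S - S0) * a2| := by
        gcongr
        exact abs_add_le _ _
    _ ≤ _ := by nlinarith
theorem s2_main_bd' (m S L Z z e₀ Z1 Cm T B : ℝ) (hz : z = e₀ * Z1 + m * Z)
    (hm : |m - S + 2 * L| ≤ Cm * T) (hT : 0 ≤ T) (hZ : |Z| ≤ B) :
    |z - (e₀ * Z1 + S * Z - 2 * L * Z)| ≤ (|Cm| * B) * T := by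
  have e : z - (e₀ * Z1 + S * Z - 2 * L * Z) = (m - S + 2 * L) * Z := by
    rw [hz]; ring
  rw [e, abs_mul]
  have h1 : |m - S + 2 * L| ≤ |Cm| * T := by
    refine hm.trans ?_
    exact mul_le_mul_of_nonneg_right (le_abs_self _) hT
  have hB : 0 ≤ B := (abs_nonneg _).trans hZ
  calc |m - S + 2 * L| * |Z| ≤ (|Cm| * T) * B := mul_le_mul h1 hZ (abs_nonneg _) (by positivity)
    _ = _ := by ring
theorem stage2 (h : ℕ → ℝ) (Ch : ℝ) (hh : ∀ k, 1 ≤ k → |h k| ≤ Ch * pw (1/3) k) (e₀ : ℝ)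
    (m0 : ℝ → ℝ) (v : ℕ → ℝ) (Cm : ℝ) (hv0 : v 0 = Real.pi)
    (hm : ∀ t : ℝ, 0 < t → t ≤ 1 →
      |m0 t - (∑ j ∈ Finset.range 7, v j * t ^ j) + 2 * t ^ 3 * Real.log t| ≤ Cm * t ^ 7)
    (z : ℕ → ℝ → ℝ) (hz0 : ∀ t : ℝ, 0 < t → z 0 t = e₀) (hz1 : ∀ t : ℝ, 0 < t → z 1 t = m0 t)
    (hzr : ∀ t : ℝ, 0 < t → ∀ k, z k t - z (k + 2) t = t * h (k + 1) * z (k + 1) t) :
    ∃ (P Z : ℕ → ℝ → ℝ) (C : ℝ), An P ∧ An Z ∧ An (fun K t => P (K + 1) t) ∧
      An (fun K t => Z (K + 1) t) ∧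
      ∀ᶠ K : ℕ in atTop, ∀ t : ℝ, 0 < t → t * pw (-(2/3)) K ≤ 1 →
        |z K t - (P K t - 2 * t ^ 3 * Real.log t * Z K t)| ≤ C * t ^ 7 ∧
        |z (K + 1) t - (P (K + 1) t - 2 * t ^ 3 * Real.log t * Z (K + 1) t)| ≤ C * t ^ 7 ∧
        |P K t - (if Even K then e₀ else Real.pi)| ≤ C * (t * pw (-(2/3)) K) ∧
        |P (K + 1) t - (if Even K then Real.pi else e₀)| ≤ C * (t * pw (-(2/3)) K) ∧
        |Z K t - (if Even K then 0 else 1)| ≤ C * (t * pw (-(2/3)) K) ∧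
        |Z (K + 1) t - (if Even K then 1 else 0)| ≤ C * (t * pw (-(2/3)) K) := by
  obtain ⟨a1, a2, C1, hC1⟩ := poly_an h Ch hh 1 0 (s2_ZZ h 1 0) (fun _ => rfl) (fun _ => rfl)
    (fun _ _ => rfl)
  obtain ⟨b1, b2, C2, hC2⟩ := poly_an h Ch hh 0 1 (s2_ZZ h 0 1) (fun _ => rfl) (fun _ => rfl)
    (fun _ _ => rfl)
  set S : ℝ → ℝ := fun t => ∑ j ∈ Finset.range 7, v j * t ^ j with hS
  set V : ℝ := ∑ j ∈ Finset.range 6, |v (j + 1)| with hV
  have hV0 : 0 ≤ V := Finset.sum_nonneg fun _ _ => abs_nonneg _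
  have hSpi : ∀ t : ℝ, 0 < t → t ≤ 1 → |S t - Real.pi| ≤ V * t := by
    intro t ht0 ht1
    have e : S t - Real.pi = ∑ j ∈ Finset.range 6, v (j + 1) * t ^ (j + 1) := by
      simp only [hS]
      rw [Finset.sum_range_succ', hv0]
      simp
    rw [e, hV, Finset.sum_mul]
    refine (Finset.abs_sum_le_sum_abs _ _).trans (Finset.sum_le_sum fun j _ => ?_)
    rw [abs_mul, abs_pow, abs_of_pos ht0]
    have h1 : t ^ (j + 1) ≤ t := by
      calc t ^ (j + 1) = t ^ j * t := pow_succ _ _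
        _ ≤ 1 * t := by gcongr; exact pow_le_one₀ ht0.le ht1
        _ = t := one_mul t
    exact mul_le_mul_of_nonneg_left h1 (abs_nonneg _)
  have hAnS : An (fun (_ : ℕ) t => S t) := s2_An_poly' v 7
  refine ⟨fun K t => e₀ * s2_ZZ h 1 0 K t + S t * s2_ZZ h 0 1 K t, s2_ZZ h 0 1,
    |Cm| * (1 + |C2|) + (|e₀| * |C1| + (|Real.pi| + V) * |C2| + V) + |C2|, ?_, b1, ?_, b2, ?_⟩
  · exact An.add (s2_An_const_mul' a1 e₀) (An.mul hAnS b1)
  · exact An.add (s2_An_const_mul' a2 e₀) (An.mul hAnS b2)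
  · filter_upwards [eventually_ge_atTop 1] with K hK t ht0 htK
    have hp1 := s2_one_le_pw' K
    set x := t * pw (-(2/3)) K with hx
    have hx0 : 0 ≤ x := by positivity
    have htx : t ≤ x := by
      rw [hx]
      nlinarith
    have ht1 : t ≤ 1 := htx.trans htK
    obtain ⟨c1, c2⟩ := hC1 K t hK ht0 htK
    obtain ⟨d1, d2⟩ := hC2 K t hK ht0 htK
    obtain ⟨r1, r2⟩ := s2_z_rep' h e₀ m0 z hz0 hz1 hzr t ht0 K
    have hm1 := hm t ht0 ht1
    have hm2 : |m0 t - S t + 2 * (t ^ 3 * Real.log t)| ≤ Cm * t ^ 7 := by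
      have e : m0 t - S t + 2 * (t ^ 3 * Real.log t) = m0 t - (∑ j ∈ Finset.range 7, v j * t ^ j)
        + 2 * t ^ 3 * Real.log t := by simp only [hS]; ring
      rw [e]
      exact hm1
    have hSx : |S t - Real.pi| ≤ V * x :=
      (hSpi t ht0 ht1).trans (mul_le_mul_of_nonneg_left htx hV0)
    have up : ∀ (A c : ℝ), A ≤ c * x → A ≤ |c| * x := fun A c hA =>
      hA.trans (mul_le_mul_of_nonneg_right (le_abs_self _) hx0)
    have c1' := up _ _ c1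
    have c2' := up _ _ c2
    have d1' := up _ _ d1
    have d2' := up _ _ d2
    have iteb : ∀ (q : Prop) [Decidable q], |(if q then (0:ℝ) else 1)| ≤ 1 := by
      intro q _
      split_ifs <;> simp
    have iteb' : ∀ (q : Prop) [Decidable q], |(if q then (1:ℝ) else 0)| ≤ 1 := by
      intro q _
      split_ifs <;> simp
    have hZb : |s2_ZZ h 0 1 K t| ≤ 1 + |C2| := by
      have e : s2_ZZ h 0 1 K t = (s2_ZZ h 0 1 K t - (if Even K then (0:ℝ) else 1)) +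
        (if Even K then (0:ℝ) else 1) := by ring
      have h3 : |s2_ZZ h 0 1 K t| ≤ |s2_ZZ h 0 1 K t - (if Even K then (0:ℝ) else 1)| +
          |(if Even K then (0:ℝ) else 1)| := by
        conv_lhs => rw [e]
        exact abs_add_le _ _
      have h4 := iteb (Even K)
      have h5 : |C2| * x ≤ |C2| * 1 := mul_le_mul_of_nonneg_left htK (abs_nonneg _)
      linarith
    have hZb' : |s2_ZZ h 0 1 (K + 1) t| ≤ 1 + |C2| := by
      have e : s2_ZZ h 0 1 (K + 1) t = (s2_ZZ h 0 1 (K + 1) t - (if Even K then (1:ℝ) else 0)) +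
        (if Even K then (1:ℝ) else 0) := by ring
      have h3 : |s2_ZZ h 0 1 (K + 1) t| ≤ |s2_ZZ h 0 1 (K + 1) t - (if Even K then (1:ℝ) else 0)| +
          |(if Even K then (1:ℝ) else 0)| := by
        conv_lhs => rw [e]
        exact abs_add_le _ _
      have h4 := iteb' (Even K)
      have h5 : |C2| * x ≤ |C2| * 1 := mul_le_mul_of_nonneg_left htK (abs_nonneg _)
      linarith
    have ht7 : 0 ≤ t ^ 7 := by positivity
    have m1 := s2_main_bd' (m0 t) (S t) (t ^ 3 * Real.log t) (s2_ZZ h 0 1 K t) (z K t) e₀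
      (s2_ZZ h 1 0 K t) Cm (t ^ 7) (1 + |C2|) r1 hm2 ht7 hZb
    have m2 := s2_main_bd' (m0 t) (S t) (t ^ 3 * Real.log t) (s2_ZZ h 0 1 (K + 1) t) (z (K + 1) t) e₀
      (s2_ZZ h 1 0 (K + 1) t) Cm (t ^ 7) (1 + |C2|) r2 hm2 ht7 hZb'
    have q1 : 0 ≤ |Cm| * (1 + |C2|) := by positivity
    have q2 : 0 ≤ |e₀| * |C1| + (|Real.pi| + V) * |C2| + V := by positivity
    have q3 : 0 ≤ |C2| := abs_nonneg _
    have p1 := s2_est' e₀ (S t) Real.pi (s2_ZZ h 1 0 K t) (s2_ZZ h 0 1 K t) (if Even K then (1:ℝ) else 0)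
      (if Even K then (0:ℝ) else 1) x |C1| |C2| V hx0 htK (iteb _) c1' d1' hSx (abs_nonneg _)
      (abs_nonneg _) hV0
    have p2 := s2_est' e₀ (S t) Real.pi (s2_ZZ h 1 0 (K + 1) t) (s2_ZZ h 0 1 (K + 1) t)
      (if Even K then (0:ℝ) else 1)
      (if Even K then (1:ℝ) else 0) x |C1| |C2| V hx0 htK (iteb' _) c2' d2' hSx (abs_nonneg _)
      (abs_nonneg _) hV0
    have f1 : e₀ * (if Even K then (1:ℝ) else 0) + Real.pi * (if Even K then (0:ℝ) else 1) =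
        if Even K then e₀ else Real.pi := by split_ifs <;> ring
    have f2 : e₀ * (if Even K then (0:ℝ) else 1) + Real.pi * (if Even K then (1:ℝ) else 0) =
        if Even K then Real.pi else e₀ := by split_ifs <;> ring
    rw [f1] at p1
    rw [f2] at p2
    have g1 : 2 * (t ^ 3 * Real.log t) * s2_ZZ h 0 1 K t = 2 * t ^ 3 * Real.log t * s2_ZZ h 0 1 K t := by
      ring
    have g2 : 2 * (t ^ 3 * Real.log t) * s2_ZZ h 0 1 (K + 1) t =
      2 * t ^ 3 * Real.log t * s2_ZZ h 0 1 (K + 1) t := by ring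
    rw [g1] at m1
    rw [g2] at m2
    refine ⟨m1.trans ?_, m2.trans ?_, p1.trans ?_, p2.trans ?_, d1'.trans ?_, d2'.trans ?_⟩
    · exact mul_le_mul_of_nonneg_right (by linarith) ht7
    · exact mul_le_mul_of_nonneg_right (by linarith) ht7
    · exact mul_le_mul_of_nonneg_right (by linarith) hx0
    · exact mul_le_mul_of_nonneg_right (by linarith) hx0
    · exact mul_le_mul_of_nonneg_right (by linarith) hx0
    · exact mul_le_mul_of_nonneg_right (by linarith) hx0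

end Pool.Agent.Helper615.LogA
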