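import Mathlib
import Pool.Agent.Helper615.LogA.Defs
import Pool.Agent.Helper615.LogA.G1
set_option autoImplicit false

namespace Pool.Agent.Helper615.LogA

open Filter Asymptotics
theorem s3_s3_pw (K : ℕ) : 0 < pw (-(2/3)) K := Real.exp_pos _
theorem s3_s3_const (c : ℕ → ℝ) (B : ℝ) (h : ∀ K, |c K| ≤ B) : An (fun K t => c K * t ^ 0) :=
  An.monomial c 0 ⟨B, Eventually.of_forall fun K => by rw [pow_zero, mul_one]; exact h K⟩
theorem s3_s3_L0 {c u M a p X : ℝ} (hc : 0 ≤ c) (hu0 : 0 ≤ u) (hu1 : u ≤ 1) (ha : |a - p| ≤ c * u)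
    (hX : |X - 1| ≤ c * u) (hp : |p| ≤ M) : |X * a - p| ≤ (c * (M + c) + c) * u := by
  have hM : 0 ≤ M := (abs_nonneg p).trans hp
  have hcu : c * u ≤ c := by nlinarith
  have h1 : |a| ≤ M + c := by
    have e : a = (a - p) + p := by ring
    calc |a| = |(a - p) + p| := by rw [← e]
      _ ≤ |a - p| + |p| := abs_add_le _ _
      _ ≤ M + c := by linarith
  have e : X * a - p = (X - 1) * a + (a - p) := by ring
  rw [e]
  calc |(X - 1) * a + (a - p)| ≤ |(X - 1) * a| + |a - p| := abs_add_le _ _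
    _ = |X - 1| * |a| + |a - p| := by rw [abs_mul]
    _ ≤ (c * u) * (M + c) + c * u :=
        add_le_add (mul_le_mul hX h1 (abs_nonneg _) (by positivity)) ha
    _ = (c * (M + c) + c) * u := by ring
theorem s3_s3_L1 {c u M a b p q X E : ℝ} (hc : 0 ≤ c) (hu0 : 0 ≤ u) (hu1 : u ≤ 1)
    (ha : |a - p| ≤ c * u) (hb : |b - q| ≤ c * u)
    (hX : |X - 1| ≤ c * u) (hE : |E - 1| ≤ c * u) (hp : |p| ≤ M) (hq : |q| ≤ M) :
    |(a + X * b) * X * E - (p + q)| ≤
      ((c + (c * (M + c) + c)) * ((1 + c) * (1 + c)) + 2 * M * (c * (1 + c) + c)) * u := by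
  have hM : 0 ≤ M := (abs_nonneg p).trans hp
  have hcu : c * u ≤ c := by nlinarith
  have hcu0 : 0 ≤ c * u := by positivity
  have hXb : |X| ≤ 1 + c := by
    have e : X = (X - 1) + 1 := by ring
    calc |X| = |(X - 1) + 1| := by rw [← e]
      _ ≤ |X - 1| + |(1 : ℝ)| := abs_add_le _ _
      _ ≤ 1 + c := by rw [abs_one]; linarith
  have hEb : |E| ≤ 1 + c := by
    have e : E = (E - 1) + 1 := by ring
    calc |E| = |(E - 1) + 1| := by rw [← e]
      _ ≤ |E - 1| + |(1 : ℝ)| := abs_add_le _ _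
      _ ≤ 1 + c := by rw [abs_one]; linarith
  have h1 := s3_s3_L0 hc hu0 hu1 hb hX hq
  have h2 : |(a - p) + (X * b - q)| ≤ (c + (c * (M + c) + c)) * u := by
    calc |(a - p) + (X * b - q)| ≤ |a - p| + |X * b - q| := abs_add_le _ _
      _ ≤ c * u + (c * (M + c) + c) * u := add_le_add ha h1
      _ = (c + (c * (M + c) + c)) * u := by ring
  have h3 : |X * E| ≤ (1 + c) * (1 + c) := by
    rw [abs_mul]
    exact mul_le_mul hXb hEb (abs_nonneg _) (by positivity)
  have h4 : |X * E - 1| ≤ (c * (1 + c) + c) * u := by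
    have := s3_s3_L0 (M := 1) hc hu0 hu1 hE hX (by rw [abs_one])
    exact this
  have h5 : |p + q| ≤ 2 * M := by
    calc |p + q| ≤ |p| + |q| := abs_add_le _ _
      _ ≤ 2 * M := by linarith
  have e : (a + X * b) * X * E - (p + q) =
      ((a - p) + (X * b - q)) * (X * E) + (p + q) * (X * E - 1) := by ring
  rw [e]
  calc |((a - p) + (X * b - q)) * (X * E) + (p + q) * (X * E - 1)|
      ≤ |((a - p) + (X * b - q)) * (X * E)| + |(p + q) * (X * E - 1)| := abs_add_le _ _
    _ = |(a - p) + (X * b - q)| * |X * E| + |p + q| * |X * E - 1| := by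
        rw [abs_mul ((a - p) + (X * b - q)) (X * E), abs_mul (p + q) (X * E - 1)]
    _ ≤ ((c + (c * (M + c) + c)) * u) * ((1 + c) * (1 + c)) +
        (2 * M) * ((c * (1 + c) + c) * u) :=
        add_le_add (mul_le_mul h2 h3 (abs_nonneg _) (by positivity))
          (mul_le_mul h5 h4 (abs_nonneg _) (by positivity))
    _ = _ := by ring
theorem stage3 (P Z P' Z' X E z z' G : ℕ → ℝ → ℝ) (e₀ C : ℝ) (hP : An P) (hZ : An Z)
    (hP' : An P') (hZ' : An Z') (hX : An X) (hE : An E)
    (hb : ∀ᶠ K : ℕ in atTop, ∀ t : ℝ, 0 < t → t * pw (-(2/3)) K ≤ 1 →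
        |z K t - (P K t - 2 * t ^ 3 * Real.log t * Z K t)| ≤ C * t ^ 7 ∧
        |z' K t - (P' K t - 2 * t ^ 3 * Real.log t * Z' K t)| ≤ C * t ^ 7 ∧
        |P K t - (if Even K then e₀ else Real.pi)| ≤ C * (t * pw (-(2/3)) K) ∧
        |P' K t - (if Even K then Real.pi else e₀)| ≤ C * (t * pw (-(2/3)) K) ∧
        |Z K t - (if Even K then 0 else 1)| ≤ C * (t * pw (-(2/3)) K) ∧
        |Z' K t - (if Even K then 1 else 0)| ≤ C * (t * pw (-(2/3)) K) ∧
        |X K t - 1| ≤ C * (t * pw (-(2/3)) K) ∧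
        |E K t - 1| ≤ C * (t * pw (-(2/3)) K) ∧ |G K t| ≤ C) :
    ∃ (A1 A2 WA WL : ℕ → ℝ → ℝ) (C' : ℝ), An A1 ∧ An A2 ∧ An WA ∧ An WL ∧
      ∀ᶠ K : ℕ in atTop, ∀ t : ℝ, 0 < t → t * pw (-(2/3)) K ≤ 1 →
        |A2 K t - 4| ≤ C' * (t * pw (-(2/3)) K) ∧
        |WA K t - (e₀ + Real.pi)| ≤ C' * (t * pw (-(2/3)) K) ∧
        |WL K t - 1| ≤ C' * (t * pw (-(2/3)) K) ∧
        |(2 * (-1 : ℝ) ^ K * (z K t - X K t * z' K t)
            + (z K t + X K t * z' K t) * X K t * (E K t * G K t))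
          - (A1 K t + t ^ 3 * Real.log t * A2 K t + WA K t * G K t
            - 2 * (t ^ 3 * Real.log t) * WL K t * G K t)| ≤ C' * t ^ 7 := by
  have hs : ∀ K : ℕ, |(2 : ℝ) * (-1) ^ K| ≤ 2 := by
    intro K
    rw [abs_mul, abs_pow, abs_neg, abs_one, one_pow, mul_one, abs_two]
  have hs4 : ∀ K : ℕ, |(-4 : ℝ) * (-1) ^ K| ≤ 4 := by
    intro K
    rw [abs_mul, abs_pow, abs_neg, abs_neg, abs_one, one_pow, mul_one]
    norm_num
  have hneg : An (fun (_ : ℕ) (t : ℝ) => (-1 : ℝ) * t ^ 0) :=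
    s3_s3_const (fun _ => -1) 1 (fun _ => by simp)
  obtain ⟨c, hc⟩ : ∃ c : ℝ, c = |C| := ⟨_, rfl⟩
  have hc0 : 0 ≤ c := by rw [hc]; exact abs_nonneg _
  have hCc : C ≤ c := by rw [hc]; exact le_abs_self _
  obtain ⟨M, hM⟩ : ∃ M : ℝ, M = |e₀| + Real.pi := ⟨_, rfl⟩
  have hpi := Real.pi_pos
  have hM0 : 0 ≤ M := by rw [hM]; positivity
  obtain ⟨D1, hD1⟩ : ∃ D1 : ℝ, D1 = (c + (c * (M + c) + c)) * ((1 + c) * (1 + c)) +
    2 * M * (c * (1 + c) + c) := ⟨_, rfl⟩
  obtain ⟨D2, hD2⟩ : ∃ D2 : ℝ, D2 = (c + (c * (1 + c) + c)) * ((1 + c) * (1 + c)) +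
    2 * 1 * (c * (1 + c) + c) := ⟨_, rfl⟩
  obtain ⟨D3, hD3⟩ : ∃ D3 : ℝ, D3 = 4 * (c + (c * (1 + c) + c)) := ⟨_, rfl⟩
  obtain ⟨D4, hD4⟩ : ∃ D4 : ℝ, D4 = 2 * (c + (1 + c) * c) +
    (c + (1 + c) * c) * (1 + c) * ((1 + c) * c) := ⟨_, rfl⟩
  have hD1' : 0 ≤ D1 := by rw [hD1]; positivity
  have hD2' : 0 ≤ D2 := by rw [hD2]; positivity
  have hD3' : 0 ≤ D3 := by rw [hD3]; positivity
  have hD4' : 0 ≤ D4 := by rw [hD4]; positivity
  refine ⟨fun K t => (2 * (-1 : ℝ) ^ K) * t ^ 0 * (P K t + (-1 : ℝ) * t ^ 0 * (X K t * P' K t)),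
    fun K t => (-4 * (-1 : ℝ) ^ K) * t ^ 0 * (Z K t + (-1 : ℝ) * t ^ 0 * (X K t * Z' K t)),
    fun K t => (P K t + X K t * P' K t) * X K t * E K t,
    fun K t => (Z K t + X K t * Z' K t) * X K t * E K t,
    D1 + D2 + D3 + D4, ?_, ?_, ?_, ?_, ?_⟩
  · exact (s3_s3_const (fun K => 2 * (-1 : ℝ) ^ K) 2 hs).mul (hP.add (hneg.mul (hX.mul hP')))
  · exact (s3_s3_const (fun K => -4 * (-1 : ℝ) ^ K) 4 hs4).mul (hZ.add (hneg.mul (hX.mul hZ')))
  · exact ((hP.add (hX.mul hP')).mul hX).mul hE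
  · exact ((hZ.add (hX.mul hZ')).mul hX).mul hE
  · filter_upwards [hb] with K hK t ht0 ht1
    obtain ⟨b1, b2, b3, b4, b5, b6, b7, b8, b9⟩ := hK t ht0 ht1
    obtain ⟨u, hu⟩ : ∃ u : ℝ, u = t * pw (-(2/3)) K := ⟨_, rfl⟩
    have hu0 : 0 ≤ u := by rw [hu]; exact (mul_pos ht0 (s3_s3_pw K)).le
    rw [← hu] at b3 b4 b5 b6 b7 b8 ht1 ⊢
    have hle : C * u ≤ c * u := mul_le_mul_of_nonneg_right hCc hu0
    have ht7 : 0 ≤ t ^ 7 := by positivity
    have hle7 : C * t ^ 7 ≤ c * t ^ 7 := mul_le_mul_of_nonneg_right hCc ht7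
    have b3' := b3.trans hle
    have b4' := b4.trans hle
    have b5' := b5.trans hle
    have b6' := b6.trans hle
    have b7' := b7.trans hle
    have b8' := b8.trans hle
    have b9' := b9.trans hCc
    have b1' := b1.trans hle7
    have b2' := b2.trans hle7
    simp only [pow_zero, mul_one]
    refine ⟨?_, ?_, ?_, ?_⟩
    · have hgoal : |(-4 * (-1 : ℝ) ^ K) * (Z K t + -1 * (X K t * Z' K t)) - 4| ≤ D3 * u := by
        rcases Nat.even_or_odd K with hev | hodd
        · rw [if_pos hev] at b5' b6'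
          rw [hev.neg_one_pow]
          have h1 := s3_s3_L0 (M := 1) hc0 hu0 ht1 b6' b7' (by rw [abs_one])
          have e : -4 * (1 : ℝ) * (Z K t + -1 * (X K t * Z' K t)) - 4 =
              -4 * (Z K t - 0) + 4 * (X K t * Z' K t - 1) := by ring
          rw [e]
          calc |-4 * (Z K t - 0) + 4 * (X K t * Z' K t - 1)|
              ≤ |-4 * (Z K t - 0)| + |4 * (X K t * Z' K t - 1)| := abs_add_le _ _
            _ = 4 * |Z K t - 0| + 4 * |X K t * Z' K t - 1| := by
                rw [abs_mul, abs_mul]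
                norm_num
            _ ≤ 4 * (c * u) + 4 * ((c * (1 + c) + c) * u) := by linarith
            _ = D3 * u := by rw [hD3]; ring
        · have hne : ¬ Even K := Nat.not_even_iff_odd.2 hodd
          rw [if_neg hne] at b5' b6'
          rw [hodd.neg_one_pow]
          have h1 := s3_s3_L0 (M := 1) hc0 hu0 ht1 b6' b7' (by rw [abs_zero]; norm_num)
          have e : -4 * (-1 : ℝ) * (Z K t + -1 * (X K t * Z' K t)) - 4 =
              4 * (Z K t - 1) + -4 * (X K t * Z' K t - 0) := by ring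
          rw [e]
          calc |4 * (Z K t - 1) + -4 * (X K t * Z' K t - 0)|
              ≤ |4 * (Z K t - 1)| + |-4 * (X K t * Z' K t - 0)| := abs_add_le _ _
            _ = 4 * |Z K t - 1| + 4 * |X K t * Z' K t - 0| := by
                rw [abs_mul, abs_mul]
                norm_num
            _ ≤ 4 * (c * u) + 4 * ((c * (1 + c) + c) * u) := by linarith
            _ = D3 * u := by rw [hD3]; ring
      have : D3 * u ≤ (D1 + D2 + D3 + D4) * u := by
        apply mul_le_mul_of_nonneg_right _ hu0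
        linarith
      exact hgoal.trans this
    · have hgoal : |(P K t + X K t * P' K t) * X K t * E K t - (e₀ + Real.pi)| ≤ D1 * u := by
        have he : |e₀| ≤ M := by rw [hM]; linarith
        have hp : |Real.pi| ≤ M := by
          rw [hM, abs_of_pos hpi]
          linarith [abs_nonneg e₀]
        rcases Nat.even_or_odd K with hev | hodd
        · rw [if_pos hev] at b3' b4'
          have h1 := s3_s3_L1 (M := M) hc0 hu0 ht1 b3' b4' b7' b8' he hp
          rw [hD1]
          exact h1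
        · have hne : ¬ Even K := Nat.not_even_iff_odd.2 hodd
          rw [if_neg hne] at b3' b4'
          have h1 := s3_s3_L1 (M := M) hc0 hu0 ht1 b3' b4' b7' b8' hp he
          rw [hD1, add_comm e₀]
          exact h1
      have : D1 * u ≤ (D1 + D2 + D3 + D4) * u := by
        apply mul_le_mul_of_nonneg_right _ hu0
        linarith
      exact hgoal.trans this
    · have hgoal : |(Z K t + X K t * Z' K t) * X K t * E K t - 1| ≤ D2 * u := by
        rcases Nat.even_or_odd K with hev | hodd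
        · rw [if_pos hev] at b5' b6'
          have h1 := s3_s3_L1 (M := 1) hc0 hu0 ht1 b5' b6' b7' b8' (by rw [abs_zero]; norm_num)
            (by rw [abs_one])
          rw [hD2]
          rw [zero_add] at h1
          exact h1
        · have hne : ¬ Even K := Nat.not_even_iff_odd.2 hodd
          rw [if_neg hne] at b5' b6'
          have h1 := s3_s3_L1 (M := 1) hc0 hu0 ht1 b5' b6' b7' b8' (by rw [abs_one])
            (by rw [abs_zero]; norm_num)
          rw [hD2]
          rw [add_zero] at h1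
          exact h1
      have : D2 * u ≤ (D1 + D2 + D3 + D4) * u := by
        apply mul_le_mul_of_nonneg_right _ hu0
        linarith
      exact hgoal.trans this
    · obtain ⟨r, hr⟩ : ∃ r : ℝ, r = z K t - (P K t - 2 * t ^ 3 * Real.log t * Z K t) := ⟨_, rfl⟩
      obtain ⟨r', hr'⟩ : ∃ r' : ℝ, r' = z' K t - (P' K t - 2 * t ^ 3 * Real.log t * Z' K t) :=
        ⟨_, rfl⟩
      rw [← hr] at b1'
      rw [← hr'] at b2'
      have hz : z K t = r + (P K t - 2 * t ^ 3 * Real.log t * Z K t) := by rw [hr]; ring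
      have hz' : z' K t = r' + (P' K t - 2 * t ^ 3 * Real.log t * Z' K t) := by rw [hr']; ring
      have hcu : c * u ≤ c := by nlinarith
      have hXb : |X K t| ≤ 1 + c := by
        have e : X K t = (X K t - 1) + 1 := by ring
        calc |X K t| = |(X K t - 1) + 1| := by rw [← e]
          _ ≤ |X K t - 1| + |(1 : ℝ)| := abs_add_le _ _
          _ ≤ 1 + c := by rw [abs_one]; linarith
      have hEb : |E K t| ≤ 1 + c := by
        have e : E K t = (E K t - 1) + 1 := by ring
        calc |E K t| = |(E K t - 1) + 1| := by rw [← e]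
          _ ≤ |E K t - 1| + |(1 : ℝ)| := abs_add_le _ _
          _ ≤ 1 + c := by rw [abs_one]; linarith
      have hXr : |X K t * r'| ≤ (1 + c) * (c * t ^ 7) := by
        rw [abs_mul]
        exact mul_le_mul hXb b2' (abs_nonneg _) (by positivity)
      have h1 : |r - X K t * r'| ≤ (c + (1 + c) * c) * t ^ 7 := by
        calc |r - X K t * r'| ≤ |r| + |X K t * r'| := abs_sub _ _
          _ ≤ c * t ^ 7 + (1 + c) * (c * t ^ 7) := add_le_add b1' hXr
          _ = (c + (1 + c) * c) * t ^ 7 := by ring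
      have h2 : |r + X K t * r'| ≤ (c + (1 + c) * c) * t ^ 7 := by
        calc |r + X K t * r'| ≤ |r| + |X K t * r'| := abs_add_le _ _
          _ ≤ c * t ^ 7 + (1 + c) * (c * t ^ 7) := add_le_add b1' hXr
          _ = (c + (1 + c) * c) * t ^ 7 := by ring
      have h3 : |E K t * G K t| ≤ (1 + c) * c := by
        rw [abs_mul]
        exact mul_le_mul hEb b9' (abs_nonneg _) (by positivity)
      have e : (2 * (-1 : ℝ) ^ K * (z K t - X K t * z' K t)
            + (z K t + X K t * z' K t) * X K t * (E K t * G K t))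
          - (2 * (-1 : ℝ) ^ K * (P K t + -1 * (X K t * P' K t)) +
            t ^ 3 * Real.log t * (-4 * (-1 : ℝ) ^ K * (Z K t + -1 * (X K t * Z' K t))) +
            (P K t + X K t * P' K t) * X K t * E K t * G K t
            - 2 * (t ^ 3 * Real.log t) * ((Z K t + X K t * Z' K t) * X K t * E K t) * G K t) =
          (2 * (-1 : ℝ) ^ K) * (r - X K t * r') +
            (r + X K t * r') * X K t * (E K t * G K t) := by
        rw [hz, hz']
        ring
      rw [e]
      have hgoal : |(2 * (-1 : ℝ) ^ K) * (r - X K t * r') +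
            (r + X K t * r') * X K t * (E K t * G K t)| ≤ D4 * t ^ 7 := by
        calc |(2 * (-1 : ℝ) ^ K) * (r - X K t * r') +
            (r + X K t * r') * X K t * (E K t * G K t)|
            ≤ |(2 * (-1 : ℝ) ^ K) * (r - X K t * r')| +
              |(r + X K t * r') * X K t * (E K t * G K t)| := abs_add_le _ _
          _ = |2 * (-1 : ℝ) ^ K| * |r - X K t * r'| +
              |r + X K t * r'| * |X K t| * |E K t * G K t| := by
              rw [abs_mul (2 * (-1 : ℝ) ^ K) (r - X K t * r'),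
                abs_mul ((r + X K t * r') * X K t) (E K t * G K t),
                abs_mul (r + X K t * r') (X K t)]
          _ ≤ 2 * ((c + (1 + c) * c) * t ^ 7) +
              ((c + (1 + c) * c) * t ^ 7) * (1 + c) * ((1 + c) * c) := by
              refine add_le_add (mul_le_mul (hs K) h1 (abs_nonneg _) (by norm_num)) ?_
              refine mul_le_mul (mul_le_mul h2 hXb (abs_nonneg _) (by positivity)) h3
                (abs_nonneg _) (by positivity)
          _ = D4 * t ^ 7 := by rw [hD4]; ring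
      have : D4 * t ^ 7 ≤ (D1 + D2 + D3 + D4) * t ^ 7 := by
        apply mul_le_mul_of_nonneg_right _ ht7
        linarith
      exact hgoal.trans this

end Pool.Agent.Helper615.LogA
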