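import Mathlib
import Pool.Agent.Helper615.LogA.Defs
import Pool.Agent.Helper615.LogA.G1
import Pool.Agent.Helper615.LogA.P1
import Pool.Agent.Helper615.LogA.B2
import Pool.Agent.Helper615.LogA.E1
import Pool.Agent.Helper615.LogA.E2
import Pool.Agent.Helper615.LogA.E3
import Pool.Agent.Helper615.LogA.S1
import Pool.Agent.Helper615.LogA.S2
import Pool.Agent.Helper615.LogA.S3
import Pool.Agent.Helper615.LogA.Gd
import Pool.Agent.Helper615.LogA.Fin1
import Pool.Agent.Helper615.LogA.Fin2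
set_option autoImplicit false

namespace Pool.Agent.Helper615.LogA

open Filter Asymptotics

theorem core_pw_pos (e : ℝ) (n : ℕ) : 0 < pw e n := Real.exp_pos _

theorem core_pw_add (a b : ℝ) (n : ℕ) : pw (a + b) n = pw a n * pw b n := by
  unfold pw; rw [← Real.exp_add]; congr 1; ring

theorem core_pw_anti {a b : ℝ} (h : a ≤ b) {n : ℕ} (hn : 1 ≤ n) : pw b n ≤ pw a n := by
  unfold pw
  apply Real.exp_le_exp.2
  have : 0 ≤ Real.log n := Real.log_nonneg (by exact_mod_cast hn)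
  nlinarith

theorem core_pw_nonneg_le_one {a : ℝ} (h : 0 ≤ a) {n : ℕ} (hn : 1 ≤ n) : pw a n ≤ 1 := by
  have := core_pw_anti h hn
  simpa [pw] using this

theorem core_one_le_pw {a : ℝ} (h : a ≤ 0) {n : ℕ} (hn : 1 ≤ n) : 1 ≤ pw a n := by
  have := core_pw_anti h hn
  simpa [pw] using this

theorem core_regime_le {K : ℕ} (hK : 1 ≤ K) {t : ℝ} (ht : 0 < t) (h : t * pw (-(2/3)) K ≤ 1) : t ≤ 1 := by
  have := core_one_le_pw (a := -(2/3)) (by norm_num) hK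
  nlinarith

theorem core_t_le_regime {K : ℕ} (hK : 1 ≤ K) {t : ℝ} (ht : 0 < t) : t ≤ t * pw (-(2/3)) K := by
  have := core_one_le_pw (a := -(2/3)) (by norm_num) hK
  nlinarith


theorem core_bound_all {u : ℕ → ℝ} {q C : ℝ} (h : ∀ᶠ k : ℕ in atTop, |u k| ≤ C * pw q k) :
    ∃ C', ∀ k, 1 ≤ k → |u k| ≤ C' * pw q k := by
  obtain ⟨N, hN⟩ := eventually_atTop.1 h
  refine ⟨|C| + ∑ k ∈ Finset.range N, |u k| / pw q k, fun k _ => ?_⟩
  have hp := core_pw_pos q k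
  have hs : 0 ≤ ∑ k ∈ Finset.range N, |u k| / pw q k :=
    Finset.sum_nonneg fun i _ => div_nonneg (abs_nonneg _) (core_pw_pos q i).le
  by_cases hk : N ≤ k
  · calc |u k| ≤ C * pw q k := hN k hk
      _ ≤ |C| * pw q k := mul_le_mul_of_nonneg_right (le_abs_self C) hp.le
      _ ≤ _ := by
        apply mul_le_mul_of_nonneg_right _ hp.le
        linarith
  · have h1 : |u k| / pw q k ≤ ∑ k ∈ Finset.range N, |u k| / pw q k :=
      Finset.single_le_sum (f := fun k => |u k| / pw q k)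
        (fun i _ => div_nonneg (abs_nonneg _) (core_pw_pos q i).le) (Finset.mem_range.2 (by omega))
    calc |u k| = |u k| / pw q k * pw q k := by field_simp
      _ ≤ _ := by
        apply mul_le_mul_of_nonneg_right _ hp.le
        have := abs_nonneg C
        linarith

theorem core_isBigO_bound {u : ℕ → ℝ} {q : ℝ} (h : u =O[atTop] pw q) :
    ∃ C, ∀ k, 1 ≤ k → |u k| ≤ C * pw q k := by
  obtain ⟨C, hC⟩ := h.bound
  apply core_bound_all (C := C)
  filter_upwards [hC] with k hk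
  rwa [Real.norm_eq_abs, Real.norm_eq_abs, abs_of_pos (core_pw_pos q k)] at hk

theorem core_pw_mem_PW (q : ℝ) : pw q ∈ PW q := Submodule.subset_span ⟨q, le_refl q, rfl⟩

theorem core_mem_PW_of_sub {q δ c : ℝ} (hδ : 0 < δ) {u : ℕ → ℝ} (h : (u - c • pw q) ∈ PW (q + δ)) :
    u ∈ PW q := by
  have h1 : u = (u - c • pw q) + c • pw q := by simp
  rw [h1]
  exact Submodule.add_mem _ (PW.mono (by linarith) h) (Submodule.smul_mem _ _ (core_pw_mem_PW q))


theorem core_exists_z (b h : ℕ → ℝ) (hh : ∀ k, 1 ≤ k → 0 < h k ∧ h k * h (k + 1) * b k = 1)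
    (μ0 : ℝ) (hμ0 : 0 < μ0) (Q : ℕ → ℝ → ℝ)
    (hQ : ∀ t : ℝ, 0 < t → (∀ n, 0 < Q n t) ∧ Q 1 t = μ0 - t * Q 0 t ∧
      ∀ n, 1 ≤ n → Q (n + 1) t = b n * Q (n - 1) t - t * Q n t) :
    ∃ z : ℕ → ℝ → ℝ, (∀ t : ℝ, 0 < t → ∀ k, 0 < z k t) ∧
      (∀ t : ℝ, 0 < t → ∀ k, z k t - z (k + 2) t = t * h (k + 1) * z (k + 1) t) ∧
      (∀ t : ℝ, 0 < t → z 0 t = h 1 * μ0) ∧ (∀ t : ℝ, 0 < t → z 1 t = Q 0 t) := by
  let c : ℕ → ℝ := fun n => Nat.rec (1 : ℝ) (fun n y => h (n + 1) * y) n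
  have c0 : c 0 = 1 := rfl
  have cs : ∀ n, c (n + 1) = h (n + 1) * c n := fun n => rfl
  have cpos : ∀ n, 0 < c n := by
    intro n
    induction n with
    | zero => rw [c0]; norm_num
    | succ n ih => rw [cs]; exact mul_pos (hh (n + 1) (by omega)).1 ih
  let z : ℕ → ℝ → ℝ := fun k t => Nat.casesOn k (h 1 * μ0) (fun n => c n * Q n t)
  have z0 : ∀ t, z 0 t = h 1 * μ0 := fun t => rfl
  have zs : ∀ n t, z (n + 1) t = c n * Q n t := fun n t => rfl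
  refine ⟨z, ?_, ?_, fun t _ => z0 t, ?_⟩
  · intro t ht k
    cases k with
    | zero => rw [z0]; exact mul_pos (hh 1 le_rfl).1 hμ0
    | succ n => rw [zs]; exact mul_pos (cpos n) ((hQ t ht).1 n)
  · intro t ht k
    obtain ⟨-, hQ1, hQr⟩ := hQ t ht
    cases k with
    | zero =>
      have e1 : z 2 t = c 1 * Q 1 t := zs 1 t
      have e2 : z 1 t = c 0 * Q 0 t := zs 0 t
      have e3 : c 1 = h 1 * c 0 := cs 0
      show z 0 t - z 2 t = t * h 1 * z 1 t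
      rw [z0, e1, e2, e3, c0, hQ1]
      ring
    | succ n =>
      have e1 : z (n + 3) t = c (n + 2) * Q (n + 2) t := zs (n + 2) t
      have e2 : z (n + 2) t = c (n + 1) * Q (n + 1) t := zs (n + 1) t
      have e3 : z (n + 1) t = c n * Q n t := zs n t
      have e4 : c (n + 2) = h (n + 2) * c (n + 1) := cs (n + 1)
      have e5 : c (n + 1) = h (n + 1) * c n := cs n
      have e6 : Q (n + 2) t = b (n + 1) * Q n t - t * Q (n + 1) t := hQr (n + 1) (by omega)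
      have h1 : h (n + 1) * h (n + 2) * b (n + 1) = 1 := (hh (n + 1) (by omega)).2
      show z (n + 1) t - z (n + 3) t = t * h (n + 2) * z (n + 2) t
      rw [e1, e2, e3, e4, e5, e6]
      linear_combination (-(c n * Q n t)) * h1
  · intro t _
    have e2 : z 1 t = c 0 * Q 0 t := zs 0 t
    rw [e2, c0, one_mul]

theorem core_z_bound {h : ℕ → ℝ} (hh : ∀ k, 1 ≤ k → 0 < h k) {z : ℕ → ℝ → ℝ}
    (hz : ∀ t : ℝ, 0 < t → ∀ k, 0 < z k t)
    (hzr : ∀ t : ℝ, 0 < t → ∀ k, z k t - z (k + 2) t = t * h (k + 1) * z (k + 1) t)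
    {t : ℝ} (ht : 0 < t) {M : ℝ} (h0 : z 0 t ≤ M) (h1 : z 1 t ≤ M) (k : ℕ) :
    z k t ≤ M ∧ z (k + 1) t ≤ M := by
  induction k with
  | zero => exact ⟨h0, h1⟩
  | succ k ih =>
    refine ⟨ih.2, ?_⟩
    have h2 := hzr t ht k
    have h3 : 0 < t * h (k + 1) * z (k + 1) t :=
      mul_pos (mul_pos ht (hh (k + 1) (by omega))) (hz t ht _)
    have : z (k + 2) t ≤ z k t := by linarith
    exact this.trans ih.1

theorem core_log_cube_bound {t : ℝ} (ht : 0 < t) (ht1 : t ≤ 1) : |t ^ 3 * Real.log t| ≤ 1 := by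
  have h1 : |Real.log t * t| < 1 := Real.abs_log_mul_self_lt t ht ht1
  have h2 : t ^ 3 * Real.log t = t ^ 2 * (Real.log t * t) := by ring
  rw [h2, abs_mul, abs_of_pos (by positivity)]
  have h3 : t ^ 2 ≤ 1 := by nlinarith
  nlinarith [abs_nonneg (Real.log t * t)]

theorem core (b : ℕ → ℝ) (Cb δ β₀ : ℝ) (hCb : 0 < Cb) (hδ : 0 < δ) (hδ' : δ ≤ 1 / 4)
    (α β e : ℕ → ℝ) (hα : α ∈ PW δ) (hβ : (β - β₀ • pw 3) ∈ PW (3 + δ)) (he : e =O[atTop] pw 11)
    (hb : ∀ n : ℕ, 1 ≤ n → 0 < b n ∧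
      b n = Cb * pw (-(2/3)) n * (1 + α n + (-1 : ℝ) ^ n * β n + e n))
    (μ0 : ℝ) (hμ0 : 0 < μ0) (Q : ℕ → ℝ → ℝ)
    (hQ : ∀ t : ℝ, 0 < t → (∀ n, 0 < Q n t) ∧ Q 1 t = μ0 - t * Q 0 t ∧
      ∀ n, 1 ≤ n → Q (n + 1) t = b n * Q (n - 1) t - t * Q n t)
    (v : ℕ → ℝ) (Cm : ℝ) (hv0 : v 0 = Real.pi)
    (hm : ∀ t : ℝ, 0 < t → t ≤ 1 →
      |Q 0 t - (∑ j ∈ Finset.range 7, v j * t ^ j) + 2 * t ^ 3 * Real.log t| ≤ Cm * t ^ 7) :
    False := by
  obtain ⟨h, f, g, f₀, g₀, hf₀, hh, hf, hg, hfg⟩ := partB2 b Cb δ β₀ hCb hδ hδ' α β e hα hβ he hb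
  obtain ⟨x, hx0, hx, hx1, hx2, hx3, hxr⟩ := ansatz f₀ δ hδ hδ' f hf
  obtain ⟨z, hz, hzr, hz0, hz1⟩ := core_exists_z b h hh μ0 hμ0 Q hQ
  have hhpos : ∀ k, 1 ≤ k → 0 < h k := fun k hk => (hh k hk).1
  set e₀ : ℝ := h 1 * μ0 with he₀
  have he₀pos : 0 < e₀ := mul_pos (hhpos 1 le_rfl) hμ0
  
  have hCm : 0 ≤ Cm := by
    have := hm 1 one_pos le_rfl
    have h2 := abs_nonneg (Q 0 1 - (∑ j ∈ Finset.range 7, v j * (1:ℝ) ^ j) + 2 * 1 ^ 3 * Real.log 1)
    nlinarith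
  obtain ⟨Cz, hzb⟩ : ∃ Cz : ℝ, ∀ t : ℝ, 0 < t → t ≤ 1 → ∀ k, z k t ≤ Cz := by
    refine ⟨max e₀ ((∑ j ∈ Finset.range 7, |v j|) + 2 + Cm), fun t ht ht1 k => ?_⟩
    refine (core_z_bound hhpos hz hzr ht ?_ ?_ k).1
    · rw [hz0 t ht]; exact le_max_left _ _
    · rw [hz1 t ht]
      refine le_trans ?_ (le_max_right _ _)
      have h1 := hm t ht ht1
      have h2 := core_log_cube_bound ht ht1
      have h3 : ∑ j ∈ Finset.range 7, v j * t ^ j ≤ ∑ j ∈ Finset.range 7, |v j| := by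
        apply Finset.sum_le_sum
        intro j _
        have h4 : t ^ j ≤ 1 := pow_le_one₀ ht.le ht1
        have h5 : 0 ≤ t ^ j := pow_nonneg ht.le j
        have h6 := le_abs_self (v j)
        have h7 := abs_nonneg (v j)
        nlinarith
      have h4 : t ^ 7 ≤ 1 := pow_le_one₀ ht.le ht1
      have h5 : 0 ≤ t ^ 7 := pow_nonneg ht.le 7
      have h6 := abs_le.1 h1
      have h7 := abs_le.1 h2
      nlinarith [h6.2, h7.1]
  
  obtain ⟨Ch, hhb⟩ : ∃ Ch : ℝ, ∀ k, 1 ≤ k → |h k| ≤ Ch * pw (1/3) k := by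
    obtain ⟨C1, h1⟩ := core_isBigO_bound hfg
    obtain ⟨C2, h2⟩ := core_isBigO_bound (PW.isBigO (core_mem_PW_of_sub hδ hf))
    obtain ⟨C3, h3⟩ := core_isBigO_bound (PW.isBigO (core_mem_PW_of_sub hδ hg))
    refine ⟨|C1| + |C2| + |C3|, fun k hk => ?_⟩
    have e1 : |h k| ≤ |h k - f k - (-1 : ℝ) ^ k * g k| + |f k| + |g k| := by
      have h4 : h k = (h k - f k - (-1 : ℝ) ^ k * g k) + f k + (-1 : ℝ) ^ k * g k := by ring
      have h5 : |(-1 : ℝ) ^ k * g k| = |g k| := by rw [abs_mul, abs_pow]; simp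
      calc |h k| = |(h k - f k - (-1 : ℝ) ^ k * g k) + f k + (-1 : ℝ) ^ k * g k| := by rw [← h4]
        _ ≤ |(h k - f k - (-1 : ℝ) ^ k * g k) + f k| + |(-1 : ℝ) ^ k * g k| := abs_add_le _ _
        _ ≤ _ := by
          rw [h5]
          have := abs_add_le (h k - f k - (-1 : ℝ) ^ k * g k) (f k)
          linarith
    have p1 := core_pw_anti (a := 1/3) (b := 10) (by norm_num) hk
    have p3 := core_pw_anti (a := 1/3) (b := 7/3) (by norm_num) hk
    have q1 := h1 k hk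
    have q2 := h2 k hk
    have q3 := h3 k hk
    have r1 : C1 * pw 10 k ≤ |C1| * pw (1/3) k :=
      mul_le_mul (le_abs_self _) p1 (core_pw_pos _ _).le (abs_nonneg _)
    have r2 : C2 * pw (1/3) k ≤ |C2| * pw (1/3) k :=
      mul_le_mul_of_nonneg_right (le_abs_self _) (core_pw_pos _ _).le
    have r3 : C3 * pw (7/3) k ≤ |C3| * pw (1/3) k :=
      mul_le_mul (le_abs_self _) p3 (core_pw_pos _ _).le (abs_nonneg _)
    linarith
  
  obtain ⟨μ, Φ, U, c, hU, hΦ, hU2, hY, hΦc, hc⟩ := exists_phase f₀ δ hf₀ hδ hδ' (x 1)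
    (x 2 - (1 / 2 : ℝ) • (x 1 * x 1))
    (x 3 - x 1 * x 2 + (1 / 3 : ℝ) • (x 1 * x 1 * x 1)) hx1 hx2 hx3
  obtain ⟨CΦ, hΦd⟩ : ∃ CΦ : ℝ, ∀ᶠ n : ℕ in atTop, ∀ t : ℝ, 0 < t → t ≤ 1 →
      |Real.log (XX x n t) - 1 / 2 * (Φ (n + 1) t - Φ n t)| ≤
        CΦ * (t ^ 4 * pw (4/3) n + t * pw 11 n) := by
    obtain ⟨C1, h1⟩ := XX_log f₀ δ hf₀ hδ hδ' x hx0 hx hx1
    obtain ⟨C2, h2⟩ := hY
    refine ⟨|C1| + |C2|, ?_⟩
    filter_upwards [h1, h2] with n h1 h2 t ht ht1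
    have a1 := h1 t ht ht1
    have a2 := h2 t ht ht1
    simp only [Pi.sub_apply, Pi.add_apply, Pi.smul_apply, Pi.mul_apply, smul_eq_mul] at a2
    have p1 : 0 ≤ t ^ 4 * pw (4/3) n := mul_nonneg (by positivity) (core_pw_pos _ _).le
    have p2 : 0 ≤ t * pw 11 n := mul_nonneg ht.le (core_pw_pos _ _).le
    have r1 : C1 * (t ^ 4 * pw (4/3) n) ≤ |C1| * (t ^ 4 * pw (4/3) n) :=
      mul_le_mul_of_nonneg_right (le_abs_self _) p1
    have r2 : C2 * (t * pw 11 n) ≤ |C2| * (t * pw 11 n) :=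
      mul_le_mul_of_nonneg_right (le_abs_self _) p2
    have r3 : 0 ≤ |C1| * (t * pw 11 n) := mul_nonneg (abs_nonneg _) p2
    have r4 : 0 ≤ |C2| * (t ^ 4 * pw (4/3) n) := mul_nonneg (abs_nonneg _) p1
    have tri := abs_sub_le (Real.log (XX x n t))
      (t * x 1 n + t ^ 2 * (x 2 n - 1 / 2 * (x 1 n * x 1 n))
        + t ^ 3 * (x 3 n - x 1 n * x 2 n + 1 / 3 * (x 1 n * x 1 n * x 1 n)))
      (1 / 2 * (Φ (n + 1) t - Φ n t))
    calc _ ≤ _ := tri
      _ ≤ C1 * (t ^ 4 * pw (4/3) n) + C2 * (t * pw 11 n) := add_le_add a1 a2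
      _ ≤ _ := by nlinarith
  obtain ⟨C1, hS1⟩ := stage1 f₀ δ g₀ hf₀ hδ hδ' f g h hf hg hfg x hx0 hx hx1 hxr Φ CΦ hΦd z Cz
    hz hzr hhpos hzb
  obtain ⟨P, Z, C2, hP, hZ, hP', hZ', hS2⟩ := stage2 h Ch hhb e₀ (Q 0) v Cm hv0 hm z hz0 hz1 hzr
  
  have hX : An (fun K t => XX x K t) := by
    have hmono : ∀ p : ℕ, An (fun K t => x p K * t ^ p) := by
      intro p
      apply An.monomial (x p) p
      rcases Nat.eq_zero_or_pos p with hp | hp
      · subst hp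
        exact ⟨1, Eventually.of_forall fun K => by rw [hx0]; simp⟩
      · obtain ⟨C, hC⟩ := core_isBigO_bound (PW.isBigO (hx p hp))
        refine ⟨|C|, ?_⟩
        filter_upwards [eventually_ge_atTop 1] with K hK
        refine (hC K hK).trans ?_
        have h1 : pw ((p : ℝ) / 3) K ≤ 1 := core_pw_nonneg_le_one (by positivity) hK
        have h2 : 1 ≤ pw (-(2/3)) K ^ p := one_le_pow₀ (core_one_le_pw (by norm_num) hK)
        calc C * pw ((p : ℝ) / 3) K ≤ |C| * pw ((p : ℝ) / 3) K :=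
              mul_le_mul_of_nonneg_right (le_abs_self _) (core_pw_pos _ _).le
          _ ≤ |C| * pw (-(2/3)) K ^ p := mul_le_mul_of_nonneg_left (h1.trans h2) (abs_nonneg _)
    have h7 : (fun K t => XX x K t) = fun K t => x 0 K * t ^ 0 + (x 1 K * t ^ 1 + (x 2 K * t ^ 2 +
        (x 3 K * t ^ 3 + (x 4 K * t ^ 4 + (x 5 K * t ^ 5 + x 6 K * t ^ 6))))) := by
      funext K t
      unfold XX
      simp only [Finset.sum_range_succ, Finset.sum_range_zero]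
      ring
    rw [h7]
    exact (hmono 0).add ((hmono 1).add ((hmono 2).add ((hmono 3).add ((hmono 4).add
      ((hmono 5).add (hmono 6))))))
  have hE : An (fun K t => Real.exp (Φ K t)) := by
    have h1 : (fun K t => Real.exp (Φ K t)) =
        fun K t => Real.exp (∑ i ∈ Finset.Icc 1 3, c K i * t ^ i) := by
      funext K t
      rw [hΦc]
    rw [h1]
    exact An.exp_poly 3 c hc
  obtain ⟨C3, hE1⟩ : ∃ C3 : ℝ, ∀ᶠ K : ℕ in atTop, ∀ t : ℝ, 0 < t → t * pw (-(2/3)) K ≤ 1 →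
      |Real.exp (Φ K t) - 1| ≤ C3 * (t * pw (-(2/3)) K) := by
    obtain ⟨D1, d1⟩ := hc 1 le_rfl (by norm_num)
    obtain ⟨D2, d2⟩ := hc 2 (by norm_num) (by norm_num)
    obtain ⟨D3, d3⟩ := hc 3 (by norm_num) le_rfl
    refine ⟨(|D1| + |D2| + |D3|) * Real.exp (|D1| + |D2| + |D3|), ?_⟩
    filter_upwards [d1, d2, d3, eventually_ge_atTop 1] with K d1 d2 d3 hK t ht hr
    set L := pw (-(2/3)) K with hL
    have hLpos : 0 < L := core_pw_pos _ _
    set u := t * L with hu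
    have hu0 : 0 < u := mul_pos ht hLpos
    have hterm : ∀ (i : ℕ) (D : ℝ), 1 ≤ i → |c K i| ≤ D * L ^ i → |c K i * t ^ i| ≤ |D| * u := by
      intro i D hi hD
      rw [abs_mul, abs_of_nonneg (pow_nonneg ht.le i)]
      calc |c K i| * t ^ i ≤ (D * L ^ i) * t ^ i :=
            mul_le_mul_of_nonneg_right hD (pow_nonneg ht.le i)
        _ = D * u ^ i := by rw [hu, mul_pow]; ring
        _ ≤ |D| * u ^ i := mul_le_mul_of_nonneg_right (le_abs_self _) (pow_nonneg hu0.le i)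
        _ ≤ |D| * u := by
          apply mul_le_mul_of_nonneg_left _ (abs_nonneg _)
          exact pow_le_of_le_one hu0.le hr (by omega)
    have hs : |Φ K t| ≤ (|D1| + |D2| + |D3|) * u := by
      rw [hΦc]
      have h123 : ∑ i ∈ Finset.Icc 1 3, c K i * t ^ i = c K 1 * t ^ 1 + c K 2 * t ^ 2 + c K 3 * t ^ 3 := by
        simp [Finset.sum_Icc_succ_top]
      rw [h123]
      have b1 := hterm 1 D1 le_rfl d1
      have b2 := hterm 2 D2 (by norm_num) d2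
      have b3 := hterm 3 D3 (by norm_num) d3
      calc |c K 1 * t ^ 1 + c K 2 * t ^ 2 + c K 3 * t ^ 3|
          ≤ |c K 1 * t ^ 1 + c K 2 * t ^ 2| + |c K 3 * t ^ 3| := abs_add_le _ _
        _ ≤ |c K 1 * t ^ 1| + |c K 2 * t ^ 2| + |c K 3 * t ^ 3| := by
          have := abs_add_le (c K 1 * t ^ 1) (c K 2 * t ^ 2)
          linarith
        _ ≤ _ := by nlinarith
    set S := |D1| + |D2| + |D3| with hS
    have hS0 : 0 ≤ S := by positivity
    have hΦS : |Φ K t| ≤ S := hs.trans (by nlinarith)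
    have key : |Real.exp (Φ K t) - 1| ≤ |Φ K t| * Real.exp |Φ K t| := by
      rcases le_total 0 (Φ K t) with hp | hp
      · rw [abs_of_nonneg hp]
        have h1 := Real.add_one_le_exp (-(Φ K t))
        have h2 : 0 < Real.exp (Φ K t) := Real.exp_pos _
        have h3 : Real.exp (-(Φ K t)) * Real.exp (Φ K t) = 1 := by
          rw [← Real.exp_add]; simp
        have h4 : 1 ≤ Real.exp (Φ K t) := Real.one_le_exp hp
        rw [abs_of_nonneg (by linarith)]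
        nlinarith
      · rw [abs_of_nonpos hp]
        have h1 := Real.add_one_le_exp (Φ K t)
        have h4 : Real.exp (Φ K t) ≤ 1 := Real.exp_le_one_iff.2 hp
        rw [abs_of_nonpos (by linarith)]
        have h5 : 1 ≤ Real.exp (-(Φ K t)) := Real.one_le_exp (by linarith)
        nlinarith
    calc |Real.exp (Φ K t) - 1| ≤ |Φ K t| * Real.exp |Φ K t| := key
      _ ≤ (S * u) * Real.exp S := by
        apply mul_le_mul hs (Real.exp_le_exp.2 hΦS) (Real.exp_pos _).le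
        positivity
      _ = S * Real.exp S * u := by ring
  obtain ⟨C4, hX1⟩ : ∃ C4 : ℝ, ∀ᶠ K : ℕ in atTop, ∀ t : ℝ, 0 < t → t * pw (-(2/3)) K ≤ 1 →
      |XX x K t - 1| ≤ C4 * (t * pw (-(2/3)) K) := by
    obtain ⟨c₁, C, hc₁, hC, hXb⟩ := XX_bounds f₀ δ hf₀ hδ hδ' x hx0 hx hx1
    refine ⟨C, ?_⟩
    filter_upwards [hXb, eventually_ge_atTop 1] with K hXb hK t ht hr
    obtain ⟨b1, b2, -⟩ := hXb t ht (core_regime_le hK ht hr)
    have h1 : 0 ≤ c₁ * t * pw (1/3) K := by have := core_pw_pos (1/3) K; positivity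
    rw [abs_of_nonneg (by linarith)]
    have h2 : pw (1/3) K ≤ pw (-(2/3)) K := core_pw_anti (by norm_num) hK
    have h3 : C * t * pw (1/3) K ≤ C * t * pw (-(2/3)) K :=
      mul_le_mul_of_nonneg_left h2 (by positivity)
    linarith
  
  obtain ⟨a, μ', V, ha, hμ', hΦ', hV⟩ : ∃ (a : ℕ) (μ' : ℝ) (V : ℕ → ℝ → ℝ), (a = 1 ∨ a = 3) ∧
      ((a = 1 ∧ μ' ≠ 0) ∨ (a = 3 ∧ μ' < 0)) ∧
      (∀ m t, Φ m t = 3 / 2 * f₀ * (t * pw (-(2/3)) m) + U m t + μ' * t ^ a * Real.log m + V m t) ∧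
      (∃ C : ℝ, ∀ (n : ℕ) (t : ℝ), 1 ≤ n → 0 < t → t ≤ 1 →
        |V n t| ≤ C * t ^ (a + 2) * Real.log n) := by
    by_cases hμ : μ = 0
    · refine ⟨3, -(f₀ ^ 3 / 24), fun _ _ => 0, Or.inr rfl, Or.inr ⟨rfl, ?_⟩, ?_, ⟨0, ?_⟩⟩
      · have : 0 < f₀ ^ 3 := by positivity
        linarith
      · intro m t
        rw [hΦ, hμ]
        ring
      · intro n t _ _ _
        simp
    · refine ⟨1, μ, fun n t => -(f₀ ^ 3 / 24) * t ^ 3 * Real.log n, Or.inl rfl, Or.inl ⟨rfl, hμ⟩,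
        ?_, ⟨f₀ ^ 3 / 24, ?_⟩⟩
      · intro m t
        rw [hΦ]
        ring
      · intro n t hn ht _
        have hl : 0 ≤ Real.log n := Real.log_nonneg (by exact_mod_cast hn)
        rw [abs_mul, abs_mul, abs_neg, abs_of_nonneg (by positivity : 0 ≤ f₀ ^ 3 / 24),
          abs_of_nonneg (by positivity : 0 ≤ t ^ 3), abs_of_nonneg hl]
  have hc0 : 0 < 3 / 2 * f₀ := by positivity
  obtain ⟨s, κ, lam, k3, l', k', AG, C5, hAG, hs, hGd⟩ := G_decomp (3 / 2 * f₀) δ μ' g₀ hc0 hδ hδ' a ha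
    g hg Φ U V hU hΦ' hU2 hV
  set G : ℕ → ℝ → ℝ := fun K t => t * ∑' m : ℕ, g (K + 1 + m) * Real.exp (-Φ (K + 1 + m) t) with hG
  
  obtain ⟨A1, A2, WA, WL, C6, hA1, hA2, hWA, hWL, hS3⟩ := stage3 P Z (fun K t => P (K + 1) t)
    (fun K t => Z (K + 1) t) (fun K t => XX x K t) (fun K t => Real.exp (Φ K t)) z
    (fun K t => z (K + 1) t) G e₀ (|C2| + |C3| + |C4| + |C5|) hP hZ hP' hZ' hX hE (by
      filter_upwards [hS2, hE1, hX1, hGd, eventually_ge_atTop 1] with K a1 a2 a3 a4 hK t ht hr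
      obtain ⟨b1, b2, b3, b4, b5, b6⟩ := a1 t ht hr
      have b7 := a3 t ht hr
      have b8 := a2 t ht hr
      have b9 := (a4 t ht hr).1
      have n2 := abs_nonneg C2
      have n3 := abs_nonneg C3
      have n4 := abs_nonneg C4
      have n5 := abs_nonneg C5
      have m2 := le_abs_self C2
      have m3 := le_abs_self C3
      have m4 := le_abs_self C4
      have m5 := le_abs_self C5
      have u0 : 0 ≤ t * pw (-(2/3)) K := mul_nonneg ht.le (core_pw_pos _ _).le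
      have t7 : 0 ≤ t ^ 7 := by positivity
      have g1 : ∀ (y c : ℝ), 0 ≤ y → c ≤ |C2| → c * y ≤ (|C2| + |C3| + |C4| + |C5|) * y := by
        intro y c hy hc
        apply mul_le_mul_of_nonneg_right _ hy
        linarith
      refine ⟨b1.trans (g1 _ _ t7 m2), b2.trans (g1 _ _ t7 m2), b3.trans (g1 _ _ u0 m2),
        b4.trans (g1 _ _ u0 m2), b5.trans (g1 _ _ u0 m2), b6.trans (g1 _ _ u0 m2), ?_, ?_, ?_⟩
      · refine b7.trans ?_
        apply mul_le_mul_of_nonneg_right _ u0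
        linarith
      · refine b8.trans ?_
        apply mul_le_mul_of_nonneg_right _ u0
        linarith
      · refine b9.trans ?_
        have p1 : pw (4/3) K ≤ 1 := core_pw_nonneg_le_one (by norm_num) hK
        have p2 : t ≤ 1 := core_regime_le hK ht hr
        have p3 : t * pw (4/3) K ≤ 1 := by
          have := core_pw_pos (4/3) K
          nlinarith
        have p4 : 0 ≤ t * pw (4/3) K := mul_nonneg ht.le (core_pw_pos _ _).le
        calc C5 * (t * pw (4/3) K) ≤ |C5| * (t * pw (4/3) K) :=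
              mul_le_mul_of_nonneg_right m5 p4
          _ ≤ |C5| * 1 := mul_le_mul_of_nonneg_left p3 n5
          _ ≤ _ := by linarith)
  set F : ℕ → ℝ → ℝ := fun K t => 2 * (-1 : ℝ) ^ K * (z K t - XX x K t * z (K + 1) t)
        + (z K t + XX x K t * z (K + 1) t) * XX x K t * (Real.exp (Φ K t) * G K t) with hF
  have hall : ∀ᶠ K : ℕ in atTop, ∀ t : ℝ, 0 < t → t * pw (-(2/3)) K ≤ 1 →
        |F K t| ≤ (|C1| + |C5| + |C6|) * (t * pw (13/3) K) ∧
        |A2 K t - 4| ≤ (|C1| + |C5| + |C6|) * (t * pw (-(2/3)) K) ∧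
        |WA K t - (e₀ + Real.pi)| ≤ (|C1| + |C5| + |C6|) * (t * pw (-(2/3)) K) ∧
        |WL K t - 1| ≤ (|C1| + |C5| + |C6|) * (t * pw (-(2/3)) K) ∧
        |F K t - (A1 K t + t ^ 3 * Real.log t * A2 K t + WA K t * G K t
            - 2 * (t ^ 3 * Real.log t) * WL K t * G K t)| ≤ (|C1| + |C5| + |C6|) * t ^ 7 ∧
        |G K t| ≤ (|C1| + |C5| + |C6|) * (t * pw (4/3) K) ∧
        |G K t - (k3 * t ^ 3 + -(3 / 4 * (3 / 2 * f₀) ^ 2 * g₀) * (t ^ 3 * Real.log t)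
            + (∑ β ∈ s, (κ β * t ^ β + lam β * (t ^ β * Real.log t)))
            + -(μ' * g₀) * (9 / 16 * (3 / 2 * f₀) ^ 2 * (t ^ (a + 3) * Real.log t ^ 2)
                + l' * (t ^ (a + 3) * Real.log t) + k' * t ^ (a + 3))
            + AG K t)| ≤ (|C1| + |C5| + |C6|) * (t * pw (4/3 + 2 * a / 3 + δ / 2) K) := by
    filter_upwards [hS1, hGd, hS3] with K a1 a2 a3 t ht hr
    have b1 := a1 t ht hr
    obtain ⟨b2, b3⟩ := a2 t ht hr
    obtain ⟨b4, b5, b6, b7⟩ := a3 t ht hr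
    have n1 := abs_nonneg C1
    have n5 := abs_nonneg C5
    have n6 := abs_nonneg C6
    have m1 := le_abs_self C1
    have m5 := le_abs_self C5
    have m6 := le_abs_self C6
    have u0 : 0 ≤ t * pw (-(2/3)) K := mul_nonneg ht.le (core_pw_pos _ _).le
    have u1 : 0 ≤ t * pw (13/3) K := mul_nonneg ht.le (core_pw_pos _ _).le
    have u2 : 0 ≤ t * pw (4/3) K := mul_nonneg ht.le (core_pw_pos _ _).le
    have u3 : 0 ≤ t * pw (4/3 + 2 * a / 3 + δ / 2) K := mul_nonneg ht.le (core_pw_pos _ _).le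
    have t7 : 0 ≤ t ^ 7 := by positivity
    have gen : ∀ (y c : ℝ), 0 ≤ y → c ≤ |C1| + |C5| + |C6| → c * y ≤ (|C1| + |C5| + |C6|) * y :=
      fun y c hy hc => mul_le_mul_of_nonneg_right hc hy
    exact ⟨b1.trans (gen _ _ u1 (by linarith)), b4.trans (gen _ _ u0 (by linarith)),
      b5.trans (gen _ _ u0 (by linarith)), b6.trans (gen _ _ u0 (by linarith)),
      b7.trans (gen _ _ t7 (by linarith)), b2.trans (gen _ _ u2 (by linarith)),
      b3.trans (gen _ _ u3 (by linarith))⟩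
  have hid1 := final_step1 (3 / 2 * f₀) δ e₀ μ' g₀ (2 / 3 + δ / 12) hc0 hδ hδ' rfl a ha F G A1 A2 WA WL
    AG hA1 hA2 hWA hWL hAG s κ lam k3 l' k' (|C1| + |C5| + |C6|) hs hall
  have hid2 := final_step2 (3 / 2 * f₀) δ e₀ μ' g₀ (2 / 3 + δ / 12) hc0 hδ hδ' rfl a ha F G A1 A2 WA WL
    AG hA1 hA2 hWA hWL hAG s κ lam k3 l' k' (|C1| + |C5| + |C6|) hs hall
  have hpi := Real.pi_pos
  have hf2 : 0 < f₀ ^ 2 := by positivity
  have hg₀ : 0 < g₀ := by
    by_contra hneg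
    push Not at hneg
    have h1 : (e₀ + Real.pi) * (3 / 4 * (3 / 2 * f₀) ^ 2 * g₀) ≤ 0 := by
      apply mul_nonpos_of_nonneg_of_nonpos (by linarith)
      apply mul_nonpos_of_nonneg_of_nonpos (by positivity) hneg
    linarith
  rcases hμ' with ⟨rfl, hμ'⟩ | ⟨rfl, hμ'⟩
  · rw [if_neg (by norm_num), add_zero, neg_eq_zero] at hid2
    have h1 : (e₀ + Real.pi) ≠ 0 := by linarith
    have h2 : μ' * g₀ ≠ 0 := mul_ne_zero hμ' hg₀.ne'
    have h3 : (9 / 16 * (3 / 2 * f₀) ^ 2) ≠ 0 := by positivity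
    exact mul_ne_zero (mul_ne_zero h1 h2) h3 hid2
  · rw [if_pos rfl] at hid2
    have h1 : 0 < e₀ + Real.pi := by linarith
    have h2 : μ' * g₀ < 0 := mul_neg_of_neg_of_pos hμ' hg₀
    have h3 : 0 < 9 / 16 * (3 / 2 * f₀) ^ 2 := by positivity
    have h4 : (e₀ + Real.pi) * (μ' * g₀) < 0 := mul_neg_of_pos_of_neg h1 h2
    have h5 : (e₀ + Real.pi) * (μ' * g₀) * (9 / 16 * (3 / 2 * f₀) ^ 2) < 0 :=
      mul_neg_of_neg_of_pos h4 h3
    have h6 : 0 < 3 / 2 * (3 / 2 * f₀) ^ 2 * g₀ := by positivity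
    linarith

end Pool.Agent.Helper615.LogA
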