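import Mathlib
import Pool.Agent.Helper615.LogA.Defs
set_option autoImplicit false

namespace Pool.Agent.Helper615.LogA

open MeasureTheory
def d1_PO (F : ℝ → ℝ) (c : ℝ) : Prop := ∃ (v : ℕ → ℝ) (C : ℝ), v 0 = c ∧ ∀ t : ℝ, 0 < t → t ≤ 1 →
  |F t - ∑ j ∈ Finset.range 7, v j * t ^ j| ≤ C * t ^ 7
theorem d1_PO.add {F G : ℝ → ℝ} {c d : ℝ} (hF : d1_PO F c) (hG : d1_PO G d) :
    d1_PO (fun t => F t + G t) (c + d) := by
  obtain ⟨v, C, hv, h⟩ := hF
  obtain ⟨w, D, hw, k⟩ := hG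
  refine ⟨fun j => v j + w j, C + D, by simp [hv, hw], fun t h0 h1 => ?_⟩
  have e : F t + G t - ∑ j ∈ Finset.range 7, (v j + w j) * t ^ j =
      (F t - ∑ j ∈ Finset.range 7, v j * t ^ j) + (G t - ∑ j ∈ Finset.range 7, w j * t ^ j) := by
    simp only [add_mul, Finset.sum_add_distrib]; ring
  rw [e, add_mul]
  exact (abs_add_le _ _).trans (add_le_add (h t h0 h1) (k t h0 h1))
theorem d1_PO.smul {F : ℝ → ℝ} {c : ℝ} (hF : d1_PO F c) (a : ℝ) :
    d1_PO (fun t => a * F t) (a * c) := by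
  obtain ⟨v, C, hv, h⟩ := hF
  refine ⟨fun j => a * v j, |a| * C, by simp [hv], fun t h0 h1 => ?_⟩
  have e : a * F t - ∑ j ∈ Finset.range 7, (a * v j) * t ^ j =
      a * (F t - ∑ j ∈ Finset.range 7, v j * t ^ j) := by
    simp only [mul_assoc, ← Finset.mul_sum]; ring
  rw [e, abs_mul, mul_assoc]
  exact mul_le_mul_of_nonneg_left (h t h0 h1) (abs_nonneg _)
theorem d1_PO.mul_t {F : ℝ → ℝ} {c : ℝ} (hF : d1_PO F c) : d1_PO (fun t => t * F t) 0 := by
  obtain ⟨v, C, hv, h⟩ := hF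
  refine ⟨fun j => if j = 0 then 0 else v (j - 1), |C| + |v 6|, by simp, fun t h0 h1 => ?_⟩
  have e : t * F t - ∑ j ∈ Finset.range 7, (if j = 0 then 0 else v (j - 1)) * t ^ j =
      t * (F t - ∑ j ∈ Finset.range 7, v j * t ^ j) + v 6 * t ^ 7 := by
    simp only [Finset.sum_range_succ, Finset.sum_range_zero]
    norm_num
    ring
  rw [e]
  have ht7 : 0 < t ^ 7 := by positivity
  have h2 : |t * (F t - ∑ j ∈ Finset.range 7, v j * t ^ j)| ≤ |C| * t ^ 7 := by
    rw [abs_mul, abs_of_pos h0]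
    calc t * |F t - ∑ j ∈ Finset.range 7, v j * t ^ j| ≤
        1 * |F t - ∑ j ∈ Finset.range 7, v j * t ^ j| :=
          mul_le_mul_of_nonneg_right h1 (abs_nonneg _)
      _ ≤ C * t ^ 7 := by rw [one_mul]; exact h t h0 h1
      _ ≤ _ := mul_le_mul_of_nonneg_right (le_abs_self _) ht7.le
  have h3 : |v 6 * t ^ 7| = |v 6| * t ^ 7 := by rw [abs_mul, abs_of_pos ht7]
  rw [add_mul]
  exact (abs_add_le _ _).trans (add_le_add h2 h3.le)
theorem d1_PO.congr {F G : ℝ → ℝ} {c : ℝ} (hF : d1_PO F c) (h : ∀ t, 0 < t → t ≤ 1 → G t = F t) :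
    d1_PO G c := by
  obtain ⟨v, C, hv, k⟩ := hF
  exact ⟨v, C, hv, fun t h0 h1 => by rw [h t h0 h1]; exact k t h0 h1⟩
theorem d1_PO_one : d1_PO (fun _ => 1) 1 := by
  refine ⟨fun j => if j = 0 then 1 else 0, 0, by simp, fun t h0 h1 => ?_⟩
  simp
theorem d1_PO_pow (k : ℕ) : d1_PO (fun t => t ^ (k + 1)) 0 := by
  induction k with
  | zero => exact d1_PO_one.mul_t.congr (fun t _ _ => by ring)
  | succ k ih => exact ih.mul_t.congr (fun t _ _ => by ring)
theorem d1_PO.mul_pow {F : ℝ → ℝ} {c : ℝ} (hF : d1_PO F c) (k : ℕ) :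
    d1_PO (fun t => t ^ (k + 1) * F t) 0 := by
  induction k with
  | zero => exact hF.mul_t.congr (fun t _ _ => by ring)
  | succ k ih => exact ih.mul_t.congr (fun t _ _ => by ring)
theorem d1_PO_of_deriv {F : ℝ → ℝ} (v : ℕ → ℝ) (F' : ℝ → ℝ) (C : ℝ)
    (hF0 : F 0 = v 0)
    (hF : ∀ t : ℝ, 0 ≤ t → t ≤ 1 → HasDerivAt F (F' t) t)
    (hb : ∀ t : ℝ, 0 ≤ t → t ≤ 1 →
      |F' t - ∑ j ∈ Finset.range 6, ((j:ℝ) + 1) * v (j + 1) * t ^ j| ≤ C * t ^ 6) : d1_PO F (v 0) := by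
  refine ⟨v, |C|, rfl, fun t h0 h1 => ?_⟩
  set d : ℝ → ℝ := fun s => F s - ∑ j ∈ Finset.range 7, v j * s ^ j with hd
  have hd' : ∀ s ∈ Set.Icc (0:ℝ) t, HasDerivWithinAt d
      (F' s - ∑ j ∈ Finset.range 6, ((j:ℝ) + 1) * v (j + 1) * s ^ j) (Set.Icc 0 t) s := by
    intro s hs
    have h2 : HasDerivAt (fun s : ℝ => ∑ j ∈ Finset.range 7, v j * s ^ j)
        (∑ j ∈ Finset.range 6, ((j:ℝ) + 1) * v (j + 1) * s ^ j) s := by
      have h3 : HasDerivAt (fun s : ℝ => ∑ j ∈ Finset.range 7, v j * s ^ j)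
          (∑ j ∈ Finset.range 7, v j * (j * s ^ (j - 1))) s := by
        have := HasDerivAt.fun_sum (u := Finset.range 7) (x := s)
          (A := fun (j : ℕ) (s : ℝ) => v j * s ^ j) (A' := fun j : ℕ => v j * (j * s ^ (j - 1)))
          (fun j _ => (hasDerivAt_pow j s).const_mul (v j))
        exact this
      convert h3 using 1
      simp only [Finset.sum_range_succ, Finset.sum_range_zero]
      norm_num
      ring
    exact ((hF s hs.1 (hs.2.trans h1)).sub h2).hasDerivWithinAt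
  have hbd : ∀ s ∈ Set.Icc (0:ℝ) t,
      ‖F' s - ∑ j ∈ Finset.range 6, ((j:ℝ) + 1) * v (j + 1) * s ^ j‖ ≤ |C| * t ^ 6 := by
    intro s hs
    rw [Real.norm_eq_abs]
    refine (hb s hs.1 (hs.2.trans h1)).trans ?_
    have h4 : s ^ 6 ≤ t ^ 6 := pow_le_pow_left₀ hs.1 hs.2 6
    have h5 : 0 ≤ s ^ 6 := by have := hs.1; positivity
    calc C * s ^ 6 ≤ |C| * s ^ 6 := mul_le_mul_of_nonneg_right (le_abs_self _) h5
      _ ≤ _ := mul_le_mul_of_nonneg_left h4 (abs_nonneg _)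
  have h6 := (convex_Icc (0:ℝ) t).norm_image_sub_le_of_norm_hasDerivWithin_le hd' hbd
    (Set.left_mem_Icc.2 h0.le) (Set.right_mem_Icc.2 h0.le)
  have hd0 : d 0 = 0 := by
    simp only [hd, Finset.sum_range_succ, Finset.sum_range_zero]
    norm_num
    rw [hF0]; ring
  rw [hd0, sub_zero, sub_zero, Real.norm_eq_abs, Real.norm_eq_abs, abs_of_pos h0] at h6
  calc |F t - ∑ j ∈ Finset.range 7, v j * t ^ j| ≤ |C| * t ^ 6 * t := h6
    _ = _ := by ring
theorem d1_PO_arctan : d1_PO Real.arctan 0 := by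
  have := d1_PO_of_deriv (F := Real.arctan)
    (fun j => if j = 1 then 1 else if j = 3 then -(1 / 3) else if j = 5 then 1 / 5 else 0)
    (fun t => 1 / (1 + t ^ 2)) 1 (by simp) (fun t _ _ => Real.hasDerivAt_arctan t)
    (fun t h0 h1 => by
      have h2 : (0:ℝ) < 1 + t ^ 2 := by positivity
      have e : 1 / (1 + t ^ 2) - ∑ j ∈ Finset.range 6, ((j:ℝ) + 1) *
          (if j + 1 = 1 then (1:ℝ) else if j + 1 = 3 then -(1 / 3) else if j + 1 = 5 then 1 / 5
            else 0) * t ^ j = -(t ^ 6 / (1 + t ^ 2)) := by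
        simp only [Finset.sum_range_succ, Finset.sum_range_zero]
        norm_num
        field_simp
        ring
      rw [e, abs_neg, abs_of_nonneg (by positivity), one_mul]
      exact div_le_self (by positivity) (by nlinarith [sq_nonneg t]))
  simpa using this
theorem d1_PO_log : d1_PO (fun t => Real.log (1 + t ^ 2)) 0 := by
  have := d1_PO_of_deriv (F := fun t => Real.log (1 + t ^ 2))
    (fun j => if j = 2 then 1 else if j = 4 then -(1 / 2) else if j = 6 then 1 / 3 else 0)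
    (fun t => (2 * t) / (1 + t ^ 2)) 2 (by simp)
    (fun t _ _ => by
      have h2 : (0:ℝ) < 1 + t ^ 2 := by positivity
      have h3 : HasDerivAt (fun t : ℝ => 1 + t ^ 2) (2 * t) t := by
        simpa using (hasDerivAt_pow 2 t).const_add 1
      exact h3.log h2.ne')
    (fun t h0 h1 => by
      have h2 : (0:ℝ) < 1 + t ^ 2 := by positivity
      have e : (2 * t) / (1 + t ^ 2) - ∑ j ∈ Finset.range 6, ((j:ℝ) + 1) *
          (if j + 1 = 2 then (1:ℝ) else if j + 1 = 4 then -(1 / 2) else if j + 1 = 6 then 1 / 3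
            else 0) * t ^ j = -(2 * t ^ 7 / (1 + t ^ 2)) := by
        simp only [Finset.sum_range_succ, Finset.sum_range_zero]
        norm_num
        field_simp
        ring
      rw [e, abs_neg, abs_of_nonneg (by positivity)]
      refine (div_le_self (by positivity) (by nlinarith [sq_nonneg t])).trans ?_
      have h6 : 0 ≤ t ^ 6 := by positivity
      calc 2 * t ^ 7 = 2 * (t * t ^ 6) := by ring
        _ ≤ 2 * (1 * t ^ 6) := by
          have := mul_le_mul_of_nonneg_right h1 h6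
          linarith
        _ = _ := by ring)
  simpa using this
theorem d1_intg_pow (n : ℕ) : IntegrableOn (fun y : ℝ => y ^ n * Real.exp (-y)) (Set.Ioi 0) := by
  have h := Real.GammaIntegral_convergent (s := (n:ℝ) + 1) (by positivity)
  refine h.congr_fun (fun y hy => ?_) measurableSet_Ioi
  simp only
  rw [add_sub_cancel_right, Real.rpow_natCast, mul_comm]
theorem d1_PO_E (E : ℝ → ℝ) (hE : Measurable E) (K : ℝ)
    (hK : ∀ y : ℝ, 0 < y → |E y| ≤ K * (y ^ 8 * Real.exp (-y))) :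
    d1_PO (fun t => ∫ y in Set.Ioi (0:ℝ), E y * (t / (y ^ 2 + t ^ 2))) 0 := by
  have hg : ∀ m : ℕ, m ≤ 8 → IntegrableOn (fun y => E y / y ^ m) (Set.Ioi 0) := by
    intro m hm
    refine Integrable.mono' ((d1_intg_pow (8 - m)).const_mul K) ?_ ?_
    · exact (hE.div (measurable_id.pow_const m)).aestronglyMeasurable
    · refine (ae_restrict_iff' measurableSet_Ioi).2 (Filter.Eventually.of_forall fun y hy => ?_)
      have hy0 : (0:ℝ) < y := hy
      rw [Real.norm_eq_abs, abs_div, abs_of_pos (pow_pos hy0 m), div_le_iff₀ (pow_pos hy0 m)]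
      refine (hK y hy0).trans (le_of_eq ?_)
      have : y ^ 8 = y ^ (8 - m) * y ^ m := by rw [← pow_add, Nat.sub_add_cancel hm]
      rw [this]; ring
  refine ⟨fun j => if j = 1 then ∫ y in Set.Ioi (0:ℝ), E y / y ^ 2 else
    if j = 3 then -∫ y in Set.Ioi (0:ℝ), E y / y ^ 4 else
    if j = 5 then ∫ y in Set.Ioi (0:ℝ), E y / y ^ 6 else 0,
    ∫ y in Set.Ioi (0:ℝ), |E y / y ^ 8|, by simp, fun t h0 h1 => ?_⟩
  have hI : IntegrableOn (fun y => E y * (t / (y ^ 2 + t ^ 2))) (Set.Ioi 0) := by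
    refine Integrable.mono' ((hg 2 (by norm_num)).norm.const_mul t) ?_ ?_
    · apply Measurable.aestronglyMeasurable
      apply hE.mul
      apply Measurable.div measurable_const
      fun_prop
    · refine (ae_restrict_iff' measurableSet_Ioi).2 (Filter.Eventually.of_forall fun y hy => ?_)
      have hy0 : (0:ℝ) < y := hy
      rw [Real.norm_eq_abs, Real.norm_eq_abs, abs_mul, abs_div (E y), abs_of_pos (pow_pos hy0 2),
        abs_of_pos (show 0 < t / (y ^ 2 + t ^ 2) by positivity), mul_div_left_comm]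
      apply mul_le_mul_of_nonneg_left _ h0.le
      apply div_le_div_of_nonneg_left (abs_nonneg _) (by positivity)
      nlinarith [sq_nonneg t]
  have h2 := hg 2 (by norm_num)
  have h4 := hg 4 (by norm_num)
  have h6 := hg 6 (by norm_num)
  have h8 := hg 8 le_rfl
  have key : (∫ y in Set.Ioi (0:ℝ), E y * (t / (y ^ 2 + t ^ 2))) -
      (t * (∫ y in Set.Ioi (0:ℝ), E y / y ^ 2) - t ^ 3 * (∫ y in Set.Ioi (0:ℝ), E y / y ^ 4) +
        t ^ 5 * (∫ y in Set.Ioi (0:ℝ), E y / y ^ 6)) =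
      ∫ y in Set.Ioi (0:ℝ), (E y * (t / (y ^ 2 + t ^ 2)) -
        (t * (E y / y ^ 2) - t ^ 3 * (E y / y ^ 4) + t ^ 5 * (E y / y ^ 6))) := by
    rw [integral_sub hI, integral_add, integral_sub, integral_const_mul, integral_const_mul,
      integral_const_mul]
    · exact h2.const_mul t
    · exact h4.const_mul _
    · exact (h2.const_mul t).sub (h4.const_mul _)
    · exact h6.const_mul _
    · exact ((h2.const_mul t).sub (h4.const_mul _)).add (h6.const_mul _)
  have hsum : ∑ j ∈ Finset.range 7, (if j = 1 then ∫ y in Set.Ioi (0:ℝ), E y / y ^ 2 else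
    if j = 3 then -∫ y in Set.Ioi (0:ℝ), E y / y ^ 4 else
    if j = 5 then ∫ y in Set.Ioi (0:ℝ), E y / y ^ 6 else 0) * t ^ j =
      (t * (∫ y in Set.Ioi (0:ℝ), E y / y ^ 2) - t ^ 3 * (∫ y in Set.Ioi (0:ℝ), E y / y ^ 4) +
        t ^ 5 * (∫ y in Set.Ioi (0:ℝ), E y / y ^ 6)) := by
    simp only [Finset.sum_range_succ, Finset.sum_range_zero]
    norm_num
    ring
  rw [hsum, key]
  have h9 : ‖∫ y in Set.Ioi (0:ℝ), (E y * (t / (y ^ 2 + t ^ 2)) -
        (t * (E y / y ^ 2) - t ^ 3 * (E y / y ^ 4) + t ^ 5 * (E y / y ^ 6)))‖ ≤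
      ∫ y in Set.Ioi (0:ℝ), t ^ 7 * |E y / y ^ 8| := by
    apply norm_integral_le_of_norm_le (h8.norm.const_mul _)
    refine (ae_restrict_iff' measurableSet_Ioi).2 (Filter.Eventually.of_forall fun y hy => ?_)
    have hy0 : (0:ℝ) < y := hy
    have e : E y * (t / (y ^ 2 + t ^ 2)) -
        (t * (E y / y ^ 2) - t ^ 3 * (E y / y ^ 4) + t ^ 5 * (E y / y ^ 6)) =
        -(t ^ 7 * (E y / (y ^ 6 * (y ^ 2 + t ^ 2)))) := by
      have : y ^ 2 + t ^ 2 ≠ 0 := by positivity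
      field_simp
      ring
    rw [e, norm_neg, Real.norm_eq_abs, abs_mul, abs_of_pos (pow_pos h0 7)]
    apply mul_le_mul_of_nonneg_left _ (pow_pos h0 7).le
    rw [Real.norm_eq_abs, abs_div, abs_div, abs_of_pos (by positivity : 0 < y ^ 8),
      abs_of_pos (by positivity : 0 < y ^ 6 * (y ^ 2 + t ^ 2))]
    apply div_le_div_of_nonneg_left (abs_nonneg _) (by positivity)
    have : 0 ≤ y ^ 6 * t ^ 2 := by positivity
    nlinarith
  rw [integral_const_mul, Real.norm_eq_abs] at h9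
  linarith
theorem d1_explicit_J {t : ℝ} (h0 : 0 < t) :
    ∫ y in (0:ℝ)..1, (1 - y ^ 3 + y ^ 6 / 2) * (t / (y ^ 2 + t ^ 2)) =
      (1 - t ^ 6 / 2) * (Real.pi / 2 - Real.arctan t) - t / 2 +
      t ^ 3 / 2 * (Real.log (1 + t ^ 2) - 2 * Real.log t) + t / 2 * (1 / 5 - t ^ 2 / 3 + t ^ 4) := by
  have hder : ∀ y ∈ Set.uIcc (0:ℝ) 1, HasDerivAt (fun y : ℝ =>
      (1 - t ^ 6 / 2) * Real.arctan (y / t) - t * y ^ 2 / 2 + t ^ 3 / 2 * Real.log (y ^ 2 + t ^ 2) +
        t / 2 * (y ^ 5 / 5 - t ^ 2 * y ^ 3 / 3 + t ^ 4 * y))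
      ((1 - y ^ 3 + y ^ 6 / 2) * (t / (y ^ 2 + t ^ 2))) y := by
    intro y _
    have hp : y ^ 2 + t ^ 2 ≠ 0 := by positivity
    have e1 : HasDerivAt (fun y : ℝ => Real.arctan (y / t)) (1 / (1 + (y / t) ^ 2) * (1 / t)) y :=
      ((hasDerivAt_id y).div_const t).arctan
    have e2 : HasDerivAt (fun y : ℝ => t * y ^ 2 / 2) (t * (2 * y) / 2) y := by
      have := ((hasDerivAt_pow 2 y).const_mul t).div_const 2
      simpa using this
    have e3 : HasDerivAt (fun y : ℝ => Real.log (y ^ 2 + t ^ 2)) ((2 * y) / (y ^ 2 + t ^ 2)) y := by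
      have h3 : HasDerivAt (fun y : ℝ => y ^ 2 + t ^ 2) (2 * y) y := by
        simpa using (hasDerivAt_pow 2 y).add_const (t ^ 2)
      exact h3.log hp
    have e4 : HasDerivAt (fun y : ℝ => y ^ 5 / 5 - t ^ 2 * y ^ 3 / 3 + t ^ 4 * y)
        (5 * y ^ 4 / 5 - t ^ 2 * (3 * y ^ 2) / 3 + t ^ 4 * 1) y := by
      have a1 := (hasDerivAt_pow 5 y).div_const 5
      have a2 := ((hasDerivAt_pow 3 y).const_mul (t ^ 2)).div_const 3
      have a3 := (hasDerivAt_id y).const_mul (t ^ 4)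
      refine ((a1.sub a2).add a3).congr_deriv ?_
      norm_num
    have := (((e1.const_mul (1 - t ^ 6 / 2)).sub e2).add (e3.const_mul (t ^ 3 / 2))).add
      (e4.const_mul (t / 2))
    refine this.congr_deriv ?_
    have hp2 : 1 + (y / t) ^ 2 ≠ 0 := by positivity
    field_simp
    ring
  rw [intervalIntegral.integral_eq_sub_of_hasDerivAt hder]
  · have h1 : Real.arctan (1 / t) = Real.pi / 2 - Real.arctan t := by
      rw [one_div]; exact Real.arctan_inv_of_pos h0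
    rw [h1]
    have h2 : Real.log ((0:ℝ) ^ 2 + t ^ 2) = 2 * Real.log t := by
      rw [zero_pow (by norm_num), zero_add, Real.log_pow]; norm_num
    rw [h2, zero_div, Real.arctan_zero, one_pow]
    ring
  · apply Continuous.intervalIntegrable
    apply Continuous.mul (by fun_prop)
    apply Continuous.div continuous_const (by fun_prop)
    intro y; positivity
theorem d1_PO_J : d1_PO (fun t => (∫ y in (0:ℝ)..1, (1 - y ^ 3 + y ^ 6 / 2) * (t / (y ^ 2 + t ^ 2))) +
    t ^ 3 * Real.log t) (Real.pi / 2) := by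
  have hA : d1_PO (fun t => Real.pi / 2 * 1 + (-1) * Real.arctan t) (Real.pi / 2 * 1 + (-1) * 0) :=
    (d1_PO_one.smul _).add (d1_PO_arctan.smul _)
  have h := (((hA.add ((hA.mul_pow 5).smul (-(1/2)))).add ((d1_PO_pow 0).smul (-(1/2)))).add
    (((d1_PO_log.mul_pow 2)).smul (1/2))).add
    (((((d1_PO_pow 0).smul (1/10)).add ((d1_PO_pow 2).smul (-(1/6)))).add ((d1_PO_pow 4).smul (1/2))))
  have h' := h.congr (G := fun t => (∫ y in (0:ℝ)..1, (1 - y ^ 3 + y ^ 6 / 2) *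
    (t / (y ^ 2 + t ^ 2))) + t ^ 3 * Real.log t) (fun t h0 h1 => by
      rw [d1_explicit_J h0]; ring)
  convert h' using 1
  ring
noncomputable def d1_Er (y : ℝ) : ℝ :=
  Real.exp (-(y ^ 3)) - (Set.Iic (1:ℝ)).indicator (fun y => 1 - y ^ 3 + y ^ 6 / 2) y
theorem d1_Er_meas : Measurable d1_Er := by
  unfold d1_Er
  apply Measurable.sub (by fun_prop)
  exact Measurable.indicator (by fun_prop) measurableSet_Iic
theorem d1_Er_bound (y : ℝ) (hy : 0 < y) : |d1_Er y| ≤ 3 * (y ^ 8 * Real.exp (-y)) := by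
  unfold d1_Er
  rcases le_or_gt y 1 with h | h
  · rw [Set.indicator_of_mem (by exact h : y ∈ Set.Iic (1:ℝ))]
    have hy3 : y ^ 3 ≤ 1 := pow_le_one₀ hy.le h
    have h1 := Real.exp_bound (x := -(y ^ 3)) (by rw [abs_neg, abs_of_pos (by positivity)]; exact hy3)
      (n := 3) (by norm_num)
    have e : ∑ m ∈ Finset.range 3, (-(y ^ 3)) ^ m / (m.factorial : ℝ) = 1 - y ^ 3 + y ^ 6 / 2 := by
      simp only [Finset.sum_range_succ, Finset.sum_range_zero]
      norm_num [Nat.factorial]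
      ring
    rw [e, abs_neg (y ^ 3), abs_of_pos (by positivity : 0 < y ^ 3)] at h1
    have h2 : (y ^ 3) ^ 3 * ((Nat.succ 3 : ℕ) / ((Nat.factorial 3 : ℕ) * (3:ℕ)) : ℝ) ≤ y ^ 8 := by
      norm_num [Nat.factorial]
      have e2 : (y ^ 3) ^ 3 = y * y ^ 8 := by ring
      rw [e2]
      have : 0 < y ^ 8 := by positivity
      nlinarith
    have h3 : 1 ≤ 3 * Real.exp (-y) := by
      have h4 : Real.exp (-1) ≤ Real.exp (-y) := Real.exp_le_exp.2 (by linarith)
      have h5 : Real.exp 1 < 3 := by have := Real.exp_one_lt_d9; linarith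
      have h6 : Real.exp (-1) * Real.exp 1 = 1 := by rw [← Real.exp_add]; simp
      nlinarith [Real.exp_pos (-1)]
    have h8 : 0 < y ^ 8 := by positivity
    calc _ ≤ y ^ 8 := h1.trans h2
      _ ≤ y ^ 8 * (3 * Real.exp (-y)) := by nlinarith
      _ = _ := by ring
  · rw [Set.indicator_of_notMem (by simpa using h : y ∉ Set.Iic (1:ℝ)), sub_zero,
      abs_of_pos (Real.exp_pos _)]
    have h1 : Real.exp (-(y ^ 3)) ≤ Real.exp (-y) := by
      apply Real.exp_le_exp.2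
      have : y ≤ y ^ 3 := by
        calc y = y ^ 1 := (pow_one y).symm
          _ ≤ y ^ 3 := pow_le_pow_right₀ h.le (by norm_num)
      linarith
    have h2 : 1 ≤ y ^ 8 := one_le_pow₀ h.le
    have h3 := Real.exp_pos (-y)
    nlinarith
theorem d1_int_split {t : ℝ} (h0 : 0 < t) :
    (∫ x : ℝ, Real.exp (-(|x| ^ (3 : ℝ))) * t / (x ^ 2 + t ^ 2)) =
      2 * ((∫ y in Set.Ioi (0:ℝ), d1_Er y * (t / (y ^ 2 + t ^ 2))) +
        ∫ y in (0:ℝ)..1, (1 - y ^ 3 + y ^ 6 / 2) * (t / (y ^ 2 + t ^ 2))) := by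
  have h1 : (∫ x : ℝ, Real.exp (-(|x| ^ (3 : ℝ))) * t / (x ^ 2 + t ^ 2)) =
      ∫ x : ℝ, (fun y : ℝ => Real.exp (-(y ^ 3)) * (t / (y ^ 2 + t ^ 2))) |x| := by
    apply integral_congr_ae
    refine Filter.Eventually.of_forall fun x => ?_
    simp only
    rw [sq_abs, mul_div_assoc]
    congr 3
    exact_mod_cast Real.rpow_natCast |x| 3
  rw [h1, integral_comp_abs (f := fun y : ℝ => Real.exp (-(y ^ 3)) * (t / (y ^ 2 + t ^ 2)))]
  congr 1
  have h2 : (∫ y in (0:ℝ)..1, (1 - y ^ 3 + y ^ 6 / 2) * (t / (y ^ 2 + t ^ 2))) =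
      ∫ y in Set.Ioi (0:ℝ), (Set.Iic (1:ℝ)).indicator
        (fun y => (1 - y ^ 3 + y ^ 6 / 2) * (t / (y ^ 2 + t ^ 2))) y := by
    rw [setIntegral_indicator measurableSet_Iic, intervalIntegral.integral_of_le zero_le_one]
    rfl
  have hcont : Continuous (fun y : ℝ => (1 - y ^ 3 + y ^ 6 / 2) * (t / (y ^ 2 + t ^ 2))) := by
    apply Continuous.mul (by fun_prop)
    apply Continuous.div continuous_const (by fun_prop)
    intro y; positivity
  rw [h2, ← integral_add]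
  · apply setIntegral_congr_fun measurableSet_Ioi
    intro y _
    simp only [d1_Er]
    by_cases hy : y ∈ Set.Iic (1:ℝ)
    · rw [Set.indicator_of_mem hy, Set.indicator_of_mem hy]; ring
    · rw [Set.indicator_of_notMem hy, Set.indicator_of_notMem hy]; ring
  · refine Integrable.mono' (((d1_intg_pow 8).const_mul 3).const_mul (1 / t)) ?_ ?_
    · apply Measurable.aestronglyMeasurable
      apply d1_Er_meas.mul
      apply Measurable.div measurable_const
      fun_prop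
    · refine (ae_restrict_iff' measurableSet_Ioi).2 (Filter.Eventually.of_forall fun y hy => ?_)
      have hy0 : (0:ℝ) < y := hy
      rw [Real.norm_eq_abs, abs_mul, mul_comm]
      apply mul_le_mul _ (d1_Er_bound y hy0) (abs_nonneg _) (by positivity)
      rw [abs_of_pos (by positivity), div_le_div_iff₀ (by positivity) h0]
      nlinarith [sq_nonneg y]
  · rw [integrable_indicator_iff measurableSet_Iic]
    rw [IntegrableOn, Measure.restrict_restrict measurableSet_Iic]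
    have : Set.Iic (1:ℝ) ∩ Set.Ioi 0 ⊆ Set.Icc 0 1 := fun y hy => ⟨le_of_lt hy.2, hy.1⟩
    exact (hcont.integrableOn_Icc).mono_set this
theorem m_expansion : ∃ (v : ℕ → ℝ) (C : ℝ), v 0 = Real.pi ∧ ∀ t : ℝ, 0 < t → t ≤ 1 →
    |(∫ x : ℝ, Real.exp (-(|x| ^ (3 : ℝ))) * t / (x ^ 2 + t ^ 2))
      - (∑ j ∈ Finset.range 7, v j * t ^ j) + 2 * t ^ 3 * Real.log t| ≤ C * t ^ 7 := by
  have h := ((d1_PO_E d1_Er d1_Er_meas 3 d1_Er_bound).add d1_PO_J).smul 2
  obtain ⟨v, C, hv, hC⟩ := h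
  refine ⟨v, C, by rw [hv]; ring, fun t h0 h1 => ?_⟩
  have := hC t h0 h1
  rw [d1_int_split h0]
  convert this using 2
  ring

end Pool.Agent.Helper615.LogA
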