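import Mathlib
import Pool.Agent.Helper615.LogA.Defs
import Pool.Agent.Helper615.LogA.G1
import Pool.Agent.Helper615.LogA.G2
import Pool.Agent.Helper615.LogA.G4
set_option autoImplicit false

namespace Pool.Agent.Helper615.LogA

open Filter Asymptotics
theorem fin2_f2_pw_pos (e : ℝ) (n : ℕ) : 0 < pw e n := Real.exp_pos _
theorem fin2_f2_pw_zero (n : ℕ) : pw 0 n = 1 := by unfold pw; simp
theorem fin2_f2_eq {θ β : ℝ} {l : ℕ} {F G : ℕ → ℝ → ℝ} (hF : Neg θ β l F) (h : ∀ K t, F K t = G K t) :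
    Neg θ β l G := by
  have : F = G := by
    funext K t
    exact h K t
  rw [← this]
  exact hF
theorem fin2_f2_zero (θ β : ℝ) (hθ : 2 / 3 < θ) (l : ℕ) : Neg θ β l (fun _ _ => 0) := by
  apply Small.neg
  apply small_of_bound θ β 0 (θ * β + 1) 0 0 hθ (by linarith)
  refine Filter.Eventually.of_forall fun K t _ _ => ?_
  simp
theorem fin2_f2_sum {θ β : ℝ} {l : ℕ} (hθ : 2 / 3 < θ) {ι : Type*} (s : Finset ι) (f : ι → ℕ → ℝ → ℝ)
    (h : ∀ i ∈ s, Neg θ β l (f i)) : Neg θ β l (fun K t => ∑ i ∈ s, f i K t) := by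
  classical
  induction s using Finset.induction_on with
  | empty => simpa using fin2_f2_zero θ β hθ l
  | insert a s ha ih =>
    simp only [Finset.sum_insert ha]
    exact (h a (Finset.mem_insert_self a s)).add (ih fun i hi => h i (Finset.mem_insert_of_mem hi))
theorem fin2_f2_sub {θ β : ℝ} {l : ℕ} {F G : ℕ → ℝ → ℝ} (hF : Neg θ β l F) (hG : Neg θ β l G) :
    Neg θ β l (fun K t => F K t - G K t) :=
  fin2_f2_eq (hF.add (hG.const_mul (-1))) (fun K t => by ring)
theorem fin2_f2_an {F : ℕ → ℝ → ℝ} (hF : An F) (θ β : ℝ) (n : ℕ) (hθ : 2 / 3 < θ) (m l : ℕ) (hml : m < l) :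
    Neg θ β l (fun K t => t ^ n * Real.log t ^ m * F K t) := by
  have := An.neg hF θ β n hθ m l hml
  simpa only [Real.rpow_natCast] using this
theorem fin2_f2_sm (θ β b e : ℝ) (n m l : ℕ) (hθ : 2 / 3 < θ) (h : θ * β < θ * n + e)
    (F : ℕ → ℝ → ℝ) (C : ℝ) (hF : ∀ᶠ K : ℕ in atTop, ∀ t : ℝ, 0 < t → t * pw (-(2/3)) K ≤ 1 →
      |F K t| ≤ C * (t ^ n * |Real.log t| ^ m * pw e K)) : Neg θ β l F := by
  apply Small.neg
  apply small_of_bound θ β n e C m hθ h
  filter_upwards [hF] with K hK t ht htK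
  rw [Real.rpow_natCast]
  exact hK t ht htK
theorem fin2_f2_bd {W : ℕ → ℝ → ℝ} {w C : ℝ} (h : ∀ᶠ K : ℕ in atTop, ∀ t : ℝ, 0 < t → t * pw (-(2/3)) K ≤ 1 →
    |W K t - w| ≤ C * (t * pw (-(2/3)) K)) :
    ∃ B : ℝ, 0 ≤ B ∧ ∀ᶠ K : ℕ in atTop, ∀ t : ℝ, 0 < t → t * pw (-(2/3)) K ≤ 1 → |W K t| ≤ B := by
  refine ⟨|w| + |C|, by positivity, ?_⟩
  filter_upwards [h] with K hK t ht htK
  have h3 := hK t ht htK
  have hp : 0 < t * pw (-(2/3)) K := mul_pos ht (fin2_f2_pw_pos _ _)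
  have h5 : C * (t * pw (-(2/3)) K) ≤ |C| := by
    calc C * (t * pw (-(2/3)) K) ≤ |C| * (t * pw (-(2/3)) K) := by gcongr; exact le_abs_self C
      _ ≤ |C| * 1 := by gcongr
      _ = |C| := mul_one _
  have := abs_sub_abs_le_abs_sub (W K t) w
  linarith
theorem final_step2 (c δ e₀ μ g₀ θ : ℝ) (hc : 0 < c) (hδ : 0 < δ) (hδ' : δ ≤ 1 / 4)
    (hθ : θ = 2 / 3 + δ / 12) (a : ℕ) (ha : a = 1 ∨ a = 3)
    (F G A1 A2 WA WL AG : ℕ → ℝ → ℝ) (hA1 : An A1) (hA2 : An A2) (hWA : An WA) (hWL : An WL)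
    (hAG : An AG) (s : Finset ℝ) (κ lam : ℝ → ℝ) (k3 l' k' C : ℝ)
    (hs : ∀ β ∈ s, 3 + 3 / 2 * δ ≤ β)
    (hb : ∀ᶠ K : ℕ in atTop, ∀ t : ℝ, 0 < t → t * pw (-(2/3)) K ≤ 1 →
        |F K t| ≤ C * (t * pw (13/3) K) ∧
        |A2 K t - 4| ≤ C * (t * pw (-(2/3)) K) ∧
        |WA K t - (e₀ + Real.pi)| ≤ C * (t * pw (-(2/3)) K) ∧
        |WL K t - 1| ≤ C * (t * pw (-(2/3)) K) ∧
        |F K t - (A1 K t + t ^ 3 * Real.log t * A2 K t + WA K t * G K t
            - 2 * (t ^ 3 * Real.log t) * WL K t * G K t)| ≤ C * t ^ 7 ∧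
        |G K t| ≤ C * (t * pw (4/3) K) ∧
        |G K t - (k3 * t ^ 3 + -(3 / 4 * c ^ 2 * g₀) * (t ^ 3 * Real.log t)
            + (∑ β ∈ s, (κ β * t ^ β + lam β * (t ^ β * Real.log t)))
            + -(μ * g₀) * (9 / 16 * c ^ 2 * (t ^ (a + 3) * Real.log t ^ 2)
                + l' * (t ^ (a + 3) * Real.log t) + k' * t ^ (a + 3))
            + AG K t)| ≤ C * (t * pw (4/3 + 2 * a / 3 + δ / 2) K)) :
    -((e₀ + Real.pi) * (μ * g₀) * (9 / 16 * c ^ 2)) + (if a = 3 then 3 / 2 * c ^ 2 * g₀ else 0)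
      = 0 := by
  have hθ' : 2 / 3 < θ := by rw [hθ]; linarith
  have hac : ((a : ℝ) = 1) ∨ ((a : ℝ) = 3) := by
    rcases ha with rfl | rfl
    · left; norm_num
    · right; norm_num
  obtain ⟨BA, hBA0, hBA⟩ := fin2_f2_bd (W := WA) (w := e₀ + Real.pi) (C := C)
    (hb.mono fun K hK t ht htK => (hK t ht htK).2.2.1)
  obtain ⟨BL, hBL0, hBL⟩ := fin2_f2_bd (W := WL) (w := 1) (C := C)
    (hb.mono fun K hK t ht htK => (hK t ht htK).2.2.2.1)
  set S : ℝ → ℝ := fun t => ∑ β ∈ s, (κ β * t ^ β + lam β * (t ^ β * Real.log t)) with hS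
  set lam0 : ℝ := -(3 / 4 * c ^ 2 * g₀) with hlam0
  set Gm : ℕ → ℝ → ℝ := fun K t => k3 * t ^ 3 + lam0 * (t ^ 3 * Real.log t)
            + S t + -(μ * g₀) * (9 / 16 * c ^ 2 * (t ^ (a + 3) * Real.log t ^ 2)
                + l' * (t ^ (a + 3) * Real.log t) + k' * t ^ (a + 3))
            + AG K t with hGm
  set β0 : ℝ := (a : ℝ) + 3 with hβ0
  
  have n0 : Neg θ β0 2 F := by
    apply fin2_f2_sm θ β0 1 (13/3) 1 0 2 hθ' _ F C
    · filter_upwards [hb] with K hK t ht htK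
      have := (hK t ht htK).1
      simpa using this
    · rw [hβ0, hθ]
      rcases hac with h | h <;> rw [h] <;> push_cast <;> linarith
  
  have n1 : Neg θ β0 2 A1 := fin2_f2_eq (fin2_f2_an hA1 θ β0 0 hθ' 0 2 (by norm_num)) (fun K t => by simp)
  have n2 : Neg θ β0 2 (fun K t => t ^ 3 * Real.log t * A2 K t) :=
    fin2_f2_eq (fin2_f2_an hA2 θ β0 3 hθ' 1 2 (by norm_num)) (fun K t => by ring)
  have n3 : Neg θ β0 2 (fun K t => t ^ 3 * WA K t) :=
    fin2_f2_eq (fin2_f2_an hWA θ β0 3 hθ' 0 2 (by norm_num)) (fun K t => by ring)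
  have n4 : Neg θ β0 2 (fun K t => t ^ 3 * Real.log t * WA K t) :=
    fin2_f2_eq (fin2_f2_an hWA θ β0 3 hθ' 1 2 (by norm_num)) (fun K t => by ring)
  have n5 : Neg θ β0 2 (fun K t => WA K t * S t) := by
    have h1 := fin2_f2_sum (θ := θ) (β := β0) (l := 2) hθ' s
      (fun β K t => κ β * (t ^ β * Real.log t ^ 0 * WA K t) + lam β * (t ^ β * Real.log t ^ 1 * WA K t))
      (fun β _ => ((An.neg hWA θ β0 β hθ' 0 2 (by norm_num)).const_mul (κ β)).add
        ((An.neg hWA θ β0 β hθ' 1 2 (by norm_num)).const_mul (lam β)))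
    refine fin2_f2_eq h1 (fun K t => ?_)
    rw [hS]
    simp only [Finset.mul_sum]
    apply Finset.sum_congr rfl
    intro β _
    ring
  have n6 : Neg θ β0 2 (fun K t => t ^ (a + 3) * Real.log t * WA K t) :=
    fin2_f2_eq (fin2_f2_an hWA θ β0 (a + 3) hθ' 1 2 (by norm_num)) (fun K t => by ring)
  have n7 : Neg θ β0 2 (fun K t => t ^ (a + 3) * WA K t) :=
    fin2_f2_eq (fin2_f2_an hWA θ β0 (a + 3) hθ' 0 2 (by norm_num)) (fun K t => by ring)
  have n8 : Neg θ β0 2 (fun K t => WA K t * AG K t) :=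
    fin2_f2_eq (fin2_f2_an (hWA.mul hAG) θ β0 0 hθ' 0 2 (by norm_num)) (fun K t => by simp)
  have n9 : Neg θ β0 2 (fun K t => (WA K t - (e₀ + Real.pi)) * (t ^ (a + 3) * Real.log t ^ 2)) := by
    apply fin2_f2_sm θ β0 1 (-(2/3)) (a + 4) 2 2 hθ' _ _ C
    · filter_upwards [hb] with K hK t ht htK
      have h1 := (hK t ht htK).2.2.1
      have h2 : 0 ≤ t ^ (a + 3) * |Real.log t| ^ 2 := by positivity
      rw [abs_mul, abs_mul, abs_pow, abs_pow, abs_of_pos ht]
      calc |WA K t - (e₀ + Real.pi)| * (t ^ (a + 3) * |Real.log t| ^ 2)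
          ≤ (C * (t * pw (-(2/3)) K)) * (t ^ (a + 3) * |Real.log t| ^ 2) := by gcongr
        _ = C * (t ^ (a + 4) * |Real.log t| ^ 2 * pw (-(2/3)) K) := by ring
    · rw [hβ0]
      push_cast
      linarith
  have n10 : Neg θ β0 2 (fun K t => WA K t * (G K t - Gm K t)) := by
    apply fin2_f2_sm θ β0 1 (4/3 + 2 * a / 3 + δ / 2) 1 0 2 hθ' _ _ (BA * C)
    · filter_upwards [hb, hBA] with K hK hKB t ht htK
      have h1 := (hK t ht htK).2.2.2.2.2.2
      have h2 := hKB t ht htK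
      rw [abs_mul]
      calc |WA K t| * |G K t - Gm K t| ≤ BA * (C * (t * pw (4/3 + 2 * a / 3 + δ / 2) K)) := by
            apply mul_le_mul h2 h1 (abs_nonneg _) hBA0
        _ = BA * C * (t ^ 1 * |Real.log t| ^ 0 * pw (4/3 + 2 * a / 3 + δ / 2) K) := by ring
    · rw [hβ0, hθ]
      rcases hac with h | h <;> rw [h] <;> push_cast <;> linarith
  have n11 : Neg θ β0 2 (fun K t => F K t - (A1 K t + t ^ 3 * Real.log t * A2 K t + WA K t * G K t
            - 2 * (t ^ 3 * Real.log t) * WL K t * G K t)) := by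
    apply fin2_f2_sm θ β0 1 0 7 0 2 hθ' _ _ C
    · filter_upwards [hb] with K hK t ht htK
      have h1 := (hK t ht htK).2.2.2.2.1
      rw [fin2_f2_pw_zero]
      simpa using h1
    · rw [hβ0, hθ]
      rcases hac with h | h <;> rw [h] <;> push_cast <;> linarith
  have n12 : Neg θ β0 2 (fun K t => (t ^ 3 * Real.log t) * WL K t * G K t -
      (if a = 3 then lam0 else 0) * (t ^ (a + 3) * Real.log t ^ 2)) := by
    rcases ha with ha1 | ha3
    · have ha' : a ≠ 3 := by omega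
      apply fin2_f2_sm θ β0 1 (4/3) 4 1 2 hθ' _ _ (BL * C)
      · filter_upwards [hb, hBL] with K hK hKB t ht htK
        have h1 := (hK t ht htK).2.2.2.2.2.1
        have h2 := hKB t ht htK
        rw [if_neg ha', zero_mul, sub_zero, abs_mul, abs_mul, abs_mul, abs_pow, abs_of_pos ht]
        calc t ^ 3 * |Real.log t| * |WL K t| * |G K t| = (t ^ 3 * |Real.log t|) * (|WL K t| * |G K t|) := by ring
          _ ≤ (t ^ 3 * |Real.log t|) * (BL * (C * (t * pw (4/3) K))) := by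
              apply mul_le_mul_of_nonneg_left _ (by positivity)
              exact mul_le_mul h2 h1 (abs_nonneg _) hBL0
          _ = BL * C * (t ^ 4 * |Real.log t| ^ 1 * pw (4/3) K) := by ring
      · rw [hβ0, ha1]
        push_cast
        linarith
    · rw [if_pos ha3]
      have hβ6 : β0 = 6 := by rw [hβ0, ha3]; norm_num
      have m1 : Neg θ β0 2 (fun K t => t ^ 6 * Real.log t * WL K t) :=
        fin2_f2_eq (fin2_f2_an hWL θ β0 6 hθ' 1 2 (by norm_num)) (fun K t => by ring)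
      have m2 : Neg θ β0 2 (fun K t => (WL K t - 1) * (t ^ 6 * Real.log t ^ 2)) := by
        apply fin2_f2_sm θ β0 1 (-(2/3)) 7 2 2 hθ' _ _ C
        · filter_upwards [hb] with K hK t ht htK
          have h1 := (hK t ht htK).2.2.2.1
          rw [abs_mul, abs_mul, abs_pow, abs_pow, abs_of_pos ht]
          calc |WL K t - 1| * (t ^ 6 * |Real.log t| ^ 2)
              ≤ (C * (t * pw (-(2/3)) K)) * (t ^ 6 * |Real.log t| ^ 2) := by gcongr
            _ = C * (t ^ 7 * |Real.log t| ^ 2 * pw (-(2/3)) K) := by ring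
        · rw [hβ6]
          push_cast
          linarith
      have m3 : ∀ β ∈ s, ∀ m : ℕ, Neg θ β0 2 (fun K t => t ^ 3 * WL K t * (t ^ β * Real.log t ^ m)) := by
        intro β hβ m
        have hβ' := hs β hβ
        apply Small.neg
        apply small_of_bound θ β0 (3 + β) 0 BL m hθ'
        · rw [hβ6, add_zero]
          apply mul_lt_mul_of_pos_left _ (by linarith)
          linarith
        · filter_upwards [hBL] with K hKB t ht htK
          have h2 := hKB t ht htK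
          have h3 : 0 < t ^ β := Real.rpow_pos_of_pos ht β
          rw [abs_mul, abs_mul, abs_mul, abs_pow, abs_pow, abs_of_pos ht, abs_of_pos h3, fin2_f2_pw_zero,
            Real.rpow_add ht, show (3:ℝ) = ((3:ℕ):ℝ) by norm_num, Real.rpow_natCast]
          calc t ^ 3 * |WL K t| * (t ^ β * |Real.log t| ^ m) ≤ t ^ 3 * BL * (t ^ β * |Real.log t| ^ m) := by gcongr
            _ = BL * (t ^ 3 * t ^ β * |Real.log t| ^ m * 1) := by ring
      have m4 : Neg θ β0 2 (fun K t => t ^ 3 * Real.log t * WL K t * S t) := by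
        have h1 := fin2_f2_sum (θ := θ) (β := β0) (l := 2) hθ' s
          (fun β K t => κ β * (t ^ 3 * WL K t * (t ^ β * Real.log t ^ 1)) +
            lam β * (t ^ 3 * WL K t * (t ^ β * Real.log t ^ 2)))
          (fun β hβ => ((m3 β hβ 1).const_mul (κ β)).add ((m3 β hβ 2).const_mul (lam β)))
        refine fin2_f2_eq h1 (fun K t => ?_)
        rw [hS]
        simp only [Finset.mul_sum]
        apply Finset.sum_congr rfl
        intro β _
        ring
      have m5 : ∀ m : ℕ, Neg θ β0 2 (fun K t => t ^ 9 * Real.log t ^ m * WL K t) := by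
        intro m
        apply fin2_f2_sm θ β0 1 0 9 m 2 hθ' _ _ BL
        · filter_upwards [hBL] with K hKB t ht htK
          have h2 := hKB t ht htK
          rw [abs_mul, abs_mul, abs_pow, abs_pow, abs_of_pos ht, fin2_f2_pw_zero]
          calc t ^ 9 * |Real.log t| ^ m * |WL K t| ≤ t ^ 9 * |Real.log t| ^ m * BL := by gcongr
            _ = BL * (t ^ 9 * |Real.log t| ^ m * 1) := by ring
        · rw [hβ6]
          push_cast
          linarith
      have m6 : Neg θ β0 2 (fun K t => t ^ 3 * Real.log t * (WL K t * AG K t)) :=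
        fin2_f2_eq (fin2_f2_an (hWL.mul hAG) θ β0 3 hθ' 1 2 (by norm_num)) (fun K t => by ring)
      have m7 : Neg θ β0 2 (fun K t => t ^ 3 * Real.log t * WL K t * (G K t - Gm K t)) := by
        apply fin2_f2_sm θ β0 1 (4/3 + 2 * a / 3 + δ / 2) 4 1 2 hθ' _ _ (BL * C)
        · filter_upwards [hb, hBL] with K hK hKB t ht htK
          have h1 := (hK t ht htK).2.2.2.2.2.2
          have h2 := hKB t ht htK
          rw [abs_mul, abs_mul, abs_mul, abs_pow, abs_of_pos ht]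
          calc t ^ 3 * |Real.log t| * |WL K t| * |G K t - Gm K t|
              = (t ^ 3 * |Real.log t|) * (|WL K t| * |G K t - Gm K t|) := by ring
            _ ≤ (t ^ 3 * |Real.log t|) * (BL * (C * (t * pw (4/3 + 2 * a / 3 + δ / 2) K))) := by
                apply mul_le_mul_of_nonneg_left _ (by positivity)
                exact mul_le_mul h2 h1 (abs_nonneg _) hBL0
            _ = BL * C * (t ^ 4 * |Real.log t| ^ 1 * pw (4/3 + 2 * a / 3 + δ / 2) K) := by ring
        · rw [hβ6, hθ, ha3]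
          push_cast
          linarith
      have hsum := ((((((m1.const_mul k3).add (m2.const_mul lam0)).add m4).add
        ((m5 3).const_mul (-(μ * g₀) * (9 / 16 * c ^ 2)))).add
        ((m5 2).const_mul (-(μ * g₀) * l'))).add
        ((m5 1).const_mul (-(μ * g₀) * k'))).add (m6.add m7)
      refine fin2_f2_eq hsum (fun K t => ?_)
      rw [hGm, ha3]
      ring
  
  have hfin : Neg θ β0 2 (fun _ t => (-((e₀ + Real.pi) * (μ * g₀) * (9 / 16 * c ^ 2)) +
      (if a = 3 then 3 / 2 * c ^ 2 * g₀ else 0)) * (t ^ β0 * Real.log t ^ 2)) := by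
    have hsum := fin2_f2_sub (fin2_f2_sub n0 (n1.add (n2.add ((n3.const_mul k3).add ((n4.const_mul lam0).add
      (n5.add ((n6.const_mul (-(μ * g₀) * l')).add ((n7.const_mul (-(μ * g₀) * k')).add
      (n8.add (n10.add (n11.add (n9.const_mul (-(μ * g₀) * (9 / 16 * c ^ 2)))))))))))))) (n12.const_mul (-2))
    refine fin2_f2_eq hsum (fun K t => ?_)
    have e1 : t ^ β0 = t ^ (a + 3) := by
      rw [hβ0, show (a : ℝ) + 3 = ((a + 3 : ℕ) : ℝ) by push_cast; ring, Real.rpow_natCast]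
    have e2 : (if a = 3 then 3 / 2 * c ^ 2 * g₀ else 0) = -2 * (if a = 3 then lam0 else 0) := by
      split_ifs
      · rw [hlam0]; ring
      · simp
    rw [e1, e2, hGm]
    ring
  exact top_lemma θ β0 (by linarith) 2 _ hfin

end Pool.Agent.Helper615.LogA
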